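import Pool.Agent.MP_4f0ed6_gt.Defs

open Set Laplacian Filter Topology MeasureTheory Metric InnerProductSpace
open scoped ContDiff

namespace Pool.Agent.MP_4f0ed6_gt

theorem Asym_up {e m : ℕ} (h₁ : m ≤ 2 ^ e) (h₂ : 10 * 2 ^ m ≤ 2 ^ e) :
    2 ^ ((e + 1) * m) * 2 * ((e + 1) * m + 4 ^ (e + 1)) ≤ (2 ^ e) ^ (m + 3) := by
  have h₃ : e + 1 ≤ 2 ^ e := Nat.lt_two_pow_self
  have h₄ : (4 : ℕ) ^ (e + 1) = 4 * (2 ^ e * 2 ^ e) := by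
    rw [pow_succ, ← mul_pow, mul_comm]
    norm_num
  have h₅ : (2 : ℕ) ^ ((e + 1) * m) = (2 ^ e) ^ m * 2 ^ m := by
    rw [pow_mul, pow_succ, mul_pow]
  have h₆ : (e + 1) * m ≤ 2 ^ e * 2 ^ e := Nat.mul_le_mul h₃ h₁
  rw [h₄, h₅]
  generalize 2 ^ e = q at *
  calc q ^ m * 2 ^ m * 2 * ((e + 1) * m + 4 * (q * q))
      ≤ q ^ m * 2 ^ m * 2 * (q * q + 4 * (q * q)) := by gcongr
    _ = q ^ m * (q * q) * (10 * 2 ^ m) := by ring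
    _ ≤ q ^ m * (q * q) * q := by gcongr
    _ = q ^ (m + 3) := by ring

theorem Asym_choose {q n : ℕ} (h₁ : 2 * (n + 1) ≤ q) (h₂ : 2 ^ (n + 1) * (n + 1).factorial ≤ q) :
    (q : ℝ) ^ n ≤ Nat.choose q (n + 1) := by
  refine le_trans ?_ (Nat.pow_le_choose (α := ℝ) (n + 1) q)
  have hf : (0 : ℝ) < (n + 1).factorial := by exact_mod_cast Nat.factorial_pos _
  have h₃ : (q : ℝ) / 2 ≤ ((q + 1 - (n + 1) : ℕ) : ℝ) := by
    have : q ≤ 2 * (q + 1 - (n + 1)) := by omega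
    have : (q : ℝ) ≤ 2 * ((q + 1 - (n + 1) : ℕ) : ℝ) := by exact_mod_cast this
    linarith
  have h₄ : (2 : ℝ) ^ (n + 1) * (n + 1).factorial ≤ q := by exact_mod_cast h₂
  rw [le_div_iff₀ hf]
  calc (q : ℝ) ^ n * (n + 1).factorial
      = (q : ℝ) ^ n * (2 ^ (n + 1) * (n + 1).factorial) / 2 ^ (n + 1) := by field_simp
    _ ≤ (q : ℝ) ^ n * q / 2 ^ (n + 1) := by gcongr
    _ = ((q : ℝ) / 2) ^ (n + 1) := by rw [div_pow, pow_succ (q : ℝ) n]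
    _ ≤ _ := by gcongr

theorem asym {ε : ℝ} (hε : 0 < ε) : ∃ γ₀ : ℕ, ∀ γ ≥ γ₀, ∃ e m : ℕ, 0 < e ∧ 0 < m ∧ m ≤ 2 ^ e ∧
    2 ^ (e * m) * 2 * (e * m + 4 ^ e) ≤ γ ∧ (γ : ℝ) ^ (1 - ε) ≤ Nat.choose (2 ^ e) m := by
  obtain ⟨n, hn⟩ := exists_nat_ge (4 / ε)
  have hn4 : (0 : ℝ) < (n : ℝ) + 4 := by positivity
  have hδ : 1 - ε ≤ (n : ℝ) / (n + 4) := by
    rw [le_div_iff₀ hn4]
    rw [div_le_iff₀ hε] at hn
    nlinarith
  set g : ℕ → ℕ := fun e => 2 ^ (e * (n + 1)) * 2 * (e * (n + 1) + 4 ^ e) with hg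
  set K : ℕ := 2 * (n + 1) + 10 * 2 ^ (n + 1) + 2 ^ (n + 1) * (n + 1).factorial with hK
  have hge : ∀ e, e + 1 ≤ g e := fun e => by
    have h₁ : 1 ≤ 2 ^ (e * (n + 1)) * 2 := Nat.succ_le_of_lt (by positivity)
    have h₂ : 1 ≤ 4 ^ e := Nat.succ_le_of_lt (by positivity)
    have h₃ : e ≤ e * (n + 1) := Nat.le_mul_of_pos_right e (Nat.succ_pos n)
    calc e + 1 ≤ 1 * (e * (n + 1) + 4 ^ e) := by omega
      _ ≤ g e := Nat.mul_le_mul_right _ h₁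
  refine ⟨g K, fun γ hγ => ?_⟩
  set e := Nat.findGreatest (fun e => g e ≤ γ) γ with he
  have hKγ : K ≤ γ := (Nat.le_succ K).trans ((hge K).trans hγ)
  have h₁ : K ≤ e := Nat.le_findGreatest hKγ hγ
  have h₂ : g e ≤ γ := Nat.findGreatest_spec (P := fun e => g e ≤ γ) hKγ hγ
  have h₃ : γ < g (e + 1) := by
    by_contra k
    have := Nat.le_findGreatest (P := fun e => g e ≤ γ) ((hge e).trans h₂) (not_lt.1 k)
    omega
  have hq : K ≤ 2 ^ e := h₁.trans Nat.lt_two_pow_self.le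
  have h₄ : γ ≤ (2 ^ e) ^ (n + 4) := h₃.le.trans (Asym_up (by omega) (by omega))
  have h₅ : (1 : ℝ) ≤ γ := by
    have := (hge e).trans h₂
    exact_mod_cast (by omega : 1 ≤ γ)
  refine ⟨e, n + 1, by omega, Nat.succ_pos n, by omega, h₂, ?_⟩
  calc (γ : ℝ) ^ (1 - ε) ≤ (γ : ℝ) ^ ((n : ℝ) / (n + 4)) :=
        Real.rpow_le_rpow_of_exponent_le h₅ hδ
    _ ≤ ((((2 ^ e : ℕ) : ℝ)) ^ (n + 4)) ^ ((n : ℝ) / (n + 4)) :=
        Real.rpow_le_rpow (by positivity) (by exact_mod_cast h₄) (by positivity)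
    _ = ((2 ^ e : ℕ) : ℝ) ^ n := by
        rw [← Real.rpow_natCast, ← Real.rpow_mul (by positivity), ← Real.rpow_natCast]
        congr 1
        push_cast
        field_simp
    _ ≤ _ := Asym_choose (by omega) (by omega)

end Pool.Agent.MP_4f0ed6_gt
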