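import Pool.Agent.MP_4f0ed6_gt.Defs

open Real

namespace Pool.Agent.MP_4f0ed6_gt

theorem Asym2_e {m γ : ℕ} (hm : 0 < m) (h : 2 ^ (5 * m ^ 2) ≤ γ) :
    ∃ e : ℕ, m ≤ e ∧ 2 ^ (e * m) * 2 * (e * m + 4 ^ e) ≤ γ ∧
      γ ≤ 10 * 2 ^ m * (2 ^ e) ^ m * (2 ^ e) ^ 2 := by
  classical
  let P : ℕ → Prop := fun e => 2 ^ (e * m) * 2 * (e * m + 4 ^ e) ≤ γ
  have h4 : ∀ e : ℕ, 4 ^ e = 2 ^ e * 2 ^ e := fun e => by rw [← mul_pow]; norm_num
  have hP : P m := by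
    refine le_trans ?_ h
    have h1 : m * m ≤ 4 ^ m := by
      rw [h4]
      exact Nat.mul_le_mul Nat.lt_two_pow_self.le Nat.lt_two_pow_self.le
    calc 2 ^ (m * m) * 2 * (m * m + 4 ^ m) ≤ 2 ^ (m * m) * 2 * (4 ^ m + 4 ^ m) := by gcongr
      _ = 2 ^ (m * m + 2 * m + 2) := by rw [h4]; ring
      _ ≤ _ := Nat.pow_le_pow_right (by norm_num) (by nlinarith)
  have hle : ∀ e, P e → e < γ := fun e he => by
    have h1 : e < 4 ^ e := Nat.lt_pow_self (by norm_num)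
    have h2 : 1 ≤ 2 ^ (e * m) := Nat.one_le_two_pow
    have h3 : 1 * 2 * (0 + 4 ^ e) ≤ 2 ^ (e * m) * 2 * (e * m + 4 ^ e) := by
      gcongr
      exact Nat.zero_le _
    have : 2 ^ (e * m) * 2 * (e * m + 4 ^ e) ≤ γ := he
    omega
  obtain ⟨e, he⟩ : ∃ e, e = Nat.findGreatest P γ := ⟨_, rfl⟩
  have h1 : m ≤ e := he ▸ Nat.le_findGreatest (hle m hP).le hP
  have h2 : P e := he ▸ Nat.findGreatest_spec (hle m hP).le hP
  have h3 : ¬P (e + 1) :=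
    Nat.findGreatest_is_greatest (he ▸ Nat.lt_succ_self e) (hle e h2)
  refine ⟨e, h1, h2, (not_le.1 h3).le.trans ?_⟩
  have h5 : e + 1 ≤ 2 ^ e := Nat.lt_two_pow_self
  have h6 : (e + 1) * m ≤ 2 ^ e * 2 ^ e := Nat.mul_le_mul h5 (by omega)
  calc 2 ^ ((e + 1) * m) * 2 * ((e + 1) * m + 4 ^ (e + 1))
      ≤ 2 ^ ((e + 1) * m) * 2 * (2 ^ e * 2 ^ e + 4 ^ (e + 1)) := by gcongr
    _ = _ := by rw [pow_succ 4, h4]; ring

theorem Asym2_choose {q m : ℕ} (h : 2 * m ≤ q) :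
    (q : ℝ) ^ m ≤ (2 * m) ^ m * Nat.choose q m := by
  have h1 := Nat.pow_le_choose (α := ℝ) m q
  have h2 : (0 : ℝ) < m.factorial := by exact_mod_cast m.factorial_pos
  rw [div_le_iff₀ h2] at h1
  have h3 : (m.factorial : ℝ) ≤ (m : ℝ) ^ m := by exact_mod_cast m.factorial_le_pow
  have h4 : (q : ℝ) ≤ 2 * ((q + 1 - m : ℕ) : ℝ) := by
    exact_mod_cast (by omega : q ≤ 2 * (q + 1 - m))
  calc (q : ℝ) ^ m ≤ (2 * ((q + 1 - m : ℕ) : ℝ)) ^ m := by gcongr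
    _ = 2 ^ m * ((q + 1 - m : ℕ) : ℝ) ^ m := mul_pow _ _ _
    _ ≤ 2 ^ m * (Nat.choose q m * (m : ℝ) ^ m) := by
      gcongr
      exact h1.trans (by gcongr)
    _ = _ := by rw [mul_pow]; ring

theorem asym2 : ∃ γ₀ : ℕ, ∀ γ ≥ γ₀, ∃ e m : ℕ, 0 < e ∧ 0 < m ∧ m ≤ 2 ^ e ∧
    2 ^ (e * m) * 2 * (e * m + 4 ^ e) ≤ γ ∧
    (γ : ℝ) * exp (-5 * √(log γ * log (log γ))) ≤ Nat.choose (2 ^ e) m := by
  refine ⟨⌈exp (exp 14)⌉₊, fun γ hγ => ?_⟩
  have hγ' : exp (exp 14) ≤ (γ : ℝ) := Nat.ceil_le.1 hγ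
  have hγ0 : (0 : ℝ) < γ := (exp_pos _).trans_le hγ'
  obtain ⟨L, hL⟩ : ∃ L, L = log γ := ⟨_, rfl⟩
  have hL1 : exp 14 ≤ L := hL ▸ (le_log_iff_exp_le hγ0).2 hγ'
  have hL0 : 0 < L := (exp_pos _).trans_le hL1
  obtain ⟨l, hl⟩ : ∃ l, l = log L := ⟨_, rfl⟩
  have hl1 : 14 ≤ l := hl ▸ (le_log_iff_exp_le hL0).2 hL1
  have hlL : l ≤ L := hl ▸ (log_le_sub_one_of_pos hL0).trans (by linarith)
  rw [← hL, ← hl]
  obtain ⟨s, hs⟩ : ∃ s, s = √(L * l) := ⟨_, rfl⟩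
  rw [← hs]
  have hl0 : 0 < l := by linarith
  have s2 : s ^ 2 = L * l := hs ▸ sq_sqrt (by positivity)
  have s0 : 0 ≤ s := hs ▸ sqrt_nonneg _
  have ls : l ≤ s := by
    refine (pow_le_pow_iff_left₀ hl0.le s0 two_ne_zero).1 ?_
    nlinarith
  obtain ⟨m, hm⟩ : ∃ m, m = ⌈s / l⌉₊ := ⟨_, rfl⟩
  have m1 : s ≤ m * l := by
    rw [← div_le_iff₀ hl0, hm]
    exact Nat.le_ceil _
  have m2 : m * l ≤ 2 * s := by
    have : (m : ℝ) ≤ s / l + 1 := hm ▸ (Nat.ceil_lt_add_one (by positivity)).le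
    have h2 : (s / l + 1) * l = s + l := by field_simp
    nlinarith
  have m0 : 0 < m := by
    rcases Nat.eq_zero_or_pos m with h | h
    · simp only [h, Nat.cast_zero, zero_mul] at m1
      linarith
    · exact h
  have m0' : (0 : ℝ) < m := by exact_mod_cast m0
  have m3 : L ≤ m * s := by
    refine le_of_mul_le_mul_right ?_ hl0
    nlinarith
  have m4 : (m : ℝ) ^ 2 * l ≤ 4 * L := by
    refine le_of_mul_le_mul_right ?_ hl0
    have : (m * l) ^ 2 ≤ (2 * s) ^ 2 := by gcongr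
    nlinarith
  have m5 : 4 * (m : ℝ) ≤ L := by
    refine (pow_le_pow_iff_left₀ (by positivity) hL0.le two_ne_zero).1 ?_
    nlinarith
  have l2 : log 2 ≤ 7 / 10 := log_two_lt_d9.le.trans (by norm_num)
  obtain ⟨e, e1, e2, e3⟩ := Asym2_e (γ := γ) m0 (by
    have : ((2 ^ (5 * m ^ 2) : ℕ) : ℝ) ≤ γ := by
      rw [← log_le_log_iff (by positivity) hγ0, ← hL]
      push_cast
      rw [log_pow]
      push_cast
      nlinarith
    exact_mod_cast this)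
  have q1 : 2 * m ≤ 2 ^ e := by
    obtain ⟨k, rfl⟩ := Nat.exists_eq_succ_of_ne_zero m0.ne'
    calc 2 * (k + 1) ≤ 2 * 2 ^ k := Nat.mul_le_mul_left _ Nat.lt_two_pow_self
      _ = 2 ^ (k + 1) := by ring
      _ ≤ _ := Nat.pow_le_pow_right (by norm_num) e1
  refine ⟨e, m, by omega, m0, by omega, e2, ?_⟩
  have c1 := Asym2_choose q1
  obtain ⟨q, hq⟩ : ∃ q : ℕ, q = 2 ^ e := ⟨_, rfl⟩
  have q2 : q ^ m ≤ γ := by
    refine le_trans ?_ e2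
    rw [hq, ← pow_mul, mul_assoc]
    exact Nat.le_mul_of_pos_right _ (by positivity)
  rw [← hq] at c1 e3 ⊢
  have q0 : (0 : ℝ) < q := by rw [hq]; positivity
  have q3 : (q : ℝ) ≤ exp s := by
    rw [← log_le_iff_le_exp q0]
    refine le_of_mul_le_mul_left ?_ m0'
    rw [← log_pow]
    refine le_trans ?_ m3
    rw [hL]
    exact log_le_log (by positivity) (by exact_mod_cast q2)
  have q4 : (4 * m : ℝ) ^ m ≤ exp (2 * s) := by
    rw [← log_le_iff_le_exp (by positivity), log_pow]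
    refine le_trans ?_ m2
    rw [hl]
    gcongr
  have q5 : (10 : ℝ) ≤ exp s := by linarith [add_one_le_exp s]
  have e4 : (γ : ℝ) ≤ 10 * 2 ^ m * (q : ℝ) ^ m * (q : ℝ) ^ 2 := by exact_mod_cast e3
  have e5 : (γ : ℝ) ≤ exp (5 * s) * Nat.choose q m := by
    calc (γ : ℝ) ≤ 10 * 2 ^ m * ((2 * m) ^ m * Nat.choose q m) * (q : ℝ) ^ 2 :=
          e4.trans (by gcongr)
      _ = 10 * (4 * m) ^ m * (q : ℝ) ^ 2 * Nat.choose q m := by
          rw [show (4 * m : ℝ) = 2 * (2 * m) by ring, mul_pow 2 (2 * m : ℝ)]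
          ring
      _ ≤ exp s * exp (2 * s) * exp s ^ 2 * Nat.choose q m := by gcongr
      _ = _ := by
          rw [← exp_nat_mul, ← exp_add, ← exp_add]
          congr 2
          push_cast
          ring
  rw [neg_mul, exp_neg, ← div_eq_mul_inv, div_le_iff₀' (exp_pos _)]
  exact e5

end Pool.Agent.MP_4f0ed6_gt
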