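import Pool.Agent.MP_4f0ed6_gt.GDefs

open Set Laplacian Filter Topology MeasureTheory Metric InnerProductSpace
open scoped ContDiff

namespace Pool.Agent.MP_4f0ed6_gt

section

variable {A K : Type} {G : Glue A K}

/-- the gluing relation -/
def Atl0_s (hG : G.Ok) : Setoid {x : A × ℂ // x.2 ∈ G.W x.1} where
  r x y := x = y ∨ ∃ κ, G.ch κ = x.1.1 ∧ G.ch (G.σ κ) = y.1.1 ∧ x.1.2 ∈ G.O κ ∧ y.1.2 = G.τ κ x.1.2
  iseqv := by
    refine ⟨fun _ => Or.inl rfl, ?_, ?_⟩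
    · rintro x y (rfl | ⟨κ, h1, h2, h3, h4⟩)
      · exact Or.inl rfl
      · exact Or.inr ⟨G.σ κ, h2, by rw [hG.σσ, h1], h4 ▸ hG.maps κ _ h3, by rw [h4, hG.inv κ _ h3]⟩
    · rintro x y z (rfl | ⟨κ, h1, h2, h3, h4⟩) h
      · exact h
      rcases h with rfl | ⟨κ', k1, k2, k3, k4⟩
      · exact Or.inr ⟨κ, h1, h2, h3, h4⟩
      obtain rfl : G.σ κ = κ' := hG.disj _ _ _ (h2.trans k1.symm) (h4 ▸ hG.maps κ _ h3) k3
      refine Or.inl (Subtype.ext (Prod.ext ?_ ?_))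
      · rw [← h1, ← k2, hG.σσ]
      · rw [k4, h4, hG.inv κ _ h3]

open Classical in
/-- the parametrisations -/
noncomputable def Atl0_p (hG : G.Ok) (a : A) (z : ℂ) : Quotient (Atl0_s hG) :=
  Quotient.mk _ (if h : z ∈ G.W a then ⟨(a, z), h⟩
    else ⟨(a, (hG.core a).choose), (hG.core a).choose_spec.1⟩)

theorem Atl0_p_eq (hG : G.Ok) {a : A} {z : ℂ} (h : z ∈ G.W a) :
    Atl0_p hG a z = Quotient.mk _ ⟨(a, z), h⟩ := by rw [Atl0_p, dif_pos h]

theorem Atl0_key (hG : G.Ok) {a b : A} {z z' : ℂ} (h : z ∈ G.W a) (h' : z' ∈ G.W b) :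
    Atl0_p hG a z = Atl0_p hG b z' ↔
      (a = b ∧ z = z') ∨ ∃ κ, G.ch κ = a ∧ G.ch (G.σ κ) = b ∧ z ∈ G.O κ ∧ z' = G.τ κ z := by
  rw [Atl0_p_eq hG h, Atl0_p_eq hG h', Quotient.eq]
  exact or_congr_left (Subtype.ext_iff.trans Prod.ext_iff)

/-- the topology of the glued surface -/
@[reducible] def Atl0_top (hG : G.Ok) : TopologicalSpace (Quotient (Atl0_s hG)) where
  IsOpen U := ∀ a, IsOpen (G.W a ∩ Atl0_p hG a ⁻¹' U)
  isOpen_univ a := by simpa using hG.W_open a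
  isOpen_inter U V hU hV a := by
    have := (hU a).inter (hV a)
    rwa [← inter_inter_distrib_left, ← preimage_inter] at this
  isOpen_sUnion S hS a := by
    rw [preimage_sUnion, inter_iUnion₂]
    exact isOpen_biUnion fun U hU => hS U hU a

theorem Atl0_inj (hG : G.Ok) (a : A) : InjOn (Atl0_p hG a) (G.W a) := fun z h z' h' e => by
  rcases (Atl0_key hG h h').1 e with k | ⟨κ, k1, k2, -⟩
  · exact k.2
  · exact absurd (k2.trans k1.symm) (hG.ch_ne κ)

theorem Atl0_open (hG : G.Ok) {a : A} {U : Set ℂ} (hU : IsOpen U) (hs : U ⊆ G.W a) (b : A) :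
    IsOpen (G.W b ∩ Atl0_p hG b ⁻¹' (Atl0_p hG a '' U)) := by
  rw [isOpen_iff_forall_mem_open]
  rintro z ⟨hz, u, hu, e⟩
  rcases (Atl0_key hG hz (hs hu)).1 e.symm with ⟨rfl, rfl⟩ | ⟨κ, rfl, rfl, k3, rfl⟩
  · exact ⟨U, fun w hw => ⟨hs hw, w, hw, rfl⟩, hU, hu⟩
  · refine ⟨G.O κ ∩ G.τ κ ⁻¹' U, fun w hw => ⟨hG.O_sub κ hw.1, _, hw.2, ?_⟩,
      (hG.hol κ).continuousOn.isOpen_inter_preimage (hG.O_open κ) hU, k3, hu⟩
    exact ((Atl0_key hG (hG.O_sub κ hw.1) (hs hw.2)).2 (Or.inr ⟨κ, rfl, rfl, hw.1, rfl⟩)).symm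

/-- the parametrisations as homeomorphisms -/
noncomputable def Atl0_e (hG : G.Ok) (a : A) :
    @OpenPartialHomeomorph ℂ (Quotient (Atl0_s hG)) _ (Atl0_top hG) :=
  letI := Atl0_top hG
  OpenPartialHomeomorph.ofContinuousOpenRestrict ((Atl0_inj hG a).toPartialEquiv _ _)
    ((continuousOn_open_iff (hG.W_open a)).2 fun _ hU => hU a)
    (fun V hV => by
      have := Atl0_open hG ((hG.W_open a).isOpenMap_subtype_val V hV)
        (Subtype.coe_image_subset _ _)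
      rw [image_image] at this
      exact this)
    (hG.W_open a)

end

theorem Glue.Ok.exists_atl {A K : Type} {G : Glue A K} (hG : G.Ok) :
    Nonempty G.Atl := by
  let := Atl0_top hG
  refine ⟨{ M := Quotient (Atl0_s hG)
            top := Atl0_top hG
            e := fun a => (Atl0_e hG a).symm
            idx := fun q => q.out.1.1
            target := fun _ => rfl
            mem := fun q => ⟨q.out.1.2, q.out.2, ?_⟩
            surj := fun a => ?_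
            glue := fun κ z hz => ?_
            sep := fun a b z h z' h' e => (Atl0_key hG h h').1 e }⟩
  · exact (Atl0_p_eq hG q.out.2).trans q.out_eq
  · obtain ⟨z, hz, h⟩ := hG.core a
    refine ⟨Quotient.mk _ ⟨(a, z), hz⟩, ?_⟩
    rcases (Atl0_s hG).symm (Quotient.mk_out (s := Atl0_s hG) ⟨(a, z), hz⟩) with e | ⟨κ, k1, -, k3, -⟩
    · exact congrArg (fun x => x.1.1) e.symm
    · exact absurd k3 (h κ k1)
  · exact (Atl0_key hG (hG.O_sub κ hz) (hG.O_sub _ (hG.maps κ z hz))).2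
      (Or.inr ⟨κ, rfl, rfl, hz, rfl⟩)

end Pool.Agent.MP_4f0ed6_gt
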