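import Pool.Agent.MP_4f0ed6_gt.GDefs

open Set Laplacian Filter Topology MeasureTheory Metric InnerProductSpace
open scoped ContDiff

namespace Pool.Agent.MP_4f0ed6_gt

variable {A K : Type} [Fintype A] [Fintype K] {G : Glue A K}

omit [Fintype A] [Fintype K] in
theorem Atl1_rep (X : G.Atl) (q : X.M) : ∃ a, ∃ z ∈ G.W a, (X.e a).symm z = q :=
  ⟨X.idx q, X.e (X.idx q) q, X.target _ ▸ (X.e _).map_source (X.mem q),
    (X.e _).left_inv (X.mem q)⟩

omit [Fintype A] [Fintype K] in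
theorem Atl1_cont (X : G.Atl) (a : A) : ContinuousOn (X.e a).symm (G.W a) :=
  X.target a ▸ (X.e a).continuousOn_symm

omit [Fintype A] [Fintype K] in
theorem Atl1_nhds (X : G.Atl) {a : A} {z : ℂ} (hz : z ∈ G.W a) :
    map (X.e a).symm (𝓝 z) = 𝓝 ((X.e a).symm z) :=
  (X.e a).symm.map_nhds_eq (by rwa [OpenPartialHomeomorph.symm_source, X.target])

theorem Glue.Atl.t2 (hG : G.Ok) (X : G.Atl) : T2Space X.M := by
  refine t2Space_iff_disjoint_nhds.2 fun q q' hne => ?_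
  obtain ⟨a, z, hz, rfl⟩ := Atl1_rep X q
  obtain ⟨b, z', hz', rfl⟩ := Atl1_rep X q'
  have h1 : ∀ᶠ p in 𝓝 (z, z'), p.1 ∈ G.W a :=
    continuous_fst.continuousAt.eventually ((hG.W_open a).mem_nhds hz)
  have h2 : ∀ᶠ p in 𝓝 (z, z'), p.2 ∈ G.W b :=
    continuous_snd.continuousAt.eventually ((hG.W_open b).mem_nhds hz')
  have h3 : ∀ᶠ p : ℂ × ℂ in 𝓝 (z, z'), a = b → p.1 ≠ p.2 := by
    refine eventually_imp_distrib_left.2 ?_
    rintro rfl
    exact (isOpen_ne_fun continuous_fst continuous_snd).mem_nhds fun h : z = z' => hne (by rw [h])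
  have h4 : ∀ᶠ p : ℂ × ℂ in 𝓝 (z, z'), ∀ κ, G.ch κ = a → G.ch (G.σ κ) = b → p.1 ∈ G.O κ →
      p.2 ≠ G.τ κ p.1 := by
    refine eventually_all.2 fun κ => eventually_imp_distrib_left.2 ?_
    rintro rfl
    refine eventually_imp_distrib_left.2 ?_
    rintro rfl
    by_cases h : z ∈ G.O κ
    · have hc : ContinuousAt (G.τ κ) z :=
        (hG.hol κ).continuousOn.continuousAt ((hG.O_open κ).mem_nhds h)
      have hn : z' ≠ G.τ κ z := fun e => hne (by rw [e]; exact X.glue κ z h)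
      have hc' : ContinuousAt (fun p : ℂ × ℂ => p.2 - G.τ κ p.1) (z, z') :=
        continuousAt_snd.sub (ContinuousAt.comp (f := Prod.fst) hc continuousAt_fst)
      filter_upwards [hc'.eventually_ne (sub_ne_zero.2 hn)] with p hp _
      exact sub_ne_zero.1 hp
    · obtain ⟨C, hC, k1, k2⟩ := exists_compact_subset (hG.W_open _) hz'
      have k3 : ∀ᶠ p : ℂ × ℂ in 𝓝 (z, z'), p.1 ∈ G.O κ → G.τ κ p.1 ∉ C :=
        (continuous_fst.tendsto (z, z')).eventually (hG.closed κ C hC k2 z hz h)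
      have k4 : ∀ᶠ p : ℂ × ℂ in 𝓝 (z, z'), p.2 ∈ C :=
        (continuous_snd.tendsto (z, z')).eventually (mem_interior_iff_mem_nhds.1 k1)
      filter_upwards [k3, k4] with p k5 k6 k7 e
      exact k5 k7 (e ▸ k6)
  have h5 : ∀ᶠ p : ℂ × ℂ in 𝓝 z ×ˢ 𝓝 z', (X.e a).symm p.1 ≠ (X.e b).symm p.2 := by
    rw [← nhds_prod_eq]
    filter_upwards [h1, h2, h3, h4] with p k1 k2 k3 k4 e
    rcases X.sep a b _ k1 _ k2 e with ⟨k5, k6⟩ | ⟨κ, k5, k6, k7, k8⟩
    · exact k3 k5 k6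
    · exact k4 κ k5 k6 k7 k8
  obtain ⟨U, hU, V, hV, h6⟩ := mem_prod_iff.1 h5
  rw [← Atl1_nhds X hz, ← Atl1_nhds X hz']
  refine Filter.disjoint_iff.2 ⟨_, image_mem_map hU, _, image_mem_map hV, Set.disjoint_left.2 ?_⟩
  rintro _ ⟨w, hw, rfl⟩ ⟨w', hw', e⟩
  exact h6 (mk_mem_prod hw hw') e.symm

theorem Glue.Atl.compact (hG : G.Ok) (X : G.Atl) : CompactSpace X.M := by
  refine ⟨(isCompact_iUnion fun a => (hG.Cp_compact a).image_of_continuousOn
    ((Atl1_cont X a).mono (hG.Cp_sub a))).of_isClosed_subset isClosed_univ fun q _ => ?_⟩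
  obtain ⟨a, z, hz, rfl⟩ := Atl1_rep X q
  rcases hG.cover a z hz with h | ⟨κ, rfl, h1, h2⟩
  · exact mem_iUnion.2 ⟨a, z, h, rfl⟩
  · exact mem_iUnion.2 ⟨_, _, h2, (X.glue κ z h1).symm⟩

theorem Glue.Atl.connected (hG : G.Ok) (X : G.Atl) : ConnectedSpace X.M := by
  obtain ⟨a₀⟩ := hG.ne
  obtain ⟨z₀, hz₀, -⟩ := hG.core a₀
  have hS : ∀ a, IsPreconnected ((X.e a).symm '' G.W a) := fun a =>
    (hG.W_conn a).image _ (Atl1_cont X a)
  have key : ∀ a, (X.e a).symm '' G.W a ⊆ connectedComponent ((X.e a₀).symm z₀) := fun a => by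
    induction hG.conn a₀ a with
    | refl => exact (hS a₀).subset_connectedComponent ⟨z₀, hz₀, rfl⟩
    | tail _ h ih =>
      obtain ⟨κ, rfl, rfl⟩ := h
      obtain ⟨z, hz⟩ := hG.O_ne κ
      rw [connectedComponent_eq (ih ⟨z, hG.O_sub κ hz, rfl⟩)]
      exact (hS _).subset_connectedComponent
        ⟨_, hG.O_sub _ (hG.maps κ z hz), (X.glue κ z hz).symm⟩
  refine connectedSpace_iff_connectedComponent.2
    ⟨(X.e a₀).symm z₀, eq_univ_of_forall fun q => ?_⟩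
  obtain ⟨a, z, hz, rfl⟩ := Atl1_rep X q
  exact key a ⟨z, hz, rfl⟩

end Pool.Agent.MP_4f0ed6_gt
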