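import Pool.Agent.MP_4f0ed6_gt.AtlM

open Set Laplacian Filter Topology MeasureTheory Metric InnerProductSpace
open scoped ContDiff

namespace Pool.Agent.MP_4f0ed6_gt

open scoped Manifold

variable {A K : Type} {G : Glue A K}

theorem AtlF_mem (hG : G.Ok) (X : G.Atl) (f : G.forms) :
    (fun x => f.1 (X.idx x)) ∈ holForms X.M := by
  refine ⟨fun x => ?_, fun x z hz => ?_, fun x y q hq => ?_⟩
  · rw [X.chartAt_eq, X.target]
    exact f.2.1 _
  · rw [X.chartAt_eq, X.target] at hz
    exact f.2.2.1 _ z hz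
  · simp only [X.chartAt_eq] at hq ⊢
    rcases X.trans hG hq.1 hq.2 with h | ⟨κ, h1, h2, h3, h4, h5⟩
    · rw [← h, X.trans_self hG hq.1, mul_one]
    · rw [h5.deriv_eq, h4]
      have := f.2.2.2 κ _ h3
      rwa [h1, h2] at this

/-- forms of the gluing data as forms on the surface -/
def AtlF_map (hG : G.Ok) (X : G.Atl) : G.forms →ₗ[ℂ] holForms X.M where
  toFun f := ⟨fun x => f.1 (X.idx x), AtlF_mem hG X f⟩
  map_add' _ _ := rfl
  map_smul' _ _ := rfl

theorem AtlF_eq (hG : G.Ok) (X : G.Atl) (F : holForms X.M) {x y : X.M}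
    (h : X.idx x = X.idx y) : F.1 x = F.1 y := by
  funext z
  by_cases hz : z ∈ (X.e (X.idx x)).target
  · have h1 := (X.e (X.idx x)).map_target hz
    have h2 := F.2.2.2 x y ((X.e (X.idx x)).symm z) (by
      simp only [X.chartAt_eq, ← h]
      exact ⟨h1, h1⟩)
    simp only [X.chartAt_eq, ← h] at h2
    rw [X.trans_self hG h1, mul_one, (X.e (X.idx x)).right_inv hz] at h2
    exact h2
  · rw [F.2.2.1 x z hz, F.2.2.1 y z (by rw [X.chartAt_eq, ← h]; exact hz)]

theorem Glue.Atl.genus_eq (hG : G.Ok) (X : G.Atl) : genus X.M = Module.finrank ℂ G.forms := by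
  choose x hx using X.surj
  refine (LinearEquiv.ofBijective (AtlF_map hG X) ⟨fun f g h => ?_, fun F => ?_⟩).finrank_eq.symm
  · refine Subtype.ext (funext fun α => ?_)
    have h1 : f.1 (X.idx (x α)) = g.1 (X.idx (x α)) := congrFun (congrArg Subtype.val h) (x α)
    rwa [hx] at h1
  · refine ⟨⟨fun α => F.1 (x α), fun α => ?_, fun α z hz => ?_, fun κ z hz => ?_⟩, ?_⟩
    · have := F.2.1 (x α)
      rwa [X.chartAt_eq, hx, X.target] at this
    · refine F.2.2.1 (x α) z ?_
      rwa [X.chartAt_eq, hx, X.target]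
    · obtain ⟨h1, h2, h3, h4, h5⟩ := X.over hG hz
      have h6 := F.2.2.2 (x (G.ch κ)) (x (G.ch (G.σ κ))) ((X.e (G.ch κ)).symm z) (by
        simp only [X.chartAt_eq, hx]
        exact ⟨h1, h2⟩)
      simp only [X.chartAt_eq, hx] at h6
      rw [h3, h4, h5] at h6
      exact h6
    · refine Subtype.ext (funext fun y => ?_)
      exact AtlF_eq hG X F (hx _)

end Pool.Agent.MP_4f0ed6_gt
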