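import Pool.Agent.MP_4f0ed6_gt.GDefs

open Set Laplacian Filter Topology MeasureTheory Metric InnerProductSpace
open scoped ContDiff

namespace Pool.Agent.MP_4f0ed6_gt

open scoped Manifold

variable {A K : Type} {G : Glue A K}

theorem AtlM_glue (hG : G.Ok) (X : G.Atl) {κ : K} {w : ℂ} (hw : w ∈ G.O κ) :
    X.e (G.ch (G.σ κ)) ((X.e (G.ch κ)).symm w) = G.τ κ w := by
  rw [X.glue κ w hw]
  apply (X.e (G.ch (G.σ κ))).right_inv
  rw [X.target]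
  exact hG.O_sub _ (hG.maps κ w hw)

theorem AtlM_ev (hG : G.Ok) (X : G.Atl) {κ : K} {z : ℂ} (hz : z ∈ G.O κ) :
    X.e (G.ch (G.σ κ)) ∘ (X.e (G.ch κ)).symm =ᶠ[𝓝 z] G.τ κ := by
  filter_upwards [(hG.O_open κ).mem_nhds hz] with w hw
  exact AtlM_glue hG X hw

theorem AtlM_ev_self (X : G.Atl) {α : A} {z : ℂ} (hz : z ∈ (X.e α).target) :
    X.e α ∘ (X.e α).symm =ᶠ[𝓝 z] id := by
  filter_upwards [(X.e α).open_target.mem_nhds hz] with w hw
  exact (X.e α).right_inv hw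

theorem Glue.Atl.trans (hG : G.Ok) (X : G.Atl) {α β : A} {q : X.M} (hα : q ∈ (X.e α).source)
    (hβ : q ∈ (X.e β).source) :
    α = β ∨ ∃ κ, G.ch κ = α ∧ G.ch (G.σ κ) = β ∧ X.e α q ∈ G.O κ ∧
      X.e β q = G.τ κ (X.e α q) ∧ X.e β ∘ (X.e α).symm =ᶠ[𝓝 (X.e α q)] G.τ κ := by
  have h1 : X.e α q ∈ G.W α := by
    rw [← X.target]; exact (X.e α).map_source hα
  have h2 : X.e β q ∈ G.W β := by
    rw [← X.target]; exact (X.e β).map_source hβ
  have h3 : (X.e α).symm (X.e α q) = (X.e β).symm (X.e β q) := by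
    rw [(X.e α).left_inv hα, (X.e β).left_inv hβ]
  rcases X.sep α β _ h1 _ h2 h3 with h | ⟨κ, rfl, rfl, hz, hτ⟩
  · exact Or.inl h.1
  · exact Or.inr ⟨κ, rfl, rfl, hz, hτ, AtlM_ev hG X hz⟩

theorem Glue.Atl.trans_self (hG : G.Ok) (X : G.Atl) {α : A} {q : X.M}
    (hα : q ∈ (X.e α).source) : deriv (X.e α ∘ (X.e α).symm) (X.e α q) = 1 := by
  have _h := hG.ne
  rw [(AtlM_ev_self X ((X.e α).map_source hα)).deriv_eq]
  exact deriv_id _

theorem Glue.Atl.over (hG : G.Ok) (X : G.Atl) {κ : K} {z : ℂ} (hz : z ∈ G.O κ) :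
    (X.e (G.ch κ)).symm z ∈ (X.e (G.ch κ)).source ∧
      (X.e (G.ch κ)).symm z ∈ (X.e (G.ch (G.σ κ))).source ∧
      X.e (G.ch κ) ((X.e (G.ch κ)).symm z) = z ∧
      X.e (G.ch (G.σ κ)) ((X.e (G.ch κ)).symm z) = G.τ κ z ∧
      deriv (X.e (G.ch (G.σ κ)) ∘ (X.e (G.ch κ)).symm) z = deriv (G.τ κ) z := by
  have h1 : z ∈ (X.e (G.ch κ)).target := by
    rw [X.target]; exact hG.O_sub κ hz
  have h2 : G.τ κ z ∈ (X.e (G.ch (G.σ κ))).target := by
    rw [X.target]; exact hG.O_sub _ (hG.maps κ z hz)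
  refine ⟨(X.e _).map_target h1, ?_, (X.e _).right_inv h1, AtlM_glue hG X hz,
    (AtlM_ev hG X hz).deriv_eq⟩
  rw [X.glue κ z hz]
  exact (X.e _).map_target h2

theorem Glue.Atl.isManifold (hG : G.Ok) (X : G.Atl) : IsManifold 𝓘(ℂ) ω X.M := by
  apply isManifold_of_contDiffOn
  rintro e e' ⟨α, rfl⟩ ⟨β, rfl⟩
  simp only [mfld_simps]
  intro z hz
  apply ContDiffAt.contDiffWithinAt
  have hq : (X.e α).symm z ∈ (X.e α).source := (X.e α).map_target hz.1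
  have hz' : X.e α ((X.e α).symm z) = z := (X.e α).right_inv hz.1
  rcases X.trans hG hq hz.2 with rfl | ⟨κ, _, _, hO, _, hev⟩
  · exact contDiffAt_id.congr_of_eventuallyEq (AtlM_ev_self X hz.1)
  · rw [hz'] at hO hev
    exact ((hG.hol κ).analyticAt ((hG.O_open κ).mem_nhds hO)).contDiffAt.congr_of_eventuallyEq
      hev

end Pool.Agent.MP_4f0ed6_gt
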