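import Pool.Agent.MP_4f0ed6_gt.Fam0

open Set Laplacian Filter Topology MeasureTheory Metric InnerProductSpace
open scoped ContDiff

namespace Pool.Agent.MP_4f0ed6_gt

namespace Glue

variable {A K : Type} {G : Glue A K} {k : WithTop ℕ∞} {f g φ : A → ℂ → ℝ}

open Classical in
theorem Fam_in (hG : G.Ok) {α : A} {κ : K} {z : ℂ} (hz : G.ch κ = α ∧ z ∈ G.O κ) (F : ℂ → ℝ) :
    (fun w => if G.ch κ = α ∧ w ∈ G.O κ then F w else 0) =ᶠ[𝓝 z] F := by
  filter_upwards [(hG.O_open κ).mem_nhds hz.2] with w hw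
  rw [if_pos ⟨hz.1, hw⟩]

open Classical in
theorem Fam_out (hG : G.Ok) (h : G.CS k f) {α : A} {κ : K} {z : ℂ} (hW : z ∈ G.W α)
    (hz : ¬ (G.ch κ = α ∧ z ∈ G.O κ)) (F : ℂ → ℝ)
    (hF : ∀ w, f (G.ch (G.σ κ)) (G.τ κ w) = 0 → F w = 0) :
    (fun w => if G.ch κ = α ∧ w ∈ G.O κ then F w else 0) =ᶠ[𝓝 z] fun _ => 0 := by
  by_cases hc : G.ch κ = α
  · have hO : z ∉ G.O κ := fun hO => hz ⟨hc, hO⟩
    have hW' : z ∈ G.W (G.ch κ) := by rw [hc]; exact hW
    have := hG.closed κ (tsupport (f (G.ch (G.σ κ)))) (h _).2.1.isCompact (h _).2.2 z hW' hO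
    filter_upwards [this] with w hw
    by_cases hw' : G.ch κ = α ∧ w ∈ G.O κ
    · rw [if_pos hw']
      exact hF w (image_eq_zero_of_notMem_tsupport (hw hw'.2))
    · rw [if_neg hw']
  · filter_upwards with w
    rw [if_neg (fun hw => hc hw.1)]

theorem Fam_comp (hG : G.Ok) (h : G.CS k f) {κ : K} {z : ℂ} (hz : z ∈ G.O κ) :
    ContDiffAt ℝ k (fun w => f (G.ch (G.σ κ)) (G.τ κ w)) z :=
  ((h _).1.contDiffAt (x := G.τ κ z)).comp z (analytic_real_smooth (hG.analytic hz) k)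

open Classical in
theorem Fam_term (hG : G.Ok) (h : G.CS k f) {α : A} (κ : K) {z : ℂ} (hW : z ∈ G.W α) :
    ContDiffAt ℝ k
      (fun w => if G.ch κ = α ∧ w ∈ G.O κ then f (G.ch (G.σ κ)) (G.τ κ w) else 0) z := by
  by_cases hz : G.ch κ = α ∧ z ∈ G.O κ
  · exact (Fam_comp hG h hz.2).congr_of_eventuallyEq (Fam_in hG hz _)
  · exact contDiffAt_const.congr_of_eventuallyEq (Fam_out hG h hW hz _ (fun _ hw => hw))

variable [Fintype K]

theorem gf_smooth (hG : G.Ok) (h : G.CS k f) (α : A) : ContDiffOn ℝ k (G.gf f α) (G.W α) := by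
  intro z hz
  apply ContDiffAt.contDiffWithinAt
  unfold gf
  exact (h α).1.contDiffAt.add (ContDiffAt.sum fun κ _ => Fam_term hG h κ hz)

theorem gd_smooth (hG : G.Ok) (h : G.CS k g) (α : A) : ContDiffOn ℝ k (G.gd g α) (G.W α) := by
  intro z hW
  apply ContDiffAt.contDiffWithinAt
  unfold gd
  refine (h α).1.contDiffAt.add (ContDiffAt.sum fun κ _ => ?_)
  by_cases hz : G.ch κ = α ∧ z ∈ G.O κ
  · refine ContDiffAt.congr_of_eventuallyEq ?_ (Fam_in hG hz _)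
    refine (Fam_comp hG h hz.2).mul ?_
    exact ContDiffAt.norm_sq ℝ (analytic_real_smooth (hG.analytic hz.2).deriv k)
  · refine contDiffAt_const.congr_of_eventuallyEq (Fam_out hG h hW hz _ (fun w hw => ?_))
    rw [hw, zero_mul]

theorem lap_gf (hG : G.Ok) (h : G.CS ∞ f) {α : A} {z : ℂ} (hz : z ∈ G.W α) :
    Δ (G.gf f α) z = G.gd (fun α => Δ (f α)) α z := by
  have h2 : G.CS 2 f := h.of_le (by norm_cast)
  unfold gf gd
  rw [lap_add (h2 α).1.contDiffAt (ContDiffAt.sum fun κ _ => Fam_term hG h2 κ hz),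
    lap_sum _ _ (fun κ _ => Fam_term hG h2 κ hz)]
  congr 1
  refine Finset.sum_congr rfl fun κ _ => ?_
  by_cases hk : G.ch κ = α ∧ z ∈ G.O κ
  · rw [if_pos hk, lap_congr (Fam_in hG hk _),
      laplacian_comp_hol (h2 _).1.contDiffAt (hG.analytic hk.2), mul_comm]
  · rw [if_neg hk, lap_congr (Fam_out hG h2 hz hk _ (fun _ hw => hw)), lap_const]

end Glue

end Pool.Agent.MP_4f0ed6_gt
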