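import Pool.Agent.MP_4f0ed6_gt.Atl0
import Pool.Agent.MP_4f0ed6_gt.Atl1
import Pool.Agent.MP_4f0ed6_gt.AtlF
import Pool.Agent.MP_4f0ed6_gt.Fam

open Set Laplacian Filter Topology MeasureTheory Metric InnerProductSpace
open scoped ContDiff

namespace Pool.Agent.MP_4f0ed6_gt

section

variable {A K : Type} {G : Glue A K}

theorem AtlR_val (hG : G.Ok) (X : G.Atl) {φ : A → ℂ → ℝ} (hφ : G.Compat φ) {a : A} {z : ℂ}
    (hz : z ∈ G.W a) :
    φ (X.idx ((X.e a).symm z)) (X.e (X.idx ((X.e a).symm z)) ((X.e a).symm z)) = φ a z := by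
  have hz' : z ∈ (X.e a).target := by rwa [X.target]
  have h0 := (X.e a).right_inv hz'
  rcases X.trans hG ((X.e a).map_target hz') (X.mem _) with h | ⟨κ, h1, h2, h3, h4, -⟩
  · rw [← h, h0]
  · rw [h0] at h3 h4
    have := hφ κ z h3
    rw [h1, h2] at this
    rw [h4, this]

variable [Fintype K]

theorem AtlR_gd {ν φ : A → ℂ → ℝ} (hφ : G.Compat φ) (c : ℝ) (a : A) (z : ℂ) :
    G.gd (fun α z => c * ν α z * φ α z) a z = c * G.gd ν a z * φ a z := by
  rw [Glue.gd_mul hφ (fun α z => c * ν α z), Glue.gd_const_mul]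

/-- the metric with density `2 π gd ν` -/
noncomputable def AtlR_g (hG : G.Ok) (X : G.Atl) {ν : A → ℂ → ℝ} (hν : G.CS ∞ ν)
    (hpos : ∀ α, ∀ z ∈ G.W α, 0 < G.gd ν α z) : ConfMetric X.M where
  ρ x z := 2 * Real.pi * G.gd ν (X.idx x) z
  smooth x := by
    rw [X.chartAt_eq, X.target]
    exact contDiffOn_const.mul (Glue.gd_smooth hG hν _)
  pos x z hz := by
    rw [X.chartAt_eq, X.target] at hz
    exact mul_pos (mul_pos two_pos Real.pi_pos) (hpos _ z hz)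
  compat x y q hq := by
    simp only [X.chartAt_eq] at hq ⊢
    rcases X.trans hG hq.1 hq.2 with h | ⟨κ, h1, h2, h3, h4, h5⟩
    · rw [← h, X.trans_self hG hq.1, norm_one, one_pow, mul_one]
    · have := Glue.gd_compat hG ν h3
      rw [h1, h2] at this
      rw [h5.deriv_eq, h4, this, mul_assoc (2 * Real.pi)]

theorem AtlR_up (hG : G.Ok) (X : G.Atl) {ν : A → ℂ → ℝ} (hν : G.CS ∞ ν)
    (hpos : ∀ α, ∀ z ∈ G.W α, 0 < G.gd ν α z) {φ : A → ℂ → ℝ}
    (hφ : G.GSol φ fun α z => -1 * ν α z * φ α z) :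
    IsEigen (AtlR_g hG X hν hpos) 1 fun q => φ (X.idx q) (X.e (X.idx q) q) := by
  intro x
  rw [X.chartAt_eq, X.target]
  have hv : ∀ z ∈ G.W (X.idx x),
      ((fun q => φ (X.idx q) (X.e (X.idx q) q)) ∘ (X.e (X.idx x)).symm) z = φ (X.idx x) z :=
    fun z hz => AtlR_val hG X hφ.compat hz
  refine ⟨(hφ.smooth _).congr hv, fun z hz => ?_⟩
  have h1 := lap_congr (eventually_of_mem ((hG.W_open _).mem_nhds hz) hv)
  have h2 := (mul_pos (mul_pos two_pos Real.pi_pos) (hpos _ z hz)).ne'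
  rw [h1, hφ.lap _ z hz, AtlR_gd hφ.compat]
  beta_reduce
  rw [AtlR_val hG X hφ.compat hz]
  change _ / (2 * Real.pi * G.gd ν (X.idx x) z) = _
  rw [div_eq_iff h2]
  ring

theorem AtlR_down (hG : G.Ok) (X : G.Atl) {ν : A → ℂ → ℝ} (hν : G.CS ∞ ν)
    (hpos : ∀ α, ∀ z ∈ G.W α, 0 < G.gd ν α z) {s : ℝ} {u : X.M → ℝ}
    (hu : IsEigen (AtlR_g hG X hν hpos) s u) :
    G.GSol (fun a => u ∘ (X.e a).symm) fun α z => -s * ν α z * (u ∘ (X.e α).symm) z := by
  have hc : G.Compat fun a => u ∘ (X.e a).symm := fun κ z hz => congrArg u (X.glue κ z hz)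
  refine ⟨fun a => ?_, hc, fun a z hz => ?_⟩
  · obtain ⟨x, rfl⟩ := X.surj a
    have := (hu x).1
    rwa [X.chartAt_eq, X.target] at this
  · obtain ⟨x, rfl⟩ := X.surj a
    have h1 := (hu x).2 z (by rwa [X.chartAt_eq, X.target])
    have h2 := (mul_pos (mul_pos two_pos Real.pi_pos) (hpos _ z hz)).ne'
    rw [X.chartAt_eq] at h1
    change _ / (2 * Real.pi * G.gd ν (X.idx x) z) = _ at h1
    rw [div_eq_iff h2] at h1
    rw [AtlR_gd hc, Function.comp_apply]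
    linarith

end

theorem Glue.realize {A K : Type} [Fintype A] [Fintype K] {G : Glue A K} (hG : G.Ok)
    {ν : A → ℂ → ℝ} (hν : G.CS ∞ ν) (hpos : ∀ α, ∀ z ∈ G.W α, 0 < G.gd ν α z) {k : ℕ}
    (φ : Fin k → A → ℂ → ℝ) (hφ : ∀ i, G.GSol (φ i) fun α z => -1 * ν α z * φ i α z)
    (hind : ∀ c : Fin k → ℝ, (∀ α, ∀ z ∈ G.W α, ∑ i, c i * φ i α z = 0) → c = 0)
    (hgap : ∀ s : ℝ, 0 < s → s < 1 → ∀ f, (G.GSol f fun α z => -s * ν α z * f α z) →
      ∀ α, ∀ z ∈ G.W α, f α z = 0) :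
    Good (Module.finrank ℂ G.forms) k := by
  obtain ⟨X⟩ := hG.exists_atl
  refine ⟨X.M, inferInstance, inferInstance, X.t2 hG, X.compact hG, X.connected hG,
    X.isManifold hG, X.genus_eq hG, AtlR_g hG X hν hpos,
    fun i q => φ i (X.idx q) (X.e (X.idx q) q), fun s h0 h1 u hu => ?_, ?_,
    fun i => AtlR_up hG X hν hpos (hφ i)⟩
  · funext q
    obtain ⟨a, z, hz, rfl⟩ := Atl1_rep X q
    exact hgap s h0 h1 _ (AtlR_down hG X hν hpos hu) a z hz
  · rw [Fintype.linearIndependent_iff]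
    intro c hc
    refine congrFun (hind c fun a z hz => ?_)
    have := congrFun hc ((X.e a).symm z)
    simp only [Finset.sum_apply, Pi.smul_apply, smul_eq_mul, Pi.zero_apply] at this
    rw [← this]
    exact Finset.sum_congr rfl fun i _ => by rw [AtlR_val hG X (hφ i).compat hz]

end Pool.Agent.MP_4f0ed6_gt
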