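import Pool.Agent.MP_4f0ed6_gt.PotI

open Set Laplacian Filter Topology MeasureTheory Metric InnerProductSpace
open scoped ContDiff

namespace Pool.Agent.MP_4f0ed6_gt

variable {g g' : ℂ → ℝ} {Λ Λ' : ℝ}

theorem PotB_hcs (hs : ∀ u, g u ≠ 0 → ‖u‖ < 2) : HasCompactSupport g := by
  refine HasCompactSupport.intro (isCompact_closedBall (0 : ℂ) 2) fun x hx => ?_
  by_contra h0
  exact hx (by simpa using (hs x h0).le)

theorem PotB_abs {k : ℂ → ℝ} (h : Integrable fun u => k u * g u) :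
    Integrable fun u => |k u| * |g u| := by
  simpa only [abs_mul] using h.abs

theorem PotB_add {k : ℂ → ℝ} (h : Integrable fun u => k u * g u)
    (h' : Integrable fun u => k u * g' u) (h1 : ∫ u, |k u| * |g u| ≤ Λ)
    (h2 : ∫ u, |k u| * |g' u| ≤ Λ') : ∫ u, |k u| * |g u + g' u| ≤ Λ + Λ' := by
  have hi := PotB_abs h
  have hi' := PotB_abs h'
  have h3 : ∫ u, |k u| * |g u + g' u| ≤ ∫ u, (|k u| * |g u| + |k u| * |g' u|) := by
    refine integral_mono_of_nonneg (Eventually.of_forall fun u => ?_) (hi.add hi')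
      (Eventually.of_forall fun u => ?_)
    · exact mul_nonneg (abs_nonneg _) (abs_nonneg _)
    · show |k u| * |g u + g' u| ≤ |k u| * |g u| + |k u| * |g' u|
      rw [← mul_add]
      exact mul_le_mul_of_nonneg_left (abs_add_le _ _) (abs_nonneg _)
  rw [integral_add hi hi'] at h3
  linarith

theorem PotB_le {k : ℂ → ℝ} {N : ℝ} (hN : 0 ≤ N) (h : Integrable fun u => k u * g u)
    (h1 : ∫ u, |k u| * |g u| ≤ Λ) (hb : ∀ u, |g' u| ≤ N * |g u|) :
    ∫ u, |k u| * |g' u| ≤ N * Λ := by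
  have hi := PotB_abs h
  have h3 : ∫ u, |k u| * |g' u| ≤ ∫ u, N * (|k u| * |g u|) := by
    refine integral_mono_of_nonneg (Eventually.of_forall fun u => ?_) (hi.const_mul N)
      (Eventually.of_forall fun u => ?_)
    · exact mul_nonneg (abs_nonneg _) (abs_nonneg _)
    · show |k u| * |g' u| ≤ N * (|k u| * |g u|)
      have := mul_le_mul_of_nonneg_left (hb u) (abs_nonneg (k u))
      linarith
  rw [integral_const_mul] at h3
  exact h3.trans (mul_le_mul_of_nonneg_left h1 hN)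

theorem PotB_int {k : ℂ → ℝ} (h1 : ∫ u, |k u| * |g u| ≤ Λ) : |∫ u, k u * g u| ≤ Λ := by
  refine le_trans abs_integral_le_integral_abs ?_
  simpa only [abs_mul] using h1

theorem PB.hcs (h : PB g Λ) : HasCompactSupport g := PotB_hcs h.supp

theorem PB.integrable (h : PB g Λ) : Integrable g :=
  h.cont.integrable_of_hasCompactSupport h.hcs

theorem PB.nonneg (h : PB g Λ) : 0 ≤ Λ :=
  le_trans (integral_nonneg fun _ => abs_nonneg _) h.mass

theorem PB.zero : PB (fun _ => 0) 0 :=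
  ⟨continuous_const, fun _ h => absurd rfl h, by simp, by simp, by simp⟩

theorem PB.mono (h : PB g Λ) (h' : Λ ≤ Λ') : PB g Λ' :=
  ⟨h.cont, h.supp, h.mass.trans h', fun w hw => (h.np w hw).trans h',
    fun w hw => (h.nq w hw).trans h'⟩

theorem PB.add (h : PB g Λ) (h' : PB g' Λ') : PB (fun u => g u + g' u) (Λ + Λ') := by
  refine ⟨h.cont.add h'.cont, fun u hu => ?_, ?_, fun w hw => ?_, fun w hw => ?_⟩
  · by_cases h0 : g u = 0
    · exact h'.supp u (by simpa [h0] using hu)
    · exact h.supp u h0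
  · have := PotB_add (k := fun _ => 1) (by simpa using h.integrable)
      (by simpa using h'.integrable) (by simpa using h.mass) (by simpa using h'.mass)
    simpa using this
  · exact PotB_add (integrable_np h.cont h.hcs w) (integrable_np h'.cont h'.hcs w)
      (h.np w hw) (h'.np w hw)
  · exact PotB_add (integrable_nq h.cont h.hcs w) (integrable_nq h'.cont h'.hcs w)
      (h.nq w hw) (h'.nq w hw)

theorem PotB_of_le (h : PB g Λ) {N : ℝ} (hN : 0 ≤ N) (hc : Continuous g')
    (hb : ∀ u, |g' u| ≤ N * |g u|) : PB g' (N * Λ) := by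
  refine ⟨hc, fun u hu => ?_, ?_, fun w hw => ?_, fun w hw => ?_⟩
  · refine h.supp u fun h0 => hu ?_
    have := hb u
    rw [h0, abs_zero, mul_zero] at this
    exact abs_nonpos_iff.mp this
  · have := PotB_le (k := fun _ => 1) hN (by simpa using h.integrable)
      (by simpa using h.mass) hb
    simpa using this
  · exact PotB_le hN (integrable_np h.cont h.hcs w) (h.np w hw) hb
  · exact PotB_le hN (integrable_nq h.cont h.hcs w) (h.nq w hw) hb

theorem PB.const_mul (h : PB g Λ) (c : ℝ) : PB (fun u => c * g u) (|c| * Λ) :=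
  PotB_of_le h (abs_nonneg c) (continuous_const.mul h.cont) fun u => (abs_mul c (g u)).le

theorem PB.sum {ι : Type} (s : Finset ι) {f : ι → ℂ → ℝ} {L : ι → ℝ}
    (h : ∀ i ∈ s, PB (f i) (L i)) : PB (fun u => ∑ i ∈ s, f i u) (∑ i ∈ s, L i) := by
  classical
  induction s using Finset.induction_on with
  | empty => simpa using PB.zero
  | insert a s ha ih =>
    simp only [Finset.sum_insert ha]
    exact (h a (Finset.mem_insert_self _ _)).add
      (ih fun i hi => h i (Finset.mem_insert_of_mem hi))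

theorem PB.of_le (h : PB g Λ) {N : ℝ} (hN : 0 ≤ N) (hc : Continuous g')
    (hb : ∀ u, |g' u| ≤ N * |g u|) : PB g' (N * Λ) :=
  PotB_of_le h hN hc hb

theorem PB.abs_int (h : PB g Λ) : |∫ u, g u| ≤ Λ :=
  le_trans abs_integral_le_integral_abs h.mass

theorem PB.abs_NP (h : PB g Λ) {w : ℂ} (hw : ‖w‖ ≤ 2) : |NP g w| ≤ Λ :=
  PotB_int (h.np w hw)

theorem PB.abs_NQ (h : PB g Λ) {w : ℂ} (hw : ‖w‖ ≤ 2) : |NQ g w| ≤ Λ :=
  PotB_int (h.nq w hw)

theorem PB.abs_kk (h : PB g Λ) {w : ℂ} (hw : ‖w‖ ≤ 2) : |∫ u, kk w u * g u| ≤ 2 * Λ := by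
  rw [integral_kk h.cont h.hcs]
  have h1 := h.abs_NP hw
  have h2 := h.abs_NP (w := -w) (by simpa using hw)
  have h3 := abs_sub (NP g w) (NP g (-w))
  linarith

theorem abs_integral_mul_le {φ : ℂ → ℝ} {m N : ℝ} (hg : Integrable g) (hN : 0 ≤ N)
    (hm : ∫ u, |g u| ≤ m) (hφ : ∀ u, g u ≠ 0 → |φ u| ≤ N) : |∫ u, g u * φ u| ≤ m * N := by
  have h1 : ‖∫ u, g u * φ u‖ ≤ ∫ u, |g u| * N := by
    refine norm_integral_le_of_norm_le (hg.abs.mul_const N) (Eventually.of_forall fun u => ?_)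
    rw [Real.norm_eq_abs, abs_mul]
    by_cases h0 : g u = 0
    · simp [h0]
    · exact mul_le_mul_of_nonneg_left (hφ u h0) (abs_nonneg _)
  rw [integral_mul_const, Real.norm_eq_abs] at h1
  exact h1.trans (mul_le_mul_of_nonneg_right hm hN)

end Pool.Agent.MP_4f0ed6_gt
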