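import Pool.Agent.MP_4f0ed6_gt.PlGeo
import Pool.Agent.MP_4f0ed6_gt.PotB

open Set Laplacian Filter Topology MeasureTheory Metric InnerProductSpace
open scoped ContDiff

namespace Pool.Agent.MP_4f0ed6_gt

namespace Plumb

variable {V P : Type} [Fintype P] {Q : Plumb V P} {β μ : V → ℂ → ℝ} {Λ s κ N : ℝ} {m u : V → ℝ}

omit [Fintype P] in
theorem Osc_log {x : ℝ} (hp : 0 < Q.sep) (hΛ : |Real.log Q.sep| ≤ Λ) (h1 : Q.sep ≤ x)
    (h2 : x ≤ 1) : |Real.log x| ≤ Λ := by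
  have h3 : Real.log x ≤ 0 := Real.log_nonpos (hp.le.trans h1) h2
  have h4 : Real.log Q.sep ≤ Real.log x := Real.log_le_log hp h1
  have h5 := (abs_le.1 hΛ).1
  rw [abs_of_nonpos h3]
  linarith

theorem Osc_sum {v : V} {b : P → ℝ} {B : ℝ} (hB0 : 0 ≤ B) (hB : ∀ π, Q.pc π = v → |b π| ≤ B)
    (hΛ : 0 ≤ Λ) {l : P → ℝ} (hl : ∀ π, Q.pc π = v → |l π| ≤ Λ) :
    |∑ π ∈ Q.pts v, b π * l π| ≤ Q.n * (B * Λ) := by
  refine abs_sum_pts_le (mul_nonneg hB0 hΛ) fun π hπ => ?_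
  rw [abs_mul]
  exact mul_le_mul (hB π (mem_pts.1 hπ)) (hl π (mem_pts.1 hπ)) (abs_nonneg _) hB0

omit [Fintype P] in
theorem Osc_core_ne (hb : Q.Bump β Λ) (v : V) : (Q.core v).Nonempty := by
  by_contra h
  have h0 : ∀ w, β v w = 0 := fun w => by
    by_contra k
    exact h ⟨w, hb.supp v w k⟩
  have h1 := hb.int v
  simp [h0] at h1

theorem Osc_tri {a c x y z k A D : ℝ} (h : |a - (c + x + y)| ≤ k) (hx : |x| ≤ A)
    (hy : |y| ≤ D) (hz : k + A + D ≤ z) : |a - c| ≤ z := by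
  have h1 := abs_le.1 h
  have h2 := abs_le.1 hx
  have h3 := abs_le.1 hy
  rw [abs_le]
  constructor <;> linarith [h1.1, h1.2, h2.1, h2.2, h3.1, h3.2]

theorem Rep.anti (hQ : Q.Ok) (ρ : Q.Rep β μ s κ N u) (π : P) : ρ.b (Q.σ π) = -ρ.b π := by
  have h1 := ρ.tube π
  have h2 := ρ.tube (Q.σ π)
  rw [hQ.σσ, hQ.L_σ] at h2
  apply mul_left_cancel₀ (hQ.L_pos π).ne'
  linarith

theorem Rep.sum_t [Fintype V] (hQ : Q.Ok) (ρ : Q.Rep β μ s κ N u) :
    ∑ v, ρ.t v = s * ∑ v, ((∫ w, μ v w * ρ.φ v w) + ρ.e v) := by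
  have h1 : ∑ π, ρ.b (Q.σ π) = ∑ π, ρ.b π :=
    Equiv.sum_comp (Function.Involutive.toPerm Q.σ hQ.σσ) ρ.b
  have h2 : ∑ π, ρ.b π = 0 := by
    simp only [ρ.anti hQ, Finset.sum_neg_distrib] at h1
    linarith
  simp only [ρ.t_eq, Finset.sum_add_distrib, Finset.sum_neg_distrib, ← Finset.mul_sum]
  rw [sum_pts, h2, neg_zero, zero_add]

theorem Rep.osc (hE : Q.Est β μ Λ m) (ρ : Q.Rep β μ s κ N u) (hs : s ∈ Icc (0 : ℝ) 1)
    (hκ : 0 ≤ κ * N) (v : V) {B : ℝ} (hB0 : 0 ≤ B) (hB : ∀ π, Q.pc π = v → |ρ.b π| ≤ B) :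
    (∀ w ∈ Q.core v, |ρ.φ v w - u v| ≤ 16 * Λ * (Q.n * B + m v * |u v| + κ * N)) ∧
      ∀ π, Q.pc π = v → |ρ.R π - u v| ≤ 16 * Λ * (Q.n * B + m v * |u v| + κ * N) := by
  have hQ := hE.ok
  have hb := hE.bump
  have hΛ1 := hb.one_le
  have hΛ : 0 ≤ Λ := zero_le_one.trans hΛ1
  have hm : 0 ≤ m v := (integral_nonneg fun w => abs_nonneg _).trans (hE.mass v)
  have hn : 0 ≤ Q.n := zero_le_one.trans one_le_n
  obtain ⟨w₀, hw₀, hmax⟩ := (isCompact_core (Q := Q) v).exists_isMaxOn (Osc_core_ne hb v)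
    (f := fun w => |ρ.φ v w|) (ρ.cont v).abs.continuousOn
  obtain ⟨S, hSd⟩ : ∃ S, S = |ρ.φ v w₀| := ⟨_, rfl⟩
  have hS0 : 0 ≤ S := hSd ▸ abs_nonneg _
  have hS : ∀ w ∈ Q.core v, |ρ.φ v w| ≤ S := fun w hw => hSd ▸ hmax hw
  have hint : |∫ w, μ v w * ρ.φ v w| ≤ m v * S :=
    abs_integral_mul_le (hE.μ_pb v).integrable hS0 (hE.mass v)
      fun w h => hS w (hE.μ_supp v w h)
  have ht : |ρ.t v| ≤ Q.n * B + m v * S + κ * N := by
    have h1 : |∑ π ∈ Q.pts v, ρ.b π| ≤ Q.n * B :=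
      abs_sum_pts_le hB0 fun π hπ => hB π (mem_pts.1 hπ)
    have h2 : |(∫ w, μ v w * ρ.φ v w) + ρ.e v| ≤ m v * S + κ * N :=
      (abs_add_le _ _).trans (add_le_add hint (ρ.e_le v))
    have h3 : |s * ((∫ w, μ v w * ρ.φ v w) + ρ.e v)| ≤ m v * S + κ * N := by
      rw [abs_mul, abs_of_nonneg hs.1]
      exact (mul_le_of_le_one_left (abs_nonneg _) hs.2).trans h2
    rw [ρ.t_eq]
    refine (abs_add_le _ _).trans ?_
    rw [abs_neg]
    linarith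
  have hp1 : PB (fun z => -s * μ v z * ρ.φ v z) (S * (Λ * m v)) := by
    refine (hE.μ_pb v).of_le hS0
      ((continuous_const.mul (hE.μ_pb v).cont).mul (ρ.cont v)) fun z => ?_
    by_cases h : μ v z = 0
    · simp [h]
    · rw [abs_mul, abs_mul, abs_neg, abs_of_nonneg hs.1, mul_comm S]
      exact mul_le_mul (mul_le_of_le_one_left (abs_nonneg _) hs.2) (hS z (hE.μ_supp v z h))
        (abs_nonneg _) (abs_nonneg _)
  have hp := hp1.add ((hb.pb v).const_mul (ρ.t v))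
  obtain ⟨E, hEd⟩ : ∃ E, E = 2 * Λ * (Q.n * B + m v * S + κ * N) := ⟨_, rfl⟩
  have hz : κ * N + Q.n * (B * Λ) + (S * (Λ * m v) + |ρ.t v| * Λ) ≤ E := by
    have h1 := mul_le_mul_of_nonneg_right ht hΛ
    have h2 := mul_le_mul_of_nonneg_right hΛ1 hκ
    rw [hEd]
    nlinarith
  have hE0 : 0 ≤ E := by rw [hEd]; positivity
  have hφ : ∀ w ∈ Q.core v, |ρ.φ v w - ρ.C v| ≤ E := fun w hw => by
    refine Osc_tri (ρ.rep v w (hQ.core_sub_bulk v hw)) (Osc_sum hB0 hB hΛ fun π hπ => ?_)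
      (hp.abs_NP (hw.1.trans (by norm_num))) hz
    refine Osc_log hQ.sep_pos hb.log_le (hw.2 π hπ) ((norm_sub_le _ _).trans ?_)
    linarith [hw.1, hQ.c_le π]
  have hR : ∀ π, Q.pc π = v → |ρ.R π - ρ.C v| ≤ E := fun π hπ => by
    have h := ρ.repR π
    rw [hπ] at h
    refine Osc_tri h (Osc_sum hB0 hB hΛ fun π' hπ' => ?_)
      (hp.abs_NP ((hQ.c_le π).trans (by norm_num))) hz
    rcases eq_or_ne π π' with rfl | hne
    · simpa using hΛ
    · refine Osc_log hQ.sep_pos hb.log_le (hQ.c_sep π π' hne (hπ.trans hπ'.symm))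
        ((norm_sub_le _ _).trans ?_)
      linarith [hQ.c_le π, hQ.c_le π']
  have hC : |u v - ρ.C v| ≤ E := by
    have h1 : ∫ w, |β v w| ≤ 1 := by
      simp only [abs_of_nonneg (hb.nonneg v _)]
      exact (hb.int v).le
    have h2 := abs_integral_mul_le (φ := fun w => ρ.φ v w - ρ.C v) (hb.pb v).integrable hE0 h1
      fun w h => hφ w (hb.supp v w h)
    have h3 : Integrable fun w => β v w * ρ.φ v w :=
      ((hb.pb v).cont.mul (ρ.cont v)).integrable_of_hasCompactSupport (hb.pb v).hcs.mul_right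
    simp only [mul_sub] at h2
    rw [integral_sub h3 ((hb.pb v).integrable.mul_const _), integral_mul_const, ρ.norm, hb.int,
      one_mul, one_mul] at h2
    exact h2
  have hfin : ∀ a, |a - ρ.C v| ≤ E → |a - u v| ≤ 2 * E := fun a ha => by
    have h1 := abs_le.1 ha
    have h2 := abs_le.1 hC
    rw [abs_le]
    constructor <;> linarith [h1.1, h1.2, h2.1, h2.2]
  have hSle : S ≤ |u v| + 2 * E := by
    have h1 := hfin _ (hφ w₀ hw₀)
    have h2 := abs_sub_abs_le_abs_sub (ρ.φ v w₀) (u v)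
    rw [hSd]
    linarith
  have hX : 0 ≤ Q.n * B + κ * N := by positivity
  have hsm := hE.small v
  have h1 : S ≤ 2 * |u v| + 8 * Λ * (Q.n * B + κ * N) := by
    have := mul_le_mul_of_nonneg_right hsm hS0
    rw [hEd] at hSle
    nlinarith
  have h2 : m v * S ≤ 2 * (m v * |u v|) + (Q.n * B + κ * N) := by
    have h3 := mul_le_mul_of_nonneg_left h1 hm
    have h4 := mul_le_mul_of_nonneg_right hsm hX
    nlinarith
  have h3 : 2 * E ≤ 16 * Λ * (Q.n * B + m v * |u v| + κ * N) := by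
    have h4 := mul_le_mul_of_nonneg_left h2 hΛ
    have h5 : 0 ≤ Λ * (m v * |u v|) := by positivity
    have h6 := mul_nonneg hΛ hX
    rw [hEd]
    nlinarith
  exact ⟨fun w hw => (hfin _ (hφ w hw)).trans h3, fun π hπ => (hfin _ (hR π hπ)).trans h3⟩

end Plumb

end Pool.Agent.MP_4f0ed6_gt
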