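import Pool.Agent.MP_4f0ed6_gt.SEst
import Pool.Agent.MP_4f0ed6_gt.Osc

open Set Laplacian Filter Topology MeasureTheory Metric InnerProductSpace
open scoped ContDiff

namespace Pool.Agent.MP_4f0ed6_gt

namespace Fx

variable {h nT nx : ℕ} {S : Fx h nT nx}

theorem Bnd_aa_mem {η : ℝ} (h0 : 0 < η) (h1 : η ≤ 1) : 0 < S.aa η ∧ S.aa η ≤ 1 :=
  ⟨pow_pos h0 _, pow_le_one₀ h0.le h1⟩

theorem Bnd_tube {a c x y R R' E E' : ℝ} (hc0 : 0 ≤ c) (hc : c ≤ a) (h1 : |R - x| ≤ E)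
    (h2 : |R' - y| ≤ E') : |c * (R - R') - c * (x - y)| ≤ a * (E + E') := by
  have e : c * (R - R') - c * (x - y) = c * ((R - x) - (R' - y)) := by ring
  rw [e, abs_mul, abs_of_nonneg hc0]
  have h3 : |(R - x) - (R' - y)| ≤ E + E' := (abs_sub _ _).trans (add_le_add h1 h2)
  exact mul_le_mul hc h3 (abs_nonneg _) (hc0.trans hc)

theorem Bnd_sum {ι : Type} [Fintype ι] {F : ι → ℝ} {B : ℝ} (hF : ∀ i, |F i| ≤ B) :
    |∑ i, F i| ≤ Fintype.card ι * B := by
  refine (Finset.abs_sum_le_sum_abs _ _).trans ?_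
  refine (Finset.sum_le_sum fun i _ => hF i).trans ?_
  simp

theorem Ok.bnd (hS : S.Ok) : ∃ C : ℝ, 0 ≤ C ∧ ∀ᶠ η : ℝ in 𝓝[>] 0, ∀ p ∈ cube (DD h),
    ∀ s ∈ Icc (0 : ℝ) 1, ∀ N u, (∀ v, |u v| ≤ N) → ∀ ρ : S.Rp η p s N u,
      (∀ v, ∀ w ∈ (S.Q η).core (some v),
        |ρ.φ (some v) w - u (some v)| ≤ C * (S.aa η / η * N)) ∧
      (∀ v π, S.pc π = some v → |ρ.R π - u (some v)| ≤ C * (S.aa η / η * N)) ∧
      (∀ w ∈ (S.Q η).core none,
        |ρ.φ none w - u none| ≤ C * (S.aa η / η * N + η ^ 3 * |u none|)) ∧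
      ∀ π, S.pc π = none → |ρ.R π - u none| ≤ C * (S.aa η / η * N + η ^ 3 * |u none|) := by
  set n : ℝ := Fintype.card (PP h nT nx) + 1 with hn
  set K : ℝ := 13 * Fintype.card (Fin h × DD h) * S.A with hK
  have hA : 0 ≤ S.A := zero_le_one.trans hS.ctl.one_le
  have hn0 : 0 ≤ n := by positivity
  have hK0 : 0 ≤ K := by positivity
  have hh : (0 : ℝ) ≤ h := Nat.cast_nonneg _
  refine ⟨16 * (4 * n + h + 2 + K), by positivity, ?_⟩
  filter_upwards [hS.est, ev_small one_pos] with η hE ⟨h0, h1⟩ p hp s hs N u hu ρ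
  have hN : 0 ≤ N := (abs_nonneg _).trans (hu none)
  obtain ⟨ha0, ha1⟩ := Bnd_aa_mem (S := S) h0 h1
  have hB : ∀ π, |ρ.b π| ≤ 4 * S.aa η * N := fun π =>
    (S.b_eq h0 ρ π).2.trans (by
      have := S.cond_le h0 h1 hS π
      gcongr)
  have hosc := fun v => Plumb.Rep.osc (hE p hp) ρ hs (by positivity) v
    (B := 4 * S.aa η * N) (by positivity) (fun π _ => hB π)
  have ha3 : S.aa η ^ 3 ≤ S.aa η := by
    have : S.aa η ^ 3 = S.aa η * S.aa η ^ 2 := by ring
    rw [this]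
    exact mul_le_of_le_one_right ha0.le (pow_le_one₀ ha0.le ha1)
  have hX : 0 ≤ S.aa η / η * N := by positivity
  have hsome : ∀ v, 16 * η⁻¹ * ((S.Q η).n * (4 * S.aa η * N) + S.mm η (some v) * |u (some v)| +
      S.aa η ^ 3 * N) ≤ 16 * (4 * n + h + 2 + K) * (S.aa η / η * N) := by
    intro v
    have e1 : (S.Q η).n = n := rfl
    have e2 : S.mm η (some v) = (h + 1) * S.aa η := rfl
    rw [e1, e2]
    have i1 : n * (4 * S.aa η * N) + (h + 1) * S.aa η * |u (some v)| + S.aa η ^ 3 * N ≤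
        n * (4 * S.aa η * N) + (h + 1) * S.aa η * N + S.aa η * N := by
      have := hu (some v)
      gcongr
    calc _ ≤ 16 * η⁻¹ * (n * (4 * S.aa η * N) + (h + 1) * S.aa η * N + S.aa η * N) := by
          gcongr
      _ = 16 * (4 * n + h + 2) * (S.aa η / η * N) := by ring
      _ ≤ _ := mul_le_mul_of_nonneg_right (by linarith) hX
  have hnone : 16 * η⁻¹ * ((S.Q η).n * (4 * S.aa η * N) + S.mm η none * |u none| +
      S.aa η ^ 3 * N) ≤ 16 * (4 * n + h + 2 + K) * (S.aa η / η * N + η ^ 3 * |u none|) := by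
    have e1 : (S.Q η).n = n := rfl
    have e2 : S.mm η none = K * η ^ 4 := rfl
    rw [e1, e2]
    have hY : 0 ≤ η ^ 3 * |u none| := by positivity
    calc _ ≤ 16 * η⁻¹ * (n * (4 * S.aa η * N) + K * η ^ 4 * |u none| + S.aa η * N) := by
          gcongr
      _ = 16 * (4 * n + 1) * (S.aa η / η * N) + 16 * K * (η ^ 3 * |u none|) := by
          field_simp
          ring
      _ ≤ 16 * (4 * n + h + 2 + K) * (S.aa η / η * N) +
            16 * (4 * n + h + 2 + K) * (η ^ 3 * |u none|) := by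
          exact add_le_add (mul_le_mul_of_nonneg_right (by linarith) hX)
            (mul_le_mul_of_nonneg_right (by linarith) hY)
      _ = _ := by ring
  exact ⟨fun v w hw => ((hosc (some v)).1 w hw).trans (hsome v),
    fun v π hπ => ((hosc (some v)).2 π hπ).trans (hsome v),
    fun w hw => ((hosc none).1 w hw).trans hnone,
    fun π hπ => ((hosc none).2 π hπ).trans hnone⟩

theorem t_some {η s N : ℝ} {p : DD h × DD h → ℝ} {u : Option (DD h × Bool) → ℝ}
    (ρ : S.Rp η p s N u) (v : DD h × Bool) :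
    ρ.t (some v) = -(∑ π ∈ (S.Q η).pts (some v), ρ.b π) +
      s * (S.m η p v.1 * u (some v) + ρ.e (some v)) := by
  rw [ρ.t_eq, ← ρ.norm (some v), ← integral_const_mul]
  congr 3
  refine integral_congr_ae (Eventually.of_forall fun w => ?_)
  exact mul_assoc _ _ _

theorem Ok.first (hS : S.Ok) : ∃ C : ℝ, 0 ≤ C ∧ ∀ᶠ η : ℝ in 𝓝[>] 0, ∀ p ∈ cube (DD h),
    ∀ s ∈ Icc (0 : ℝ) 1, ∀ N u, (∀ v, |u v| ≤ N) → ∀ (ρ : S.Rp η p s N u) (v : DD h × Bool),
      |ρ.t (some v) - ((s * S.m η p v.1 - ∑ j, S.aj η j) * u (some v) +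
        (∑ j, S.aj η j) * u none - S.am η * Lap S.Pm (fun v => u (some v)) v)| ≤
        C * (S.aa η ^ 2 / η * N + S.aa η * η ^ 3 * |u none|) := by
  obtain ⟨C, hC, hev⟩ := hS.bnd
  refine ⟨2 * h * C + 4 * nT * C + 4 * nx + 1, by positivity, ?_⟩
  filter_upwards [hev, ev_small one_pos] with η hb ⟨h0, h1⟩ p hp s hs N u hu ρ v
  obtain ⟨-, hR, -, hR'⟩ := hb p hp s hs N u hu ρ
  have hN : 0 ≤ N := (abs_nonneg _).trans (hu none)
  obtain ⟨ha0, ha1⟩ := Bnd_aa_mem (S := S) h0 h1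
  set X : ℝ := S.aa η ^ 2 / η * N with hX
  set Y : ℝ := S.aa η * η ^ 3 * |u none| with hY
  have hX0 : 0 ≤ X := by positivity
  have hY0 : 0 ≤ Y := by positivity
  have h3 : S.aa η ^ 3 * N ≤ X := by
    have : S.aa η ^ 3 ≤ S.aa η ^ 2 / η := by
      rw [le_div_iff₀ h0]
      have : S.aa η ^ 3 * η = S.aa η ^ 2 * (S.aa η * η) := by ring
      rw [this]
      exact mul_le_of_le_one_right (by positivity) (mul_le_one₀ ha1 h0.le h1)
    rw [hX]
    gcongr
  have hleg : ∀ j, |ρ.b (.inl (v, j, false)) - S.aj η j * (u (some v) - u none)| ≤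
      2 * C * (X + Y) := by
    intro j
    rw [(S.b_eq h0 ρ _).1]
    refine (Bnd_tube (S.aj_pos h0 j).le (S.aj_le h0 h1 j) (hR v (.inl (v, j, false)) rfl)
      (hR' (.inl (v, j, true)) rfl)).trans ?_
    have : S.aa η * (C * (S.aa η / η * N) + C * (S.aa η / η * N + η ^ 3 * |u none|)) =
        2 * C * X + C * Y := by rw [hX, hY]; ring
    rw [this]
    nlinarith [mul_nonneg hC hY0]
  have hmain : ∀ t, |ρ.b (.inr (.inl (v, t, false))) + ρ.b (.inr (.inl (v, t, true))) -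
      S.am η * (2 * u (some v) - u (some (S.Pm t v)) - u (some ((S.Pm t).symm v)))| ≤
      4 * C * X := by
    intro t
    rw [(S.b_eq h0 ρ _).1, (S.b_eq h0 ρ (.inr (.inl (v, t, true)))).1]
    have c0 := (S.cond_pos h0 (.inr (.inl (v, t, false)))).le
    have c1 := S.cond_le h0 h1 hS (.inr (.inl (v, t, false)))
    have i1 := Bnd_tube c0 c1 (hR v (.inr (.inl (v, t, false))) rfl)
      (hR (S.Pm t v) (.inr (.inl (S.Pm t v, t, true))) rfl)
    have i2 := Bnd_tube c0 c1 (hR v (.inr (.inl (v, t, true))) rfl)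
      (hR ((S.Pm t).symm v) (.inr (.inl ((S.Pm t).symm v, t, false))) rfl)
    have e : S.aa η * (C * (S.aa η / η * N) + C * (S.aa η / η * N)) = 2 * C * X := by
      rw [hX]; ring
    rw [e] at i1 i2
    have i3 := (abs_add_le _ _).trans (add_le_add i1 i2)
    refine le_of_eq_of_le (congrArg _ ?_) (i3.trans_eq (by ring))
    simp only [cond, σ]
    ring
  have hext : ∀ e : Fin nx, |if v.1 = (fun _ => false) then ρ.b (.inr (.inr (e, v.2))) else 0| ≤
      4 * X := by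
    intro e
    split_ifs
    · refine (S.b_eq h0 ρ _).2.trans ?_
      have : 4 * S.cond η (.inr (.inr (e, v.2))) * N = 4 * (S.aa η ^ 3 * N) := by
        simp only [cond]; ring
      rw [this]
      linarith
    · rw [abs_zero]
      positivity
  have he : |s * ρ.e (some v)| ≤ X := by
    rw [abs_mul, abs_of_nonneg hs.1]
    exact (mul_le_of_le_one_left (abs_nonneg _) hs.2).trans ((ρ.e_le _).trans h3)
  have s1 := Bnd_sum hleg
  have s2 := Bnd_sum hmain
  have s3 := Bnd_sum hext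
  rw [Fintype.card_fin] at s1 s2 s3
  rw [Finset.sum_sub_distrib, ← Finset.sum_mul] at s1
  rw [Finset.sum_sub_distrib, ← Finset.mul_sum] at s2
  rw [t_some, S.sum_pts_some]
  unfold Lap
  have hh : (0 : ℝ) ≤ h := Nat.cast_nonneg _
  have hT : (0 : ℝ) ≤ nT := Nat.cast_nonneg _
  have hx : (0 : ℝ) ≤ nx := Nat.cast_nonneg _
  have k1 : 0 ≤ nT * C * Y := by positivity
  have k2 : 0 ≤ nx * Y := by positivity
  rw [abs_le] at s1 s2 s3 he ⊢
  constructor <;> nlinarith [s1.1, s1.2, s2.1, s2.2, s3.1, s3.2, he.1, he.2]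

theorem Ok.diag (hS : S.Ok) : ∀ᶠ η : ℝ in 𝓝[>] 0, ∀ p ∈ cube (DD h), ∀ d,
    ∀ ρ : S.Rp η p 1 1 (ed d), |(ρ.t (some (d, true)) - ρ.t (some (d, false))) / 2 +
      S.am η * S.M1 d d - S.ad η * p (d, d)| ≤ S.ad η := by
  obtain ⟨C, hC, hev⟩ := hS.first
  filter_upwards [hev, ev_small (c := (C + 1)⁻¹) (by positivity)] with η hb ⟨h0, h1⟩ p hp d ρ
  have hb' := hb p hp 1 ⟨zero_le_one, le_rfl⟩ 1 (ed d) (abs_ed_le d) ρ
  have e0 : ed d none = 0 := rfl
  have e1 : ed d (some (d, true)) = 1 := by simp [ed, sg]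
  have e2 : ed d (some (d, false)) = -1 := by simp [ed, sg]
  have eL : Lap S.Pm (fun v => ed d (some v)) (d, false) =
      -Lap S.Pm (fun v => ed d (some v)) (d, true) :=
    Lap_flp hS.graph.comm (u := fun v => ed d (some v)) (fun v => ed_iV d (some v)) (d, true)
  have i1 := hb' (d, true)
  have i2 := hb' (d, false)
  rw [e0, e1] at i1
  rw [e0, e2, eL] at i2
  have eM : S.M1 d d = Lap S.Pm (fun v => ed d (some v)) (d, true) - S.θ := by simp [M1]
  have hle : C * (S.aa η ^ 2 / η * 1 + S.aa η * η ^ 3 * |(0 : ℝ)|) ≤ S.ad η := by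
    rw [S.ad_eq h0, abs_zero, mul_zero, add_zero, mul_one]
    have hCη : C * η ≤ 1 := by
      have : (C + 1) * η ≤ 1 := by
        calc (C + 1) * η ≤ (C + 1) * (C + 1)⁻¹ := by gcongr
          _ = 1 := mul_inv_cancel₀ (by positivity)
      nlinarith
    have : C * (S.aa η ^ 2 / η) = C * η * (S.aa η ^ 2 / η ^ 2) := by
      field_simp
    rw [this]
    exact mul_le_of_le_one_left (by positivity) hCη
  have j1 := i1.trans hle
  have j2 := i2.trans hle
  rw [eM]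
  simp only [m] at j1 j2
  rw [abs_le] at j1 j2 ⊢
  constructor <;> linarith [j1.1, j1.2, j2.1, j2.2]

end Fx

end Pool.Agent.MP_4f0ed6_gt
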