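import Pool.Agent.MP_4f0ed6_gt.Fld1

open Set Laplacian Filter Topology MeasureTheory Metric InnerProductSpace
open scoped ContDiff

namespace Pool.Agent.MP_4f0ed6_gt

namespace Plumb

variable {V P : Type} [Fintype P] {Q : Plumb V P} {β : V → ℂ → ℝ} {Λ s : ℝ} {Y : Inp V P}
  {ν ext : V × Bool → ℂ → ℝ}

theorem Boot_le (k : ℕ) : (k : WithTop ℕ∞) ≤ ∞ := by exact_mod_cast le_top

theorem Boot_two : (2 : WithTop ℕ∞) ≤ ∞ := Boot_le 2

omit [Fintype P] in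
theorem Boot_reg (hY : Q.Reg Y ∞) (k : ℕ) : Q.Reg Y k := ⟨hY.1, hY.2.of_le (Boot_le k)⟩

theorem Boot_mul {k : WithTop ℕ∞} {f φ : V × Bool → ℂ → ℝ} (h : Q.glue.CS k f)
    (hφ : ∀ α, ContDiffOn ℝ k (φ α) (Q.W α)) : Q.glue.CS k fun α z => f α z * φ α z :=
  fun α => ⟨contDiff_mul_of_supp (isOpen_W α) (h α).1 (h α).2.2 (hφ α), (h α).2.1.mul_right,
    (tsupport_mul_subset_left (f := f α) (g := φ α)).trans (h α).2.2⟩

theorem Boot_shift {f : ℂ → ℝ} {c x : ℂ} (hf : ContDiffAt ℝ 2 f (c + x)) :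
    ContDiffAt ℝ 2 (fun y => f (c + y)) x ∧ Δ (fun y => f (c + y)) x = Δ f (c + x) := by
  refine ⟨hf.comp x (contDiffAt_const.add contDiffAt_id), ?_⟩
  have h1 : AnalyticAt ℂ (fun y : ℂ => c + y) x := analyticAt_const.add analyticAt_id
  rw [laplacian_comp_hol (τ := fun y : ℂ => c + y) hf h1]
  simp

theorem IsFix.smooth (hQ : Q.Ok) (hβ : Q.Bump β Λ) (hν : Q.glue.CS ∞ ν)
    (hext : Q.glue.CS ∞ ext) (h : Q.IsFix β Y s ν ext) : Q.Reg Y ∞ := by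
  have key : ∀ k : ℕ, Q.Reg Y k := by
    intro k
    induction k with
    | zero => exact h.reg
    | succ k ih =>
      refine ⟨ih.1, ?_⟩
      have e : Y.g = fun α z => -s * ν α z * Q.phi β Y α z + ext α z :=
        funext fun α => funext fun z => h.sour α z
      have h1 := (Boot_mul ((hν.of_le (Boot_le (k + 1))).const_mul fun _ => -s)
        (phi_reg hQ hβ ih)).add (hext.of_le (Boot_le (k + 1)))
      rw [← e] at h1
      exact h1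
  exact ⟨h.reg.1, fun α => ⟨contDiff_infty.2 fun k => ((key k).2 α).1, (h.reg.2 α).2⟩⟩

theorem phi_smooth (hQ : Q.Ok) (hβ : Q.Bump β Λ) (hY : Q.Reg Y ∞) (α : V × Bool) :
    ContDiffOn ℝ ∞ (Q.phi β Y α) (Q.W α) :=
  contDiffOn_infty.2 fun k =>
    (phi_reg hQ hβ (Boot_reg hY k) α).of_le (by exact_mod_cast Nat.le_succ k)

theorem Pot_lap (hQ : Q.Ok) (hβ : Q.Bump β Λ) (hY : Q.Reg Y ∞) (α : V × Bool) (w : ℂ) :
    Δ (Q.Pot β Y α) w = 2 * Real.pi * (Q.gs β Y α w +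
      Q.gs β Y (α.1, !α.2) w⁻¹ * ‖deriv (fun z : ℂ => z⁻¹) w‖ ^ 2) := by
  have hg := gs_cs le_rfl hQ hβ hY
  have h1 : ContDiffAt ℝ 2 (NP (Q.gs β Y α)) w :=
    ((NP_smooth (hg α).1 (hg α).2.1).of_le Boot_two).contDiffAt
  have h2 : ContDiffAt ℝ 2 (NQ (Q.gs β Y (α.1, !α.2))) w :=
    (NQ_contDiff 1 ((hg _).1.of_le (Boot_le 1)) (cs_supp hg _)).contDiffAt
  have e : Q.Pot β Y α = fun w => NP (Q.gs β Y α) w + NQ (Q.gs β Y (α.1, !α.2)) w := rfl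
  rw [e, lap_add h1 h2, NP_lap (hg α).1 (hg α).2.1, NQ_lap (hg _).1 (cs_supp hg _)]
  ring

theorem R0_lap (hQ : Q.Ok) (hβ : Q.Bump β Λ) (hY : Q.Reg Y ∞) (π : P) {x : ℂ}
    (hx : ‖x‖ < Q.sep / 2) :
    Δ (Q.R0 β Y π) x = 2 * Real.pi * Q.gs β Y (Q.pc π, false) (Q.c π + x) := by
  classical
  have hg := gs_cs le_rfl hQ hβ hY
  obtain ⟨h1, h2⟩ := Boot_shift (c := Q.c π) (x := x)
    (Pot_reg hQ hβ (Boot_reg hY 1) (Q.pc π, false)).contDiffAt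
  have h3 : ∀ π' ∈ (Q.pts (Q.pc π)).erase π,
      ContDiffAt ℝ 2 (fun y => Q.term Y π' (Q.c π + y)) x ∧
        Δ (fun y => Q.term Y π' (Q.c π + y)) x = 0 := by
    intro π' hπ'
    obtain ⟨a1, a2⟩ := Finset.mem_erase.1 hπ'
    have a3 := (hQ.near a1 (mem_pts.1 a2) hx.le).1
    have a4 := hQ.r_le' π'
    have a5 := r_pos (Q := Q) π'
    obtain ⟨b1, b2⟩ := term_reg (Q := Q) hY.1 π' (w := Q.c π + x) (by linarith)
    obtain ⟨b3, b4⟩ := Boot_shift (b1.of_le Boot_two)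
    exact ⟨b3, b4.trans b2⟩
  have e : Q.R0 β Y π = fun y => Q.Pot β Y (Q.pc π, false) (Q.c π + y) +
      ∑ π' ∈ (Q.pts (Q.pc π)).erase π, Q.term Y π' (Q.c π + y) := by
    funext y
    unfold R0
    congr
  have h4 : ContDiffAt ℝ 2 (fun y => ∑ π' ∈ (Q.pts (Q.pc π)).erase π,
      Q.term Y π' (Q.c π + y)) x := ContDiffAt.sum fun π' hπ' => (h3 π' hπ').1
  rw [e, lap_add h1 h4, h2, lap_sum _ (fun π' y => Q.term Y π' (Q.c π + y))
    fun π' hπ' => (h3 π' hπ').1, Finset.sum_eq_zero fun π' hπ' => (h3 π' hπ').2, add_zero,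
    Pot_lap hQ hβ hY]
  have h5 : Q.gs β Y ((Q.pc π, false).1, !(Q.pc π, false).2) (Q.c π + x)⁻¹ *
      ‖deriv (fun z : ℂ => z⁻¹) (Q.c π + x)‖ ^ 2 = 0 := by
    by_cases h0 : Q.c π + x = 0
    · rw [h0]
      simp
    · refine mul_eq_zero_of_left ?_ _
      by_contra hn
      have a1 := cs_supp hg _ _ hn
      have a2 : ‖Q.c π + x‖ ≤ ‖Q.c π‖ + ‖x‖ := norm_add_le _ _
      have a3 := hQ.c_le π
      have a4 := hQ.sep_le
      have a5 : 0 < ‖Q.c π + x‖ := norm_pos_iff.2 h0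
      rw [norm_inv, inv_lt_comm₀ a5 (by norm_num)] at a1
      linarith
  rw [h5, add_zero]

theorem far_eq (hQ : Q.Ok) (hβ : Q.Bump β Λ) (hY : Q.Reg Y ∞) (h : Q.IsFix β Y s ν ext) (π : P)
    {y : ℂ} (hy : ‖y‖ < Q.r π / 2) :
    Q.farY Y π y = Q.R0 β Y (Q.σ π) y - Q.R0 β Y (Q.σ π) 0 := by
  have hg := gs_cs le_rfl hQ hβ hY
  have hr := r_pos (Q := Q) π
  have hs := hQ.r_le' π
  have hU : IsOpen {x : ℂ | ‖x‖ < Q.sep / 2 ∧
      Q.c (Q.σ π) + x ∉ tsupport (Q.gs β Y (Q.pc (Q.σ π), false))} :=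
    (isOpen_lt continuous_norm continuous_const).inter
      ((isClosed_tsupport _).isOpen_compl.preimage (continuous_const.add continuous_id))
  have hf : ∀ x : ℂ, ‖x‖ ≤ Q.r π / 2 → HarmonicAt (Q.R0 β Y (Q.σ π)) x := by
    intro x hx
    refine harmonicAt_of_lap hU
      (fun z hz => (R0_reg hQ hβ (Boot_reg hY 1) (Q.σ π) hz.1.le).contDiffWithinAt)
      (fun z hz => ?_) ⟨by linarith, fun hn => ?_⟩
    · rw [R0_lap hQ hβ hY _ hz.1, image_eq_zero_of_notMem_tsupport hz.2, mul_zero]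
    · have h1 := ((hg _).2.2 hn).2 (Q.σ π) rfl
      rw [add_sub_cancel_left, hQ.r_σ] at h1
      linarith
  have he : ∀ x : ℂ, ‖x‖ = Q.r π / 2 → Y.h (Q.σ π) x = Q.R0 β Y (Q.σ π) x := fun x hx =>
    h.circ (Q.σ π) x (by rw [hQ.r_σ]; exact hx)
  unfold farY
  rw [PI_eq hf he hy, PI_eq hf he (by rw [norm_zero]; linarith)]

theorem phi_far (hQ : Q.Ok) (hβ : Q.Bump β Λ) (hY : Q.Reg Y ∞) (h : Q.IsFix β Y s ν ext) (v : V)
    {w : ℂ} (hw : ∀ π, Q.pc π = v → 2 * Q.r π < ‖w - Q.c π‖) :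
    Q.phi β Y (v, false) w = Q.CC β Y v + Q.Phi β Y v w := by
  simp only [phi, Phi, term, add_assoc]
  congr 2
  refine Finset.sum_congr rfl fun π hπ => ?_
  have h1 := hw π (mem_pts.1 hπ)
  have hr := r_pos (Q := Q) π
  have h2 : ‖Q.ε π / (w - Q.c π)‖ < Q.r π / 2 := by
    rw [norm_div, norm_ε, div_lt_iff₀ (by linarith)]
    nlinarith
  rw [far_eq hQ hβ hY h π h2]
  ring

end Plumb

end Pool.Agent.MP_4f0ed6_gt
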