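import Pool.Agent.MP_4f0ed6_gt.Spec
import Pool.Agent.MP_92c74b_an.Brouwer

open Set Laplacian Filter Topology MeasureTheory Metric InnerProductSpace
open scoped ContDiff

namespace Pool.Agent.MP_4f0ed6_gt

/-- the parameter `p` realises the target matrix -/
def Sys.Hit {D P : Type} [Fintype D] [Fintype P] (S : Sys D P) (p : D × D → ℝ) : Prop :=
  ∀ d', ∃ φ t, S.Q.glue.GSol φ (src 1 (tot (S.μ p) S.νt) S.β t φ) ∧ av S.β φ = ed d' ∧
    t none = 0 ∧ ∀ d ε, t (some (d, ε)) = -(sg ε * S.M0 d d')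

theorem Brw_ed_abs {D : Type} (d : D) (v : Option (D × Bool)) : |ed d v| ≤ 1 := by
  rcases v with _ | ⟨d', ε⟩
  · simp [ed]
  · by_cases h : d' = d <;> cases ε <;> simp [ed, sg, h]

theorem Brw_ed_iV {D : Type} (d : D) (v : Option (D × Bool)) : ed d (iV v) = -1 * ed d v := by
  rcases v with _ | ⟨d', ε⟩
  · simp [ed, iV]
  · by_cases h : d' = d <;> cases ε <;> simp [ed, sg, iV, flp, h]

theorem Brw_sum_ed {D : Type} [Fintype D] (t : Option (D × Bool) → ℝ) (d : D) :
    ∑ v, t v * ed d v = t (some (d, true)) - t (some (d, false)) := by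
  classical
  rw [Fintype.sum_option, Fintype.sum_prod_type, Finset.sum_eq_single d]
  · simp [ed, sg]
    ring
  · intro b _ hb
    simp [ed, hb]
  · simp

theorem Brw_cs0 {V P : Type} [Fintype P] {Q : Plumb V P} {β μ : V → ℂ → ℝ}
    {νt : V × Bool → ℂ → ℝ} {Λ δ τ a om κ : ℝ} (h : Q.Hyp β μ νt Λ δ τ a om κ) :
    Q.glue.CS 0 (tot μ νt) :=
  h.tot_cs.of_le bot_le

variable {D P : Type} [Fintype D] [Fintype P] (S : Sys D P)

theorem Brw_diff {p p' : D × D → ℝ} (hp : p ∈ cube D) (hp' : p' ∈ cube D)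
    {φ φ' : Option (D × Bool) × Bool → ℂ → ℝ}
    (hb : ∀ α, ∀ w ∈ S.Q.W α, |φ α w| ≤ 16 * S.Q.n * 1)
    (hb' : ∀ α, ∀ w ∈ S.Q.W α, |φ' α w| ≤ 16 * S.Q.n * 1) (α : Option (D × Bool) × Bool) :
    |∫ z, (1 * tot (S.μ p') S.νt α z - 1 * tot (S.μ p) S.νt α z) * (φ α z * φ' α z)| ≤
      |S.Cl| * ‖p' - p‖ * (16 * S.Q.n) ^ 2 := by
  obtain ⟨v, b⟩ := α
  have hQ := (S.hyp p hp).ok
  cases b
  · have e : ∀ z, 1 * tot (S.μ p') S.νt (v, false) z - 1 * tot (S.μ p) S.νt (v, false) z =
        S.μ p' v z - S.μ p v z := by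
      intro z
      simp [tot, fin]
    simp only [e]
    refine abs_integral_mul_le (g := fun z => S.μ p' v z - S.μ p v z)
      (φ := fun z => φ (v, false) z * φ' (v, false) z)
      (((S.hyp p' hp').μ_pb v).integrable.sub ((S.hyp p hp).μ_pb v).integrable) (by positivity)
      ((S.lip p' hp' p hp v).trans
        (mul_le_mul_of_nonneg_right (le_abs_self _) (norm_nonneg _))) ?_
    intro u hu
    have hc : u ∈ S.Q.core v := by
      by_cases h1 : S.μ p v u = 0
      · refine (S.hyp p' hp').μ_supp v u fun h2 => hu ?_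
        simp [h1, h2]
      · exact (S.hyp p hp).μ_supp v u h1
    have hW := hQ.bulk_sub_W v (hQ.core_sub_bulk v hc)
    have h1 := hb _ u hW
    have h2 := hb' _ u hW
    rw [mul_one] at h1 h2
    rw [abs_mul, sq]
    exact mul_le_mul h1 h2 (abs_nonneg _) ((abs_nonneg _).trans h1)
  · have e : ∀ z, 1 * tot (S.μ p') S.νt (v, true) z - 1 * tot (S.μ p) S.νt (v, true) z = 0 := by
      intro z
      simp [tot, fin]
    simp only [e, zero_mul, integral_zero, abs_zero]
    positivity

theorem Sys.tot_sym {p : D × D → ℝ} (hp : p ∈ cube D) (α : Option (D × Bool) × Bool) (w : ℂ) :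
    tot (S.μ p) S.νt (iV α.1, α.2) (-w) = tot (S.μ p) S.νt α w := by
  obtain ⟨v, b⟩ := α
  have h1 := S.νt_sym (v, b) w
  have h2 := S.μ_sym p hp v w
  simp only [iA] at h1
  cases b
  · simp only [tot, fin, h1, h2]
  · simp only [tot, fin, h1]

theorem Sys.resp_sym {p : D × D → ℝ} (hp : p ∈ cube D) {s c : ℝ} (hs : s ∈ Icc (0 : ℝ) 1)
    {φ : Option (D × Bool) × Bool → ℂ → ℝ} {t : Option (D × Bool) → ℝ}
    (h : S.Q.glue.GSol φ (src s (tot (S.μ p) S.νt) S.β t φ))
    (hu : ∀ v, av S.β φ (iV v) = c * av S.β φ v) (v : Option (D × Bool)) :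
    t (iV v) = c * t v := by
  classical
  have H := S.hyp p hp
  obtain ⟨ψ, ρ, hψ, hav, -, -⟩ := H.exists_rep hs (Pi.single v 1) (N := 1) (fun w => by
    by_cases hw : w = v
    · simp [hw]
    · simp [hw])
  obtain ⟨hr, hra⟩ := Plumb.gsol_rf H.ok S.sym S.β_sym (S.tot_sym hp) h
  have e1 := Plumb.gi_same H.ok H.bump (Brw_cs0 H) h hψ
  have e2 := Plumb.gi_same H.ok H.bump (Brw_cs0 H) hr hψ
  have e3 : ∀ x : Option (D × Bool) → ℝ, ∑ w, x w * av S.β ψ w = x v := by
    intro x
    rw [hav, Finset.sum_eq_single v]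
    · simp
    · intro b _ hb
      simp [hb]
    · simp
  rw [e3] at e1 e2
  rw [← e1, ← e2, Finset.mul_sum]
  refine Finset.sum_congr rfl fun w _ => ?_
  rw [hra, hu]
  ring

theorem Sys.exists_hit : ∃ p ∈ cube D, S.Hit p := by
  classical
  have h1 : (1 : ℝ) ∈ Icc (0 : ℝ) 1 := ⟨zero_le_one, le_rfl⟩
  choose φ ρ hs hav hbk hb using fun (p : cube D) (d : D) =>
    (S.hyp p p.2).exists_rep h1 (ed d) (N := 1) (Brw_ed_abs d)
  let T : cube D → D → D → ℝ := fun p d d' =>
    ((ρ p d').t (some (d, true)) - (ρ p d').t (some (d, false))) / 2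
  have hT : ∀ p d d', ∑ v, (ρ p d').t v * ed d v = 2 * T p d d' := by
    intro p d d'
    rw [Brw_sum_ed]
    simp only [T]
    ring
  have hsym : ∀ p d d', T p d d' = T p d' d := by
    intro p d d'
    have H := S.hyp p p.2
    have e := Plumb.gi_same H.ok H.bump (Brw_cs0 H) (hs p d) (hs p d')
    rw [hav, hav, hT, hT] at e
    linarith
  have hlip : ∀ p p' d d', |T p' d d' - T p d d'| ≤
      Fintype.card (Option (D × Bool) × Bool) * (|S.Cl| * (16 * S.Q.n) ^ 2) * dist p' p := by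
    intro p p' d d'
    have H := S.hyp p p.2
    have e := Plumb.gi_two H.ok H.bump (Brw_cs0 H) (Brw_cs0 (S.hyp p' p'.2)) (hs p d) (hs p' d')
    rw [hav, hav, hT, hT, hsym p d' d] at e
    have b := (Finset.abs_sum_le_sum_abs _ _).trans (Finset.sum_le_card_nsmul Finset.univ _ _
      fun α _ => Brw_diff S p.2 p'.2 (hb p d) (hb p' d') α)
    rw [← e, ← mul_sub, abs_mul, nsmul_eq_mul, Finset.card_univ] at b
    rw [Subtype.dist_eq, dist_eq_norm]
    have h2 : |(2 : ℝ)| = 2 := abs_two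
    have h3 := abs_nonneg (T p' d d' - T p d d')
    rw [h2] at b
    linarith
  have hcont : ∀ d d', Continuous fun p => T p d d' := by
    intro d d'
    exact (LipschitzWith.of_dist_le' (K := Fintype.card (Option (D × Bool) × Bool) *
      (|S.Cl| * (16 * S.Q.n) ^ 2)) fun p' p => hlip p p' d d').continuous
  let g : cube D → D × D → ℝ := fun p i =>
    if S.J i.1 i.2 then p.1 i - (T p i.1 i.2 + S.M0 i.1 i.2) / S.tau i.1 i.2 else 0
  have hg : Continuous g := by
    refine continuous_pi fun i => ?_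
    by_cases hJ : S.J i.1 i.2
    · simp only [g, hJ, if_true]
      exact ((continuous_apply i).comp continuous_subtype_val).sub
        (((hcont i.1 i.2).add continuous_const).div_const _)
    · simp only [g, hJ, if_false]
      exact continuous_const
  obtain ⟨p, hp, hf⟩ := MP_92c74b_an.brouwer_cube zero_le_one
    (fun p => if hp : p ∈ cube D then g ⟨p, hp⟩ else 0)
    (by
      rw [continuousOn_iff_continuous_domRestrict]
      refine hg.congr fun p => ?_
      have hp : p.1 ∈ cube D := p.2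
      simp only [domRestrict_apply, hp, dite_true])
    (by
      intro p hp i
      have hp' : p ∈ cube D := hp
      simp only [hp', dite_true, g]
      split_ifs with hJ
      · have e := S.expn p hp' i.1 i.2 hJ (ρ ⟨p, hp'⟩ i.2)
        have ht := S.tau_pos i.1 i.2
        have e2 : p i - (T ⟨p, hp'⟩ i.1 i.2 + S.M0 i.1 i.2) / S.tau i.1 i.2 =
            -(T ⟨p, hp'⟩ i.1 i.2 + S.M0 i.1 i.2 - S.tau i.1 i.2 * p (i.1, i.2)) /
              S.tau i.1 i.2 := by
          field_simp
          ring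
        rw [e2, abs_div, abs_neg, abs_of_pos ht, div_le_one ht]
        exact e
      · simp)
  have hp' : p ∈ cube D := hp
  simp only [hp', dite_true] at hf
  have hJ : ∀ d d', S.J d d' → T ⟨p, hp'⟩ d d' = -S.M0 d d' := by
    intro d d' hJ
    have e := congrFun hf (d, d')
    simp only [g, hJ, if_true] at e
    have e2 : (T ⟨p, hp'⟩ d d' + S.M0 d d') / S.tau d d' = 0 := by linarith
    rcases div_eq_zero_iff.1 e2 with e3 | e3
    · linarith
    · exact absurd e3 (S.tau_pos d d').ne'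
  have hall : ∀ d d', T ⟨p, hp'⟩ d d' = -S.M0 d d' := by
    intro d d'
    rcases S.J_total d d' with h | h
    · exact hJ d d' h
    · rw [hsym, hJ d' d h, S.M0_symm]
  refine ⟨p, hp', fun d' => ⟨φ ⟨p, hp'⟩ d', (ρ ⟨p, hp'⟩ d').t, hs _ _, hav _ _, ?_⟩⟩
  have hodd := S.resp_sym hp' (c := -1) h1 (hs ⟨p, hp'⟩ d') (fun v => by
    rw [hav]
    exact Brw_ed_iV d' v)
  refine ⟨?_, fun d ε => ?_⟩
  · have e := hodd none
    simp only [iV, Option.map_none] at e
    linarith
  · have e := hodd (some (d, true))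
    simp only [iV, flp, Option.map_some, Bool.not_true] at e
    have e2 := hall d d'
    simp only [T] at e2
    cases ε
    · simp only [sg]
      linarith
    · simp only [sg]
      linarith

end Pool.Agent.MP_4f0ed6_gt
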