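import Pool.Agent.MP_4f0ed6_gt.Defs

open Set Laplacian Filter Topology MeasureTheory Metric InnerProductSpace
open scoped ContDiff

namespace Pool.Agent.MP_4f0ed6_gt

theorem lap_add {f g : ℂ → ℝ} {z : ℂ} (hf : ContDiffAt ℝ 2 f z) (hg : ContDiffAt ℝ 2 g z) :
    Δ (fun w => f w + g w) z = Δ f z + Δ g z :=
  hf.laplacian_add hg

theorem lap_sub {f g : ℂ → ℝ} {z : ℂ} (hf : ContDiffAt ℝ 2 f z) (hg : ContDiffAt ℝ 2 g z) :
    Δ (fun w => f w - g w) z = Δ f z - Δ g z :=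
  hf.laplacian_sub hg

theorem lap_const_mul {f : ℂ → ℝ} {z : ℂ} (c : ℝ) (hf : ContDiffAt ℝ 2 f z) :
    Δ (fun w => c * f w) z = c * Δ f z :=
  laplacian_smul c hf

theorem Calc_const (c : ℝ) (z : ℂ) : Δ (fun _ : ℂ => c) z = 0 := by
  rw [laplacian_const]
  rfl

theorem lap_sum {ι : Type} (s : Finset ι) (f : ι → ℂ → ℝ) {z : ℂ}
    (hf : ∀ i ∈ s, ContDiffAt ℝ 2 (f i) z) :
    Δ (fun w => ∑ i ∈ s, f i w) z = ∑ i ∈ s, Δ (f i) z := by
  classical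
  induction s using Finset.induction_on with
  | empty => simp only [Finset.sum_empty]; exact Calc_const 0 z
  | insert a s ha ih =>
    simp only [Finset.sum_insert ha]
    have h1 : ContDiffAt ℝ 2 (f a) z := hf a (Finset.mem_insert_self a s)
    have h2 : ∀ i ∈ s, ContDiffAt ℝ 2 (f i) z := fun i hi => hf i (Finset.mem_insert_of_mem hi)
    rw [lap_add h1 (ContDiffAt.sum h2), ih h2]

theorem lap_congr {f g : ℂ → ℝ} {z : ℂ} (h : f =ᶠ[𝓝 z] g) : Δ f z = Δ g z :=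
  (laplacian_congr_nhds h).eq_of_nhds

theorem lap_const (c : ℝ) (z : ℂ) : Δ (fun _ : ℂ => c) z = 0 :=
  Calc_const c z

theorem log_norm_smooth {g : ℂ → ℂ} {z : ℂ} (hg : AnalyticAt ℂ g z) (h0 : g z ≠ 0) :
    ContDiffAt ℝ ∞ (fun w => Real.log ‖g w‖) z := by
  have h1 : ContDiffAt ℝ ∞ g z := (hg.restrictScalars (𝕜 := ℝ)).contDiffAt
  exact (h1.norm ℝ h0).log (norm_ne_zero_iff.mpr h0)

theorem log_norm_lap {g : ℂ → ℂ} {z : ℂ} (hg : AnalyticAt ℂ g z) (h0 : g z ≠ 0) :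
    Δ (fun w => Real.log ‖g w‖) z = 0 :=
  (hg.harmonicAt_log_norm h0).2.eq_of_nhds

theorem analytic_real_smooth {g : ℂ → ℂ} {z : ℂ} (hg : AnalyticAt ℂ g z) (k : WithTop ℕ∞) :
    ContDiffAt ℝ k g z :=
  (hg.restrictScalars (𝕜 := ℝ)).contDiffAt

theorem lap_smoothAt {f : ℂ → ℝ} {z : ℂ} (hf : ContDiffAt ℝ ∞ f z) :
    ContDiffAt ℝ ∞ (Δ f) z := by
  rw [laplacian_eq_iteratedFDeriv_complexPlane]
  have h1 : ContDiffAt ℝ ∞ (iteratedFDeriv ℝ 2 f) z :=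
    hf.iteratedFDeriv_right (i := 2) (le_of_eq rfl)
  have h2 : ∀ m : Fin 2 → ℂ, ContDiffAt ℝ ∞ (fun x => iteratedFDeriv ℝ 2 f x m) z := fun m =>
    ((ContinuousMultilinearMap.apply ℝ (fun _ : Fin 2 => ℂ) ℝ m).contDiff.contDiffAt).comp z h1
  exact (h2 _).add (h2 _)

theorem tsupport_lap (f : ℂ → ℝ) : tsupport (Δ f) ⊆ tsupport f := by
  intro z hz
  by_contra hn
  rw [notMem_tsupport_iff_eventuallyEq] at hn
  have h1 : Δ f =ᶠ[𝓝 z] Δ (fun _ : ℂ => (0 : ℝ)) := laplacian_congr_nhds hn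
  rw [laplacian_const] at h1
  exact (notMem_tsupport_iff_eventuallyEq.mpr h1) hz

theorem harmonicAt_of_lap {f : ℂ → ℝ} {U : Set ℂ} (hU : IsOpen U) (hf : ContDiffOn ℝ 2 f U)
    (h0 : ∀ z ∈ U, Δ f z = 0) {z : ℂ} (hz : z ∈ U) : HarmonicAt f z := by
  refine ⟨hf.contDiffAt (hU.mem_nhds hz), ?_⟩
  filter_upwards [hU.mem_nhds hz] with w hw
  exact h0 w hw

theorem exists_cutoff {C U : Set ℂ} (hC : IsCompact C) (hU : IsOpen U) (h : C ⊆ U) :
    ∃ ξ : ℂ → ℝ, ContDiff ℝ ∞ ξ ∧ HasCompactSupport ξ ∧ tsupport ξ ⊆ U ∧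
      (∀ z, 0 ≤ ξ z ∧ ξ z ≤ 1) ∧ ∀ z ∈ C, ξ z = 1 := by
  obtain ⟨L, hL, hCL, hLU⟩ := exists_compact_between hC hU h
  obtain ⟨f, h1, h0, h01⟩ := exists_contMDiffMap_one_nhds_of_subset_interior
    (modelWithCornersSelf ℝ ℂ) (n := ⊤) hC.isClosed hCL
  have hs : tsupport (f : ℂ → ℝ) ⊆ L := by
    refine closure_minimal ?_ hL.isClosed
    intro x hx
    by_contra hn
    exact hx (h0 x hn)
  refine ⟨f, contMDiff_iff_contDiff.mp f.contMDiff, hL.of_isClosed_subset (isClosed_tsupport _) hs,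
    hs.trans hLU, fun z => h01 z, fun z hz => h1.self_of_nhdsSet z hz⟩

theorem contDiff_mul_of_supp {k : WithTop ℕ∞} {ξ f : ℂ → ℝ} {U : Set ℂ} (hU : IsOpen U)
    (hξ : ContDiff ℝ k ξ) (hs : tsupport ξ ⊆ U) (hf : ContDiffOn ℝ k f U) :
    ContDiff ℝ k (fun z => ξ z * f z) := by
  rw [contDiff_iff_contDiffAt]
  intro z
  by_cases hz : z ∈ tsupport ξ
  · exact hξ.contDiffAt.mul (hf.contDiffAt (hU.mem_nhds (hs hz)))
  · rw [notMem_tsupport_iff_eventuallyEq] at hz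
    refine (contDiffAt_const (c := (0 : ℝ))).congr_of_eventuallyEq ?_
    filter_upwards [hz] with w hw
    simp [hw]

theorem continuous_mul_of_supp {ξ f : ℂ → ℝ} {U : Set ℂ} (hU : IsOpen U)
    (hξ : Continuous ξ) (hs : tsupport ξ ⊆ U) (hf : ContinuousOn f U) :
    Continuous (fun z => ξ z * f z) := by
  rw [continuous_iff_continuousAt]
  intro z
  by_cases hz : z ∈ tsupport ξ
  · exact hξ.continuousAt.mul (hf.continuousAt (hU.mem_nhds (hs hz)))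
  · rw [notMem_tsupport_iff_eventuallyEq] at hz
    refine (continuousAt_const (y := (0 : ℝ))).congr_of_eventuallyEq ?_
    filter_upwards [hz] with w hw
    simp [hw]

end Pool.Agent.MP_4f0ed6_gt
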