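import Pool.Agent.MP_4f0ed6_gt.Defs

open Set Laplacian Filter Topology MeasureTheory Metric InnerProductSpace
open scoped ContDiff

namespace Pool.Agent.MP_4f0ed6_gt

theorem Conf_bilin (B : ℂ →L[ℝ] ℂ →L[ℝ] ℝ) (a : ℂ) :
    B a a + B (a * Complex.I) (a * Complex.I) = ‖a‖ ^ 2 * (B 1 1 + B Complex.I Complex.I) := by
  have h1 : a = a.re • (1 : ℂ) + a.im • Complex.I := by
    apply Complex.ext <;> simp
  have h2 : a * Complex.I = (-a.im) • (1 : ℂ) + a.re • Complex.I := by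
    apply Complex.ext <;> simp
  have h3 : ‖a‖ ^ 2 = a.re ^ 2 + a.im ^ 2 := by
    rw [Complex.sq_norm, Complex.normSq_apply]; ring
  rw [h2, h3]
  have h4 : B a a = B (a.re • (1 : ℂ) + a.im • Complex.I) (a.re • (1 : ℂ) + a.im • Complex.I) := by
    rw [← h1]
  rw [h4]
  simp only [map_add, map_smul, add_apply, smul_apply,
    smul_eq_mul]
  ring

theorem Conf_hasFDerivAt {g : ℂ → ℂ} {w a : ℂ} (h : HasDerivAt g a w) :
    HasFDerivAt g (ContinuousLinearMap.mul ℝ ℂ a) w := by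
  have h1 := (h.hasFDerivAt).restrictScalars ℝ
  have h2 : ContinuousLinearMap.mul ℝ ℂ a =
      (ContinuousLinearMap.toSpanSingleton ℂ a).restrictScalars ℝ := by
    apply ContinuousLinearMap.ext
    intro v
    simp [mul_comm]
  rw [h2]
  exact h1

theorem laplacian_comp_hol {f : ℂ → ℝ} {τ : ℂ → ℂ} {z : ℂ} (hf : ContDiffAt ℝ 2 f (τ z))
    (hτ : AnalyticAt ℂ τ z) : Δ (fun w => f (τ w)) z = ‖deriv τ z‖ ^ 2 * Δ f (τ z) := by
  have hτ1 : ∀ᶠ w in 𝓝 z, HasDerivAt τ (deriv τ w) w :=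
    hτ.eventually_analyticAt.mono fun w hw => hw.differentiableAt.hasDerivAt
  have hf1 : ∀ᶠ u in 𝓝 (τ z), DifferentiableAt ℝ f u :=
    (hf.eventually (by simp)).mono fun u hu => hu.differentiableAt (by simp)
  have hf2 : ∀ᶠ w in 𝓝 z, DifferentiableAt ℝ f (τ w) := hτ.continuousAt.eventually hf1
  have hE : fderiv ℝ (fun w => f (τ w)) =ᶠ[𝓝 z]
      fun w => (fderiv ℝ f (τ w)).comp (ContinuousLinearMap.mul ℝ ℂ (deriv τ w)) := by
    filter_upwards [hτ1, hf2] with w h1 h2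
    exact (h2.hasFDerivAt.comp w (Conf_hasFDerivAt h1)).fderiv
  have hF : HasFDerivAt (fderiv ℝ f) (fderiv ℝ (fderiv ℝ f) (τ z)) (τ z) := by
    have : ContDiffAt ℝ 1 (fderiv ℝ f) (τ z) := hf.fderiv_right (by norm_num)
    exact (this.differentiableAt (by simp)).hasFDerivAt
  have hz : HasFDerivAt τ (ContinuousLinearMap.mul ℝ ℂ (deriv τ z)) z :=
    Conf_hasFDerivAt hτ.differentiableAt.hasDerivAt
  have hd : HasFDerivAt (deriv τ) (ContinuousLinearMap.mul ℝ ℂ (deriv (deriv τ) z)) z :=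
    Conf_hasFDerivAt hτ.deriv.differentiableAt.hasDerivAt
  have hL := (ContinuousLinearMap.mul ℝ ℂ).hasFDerivAt.comp z hd
  have hC := (hF.comp z hz).clm_comp hL
  have hG := (hC.congr_of_eventuallyEq hE).fderiv
  rw [laplacian_eq_iteratedFDeriv_complexPlane, laplacian_eq_iteratedFDeriv_complexPlane]
  simp only [iteratedFDeriv_two_apply, Matrix.cons_val_zero, Matrix.cons_val_one,
    Matrix.cons_val_fin_one]
  rw [hG, ← Conf_bilin]
  simp only [add_apply, ContinuousLinearMap.comp_apply,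
    ContinuousLinearMap.compL_apply, ContinuousLinearMap.flip_apply,
    ContinuousLinearMap.mul_apply', Function.comp_apply, mul_one]
  have hI : deriv (deriv τ) z * Complex.I * Complex.I = - deriv (deriv τ) z := by
    rw [mul_assoc, Complex.I_mul_I]; ring
  rw [hI, map_neg]
  ring

end Pool.Agent.MP_4f0ed6_gt
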