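import Pool.Agent.MP_4f0ed6_gt.PlGeo

open Set Laplacian Filter Topology MeasureTheory Metric InnerProductSpace
open scoped ContDiff

namespace Pool.Agent.MP_4f0ed6_gt

namespace Plumb

variable {V P : Type} [Fintype V] [Fintype P] {Q : Plumb V P} {g : V × Bool → ℂ → ℝ}

omit [Fintype V] [Fintype P] in
theorem PlGd_cap (hg : ∀ α, ∀ z ∉ Q.W α, g α z = 0) (α : V × Bool) {w : ℂ}
    (h : ¬ (1 / 2 < ‖w‖)) : g α w⁻¹ * ‖deriv (fun z : ℂ => z⁻¹) w‖ ^ 2 = 0 := by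
  by_cases h0 : w = 0
  · subst h0
    simp
  · have hp : 0 < ‖w‖ := norm_pos_iff.mpr h0
    have hn : w⁻¹ ∉ Q.W α := by
      intro hW
      have h2 := norm_lt_of_W hW
      rw [norm_inv, inv_lt_comm₀ hp (by norm_num)] at h2
      apply h
      linarith
    rw [hg α _ hn, zero_mul]

omit [Fintype V] in
theorem PlGd_port (hQ : Q.Ok) (hg : ∀ α, ∀ z ∉ Q.W α, g α z = 0) (π : P) {w : ℂ}
    (h : ¬ (‖w - Q.c π‖ < 2 * Q.r π)) :
    g (Q.pc (Q.σ π), false) (Q.c (Q.σ π) + Q.ε π / (w - Q.c π)) = 0 := by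
  apply hg
  intro hW
  have h1 := hW.2 (Q.σ π) rfl
  have hr := r_pos (Q := Q) π
  rw [add_sub_cancel_left, norm_div, norm_ε, hQ.r_σ] at h1
  push Not at h
  have hp : 0 < ‖w - Q.c π‖ := by linarith
  rw [lt_div_iff₀ hp] at h1
  nlinarith

omit [Fintype P] in
theorem PlGd_capsum (hg : ∀ α, ∀ z ∉ Q.W α, g α z = 0) (α : V × Bool) {w : ℂ}
    (hw : ‖w‖ < 2)
    {_ : ∀ κ, Decidable (Q.glue.ch (Sum.inr κ) = α ∧ w ∈ Q.glue.O (Sum.inr κ))} :
    (∑ κ : V × Bool, if Q.glue.ch (Sum.inr κ) = α ∧ w ∈ Q.glue.O (Sum.inr κ) then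
      g (Q.glue.ch (Q.glue.σ (Sum.inr κ))) (Q.glue.τ (Sum.inr κ) w) *
        ‖deriv (Q.glue.τ (Sum.inr κ)) w‖ ^ 2 else 0) =
      g (α.1, !α.2) w⁻¹ * ‖deriv (fun z : ℂ => z⁻¹) w‖ ^ 2 := by
  rw [Finset.sum_eq_single α]
  · by_cases h : 1 / 2 < ‖w‖
    · rw [if_pos ⟨rfl, h, hw⟩]
      rfl
    · rw [if_neg (fun hh => h hh.2.1), PlGd_cap hg _ h]
  · intro b _ hb
    exact if_neg (fun hh => hb hh.1)
  · intro h
    exact absurd (Finset.mem_univ _) h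

theorem Ok.gd_false (hQ : Q.Ok) (hg : ∀ α, ∀ z ∉ Q.W α, g α z = 0) {v : V} {w : ℂ}
    (hw : w ∈ Q.W (v, false)) :
    Q.glue.gd g (v, false) w = g (v, false) w +
      g (v, true) w⁻¹ * ‖deriv (fun z : ℂ => z⁻¹) w‖ ^ 2 +
      ∑ π ∈ Q.pts v, g (Q.pc (Q.σ π), false) (Q.c (Q.σ π) + Q.ε π / (w - Q.c π)) *
        ‖deriv (fun z : ℂ => Q.ε π / (z - Q.c π)) w‖ ^ 2 := by
  classical
  unfold Glue.gd
  rw [Fintype.sum_sum_type, add_assoc, add_comm (∑ _ : P, _)]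
  refine congrArg _ (congrArg₂ (· + ·) (PlGd_capsum hg (v, false) (norm_lt_of_W hw)) ?_)
  unfold pts
  rw [Finset.sum_filter]
  refine Finset.sum_congr rfl fun π _ => ?_
  by_cases hv : Q.pc π = v
  · rw [if_pos hv]
    by_cases h : ‖w - Q.c π‖ < 2 * Q.r π
    · rw [if_pos ⟨by subst hv; rfl, hw.2 π hv, h⟩]
      have : deriv (Q.glue.τ (Sum.inl π)) w = deriv (fun z : ℂ => Q.ε π / (z - Q.c π)) w :=
        deriv_const_add (f := fun z : ℂ => Q.ε π / (z - Q.c π)) (Q.c (Q.σ π))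
      rw [this]
      rfl
    · rw [if_neg (fun hh => h hh.2.2), PlGd_port hQ hg π h, zero_mul]
  · rw [if_neg hv, if_neg (fun hh => hv (congrArg Prod.fst hh.1))]

theorem Ok.gd_true (hQ : Q.Ok) (hg : ∀ α, ∀ z ∉ Q.W α, g α z = 0) {v : V} {w : ℂ}
    (hw : w ∈ Q.W (v, true)) :
    Q.glue.gd g (v, true) w = g (v, true) w +
      g (v, false) w⁻¹ * ‖deriv (fun z : ℂ => z⁻¹) w‖ ^ 2 := by
  classical
  have _ := hQ
  unfold Glue.gd
  rw [Fintype.sum_sum_type, Finset.sum_eq_zero (s := (Finset.univ : Finset P)), zero_add]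
  · exact congrArg _ (PlGd_capsum hg (v, true) (norm_lt_of_W hw))
  · intro π _
    refine if_neg fun hh => ?_
    have := congrArg Prod.snd hh.1
    simp [glue] at this

end Plumb

end Pool.Agent.MP_4f0ed6_gt
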