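import Pool.Agent.MP_4f0ed6_gt.Match1
import Pool.Agent.MP_4f0ed6_gt.PlGd

open Set Laplacian Filter Topology MeasureTheory Metric InnerProductSpace
open scoped ContDiff

namespace Pool.Agent.MP_4f0ed6_gt

namespace Plumb

variable {V P : Type} [Fintype V] [Fintype P] {Q : Plumb V P} {β : V → ℂ → ℝ} {Λ s : ℝ}
  {Y : Inp V P} {ν ext : V × Bool → ℂ → ℝ}

theorem Match_two : (2 : WithTop ℕ∞) ≤ ∞ := WithTop.coe_le_coe.2 (le_top (a := (2 : ℕ∞)))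

omit [Fintype V] [Fintype P] in
theorem Match_one (hY : Q.Reg Y ∞) : Q.Reg Y (1 : ℕ) :=
  ⟨hY.1, hY.2.of_le (by exact_mod_cast le_top)⟩

omit [Fintype V] in
theorem Match_port (hQ : Q.Ok) (hβ : Q.Bump β Λ) (hY : Q.Reg Y ∞) (π : P) {w : ℂ}
    (hw : Q.r π / 2 < ‖w - Q.c π‖) :
    ContDiffAt ℝ 2 (fun w => Y.b π * Real.log ‖w - Q.c π‖ +
      Q.R0 β Y (Q.σ π) (Q.ε π / (w - Q.c π)) - Q.R0 β Y (Q.σ π) 0) w ∧
    Δ (fun w => Y.b π * Real.log ‖w - Q.c π‖ +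
      Q.R0 β Y (Q.σ π) (Q.ε π / (w - Q.c π)) - Q.R0 β Y (Q.σ π) 0) w =
      2 * Real.pi * (Q.gs β Y (Q.pc (Q.σ π), false) (Q.c (Q.σ π) + Q.ε π / (w - Q.c π)) *
        ‖deriv (fun z : ℂ => Q.ε π / (z - Q.c π)) w‖ ^ 2) := by
  have hr := r_pos (Q := Q) π
  have h0 : w - Q.c π ≠ 0 := norm_pos_iff.1 (by linarith)
  have a₁ : AnalyticAt ℂ (fun z : ℂ => z - Q.c π) w := analyticAt_id.sub analyticAt_const
  have a₂ : AnalyticAt ℂ (fun z : ℂ => Q.ε π / (z - Q.c π)) w := analyticAt_const.div a₁ h0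
  have hx : ‖Q.ε π / (w - Q.c π)‖ < Q.sep / 2 := by
    have := hQ.r_le' π
    rw [norm_div, norm_ε, div_lt_iff₀ (by linarith)]
    nlinarith
  have c₁ : ContDiffAt ℝ 2 (fun z : ℂ => Real.log ‖z - Q.c π‖) w :=
    (log_norm_smooth a₁ h0).of_le Match_two
  have c₂ : ContDiffAt ℝ 2 (Q.R0 β Y (Q.σ π)) (Q.ε π / (w - Q.c π)) :=
    R0_reg hQ hβ (Match_one hY) (Q.σ π) hx.le
  have c₃ : ContDiffAt ℝ 2 (fun z => Q.R0 β Y (Q.σ π) (Q.ε π / (z - Q.c π))) w :=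
    ContDiffAt.comp (g := Q.R0 β Y (Q.σ π)) w c₂ (analytic_real_smooth a₂ 2)
  have c₄ := (contDiffAt_const (c := Y.b π)).mul c₁
  refine ⟨(c₄.add c₃).sub contDiffAt_const, ?_⟩
  rw [lap_sub (c₄.add c₃) contDiffAt_const, lap_add c₄ c₃, lap_const, lap_const_mul _ c₁,
    log_norm_lap a₁ h0, laplacian_comp_hol (τ := fun z : ℂ => Q.ε π / (z - Q.c π)) c₂ a₂,
    R0_lap hQ hβ hY _ hx]
  ring

theorem phi_lap (hQ : Q.Ok) (hβ : Q.Bump β Λ) (hY : Q.Reg Y ∞) (α : V × Bool) {w : ℂ}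
    (hw : w ∈ Q.W α) : Δ (Q.phi β Y α) w = 2 * Real.pi * Q.glue.gd (Q.gs β Y) α w := by
  have hg : ∀ α, ∀ z ∉ Q.W α, Q.gs β Y α z = 0 := fun α z hz =>
    (gs_cs le_rfl hQ hβ hY).eq_zero hz
  have cP : ContDiffAt ℝ 2 (Q.Pot β Y α) w := (Pot_reg hQ hβ (Match_one hY) α).contDiffAt
  have cC := (contDiffAt_const (c := Q.CC β Y α.1)).add cP
  obtain ⟨v, _ | _⟩ := α
  · have h := fun π (hπ : π ∈ Q.pts v) => Match_port hQ hβ hY π (hw.2 π (mem_pts.1 hπ))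
    rw [hQ.gd_false hg hw, phi, lap_add cC (ContDiffAt.sum fun π hπ => (h π hπ).1),
      lap_add contDiffAt_const cP, lap_const, Pot_lap hQ hβ hY,
      lap_sum _ _ fun π hπ => (h π hπ).1, Finset.sum_congr rfl fun π hπ => (h π hπ).2,
      ← Finset.mul_sum]
    simp only [Bool.not_false]
    ring
  · have h := fun π => cap_reg hQ hY.1 π (norm_lt_of_W hw)
    rw [hQ.gd_true hg hw, phi,
      lap_add cC (ContDiffAt.sum fun π _ => (h π).1.of_le Match_two),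
      lap_add contDiffAt_const cP, lap_const, Pot_lap hQ hβ hY,
      lap_sum _ _ fun π _ => (h π).1.of_le Match_two, Finset.sum_eq_zero fun π _ => (h π).2]
    simp only [Bool.not_true]
    ring

theorem IsFix.gsol (hQ : Q.Ok) (hβ : Q.Bump β Λ) (hν : Q.glue.CS ∞ ν) (hext : Q.glue.CS ∞ ext)
    (h : Q.IsFix β Y s ν ext) : Q.glue.GSol (Q.phi β Y)
      fun α z => src s ν β (Q.tt Y) (Q.phi β Y) α z + ext α z := by
  have hY := h.smooth hQ hβ hν hext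
  have e : (fun α z => src s ν β (Q.tt Y) (Q.phi β Y) α z + ext α z) = Q.gs β Y := by
    funext α z
    rw [src, gs, h.sour]
    ring
  rw [e]
  exact ⟨phi_smooth hQ hβ hY, phi_compat hQ hβ hY h, fun α z hz => phi_lap hQ hβ hY α hz⟩

end Plumb

end Pool.Agent.MP_4f0ed6_gt
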