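import Pool.Agent.MP_4f0ed6_gt.PlConn

open Set Laplacian Filter Topology MeasureTheory Metric InnerProductSpace
open scoped ContDiff

namespace Pool.Agent.MP_4f0ed6_gt

section aux

variable {V P : Type} [Fintype P] {Q : Plumb V P}

theorem PlOk_r (hQ : Q.Ok) (π : P) : Q.r π ≤ 1 / 64 := by
  have := hQ.r_le' π
  have := hQ.sep_le
  linarith

omit [Fintype P] in
theorem PlOk_norm (π : P) (x : ℂ) : ‖Q.ε π / x‖ = Q.r π ^ 2 / ‖x‖ := by
  rw [norm_div, Plumb.norm_ε]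

omit [Fintype P] in
theorem PlOk_ε_ne (π : P) : Q.ε π ≠ 0 := by
  rw [← norm_pos_iff, Plumb.norm_ε]
  exact pow_pos (Plumb.r_pos π) 2

theorem PlOk_far (hQ : Q.Ok) (π : P) {w : ℂ} (hw : 1 / 2 ≤ ‖w‖) : 1 / 4 ≤ ‖w - Q.c π‖ := by
  have h1 := norm_sub_norm_le w (Q.c π)
  have h2 := hQ.c_le π
  linarith

theorem PlOk_small (hQ : Q.Ok) (π : P) {w : ℂ} (hw : ‖w - Q.c π‖ < 2 * Q.r π) : ‖w‖ < 1 / 2 := by
  by_contra h
  have := PlOk_far hQ π (not_lt.mp h)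
  have := PlOk_r hQ π
  linarith

theorem PlOk_other (hQ : Q.Ok) {π π' : P} (hne : π' ≠ π) (hp : Q.pc π' = Q.pc π) {w : ℂ}
    (hw : ‖w - Q.c π‖ < 2 * Q.r π) : 2 * Q.r π' ≤ ‖w - Q.c π'‖ := by
  have h1 := hQ.r_le' π
  have h2 := hQ.r_le' π'
  have h3 := Plumb.r_pos (Q := Q) π
  have h4 := Plumb.r_pos (Q := Q) π'
  have h5 := (hQ.near hne hp (x := w - Q.c π) (by linarith)).1
  rw [add_sub_cancel] at h5
  linarith

theorem PlOk_tube (hQ : Q.Ok) (π : P) {w : ℂ} (h1 : Q.r π / 2 < ‖w - Q.c π‖)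
    (h2 : ‖w - Q.c π‖ < 2 * Q.r π) :
    Q.r (Q.σ π) / 2 < ‖Q.c (Q.σ π) + Q.ε π / (w - Q.c π) - Q.c (Q.σ π)‖ ∧
      ‖Q.c (Q.σ π) + Q.ε π / (w - Q.c π) - Q.c (Q.σ π)‖ < 2 * Q.r (Q.σ π) := by
  have h3 := Plumb.r_pos (Q := Q) π
  have h4 : 0 < ‖w - Q.c π‖ := by linarith
  rw [add_sub_cancel_left, PlOk_norm, hQ.r_σ, lt_div_iff₀ h4, div_lt_iff₀ h4]
  constructor <;> nlinarith

theorem PlOk_cap {w : ℂ} (h1 : 1 / 2 < ‖w‖) (h2 : ‖w‖ < 2) : 1 / 2 < ‖w⁻¹‖ ∧ ‖w⁻¹‖ < 2 := by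
  have h4 : 0 < ‖w‖ := by linarith
  rw [norm_inv, inv_eq_one_div, lt_div_iff₀ h4, div_lt_iff₀ h4]
  constructor <;> linarith

theorem PlOk_inv_le {w : ℂ} (h1 : 1 < ‖w‖) : ‖w⁻¹‖ ≤ 1 := by
  rw [norm_inv]
  exact inv_le_one_of_one_le₀ h1.le

theorem PlOk_O_sub (hQ : Q.Ok) (κ : P ⊕ V × Bool) : Q.glue.O κ ⊆ Q.glue.W (Q.glue.ch κ) := by
  rcases κ with π | ⟨v, _ | _⟩
  · rintro w ⟨h1, h2⟩
    refine ⟨by linarith [PlOk_small hQ π h2], fun π' hp => ?_⟩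
    by_cases hne : π' = π
    · rw [hne]; exact h1
    · linarith [PlOk_other hQ hne hp h2, Plumb.r_pos (Q := Q) π']
  · rintro w ⟨h1, h2⟩
    exact ⟨h2, fun π _ => by linarith [PlOk_far hQ π h1.le, PlOk_r hQ π]⟩
  · exact fun w hw => hw.2

theorem PlOk_disj (hQ : Q.Ok) (κ κ' : P ⊕ V × Bool) (z : ℂ) (h : Q.glue.ch κ = Q.glue.ch κ')
    (h1 : z ∈ Q.glue.O κ) (h2 : z ∈ Q.glue.O κ') : κ = κ' := by
  rcases κ with π | α <;> rcases κ' with π' | α'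
  · by_contra hne
    have hne' : π' ≠ π := fun e => hne (by rw [e])
    have hp : Q.pc π' = Q.pc π := (congrArg Prod.fst h).symm
    exact absurd h2.2 (not_lt.mpr (PlOk_other hQ hne' hp h1.2))
  · exact absurd h2.1 (not_lt.mpr (PlOk_small hQ π h1.2).le)
  · exact absurd h1.1 (not_lt.mpr (PlOk_small hQ π' h2.2).le)
  · exact congrArg Sum.inr h

theorem PlOk_closed (hQ : Q.Ok) (κ : P ⊕ V × Bool) (C : Set ℂ) (hC : IsCompact C)
    (hs : C ⊆ Q.glue.W (Q.glue.ch (Q.glue.σ κ))) (z : ℂ) (hz : z ∈ Q.glue.W (Q.glue.ch κ))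
    (hO : z ∉ Q.glue.O κ) : ∀ᶠ w in 𝓝 z, w ∈ Q.glue.O κ → Q.glue.τ κ w ∉ C := by
  have key : ContinuousAt (Q.glue.τ κ) z → Q.glue.τ κ z ∉ Q.glue.W (Q.glue.ch (Q.glue.σ κ)) →
      ∀ᶠ w in 𝓝 z, w ∈ Q.glue.O κ → Q.glue.τ κ w ∉ C := fun hc hn => by
    have : ∀ᶠ w in 𝓝 z, Q.glue.τ κ w ∈ Cᶜ :=
      hc (hC.isClosed.isOpen_compl.mem_nhds fun h => hn (hs h))
    exact this.mono fun w hw _ => hw
  rcases κ with π | α
  · have h1 : Q.r π / 2 < ‖z - Q.c π‖ := hz.2 π rfl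
    have h2 : 2 * Q.r π ≤ ‖z - Q.c π‖ := not_lt.mp fun h => hO ⟨h1, h⟩
    have h3 := Plumb.r_pos (Q := Q) π
    have h4 : 0 < ‖z - Q.c π‖ := by linarith
    refine key ?_ fun h => ?_
    · exact continuousAt_const.add (continuousAt_const.div (continuousAt_id.sub continuousAt_const)
        (norm_pos_iff.mp h4))
    · have h5 : Q.r (Q.σ π) / 2 < ‖Q.c (Q.σ π) + Q.ε π / (z - Q.c π) - Q.c (Q.σ π)‖ :=
        h.2 (Q.σ π) rfl
      rw [add_sub_cancel_left, PlOk_norm, hQ.r_σ, lt_div_iff₀ h4] at h5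
      nlinarith
  · have h1 : ‖z‖ < 2 := Plumb.norm_lt_of_W hz
    have h2 : ‖z‖ ≤ 1 / 2 := not_lt.mp fun h => hO ⟨h, h1⟩
    by_cases h0 : z = 0
    · subst h0
      filter_upwards [ball_mem_nhds (0 : ℂ) (show (0 : ℝ) < 1 / 2 by norm_num)] with w hw hw'
      exact absurd hw'.1 (not_lt.mpr (mem_ball_zero_iff.mp hw).le)
    · refine key (continuousAt_inv₀ h0) fun h => ?_
      have h3 : ‖z⁻¹‖ < 2 := Plumb.norm_lt_of_W h
      have h4 : 0 < ‖z‖ := norm_pos_iff.mpr h0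
      rw [norm_inv, inv_eq_one_div, div_lt_iff₀ h4] at h3
      linarith

omit [Fintype P] in
theorem PlOk_compact (α : V × Bool) : IsCompact (Q.Cp α) := by
  rcases α with ⟨v, _ | _⟩
  · refine (isCompact_closedBall (0 : ℂ) 1).of_isClosed_subset ?_
      fun w hw => mem_closedBall_zero_iff.mpr hw.1
    simp only [Plumb.Cp, Set.ofPred_and, Set.ofPred_forall]
    refine (isClosed_le continuous_norm continuous_const).inter
      (isClosed_iInter fun π => isClosed_iInter fun _ => isClosed_le continuous_const ?_)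
    fun_prop
  · convert isCompact_closedBall (0 : ℂ) 1 using 1
    ext w
    simp [Plumb.Cp]

theorem PlOk_cover (hQ : Q.Ok) (α : V × Bool) (z : ℂ) (hz : z ∈ Q.glue.W α) :
    z ∈ Q.glue.Cp α ∨ ∃ κ, Q.glue.ch κ = α ∧ z ∈ Q.glue.O κ ∧
      Q.glue.τ κ z ∈ Q.glue.Cp (Q.glue.ch (Q.glue.σ κ)) := by
  have h2 : ‖z‖ < 2 := Plumb.norm_lt_of_W hz
  rcases α with ⟨v, _ | _⟩
  · by_cases h1 : ‖z‖ ≤ 1
    · by_cases h3 : ∀ π, Q.pc π = v → Q.r π ≤ ‖z - Q.c π‖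
      · exact Or.inl ⟨h1, h3⟩
      push Not at h3
      obtain ⟨π, rfl, h4⟩ := h3
      have h5 := Plumb.r_pos (Q := Q) π
      have h6 : Q.r π / 2 < ‖z - Q.c π‖ := hz.2 π rfl
      have h7 : ‖z - Q.c π‖ < 2 * Q.r π := by linarith
      have h8 := PlOk_tube hQ π h6 h7
      refine Or.inr ⟨Sum.inl π, rfl, ⟨h6, h7⟩, ?_⟩
      change Q.c (Q.σ π) + Q.ε π / (z - Q.c π) ∈ Q.Cp (Q.pc (Q.σ π), false)
      refine ⟨by linarith [PlOk_small hQ _ h8.2], fun π' hp => ?_⟩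
      by_cases hne : π' = Q.σ π
      · rw [hne, add_sub_cancel_left, PlOk_norm, hQ.r_σ, le_div_iff₀ (by linarith)]
        nlinarith
      · linarith [PlOk_other hQ hne hp h8.2, Plumb.r_pos (Q := Q) π']
    · push Not at h1
      exact Or.inr ⟨Sum.inr (v, false), rfl, ⟨by linarith, h2⟩, PlOk_inv_le h1⟩
  · by_cases h1 : ‖z‖ ≤ 1
    · exact Or.inl h1
    push Not at h1
    refine Or.inr ⟨Sum.inr (v, true), rfl, ⟨by linarith, h2⟩, ?_⟩
    change z⁻¹ ∈ Q.Cp (v, false)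
    refine ⟨PlOk_inv_le h1, fun π _ => ?_⟩
    linarith [PlOk_far hQ π (PlOk_cap (w := z) (by linarith) h2).1.le, PlOk_r hQ π]

theorem PlOk_conn (hQ : Q.Ok) (α β : V × Bool) : Relation.ReflTransGen
    (fun a b => ∃ κ, Q.glue.ch κ = a ∧ Q.glue.ch (Q.glue.σ κ) = b) α β := by
  have h1 : ∀ v v', Relation.ReflTransGen
      (fun a b => ∃ κ, Q.glue.ch κ = a ∧ Q.glue.ch (Q.glue.σ κ) = b) (v, false) (v', false) := by
    intro v v'
    induction hQ.conn v v' with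
    | refl => exact .refl
    | tail _ h ih =>
      obtain ⟨π, rfl, rfl⟩ := h
      exact ih.tail ⟨Sum.inl π, rfl, rfl⟩
  rcases α with ⟨v, _ | _⟩ <;> rcases β with ⟨v', _ | _⟩
  · exact h1 v v'
  · exact (h1 v v').tail ⟨Sum.inr (v', false), rfl, rfl⟩
  · exact (h1 v v').head ⟨Sum.inr (v, true), rfl, rfl⟩
  · exact ((h1 v v').head ⟨Sum.inr (v, true), rfl, rfl⟩).tail ⟨Sum.inr (v', false), rfl, rfl⟩

theorem PlOk_core (hQ : Q.Ok) (α : V × Bool) :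
    ∃ z ∈ Q.glue.W α, ∀ κ, Q.glue.ch κ = α → z ∉ Q.glue.O κ := by
  rcases α with ⟨v, _ | _⟩
  · have h : ‖(1 / 2 : ℂ)‖ = 1 / 2 := by simp
    refine ⟨1 / 2, ⟨by rw [h]; norm_num, fun π _ => ?_⟩, ?_⟩
    · linarith [PlOk_far hQ π h.ge, PlOk_r hQ π]
    · rintro (π | β) - hm
      · exact absurd (PlOk_small hQ π hm.2) (not_lt.mpr h.ge)
      · exact absurd hm.1 (not_lt.mpr h.le)
  · refine ⟨0, show ‖(0 : ℂ)‖ < 2 by simp, ?_⟩
    rintro (π | β) h hm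
    · exact absurd (congrArg Prod.snd h) Bool.false_ne_true
    · have : (1 : ℝ) / 2 < ‖(0 : ℂ)‖ := hm.1
      norm_num at this

end aux

theorem Plumb.Ok.glue {V P : Type} [Fintype P] {Q : Plumb V P} (hQ : Q.Ok) : Q.glue.Ok where
  W_open := Plumb.isOpen_W
  O_open := by
    rintro (π | α)
    · have h : Continuous fun w : ℂ => ‖w - Q.c π‖ := by fun_prop
      exact (isOpen_lt continuous_const h).inter (isOpen_lt h continuous_const)
    · exact (isOpen_lt continuous_const continuous_norm).inter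
        (isOpen_lt continuous_norm continuous_const)
  O_sub := PlOk_O_sub hQ
  σσ := by
    rintro (π | ⟨v, i⟩)
    · exact congrArg Sum.inl (hQ.σσ π)
    · simp [Plumb.glue]
  ch_ne := by
    rintro (π | ⟨v, i⟩) h
    · exact hQ.pc_ne π (congrArg Prod.fst h)
    · simp [Plumb.glue] at h
  maps := by
    rintro (π | α) z hz
    · exact PlOk_tube hQ π hz.1 hz.2
    · exact PlOk_cap hz.1 hz.2
  inv := by
    rintro (π | α) z hz
    · change Q.c (Q.σ (Q.σ π)) + Q.ε (Q.σ π) /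
        (Q.c (Q.σ π) + Q.ε π / (z - Q.c π) - Q.c (Q.σ π)) = z
      rw [hQ.σσ, hQ.ε_σ, add_sub_cancel_left, div_div_cancel₀ (PlOk_ε_ne π), add_sub_cancel]
    · exact inv_inv z
  hol := by
    rintro (π | α) z hz
    · have h : z - Q.c π ≠ 0 := norm_pos_iff.mp (by linarith [hz.1, Plumb.r_pos (Q := Q) π])
      have h1 : DifferentiableAt ℂ (fun w : ℂ => Q.c (Q.σ π) + Q.ε π / (w - Q.c π)) z := by
        fun_prop (disch := exact h)
      exact h1.differentiableWithinAt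
    · have h : z ≠ 0 := norm_pos_iff.mp (by linarith [hz.1])
      exact (differentiableAt_inv h).differentiableWithinAt
  disj := PlOk_disj hQ
  closed := PlOk_closed hQ
  Cp_compact := PlOk_compact
  Cp_sub := by
    rintro ⟨v, _ | _⟩ w hw
    · exact ⟨by linarith [hw.1], fun π h => by linarith [hw.2 π h, Plumb.r_pos (Q := Q) π]⟩
    · have h : ‖w‖ ≤ 1 := hw
      show ‖w‖ < 2
      linarith
  cover := PlOk_cover hQ
  W_conn := hQ.W_conn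
  O_ne := by
    rintro (π | α)
    · have h := Plumb.r_pos (Q := Q) π
      refine ⟨Q.c π + Q.r π, ?_⟩
      change Q.r π / 2 < ‖Q.c π + Q.r π - Q.c π‖ ∧ ‖Q.c π + Q.r π - Q.c π‖ < 2 * Q.r π
      rw [add_sub_cancel_left, Complex.norm_real, Real.norm_of_nonneg h.le]
      constructor <;> linarith
    · refine ⟨1, ?_⟩
      change (1 : ℝ) / 2 < ‖(1 : ℂ)‖ ∧ ‖(1 : ℂ)‖ < 2
      norm_num
  ne := hQ.ne.elim fun v => ⟨(v, false)⟩
  conn := PlOk_conn hQ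
  core := PlOk_core hQ

end Pool.Agent.MP_4f0ed6_gt
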