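import Pool.Agent.MP_4f0ed6_gt.Fix
import Pool.Agent.MP_4f0ed6_gt.Match
import Pool.Agent.MP_4f0ed6_gt.PlOk

open Set Laplacian Filter Topology MeasureTheory Metric InnerProductSpace
open scoped ContDiff

namespace Pool.Agent.MP_4f0ed6_gt

namespace Plumb

variable {V P : Type} [Fintype V] [Fintype P] {Q : Plumb V P} {β μ : V → ℂ → ℝ}
  {νt : V × Bool → ℂ → ℝ} {Λ δ τ a om κ s : ℝ}

omit [Fintype V] in
theorem Hyp.tot_cs (h : Q.Hyp β μ νt Λ δ τ a om κ) : Q.glue.CS ∞ (tot μ νt) :=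
  (h.ok.cs_fin h.μ_smooth h.μ_supp).add h.νt_cs

omit [Fintype V] in
theorem Core_tot_pb (h : Q.Hyp β μ νt Λ δ τ a om κ) (α : V × Bool) :
    PB (tot μ νt α) (δ + τ) := by
  obtain ⟨v, b⟩ := α
  cases b
  · exact (h.μ_pb v).add (h.νt_pb _)
  · exact (PB.zero.mono (h.μ_pb v).nonneg).add (h.νt_pb _)

theorem Core_fix (h : Q.Hyp β μ νt Λ δ τ a om κ) (hs : s ∈ Icc (0 : ℝ) 1)
    {ext : V × Bool → ℂ → ℝ} (hext : Q.glue.CS ∞ ext) (u : V → ℝ) :
    ∃ Y : Inp V P, Y.u = u ∧ Q.IsFix β Y s (tot μ νt) ext ∧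
      ((∀ α z, ext α z = 0) → ∀ N : ℝ, (∀ v, |u v| ≤ N) →
        (∀ π, Q.L π * |Y.b π| ≤ 4 * N) ∧
        (∀ π (x : ℂ), ‖x‖ = Q.r π / 2 → |Y.h π x| ≤ 16 * Q.n * N) ∧
        ∀ α, ∀ w ∈ Q.W α, |Q.phi β Y α w| ≤ 16 * Q.n * N) :=
  Plumb.exists_fix h.ok h.bump (h.tot_cs.of_le zero_le) (Core_tot_pb h) h.a_nonneg h.a_ge
    h.om_nonneg h.om_ge h.small hs (hext.of_le zero_le) u

theorem Hyp.exists_ext (h : Q.Hyp β μ νt Λ δ τ a om κ) (hs : s ∈ Icc (0 : ℝ) 1)
    {ext : V × Bool → ℂ → ℝ} (hext : Q.glue.CS ∞ ext) :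
    ∃ φ t, Q.glue.GSol φ fun α z => src s (tot μ νt) β t φ α z + ext α z := by
  obtain ⟨Y, -, hY, -⟩ := Core_fix h hs hext 0
  exact ⟨_, _, hY.gsol h.ok h.bump h.tot_cs hext⟩

omit [Fintype V] in
theorem Core_far (hQ : Q.Ok) (hom0 : 0 ≤ om) (hom : ∀ π, Q.r π ≤ om * Q.sep) {Y : Inp V P}
    (hh : ∀ π, Continuous (Y.h π)) {H : ℝ} (hH0 : 0 ≤ H)
    (hH : ∀ π (x : ℂ), ‖x‖ = Q.r π / 2 → |Y.h π x| ≤ H) {S : Finset P} {w : ℂ}
    (hw : ∀ π ∈ S, Q.sep / 2 ≤ ‖w - Q.c π‖) :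
    |∑ π ∈ S, Q.term Y π w - ∑ π ∈ S, Y.b π * Real.log ‖w - Q.c π‖| ≤
      Q.n * (16 * om * H) := by
  rw [← Finset.sum_sub_distrib]
  refine abs_sum_pts_le (by positivity) fun π hπ => ?_
  rw [term, add_sub_cancel_left]
  exact farY_le hQ hom hh hH π (hw π hπ)

theorem Hyp.exists_rep (h : Q.Hyp β μ νt Λ δ τ a om κ) (hs : s ∈ Icc (0 : ℝ) 1) (u : V → ℝ)
    {N : ℝ} (hN : ∀ v, |u v| ≤ N) :
    ∃ (φ : V × Bool → ℂ → ℝ) (ρ : Q.Rep β μ s κ N u),
      Q.glue.GSol φ (src s (tot μ νt) β ρ.t φ) ∧ av β φ = u ∧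
      (∀ v, ∀ w ∈ Q.bulk v, φ (v, false) w = ρ.φ v w) ∧
      ∀ α, ∀ w ∈ Q.W α, |φ α w| ≤ 16 * Q.n * N := by
  classical
  have hQ := h.ok
  obtain ⟨Y, hu, hY, hbd⟩ := Core_fix h hs (Glue.CS.zero (G := Q.glue) (k := ∞)) u
  obtain ⟨hb, hh, hφ⟩ := hbd (fun _ _ => rfl) N hN
  have hreg : Q.Reg Y ∞ := hY.smooth hQ h.bump h.tot_cs Glue.CS.zero
  have hsm := phi_smooth hQ h.bump hreg
  obtain ⟨v0⟩ := hQ.ne
  have hN0 : 0 ≤ N := (abs_nonneg _).trans (hN v0)
  have hn : 1 ≤ Q.n := one_le_n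
  have hτ : 0 ≤ τ := (h.νt_pb (v0, false)).nonneg
  have hom := h.om_nonneg
  have hH0 : 0 ≤ 16 * Q.n * N := by positivity
  choose ξ hξ1 hξ2 hξ3 hξ4 hξ5 using fun v =>
    exists_cutoff (isCompact_bulk (Q := Q) v) (isOpen_W (v, false)) (hQ.bulk_sub_W v)
  let φ : V → ℂ → ℝ := fun v w => ξ v w * Q.phi β Y (v, false) w
  have hφb : ∀ v, ∀ w ∈ Q.bulk v, Q.phi β Y (v, false) w = φ v w := by
    intro v w hw
    simp only [φ, hξ5 v w hw, one_mul]
  have hcont : ∀ v, Continuous (φ v) := fun v =>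
    continuous_mul_of_supp (isOpen_W (v, false)) (hξ1 v).continuous (hξ3 v)
      (hsm (v, false)).continuousOn
  have hfar : ∀ v, ∀ w ∈ Q.bulk v, Q.phi β Y (v, false) w = Q.CC β Y v + Q.Phi β Y v w := by
    intro v w hw
    refine phi_far hQ h.bump hreg hY v fun π hπ => ?_
    have h1 := hw.2 π hπ
    have h2 := hQ.r_le' π
    have h3 := hQ.sep_pos
    linarith
  have hμφ : ∀ v z, μ v z * Q.phi β Y (v, false) z = μ v z * φ v z := by
    intro v z
    by_cases hz : μ v z = 0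
    · rw [hz, zero_mul, zero_mul]
    · rw [hφb v z (hQ.core_sub_bulk v (h.μ_supp v z hz))]
  have hβφ : ∀ v z, β v z * Q.phi β Y (v, false) z = β v z * φ v z := by
    intro v z
    by_cases hz : β v z = 0
    · rw [hz, zero_mul, zero_mul]
    · rw [hφb v z (hQ.core_sub_bulk v (h.bump.supp v z hz))]
  have hav : ∀ v, ∫ w, β v w * Q.phi β Y (v, false) w = u v := by
    intro v
    have e : ∀ w, β v w * Q.phi β Y (v, false) w =
        Q.CC β Y v * β v w + β v w * Q.Phi β Y v w := by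
      intro w
      by_cases hz : β v w = 0
      · rw [hz]
        ring
      · rw [hfar v w (hQ.core_sub_bulk v (h.bump.supp v w hz))]
        ring
    simp only [e]
    rw [integral_add ((h.bump.pb v).integrable.const_mul _)
      (integrable_β_Phi hQ h.bump hY.reg v), integral_const_mul, h.bump.int, CC, hu]
    ring
  have hcsν : Q.glue.CS ∞ fun α z => νt α z * Q.phi β Y α z := h.νt_cs.mul hQ.glue hsm
  have hcsμ : Q.glue.CS ∞ fun α z => fin μ α z * Q.phi β Y α z :=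
    (hQ.cs_fin h.μ_smooth h.μ_supp).mul hQ.glue hsm
  have hpb : ∀ α, PB (fun z => νt α z * Q.phi β Y α z) (16 * Q.n * N * τ) := by
    intro α
    refine (h.νt_pb α).of_le hH0 (hcsν α).1.continuous fun z => ?_
    by_cases hz : z ∈ Q.W α
    · rw [abs_mul, mul_comm]
      exact mul_le_mul_of_nonneg_right (hφ α z hz) (abs_nonneg _)
    · rw [h.νt_cs.eq_zero hz]
      simp
  have hpb' : ∀ α, PB (fun z => -s * (νt α z * Q.phi β Y α z)) (16 * Q.n * N * τ) := by
    intro α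
    refine ((hpb α).const_mul (-s)).mono ?_
    rw [abs_neg, abs_of_nonneg hs.1]
    exact mul_le_of_le_one_left (by positivity) hs.2
  have hg0 : ∀ v z, Y.g (v, false) z =
      -s * (μ v z * φ v z) + -s * (νt (v, false) z * Q.phi β Y (v, false) z) := by
    intro v z
    rw [hY.sour, ← hμφ]
    simp only [tot, fin]
    ring
  have hg1 : ∀ v z, Y.g (v, true) z = -s * (νt (v, true) z * Q.phi β Y (v, true) z) := by
    intro v z
    rw [hY.sour]
    simp only [tot, fin]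
    ring
  have hmain : ∀ v, Continuous (fun z => -s * μ v z * φ v z + Q.tt Y v * β v z) ∧
      HasCompactSupport (fun z => -s * μ v z * φ v z + Q.tt Y v * β v z) := by
    intro v
    refine ⟨((continuous_const.mul (h.μ_pb v).cont).mul (hcont v)).add
      (continuous_const.mul (h.bump.pb v).cont), HasCompactSupport.add ?_ ?_⟩
    · exact ((h.μ_pb v).const_mul (-s)).hcs.mul_right
    · exact ((h.bump.pb v).const_mul (Q.tt Y v)).hcs
  have hpot : ∀ v (w : ℂ), ‖w‖ ≤ 2 → |Q.Pot β Y (v, false) w -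
      NP (fun z => -s * μ v z * φ v z + Q.tt Y v * β v z) w| ≤ 2 * (16 * Q.n * N * τ) := by
    intro v w hw
    have e0 : Q.gs β Y (v, false) = fun z => (-s * μ v z * φ v z + Q.tt Y v * β v z) +
        -s * (νt (v, false) z * Q.phi β Y (v, false) z) := by
      funext z
      rw [gs, hg0]
      simp only [fin]
      ring
    have e1 : Q.gs β Y (v, true) = fun z => -s * (νt (v, true) z * Q.phi β Y (v, true) z) := by
      funext z
      rw [gs, hg1]
      simp only [fin]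
      ring
    have e2 : Q.Pot β Y (v, false) w = NP (Q.gs β Y (v, false)) w + NQ (Q.gs β Y (v, true)) w :=
      rfl
    rw [e2, e0, e1, NP_add (hmain v).1 (hmain v).2 (hpb' _).cont (hpb' _).hcs, add_assoc,
      add_sub_cancel_left]
    have a1 := (hpb' (v, false)).abs_NP hw
    have a2 := (hpb' (v, true)).abs_NQ hw
    exact (abs_add_le _ _).trans (by linarith)
  have hκ : 2 * (16 * Q.n * N * τ) + Q.n * (16 * om * (16 * Q.n * N)) ≤ κ * N := by
    refine le_trans ?_ (mul_le_mul_of_nonneg_right h.κ_ge hN0)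
    have a1 : 0 ≤ Q.n * N * τ := by positivity
    have a2 : 0 ≤ Q.n ^ 2 * om * N := by positivity
    have a3 : Q.n * N * τ ≤ Q.n * (Q.n * N * τ) := le_mul_of_one_le_left a1 hn
    nlinarith
  have hκ0 : 0 ≤ Q.n * (16 * om * (16 * Q.n * N)) := by positivity
  refine ⟨Q.phi β Y, ⟨Y.b, Q.RR β Y, Q.tt Y, Q.CC β Y, fun v =>
    (∫ z, νt (v, false) z * Q.phi β Y (v, false) z) + ∫ z, νt (v, true) z * Q.phi β Y (v, true) z,
    φ, hcont, fun v w => ?_, hY.tube, hb, fun v => ?_, fun v => ?_, fun v => ?_,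
    fun v w hw => ?_, fun π => ?_⟩, ?_, funext hav, hφb, hφ⟩
  · by_cases hw : w ∈ Q.W (v, false)
    · rw [abs_mul, abs_of_nonneg (hξ4 v w).1]
      exact (mul_le_of_le_one_left (abs_nonneg _) (hξ4 v w).2).trans (hφ _ w hw)
    · have e : ξ v w = 0 := image_eq_zero_of_notMem_tsupport fun h' => hw (hξ3 v h')
      simp only [φ, e, zero_mul, abs_zero]
      exact hH0
  · simp only [← hβφ]
    exact hav v
  · have i1 : Integrable fun z => μ v z * φ v z := by
      simp only [← hμφ]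
      exact hcsμ.integrable (v, false)
    rw [tt]
    simp only [hg0, hg1]
    rw [integral_add (i1.const_mul _) (hpb' _).integrable, integral_const_mul, integral_const_mul,
      integral_const_mul]
    ring
  · have a1 := (hpb (v, false)).abs_int
    have a2 := (hpb (v, true)).abs_int
    exact (abs_add_le _ _).trans (by linarith)
  · have a1 := hpot v w (hw.1.trans (by norm_num))
    have a2 := Core_far hQ hom h.om_ge hreg.1 hH0 hh (S := Q.pts v) (w := w)
      fun π hπ => hw.2 π (mem_pts.mp hπ)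
    rw [← hφb v w hw, hfar v w hw, Phi]
    rw [abs_le] at a1 a2 ⊢
    constructor <;> linarith [a1.1, a1.2, a2.1, a2.2]
  · have a1 := hpot (Q.pc π) (Q.c π) ((hQ.c_le π).trans (by norm_num))
    have a2 := Core_far hQ hom h.om_ge hreg.1 hH0 hh (S := (Q.pts (Q.pc π)).erase π)
      (w := Q.c π) fun π' hπ' => by
        have b1 := hQ.c_sep π π' (Finset.ne_of_mem_erase hπ').symm
          (mem_pts.mp (Finset.mem_of_mem_erase hπ')).symm
        have b2 := hQ.sep_pos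
        linarith
    have e : Q.RR β Y π = Q.CC β Y (Q.pc π) + (Q.Pot β Y (Q.pc π, false) (Q.c π) +
        ∑ π' ∈ (Q.pts (Q.pc π)).erase π, Q.term Y π' (Q.c π)) := by
      rw [RR, R0, add_zero]
    rw [e, ← Finset.add_sum_erase _ _ (mem_pts.mpr rfl : π ∈ Q.pts (Q.pc π)), sub_self,
      norm_zero, Real.log_zero, mul_zero, zero_add]
    rw [abs_le] at a1 a2 ⊢
    constructor <;> linarith [a1.1, a1.2, a2.1, a2.2]
  · have g := hY.gsol hQ h.bump h.tot_cs Glue.CS.zero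
    simp only [add_zero] at g
    exact g

end Plumb

end Pool.Agent.MP_4f0ed6_gt
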