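import Pool.Agent.MP_4f0ed6_gt.Calc

open Set Laplacian Filter Topology MeasureTheory Metric InnerProductSpace
open scoped ContDiff

namespace Pool.Agent.MP_4f0ed6_gt

theorem dual_hcs {b g : ℂ → ℝ} (hb : HasCompactSupport b) : HasCompactSupport (fun u => b u * g u) :=
  hb.mul_right

theorem dual_exists {ι : Type} [Fintype ι] [DecidableEq ι] {F : ι → ℂ → ℝ} {c : ℂ} {r : ℝ}
    (hr : 0 < r) (hF : ∀ i, ContDiffOn ℝ ∞ (F i) (ball c (2 * r)))
    (hi : ∀ a : ι → ℝ, (∀ u ∈ ball c r, ∑ i, a i * F i u = 0) → a = 0) :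
    ∃ (b : ℂ → ℝ) (ψ : ι → ℂ → ℝ) (B : ℝ), ContDiff ℝ ∞ b ∧ (∀ u, 0 ≤ b u ∧ b u ≤ 1) ∧
      (∀ u, b u ≠ 0 → u ∈ ball c r) ∧ 0 < ∫ u, b u ∧ (∀ i, ContDiff ℝ ∞ (ψ i)) ∧
      (∀ i u, |ψ i u| ≤ B * b u) ∧ ∀ i j, ∫ u, F i u * ψ j u = if i = j then 1 else 0 := by
  let β : ContDiffBump c := ⟨r / 2, r, by positivity, by linarith⟩
  have hβs : ContDiff ℝ ∞ (β : ℂ → ℝ) := β.contDiff
  have hts : tsupport (β : ℂ → ℝ) ⊆ ball c (2 * r) := by
    rw [β.tsupport_eq]
    exact closedBall_subset_ball (by show r < 2 * r; linarith)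
  have hcs : HasCompactSupport (β : ℂ → ℝ) := β.hasCompactSupport
  have hsupp : ∀ u, β u ≠ 0 → u ∈ ball c r := by
    intro u hu
    have : u ∈ Function.support (β : ℂ → ℝ) := hu
    rw [β.support_eq] at this
    exact this
  have hpos : ∀ u ∈ ball c r, 0 < β u := fun u hu => β.pos_of_mem_ball hu
  -- continuity of products
  have hcont : ∀ g : ℂ → ℝ, ContinuousOn g (ball c (2 * r)) → Continuous (fun u => β u * g u) :=
    fun g hg => continuous_mul_of_supp isOpen_ball hβs.continuous hts hg
  have hint : ∀ g : ℂ → ℝ, ContinuousOn g (ball c (2 * r)) → Integrable (fun u => β u * g u) :=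
    fun g hg => (hcont g hg).integrable_of_hasCompactSupport (dual_hcs hcs)
  have hFc : ∀ i, ContinuousOn (F i) (ball c (2 * r)) := fun i => (hF i).continuousOn
  let G : Matrix ι ι ℝ := fun i j => ∫ u, β u * (F i u * F j u)
  have hlin : ∀ (i : ι) (a : ι → ℝ),
      ∫ u, β u * (F i u * ∑ k, a k * F k u) = ∑ k, G i k * a k := by
    intro i a
    have h1 : (fun u => β u * (F i u * ∑ k, a k * F k u)) =
        fun u => ∑ k, (β u * (F i u * F k u)) * a k := by
      funext u
      rw [Finset.mul_sum, Finset.mul_sum]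
      exact Finset.sum_congr rfl fun k _ => by ring
    rw [h1, integral_finsetSum]
    · exact Finset.sum_congr rfl fun k _ => by rw [integral_mul_const]
    · intro k _
      exact (hint _ ((hFc i).mul (hFc k))).mul_const _
  have hsc : ∀ a : ι → ℝ, ContinuousOn (fun u => ∑ k, a k * F k u) (ball c (2 * r)) :=
    fun a => continuousOn_finsetSum _ fun k _ => continuousOn_const.mul (hFc k)
  have hinj : Function.Injective G.mulVec := by
    have key : ∀ a : ι → ℝ, G.mulVec a = 0 → a = 0 := by
      intro a ha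
      apply hi a
      have h0 : ∫ u, β u * ((∑ k, a k * F k u) * ∑ k, a k * F k u) = 0 := by
        have h1 : (fun u => β u * ((∑ k, a k * F k u) * ∑ k, a k * F k u)) =
            fun u => ∑ i, a i * (β u * (F i u * ∑ k, a k * F k u)) := by
          funext u
          rw [Finset.sum_mul, Finset.mul_sum]
          exact Finset.sum_congr rfl fun i _ => by ring
        rw [h1, integral_finsetSum]
        · refine Finset.sum_eq_zero fun i _ => ?_
          rw [integral_const_mul, hlin i a]
          have : ∑ k, G i k * a k = G.mulVec a i := rfl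
          rw [this, ha]
          simp
        · intro i _
          exact (hint _ ((hFc i).mul (hsc a))).const_mul _
      have hc := hcont _ ((hsc a).mul (hsc a))
      have hnn : 0 ≤ fun u => β u * ((∑ k, a k * F k u) * ∑ k, a k * F k u) :=
        fun u => mul_nonneg β.nonneg (mul_self_nonneg _)
      have hae := (integral_eq_zero_iff_of_nonneg hnn (hint _ ((hsc a).mul (hsc a)))).1 h0
      have heq := (hc.ae_eq_iff_eq volume continuous_zero).1 hae
      intro u hu
      have h2 : β u * ((∑ k, a k * F k u) * ∑ k, a k * F k u) = 0 := congrFun heq u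
      rcases mul_eq_zero.1 h2 with h | h
      · exact absurd h (hpos u hu).ne'
      · exact mul_self_eq_zero.1 h
    intro a a' h
    have : G.mulVec (a - a') = 0 := by rw [Matrix.mulVec_sub, h, sub_self]
    exact sub_eq_zero.1 (key _ this)
  have hU : IsUnit G := Matrix.mulVec_injective_iff_isUnit.1 hinj
  have hGG : G * G⁻¹ = 1 := Matrix.mul_nonsing_inv G ((Matrix.isUnit_iff_isUnit_det G).1 hU)
  have hbd : ∀ j : ι, ∃ C : ℝ, ∀ u ∈ closedBall c r, ‖∑ k, G⁻¹ k j * F k u‖ ≤ C := by
    intro j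
    exact (isCompact_closedBall c r).exists_bound_of_continuousOn
      ((hsc fun k => G⁻¹ k j).mono (closedBall_subset_ball (by linarith)))
  choose C hC using hbd
  refine ⟨β, fun j u => β u * ∑ k, G⁻¹ k j * F k u, ∑ j, |C j|, hβs,
    fun u => ⟨β.nonneg, β.le_one⟩, hsupp, β.integral_pos, ?_, ?_, ?_⟩
  · intro j
    exact contDiff_mul_of_supp isOpen_ball hβs hts
      (ContDiffOn.sum fun k _ => contDiffOn_const.mul (hF k))
  · intro j u
    by_cases hu : β u = 0
    · simp [hu]
    · have h1 := hC j u (ball_subset_closedBall (hsupp u hu))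
      have h2 : |C j| ≤ ∑ j, |C j| :=
        Finset.single_le_sum (f := fun j => |C j|) (fun j _ => abs_nonneg _) (Finset.mem_univ j)
      rw [abs_mul, abs_of_nonneg β.nonneg, mul_comm]
      refine mul_le_mul_of_nonneg_right ?_ β.nonneg
      rw [Real.norm_eq_abs] at h1
      exact h1.trans ((le_abs_self _).trans h2)
  · intro i j
    have h1 : (fun u => F i u * (β u * ∑ k, G⁻¹ k j * F k u)) =
        fun u => β u * (F i u * ∑ k, G⁻¹ k j * F k u) := by
      funext u
      ring
    rw [h1, hlin i fun k => G⁻¹ k j]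
    have h2 : ∑ k, G i k * G⁻¹ k j = (G * G⁻¹) i j := (Matrix.mul_apply).symm
    rw [h2, hGG, Matrix.one_apply]

end Pool.Agent.MP_4f0ed6_gt
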