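import Pool.Agent.MP_4f0ed6_gt.Pol1

open Set Laplacian Filter Topology MeasureTheory Metric InnerProductSpace
open scoped ContDiff

namespace Pool.Agent.MP_4f0ed6_gt

theorem Pol_re {a b : ℝ} {u : ℂ} :
    ((2 * ((2 * a / (u ^ 2 - a ^ 2)) *
      (starRingEnd ℂ) (2 * b * Complex.I / (u ^ 2 + b ^ 2))).re : ℝ) : ℂ) =
      -4 * Complex.I * (a * b * ((u ^ 2 - a ^ 2)⁻¹ * ((starRingEnd ℂ) u ^ 2 + b ^ 2)⁻¹ -
        ((starRingEnd ℂ) u ^ 2 - a ^ 2)⁻¹ * (u ^ 2 + b ^ 2)⁻¹)) := by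
  rw [← Complex.add_conj]
  simp only [map_mul, map_neg, map_add, map_sub, map_pow, Complex.conj_ofReal, Complex.conj_I,
    Complex.conj_conj, map_ofNat, div_eq_mul_inv, map_inv₀]
  ring

theorem Pol_ne {u : ℂ} (hre : u.re ≠ 0) (him : u.im ≠ 0) (a : ℝ) :
    u ^ 2 - a ^ 2 ≠ 0 ∧ u ^ 2 + a ^ 2 ≠ 0 := by
  constructor <;> intro h <;> have := congrArg Complex.im h <;>
    simp [pow_two] at this <;> exact mul_ne_zero hre him (by linarith)

theorem Pol_ball {u : ℂ} (hu : u ∈ ball (1 + Complex.I) (1 / 4)) : u.re ≠ 0 ∧ u.im ≠ 0 := by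
  rw [mem_ball, dist_eq_norm] at hu
  have h1 := Complex.abs_re_le_norm (u - (1 + Complex.I))
  have h2 := Complex.abs_im_le_norm (u - (1 + Complex.I))
  simp only [Complex.sub_re, Complex.add_re, Complex.one_re, Complex.I_re, Complex.sub_im,
    Complex.add_im, Complex.one_im, Complex.I_im] at h1 h2
  constructor <;> intro h
  · rw [h] at h1; norm_num at h1; linarith
  · rw [h] at h2; norm_num at h2; linarith

theorem prod_indep {D : Type} [Fintype D] {x : D → ℝ} (hx : Function.Injective x)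
    (hpos : ∀ d, 0 < x d) (c : D × D → ℝ)
    (h : ∀ u ∈ ball (1 + Complex.I) (1 / 4),
      ∑ i : D × D, c i * (kk (x i.1) u * kk u (x i.2 * Complex.I)) = 0) : c = 0 := by
  classical
  have hsum : ∀ u ∈ ball (1 + Complex.I) (1 / 4), ∑ i : D × D, (c i : ℂ) * (x i.1 * x i.2 *
      ((u ^ 2 - (x i.1 : ℂ) ^ 2)⁻¹ * ((starRingEnd ℂ) u ^ 2 + (x i.2 : ℂ) ^ 2)⁻¹ -
        ((starRingEnd ℂ) u ^ 2 - (x i.1 : ℂ) ^ 2)⁻¹ * (u ^ 2 + (x i.2 : ℂ) ^ 2)⁻¹)) = 0 := by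
    intro u hu
    obtain ⟨hre, him⟩ := Pol_ball hu
    have hc2 : ∀ i : D × D,
        ContDiffAt ℝ 2 (fun u => kk (x i.1 : ℂ) u * kk u (x i.2 * Complex.I)) u :=
      fun i => (lap_kk_mul hre him).1.of_le (by norm_cast)
    have e0 : (fun u => ∑ i : D × D, c i * (kk (x i.1) u * kk u (x i.2 * Complex.I))) =ᶠ[𝓝 u]
        fun _ => (0 : ℝ) := by
      filter_upwards [isOpen_ball.mem_nhds hu] with v hv using h v hv
    have e1 := lap_congr e0
    rw [lap_const, lap_sum _ (fun (i : D × D) u => c i * (kk (x i.1) u * kk u (x i.2 * Complex.I)))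
      fun i _ => contDiffAt_const.mul (hc2 i)] at e1
    have e2 : ((∑ i : D × D, Δ (fun u => c i * (kk (x i.1) u * kk u (x i.2 * Complex.I))) u : ℝ)
        : ℂ) = 0 := by rw [e1]; simp
    rw [Complex.ofReal_sum] at e2
    have e3 : -4 * Complex.I ≠ 0 := mul_ne_zero (by norm_num) Complex.I_ne_zero
    refine mul_left_cancel₀ e3 ?_
    rw [mul_zero, Finset.mul_sum, ← e2]
    refine Finset.sum_congr rfl fun i _ => ?_
    rw [lap_const_mul _ (hc2 i), (lap_kk_mul hre him).2, Complex.ofReal_mul,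
      Pol_re]
    ring
  let A : Finset D → Fin 2 → MvPolynomial (Fin 2) ℂ := fun s j =>
    ∏ d ∈ s, (MvPolynomial.X j ^ 2 - MvPolynomial.C ((x d : ℂ) ^ 2))
  let B : Finset D → Fin 2 → MvPolynomial (Fin 2) ℂ := fun s j =>
    ∏ d ∈ s, (MvPolynomial.X j ^ 2 + MvPolynomial.C ((x d : ℂ) ^ 2))
  let p : MvPolynomial (Fin 2) ℂ := ∑ i : D × D, MvPolynomial.C ((c i : ℂ) * (x i.1 * x i.2)) *
    (A (Finset.univ.erase i.1) 0 * B Finset.univ 0 * A Finset.univ 1 * B (Finset.univ.erase i.2) 1 -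
      A Finset.univ 0 * B (Finset.univ.erase i.2) 0 * A (Finset.univ.erase i.1) 1 * B Finset.univ 1)
  have hev : ∀ u w : ℂ, MvPolynomial.eval ![u, w] p = ∑ i : D × D, (c i : ℂ) * (x i.1 * x i.2) *
      ((∏ d ∈ Finset.univ.erase i.1, (u ^ 2 - (x d : ℂ) ^ 2)) * (∏ d, (u ^ 2 + (x d : ℂ) ^ 2)) *
        (∏ d, (w ^ 2 - (x d : ℂ) ^ 2)) * (∏ d ∈ Finset.univ.erase i.2, (w ^ 2 + (x d : ℂ) ^ 2)) -
      (∏ d, (u ^ 2 - (x d : ℂ) ^ 2)) * (∏ d ∈ Finset.univ.erase i.2, (u ^ 2 + (x d : ℂ) ^ 2)) *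
        (∏ d ∈ Finset.univ.erase i.1, (w ^ 2 - (x d : ℂ) ^ 2)) *
        ∏ d, (w ^ 2 + (x d : ℂ) ^ 2)) := by
    intro u w
    simp only [p, A, B, map_sum, map_mul, map_sub, map_add, map_prod, map_pow, MvPolynomial.eval_X,
      MvPolynomial.eval_C, Matrix.cons_val_zero, Matrix.cons_val_one]
  have her : ∀ (f : D → ℂ) (a : D), f a ≠ 0 →
      ∏ d ∈ Finset.univ.erase a, f d = (∏ d, f d) * (f a)⁻¹ := by
    intro f a ha
    rw [← Finset.mul_prod_erase _ f (Finset.mem_univ a)]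
    field_simp
  have hp := polarize p (c := 1 + Complex.I) (r := 1 / 4) (by norm_num) fun u hu => by
    obtain ⟨hre, him⟩ := Pol_ball hu
    have hre' : ((starRingEnd ℂ) u).re ≠ 0 := by simpa using hre
    have him' : ((starRingEnd ℂ) u).im ≠ 0 := by simpa using him
    rw [hev, ← mul_zero ((∏ d, (u ^ 2 - (x d : ℂ) ^ 2)) * (∏ d, (u ^ 2 + (x d : ℂ) ^ 2)) *
      (∏ d, ((starRingEnd ℂ) u ^ 2 - (x d : ℂ) ^ 2)) *
      ∏ d, ((starRingEnd ℂ) u ^ 2 + (x d : ℂ) ^ 2)), ← hsum u hu, Finset.mul_sum]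
    refine Finset.sum_congr rfl fun i _ => ?_
    rw [her (fun d => u ^ 2 - (x d : ℂ) ^ 2) _ (Pol_ne hre him _).1,
      her (fun d => u ^ 2 + (x d : ℂ) ^ 2) _ (Pol_ne hre him _).2,
      her (fun d => (starRingEnd ℂ) u ^ 2 - (x d : ℂ) ^ 2) _ (Pol_ne hre' him' _).1,
      her (fun d => (starRingEnd ℂ) u ^ 2 + (x d : ℂ) ^ 2) _ (Pol_ne hre' him' _).2]
    ring
  funext ⟨a, b⟩
  have key := hp (x a) (x b * Complex.I)
  have hI : ((x b : ℂ) * Complex.I) ^ 2 = -(x b : ℂ) ^ 2 := by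
    rw [mul_pow, Complex.I_sq]; ring
  have z1 : ∏ d, ((x a : ℂ) ^ 2 - (x d : ℂ) ^ 2) = 0 :=
    Finset.prod_eq_zero (Finset.mem_univ a) (sub_self _)
  have hsq : ∀ d e, d ≠ e → (x d : ℂ) ^ 2 - (x e : ℂ) ^ 2 ≠ 0 := by
    intro d e hde h0
    have h1 : x d ^ 2 - x e ^ 2 = 0 := by exact_mod_cast h0
    have h2 : (x d - x e) * (x d + x e) = 0 := by linarith
    rcases mul_eq_zero.mp h2 with h3 | h3
    · exact hde (hx (by linarith))
    · linarith [hpos d, hpos e]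
  have hsq' : ∀ d e, (x d : ℂ) ^ 2 + (x e : ℂ) ^ 2 ≠ 0 := by
    intro d e h0
    have h1 : x d ^ 2 + x e ^ 2 = 0 := by exact_mod_cast h0
    nlinarith [hpos d, hpos e]
  rw [hev, hI, z1, Finset.sum_eq_single (a, b)] at key
  · simp only [zero_mul, sub_zero] at key
    have n1 : (x a : ℂ) * x b ≠ 0 :=
      mul_ne_zero (by exact_mod_cast (hpos a).ne') (by exact_mod_cast (hpos b).ne')
    have n2 : ∏ d ∈ Finset.univ.erase a, ((x a : ℂ) ^ 2 - (x d : ℂ) ^ 2) ≠ 0 :=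
      Finset.prod_ne_zero_iff.mpr fun d hd => hsq _ _ (Finset.ne_of_mem_erase hd).symm
    have n3 : ∏ d, ((x a : ℂ) ^ 2 + (x d : ℂ) ^ 2) ≠ 0 :=
      Finset.prod_ne_zero_iff.mpr fun d _ => hsq' _ _
    have n4 : ∏ d, (-(x b : ℂ) ^ 2 - (x d : ℂ) ^ 2) ≠ 0 :=
      Finset.prod_ne_zero_iff.mpr fun d _ h0 => hsq' b d (by linear_combination -h0)
    have n5 : ∏ d ∈ Finset.univ.erase b, (-(x b : ℂ) ^ 2 + (x d : ℂ) ^ 2) ≠ 0 :=
      Finset.prod_ne_zero_iff.mpr fun d hd h0 =>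
        hsq _ _ (Finset.ne_of_mem_erase hd) (by linear_combination h0)
    have := (mul_eq_zero.mp key).resolve_right
      (mul_ne_zero (mul_ne_zero (mul_ne_zero n2 n3) n4) n5)
    exact_mod_cast (mul_eq_zero.mp this).resolve_right n1
  · rintro ⟨a', b'⟩ - hne
    by_cases ha : a' = a
    · have hb : b ≠ b' := fun e => hne (by rw [ha, e])
      rw [Finset.prod_eq_zero (s := Finset.univ.erase b')
        (f := fun d => -(x b : ℂ) ^ 2 + (x d : ℂ) ^ 2) (i := b) (by simp [hb]) (by ring)]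
      ring
    · rw [Finset.prod_eq_zero (s := Finset.univ.erase a')
        (f := fun d => (x a : ℂ) ^ 2 - (x d : ℂ) ^ 2) (i := a) (by simp [Ne.symm ha]) (by ring)]
      ring
  · intro hn
    exact absurd (Finset.mem_univ _) hn

end Pool.Agent.MP_4f0ed6_gt
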