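import Pool.Agent.MP_4f0ed6_gt.SDefs
import Pool.Agent.MP_4f0ed6_gt.Pol
import Pool.Agent.MP_4f0ed6_gt.Dual

open Set Laplacian Filter Topology MeasureTheory Metric InnerProductSpace
open scoped ContDiff

namespace Pool.Agent.MP_4f0ed6_gt

/-- the test functions -/
noncomputable def CtlF (a b : ℝ) (u : ℂ) : ℝ := kk (a : ℂ) u * kk u (b * Complex.I)

theorem CtlF_neg (a b : ℝ) (u : ℂ) : CtlF a b (-u) = CtlF a b u := by
  unfold CtlF
  rw [kk_neg, kk_comm (-u), kk_neg, kk_comm ((b : ℂ) * Complex.I) u]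
  ring

theorem CtlF_conj (a b : ℝ) (u : ℂ) : CtlF a b ((starRingEnd ℂ) u) = -CtlF a b u := by
  unfold CtlF kk
  have h1 : ‖(a : ℂ) - (starRingEnd ℂ) u‖ = ‖(a : ℂ) - u‖ := by
    rw [← Complex.norm_conj ((a : ℂ) - u)]; simp
  have h2 : ‖(a : ℂ) + (starRingEnd ℂ) u‖ = ‖(a : ℂ) + u‖ := by
    rw [← Complex.norm_conj ((a : ℂ) + u)]; simp
  have h3 : ‖(starRingEnd ℂ) u - (b : ℂ) * Complex.I‖ = ‖u + (b : ℂ) * Complex.I‖ := by
    rw [← Complex.norm_conj (u + (b : ℂ) * Complex.I)]; simp [sub_eq_add_neg]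
  have h4 : ‖(starRingEnd ℂ) u + (b : ℂ) * Complex.I‖ = ‖u - (b : ℂ) * Complex.I‖ := by
    rw [← Complex.norm_conj (u - (b : ℂ) * Complex.I)]; simp
  rw [h1, h2, h3, h4]
  ring

theorem Ctl_ball {u : ℂ} {r : ℝ} (hu : u ∈ ball (1 + Complex.I) r) :
    |u.re - 1| < r ∧ |u.im - 1| < r := by
  rw [mem_ball, dist_eq_norm] at hu
  have h1 := Complex.abs_re_le_norm (u - (1 + Complex.I))
  have h2 := Complex.abs_im_le_norm (u - (1 + Complex.I))
  simp only [Complex.sub_re, Complex.add_re, Complex.one_re, Complex.I_re, add_zero,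
    Complex.sub_im, Complex.add_im, Complex.one_im, Complex.I_im, zero_add] at h1 h2
  exact ⟨h1.trans_lt hu, h2.trans_lt hu⟩

theorem Ctl_smoothOn (a b : ℝ) :
    ContDiffOn ℝ ∞ (CtlF a b) (ball (1 + Complex.I) (2 * (1 / 4))) := by
  intro u hu
  obtain ⟨h1, h2⟩ := Ctl_ball hu
  rw [abs_lt] at h1 h2
  exact ((lap_kk_mul (a := a) (b := b) (u := u) (by linarith [h1.1])
    (by linarith [h2.1])).1).contDiffWithinAt

/-- the shape of the support -/
def CtlS (u : ℂ) : Prop := 3 / 4 ≤ |u.re| ∧ 3 / 4 ≤ |u.im| ∧ 1 ≤ ‖u‖ ∧ ‖u‖ ≤ 2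

theorem CtlS_ball {u : ℂ} (hu : u ∈ ball (1 + Complex.I) (1 / 4)) : CtlS u := by
  obtain ⟨h1, h2⟩ := Ctl_ball hu
  rw [abs_lt] at h1 h2
  have hn : ‖u‖ ^ 2 = u.re ^ 2 + u.im ^ 2 := by
    rw [Complex.sq_norm, Complex.normSq_apply]; ring
  have h0 := norm_nonneg u
  refine ⟨?_, ?_, ?_, ?_⟩
  · exact le_trans (by linarith [h1.1]) (le_abs_self _)
  · exact le_trans (by linarith [h2.1]) (le_abs_self _)
  · nlinarith [h1.1, h2.1]
  · nlinarith [h1.1, h2.1, h1.2, h2.2]

theorem CtlS_neg {u : ℂ} (h : CtlS (-u)) : CtlS u := by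
  simpa [CtlS] using h

theorem CtlS_conj {u : ℂ} (h : CtlS ((starRingEnd ℂ) u)) : CtlS u := by
  simpa [CtlS] using h

theorem Ctl_int {g : ℂ → ℝ} (hg : Continuous g)
    (hs : ∀ u, g u ≠ 0 → u ∈ ball (1 + Complex.I) (1 / 4)) (a b : ℝ) :
    Integrable fun u => CtlF a b u * g u := by
  have hts : tsupport g ⊆ closedBall (1 + Complex.I) (1 / 4) :=
    closure_minimal (fun u hu => ball_subset_closedBall (hs u hu)) isClosed_closedBall
  have hc : Continuous fun u => g u * CtlF a b u :=
    continuous_mul_of_supp isOpen_ball hg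
      (hts.trans (closedBall_subset_ball (by norm_num))) (Ctl_smoothOn a b).continuousOn
  have hK : HasCompactSupport fun u => g u * CtlF a b u := by
    refine HasCompactSupport.intro (isCompact_closedBall (1 + Complex.I) (1 / 4)) ?_
    intro u hu
    have : g u = 0 := by
      by_contra h
      exact hu (ball_subset_closedBall (hs u h))
    simp [this]
  simpa [mul_comm] using hc.integrable_of_hasCompactSupport hK

theorem Ctl_conj_mp : MeasurePreserving (fun u : ℂ => (starRingEnd ℂ) u) :=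
  Complex.conjLIE.measurePreserving

theorem Ctl_conj_me : MeasurableEmbedding (fun u : ℂ => (starRingEnd ℂ) u) :=
  Complex.conjLIE.toHomeomorph.measurableEmbedding

theorem Ctl_neg_int {g : ℂ → ℝ} {a b : ℝ} (h : Integrable fun u => CtlF a b u * g u) :
    (Integrable fun u => CtlF a b u * g (-u)) ∧
      ∫ u, CtlF a b u * g (-u) = ∫ u, CtlF a b u * g u := by
  have e : (fun u => CtlF a b u * g (-u)) = fun u => (fun u => CtlF a b u * g u) (-u) := by
    funext u; simp only [CtlF_neg]
  rw [e]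
  exact ⟨h.comp_neg, integral_neg_eq_self (fun u => CtlF a b u * g u) _⟩

theorem Ctl_conj_int {g : ℂ → ℝ} {a b : ℝ} (h : Integrable fun u => CtlF a b u * g u) :
    (Integrable fun u => CtlF a b u * g ((starRingEnd ℂ) u)) ∧
      ∫ u, CtlF a b u * g ((starRingEnd ℂ) u) = -∫ u, CtlF a b u * g u := by
  have e : (fun u => CtlF a b u * g ((starRingEnd ℂ) u)) =
      fun u => -(fun u => CtlF a b u * g u) ((starRingEnd ℂ) u) := by
    funext u; simp only [CtlF_conj]; ring
  rw [e]
  refine ⟨(Ctl_conj_mp.integrable_comp_of_integrable h).neg, ?_⟩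
  rw [integral_neg, Ctl_conj_mp.integral_comp Ctl_conj_me (fun u => CtlF a b u * g u)]

theorem ctl_exists {D : Type} [Fintype D] {x : D → ℝ} (hx : Function.Injective x)
    (hpos : ∀ d, 0 < x d) : ∃ nu A, CtlOk x nu A := by
  classical
  obtain ⟨b, ψ, B, hb, hb01, hbs, hbi, hψ, hψb, hd⟩ :=
    dual_exists (ι := D × D) (F := fun i => CtlF (x i.1) (x i.2)) (c := 1 + Complex.I)
      (r := 1 / 4) (by norm_num) (fun i => Ctl_smoothOn _ _)
      (fun a ha => prod_indep hx hpos a ha)
  set n : ℝ := (Fintype.card (D × D) : ℝ) with hn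
  have hn0 : 0 ≤ n := by positivity
  have hB0 := abs_nonneg B
  have hψb' : ∀ i u, |ψ i u| ≤ |B| * b u := fun i u =>
    (hψb i u).trans (mul_le_mul_of_nonneg_right (le_abs_self B) (hb01 u).1)
  have hψs : ∀ i u, ψ i u ≠ 0 → b u ≠ 0 := by
    intro i u h h0
    have := hψb' i u
    rw [h0, mul_zero] at this
    exact h (abs_nonpos_iff.mp this)
  set c0 : ℝ := n * |B| + (∫ u, b u)⁻¹ with hc0
  have hinv : 0 < (∫ u, b u)⁻¹ := inv_pos.mpr hbi
  have hnB : 0 ≤ n * |B| := mul_nonneg hn0 hB0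
  have hc00 : 0 ≤ c0 := by positivity
  have hsum : ∀ (q : D × D → ℝ) (t : ℝ), (∀ i, |q i| ≤ t) → ∀ u,
      |∑ i, q i * (ψ i u + ψ i (-u))| ≤ t * (n * |B| * (b u + b (-u))) := by
    intro q t hq u
    refine (Finset.abs_sum_le_sum_abs _ _).trans ?_
    have : ∀ i ∈ (Finset.univ : Finset (D × D)), |q i * (ψ i u + ψ i (-u))| ≤
        t * (|B| * (b u + b (-u))) := by
      intro i _
      rw [abs_mul]
      refine mul_le_mul (hq i) ?_ (abs_nonneg _) ((abs_nonneg _).trans (hq i))
      refine (abs_add_le _ _).trans ?_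
      have h1 := hψb' i u
      have h2 := hψb' i (-u)
      linarith
    refine (Finset.sum_le_card_nsmul _ _ _ this).trans ?_
    rw [Finset.card_univ, nsmul_eq_mul, ← hn]
    exact le_of_eq (by ring)
  let nu : (D × D → ℝ) → ℂ → ℝ := fun p u =>
    c0 * (b u + b (-u) + b ((starRingEnd ℂ) u) + b (-(starRingEnd ℂ) u)) +
      ∑ i, p i * (ψ i u + ψ i (-u))
  have hcj : ContDiff ℝ ∞ (fun u : ℂ => (starRingEnd ℂ) u) := Complex.conjCLE.contDiff
  have hsm : ∀ p, ContDiff ℝ ∞ (nu p) := by
    intro p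
    refine ContDiff.add (contDiff_const.mul (((hb.add (hb.comp contDiff_neg)).add
      (hb.comp hcj)).add (hb.comp hcj.neg))) ?_
    exact ContDiff.sum fun i _ => contDiff_const.mul ((hψ i).add ((hψ i).comp contDiff_neg))
  have hsupp : ∀ p u, nu p u ≠ 0 → CtlS u := by
    intro p u h
    by_contra hS
    have h1 : b u = 0 := by
      by_contra h'; exact hS (CtlS_ball (hbs _ h'))
    have h2 : b (-u) = 0 := by
      by_contra h'; exact hS (CtlS_neg (CtlS_ball (hbs _ h')))
    have h3 : b ((starRingEnd ℂ) u) = 0 := by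
      by_contra h'; exact hS (CtlS_conj (CtlS_ball (hbs _ h')))
    have h4 : b (-(starRingEnd ℂ) u) = 0 := by
      by_contra h'; exact hS (CtlS_conj (CtlS_neg (CtlS_ball (hbs _ h'))))
    have h5 : ∀ i, ψ i u = 0 := fun i => by
      by_contra h'; exact hψs i _ h' h1
    have h6 : ∀ i, ψ i (-u) = 0 := fun i => by
      by_contra h'; exact hψs i _ h' h2
    apply h
    simp [nu, h1, h2, h3, h4, h5, h6]
  have hlow : ∀ p ∈ cube D, ∀ u, (∫ u, b u)⁻¹ * b u ≤ nu p u := by
    intro p hp u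
    have h := (abs_le.mp (hsum p 1 hp u)).1
    have h1 := (hb01 u).1
    have h2 := (hb01 (-u)).1
    have h3 := (hb01 ((starRingEnd ℂ) u)).1
    have h4 := (hb01 (-(starRingEnd ℂ) u)).1
    have h5 := mul_nonneg hc00 h3
    have h6 := mul_nonneg hc00 h4
    have h7 := mul_nonneg hinv.le h2
    simp only [nu]
    rw [hc0] at h5 h6 ⊢
    nlinarith
  refine ⟨nu, 1 + 4 * c0 + 2 * (n * |B|), ⟨by linarith, hsm, ?_, hsupp, ?_, ?_, ?_, ?_, ?_⟩⟩
  · intro p u
    simp only [nu, neg_neg, map_neg]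
    congr 1
    · ring
    · exact Finset.sum_congr rfl fun i _ => by ring
  · intro p hp u
    exact (mul_nonneg hinv.le (hb01 u).1).trans (hlow p hp u)
  · intro p hp u
    have h := (abs_le.mp (hsum p 1 hp u)).2
    have h1 := (hb01 u).2
    have h2 := (hb01 (-u)).2
    have h3 := (hb01 ((starRingEnd ℂ) u)).2
    have h4 := (hb01 (-(starRingEnd ℂ) u)).2
    have h5 : c0 * (b u + b (-u) + b ((starRingEnd ℂ) u) + b (-(starRingEnd ℂ) u)) ≤ c0 * 4 :=
      mul_le_mul_of_nonneg_left (by linarith) hc00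
    have h6 : n * |B| * (b u + b (-u)) ≤ n * |B| * 2 :=
      mul_le_mul_of_nonneg_left (by linarith) hnB
    simp only [nu]
    linarith
  · intro p hp
    have hK : HasCompactSupport (nu p) := by
      refine HasCompactSupport.intro (isCompact_closedBall (0 : ℂ) 2) ?_
      intro u hu
      by_contra h
      exact hu (by simpa using (hsupp p u h).2.2.2)
    have hbK : HasCompactSupport b := by
      refine HasCompactSupport.intro (isCompact_closedBall (1 + Complex.I) (1 / 4)) ?_
      intro u hu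
      by_contra h
      exact hu (ball_subset_closedBall (hbs u h))
    have h := integral_mono (μ := volume) ((hb.continuous.integrable_of_hasCompactSupport hbK).const_mul
      (∫ u, b u)⁻¹) ((hsm p).continuous.integrable_of_hasCompactSupport hK) (hlow p hp)
    rw [integral_const_mul, inv_mul_cancel₀ hbi.ne'] at h
    exact h
  · intro p p' u
    have h := hsum (p - p') ‖p - p'‖ (fun i => by
      simpa [Real.norm_eq_abs] using norm_le_pi_norm (p - p') i) u
    have e : nu p u - nu p' u = ∑ i, (p - p') i * (ψ i u + ψ i (-u)) := by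
      simp only [nu, Pi.sub_apply, sub_mul, Finset.sum_sub_distrib]
      ring
    rw [e]
    refine h.trans ?_
    rw [mul_comm]
    refine mul_le_mul_of_nonneg_right ?_ (norm_nonneg _)
    have h6 : n * |B| * (b u + b (-u)) ≤ n * |B| * 2 :=
      mul_le_mul_of_nonneg_left (by linarith [(hb01 u).2, (hb01 (-u)).2]) hnB
    linarith
  · intro p a c
    have i1 := Ctl_int hb.continuous hbs (x a) (x c)
    obtain ⟨i2, e2⟩ := Ctl_neg_int i1
    obtain ⟨i3, e3⟩ := Ctl_conj_int i1
    obtain ⟨i4, e4⟩ := Ctl_conj_int (g := fun u => b (-u)) i2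
    have j1 : ∀ i, Integrable fun u => CtlF (x a) (x c) u * ψ i u := fun i =>
      Ctl_int (hψ i).continuous (fun u h => hbs u (hψs i u h)) _ _
    have e : (fun u => kk (x a) u * kk u (x c * Complex.I) * nu p u) = fun u =>
        c0 * (CtlF (x a) (x c) u * b u + CtlF (x a) (x c) u * b (-u) +
          CtlF (x a) (x c) u * b ((starRingEnd ℂ) u) +
          CtlF (x a) (x c) u * b (-(starRingEnd ℂ) u)) +
        ∑ i, p i * (CtlF (x a) (x c) u * ψ i u + CtlF (x a) (x c) u * ψ i (-u)) := by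
      funext u
      change CtlF (x a) (x c) u * nu p u = _
      simp only [nu]
      rw [mul_add, Finset.mul_sum]
      congr 1
      · ring
      · exact Finset.sum_congr rfl fun i _ => by ring
    have k : ∀ i, Integrable fun u =>
        p i * (CtlF (x a) (x c) u * ψ i u + CtlF (x a) (x c) u * ψ i (-u)) := fun i =>
      ((j1 i).add (Ctl_neg_int (j1 i)).1).const_mul _
    have i12 : Integrable fun u => CtlF (x a) (x c) u * b u + CtlF (x a) (x c) u * b (-u) :=
      i1.add i2
    have i123 : Integrable fun u => CtlF (x a) (x c) u * b u + CtlF (x a) (x c) u * b (-u) +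
        CtlF (x a) (x c) u * b ((starRingEnd ℂ) u) := i12.add i3
    have i1234 : Integrable fun u => CtlF (x a) (x c) u * b u + CtlF (x a) (x c) u * b (-u) +
        CtlF (x a) (x c) u * b ((starRingEnd ℂ) u) +
        CtlF (x a) (x c) u * b (-(starRingEnd ℂ) u) := i123.add i4
    rw [e, integral_add (i1234.const_mul c0) (integrable_finsetSum _ fun i _ => k i),
      integral_const_mul, integral_add i123 i4, integral_add i12 i3, integral_add i1 i2,
      integral_finsetSum _ fun i _ => k i, e2, e3, e4, e2]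
    have : ∀ i ∈ (Finset.univ : Finset (D × D)),
        ∫ u, p i * (CtlF (x a) (x c) u * ψ i u + CtlF (x a) (x c) u * ψ i (-u)) =
          if (a, c) = i then 2 * p i else 0 := by
      intro i _
      rw [integral_const_mul, integral_add (j1 i) (Ctl_neg_int (j1 i)).1, (Ctl_neg_int (j1 i)).2]
      have := hd (a, c) i
      simp only at this
      rw [this]
      split_ifs <;> ring
    rw [Finset.sum_congr rfl this, Finset.sum_ite_eq]
    simp

end Pool.Agent.MP_4f0ed6_gt
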