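import Pool.Agent.MP_4f0ed6_gt.PlGeo

open Set Laplacian Filter Topology MeasureTheory Metric InnerProductSpace
open scoped ContDiff

namespace Pool.Agent.MP_4f0ed6_gt

namespace Plumb

variable {V P : Type} [Fintype V] [Fintype P] {Q : Plumb V P}

/-- vectors with a given parity under an involution -/
def cycPar {P : Type} (σ : P → P) (s : ℂ) : Submodule ℂ (P → ℂ) where
  carrier := {b | ∀ π, b (σ π) = s * b π}
  add_mem' := fun ha hb π => by simp [ha π, hb π, mul_add]
  zero_mem' := by simp
  smul_mem' := fun c b ha π => by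
    simp only [Pi.smul_apply, smul_eq_mul, ha π]; ring

theorem cycPar_mem {P : Type} {σ : P → P} {s : ℂ} {b : P → ℂ} :
    b ∈ cycPar σ s ↔ ∀ π, b (σ π) = s * b π := Iff.rfl

theorem cyc_sign {P : Type} [Fintype P] {σ : P → P} (h1 : ∀ π, σ (σ π) = π)
    (h2 : ∀ π, σ π ≠ π) :
    ∃ e : P → ℂ, (∀ π, e (σ π) = -e π) ∧ ∀ π, e π * e π = 1 := by
  classical
  let i := Fintype.equivFin P
  refine ⟨fun π => if i π < i (σ π) then 1 else -1, fun π => ?_, fun π => ?_⟩
  · simp only [h1]
    have hne : i (σ π) ≠ i π := fun h => h2 π (i.injective h)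
    rcases lt_or_gt_of_ne hne with h | h
    · simp [h, not_lt.mpr h.le]
    · simp [h, not_lt.mpr h.le]
  · by_cases h : i π < i (σ π) <;> simp [h]

theorem cyc_odd_rank {P : Type} [Fintype P] {σ : P → P} (h1 : ∀ π, σ (σ π) = π)
    (h2 : ∀ π, σ π ≠ π) :
    2 * Module.finrank ℂ (cycPar σ (-1)) = Fintype.card P := by
  obtain ⟨e, he1, he2⟩ := cyc_sign h1 h2
  have hc : IsCompl (cycPar σ 1) (cycPar σ (-1)) := by
    constructor
    · rw [Submodule.disjoint_def]
      intro b hb hb'
      funext π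
      have a1 := cycPar_mem.mp hb π
      have a2 := cycPar_mem.mp hb' π
      simp only [Pi.zero_apply]
      linear_combination (1 / 2 : ℂ) * a2 - (1 / 2 : ℂ) * a1
    · rw [codisjoint_iff, eq_top_iff]
      intro b _
      rw [Submodule.mem_sup]
      refine ⟨fun π => (b π + b (σ π)) / 2, cycPar_mem.mpr fun π => ?_,
        fun π => (b π - b (σ π)) / 2, cycPar_mem.mpr fun π => ?_, ?_⟩
      · simp only [h1]; ring
      · simp only [h1]; ring
      · funext π; simp only [Pi.add_apply]; ring
  have hsum := Submodule.finrank_add_eq_of_isCompl hc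
  let E : cycPar σ 1 ≃ₗ[ℂ] cycPar σ (-1) :=
    { toFun := fun b => ⟨fun π => e π * b.1 π, cycPar_mem.mpr fun π => by
        rw [he1, cycPar_mem.mp b.2 π]; ring⟩
      invFun := fun b => ⟨fun π => e π * b.1 π, cycPar_mem.mpr fun π => by
        rw [he1, cycPar_mem.mp b.2 π]; ring⟩
      map_add' := fun a b => Subtype.ext (funext fun π => by simp [mul_add])
      map_smul' := fun c a => Subtype.ext (funext fun π => by
        simp only [SetLike.val_smul, Pi.smul_apply, smul_eq_mul, RingHom.id_apply]; ring)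
      left_inv := fun a => Subtype.ext (funext fun π => by
        simp only [← mul_assoc, he2, one_mul])
      right_inv := fun a => Subtype.ext (funext fun π => by
        simp only [← mul_assoc, he2, one_mul]) }
  have hE := E.finrank_eq
  rw [Module.finrank_fintype_fun_eq_card] at hsum
  omega

/-- divergence -/
noncomputable def cycDiv (Q : Plumb V P) : (P → ℂ) →ₗ[ℂ] (V → ℂ) where
  toFun b v := ∑ π ∈ Q.pts v, b π
  map_add' a b := by funext v; simp [Finset.sum_add_distrib]
  map_smul' c a := by funext v; simp [Finset.mul_sum]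

/-- total sum -/
noncomputable def cycSum (V : Type) [Fintype V] : (V → ℂ) →ₗ[ℂ] ℂ where
  toFun f := ∑ v, f v
  map_add' a b := by simp [Finset.sum_add_distrib]
  map_smul' c a := by simp [Finset.mul_sum]

theorem cycSum_ker (V : Type) [Fintype V] (h : Nonempty V) :
    Module.finrank ℂ (LinearMap.ker (cycSum V)) + 1 = Fintype.card V := by
  classical
  obtain ⟨v0⟩ := h
  have hr : LinearMap.range (cycSum V) = ⊤ := by
    rw [eq_top_iff]
    intro c _
    exact ⟨Pi.single v0 c, by simp [cycSum]⟩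
  have := LinearMap.finrank_range_add_finrank_ker (cycSum V)
  rw [hr, finrank_top, Module.finrank_self, Module.finrank_fintype_fun_eq_card] at this
  omega

omit [Fintype V] in
theorem cycDiv_single [DecidableEq V] [DecidableEq P] (π : P) :
    cycDiv Q (Pi.single π 1) = Pi.single (Q.pc π) 1 := by
  funext v
  show ∑ π' ∈ Q.pts v, (Pi.single π (1 : ℂ) : P → ℂ) π' = _
  rw [Finset.sum_pi_single']
  by_cases h : Q.pc π = v
  · rw [if_pos (mem_pts.mpr h), h, Pi.single_eq_same]
  · rw [if_neg (fun h' => h (mem_pts.mp h')), Pi.single_eq_of_ne (Ne.symm h)]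

theorem cycDiv_range (hQ : Q.Ok) :
    LinearMap.range (cycDiv Q ∘ₗ (cycPar Q.σ (-1)).subtype) = LinearMap.ker (cycSum V) := by
  classical
  apply le_antisymm
  · rintro f ⟨b, rfl⟩
    rw [LinearMap.mem_ker]
    show ∑ v, ∑ π ∈ Q.pts v, b.1 π = 0
    rw [sum_pts]
    have hinv : Function.Involutive Q.σ := hQ.σσ
    have h1 : ∑ π, b.1 (Q.σ π) = ∑ π, b.1 π := Equiv.sum_comp hinv.toPerm b.1
    have h2 : ∑ π, b.1 (Q.σ π) = -∑ π, b.1 π := by
      rw [← Finset.sum_neg_distrib]
      exact Finset.sum_congr rfl fun π _ => by rw [cycPar_mem.mp b.2 π]; ring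
    linear_combination (1 / 2 : ℂ) * h2 - (1 / 2 : ℂ) * h1
  · intro f hf
    set R := LinearMap.range (cycDiv Q ∘ₗ (cycPar Q.σ (-1)).subtype) with hR
    have key : ∀ a b : V, (Pi.single a 1 - Pi.single b 1 : V → ℂ) ∈ R := by
      intro a b
      induction hQ.conn a b with
      | refl => simp
      | @tail b c _ hbc ih =>
        obtain ⟨π, h1, h2⟩ := hbc
        have hσ : Q.σ π ≠ π := fun h => hQ.pc_ne π (by rw [h])
        have hm : (Pi.single π 1 - Pi.single (Q.σ π) 1 : P → ℂ) ∈ cycPar Q.σ (-1) := by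
          refine cycPar_mem.mpr fun π' => ?_
          have hinv : Function.Involutive Q.σ := hQ.σσ
          have e1 : Q.σ π' = π ↔ π' = Q.σ π :=
            ⟨fun h => by rw [← h, hQ.σσ], fun h => by rw [h, hQ.σσ]⟩
          have e2 : Q.σ π' = Q.σ π ↔ π' = π := hinv.injective.eq_iff
          simp only [Pi.sub_apply, Pi.single_apply, e1, e2]
          ring
        have hbc' : (Pi.single b 1 - Pi.single c 1 : V → ℂ) ∈ R := by
          refine ⟨⟨_, hm⟩, ?_⟩
          simp only [LinearMap.comp_apply, Submodule.subtype_apply, map_sub, cycDiv_single, h1, h2]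
        have := R.add_mem ih hbc'
        rwa [sub_add_sub_cancel] at this
    obtain ⟨v0⟩ := hQ.ne
    have hs : ∑ v, f v = 0 := hf
    have hf' : f = ∑ v, f v • (Pi.single v 1 - Pi.single v0 1 : V → ℂ) := by
      simp only [smul_sub, Finset.sum_sub_distrib, ← Finset.sum_smul, hs, zero_smul, sub_zero]
      funext w
      simp [Finset.sum_apply, Pi.single_apply]
    rw [hf']
    exact R.sum_mem fun v _ => R.smul_mem _ (key v v0)

theorem Ok.finrank_cyc (hQ : Q.Ok) :
    2 * (Module.finrank ℂ Q.cyc + Fintype.card V) = Fintype.card P + 2 := by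
  have hσ : ∀ π, Q.σ π ≠ π := fun π h => hQ.pc_ne π (by rw [h])
  have h1 := cyc_odd_rank hQ.σσ hσ
  have h2 := LinearMap.finrank_range_add_finrank_ker (cycDiv Q ∘ₗ (cycPar Q.σ (-1)).subtype)
  rw [cycDiv_range hQ] at h2
  have h3 := cycSum_ker V hQ.ne
  have hle : Q.cyc ≤ cycPar Q.σ (-1) := fun b hb =>
    cycPar_mem.mpr fun π => by rw [hb.1 π]; ring
  have hk : LinearMap.ker (cycDiv Q ∘ₗ (cycPar Q.σ (-1)).subtype) =
      Q.cyc.comap (cycPar Q.σ (-1)).subtype := by
    ext b
    simp only [LinearMap.mem_ker, LinearMap.comp_apply, Submodule.subtype_apply,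
      Submodule.mem_comap]
    constructor
    · intro h
      exact ⟨fun π => by rw [cycPar_mem.mp b.2 π]; ring, fun v => congrFun h v⟩
    · intro h
      funext v
      exact h.2 v
  rw [hk, (Submodule.comapSubtypeEquivOfLe hle).finrank_eq] at h2
  omega

end Plumb

end Pool.Agent.MP_4f0ed6_gt
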