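import Mathlib

open Set Laplacian
open scoped ContDiff

namespace Pool.Agent.MP_4f0ed6_gt

variable (M : Type) [TopologicalSpace M] [ChartedSpace ℂ M]

/-- Holomorphic 1-forms: `f x` is the coefficient of `dz` in the chart at `x`. -/
def holForms : Submodule ℂ (M → ℂ → ℂ) where
  carrier := {f | (∀ x, DifferentiableOn ℂ (f x) (chartAt ℂ x).target) ∧
    (∀ x, ∀ z ∉ (chartAt ℂ x).target, f x z = 0) ∧
    ∀ x y, ∀ q ∈ (chartAt ℂ x).source ∩ (chartAt ℂ y).source,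
      f x (chartAt ℂ x q) =
        f y (chartAt ℂ y q) * deriv (chartAt ℂ y ∘ (chartAt ℂ x).symm) (chartAt ℂ x q)}
  add_mem' := fun ha hb => ⟨fun x => (ha.1 x).add (hb.1 x),
    fun x z hz => by simp [ha.2.1 x z hz, hb.2.1 x z hz],
    fun x y q hq => by simp [ha.2.2 x y q hq, hb.2.2 x y q hq, add_mul]⟩
  zero_mem' := ⟨fun _ => differentiableOn_const 0, fun _ _ _ => rfl, fun _ _ _ _ => by simp⟩
  smul_mem' := fun c _ ha => ⟨fun x => (ha.1 x).const_smul c,
    fun x z hz => by simp [ha.2.1 x z hz],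
    fun x y q hq => by simp [ha.2.2 x y q hq, mul_assoc]⟩

/-- The genus of a compact Riemann surface. -/
noncomputable def genus : ℕ := Module.finrank ℂ (holForms M)

/-- A smooth conformal Riemannian metric, equal to `ρ x z * |dz| ^ 2` in the chart at `x`. -/
structure ConfMetric where
  ρ : M → ℂ → ℝ
  smooth : ∀ x, ContDiffOn ℝ ∞ (ρ x) (chartAt ℂ x).target
  pos : ∀ x, ∀ z ∈ (chartAt ℂ x).target, 0 < ρ x z
  compat : ∀ x y, ∀ q ∈ (chartAt ℂ x).source ∩ (chartAt ℂ y).source,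
    ρ x (chartAt ℂ x q) =
      ρ y (chartAt ℂ y q) * ‖deriv (chartAt ℂ y ∘ (chartAt ℂ x).symm) (chartAt ℂ x q)‖ ^ 2

variable {M}

/-- `f` is smooth and the Laplace-Beltrami operator of `g` sends it to `lam * f`. -/
def IsEigen (g : ConfMetric M) (lam : ℝ) (f : M → ℝ) : Prop :=
  ∀ x, ContDiffOn ℝ ∞ (f ∘ (chartAt ℂ x).symm) (chartAt ℂ x).target ∧
    ∀ z ∈ (chartAt ℂ x).target,
      -(Δ (f ∘ (chartAt ℂ x).symm) z) / g.ρ x z = lam * f ((chartAt ℂ x).symm z)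

end Pool.Agent.MP_4f0ed6_gt
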