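import Pool.Agent.MP_4f0ed6_gt.Defs

open Set Laplacian Filter Topology MeasureTheory Metric InnerProductSpace
open scoped ContDiff

namespace Pool.Agent.MP_4f0ed6_gt

theorem Ev_le {f : ℝ → ℝ} (hf : ContinuousAt f 0) {c : ℝ} (h : f 0 < c) :
    ∀ᶠ η : ℝ in 𝓝[>] 0, 0 < η ∧ f η ≤ c :=
  Eventually.and self_mem_nhdsWithin
    (((hf.eventually (gt_mem_nhds h)).mono fun _ => le_of_lt).filter_mono nhdsWithin_le_nhds)

theorem ev_small {c : ℝ} (hc : 0 < c) : ∀ᶠ η : ℝ in 𝓝[>] 0, 0 < η ∧ η ≤ c := by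
  exact Ev_le continuousAt_id hc

theorem ev_pow (C : ℝ) {a b : ℕ} (h : b < a) : ∀ᶠ η : ℝ in 𝓝[>] 0, C * η ^ a ≤ η ^ b := by
  obtain ⟨k, rfl⟩ := Nat.exists_eq_add_of_lt h
  filter_upwards [Ev_le (f := fun η => C * η ^ (k + 1)) (by fun_prop) (c := 1) (by simp)]
    with η hη
  have := mul_le_mul_of_nonneg_left hη.2 (pow_pos hη.1 b).le
  calc C * η ^ (b + k + 1) = η ^ b * (C * η ^ (k + 1)) := by ring
    _ ≤ η ^ b := by simpa using this

theorem ev_log (C : ℝ) {c : ℝ} (hc : 0 < c) (k : ℕ) :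
    ∀ᶠ η : ℝ in 𝓝[>] 0, C * (1 + |Real.log (c * η ^ k)|) ≤ η⁻¹ := by
  have h : Continuous fun η : ℝ => C * (η + |η * Real.log c + k * (η * Real.log η)|) :=
    continuous_const.mul (continuous_id.add ((continuous_id.mul continuous_const).add
      (continuous_const.mul Real.continuous_mul_log)).abs)
  filter_upwards [Ev_le h.continuousAt (c := 1) (by simp)] with η hη
  rw [← one_div, le_div_iff₀ hη.1, Real.log_mul hc.ne' (pow_pos hη.1 k).ne', Real.log_pow]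
  refine le_of_eq_of_le ?_ hη.2
  rw [show η * Real.log c + k * (η * Real.log η) = η * (Real.log c + k * Real.log η) by ring,
    abs_mul, abs_of_pos hη.1]
  ring

theorem ev_exp {c : ℝ} (hc : 0 < c) (k : ℕ) :
    ∀ᶠ η : ℝ in 𝓝[>] 0, Real.exp (-η⁻¹ / 2) ≤ c * η ^ k := by
  filter_upwards [ev_log 2 hc k, self_mem_nhdsWithin] with η h1 h2
  have h3 : 0 < c * η ^ k := mul_pos hc (pow_pos h2 k)
  rw [← Real.exp_log h3, Real.exp_le_exp]
  have := neg_abs_le (Real.log (c * η ^ k))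
  linarith

end Pool.Agent.MP_4f0ed6_gt
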