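import Pool.Agent.MP_4f0ed6_gt.Ev

open Set Laplacian Filter Topology MeasureTheory Metric InnerProductSpace
open scoped ContDiff

namespace Pool.Agent.MP_4f0ed6_gt

theorem EvAlg_y {c t a N y MY Z : ℝ} (hc : 1 ≤ c) (ht : 0 < t) (ht1 : t ≤ 1) (hct : 2 * c * t ≤ 1)
    (ha : 0 < a) (hN : 0 ≤ N) (hM : t ^ 4 ≤ MY) (hZ : |Z| ≤ 2 * c ^ 2 * a * N)
    (h : |Z + MY * y| ≤ c * (t ^ 3 * a * N + t ^ 7 * |y|)) : t ^ 4 * |y| ≤ 6 * c ^ 2 * a * N := by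
  have h4 : 0 < t ^ 4 := by positivity
  have h1 : MY * |y| ≤ |Z + MY * y| + |Z| := by
    have : MY * |y| = |(Z + MY * y) - Z| := by
      rw [add_sub_cancel_left, abs_mul, abs_of_pos (h4.trans_le hM)]
    rw [this]
    exact abs_sub _ _
  have h2 : t ^ 4 * |y| ≤ MY * |y| := by gcongr
  have h3 : c * (t ^ 3 * a * N) ≤ c ^ 2 * a * N := by
    have : t ^ 3 ≤ c := (pow_le_one₀ ht.le ht1).trans hc
    calc c * (t ^ 3 * a * N) ≤ c * (c * a * N) := by gcongr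
      _ = _ := by ring
  have h5 : c * (t ^ 7 * |y|) ≤ t ^ 4 * |y| / 2 := by
    have h6 : t ^ 2 ≤ 1 := pow_le_one₀ ht.le ht1
    have h7 : c * t * t ^ 2 ≤ 1 / 2 * 1 := by
      have : c * t ≤ 1 / 2 := by linarith
      gcongr
    calc c * (t ^ 7 * |y|) = (c * t * t ^ 2) * (t ^ 4 * |y|) := by ring
      _ ≤ (1 / 2 * 1) * (t ^ 4 * |y|) := by gcongr
      _ = _ := by ring
  nlinarith

theorem EvAlg_s {c t a σ MY q S2 B w : ℝ} (hc : 1 ≤ c) (ht : 0 < t) (ha : 0 < a) (h1 : a ≤ σ)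
    (h2 : σ ≤ c * a) (h3 : t ^ 4 ≤ MY) (h4 : MY ≤ c * t ^ 4) (hS : 0 ≤ S2) (hB : 0 ≤ B)
    (hw : w * t ^ 4 = a ^ 2) (h : MY * q ≤ -(a * S2) + t ^ 3 * a * B) :
    σ * q ≤ -(w * S2 / c) + c * (w * t ^ 3) * B := by
  have h5 : 0 < t ^ 4 := by positivity
  have hM : 0 < MY := h5.trans_le h3
  have hw0 : 0 < w := by
    by_contra hn
    have : w * t ^ 4 ≤ 0 := mul_nonpos_of_nonpos_of_nonneg (not_lt.1 hn) h5.le
    nlinarith
  have hc0 : 0 < c := by linarith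
  refine le_of_mul_le_mul_left ?_ hM
  have e1 : MY * (w * S2 / c) ≤ σ * (a * S2) := by
    calc MY * (w * S2 / c) ≤ c * t ^ 4 * (w * S2 / c) := by gcongr
      _ = a * (a * S2) := by
        field_simp
        linear_combination S2 * hw
      _ ≤ _ := by gcongr
  have e2 : σ * (t ^ 3 * a * B) ≤ MY * (c * (w * t ^ 3) * B) := by
    calc σ * (t ^ 3 * a * B) ≤ c * a * (t ^ 3 * a * B) := by gcongr
      _ = t ^ 4 * (c * (w * t ^ 3) * B) := by linear_combination -(c * t ^ 3 * B) * hw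
      _ ≤ _ := by gcongr
  have e3 : σ * (MY * q) ≤ σ * (-(a * S2) + t ^ 3 * a * B) :=
    mul_le_mul_of_nonneg_left h (ha.le.trans h1)
  nlinarith

theorem EvAlg_fin {c t w U S2 n θ : ℝ} (hc : 1 ≤ c) (ht : 0 < t) (hct : 100 * c ^ 5 * t ≤ 1)
    (hw : 0 < w) (hU : 0 ≤ U) (hS : 0 ≤ S2) (hn : 1 ≤ n) (hθ : θ + 1 ≤ c)
    (h : -(7 * c ^ 4 * (w * t ^ 3) * U) ≤ (θ * (w * t) + w * t ^ 2) * U +
      (-(w * S2 / c) + c * (w * t ^ 3) * (8 * c ^ 4 * U)) - w * t * ((θ + 1) * (U - S2 / n))) :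
    U ≤ 0 := by
  have c5 : 1 ≤ c ^ 5 := one_le_pow₀ hc
  have c4 : c ^ 4 ≤ c ^ 5 := pow_le_pow_right₀ hc (by norm_num)
  have c2 : c ^ 2 ≤ c ^ 5 := pow_le_pow_right₀ hc (by norm_num)
  have ht1 : t ≤ 1 / 100 := by nlinarith
  have e1 : w * t * ((θ + 1) * (S2 / n)) ≤ w * S2 / c := by
    have : S2 / n ≤ S2 := div_le_self hS hn
    have h2 : t * c * c ≤ 1 := by nlinarith
    rw [le_div_iff₀ (by linarith)]
    calc w * t * ((θ + 1) * (S2 / n)) * c ≤ w * t * (c * S2) * c := by gcongr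
      _ = (t * c * c) * (w * S2) := by ring
      _ ≤ 1 * (w * S2) := by gcongr
      _ = _ := one_mul _
  have e2 : 7 * c ^ 4 * t ^ 2 + 8 * c ^ 5 * t ^ 2 + t ≤ 1 / 2 := by
    have : c ^ 5 * t * t ≤ 1 / 100 * (1 / 100) := by
      have : c ^ 5 * t ≤ 1 / 100 := by linarith
      gcongr
    have h3 : c ^ 4 * t ^ 2 ≤ c ^ 5 * t ^ 2 := by gcongr
    nlinarith
  have e3 : (7 * c ^ 4 * t ^ 2 + 8 * c ^ 5 * t ^ 2 + t) * (w * t * U) ≤ 1 / 2 * (w * t * U) := by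
    gcongr
  have e4 : w * t * U ≤ 0 := by nlinarith
  by_contra hU'
  have : 0 < w * t * U := mul_pos (mul_pos hw ht) (not_le.1 hU')
  linarith

theorem even_alg {X : Type} [Fintype X] [Nonempty X] (C : ℝ) {θ : ℝ} (hθ : 0 ≤ θ) :
    ∀ᶠ η : ℝ in 𝓝[>] 0, ∀ (a σ s y N MY : ℝ) (m u Lu : X → ℝ), 0 < a → a ≤ η ^ 10 → a ≤ σ →
      σ ≤ C * a → (∀ v, |m v - σ - θ * (a ^ 2 / η ^ 3)| ≤ a ^ 2 / η ^ 2) → 0 < s → s ≤ 1 →
      η ^ 4 ≤ MY → MY ≤ C * η ^ 4 → (∀ v, |u v| ≤ N) → ((∃ v, |u v| = N) ∨ |y| = N) →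
      (∀ v, |(s * m v - σ) * u v + σ * y - a ^ 2 / η ^ 3 * Lu v| ≤
        C * (a ^ 2 / η * N + a * η ^ 3 * |y|)) →
      |∑ v, m v * u v + MY * y| ≤ C * (η ^ 3 * a * N + η ^ 7 * |y|) →
      (θ + 1) * (∑ v, u v ^ 2 - (∑ v, u v) ^ 2 / Fintype.card X) ≤ ∑ v, u v * Lu v →
      N = 0 := by
  obtain ⟨n, hn⟩ : ∃ n : ℝ, n = Fintype.card X := ⟨_, rfl⟩
  have hn1 : 1 ≤ n := by rw [hn]; exact_mod_cast Fintype.card_pos
  obtain ⟨c, hc⟩ : ∃ c : ℝ, c = |C| + θ + 1 + n := ⟨_, rfl⟩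
  have hCc : C ≤ c := by linarith [le_abs_self C]
  have hθc : θ + 1 ≤ c := by linarith [abs_nonneg C]
  have hnc : n ≤ c := by linarith [abs_nonneg C]
  have hc1 : 1 ≤ c := hn1.trans hnc
  have c5 : 1 ≤ c ^ 5 := one_le_pow₀ hc1
  have c2 : c ^ 2 ≤ c ^ 5 := pow_le_pow_right₀ hc1 (by norm_num)
  have c1 : c ≤ c ^ 5 := le_self_pow₀ hc1 (by norm_num)
  filter_upwards [ev_small (c := 1 / (100 * c ^ 5)) (by positivity)] with t ⟨ht, htc⟩
  intro a σ s y N MY m u Lu ha hat hσ1 hσ2 hm hs0 hs1 hM1 hM2 hu hN h1 h2 h3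
  rw [← hn] at h3
  have hct : 100 * c ^ 5 * t ≤ 1 := by
    rw [le_div_iff₀ (by positivity)] at htc
    linarith
  have tc5 : t ≤ c ^ 5 * t := le_mul_of_one_le_left ht.le c5
  have tc1 : c * t ≤ c ^ 5 * t := by gcongr
  have tc2 : c ^ 2 * t ≤ c ^ 5 * t := by gcongr
  have ht1 : t ≤ 1 := by linarith
  have hN0 : 0 ≤ N := (abs_nonneg _).trans (hu (Classical.arbitrary X))
  obtain ⟨w, hw⟩ : ∃ w : ℝ, w = a ^ 2 / t ^ 4 := ⟨_, rfl⟩
  have hw0 : 0 < w := by rw [hw]; positivity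
  have w4 : w * t ^ 4 = a ^ 2 := by rw [hw]; field_simp
  have w1 : a ^ 2 / t ^ 3 = w * t := by rw [hw]; field_simp
  have w2 : a ^ 2 / t ^ 2 = w * t ^ 2 := by rw [hw]; field_simp
  have w3 : a ^ 2 / t = w * t ^ 3 := by rw [hw]; field_simp
  rw [w1] at h1 hm
  rw [w2] at hm
  rw [w3] at h1
  have wa : w ≤ t ^ 6 * a := by
    rw [hw, div_le_iff₀ (by positivity)]
    calc a ^ 2 = a * a := sq a
      _ ≤ t ^ 10 * a := by gcongr
      _ = _ := by ring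
  have tp : ∀ i j : ℕ, i ≤ j → t ^ j ≤ t ^ i := fun i j h => pow_le_pow_of_le_one ht.le ht1 h
  have wt : w * t ≤ a := by
    calc w * t ≤ t ^ 6 * a * t := by gcongr
      _ = t ^ 7 * a := by ring
      _ ≤ t ^ 0 * a := by gcongr 1; exact tp _ _ (by norm_num)
      _ = a := by ring
  have wt2 : w * t ^ 2 ≤ t ^ 3 * a := by
    calc w * t ^ 2 ≤ t ^ 6 * a * t ^ 2 := by gcongr
      _ = t ^ 8 * a := by ring
      _ ≤ t ^ 3 * a := by gcongr ?_ * a; exact tp _ _ (by norm_num)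
  have t3a : t ^ 3 * a ≤ a := mul_le_of_le_one_left ha.le (pow_le_one₀ ht.le ht1)
  have hCa : C * a ≤ c * a := by gcongr
  have θw : θ * (w * t) ≤ θ * a := by gcongr
  have θw0 : 0 ≤ θ * (w * t) := by positivity
  have m0 : ∀ v, 0 ≤ m v := fun v => by linarith [(abs_le.1 (hm v)).1]
  have m1 : ∀ v, m v ≤ 2 * c * a := fun v => by
    have : (θ + 1) * a ≤ c * a := by gcongr
    linarith [(abs_le.1 (hm v)).2]
  have sum_le : ∀ (F : X → ℝ) (B : ℝ), 0 ≤ B → (∀ v, |F v| ≤ B) → |∑ v, F v| ≤ c * B := by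
    intro F B hB h
    calc |∑ v, F v| ≤ ∑ v, |F v| := Finset.abs_sum_le_sum_abs _ _
      _ ≤ ∑ _v : X, B := Finset.sum_le_sum fun v _ => h v
      _ = n * B := by simp [hn]
      _ ≤ c * B := by gcongr
  have hZ : |∑ v, m v * u v| ≤ 2 * c ^ 2 * a * N := by
    have := sum_le (fun v => m v * u v) (2 * c * a * N) (by positivity) fun v => by
      rw [abs_mul, abs_of_nonneg (m0 v)]
      gcongr
      exacts [m1 v, hu v]
    linarith
  have h2' : |∑ v, m v * u v + MY * y| ≤ c * (t ^ 3 * a * N + t ^ 7 * |y|) :=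
    h2.trans (by gcongr)
  have hy := EvAlg_y hc1 ht ht1 (by linarith) ha hN0 hM1 hZ h2'
  have hy2 : |y| ≤ N / 2 := by
    have h4 : 0 < t ^ 4 := by positivity
    refine le_of_mul_le_mul_left (hy.trans ?_) h4
    have e : a ≤ t * t ^ 4 := hat.trans (by rw [← pow_succ']; exact tp _ _ (by norm_num))
    have e2 : c ^ 2 * t ≤ 1 / 12 := by linarith
    calc 6 * c ^ 2 * a * N ≤ 6 * c ^ 2 * (t * t ^ 4) * N := by gcongr
      _ = 6 * (c ^ 2 * t) * (t ^ 4 * N) := by ring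
      _ ≤ 6 * (1 / 12) * (t ^ 4 * N) := by gcongr
      _ = _ := by ring
  rcases hN with ⟨v₀, hv₀⟩ | hN
  swap
  · linarith
  obtain ⟨U, hU⟩ : ∃ U, U = ∑ v, u v ^ 2 := ⟨_, rfl⟩
  obtain ⟨S, hS⟩ : ∃ S, S = ∑ v, u v := ⟨_, rfl⟩
  have hNU : N ^ 2 ≤ U := by
    rw [hU, ← hv₀, sq_abs]
    exact Finset.single_le_sum (f := fun v => u v ^ 2) (fun v _ => sq_nonneg _) (Finset.mem_univ _)
  have hU0 : 0 ≤ U := (sq_nonneg _).trans hNU
  have hSN : |S| ≤ c * N := hS ▸ sum_le u N hN0 hu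
  have c3 : c ≤ c ^ 3 := le_self_pow₀ hc1 (by norm_num)
  have hE : C * (w * t ^ 3 * N + a * t ^ 3 * |y|) ≤ 7 * c ^ 3 * (w * t ^ 3) * N := by
    have e : a * t ^ 3 * |y| ≤ 6 * c ^ 2 * (w * t ^ 3) * N := by
      refine le_of_mul_le_mul_left ?_ ht
      calc t * (a * t ^ 3 * |y|) = a * (t ^ 4 * |y|) := by ring
        _ ≤ a * (6 * c ^ 2 * a * N) := by gcongr
        _ = _ := by linear_combination -(6 * c ^ 2 * N) * w4
    have e2 : c * (w * t ^ 3 * N) ≤ c ^ 3 * (w * t ^ 3 * N) := by gcongr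
    calc _ ≤ c * (w * t ^ 3 * N + 6 * c ^ 2 * (w * t ^ 3) * N) := by gcongr
      _ ≤ _ := by linarith
  have k1 := sum_le (fun v => u v * ((s * m v - σ) * u v + σ * y - w * t * Lu v))
    (N * (7 * c ^ 3 * (w * t ^ 3) * N)) (by positivity) fun v => by
      rw [abs_mul]
      gcongr
      exacts [hu v, (h1 v).trans hE]
  have k2 : ∑ v, u v * ((s * m v - σ) * u v + σ * y - w * t * Lu v) =
      ∑ v, (s * m v - σ) * u v ^ 2 + σ * (y * S) - w * t * ∑ v, u v * Lu v := by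
    simp only [hS, Finset.mul_sum, ← Finset.sum_add_distrib, ← Finset.sum_sub_distrib]
    exact Finset.sum_congr rfl fun v _ => by ring
  have k3 : ∑ v, (s * m v - σ) * u v ^ 2 ≤ (θ * (w * t) + w * t ^ 2) * U := by
    rw [hU, Finset.mul_sum]
    refine Finset.sum_le_sum fun v _ => ?_
    have : s * m v ≤ m v := mul_le_of_le_one_left (m0 v) hs1
    gcongr
    linarith [(abs_le.1 (hm v)).2]
  have k4 := sum_le (fun v => (m v - σ - θ * (w * t)) * u v) (t ^ 3 * a * N) (by positivity)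
    fun v => by
      rw [abs_mul]
      gcongr
      exacts [(hm v).trans wt2, hu v]
  have k5 : ∑ v, (m v - σ - θ * (w * t)) * u v = ∑ v, m v * u v - (σ + θ * (w * t)) * S := by
    simp only [hS, Finset.mul_sum, ← Finset.sum_sub_distrib]
    exact Finset.sum_congr rfl fun v _ => by ring
  have k6 : |∑ v, m v * u v + MY * y| ≤ 7 * c ^ 3 * (t ^ 3 * a * N) := by
    have e : t ^ 7 * |y| ≤ 6 * c ^ 2 * (t ^ 3 * a * N) := by
      calc t ^ 7 * |y| = t ^ 3 * (t ^ 4 * |y|) := by ring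
        _ ≤ t ^ 3 * (6 * c ^ 2 * a * N) := by gcongr
        _ = _ := by ring
    have e2 : c * (t ^ 3 * a * N) ≤ c ^ 3 * (t ^ 3 * a * N) := by gcongr
    calc _ ≤ c * (t ^ 3 * a * N + 6 * c ^ 2 * (t ^ 3 * a * N)) := h2'.trans (by gcongr)
      _ ≤ _ := by linarith
  have k7 : |MY * y + (σ + θ * (w * t)) * S| ≤ 8 * c ^ 3 * (t ^ 3 * a * N) := by
    have e : MY * y + (σ + θ * (w * t)) * S =
        (∑ v, m v * u v + MY * y) - ∑ v, (m v - σ - θ * (w * t)) * u v := by rw [k5]; ring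
    have e2 : c * (t ^ 3 * a * N) ≤ c ^ 3 * (t ^ 3 * a * N) := by gcongr
    rw [e]
    linarith [abs_sub (∑ v, m v * u v + MY * y) (∑ v, (m v - σ - θ * (w * t)) * u v)]
  have k8 : MY * (y * S) ≤ -(a * S ^ 2) + t ^ 3 * a * (8 * c ^ 4 * U) := by
    have e1 : (MY * y + (σ + θ * (w * t)) * S) * S ≤ 8 * c ^ 3 * (t ^ 3 * a * N) * (c * N) := by
      refine (le_abs_self _).trans ?_
      rw [abs_mul]
      gcongr
    have e2 : a * S ^ 2 ≤ (σ + θ * (w * t)) * S ^ 2 := by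
      gcongr
      linarith
    have e3 : t ^ 3 * a * (8 * c ^ 4 * N ^ 2) ≤ t ^ 3 * a * (8 * c ^ 4 * U) := by gcongr
    linarith
  have k9 := EvAlg_s hc1 ht ha hσ1 (hσ2.trans hCa) hM1 (hM2.trans (by gcongr)) (sq_nonneg S)
    (by positivity) w4 k8
  rw [← hU, ← hS] at h3
  have k10 : w * t * ((θ + 1) * (U - S ^ 2 / n)) ≤ w * t * ∑ v, u v * Lu v := by gcongr
  have k11 : 7 * c ^ 4 * (w * t ^ 3) * N ^ 2 ≤ 7 * c ^ 4 * (w * t ^ 3) * U := by gcongr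
  have := EvAlg_fin (U := U) (S2 := S ^ 2) hc1 ht hct hw0 hU0 (sq_nonneg S) hn1 hθc (by
    rw [k2] at k1
    have := (abs_le.1 k1).1
    linarith)
  exact pow_eq_zero_iff (two_ne_zero) |>.1 (le_antisymm (hNU.trans this) (sq_nonneg N))

end Pool.Agent.MP_4f0ed6_gt
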