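import Pool.Agent.MP_4f0ed6_gt.Bnd

open Set Laplacian Filter Topology MeasureTheory Metric InnerProductSpace
open scoped ContDiff

namespace Pool.Agent.MP_4f0ed6_gt

theorem EvPos_alg {x y u E N : ℝ} (hx : |x - u| ≤ E) (hy : |y - u| ≤ E) (hu : |u| ≤ N)
    (hE : E ≤ N) : |x * y - u ^ 2| ≤ 3 * N * E := by
  have hE0 : 0 ≤ E := (abs_nonneg _).trans hx
  have hN0 : 0 ≤ N := (abs_nonneg _).trans hu
  have e : x * y - u ^ 2 = (x - u) * (y - u) + u * (x - u) + u * (y - u) := by ring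
  have h1 : |(x - u) * (y - u)| ≤ N * E := by
    rw [abs_mul]; exact mul_le_mul (hx.trans hE) hy (abs_nonneg _) hN0
  have h2 : |u * (x - u)| ≤ N * E := by
    rw [abs_mul]; exact mul_le_mul hu hx (abs_nonneg _) hN0
  have h3 : |u * (y - u)| ≤ N * E := by
    rw [abs_mul]; exact mul_le_mul hu hy (abs_nonneg _) hN0
  rw [e]
  have h4 := abs_add_three ((x - u) * (y - u)) (u * (x - u)) (u * (y - u))
  linarith

theorem EvPos_small {β φ ψ : ℂ → ℝ} {Λ u E N : ℝ} (hβ : PB β Λ) (h0 : ∀ w, 0 ≤ β w)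
    (h1 : ∫ w, β w = 1) (hφ : Continuous φ) (hψ : Continuous ψ)
    (hx : ∀ w, β w ≠ 0 → |φ w - u| ≤ E) (hy : ∀ w, β w ≠ 0 → |ψ w - u| ≤ E) (hu : |u| ≤ N)
    (hE0 : 0 ≤ E) (hE : E ≤ N) : u ^ 2 - 3 * N * E ≤ ∫ w, β w * (φ w * ψ w) := by
  have hN0 : 0 ≤ N := hE0.trans hE
  have hm : ∫ w, |β w| ≤ 1 := by
    rw [← h1]
    exact le_of_eq (integral_congr_ae (Eventually.of_forall fun w => abs_of_nonneg (h0 w)))
  have h2 : |∫ w, β w * (φ w * ψ w - u ^ 2)| ≤ 1 * (3 * N * E) :=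
    abs_integral_mul_le (φ := fun w => φ w * ψ w - u ^ 2) hβ.integrable (by positivity) hm
      fun w hw => EvPos_alg (hx w hw) (hy w hw) hu hE
  have i1 : Integrable fun w => β w * (φ w * ψ w) :=
    (hβ.cont.mul (hφ.mul hψ)).integrable_of_hasCompactSupport hβ.hcs.mul_right
  have i2 : Integrable fun w => β w * u ^ 2 := hβ.integrable.mul_const _
  have h3 : ∫ w, β w * (φ w * ψ w - u ^ 2) = (∫ w, β w * (φ w * ψ w)) - u ^ 2 := by
    simp only [mul_sub]
    rw [integral_sub i1 i2, integral_mul_const, h1, one_mul]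
  rw [h3] at h2
  have := (abs_le.1 h2).1
  linarith

namespace Fx

variable {h nT nx : ℕ} {S : Fx h nT nx}

theorem Ok.pos (hS : S.Ok) : ∀ᶠ η : ℝ in 𝓝[>] 0, ∀ p ∈ cube (DD h), ∀ s s' : ℝ,
    s ∈ Icc (0 : ℝ) 1 → s' ∈ Icc (0 : ℝ) 1 → ∀ u N, u none = 0 → (∀ v, |u v| ≤ N) →
      (∃ v, |u v| = N) → ∀ (ρ : S.Rp η p s N u) (ρ' : S.Rp η p s' N u),
      S.aa η / 4 * N ^ 2 ≤ ∑ v, ∫ w, S.μ η p v w * (ρ.φ v w * ρ'.φ v w) := by
  obtain ⟨C, hC, hb⟩ := hS.bnd
  set K : ℝ := (Fintype.card (DD h × Bool) : ℝ) with hK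
  set K' : ℝ := 13 * (Fintype.card (Fin h × DD h) : ℝ) * S.A with hK'
  have hA : 0 ≤ S.A := zero_le_one.trans hS.ctl.one_le
  have hK0 : 0 ≤ K := by positivity
  have hK0' : 0 ≤ K' := by positivity
  filter_upwards [hb, hS.m_ev, hS.est, ev_small (c := 1) one_pos,
    ev_pow C (a := 9) (b := 0) (by norm_num),
    ev_pow (24 * K * (h + 1) * C) (a := 9) (b := 0) (by norm_num),
    ev_pow (8 * K' * C ^ 2) (a := 12) (b := 0) (by norm_num)] with η hb hm hE hη e1 e2 e3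
  intro p hp s s' hs hs' u N hu0 huN hmax ρ ρ'
  obtain ⟨η0, η1⟩ := hη
  rw [pow_zero] at e1 e2 e3
  have ha : S.aa η ≤ η ^ 10 := S.aa_le hS η0 η1
  have ha0 : 0 < S.aa η := pow_pos η0 _
  have hN0 : 0 ≤ N := (abs_nonneg _).trans (huN none)
  have hq : S.aa η / η ≤ η ^ 9 := by
    rw [div_le_iff₀ η0]; exact ha.trans (le_of_eq (by ring))
  have hq0 : 0 ≤ S.aa η / η := by positivity
  set E : ℝ := C * (S.aa η / η * N) with hEd
  have hE0 : 0 ≤ E := by positivity
  have hE9 : E ≤ C * η ^ 9 * N := by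
    rw [hEd, mul_assoc]
    exact mul_le_mul_of_nonneg_left (mul_le_mul_of_nonneg_right hq hN0) hC
  have hEN : E ≤ N := hE9.trans (by nlinarith)
  obtain ⟨b1, -, b3, -⟩ := hb p hp s hs N u huN ρ
  obtain ⟨b1', -, b3', -⟩ := hb p hp s' hs' N u huN ρ'
  have hest := hE p hp
  have hB := hest.bump
  -- small spheres
  have hsm : ∀ v : DD h × Bool, S.aa η / 2 * u (some v) ^ 2 - (h + 1) * S.aa η * (3 * N * E) ≤
      ∫ w, S.μ η p (some v) w * (ρ.φ (some v) w * ρ'.φ (some v) w) := by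
    intro v
    have h1 := EvPos_small (hB.pb (some v)) (hB.nonneg _) (hB.int _) (ρ.cont (some v))
      (ρ'.cont (some v)) (fun w hw => b1 v w (hB.supp _ w hw))
      (fun w hw => b1' v w (hB.supp _ w hw)) (huN _) hE0 hEN
    have h2 : ∫ w, S.μ η p (some v) w * (ρ.φ (some v) w * ρ'.φ (some v) w) =
        S.m η p v.1 * ∫ w, S.β η (some v) w * (ρ.φ (some v) w * ρ'.φ (some v) w) := by
      rw [← integral_const_mul]
      refine integral_congr_ae (Eventually.of_forall fun w => ?_)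
      simp only [μ, β]
      ring
    obtain ⟨m1, m2⟩ := hm p hp v.1
    have m0 : 0 ≤ S.m η p v.1 := le_trans (by positivity) m1
    have h3 := mul_le_mul_of_nonneg_left h1 m0
    have h4 : S.aa η / 2 * u (some v) ^ 2 ≤ S.m η p v.1 * u (some v) ^ 2 :=
      mul_le_mul_of_nonneg_right m1 (sq_nonneg _)
    have h5 : S.m η p v.1 * (3 * N * E) ≤ (h + 1) * S.aa η * (3 * N * E) :=
      mul_le_mul_of_nonneg_right m2 (by positivity)
    rw [h2]
    rw [mul_sub] at h3
    linarith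
  -- big sphere
  have hbig : |∫ w, S.μ η p none w * (ρ.φ none w * ρ'.φ none w)| ≤ S.mm η none * (E * E) := by
    refine abs_integral_mul_le (φ := fun w => ρ.φ none w * ρ'.φ none w)
      (hest.μ_pb none).integrable (by positivity) (hest.mass none) fun w hw => ?_
    have h1 := b3 w (hest.μ_supp _ w hw)
    have h2 := b3' w (hest.μ_supp _ w hw)
    rw [hu0, abs_zero, mul_zero, add_zero, sub_zero] at h1 h2
    rw [abs_mul]
    exact mul_le_mul h1 h2 (abs_nonneg _) hE0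
  have hbig2 : S.mm η none * (E * E) ≤ S.aa η / 8 * N ^ 2 := by
    have h1 : S.mm η none * (E * E) =
        S.aa η / 8 * N ^ 2 * (8 * K' * C ^ 2 * (η ^ 2 * S.aa η)) := by
      simp only [mm, hEd, ← hK']
      field_simp
    have h2 : η ^ 2 * S.aa η ≤ η ^ 12 :=
      (mul_le_mul_of_nonneg_left ha (by positivity)).trans (le_of_eq (by ring))
    have h3 : 8 * K' * C ^ 2 * (η ^ 2 * S.aa η) ≤ 1 :=
      (mul_le_mul_of_nonneg_left h2 (by positivity)).trans e3
    rw [h1]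
    exact mul_le_of_le_one_right (by positivity) h3
  have hsq : N ^ 2 ≤ ∑ v : DD h × Bool, u (some v) ^ 2 := by
    obtain ⟨v, hv⟩ := hmax
    cases v with
    | none =>
      rw [hu0, abs_zero] at hv
      rw [← hv, zero_pow two_ne_zero]
      exact Finset.sum_nonneg fun v _ => sq_nonneg _
    | some v =>
      rw [← hv, sq_abs]
      exact Finset.single_le_sum (f := fun v : DD h × Bool => u (some v) ^ 2)
        (fun v _ => sq_nonneg _) (Finset.mem_univ v)
  have hsum := Finset.sum_le_sum (s := Finset.univ) fun v _ => hsm v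
  rw [Finset.sum_sub_distrib, ← Finset.mul_sum, Finset.sum_const, Finset.card_univ,
    nsmul_eq_mul, ← hK] at hsum
  have herr : K * ((h + 1) * S.aa η * (3 * N * E)) ≤ S.aa η / 8 * N ^ 2 := by
    have h1 : K * ((h + 1) * S.aa η * (3 * N * E)) ≤
        K * ((h + 1) * S.aa η * (3 * N * (C * η ^ 9 * N))) := by gcongr
    have h2 : K * ((h + 1) * S.aa η * (3 * N * (C * η ^ 9 * N))) =
        S.aa η / 8 * N ^ 2 * (24 * K * (h + 1) * C * η ^ 9) := by ring
    rw [h2] at h1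
    exact h1.trans (mul_le_of_le_one_right (by positivity) e2)
  have h6 : S.aa η / 2 * N ^ 2 ≤ S.aa η / 2 * ∑ v : DD h × Bool, u (some v) ^ 2 :=
    mul_le_mul_of_nonneg_left hsq (by positivity)
  have h7 := (abs_le.1 (hbig.trans hbig2)).1
  rw [Fintype.sum_option]
  linarith

end Fx

end Pool.Agent.MP_4f0ed6_gt
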