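import Pool.Agent.MP_4f0ed6_gt.Bnd
import Pool.Agent.MP_4f0ed6_gt.EvAlg

open Set Laplacian Filter Topology MeasureTheory Metric InnerProductSpace
open scoped ContDiff

namespace Pool.Agent.MP_4f0ed6_gt

namespace Fx

variable {h nT nx : ℕ} {S : Fx h nT nx}

theorem Even_small {η s N : ℝ} {p : DD h × DD h → ℝ} {u : Option (DD h × Bool) → ℝ}
    (ρ : S.Rp η p s N u) (v : DD h × Bool) :
    ∫ w, S.μ η p (some v) w * ρ.φ (some v) w = S.m η p v.1 * u (some v) := by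
  rw [← ρ.norm (some v), ← integral_const_mul]
  refine integral_congr_ae (Eventually.of_forall fun w => ?_)
  simp only [μ, β, mul_assoc]

theorem Even_mass {η s N K B : ℝ} {p : DD h × DD h → ℝ} {u : Option (DD h × Bool) → ℝ}
    (hE : (S.Q η).Est (S.β η) (S.μ η p) η⁻¹ (S.mm η)) (hs : 0 < s) (ρ : S.Rp η p s N u)
    (ht : ∀ v, ρ.t v = 0) (hB : 0 ≤ B) (hK : S.mm η none = K)
    (hφ : ∀ w ∈ (S.Q η).core none, |ρ.φ none w - u none| ≤ B) :
    |∑ v, S.m η p v.1 * u (some v) + (∫ w, S.μ η p none w) * u none| ≤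
      K * B + Fintype.card (Option (DD h × Bool)) * (S.aa η ^ 3 * N) := by
  have h1 := ρ.sum_t hE.ok
  simp only [ht, Finset.sum_const_zero] at h1
  have h2 := (mul_eq_zero.1 h1.symm).resolve_left hs.ne'
  rw [Finset.sum_add_distrib, Fintype.sum_option] at h2
  simp only [Even_small] at h2
  have h3 : |∑ v, ρ.e v| ≤ Fintype.card (Option (DD h × Bool)) * (S.aa η ^ 3 * N) := by
    refine (Finset.abs_sum_le_sum_abs _ _).trans ?_
    refine (Finset.sum_le_sum fun v _ => ρ.e_le v).trans ?_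
    rw [Finset.sum_const, Finset.card_univ, nsmul_eq_mul]
  have hpb := hE.μ_pb none
  have h4 := abs_integral_mul_le (φ := fun w => ρ.φ none w - u none) hpb.integrable hB
    (hE.mass none) fun w k => hφ w (hE.μ_supp none w k)
  have h5 : Integrable fun w => S.μ η p none w * ρ.φ none w :=
    (hpb.cont.mul (ρ.cont none)).integrable_of_hasCompactSupport hpb.hcs.mul_right
  simp only [mul_sub] at h4
  rw [integral_sub h5 (hpb.integrable.mul_const _), integral_mul_const, hK] at h4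
  have h6 := abs_le.1 h3
  have h7 := abs_le.1 h4
  rw [abs_le]
  constructor <;> linarith [h6.1, h6.2, h7.1, h7.2]

theorem Ok.even (hS : S.Ok) : ∀ᶠ η : ℝ in 𝓝[>] 0, ∀ p ∈ cube (DD h), ∀ s : ℝ, 0 < s → s ≤ 1 →
    ∀ u N, (∀ v, u (iV v) = u v) → (∀ v, |u v| ≤ N) → (∃ v, |u v| = N) →
      ∀ ρ : S.Rp η p s N u, (∀ v, ρ.t v = 0) → N = 0 := by
  obtain ⟨Cb, hCb, evb⟩ := hS.bnd
  obtain ⟨Cf, hCf, evf⟩ := hS.first
  obtain ⟨K, hK⟩ : ∃ K : ℝ, K = 13 * Fintype.card (Fin h × DD h) * S.A := ⟨_, rfl⟩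
  obtain ⟨cV, hcV⟩ : ∃ c : ℝ, c = Fintype.card (Option (DD h × Bool)) := ⟨_, rfl⟩
  have hA : 0 ≤ S.A := zero_le_one.trans hS.ctl.one_le
  have hK0 : 0 ≤ K := by rw [hK]; positivity
  have hcV0 : 0 ≤ cV := by rw [hcV]; positivity
  have hh0 : (0 : ℝ) ≤ h := Nat.cast_nonneg _
  have hKC : 0 ≤ K * Cb := mul_nonneg hK0 hCb
  filter_upwards [evb, evf, hS.est, ev_small one_pos,
    even_alg (X := DD h × Bool) (h + K + Cf + (K * Cb + cV)) hS.graph.θ_nonneg]
    with η eb ef ee ⟨h0, h1⟩ ea p hp s hs0 hs1 u N hu hN hex ρ ht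
  have hs : s ∈ Icc (0 : ℝ) 1 := ⟨hs0.le, hs1⟩
  have hE := ee p hp
  have ha : 0 < S.aa η := pow_pos h0 _
  have ha' := S.aa_le hS h0 h1
  have hN0 : 0 ≤ N := (abs_nonneg _).trans (hN none)
  have hy0 : 0 ≤ |u none| := abs_nonneg _
  obtain ⟨hσ1, hσ2⟩ := S.sum_aj hS h0 h1
  have hmm : S.mm η none = K * η ^ 4 := by rw [hK]; rfl
  refine ea (S.aa η) (∑ j, S.aj η j) s (u none) N (∫ w, S.μ η p none w)
    (fun v => S.m η p v.1) (fun v => u (some v)) (Lap S.Pm fun v => u (some v)) ha ha' hσ1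
    (hσ2.trans (mul_le_mul_of_nonneg_right (by linarith) ha.le)) (fun v => ?_) hs0 hs1
    (hS.mass_Y h0 hp) ?_ (fun v => hN _) ?_ (fun v => ?_) ?_
    (hS.graph.even _ fun v => hu (some v))
  · rw [← S.am_eq h0, ← S.ad_eq h0]
    have h2 : S.m η p v.1 - ∑ j, S.aj η j - S.θ * S.am η = S.ad η * p (v.1, v.1) := by
      rw [m]; ring
    have h3 : 0 < S.ad η := pow_pos h0 _
    rw [h2, abs_mul, abs_of_pos h3]
    exact mul_le_of_le_one_right h3.le (hp _)
  · have h2 : ∫ w, S.μ η p none w ≤ ∫ w, |S.μ η p none w| :=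
      (le_abs_self _).trans abs_integral_le_integral_abs
    refine (h2.trans (hE.mass none)).trans ?_
    rw [hmm]
    exact mul_le_mul_of_nonneg_right (by linarith) (pow_pos h0 _).le
  · obtain ⟨v, hv⟩ := hex
    rcases v with _ | v
    · exact Or.inr hv
    · exact Or.inl ⟨v, hv⟩
  · have h2 := ef p hp s hs N u hN ρ v
    rw [ht, zero_sub, abs_neg, S.am_eq h0] at h2
    exact h2.trans (mul_le_mul_of_nonneg_right (by linarith) (by positivity))
  · have h2 := Even_mass hE hs0 ρ ht (by positivity) hmm (eb p hp s hs N u hN ρ).2.2.1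
    rw [← hcV] at h2
    refine h2.trans ?_
    have h3 : K * η ^ 4 * (Cb * (S.aa η / η * N + η ^ 3 * |u none|)) =
        K * Cb * (η ^ 3 * S.aa η * N + η ^ 7 * |u none|) := by
      field_simp
    have h4 : S.aa η ^ 2 ≤ η ^ 3 :=
      calc S.aa η ^ 2 ≤ (η ^ 10) ^ 2 := pow_le_pow_left₀ ha.le ha' 2
        _ = η ^ 20 := by ring
        _ ≤ η ^ 3 := pow_le_pow_of_le_one h0.le h1 (by norm_num)
    have h5 : S.aa η ^ 3 * N ≤ η ^ 3 * S.aa η * N + η ^ 7 * |u none| := by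
      have h6 := mul_le_mul_of_nonneg_right h4 (mul_nonneg ha.le hN0)
      have h7 : 0 ≤ η ^ 7 * |u none| := by positivity
      nlinarith
    have h6 := mul_le_mul_of_nonneg_left h5 hcV0
    have h7 : 0 ≤ (h + K + Cf) * (η ^ 3 * S.aa η * N + η ^ 7 * |u none|) := by positivity
    rw [h3]
    nlinarith

end Fx

end Pool.Agent.MP_4f0ed6_gt
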