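import Pool.Agent.MP_4f0ed6_gt.PlGeo

open Set Laplacian Filter Topology MeasureTheory Metric InnerProductSpace
open scoped ContDiff

namespace Pool.Agent.MP_4f0ed6_gt

section
variable {V P : Type} [Fintype P] {Q : Plumb V P}

open Classical in
/-- the linear part of the fixed point equation -/
noncomputable def FFix_L (Q : Plumb V P) (F : P → ℂ → ℂ) (π : P) (x : ℂ) : ℂ :=
  ∑ π' ∈ (Q.pts (Q.pc π)).erase π,
    -(Q.ε π' / (Q.c π + x - Q.c π') ^ 2 * F (Q.σ π') (Q.ε π' / (Q.c π + x - Q.c π')))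

open Classical in
theorem FFix_near (hQ : Q.Ok) {π π' : P} (h : π' ∈ (Q.pts (Q.pc π)).erase π) {x : ℂ}
    (hx : ‖x‖ < Q.sep / 4) : Q.sep / 2 ≤ ‖Q.c π + x - Q.c π'‖ ∧ Q.c π + x - Q.c π' ≠ 0 ∧
      ‖Q.ε π' / (Q.c π + x - Q.c π')‖ < Q.sep / 4 ∧
      ‖Q.ε π' / (Q.c π + x - Q.c π') ^ 2‖ ≤ 1 / (2 * Q.n) := by
  have hs := hQ.sep_pos
  have h1 := (hQ.near (Finset.ne_of_mem_erase h) (Plumb.mem_pts.1 (Finset.mem_of_mem_erase h))
    (x := x) (by linarith)).1
  have h2 : 0 < ‖Q.c π + x - Q.c π'‖ := by linarith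
  have h3 := hQ.r_le' π'
  have h4 := hQ.r_le π'
  have h5 := Plumb.r_pos (Q := Q) π'
  have h6 := Plumb.one_le_n (Q := Q)
  refine ⟨h1, norm_pos_iff.1 h2, ?_, ?_⟩
  · rw [norm_div, Plumb.norm_ε, div_lt_iff₀ h2]
    nlinarith
  · rw [norm_div, norm_pow, Plumb.norm_ε, div_le_div_iff₀ (by positivity) (by positivity)]
    have h7 : Q.r π' * (Q.n * Q.r π') ≤ Q.sep / 16 * (Q.sep / 16) :=
      mul_le_mul (by linarith) (by linarith) (by positivity) (by positivity)
    nlinarith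

open Classical in
theorem FFix_diff (hQ : Q.Ok) {F : P → ℂ → ℂ}
    (hF : ∀ π, DifferentiableOn ℂ (F π) {x | ‖x‖ < Q.sep / 4}) (π : P) :
    DifferentiableOn ℂ (FFix_L Q F π) {x | ‖x‖ < Q.sep / 4} := by
  unfold FFix_L
  refine DifferentiableOn.fun_sum fun π' h => ?_
  have h1 : DifferentiableOn ℂ (fun x => Q.c π + x - Q.c π') {x | ‖x‖ < Q.sep / 4} := by fun_prop
  refine (DifferentiableOn.mul ((differentiableOn_const _).div (h1.pow 2) fun x hx =>
    pow_ne_zero _ (FFix_near hQ h hx).2.1) ?_).neg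
  exact (hF _).comp ((differentiableOn_const _).div h1 fun x hx => (FFix_near hQ h hx).2.1)
    fun x hx => (FFix_near hQ h hx).2.2.1

open Classical in
theorem FFix_bound (hQ : Q.Ok) {F : P → ℂ → ℂ} {C : ℝ} (hC : 0 ≤ C)
    (hF : ∀ π x, ‖x‖ < Q.sep / 4 → ‖F π x‖ ≤ C) (π : P) (x : ℂ) (hx : ‖x‖ < Q.sep / 4) :
    ‖FFix_L Q F π x‖ ≤ C / 2 := by
  have h6 := Plumb.one_le_n (Q := Q)
  refine (norm_sum_le _ _).trans ((Finset.sum_le_card_nsmul _ _ (1 / (2 * Q.n) * C)
    fun π' h => ?_).trans ?_)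
  · rw [norm_neg, norm_mul]
    exact mul_le_mul (FFix_near hQ h hx).2.2.2 (hF _ _ (FFix_near hQ h hx).2.2.1) (norm_nonneg _)
      (by positivity)
  · have h1 : (((Q.pts (Q.pc π)).erase π).card : ℝ) ≤ Q.n :=
      (Nat.cast_le.2 Finset.card_erase_le).trans (Plumb.card_pts_le _)
    rw [nsmul_eq_mul]
    refine (mul_le_mul_of_nonneg_right h1 (by positivity)).trans_eq ?_
    field_simp

end

open Classical in
theorem Plumb.Ok.form_fix {V P : Type} [Fintype P] {Q : Plumb V P} (hQ : Q.Ok) (b : P → ℂ) :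
    ∃ H : P → ℂ → ℂ, (∀ π, DifferentiableOn ℂ (H π) {x | ‖x‖ < Q.sep / 4}) ∧
      ∀ π (x : ℂ), ‖x‖ < Q.sep / 4 → H π x = ∑ π' ∈ (Q.pts (Q.pc π)).erase π,
        (b π' / (Q.c π + x - Q.c π') - Q.ε π' / (Q.c π + x - Q.c π') ^ 2 *
          H (Q.σ π') (Q.ε π' / (Q.c π + x - Q.c π'))) := by
  have hs := hQ.sep_pos
  let D0 : P → ℂ → ℂ := fun π x => ∑ π' ∈ (Q.pts (Q.pc π)).erase π, b π' / (Q.c π + x - Q.c π')
  let C : ℝ := ∑ π', ‖b π'‖ / (Q.sep / 2)
  have hC : 0 ≤ C := Finset.sum_nonneg fun _ _ => by positivity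
  let D : ℕ → P → ℂ → ℂ := fun k => (FFix_L Q)^[k] D0
  have hD : ∀ k, D (k + 1) = FFix_L Q (D k) := fun k => Function.iterate_succ_apply' _ _ _
  have h1 : ∀ k π, DifferentiableOn ℂ (D k π) {x | ‖x‖ < Q.sep / 4} := by
    intro k
    induction k with
    | zero =>
      intro π
      refine DifferentiableOn.fun_sum fun π' h => ?_
      exact (differentiableOn_const _).div (by fun_prop) fun x hx => (FFix_near hQ h hx).2.1
    | succ k ih => rw [hD]; exact FFix_diff hQ ih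
  have h2 : ∀ k π x, ‖x‖ < Q.sep / 4 → ‖D k π x‖ ≤ C * (1 / 2) ^ k := by
    intro k
    induction k with
    | zero =>
      intro π x hx
      rw [pow_zero, mul_one]
      refine (norm_sum_le _ _).trans ((Finset.sum_le_sum fun π' h => ?_).trans
        (Finset.sum_le_sum_of_subset_of_nonneg (Finset.subset_univ _) fun _ _ _ => by positivity))
      rw [norm_div]
      exact div_le_div_of_nonneg_left (norm_nonneg _) (by positivity) (FFix_near hQ h hx).1
    | succ k ih =>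
      intro π x hx
      rw [hD]
      exact (FFix_bound hQ (by positivity) ih π x hx).trans_eq (by ring)
  have h3 : Summable fun k : ℕ => C * (1 / 2 : ℝ) ^ k := summable_geometric_two.mul_left C
  have h4 : ∀ π x, ‖x‖ < Q.sep / 4 → Summable fun k => D k π x := fun π x hx =>
    Summable.of_norm_bounded h3 fun k => h2 k π x hx
  refine ⟨fun π x => ∑' k, D k π x, fun π => ?_, fun π x hx => ?_⟩
  · exact Complex.differentiableOn_tsum_of_summable_norm h3 (fun k => h1 k π)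
      (isOpen_lt continuous_norm continuous_const) fun k x hx => h2 k π x hx
  · show ∑' k, D k π x = _
    rw [(h4 π x hx).tsum_eq_zero_add]
    simp only [hD, sub_eq_add_neg (b _ / _), Finset.sum_add_distrib]
    congr 1
    unfold FFix_L
    rw [Summable.tsum_finsetSum fun π' h =>
      ((h4 _ _ (FFix_near hQ h hx).2.2.1).mul_left _).neg]
    refine Finset.sum_congr rfl fun π' _ => ?_
    rw [tsum_neg, tsum_mul_left]

end Pool.Agent.MP_4f0ed6_gt
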