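import Pool.Agent.MP_4f0ed6_gt.Tube

open Set Laplacian Filter Topology MeasureTheory Metric InnerProductSpace
open scoped ContDiff

namespace Pool.Agent.MP_4f0ed6_gt

open Classical in
/-- the contribution of the other ports near the port `π` -/
noncomputable def FInjIn {V P : Type} [Fintype P] (Q : Plumb V P) (A : P → ℂ → ℂ) (π : P)
    (y : ℂ) : ℂ :=
  ∑ π' ∈ (Q.pts (Q.pc π)).erase π, A π' (Q.c π + y)

theorem FInj_tube {V P : Type} [Fintype P] {Q : Plumb V P} (hQ : Q.Ok)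
    {f : V × Bool → ℂ → ℂ} (hf : f ∈ Q.glue.forms) (h0 : ∀ π, Q.res f π = 0)
    {A : P → ℂ → ℂ} (hA : Q.Splits f A) (π : P) (x : ℂ) (hx : 3 / 4 * Q.r π < ‖x‖) :
    A π (Q.c π + x) = -(Q.ε π / x ^ 2 * FInjIn Q A (Q.σ π) (Q.ε π / x)) := by
  rw [(Plumb.Splits.tube hQ hf hA π).2 x hx, h0 π, FInjIn]
  simp

theorem FInj_cont {V P : Type} [Fintype P] {Q : Plumb V P} (hQ : Q.Ok)
    {f : V × Bool → ℂ → ℂ} {A : P → ℂ → ℂ} (hA : Q.Splits f A) (π : P) :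
    ContinuousOn (FInjIn Q A π) (closedBall 0 (Q.sep / 4)) := by
  classical
  unfold FInjIn
  refine continuousOn_finsetSum _ fun π' hπ' => ?_
  have hne : π' ≠ π := Finset.ne_of_mem_erase hπ'
  have hp : Q.pc π' = Q.pc π := Plumb.mem_pts.1 (Finset.mem_of_mem_erase hπ')
  refine (hA.hol π').continuousOn.comp (continuous_const.add continuous_id).continuousOn ?_
  intro y hy
  have hy' : ‖y‖ ≤ Q.sep / 4 := by simpa using hy
  have hs := hQ.sep_pos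
  have h1 := (hQ.near hne hp (x := y) (by linarith)).1
  have h2 := hQ.r_le' π'
  show 3 / 4 * Q.r π' < ‖Q.c π + y - Q.c π'‖
  linarith

theorem FInj_half {V P : Type} [Fintype P] {Q : Plumb V P} (hQ : Q.Ok)
    {f : V × Bool → ℂ → ℂ} (hf : f ∈ Q.glue.forms) (h0 : ∀ π, Q.res f π = 0)
    {A : P → ℂ → ℂ} (hA : Q.Splits f A) {q : ℝ} (hq0 : 0 ≤ q)
    (hq : ∀ π (y : ℂ), ‖y‖ ≤ Q.sep / 4 → ‖FInjIn Q A π y‖ ≤ q) (π : P) (y : ℂ)
    (hy : ‖y‖ ≤ Q.sep / 4) : ‖FInjIn Q A π y‖ ≤ q * (1 / 2) := by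
  classical
  have hs := hQ.sep_pos
  have hn : 1 ≤ Q.n := Plumb.one_le_n
  have key : ∀ π' ∈ (Q.pts (Q.pc π)).erase π, ‖A π' (Q.c π + y)‖ ≤ q * (1 / 2) / Q.n := by
    intro π' hπ'
    have hne : π' ≠ π := Finset.ne_of_mem_erase hπ'
    have hp : Q.pc π' = Q.pc π := Plumb.mem_pts.1 (Finset.mem_of_mem_erase hπ')
    have h1 := (hQ.near hne hp (x := y) (by linarith)).1
    have h2 := hQ.r_le' π'
    have h3 := hQ.r_le π'
    have hr := Plumb.r_pos (Q := Q) π'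
    set x := Q.c π + y - Q.c π' with hxdef
    have hx : Q.c π + y = Q.c π' + x := by rw [hxdef]; ring
    have hxpos : 0 < ‖x‖ := by linarith
    rw [hx, FInj_tube hQ hf h0 hA π' x (by linarith), norm_neg, norm_mul]
    have hb : ‖Q.ε π' / x‖ ≤ Q.sep / 4 := by
      rw [norm_div, Plumb.norm_ε, div_le_iff₀ hxpos]
      nlinarith
    have hc : ‖Q.ε π' / x ^ 2‖ ≤ 1 / 2 / Q.n := by
      rw [norm_div, Plumb.norm_ε, norm_pow, div_le_div_iff₀ (by positivity) (by linarith)]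
      have h4 : 8 * (Q.n * Q.r π') ≤ ‖x‖ := by linarith
      have h5 : Q.r π' ≤ Q.n * Q.r π' := by nlinarith
      have h6 : (8 * (Q.n * Q.r π')) ^ 2 ≤ ‖x‖ ^ 2 :=
        pow_le_pow_left₀ (by positivity) h4 2
      have h7 : Q.r π' * (Q.n * Q.r π') ≤ (Q.n * Q.r π') * (Q.n * Q.r π') :=
        mul_le_mul_of_nonneg_right h5 (by positivity)
      nlinarith
    calc ‖Q.ε π' / x ^ 2‖ * ‖FInjIn Q A (Q.σ π') (Q.ε π' / x)‖ ≤ 1 / 2 / Q.n * q :=
          mul_le_mul hc (hq _ _ hb) (norm_nonneg _) (by positivity)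
      _ = q * (1 / 2) / Q.n := by ring
  have hcard : (((Q.pts (Q.pc π)).erase π).card : ℝ) ≤ Q.n :=
    le_trans (by exact_mod_cast Finset.card_erase_le) (Plumb.card_pts_le _)
  calc ‖FInjIn Q A π y‖ ≤ ∑ π' ∈ (Q.pts (Q.pc π)).erase π, ‖A π' (Q.c π + y)‖ := by
        unfold FInjIn
        convert norm_sum_le _ _
    _ ≤ ((Q.pts (Q.pc π)).erase π).card • (q * (1 / 2) / Q.n) :=
        Finset.sum_le_card_nsmul _ _ _ key
    _ = (((Q.pts (Q.pc π)).erase π).card : ℝ) * (q * (1 / 2) / Q.n) := by rw [nsmul_eq_mul]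
    _ ≤ Q.n * (q * (1 / 2) / Q.n) := mul_le_mul_of_nonneg_right hcard (by positivity)
    _ = q * (1 / 2) := by field_simp

theorem FInj_in_zero {V P : Type} [Fintype P] {Q : Plumb V P} (hQ : Q.Ok)
    {f : V × Bool → ℂ → ℂ} (hf : f ∈ Q.glue.forms) (h0 : ∀ π, Q.res f π = 0)
    {A : P → ℂ → ℂ} (hA : Q.Splits f A) (π : P) (y : ℂ) (hy : ‖y‖ ≤ Q.sep / 4) :
    FInjIn Q A π y = 0 := by
  have hb : ∀ π, ∃ C, ∀ y ∈ closedBall (0 : ℂ) (Q.sep / 4), ‖FInjIn Q A π y‖ ≤ C := fun π =>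
    (isCompact_closedBall _ _).exists_bound_of_continuousOn (FInj_cont hQ hA π)
  choose C hC using hb
  have hC0 : 0 ≤ ∑ π, |C π| := Finset.sum_nonneg fun _ _ => abs_nonneg _
  have hk : ∀ k : ℕ, ∀ π (y : ℂ), ‖y‖ ≤ Q.sep / 4 →
      ‖FInjIn Q A π y‖ ≤ (∑ π, |C π|) * (1 / 2) ^ k := by
    intro k
    induction k with
    | zero =>
      intro π y hy
      have h1 := hC π y (by simpa using hy)
      have h2 : |C π| ≤ ∑ π, |C π| :=
        Finset.single_le_sum (f := fun π => |C π|) (fun _ _ => abs_nonneg _) (Finset.mem_univ π)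
      have h3 := le_abs_self (C π)
      simp only [pow_zero, mul_one]
      linarith
    | succ k ih =>
      intro π y hy
      rw [pow_succ, ← mul_assoc]
      exact FInj_half hQ hf h0 hA (by positivity) ih π y hy
  have hl : Tendsto (fun k : ℕ => (∑ π, |C π|) * (1 / 2 : ℝ) ^ k) atTop (𝓝 0) := by
    have := (tendsto_pow_atTop_nhds_zero_of_lt_one (r := (1 / 2 : ℝ)) (by norm_num)
      (by norm_num)).const_mul (∑ π, |C π|)
    simpa using this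
  exact norm_le_zero_iff.1 (ge_of_tendsto' hl fun k => hk k π y hy)

theorem FInj_far {V P : Type} [Fintype P] {Q : Plumb V P} (hQ : Q.Ok)
    {f : V × Bool → ℂ → ℂ} (hf : f ∈ Q.glue.forms) (h0 : ∀ π, Q.res f π = 0) (v : V) (w : ℂ)
    (hw : ‖w‖ < 2) (hfar : ∀ π, Q.pc π = v → 3 / 4 * Q.r π < ‖w - Q.c π‖) :
    f (v, false) w = 0 := by
  obtain ⟨⟨A, hA⟩, -⟩ := Plumb.exists_splits hQ hf
  rw [hA.eq v w hw hfar]
  refine Finset.sum_eq_zero fun π hπ => ?_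
  have h1 := hfar π (Plumb.mem_pts.1 hπ)
  have h2 := hQ.r_le' π
  have hr := Plumb.r_pos (Q := Q) π
  have hx : w = Q.c π + (w - Q.c π) := by ring
  have hxpos : 0 < ‖w - Q.c π‖ := by linarith
  have hb : ‖Q.ε π / (w - Q.c π)‖ ≤ Q.sep / 4 := by
    rw [norm_div, Plumb.norm_ε, div_le_iff₀ hxpos]
    nlinarith
  rw [hx, FInj_tube hQ hf h0 hA π _ h1, FInj_in_zero hQ hf h0 hA _ _ hb]
  simp

theorem FInj_false {V P : Type} [Fintype P] {Q : Plumb V P} (hQ : Q.Ok)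
    {f : V × Bool → ℂ → ℂ} (hf : f ∈ Q.glue.forms) (h0 : ∀ π, Q.res f π = 0) (v : V) (w : ℂ) :
    f (v, false) w = 0 := by
  by_cases hw : w ∈ Q.W (v, false)
  swap
  · exact hf.2.1 (v, false) w hw
  by_cases hfar : ∀ π, Q.pc π = v → 3 / 4 * Q.r π < ‖w - Q.c π‖
  · exact FInj_far hQ hf h0 v w hw.1 hfar
  push Not at hfar
  obtain ⟨π, hπ, hle⟩ := hfar
  have hlt : Q.r π / 2 < ‖w - Q.c π‖ := hw.2 π hπ
  have hr := Plumb.r_pos (Q := Q) π
  have h2 := hQ.r_le' π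
  have hs := hQ.sep_pos
  have hs' := hQ.sep_le
  have hxpos : 0 < ‖w - Q.c π‖ := by linarith
  have hO : w ∈ Q.glue.O (Sum.inl π) := ⟨hlt, by linarith⟩
  have hc : f (Q.pc π, false) w =
      f (Q.pc (Q.σ π), false) (Q.c (Q.σ π) + Q.ε π / (w - Q.c π)) *
        deriv (Q.glue.τ (Sum.inl π)) w := hf.2.2 (Sum.inl π) w hO
  have hy1 : ‖Q.ε π / (w - Q.c π)‖ ≤ 2 * Q.r π := by
    rw [norm_div, Plumb.norm_ε, div_le_iff₀ hxpos]
    nlinarith
  have hy2 : Q.r π ≤ ‖Q.ε π / (w - Q.c π)‖ := by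
    rw [norm_div, Plumb.norm_ε, le_div_iff₀ hxpos]
    nlinarith
  have hz : f (Q.pc (Q.σ π), false) (Q.c (Q.σ π) + Q.ε π / (w - Q.c π)) = 0 := by
    refine FInj_far hQ hf h0 _ _ ?_ ?_
    · have h3 := norm_add_le (Q.c (Q.σ π)) (Q.ε π / (w - Q.c π))
      have h4 := hQ.c_le (Q.σ π)
      linarith
    · intro π' hπ'
      by_cases hne : π' = Q.σ π
      · rw [hne, hQ.r_σ, add_sub_cancel_left]
        linarith
      · have h3 := (hQ.near hne hπ' (x := Q.ε π / (w - Q.c π)) (by linarith)).1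
        have h4 := hQ.r_le' π'
        linarith
  rw [← hπ, hc, hz, zero_mul]

theorem FInj_true {V P : Type} [Fintype P] {Q : Plumb V P} (hQ : Q.Ok)
    {f : V × Bool → ℂ → ℂ} (hf : f ∈ Q.glue.forms) (h0 : ∀ π, Q.res f π = 0) (v : V) (w : ℂ) :
    f (v, true) w = 0 := by
  by_cases hw : w ∈ Q.W (v, true)
  swap
  · exact hf.2.1 (v, true) w hw
  have hW : Q.W (v, true) = ball (0 : ℂ) 2 := by
    ext z
    simp [Plumb.W]
  have hd : DifferentiableOn ℂ (f (v, true)) (ball (0 : ℂ) 2) := hW ▸ hf.1 (v, true)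
  have han : AnalyticOnNhd ℂ (f (v, true)) (ball (0 : ℂ) 2) := hd.analyticOnNhd isOpen_ball
  have hann : ∀ z : ℂ, 1 / 2 < ‖z‖ → ‖z‖ < 2 → f (v, true) z = 0 := by
    intro z h1 h2
    have hO : z ∈ Q.glue.O (Sum.inr (v, true)) := ⟨h1, h2⟩
    have hc : f (v, true) z = f (v, false) z⁻¹ * deriv (Q.glue.τ (Sum.inr (v, true))) z :=
      hf.2.2 (Sum.inr (v, true)) z hO
    rw [hc, FInj_false hQ hf h0, zero_mul]
  have hev : f (v, true) =ᶠ[𝓝 (1 : ℂ)] 0 := by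
    have ho : IsOpen {z : ℂ | 1 / 2 < ‖z‖ ∧ ‖z‖ < 2} :=
      (isOpen_lt continuous_const continuous_norm).inter
        (isOpen_lt continuous_norm continuous_const)
    have hm : (1 : ℂ) ∈ {z : ℂ | 1 / 2 < ‖z‖ ∧ ‖z‖ < 2} := by
      constructor <;> norm_num
    filter_upwards [ho.mem_nhds hm] with z hz using hann z hz.1 hz.2
  exact han.eqOn_zero_of_preconnected_of_eventuallyEq_zero (convex_ball _ _).isPreconnected
    (by simp) hev (hW ▸ hw)

theorem Plumb.Ok.form_inj {V P : Type} [Fintype P] {Q : Plumb V P} (hQ : Q.Ok)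
    {f : V × Bool → ℂ → ℂ} (hf : f ∈ Q.glue.forms) (h0 : ∀ π, Q.res f π = 0) : f = 0 := by
  funext α w
  obtain ⟨v, b⟩ := α
  cases b
  · exact FInj_false hQ hf h0 v w
  · exact FInj_true hQ hf h0 v w

end Pool.Agent.MP_4f0ed6_gt
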