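import Pool.Agent.MP_4f0ed6_gt.FFix

open Set Laplacian Filter Topology MeasureTheory Metric InnerProductSpace
open scoped ContDiff

namespace Pool.Agent.MP_4f0ed6_gt

section FSurj

variable {V P : Type} [Fintype P] {Q : Plumb V P}

/-- the term of a port in the finite chart -/
noncomputable def FSurjT (Q : Plumb V P) (b : P → ℂ) (H : P → ℂ → ℂ) (π : P) (w : ℂ) : ℂ :=
  b π / (w - Q.c π) - Q.ε π / (w - Q.c π) ^ 2 * H (Q.σ π) (Q.ε π / (w - Q.c π))

/-- the term of a port in the chart at infinity -/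
noncomputable def FSurjU (Q : Plumb V P) (b : P → ℂ) (H : P → ℂ → ℂ) (π : P) (w : ℂ) : ℂ :=
  -(b π * Q.c π) / (1 - Q.c π * w) +
    Q.ε π / (1 - Q.c π * w) ^ 2 * H (Q.σ π) (Q.ε π * w / (1 - Q.c π * w))

open Classical in
/-- the form -/
noncomputable def FSurjF (Q : Plumb V P) (b : P → ℂ) (H : P → ℂ → ℂ) : V × Bool → ℂ → ℂ
  | (v, false) => fun w => if w ∈ Q.W (v, false) then ∑ π ∈ Q.pts v, FSurjT Q b H π w else 0
  | (v, true) => fun w => if w ∈ Q.W (v, true) then ∑ π ∈ Q.pts v, FSurjU Q b H π w else 0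

theorem FSurjF_false {b : P → ℂ} {H : P → ℂ → ℂ} {v : V} {w : ℂ} (hw : w ∈ Q.W (v, false)) :
    FSurjF Q b H (v, false) w = ∑ π ∈ Q.pts v, FSurjT Q b H π w := by
  simp only [FSurjF, if_pos hw]

theorem FSurjF_true {b : P → ℂ} {H : P → ℂ → ℂ} {v : V} {w : ℂ} (hw : w ∈ Q.W (v, true)) :
    FSurjF Q b H (v, true) w = ∑ π ∈ Q.pts v, FSurjU Q b H π w := by
  simp only [FSurjF, if_pos hw]

theorem FSurj_small (hQ : Q.Ok) (π : P) {x : ℂ} (hx : Q.r π / 2 < ‖x‖) :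
    x ≠ 0 ∧ ‖Q.ε π / x‖ < 2 * Q.r π := by
  have hr := Plumb.r_pos (Q := Q) π
  have hx0 : 0 < ‖x‖ := by linarith
  refine ⟨norm_pos_iff.1 hx0, ?_⟩
  rw [norm_div, Plumb.norm_ε, div_lt_iff₀ hx0]
  nlinarith

theorem FSurj_big (hQ : Q.Ok) (π : P) {x : ℂ} (hx : Q.r π / 2 < ‖x‖) (hx' : ‖x‖ < 2 * Q.r π) :
    Q.r π / 2 < ‖Q.ε π / x‖ := by
  have hr := Plumb.r_pos (Q := Q) π
  have hx0 : 0 < ‖x‖ := by linarith
  rw [norm_div, Plumb.norm_ε, lt_div_iff₀ hx0]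
  nlinarith

theorem FSurj_open (s : ℝ) : IsOpen {x : ℂ | ‖x‖ < s} :=
  isOpen_lt continuous_norm continuous_const

theorem FSurjT_diff (hQ : Q.Ok) {b : P → ℂ} {H : P → ℂ → ℂ}
    (hH : ∀ π, DifferentiableOn ℂ (H π) {x | ‖x‖ < Q.sep / 4}) (π : P) {w : ℂ}
    (hw : Q.r π / 2 < ‖w - Q.c π‖) : DifferentiableAt ℂ (FSurjT Q b H π) w := by
  obtain ⟨h0, h1⟩ := FSurj_small hQ π hw
  have hr := hQ.r_le' π
  have hs := hQ.sep_pos
  have hm : Q.ε π / (w - Q.c π) ∈ {x : ℂ | ‖x‖ < Q.sep / 4} := by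
    show ‖Q.ε π / (w - Q.c π)‖ < Q.sep / 4
    linarith
  have hd : DifferentiableAt ℂ (H (Q.σ π)) (Q.ε π / (w - Q.c π)) :=
    (hH _).differentiableAt ((FSurj_open _).mem_nhds hm)
  have hx : DifferentiableAt ℂ (fun z : ℂ => z - Q.c π) w := differentiableAt_id.sub_const _
  have hi : DifferentiableAt ℂ (fun z : ℂ => Q.ε π / (z - Q.c π)) w :=
    (differentiableAt_const _).div hx h0
  have hc : DifferentiableAt ℂ (fun z : ℂ => H (Q.σ π) (Q.ε π / (z - Q.c π))) w :=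
    DifferentiableAt.comp (g := H (Q.σ π)) w hd hi
  unfold FSurjT
  exact ((differentiableAt_const _).div hx h0).sub
    (((differentiableAt_const _).div (hx.pow 2) (pow_ne_zero 2 h0)).mul hc)

theorem FSurjU_diff (hQ : Q.Ok) {b : P → ℂ} {H : P → ℂ → ℂ}
    (hH : ∀ π, DifferentiableOn ℂ (H π) {x | ‖x‖ < Q.sep / 4}) (π : P) {w : ℂ}
    (hw : ‖w‖ < 2) : DifferentiableAt ℂ (FSurjU Q b H π) w := by
  have hr := hQ.r_le' π
  have hr0 := Plumb.r_pos (Q := Q) π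
  have hs := hQ.sep_pos
  have hs' := hQ.sep_le
  have hc := hQ.c_le π
  have h1 : ‖Q.c π * w‖ ≤ 1 / 2 := by
    rw [norm_mul]
    nlinarith [norm_nonneg w, norm_nonneg (Q.c π)]
  have h2 : 1 / 2 ≤ ‖1 - Q.c π * w‖ := by
    have := norm_sub_norm_le (1 : ℂ) (Q.c π * w)
    rw [norm_one] at this
    linarith
  have hp : 0 < ‖1 - Q.c π * w‖ := by linarith
  have h0 : 1 - Q.c π * w ≠ 0 := norm_pos_iff.1 hp
  have hm : Q.ε π * w / (1 - Q.c π * w) ∈ {x : ℂ | ‖x‖ < Q.sep / 4} := by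
    show ‖Q.ε π * w / (1 - Q.c π * w)‖ < Q.sep / 4
    rw [norm_div, norm_mul, Plumb.norm_ε, div_lt_iff₀ hp]
    have h3 : Q.r π ^ 2 * ‖w‖ ≤ Q.r π ^ 2 * 2 := mul_le_mul_of_nonneg_left hw.le (by positivity)
    have h4 : Q.r π ^ 2 ≤ Q.sep / 16 * (1 / 64) := by nlinarith
    nlinarith
  have hd : DifferentiableAt ℂ (H (Q.σ π)) (Q.ε π * w / (1 - Q.c π * w)) :=
    (hH _).differentiableAt ((FSurj_open _).mem_nhds hm)
  have hx : DifferentiableAt ℂ (fun z : ℂ => 1 - Q.c π * z) w :=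
    (differentiableAt_id.const_mul _).const_sub _
  have hi : DifferentiableAt ℂ (fun z : ℂ => Q.ε π * z / (1 - Q.c π * z)) w :=
    (differentiableAt_id.const_mul _).div hx h0
  have hc : DifferentiableAt ℂ (fun z : ℂ => H (Q.σ π) (Q.ε π * z / (1 - Q.c π * z))) w :=
    DifferentiableAt.comp (g := H (Q.σ π)) w hd hi
  unfold FSurjU
  exact ((differentiableAt_const _).div hx h0).add
    (((differentiableAt_const _).div (hx.pow 2) (pow_ne_zero 2 h0)).mul hc)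

theorem FSurj_tube_W (hQ : Q.Ok) (π : P) {x : ℂ} (hx : Q.r π / 2 < ‖x‖) (hx' : ‖x‖ < 2 * Q.r π) :
    Q.c π + x ∈ Q.W (Q.pc π, false) := by
  have hr := hQ.r_le' π
  have hs := hQ.sep_pos
  have hs' := hQ.sep_le
  have hc := hQ.c_le π
  refine ⟨?_, fun π' hp => ?_⟩
  · have := norm_add_le (Q.c π) x
    linarith
  · by_cases h : π' = π
    · subst h
      rwa [add_sub_cancel_left]
    · have h1 := (hQ.near h hp (x := x) (by linarith)).1
      have h2 := hQ.r_le' π'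
      linarith

open Classical in
theorem FSurj_tube (hQ : Q.Ok) {b : P → ℂ} {H : P → ℂ → ℂ}
    (hH : ∀ π (x : ℂ), ‖x‖ < Q.sep / 4 → H π x = ∑ π' ∈ (Q.pts (Q.pc π)).erase π,
        (b π' / (Q.c π + x - Q.c π') - Q.ε π' / (Q.c π + x - Q.c π') ^ 2 *
          H (Q.σ π') (Q.ε π' / (Q.c π + x - Q.c π'))))
    (π : P) {x : ℂ} (hx : Q.r π / 2 < ‖x‖) (hx' : ‖x‖ < 2 * Q.r π) :
    FSurjF Q b H (Q.pc π, false) (Q.c π + x) =
      b π / x - Q.ε π / x ^ 2 * H (Q.σ π) (Q.ε π / x) + H π x := by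
  have hr := hQ.r_le' π
  have hs := hQ.sep_pos
  rw [FSurjF_false (FSurj_tube_W hQ π hx hx'),
    ← Finset.add_sum_erase _ _ (Plumb.mem_pts.2 (rfl : Q.pc π = Q.pc π)), hH π x (by linarith)]
  simp only [FSurjT, add_sub_cancel_left]

theorem FSurj_cap_W (hQ : Q.Ok) (v : V) {w : ℂ} (hw : 1 / 2 < ‖w‖) (hw' : ‖w‖ < 2) :
    w ∈ Q.W (v, false) := by
  refine ⟨hw', fun π _ => ?_⟩
  have hr := hQ.r_le' π
  have hs' := hQ.sep_le
  have hc := hQ.c_le π
  have := norm_sub_norm_le w (Q.c π)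
  linarith

theorem FSurj_inv {w : ℂ} (hw : 1 / 2 < ‖w‖) (hw' : ‖w‖ < 2) : 1 / 2 < ‖w⁻¹‖ ∧ ‖w⁻¹‖ < 2 := by
  have h0 : 0 < ‖w‖ := by linarith
  rw [norm_inv]
  constructor
  · rw [lt_inv_comm₀ (by norm_num) h0]
    linarith
  · rw [inv_lt_comm₀ h0 (by norm_num)]
    linarith

theorem FSurj_cap (hQ : Q.Ok) {b : P → ℂ} (hb : b ∈ Q.cyc) (H : P → ℂ → ℂ) (v : V) {w : ℂ}
    (hw : 1 / 2 < ‖w‖) (hw' : ‖w‖ < 2) :
    FSurjF Q b H (v, false) w = FSurjF Q b H (v, true) w⁻¹ * (-(w ^ 2)⁻¹) := by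
  have hW := FSurj_cap_W hQ v hw hw'
  have hW' : w⁻¹ ∈ Q.W (v, true) := (FSurj_inv hw hw').2
  have hw0 : w ≠ 0 := norm_pos_iff.1 (by linarith)
  rw [FSurjF_false hW, FSurjF_true hW', Finset.sum_mul]
  have h0 : ∑ π ∈ Q.pts v, b π / w = 0 := by
    rw [← Finset.sum_div, hb.2 v, zero_div]
  rw [← add_zero (∑ π ∈ Q.pts v, FSurjU Q b H π w⁻¹ * -(w ^ 2)⁻¹), ← h0, ← Finset.sum_add_distrib]
  refine Finset.sum_congr rfl fun π hπ => ?_
  have hx : w - Q.c π ≠ 0 := (FSurj_small hQ π (hW.2 π (Plumb.mem_pts.1 hπ))).1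
  have e1 : 1 - Q.c π * w⁻¹ = (w - Q.c π) / w := by field_simp
  have e2 : Q.ε π * w⁻¹ / ((w - Q.c π) / w) = Q.ε π / (w - Q.c π) := by field_simp
  simp only [FSurjT, FSurjU, e1, e2]
  field_simp
  ring

theorem FSurj_res {c e β : ℂ} {r s : ℝ} (hr : 0 < r) (hrs : r < s) (he : ‖e‖ = r ^ 2)
    {H₀ H₁ F : ℂ → ℂ} (h₀ : DifferentiableOn ℂ H₀ {x | ‖x‖ < s})
    (h₁ : DifferentiableOn ℂ H₁ {x | ‖x‖ < s})
    (hF : ∀ x : ℂ, ‖x‖ = r → F (c + x) = β / x - e / x ^ 2 * H₁ (e / x) + H₀ x) :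
    (2 * Real.pi * Complex.I)⁻¹ * ∮ z in C(c, r), F z = β := by
  have hb : {x : ℂ | ‖x‖ < s} = ball 0 s := by
    ext x
    simp
  rw [hb] at h₀ h₁
  obtain ⟨G₀, hG₀⟩ := h₀.isExactOn_ball
  obtain ⟨G₁, hG₁⟩ := h₁.isExactOn_ball
  have hsp : ∀ z ∈ sphere c r, ‖z - c‖ = r ∧ z - c ≠ 0 ∧ ‖e / (z - c)‖ = r := by
    intro z hz
    have h1 : ‖z - c‖ = r := by rwa [mem_sphere, dist_eq_norm] at hz
    refine ⟨h1, norm_pos_iff.1 (by linarith), ?_⟩
    rw [norm_div, he, h1]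
    field_simp
  have hder : ∀ z ∈ sphere c r, HasDerivAt (fun z => G₁ (e / (z - c)) + G₀ (z - c))
      (-(e / (z - c) ^ 2 * H₁ (e / (z - c))) + H₀ (z - c)) z := by
    intro z hz
    obtain ⟨h1, h2, h3⟩ := hsp z hz
    have hx : HasDerivAt (fun z : ℂ => z - c) 1 z := (hasDerivAt_id z).sub_const c
    have hi : HasDerivAt (fun z : ℂ => e / (z - c)) (-(e / (z - c) ^ 2)) z := by
      refine ((hasDerivAt_const z e).fun_div hx h2).congr_deriv ?_
      field_simp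
      ring
    have a1 : HasDerivAt (fun z => G₁ (e / (z - c))) _ z := HasDerivAt.comp (h₂ := G₁) z
      (hG₁ (e / (z - c)) (by simp only [mem_ball_zero_iff]; linarith)) hi
    have a0 : HasDerivAt (fun z => G₀ (z - c)) _ z := HasDerivAt.comp (h₂ := G₀) z
      (hG₀ (z - c) (by simp only [mem_ball_zero_iff]; linarith)) hx
    refine (a1.fun_add a0).congr_deriv ?_
    ring
  have hcont : ContinuousOn (fun z => -(e / (z - c) ^ 2 * H₁ (e / (z - c))) + H₀ (z - c))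
      (sphere c r) := by
    intro z hz
    obtain ⟨h1, h2, h3⟩ := hsp z hz
    have hx : ContinuousAt (fun z : ℂ => z - c) z := continuousAt_id.sub continuousAt_const
    have hi : ContinuousAt (fun z : ℂ => e / (z - c)) z := continuousAt_const.div hx h2
    have c1 : ContinuousAt H₁ (e / (z - c)) :=
      (h₁.differentiableAt (isOpen_ball.mem_nhds
        (by simp only [mem_ball_zero_iff]; linarith))).continuousAt
    have c0 : ContinuousAt H₀ (z - c) :=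
      (h₀.differentiableAt (isOpen_ball.mem_nhds
        (by simp only [mem_ball_zero_iff]; linarith))).continuousAt
    have a1 : ContinuousAt (fun z : ℂ => H₁ (e / (z - c))) z := ContinuousAt.comp (g := H₁) c1 hi
    have a0 : ContinuousAt (fun z : ℂ => H₀ (z - c)) z := ContinuousAt.comp (g := H₀) c0 hx
    exact (((continuousAt_const.div (hx.pow 2) (pow_ne_zero 2 h2)).mul a1).neg.add
      a0).continuousWithinAt
  have hcont' : ContinuousOn (fun z => β * (z - c)⁻¹) (sphere c r) := by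
    intro z hz
    obtain ⟨h1, h2, h3⟩ := hsp z hz
    have hx : ContinuousAt (fun z : ℂ => z - c) z := continuousAt_id.sub continuousAt_const
    exact (continuousAt_const.mul (hx.inv₀ h2)).continuousWithinAt
  have hz0 : (∮ z in C(c, r), (-(e / (z - c) ^ 2 * H₁ (e / (z - c))) + H₀ (z - c))) = 0 :=
    circleIntegral.integral_eq_zero_of_hasDerivWithinAt hr.le fun z hz =>
      (hder z hz).hasDerivWithinAt
  have hE : EqOn F (fun z => β * (z - c)⁻¹ +
      (-(e / (z - c) ^ 2 * H₁ (e / (z - c))) + H₀ (z - c))) (sphere c r) := by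
    intro z hz
    have := hF (z - c) (hsp z hz).1
    rw [add_sub_cancel] at this
    rw [this]
    ring
  rw [circleIntegral.integral_congr hr.le hE,
    circleIntegral.integral_add (hcont'.circleIntegrable hr.le) (hcont.circleIntegrable hr.le),
    hz0, circleIntegral.integral_const_mul, circleIntegral.integral_sub_center_inv c hr.ne']
  have : (2 * Real.pi * Complex.I : ℂ) ≠ 0 := Complex.two_pi_I_ne_zero
  field_simp
  ring

end FSurj

theorem Plumb.Ok.form_surj {V P : Type} [Fintype P] {Q : Plumb V P} (hQ : Q.Ok) {b : P → ℂ}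
    (hb : b ∈ Q.cyc) : ∃ f ∈ Q.glue.forms, Q.res f = b := by
  obtain ⟨H, hH, hfix⟩ := hQ.form_fix b
  refine ⟨FSurjF Q b H, ⟨?_, ?_, ?_⟩, ?_⟩
  · rintro ⟨v, _ | _⟩
    · refine DifferentiableOn.congr (f := fun w => ∑ π ∈ Q.pts v, FSurjT Q b H π w) ?_
        fun w hw => FSurjF_false hw
      intro w hw
      exact (DifferentiableAt.fun_sum fun π hπ =>
        FSurjT_diff hQ hH π (hw.2 π (Plumb.mem_pts.1 hπ))).differentiableWithinAt
    · refine DifferentiableOn.congr (f := fun w => ∑ π ∈ Q.pts v, FSurjU Q b H π w) ?_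
        fun w hw => FSurjF_true hw
      intro w hw
      exact (DifferentiableAt.fun_sum fun π _ => FSurjU_diff hQ hH π hw).differentiableWithinAt
  · rintro ⟨v, _ | _⟩ z hz
    · have hz' : z ∉ Q.W (v, false) := hz
      simp only [FSurjF, if_neg hz']
    · have hz' : z ∉ Q.W (v, true) := hz
      simp only [FSurjF, if_neg hz']
  · rintro (π | ⟨v, _ | _⟩) z hz
    · obtain ⟨h1, h2⟩ : Q.r π / 2 < ‖z - Q.c π‖ ∧ ‖z - Q.c π‖ < 2 * Q.r π := hz
      obtain ⟨h0, h3⟩ := FSurj_small hQ π h1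
      have h4 := FSurj_big hQ π h1 h2
      have e1 := FSurj_tube hQ hfix π h1 h2
      have e2 := FSurj_tube hQ hfix (Q.σ π) (x := Q.ε π / (z - Q.c π))
        (by rw [hQ.r_σ]; exact h4) (by rw [hQ.r_σ]; exact h3)
      rw [add_sub_cancel] at e1
      have he : Q.ε π ≠ 0 := by
        rw [← norm_pos_iff, Plumb.norm_ε]
        exact pow_pos (Plumb.r_pos π) 2
      have e3 : Q.ε π / (Q.ε π / (z - Q.c π)) = z - Q.c π := by field_simp
      rw [hQ.ε_σ, hQ.σσ, hb.1, e3] at e2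
      have hd : HasDerivAt (fun w => Q.c (Q.σ π) + Q.ε π / (w - Q.c π))
          (-(Q.ε π / (z - Q.c π) ^ 2)) z := by
        have hx : HasDerivAt (fun w : ℂ => w - Q.c π) 1 z := (hasDerivAt_id z).sub_const _
        refine (((hasDerivAt_const z (Q.ε π)).fun_div hx h0).const_add
          (Q.c (Q.σ π))).congr_deriv ?_
        field_simp
        ring
      show FSurjF Q b H (Q.pc π, false) z = FSurjF Q b H (Q.pc (Q.σ π), false)
        (Q.c (Q.σ π) + Q.ε π / (z - Q.c π)) *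
          deriv (fun w => Q.c (Q.σ π) + Q.ε π / (w - Q.c π)) z
      rw [e1, e2, hd.deriv]
      field_simp
      ring
    · obtain ⟨h1, h2⟩ : 1 / 2 < ‖z‖ ∧ ‖z‖ < 2 := hz
      show FSurjF Q b H (v, false) z = FSurjF Q b H (v, true) z⁻¹ * deriv (fun w : ℂ => w⁻¹) z
      rw [FSurj_cap hQ hb H v h1 h2, deriv_inv]
    · obtain ⟨h1, h2⟩ : 1 / 2 < ‖z‖ ∧ ‖z‖ < 2 := hz
      obtain ⟨h3, h4⟩ := FSurj_inv h1 h2
      have hz0 : z ≠ 0 := norm_pos_iff.1 (by linarith)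
      show FSurjF Q b H (v, true) z = FSurjF Q b H (v, false) z⁻¹ * deriv (fun w : ℂ => w⁻¹) z
      rw [FSurj_cap hQ hb H v h3 h4, deriv_inv, inv_inv]
      field_simp
  · funext π
    have hr := hQ.r_le' π
    have hr0 := Plumb.r_pos (Q := Q) π
    have hs := hQ.sep_pos
    exact FSurj_res (s := Q.sep / 4) hr0 (by linarith) (Plumb.norm_ε π) (hH π) (hH (Q.σ π))
      fun x hx => FSurj_tube hQ hfix π (by linarith) (by linarith)

end Pool.Agent.MP_4f0ed6_gt
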