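import Pool.Agent.MP_4f0ed6_gt.GDefs
import Pool.Agent.MP_4f0ed6_gt.Calc
import Pool.Agent.MP_4f0ed6_gt.Conf

open Set Laplacian Filter Topology MeasureTheory Metric InnerProductSpace
open scoped ContDiff

namespace Pool.Agent.MP_4f0ed6_gt

namespace Glue

variable {A K : Type} {G : Glue A K} {k : WithTop ℕ∞} {f g φ : A → ℂ → ℝ}

theorem Ok.analytic (hG : G.Ok) {κ : K} {z : ℂ} (hz : z ∈ G.O κ) : AnalyticAt ℂ (G.τ κ) z := by
  exact (hG.hol κ).analyticAt ((hG.O_open κ).mem_nhds hz)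

theorem Ok.deriv_mul (hG : G.Ok) {κ : K} {z : ℂ} (hz : z ∈ G.O κ) :
    deriv (G.τ (G.σ κ)) (G.τ κ z) * deriv (G.τ κ) z = 1 := by
  have h1 := (hG.analytic hz).differentiableAt.hasDerivAt
  have h2 := (hG.analytic (hG.maps κ z hz)).differentiableAt.hasDerivAt
  have h3 := h2.comp z h1
  have h4 : (G.τ (G.σ κ) ∘ G.τ κ) =ᶠ[𝓝 z] id := by
    filter_upwards [(hG.O_open κ).mem_nhds hz] with w hw
    exact hG.inv κ w hw
  have h5 := (hasDerivAt_id z).congr_of_eventuallyEq h4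
  exact h3.unique h5

theorem CS.of_le {k' : WithTop ℕ∞} (h : G.CS k f) (hk : k' ≤ k) : G.CS k' f := by
  intro α
  exact ⟨(h α).1.of_le hk, (h α).2.1, (h α).2.2⟩

theorem CS.zero : G.CS k fun _ _ => 0 := by
  intro α
  refine ⟨contDiff_const, HasCompactSupport.zero, ?_⟩
  have : tsupport (fun _ : ℂ => (0 : ℝ)) = ∅ := by
    simp [tsupport]
  rw [this]
  exact empty_subset _

theorem CS.add (h : G.CS k f) (h' : G.CS k g) : G.CS k fun α z => f α z + g α z := by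
  intro α
  refine ⟨(h α).1.add (h' α).1, (h α).2.1.add (h' α).2.1, ?_⟩
  exact (tsupport_add (f α) (g α)).trans (union_subset (h α).2.2 (h' α).2.2)

theorem Fam0_CS_const_mul (h : G.CS k f) (c : A → ℝ) : G.CS k fun α z => c α * f α z := by
  intro α
  have hs : tsupport (fun z => c α * f α z) ⊆ tsupport (f α) :=
    tsupport_mul_subset_right (f := fun _ => c α) (g := f α)
  refine ⟨contDiff_const.mul (h α).1, ?_, hs.trans (h α).2.2⟩
  exact (h α).2.1.of_isClosed_subset (isClosed_tsupport _) hs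

theorem CS.sub (h : G.CS k f) (h' : G.CS k g) : G.CS k fun α z => f α z - g α z := by
  have := h.add (Fam0_CS_const_mul h' fun _ => -1)
  simpa [sub_eq_add_neg] using this

theorem CS.const_mul (h : G.CS k f) (c : A → ℝ) : G.CS k fun α z => c α * f α z := by
  exact Fam0_CS_const_mul h c

theorem CS.mul (hG : G.Ok) (h : G.CS k f) (hφ : ∀ α, ContDiffOn ℝ k (φ α) (G.W α)) :
    G.CS k fun α z => f α z * φ α z := by
  intro α
  have hs : tsupport (fun z => f α z * φ α z) ⊆ tsupport (f α) :=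
    tsupport_mul_subset_left (f := f α) (g := φ α)
  refine ⟨contDiff_mul_of_supp (hG.W_open α) (h α).1 (h α).2.2 (hφ α), ?_, hs.trans (h α).2.2⟩
  exact (h α).2.1.of_isClosed_subset (isClosed_tsupport _) hs

theorem CS.lap (h : G.CS ∞ f) : G.CS ∞ fun α => Δ (f α) := by
  intro α
  have hs := tsupport_lap (f α)
  refine ⟨contDiff_iff_contDiffAt.2 fun z => lap_smoothAt (h α).1.contDiffAt, ?_,
    hs.trans (h α).2.2⟩
  exact (h α).2.1.of_isClosed_subset (isClosed_tsupport _) hs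

theorem CS.eq_zero (h : G.CS k f) {α : A} {z : ℂ} (hz : z ∉ G.W α) : f α z = 0 := by
  exact image_eq_zero_of_notMem_tsupport fun h1 => hz ((h α).2.2 h1)

theorem CS.integrable (h : G.CS k f) (α : A) : Integrable (f α) := by
  exact (h α).1.continuous.integrable_of_hasCompactSupport (h α).2.1

variable [Fintype K]

open Classical in
theorem Fam0_sum_single (hG : G.Ok) (F : K → ℝ) {κ : K} {z : ℂ} (hz : z ∈ G.O κ) :
    (∑ κ', if G.ch κ' = G.ch κ ∧ z ∈ G.O κ' then F κ' else 0) = F κ := by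
  rw [Finset.sum_eq_single κ]
  · simp [hz]
  · intro b _ hb
    rw [if_neg]
    rintro ⟨h1, h2⟩
    exact hb (hG.disj b κ z h1 h2 hz)
  · intro h
    exact absurd (Finset.mem_univ κ) h

theorem Fam0_gf_eq (hG : G.Ok) (f : A → ℂ → ℝ) {κ : K} {z : ℂ} (hz : z ∈ G.O κ) :
    G.gf f (G.ch κ) z = f (G.ch κ) z + f (G.ch (G.σ κ)) (G.τ κ z) := by
  unfold gf
  rw [Fam0_sum_single hG (fun κ' => f (G.ch (G.σ κ')) (G.τ κ' z)) hz]

theorem Fam0_gd_eq (hG : G.Ok) (g : A → ℂ → ℝ) {κ : K} {z : ℂ} (hz : z ∈ G.O κ) :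
    G.gd g (G.ch κ) z =
      g (G.ch κ) z + g (G.ch (G.σ κ)) (G.τ κ z) * ‖deriv (G.τ κ) z‖ ^ 2 := by
  unfold gd
  rw [Fam0_sum_single hG
    (fun κ' => g (G.ch (G.σ κ')) (G.τ κ' z) * ‖deriv (G.τ κ') z‖ ^ 2) hz]

theorem gf_compat (hG : G.Ok) (f : A → ℂ → ℝ) : G.Compat (G.gf f) := by
  intro κ z hz
  rw [Fam0_gf_eq hG f hz, Fam0_gf_eq hG f (hG.maps κ z hz), hG.σσ, hG.inv κ z hz, add_comm]

theorem gd_compat (hG : G.Ok) (g : A → ℂ → ℝ) {κ : K} {z : ℂ} (hz : z ∈ G.O κ) :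
    G.gd g (G.ch κ) z = G.gd g (G.ch (G.σ κ)) (G.τ κ z) * ‖deriv (G.τ κ) z‖ ^ 2 := by
  rw [Fam0_gd_eq hG g hz, Fam0_gd_eq hG g (hG.maps κ z hz), hG.σσ, hG.inv κ z hz]
  have h1 : ‖deriv (G.τ (G.σ κ)) (G.τ κ z)‖ * ‖deriv (G.τ κ) z‖ = 1 := by
    rw [← norm_mul, hG.deriv_mul hz, norm_one]
  have h2 : ‖deriv (G.τ (G.σ κ)) (G.τ κ z)‖ ^ 2 * ‖deriv (G.τ κ) z‖ ^ 2 = 1 := by
    rw [← mul_pow, h1, one_pow]
  rw [add_mul, mul_assoc (g (G.ch κ) z), h2, mul_one, add_comm]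

theorem gf_mul (hφ : G.Compat φ) (f : A → ℂ → ℝ) (α : A) (z : ℂ) :
    G.gf (fun α z => f α z * φ α z) α z = G.gf f α z * φ α z := by
  unfold gf
  rw [add_mul, Finset.sum_mul]
  congr 1
  refine Finset.sum_congr rfl fun κ _ => ?_
  split_ifs with h
  · beta_reduce
    rw [← hφ κ z h.2, h.1]
  · rw [zero_mul]

theorem gd_mul (hφ : G.Compat φ) (g : A → ℂ → ℝ) (α : A) (z : ℂ) :
    G.gd (fun α z => g α z * φ α z) α z = G.gd g α z * φ α z := by
  unfold gd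
  rw [add_mul, Finset.sum_mul]
  congr 1
  refine Finset.sum_congr rfl fun κ _ => ?_
  split_ifs with h
  · beta_reduce
    rw [← hφ κ z h.2, h.1]
    ring
  · rw [zero_mul]

theorem gd_add (f g : A → ℂ → ℝ) (α : A) (z : ℂ) :
    G.gd (fun α z => f α z + g α z) α z = G.gd f α z + G.gd g α z := by
  unfold gd
  rw [add_add_add_comm, ← Finset.sum_add_distrib]
  congr 1
  refine Finset.sum_congr rfl fun κ _ => ?_
  split_ifs with h
  · ring
  · rw [add_zero]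

theorem gd_const_mul (c : ℝ) (g : A → ℂ → ℝ) (α : A) (z : ℂ) :
    G.gd (fun α z => c * g α z) α z = c * G.gd g α z := by
  unfold gd
  rw [mul_add, Finset.mul_sum]
  congr 1
  refine Finset.sum_congr rfl fun κ _ => ?_
  split_ifs with h
  · ring
  · rw [mul_zero]

theorem gd_nonneg (hg : ∀ α z, 0 ≤ g α z) (α : A) (z : ℂ) : 0 ≤ G.gd g α z := by
  unfold gd
  refine add_nonneg (hg α z) (Finset.sum_nonneg fun κ _ => ?_)
  split_ifs with h
  · exact mul_nonneg (hg _ _) (sq_nonneg _)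
  · exact le_rfl

end Glue

end Pool.Agent.MP_4f0ed6_gt
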