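import Pool.Agent.MP_4f0ed6_gt.PDefs
import Pool.Agent.MP_4f0ed6_gt.Calc

open Set Laplacian Filter Topology MeasureTheory Metric InnerProductSpace
open scoped ContDiff

namespace Pool.Agent.MP_4f0ed6_gt

theorem Pois_int {R : ℝ} {h : ℂ → ℝ} (hh : Continuous h) {y : ℂ} (hy : ‖y‖ < R) :
    CircleIntegrable ((Complex.re ∘ herglotzRieszKernel 0 y) • h) 0 R :=
  ((Complex.continuous_re.comp_continuousOn (continuousOn_herglotzRieszKernel_sphere
    (mem_ball_zero_iff.2 hy))).smul hh.continuousOn).circleIntegrable'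

theorem PI_smooth {R : ℝ} {h : ℂ → ℝ} (hh : Continuous h) {y : ℂ} (hy : ‖y‖ < R) :
    ContDiffAt ℝ ∞ (PI R h) y ∧ Δ (PI R h) y = 0 := by
  have h1 := (analyticOnNhd_circleAverage_herglotzRieszKernel_smul (R := R)
    (f := fun z => (h z : ℂ)) (Complex.continuous_ofReal.comp hh).continuousOn.circleIntegrable'
    y (mem_ball_zero_iff.2 hy)).harmonicAt_re
  have h2 : HarmonicAt (PI R h) y := by
    refine (harmonicAt_congr_nhds ?_).1 h1
    filter_upwards [isOpen_ball.mem_nhds (mem_ball_zero_iff.2 hy)] with w hw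
    exact re_circleAverage_herglotzRieszKernel_smul hh.continuousOn.circleIntegrable' hw
  exact ⟨(_root_.HarmonicAt.analyticAt h2).contDiffAt, h2.2.self_of_nhds⟩

theorem PI_sub {R : ℝ} {h h' : ℂ → ℝ} (hh : Continuous h) (hh' : Continuous h') {y : ℂ}
    (hy : ‖y‖ < R) : PI R (fun x => h x - h' x) y = PI R h y - PI R h' y := by
  rw [PI, PI, PI, ← Real.circleAverage_sub (Pois_int hh hy) (Pois_int hh' hy), ← smul_sub]
  rfl

theorem PI_bound {R H : ℝ} {h : ℂ → ℝ} (hR : 0 < R) (hh : Continuous h)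
    (hb : ∀ x : ℂ, ‖x‖ = R → |h x| ≤ H) {y : ℂ} (hy : ‖y‖ ≤ R / 2) :
    |PI R h y - PI R h 0| ≤ 4 * (‖y‖ / R) * H := by
  have h1 := Pois_int (R := R) hh (y := y) (by linarith)
  have h2 := Pois_int (R := R) hh (y := 0) (by simpa using hR)
  rw [PI, PI, ← Real.circleAverage_sub h1 h2]
  refine Real.abs_circleAverage_le_circleAverage_abs.trans
    (Real.circleAverage_mono_on_of_le_circle (h1.sub h2).abs fun z hz => ?_)
  rw [mem_sphere_zero_iff_norm, abs_of_pos hR] at hz
  have h3 : R / 2 ≤ ‖z - y‖ := by linarith [norm_sub_norm_le z y]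
  have h4 : z - y ≠ 0 := norm_pos_iff.1 (by linarith)
  have h5 : z ≠ 0 := norm_pos_iff.1 (by linarith)
  have h6 : herglotzRieszKernel 0 y z - herglotzRieszKernel 0 0 z = 2 * y / (z - y) := by
    simp only [herglotzRieszKernel, sub_zero, add_zero]
    field_simp
    ring
  have h7 : |(herglotzRieszKernel 0 y z).re - (herglotzRieszKernel 0 0 z).re| ≤
      4 * (‖y‖ / R) := by
    rw [← Complex.sub_re, h6]
    refine (Complex.abs_re_le_norm _).trans ?_
    rw [norm_div, norm_mul, Complex.norm_two]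
    refine (div_le_div_of_nonneg_left (by positivity) (half_pos hR) h3).trans_eq ?_
    field_simp
    ring
  change |(herglotzRieszKernel 0 y z).re * h z - (herglotzRieszKernel 0 0 z).re * h z| ≤ _
  rw [← sub_mul, abs_mul]
  exact mul_le_mul h7 (hb z hz) (abs_nonneg _) (by positivity)

theorem PI_eq {R : ℝ} {h f : ℂ → ℝ} (hf : ∀ x : ℂ, ‖x‖ ≤ R → HarmonicAt f x)
    (he : ∀ x : ℂ, ‖x‖ = R → h x = f x) {y : ℂ} (hy : ‖y‖ < R) : PI R h y = f y := by
  rw [← HarmonicOnNhd.circleAverage_re_herglotzRieszKernel_smul (c := 0) (R := R)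
    (fun x hx => hf x (mem_closedBall_zero_iff.1 hx)) (mem_ball_zero_iff.2 hy)]
  refine Real.circleAverage_congr_sphere fun z hz => ?_
  rw [mem_sphere_zero_iff_norm, abs_of_pos ((norm_nonneg y).trans_lt hy)] at hz
  simp only [Pi.smul_apply', he z hz]

end Pool.Agent.MP_4f0ed6_gt
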