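import Pool.Agent.MP_4f0ed6_gt.PlGeo
import Pool.Agent.MP_4f0ed6_gt.PotB
import Pool.Agent.MP_4f0ed6_gt.Pois

open Set Laplacian Filter Topology MeasureTheory Metric InnerProductSpace
open scoped ContDiff

namespace Pool.Agent.MP_4f0ed6_gt

theorem Fld3_log_two : Real.log 2 ≤ 1 := by
  have := Real.log_le_sub_one_of_pos (show (0 : ℝ) < 2 by norm_num)
  linarith

theorem Fld3_log_ge {a x : ℝ} (ha : 0 < a) (hx : a / 2 ≤ x) : Real.log a - 1 ≤ Real.log x := by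
  have h1 : Real.log (a / 2) ≤ Real.log x := Real.log_le_log (by positivity) hx
  rw [Real.log_div ha.ne' (by norm_num)] at h1
  have := Fld3_log_two
  linarith

theorem Fld3_log_le {x : ℝ} (h0 : 0 < x) (hx : x ≤ 9 / 4) : Real.log x ≤ 1 := by
  rw [Real.log_le_iff_le_exp h0]
  have := Real.exp_one_gt_d9
  linarith

namespace Plumb

variable {V P : Type} [Fintype P] {Q : Plumb V P} {β : V → ℂ → ℝ} {Λ om : ℝ} {Y : Inp V P}

theorem Fld3_far (hQ : Q.Ok) (hh : ∀ π, Continuous (Y.h π))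
    {H : ℝ} (hH : ∀ π (x : ℂ), ‖x‖ = Q.r π / 2 → |Y.h π x| ≤ H) (π : P) {y : ℂ} {t : ℝ}
    (ht : t ≤ 1 / 4) (hy : ‖y‖ ≤ t * Q.r π) : |Q.farY Y π y| ≤ 8 * t * H := by
  have hr := r_pos (Q := Q) π
  have hH0 : 0 ≤ H := by
    refine (abs_nonneg _).trans (hH π ((Q.r π / 2 : ℝ) : ℂ) ?_)
    rw [Complex.norm_real, Real.norm_eq_abs, abs_of_pos (by positivity)]
  have hb : ∀ x : ℂ, ‖x‖ = Q.r π / 2 → |Y.h (Q.σ π) x| ≤ H := fun x hx =>
    hH _ x (by rw [hQ.r_σ, hx])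
  have hy' : ‖y‖ ≤ Q.r π / 2 / 2 := by nlinarith
  have h := PI_bound (R := Q.r π / 2) (by positivity) (hh (Q.σ π)) hb hy'
  have h2 : ‖y‖ / (Q.r π / 2) ≤ 2 * t := by
    rw [div_le_iff₀ (by positivity)]
    linarith
  unfold farY
  refine h.trans ?_
  nlinarith

theorem farY_le (hQ : Q.Ok) (hom : ∀ π, Q.r π ≤ om * Q.sep) (hh : ∀ π, Continuous (Y.h π))
    {H : ℝ} (hH : ∀ π (x : ℂ), ‖x‖ = Q.r π / 2 → |Y.h π x| ≤ H) (π : P) {w : ℂ}
    (hw : Q.sep / 2 ≤ ‖w - Q.c π‖) : |Q.farY Y π (Q.ε π / (w - Q.c π))| ≤ 16 * om * H := by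
  have hr := r_pos (Q := Q) π
  have hs := hQ.sep_pos
  have hrs := hQ.r_le' π
  have hH0 : 0 ≤ H := by
    refine (abs_nonneg _).trans (hH π ((Q.r π / 2 : ℝ) : ℂ) ?_)
    rw [Complex.norm_real, Real.norm_eq_abs, abs_of_pos (by positivity)]
  have ht : 2 * (Q.r π / Q.sep) ≤ 1 / 4 := by
    have : Q.r π / Q.sep ≤ 1 / 16 := by
      rw [div_le_iff₀ hs]
      linarith
    linarith
  have hy : ‖Q.ε π / (w - Q.c π)‖ ≤ 2 * (Q.r π / Q.sep) * Q.r π := by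
    rw [norm_div, norm_ε, div_le_iff₀ (by linarith)]
    have h1 : 2 * (Q.r π / Q.sep) * Q.r π * (Q.sep / 2) = Q.r π ^ 2 := by
      field_simp
    rw [← h1]
    exact mul_le_mul_of_nonneg_left hw (by positivity)
  have h := Fld3_far hQ hh hH π ht hy
  have h3 : Q.r π / Q.sep ≤ om := by
    rw [div_le_iff₀ hs]
    exact hom π
  refine h.trans ?_
  nlinarith

theorem Fld3_tt {B G : ℝ} (hB0 : 0 ≤ B) (hB : ∀ π, |Y.b π| ≤ B) (hG : ∀ α, PB (Y.g α) G)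
    (v : V) : |Q.tt Y v| ≤ Q.n * B + 2 * G := by
  have h1 : |∑ π ∈ Q.pts v, Y.b π| ≤ Q.n * B := abs_sum_pts_le hB0 fun π _ => hB π
  have h2 := (hG (v, false)).abs_int
  have h3 := (hG (v, true)).abs_int
  unfold tt
  rw [abs_le] at h1 h2 h3 ⊢
  constructor <;> linarith [h1.1, h1.2, h2.1, h2.2, h3.1, h3.2]

omit [Fintype P] in
theorem Fld3_fin (hβ : Q.Bump β Λ) (α : V × Bool) : PB (fin β α) Λ := by
  obtain ⟨v, b⟩ := α
  cases b
  · exact hβ.pb v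
  · exact PB.zero.mono (by linarith [hβ.one_le])

theorem Fld3_gs (hβ : Q.Bump β Λ) {B G : ℝ} (hB0 : 0 ≤ B) (hB : ∀ π, |Y.b π| ≤ B)
    (hG : ∀ α, PB (Y.g α) G) (α : V × Bool) :
    PB (Q.gs β Y α) (3 * Λ * G + Λ * (Q.n * B)) := by
  have h := (hG α).add ((Fld3_fin hβ α).const_mul (Q.tt Y α.1))
  have h1 := Fld3_tt (Q := Q) hB0 hB hG α.1
  have h2 := hβ.one_le
  have h3 := (hG α).nonneg
  refine PB.mono h ?_
  have h4 : |Q.tt Y α.1| * Λ ≤ (Q.n * B + 2 * G) * Λ :=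
    mul_le_mul_of_nonneg_right h1 (by linarith)
  nlinarith

theorem Fld3_Pot (hβ : Q.Bump β Λ) {B G : ℝ} (hB0 : 0 ≤ B) (hB : ∀ π, |Y.b π| ≤ B)
    (hG : ∀ α, PB (Y.g α) G) (α : V × Bool) {w : ℂ} (hw : ‖w‖ ≤ 2) :
    |Q.Pot β Y α w| ≤ 6 * Λ * G + 2 * Λ * (Q.n * B) := by
  have h1 := (Fld3_gs hβ hB0 hB hG α).abs_NP hw
  have h2 := (Fld3_gs hβ hB0 hB hG (α.1, !α.2)).abs_NQ hw
  unfold Pot
  refine (abs_add_le _ _).trans ?_
  linarith

theorem Fld3_term (hQ : Q.Ok) (hβ : Q.Bump β Λ) (hom : ∀ π, Q.r π ≤ om * Q.sep)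
    (hh : ∀ π, Continuous (Y.h π)) {B H : ℝ} (hB : ∀ π, |Y.b π| ≤ B)
    (hH : ∀ π (x : ℂ), ‖x‖ = Q.r π / 2 → |Y.h π x| ≤ H) (π : P) {w : ℂ}
    (hw : Q.sep / 2 ≤ ‖w - Q.c π‖) (hw1 : ‖w - Q.c π‖ ≤ 1) :
    |Q.term Y π w| ≤ 2 * Λ * B + 16 * om * H := by
  have h1 := farY_le hQ hom hh hH π hw
  have h2 := Fld3_log_ge hQ.sep_pos hw
  have h3 : Real.log ‖w - Q.c π‖ ≤ 0 := Real.log_nonpos (norm_nonneg _) hw1
  have h4 := hβ.log_le
  have h5 := hβ.one_le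
  have h6 : |Real.log ‖w - Q.c π‖| ≤ 2 * Λ := by
    rw [abs_le] at h4 ⊢
    constructor <;> linarith [h4.1]
  have h7 : |Y.b π * Real.log ‖w - Q.c π‖| ≤ B * (2 * Λ) := by
    rw [abs_mul]
    exact mul_le_mul (hB π) h6 (abs_nonneg _) ((abs_nonneg _).trans (hB π))
  unfold term
  refine (abs_add_le _ _).trans ?_
  linarith

theorem Fld3_sum (hQ : Q.Ok) (hβ : Q.Bump β Λ) (hom0 : 0 ≤ om) (hom : ∀ π, Q.r π ≤ om * Q.sep)
    (hh : ∀ π, Continuous (Y.h π)) {B H G E : ℝ} (hB0 : 0 ≤ B) (hH0 : 0 ≤ H)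
    (hB : ∀ π, |Y.b π| ≤ B)
    (hH : ∀ π (x : ℂ), ‖x‖ = Q.r π / 2 → |Y.h π x| ≤ H) (hG : ∀ α, PB (Y.g α) G)
    (hE : 8 * Λ * (G + Q.n * B) + 16 * Q.n * om * H ≤ E) (v : V) (s : Finset P) {w : ℂ}
    (hw : ‖w‖ ≤ 2) (hs : ∀ π ∈ s, Q.sep / 2 ≤ ‖w - Q.c π‖ ∧ ‖w - Q.c π‖ ≤ 1) :
    |Q.Pot β Y (v, false) w + ∑ π ∈ s, Q.term Y π w| ≤ E := by
  have h1 := Fld3_Pot hβ hB0 hB hG (v, false) hw
  have hΛ := hβ.one_le
  have hn := one_le_n (Q := Q)
  have hG0 := (hG (v, false)).nonneg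
  have h2 : |∑ π ∈ s, Q.term Y π w| ≤ Q.n * (2 * Λ * B + 16 * om * H) :=
    abs_sum_pts_le (by positivity) fun π hπ =>
      Fld3_term hQ hβ hom hh hB hH π (hs π hπ).1 (hs π hπ).2
  have h3 : 0 ≤ Λ * G := by positivity
  have h4 : 0 ≤ Λ * (Q.n * B) := by positivity
  refine (abs_add_le _ _).trans ?_
  nlinarith

theorem Fld3_CC (hQ : Q.Ok) (hβ : Q.Bump β Λ) (hom0 : 0 ≤ om) (hom : ∀ π, Q.r π ≤ om * Q.sep)
    (hh : ∀ π, Continuous (Y.h π)) {B H G E : ℝ} (hB0 : 0 ≤ B) (hH0 : 0 ≤ H)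
    (hB : ∀ π, |Y.b π| ≤ B)
    (hH : ∀ π (x : ℂ), ‖x‖ = Q.r π / 2 → |Y.h π x| ≤ H) (hG : ∀ α, PB (Y.g α) G)
    (hE : 8 * Λ * (G + Q.n * B) + 16 * Q.n * om * H ≤ E) (hE0 : 0 ≤ E) (v : V) :
    |Q.CC β Y v - Y.u v| ≤ E := by
  have hm : ∫ u, |β v u| ≤ 1 := by
    have : (fun u => |β v u|) = β v := funext fun u => abs_of_nonneg (hβ.nonneg v u)
    rw [this, hβ.int v]
  have h := abs_integral_mul_le (φ := Q.Phi β Y v) (hβ.pb v).integrable hE0 hm fun u hu => by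
    have hc := hβ.supp v u hu
    refine Fld3_sum hQ hβ hom0 hom hh hB0 hH0 hB hH hG hE v _ (by linarith [hc.1]) fun π hπ => ?_
    have h1 := hc.2 π (mem_pts.1 hπ)
    have h2 := norm_sub_le u (Q.c π)
    have h3 := hQ.c_le π
    have h4 := hQ.sep_pos
    exact ⟨by linarith, by linarith [hc.1]⟩
  have h5 : Q.CC β Y v - Y.u v = -∫ w, β v w * Q.Phi β Y v w := by
    unfold CC
    ring
  rw [h5, abs_neg]
  linarith

theorem fld_le (hQ : Q.Ok) (hβ : Q.Bump β Λ) (hom0 : 0 ≤ om) (hom : ∀ π, Q.r π ≤ om * Q.sep)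
    (hh : ∀ π, Continuous (Y.h π)) {B Bh H G E : ℝ} (hB0 : 0 ≤ B) (hBh0 : 0 ≤ Bh) (hH0 : 0 ≤ H)
    (hB : ∀ π, |Y.b π| ≤ B) (hBh : ∀ π, Q.L π * |Y.b π| ≤ Bh)
    (hH : ∀ π (x : ℂ), ‖x‖ = Q.r π / 2 → |Y.h π x| ≤ H) (hG : ∀ α, PB (Y.g α) G)
    (hE : 8 * Λ * (G + Q.n * B) + 16 * Q.n * om * H ≤ E) :
    (∀ π (x : ℂ), ‖x‖ ≤ Q.sep / 2 → |Q.R0 β Y π x| ≤ E) ∧
      (∀ π, |Q.RR β Y π - Y.u (Q.pc π)| ≤ 2 * E) ∧
      ∀ α, ∀ w ∈ Q.W α, |Q.phi β Y α w - Y.u α.1| ≤ Q.n * Bh + 6 * Q.n * E := by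
  classical
  have hΛ := hβ.one_le
  have hn := one_le_n (Q := Q)
  have hs := hQ.sep_pos
  have hs1 := hQ.sep_le
  obtain ⟨v0⟩ := hQ.ne
  have hG0 := (hG (v0, false)).nonneg
  have e1 : 0 ≤ Λ * G := by positivity
  have e2 : 0 ≤ Q.n * B := by positivity
  have e3 : 0 ≤ Q.n * (om * H) := by positivity
  have e4 : Q.n * B ≤ Λ * (Q.n * B) := le_mul_of_one_le_left e2 hΛ
  have hE' : 8 * (Λ * G) + 8 * (Λ * (Q.n * B)) + 16 * (Q.n * (om * H)) ≤ E := by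
    refine le_of_eq_of_le ?_ hE
    ring
  have hE0 : 0 ≤ E := by linarith
  have e5 : E ≤ Q.n * E := le_mul_of_one_le_left hE0 hn
  have e6 : 0 ≤ Q.n * Bh := by positivity
  have hR0 : ∀ π (x : ℂ), ‖x‖ ≤ Q.sep / 2 → |Q.R0 β Y π x| ≤ E := by
    intro π x hx
    unfold R0
    refine Fld3_sum hQ hβ hom0 hom hh hB0 hH0 hB hH hG hE _ _ ?_ fun π' hπ' => ?_
    · have h1 := norm_add_le (Q.c π) x
      have h2 := hQ.c_le π
      linarith
    · rw [Finset.mem_erase] at hπ'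
      exact hQ.near hπ'.1 (mem_pts.1 hπ'.2) hx
  have hCC := Fld3_CC hQ hβ hom0 hom hh hB0 hH0 hB hH hG hE hE0
  refine ⟨hR0, fun π => ?_, fun α w hw => ?_⟩
  · have h1 := hCC (Q.pc π)
    have h2 := hR0 π 0 (by rw [norm_zero]; positivity)
    unfold RR
    rw [abs_le] at h1 h2 ⊢
    constructor <;> linarith [h1.1, h1.2, h2.1, h2.2]
  · have hw2 := norm_lt_of_W hw
    have hP := Fld3_Pot hβ hB0 hB hG α hw2.le
    have hC := hCC α.1
    obtain ⟨v, b⟩ := α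
    cases b
    · have hS : |∑ π ∈ Q.pts v, (Y.b π * Real.log ‖w - Q.c π‖ +
          Q.R0 β Y (Q.σ π) (Q.ε π / (w - Q.c π)) - Q.R0 β Y (Q.σ π) 0)| ≤
          Q.n * (Bh / 2 + B + 2 * E) := by
        refine abs_sum_pts_le (by positivity) fun π hπ => ?_
        have hr := r_pos (Q := Q) π
        have hrs := hQ.r_le' π
        have hL := hQ.L_pos π
        have h1 : Q.r π / 2 < ‖w - Q.c π‖ := hw.2 π (mem_pts.1 hπ)
        have h2 := Fld3_log_ge hr h1.le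
        rw [log_r] at h2
        have h3 : Real.log ‖w - Q.c π‖ ≤ 1 := by
          refine Fld3_log_le (by linarith) ?_
          have := norm_sub_le w (Q.c π)
          linarith [hQ.c_le π]
        have h4 : |Real.log ‖w - Q.c π‖| ≤ Q.L π / 2 + 1 := by
          rw [abs_le]
          constructor <;> linarith
        have h5 : |Y.b π * Real.log ‖w - Q.c π‖| ≤ Bh / 2 + B := by
          rw [abs_mul]
          have h6 := mul_le_mul_of_nonneg_left h4 (abs_nonneg (Y.b π))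
          have h7 := hB π
          have h8 := hBh π
          nlinarith
        have h6 := hR0 (Q.σ π) (Q.ε π / (w - Q.c π)) (by
          rw [norm_div, norm_ε, div_le_iff₀ (by linarith)]
          nlinarith)
        have h7 := hR0 (Q.σ π) 0 (by rw [norm_zero]; positivity)
        rw [abs_le] at h5 h6 h7 ⊢
        constructor <;> linarith [h5.1, h5.2, h6.1, h6.2, h7.1, h7.2]
      simp only [phi]
      rw [abs_le] at hS hP hC ⊢
      constructor <;> linarith [hS.1, hS.2, hP.1, hP.2, hC.1, hC.2]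
    · have hS : |∑ π ∈ Q.pts v, (Y.b π * Real.log ‖1 - Q.c π * w‖ +
          Q.farY Y π (Q.ε π * w / (1 - Q.c π * w)))| ≤ Q.n * (B + 16 * (om * H)) := by
        refine abs_sum_pts_le (by positivity) fun π _ => ?_
        have hr := r_pos (Q := Q) π
        have hrs := hQ.r_le' π
        have h0 : ‖Q.c π * w‖ ≤ 1 / 2 := by
          rw [norm_mul]
          have := mul_le_mul (hQ.c_le π) hw2.le (norm_nonneg _) (by norm_num)
          linarith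
        have h1 : 1 / 2 ≤ ‖1 - Q.c π * w‖ := by
          have := norm_sub_norm_le (1 : ℂ) (Q.c π * w)
          rw [norm_one] at this
          linarith
        have h2 : ‖1 - Q.c π * w‖ ≤ 9 / 4 := by
          have := norm_sub_le (1 : ℂ) (Q.c π * w)
          rw [norm_one] at this
          linarith
        have h3 := Fld3_log_ge one_pos h1
        rw [Real.log_one] at h3
        have h4 := Fld3_log_le (by linarith) h2
        have h5 : |Y.b π * Real.log ‖1 - Q.c π * w‖| ≤ B := by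
          rw [abs_mul]
          have h6 : |Real.log ‖1 - Q.c π * w‖| ≤ 1 := by
            rw [abs_le]
            constructor <;> linarith
          have h7 := mul_le_mul_of_nonneg_left h6 (abs_nonneg (Y.b π))
          linarith [hB π]
        have h6 := Fld3_far hQ hh hH π (y := Q.ε π * w / (1 - Q.c π * w)) (t := 4 * Q.r π)
          (by linarith) (by
            rw [norm_div, norm_mul, norm_ε, div_le_iff₀ (by linarith)]
            have h7 : Q.r π ^ 2 * ‖w‖ ≤ Q.r π ^ 2 * 2 :=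
              mul_le_mul_of_nonneg_left hw2.le (by positivity)
            have h8 : 4 * Q.r π * Q.r π * (1 / 2) ≤ 4 * Q.r π * Q.r π * ‖1 - Q.c π * w‖ :=
              mul_le_mul_of_nonneg_left h1 (by positivity)
            nlinarith)
        have h7 : Q.r π ≤ om / 4 := by
          have := mul_le_mul_of_nonneg_left hs1 hom0
          linarith [hom π]
        have h8 : Q.r π * H ≤ om / 4 * H := mul_le_mul_of_nonneg_right h7 hH0
        have h9 : 0 ≤ om * H := by positivity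
        refine (abs_add_le _ _).trans ?_
        nlinarith
      simp only [phi]
      rw [abs_le] at hS hP hC ⊢
      constructor <;> linarith [hS.1, hS.2, hP.1, hP.2, hC.1, hC.2]

end Plumb

end Pool.Agent.MP_4f0ed6_gt
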