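import Pool.Agent.MP_4f0ed6_gt.PotB

open Set Laplacian Filter Topology MeasureTheory Metric InnerProductSpace
open scoped ContDiff

namespace Pool.Agent.MP_4f0ed6_gt

theorem PotS_abslog {x : ℝ} (h0 : 0 ≤ x) : |Real.log x| ≤ x + x⁻¹ := by
  have h2 : 0 ≤ x⁻¹ := inv_nonneg.mpr h0
  rw [abs_le]
  constructor
  · have := Real.log_le_self h2
    rw [Real.log_inv] at this
    linarith
  · have := Real.log_le_self h0
    linarith

theorem PotS_half {z : ℂ} (hz : ‖z‖ ≤ 1 / 2) : |Real.log ‖1 - z‖| ≤ 4 := by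
  have h1 : 1 / 2 ≤ ‖1 - z‖ := by
    have := norm_sub_norm_le (1 : ℂ) z
    rw [norm_one] at this
    linarith
  have h2 : ‖1 - z‖ ≤ 2 := by
    have := norm_sub_le (1 : ℂ) z
    rw [norm_one] at this
    linarith
  have h3 : ‖1 - z‖⁻¹ ≤ 2 := by
    rw [inv_le_comm₀ (by linarith) (by norm_num)]
    linarith
  linarith [PotS_abslog (norm_nonneg (1 - z))]

theorem PotS_dom {g F H : ℂ → ℝ} {A B : ℝ} (hs : ∀ u, g u ≠ 0 → ‖u‖ ≤ 2)
    (hb : ∀ u, |g u| ≤ A) (hF0 : ∀ u, 0 ≤ F u) (hH : Integrable H) (hH0 : ∀ u, 0 ≤ H u)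
    (hFH : ∀ᵐ u : ℂ, ‖u‖ ≤ 2 → F u ≤ H u) (hB : ∫ u, H u ≤ B) :
    ∫ u, F u * |g u| ≤ B * A := by
  have hA : 0 ≤ A := (abs_nonneg _).trans (hb 0)
  have h1 : ∫ u, F u * |g u| ≤ ∫ u, H u * A := by
    refine integral_mono_of_nonneg (Eventually.of_forall fun u => ?_) (hH.mul_const A) ?_
    · exact mul_nonneg (hF0 u) (abs_nonneg _)
    · filter_upwards [hFH] with u hu
      by_cases h : g u = 0
      · rw [h, abs_zero, mul_zero]
        exact mul_nonneg (hH0 u) hA
      · exact mul_le_mul (hu (hs u h)) (hb u) (abs_nonneg _) (hH0 u)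
  rw [integral_mul_const] at h1
  exact h1.trans (mul_le_mul_of_nonneg_right hB hA)

theorem PotS_ind_int : Integrable ((closedBall (0 : ℂ) 2).indicator fun _ => (1 : ℝ)) :=
  (integrable_indicator_iff measurableSet_closedBall).mpr
    (integrableOn_const (isCompact_closedBall _ _).measure_lt_top.ne)

theorem PotS_area : ∫ u, (closedBall (0 : ℂ) 2).indicator (fun _ => (1 : ℝ)) u ≤ 13 := by
  rw [integral_indicator measurableSet_closedBall, setIntegral_const, smul_eq_mul, mul_one,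
    Measure.real, Complex.volume_closedBall]
  have := Real.pi_lt_d2
  simp only [ENNReal.toReal_mul, ENNReal.toReal_pow, ENNReal.coe_toReal, NNReal.coe_real_pi]
  rw [ENNReal.toReal_ofReal (by norm_num)]
  linarith

theorem PotS_inv_int : Integrable ((closedBall (0 : ℂ) 6).indicator fun u => ‖u‖⁻¹) :=
  (integrable_indicator_iff measurableSet_closedBall).mpr
    (locInt_inv.integrableOn_isCompact (isCompact_closedBall _ _))

theorem PotS_inv6 : ∫ u, (closedBall (0 : ℂ) 6).indicator (fun u => ‖u‖⁻¹) u ≤ 38 := by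
  have h := integral_fun_norm_addHaar (volume : Measure ℂ)
    ((Iic (6 : ℝ)).indicator fun y => y⁻¹)
  have e : (fun u : ℂ => (closedBall (0 : ℂ) 6).indicator (fun u => ‖u‖⁻¹) u) =
      fun u : ℂ => (Iic (6 : ℝ)).indicator (fun y => y⁻¹) ‖u‖ := by
    funext u
    by_cases hu : ‖u‖ ≤ 6
    · rw [indicator_of_mem (by simpa using hu), indicator_of_mem (by simpa using hu)]
    · rw [indicator_of_notMem (by simpa using hu), indicator_of_notMem (by simpa using hu)]
  rw [e, h]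
  have e2 : ∫ y in Ioi (0 : ℝ), y ^ (Module.finrank ℝ ℂ - 1) •
      (Iic (6 : ℝ)).indicator (fun y => y⁻¹) y = 6 := by
    have : ∫ y in Ioi (0 : ℝ), y ^ (Module.finrank ℝ ℂ - 1) •
        (Iic (6 : ℝ)).indicator (fun y => y⁻¹) y =
        ∫ y in Ioi (0 : ℝ), (Iic (6 : ℝ)).indicator (fun _ => (1 : ℝ)) y := by
      refine setIntegral_congr_fun measurableSet_Ioi fun y hy => ?_
      have hy' : y ≠ 0 := ne_of_gt hy
      by_cases h6 : y ≤ 6
      · simp [indicator_of_mem (mem_Iic.mpr h6), hy']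
      · simp [indicator_of_notMem (fun h => h6 (mem_Iic.mp h))]
    rw [this, setIntegral_indicator measurableSet_Iic, Ioi_inter_Iic, setIntegral_const]
    simp
  rw [e2, Measure.real, Complex.volume_ball]
  have := Real.pi_lt_d2
  simp only [ENNReal.toReal_mul, ENNReal.toReal_pow, ENNReal.coe_toReal, NNReal.coe_real_pi,
    Complex.finrank_real_complex, ENNReal.ofReal_one, ENNReal.toReal_one, smul_eq_mul,
    nsmul_eq_mul]
  norm_num
  linarith

theorem PotS_main {g F : ℂ → ℝ} {A c : ℝ} (a : ℂ) (hc0 : 0 ≤ c) (ha : ‖a‖ ≤ 4)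
    (hs : ∀ u, g u ≠ 0 → ‖u‖ ≤ 2) (hb : ∀ u, |g u| ≤ A) (hF0 : ∀ u, 0 ≤ F u)
    (hF : ∀ u, u ≠ a → ‖u‖ ≤ 2 → F u ≤ c + ‖a - u‖⁻¹) :
    ∫ u, F u * |g u| ≤ (13 * c + 38) * A := by
  have i1 := PotS_ind_int.const_mul c
  have i2 := PotS_inv_int.comp_sub_left a
  refine PotS_dom (H := fun u => c * (closedBall (0 : ℂ) 2).indicator (fun _ => (1 : ℝ)) u +
    (closedBall (0 : ℂ) 6).indicator (fun u => ‖u‖⁻¹) (a - u)) hs hb hF0 (i1.add i2)
    (fun u => ?_) ?_ ?_
  · exact add_nonneg (mul_nonneg hc0 (indicator_nonneg (fun _ _ => zero_le_one) _))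
      (indicator_nonneg (fun _ _ => inv_nonneg.mpr (norm_nonneg _)) _)
  · have h0 : ∀ᵐ u : ℂ, u ≠ a := by simp [ae_iff]
    filter_upwards [h0] with u hu h2
    have h6 : ‖a - u‖ ≤ 6 := by linarith [norm_sub_le a u]
    rw [indicator_of_mem (by simpa using h2), indicator_of_mem (by simpa using h6), mul_one]
    exact hF u hu h2
  · rw [integral_add i1 i2, integral_const_mul,
      integral_sub_left_eq_self ((closedBall (0 : ℂ) 6).indicator fun u => ‖u‖⁻¹) volume a]
    have := mul_le_mul_of_nonneg_left PotS_area hc0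
    linarith [PotS_inv6]

theorem PotS_mass {g : ℂ → ℝ} {A : ℝ} (hs : ∀ u, g u ≠ 0 → ‖u‖ ≤ 2)
    (hb : ∀ u, |g u| ≤ A) : ∫ u, |g u| ≤ 13 * A := by
  have := PotS_dom (F := fun _ => 1) hs hb (fun _ => zero_le_one) PotS_ind_int
    (fun u => indicator_nonneg (fun _ _ => zero_le_one) _)
    (Eventually.of_forall fun u hu => by rw [indicator_of_mem (by simpa using hu)]) PotS_area
  simpa using this

theorem PotS_abs_scl (ρ : ℝ) (g : ℂ → ℝ) (u : ℂ) :
    |scl ρ g u| = scl ρ (fun z => |g z|) u := by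
  rw [scl, scl, abs_mul, abs_of_nonneg (inv_nonneg.mpr (sq_nonneg ρ))]

theorem PB.of_bdd {g : ℂ → ℝ} {τ : ℝ} (hc : Continuous g) (hs : ∀ u, g u ≠ 0 → ‖u‖ < 2)
    (hb : ∀ u, |g u| ≤ τ) : PB g (1000 * τ) := by
  have hA : 0 ≤ τ := (abs_nonneg _).trans (hb 0)
  have hs' : ∀ u, g u ≠ 0 → ‖u‖ ≤ 2 := fun u hu => (hs u hu).le
  refine ⟨hc, hs, by linarith [PotS_mass hs' hb], fun w hw => ?_, fun w hw => ?_⟩
  · have := PotS_main (F := fun u => |Real.log ‖w - u‖|) (c := 4) w (by norm_num) (by linarith)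
      hs' hb (fun _ => abs_nonneg _) fun u _ hu => by
        linarith [PotS_abslog (norm_nonneg (w - u)), norm_sub_le w u]
    linarith
  · by_cases h4 : ‖w‖ ≤ 1 / 4
    · have := PotS_main (F := fun u => |Real.log ‖1 - u * w‖|) (c := 4) 0 (by norm_num)
        (by simp) hs' hb (fun _ => abs_nonneg _) fun u _ hu => by
          have h1 : ‖u * w‖ ≤ 1 / 2 := by
            rw [norm_mul]
            nlinarith [norm_nonneg u, norm_nonneg w]
          have := inv_nonneg.mpr (norm_nonneg (0 - u))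
          linarith [PotS_half h1]
      linarith
    · rw [not_le] at h4
      have hw0 : w ≠ 0 := by
        rintro rfl
        rw [norm_zero] at h4
        linarith
      have hi : ‖w‖⁻¹ ≤ 4 := by
        rw [inv_le_comm₀ (by linarith) (by norm_num)]
        linarith
      have hi' : ‖w⁻¹‖ ≤ 4 := by rwa [norm_inv]
      have := PotS_main (F := fun u => |Real.log ‖1 - u * w‖|) (c := 12) w⁻¹ (by norm_num)
        hi' hs' hb (fun _ => abs_nonneg _) fun u hne hu => by
          have e : 1 - u * w = (w⁻¹ - u) * w := by field_simp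
          rw [e, norm_mul, Real.log_mul (norm_ne_zero_iff.mpr (sub_ne_zero.mpr hne.symm))
            (norm_ne_zero_iff.mpr hw0)]
          have := abs_add_le (Real.log ‖w⁻¹ - u‖) (Real.log ‖w‖)
          linarith [PotS_abslog (norm_nonneg (w⁻¹ - u)), PotS_abslog (norm_nonneg w),
            norm_sub_le w⁻¹ u]
      linarith

theorem integral_scl {ρ : ℝ} (hρ : 0 < ρ) (F g : ℂ → ℝ) :
    ∫ u, F u * scl ρ g u = ∫ u, F (ρ * u) * g u := by
  have h := Measure.integral_comp_smul (volume : Measure ℂ) (fun u => F u * g (u / ρ)) ρ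
  have hρ' : (ρ : ℂ) ≠ 0 := by exact_mod_cast hρ.ne'
  have e : (fun x : ℂ => F (ρ • x) * g (ρ • x / ρ)) = fun x => F (ρ * x) * g x := by
    funext x
    rw [Complex.real_smul, mul_div_cancel_left₀ _ hρ']
  rw [e, Complex.finrank_real_complex, abs_of_nonneg (inv_nonneg.mpr (sq_nonneg ρ)),
    smul_eq_mul, ← integral_const_mul] at h
  rw [h]
  refine integral_congr_ae (Eventually.of_forall fun u => ?_)
  simp only [scl]
  ring

theorem integral_abs_le {g : ℂ → ℝ} {A : ℝ} (hs : ∀ u, g u ≠ 0 → ‖u‖ ≤ 2)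
    (hb : ∀ u, |g u| ≤ A) : ∫ u, |g u| ≤ 13 * A := by
  exact PotS_mass hs hb

theorem PB.of_scl {g : ℂ → ℝ} {A ρ : ℝ} (hc : Continuous g) (hs : ∀ u, g u ≠ 0 → ‖u‖ ≤ 2)
    (hb : ∀ u, |g u| ≤ A) (hρ : 0 < ρ) (hρ' : ρ ≤ 1 / 8) :
    PB (scl ρ g) (1000 * A * (1 + |Real.log ρ|)) := by
  have hA : 0 ≤ A := (abs_nonneg _).trans (hb 0)
  have hl : 0 ≤ |Real.log ρ| := abs_nonneg _
  have hAl : 0 ≤ A * |Real.log ρ| := mul_nonneg hA hl
  have hρc : (ρ : ℂ) ≠ 0 := by exact_mod_cast hρ.ne'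
  have hn : ‖(ρ : ℂ)‖ = ρ := by rw [Complex.norm_real, Real.norm_eq_abs, abs_of_pos hρ]
  refine ⟨?_, fun u hu => ?_, ?_, fun w hw => ?_, fun w hw => ?_⟩
  · exact continuous_const.mul (hc.comp (continuous_id.div_const _))
  · have h1 := hs _ (right_ne_zero_of_mul hu)
    rw [norm_div, hn, div_le_iff₀ hρ] at h1
    linarith
  · have h1 := integral_scl hρ (fun _ => 1) fun z => |g z|
    simp only [one_mul] at h1
    simp only [PotS_abs_scl]
    rw [h1]
    nlinarith [PotS_mass hs hb]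
  · simp only [PotS_abs_scl]
    rw [integral_scl hρ (fun u => |Real.log ‖w - u‖|) fun z => |g z|]
    by_cases h4 : ‖w‖ ≤ 4 * ρ
    · have ha : ‖w / ρ‖ ≤ 4 := by rwa [norm_div, hn, div_le_iff₀ hρ]
      have := PotS_main (F := fun u => |Real.log ‖w - ρ * u‖|) (c := 6 + |Real.log ρ|) (w / ρ)
        (by linarith) ha hs hb (fun _ => abs_nonneg _) fun u hne hu => by
          have e : w - ρ * u = ρ * (w / ρ - u) := by field_simp
          rw [e, norm_mul, hn, Real.log_mul hρ.ne'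
            (norm_ne_zero_iff.mpr (sub_ne_zero.mpr hne.symm))]
          have := abs_add_le (Real.log ρ) (Real.log ‖w / ρ - u‖)
          linarith [PotS_abslog (norm_nonneg (w / ρ - u)), norm_sub_le (w / ρ) u]
      nlinarith
    · rw [not_le] at h4
      have := PotS_main (F := fun u => |Real.log ‖w - ρ * u‖|) (c := 3 + |Real.log ρ|) 0
        (by linarith) (by simp) hs hb (fun _ => abs_nonneg _) fun u _ hu => by
          have h1 : ‖(ρ : ℂ) * u‖ ≤ 2 * ρ := by
            rw [norm_mul, hn]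
            nlinarith
          have h2 : ρ ≤ ‖w - ρ * u‖ := by linarith [norm_sub_norm_le w (ρ * u)]
          have h3 : ‖w - ρ * u‖ ≤ 3 := by linarith [norm_sub_le w (ρ * u)]
          have h5 := Real.log_le_log hρ h2
          have h6 := Real.log_le_self (norm_nonneg (w - ρ * u))
          have h7 := neg_abs_le (Real.log ρ)
          have h8 := inv_nonneg.mpr (norm_nonneg (0 - u))
          rw [abs_le]
          constructor <;> linarith
      nlinarith
  · simp only [PotS_abs_scl]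
    rw [integral_scl hρ (fun u => |Real.log ‖1 - u * w‖|) fun z => |g z|]
    have := PotS_main (F := fun u => |Real.log ‖1 - ρ * u * w‖|) (c := 4) 0 (by norm_num)
      (by simp) hs hb (fun _ => abs_nonneg _) fun u _ hu => by
        have h1 : ‖(ρ : ℂ) * u * w‖ ≤ 1 / 2 := by
          rw [norm_mul, norm_mul, hn]
          have h2 : ρ * ‖u‖ ≤ 1 / 4 := by nlinarith [norm_nonneg u]
          have h3 : 0 ≤ ρ * ‖u‖ := mul_nonneg hρ.le (norm_nonneg u)
          nlinarith [norm_nonneg w]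
        have := inv_nonneg.mpr (norm_nonneg (0 - u))
        linarith [PotS_half h1]
    nlinarith

theorem scl_smooth {k : WithTop ℕ∞} {g : ℂ → ℝ} (hg : ContDiff ℝ k g) (ρ : ℝ) :
    ContDiff ℝ k (scl ρ g) := by
  have h1 : ContDiff ℝ k fun u : ℂ => u / (ρ : ℂ) := contDiff_id.div_const _
  exact contDiff_const.mul (hg.comp h1)

theorem scl_ne {g : ℂ → ℝ} {ρ : ℝ} (hρ : 0 < ρ) {w : ℂ} (h : scl ρ g w ≠ 0) :
    ∃ u, g u ≠ 0 ∧ w = ρ * u := by
  have hρc : (ρ : ℂ) ≠ 0 := by exact_mod_cast hρ.ne'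
  exact ⟨w / ρ, right_ne_zero_of_mul h, by field_simp⟩

end Pool.Agent.MP_4f0ed6_gt
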