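import Pool.Agent.MP_4f0ed6_gt.Fld2
import Pool.Agent.MP_4f0ed6_gt.Fld3
import Pool.Agent.MP_4f0ed6_gt.PotS

open Set Laplacian Filter Topology MeasureTheory Metric InnerProductSpace
open scoped ContDiff

namespace Pool.Agent.MP_4f0ed6_gt

/-- the space of unknowns -/
abbrev Fix_X (V P : Type) : Type :=
  (P → ℝ) × (P → BoundedContinuousFunction ℂ ℝ) × (V × Bool → BoundedContinuousFunction ℂ ℝ)

theorem Fix_dist_le {V P : Type} [Fintype V] [Fintype P] {A B : Fix_X V P} {c : ℝ} (hc : 0 ≤ c)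
    (h1 : ∀ π, |A.1 π - B.1 π| ≤ c) (h2 : ∀ π x, |A.2.1 π x - B.2.1 π x| ≤ c)
    (h3 : ∀ α x, |A.2.2 α x - B.2.2 α x| ≤ c) : dist A B ≤ c := by
  rw [Prod.dist_eq, Prod.dist_eq]
  refine max_le ((dist_pi_le_iff hc).2 h1) (max_le ((dist_pi_le_iff hc).2 fun π => ?_)
    ((dist_pi_le_iff hc).2 fun α => ?_))
  · exact (BoundedContinuousFunction.dist_le hc).2 (h2 π)
  · exact (BoundedContinuousFunction.dist_le hc).2 (h3 α)

theorem Fix_le_dist {V P : Type} [Fintype V] [Fintype P] (A B : Fix_X V P) :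
    (∀ π, |A.1 π - B.1 π| ≤ dist A B) ∧ (∀ π x, |A.2.1 π x - B.2.1 π x| ≤ dist A B) ∧
      ∀ α x, |A.2.2 α x - B.2.2 α x| ≤ dist A B := by
  rw [Prod.dist_eq, Prod.dist_eq]
  refine ⟨fun π => (dist_le_pi_dist A.1 B.1 π).trans (le_max_left _ _), fun π x => ?_,
    fun α x => ?_⟩
  · exact ((BoundedContinuousFunction.dist_coe_le_dist x).trans
      (dist_le_pi_dist A.2.1 B.2.1 π)).trans ((le_max_left _ _).trans (le_max_right _ _))
  · exact ((BoundedContinuousFunction.dist_coe_le_dist x).trans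
      (dist_le_pi_dist A.2.2 B.2.2 α)).trans ((le_max_right _ _).trans (le_max_right _ _))

/-- radial retraction onto a disc -/
noncomputable def Fix_cl (R : ℝ) (x : ℂ) : ℂ := (R / max R ‖x‖) • x

theorem Fix_cl_cont {R : ℝ} (hR : 0 < R) : Continuous (Fix_cl R) := by
  refine Continuous.smul (continuous_const.div (continuous_const.max continuous_norm) fun x => ?_)
    continuous_id
  exact (hR.trans_le (le_max_left _ _)).ne'

theorem Fix_cl_le {R : ℝ} (hR : 0 < R) (x : ℂ) : ‖Fix_cl R x‖ ≤ R := by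
  have h : 0 < max R ‖x‖ := hR.trans_le (le_max_left _ _)
  rw [Fix_cl, norm_smul, Real.norm_of_nonneg (div_pos hR h).le, div_mul_eq_mul_div, div_le_iff₀ h]
  exact mul_le_mul_of_nonneg_left (le_max_right _ _) hR.le

theorem Fix_cl_eq {R : ℝ} (hR : 0 < R) {x : ℂ} (hx : ‖x‖ = R) : Fix_cl R x = x := by
  rw [Fix_cl, hx, max_self, div_self hR.ne', one_smul]

theorem Fix_ext {R : ℝ} (hR : 0 < R) {f : ℂ → ℝ} (hf : ∀ x, ‖x‖ ≤ R → ContinuousAt f x) :
    ∃ F : BoundedContinuousFunction ℂ ℝ, ∀ x, F x = f (Fix_cl R x) := by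
  have hc : ContinuousOn f (closedBall 0 R) := fun x hx =>
    (hf x (mem_closedBall_zero_iff.1 hx)).continuousWithinAt
  obtain ⟨C, hC⟩ := (isCompact_closedBall (0 : ℂ) R).exists_bound_of_continuousOn hc
  have hm : ∀ x, Fix_cl R x ∈ closedBall (0 : ℂ) R := fun x =>
    mem_closedBall_zero_iff.2 (Fix_cl_le hR x)
  exact ⟨BoundedContinuousFunction.ofNormedAddCommGroup (fun x => f (Fix_cl R x))
    (hc.comp_continuous (Fix_cl_cont hR) hm) C fun x => hC _ (hm x), fun _ => rfl⟩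

theorem Fix_ext' {f : ℂ → ℝ} (hf : Continuous f) (hs : HasCompactSupport f) :
    ∃ F : BoundedContinuousFunction ℂ ℝ, ∀ x, F x = f x := by
  obtain ⟨C, hC⟩ := hs.exists_bound_of_continuous hf
  exact ⟨BoundedContinuousFunction.ofNormedAddCommGroup f hf C hC, fun _ => rfl⟩

theorem Fix_cs {A K : Type} {G : Glue A K} {ν F : A → ℂ → ℝ} (hν : G.CS 0 ν)
    (hF : ∀ α, Continuous (F α)) (c : ℝ) : G.CS 0 fun α z => c * ν α z * F α z := by
  intro α
  obtain ⟨h1, h2, h3⟩ := hν.const_mul (fun _ => c) α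
  exact ⟨h1.mul (contDiff_zero.2 (hF α)), h2.mul_right, (tsupport_mul_subset_left).trans h3⟩

/-- the input given by an unknown -/
noncomputable def Fix_in {V P : Type} [Fintype P] (Q : Plumb V P) (u : V → ℝ) (s : ℝ)
    (ν ext : V × Bool → ℂ → ℝ) (X : Fix_X V P) : Inp V P where
  u := u
  b π := X.1 π / (4 * Q.n * Q.L π)
  h π := X.2.1 π
  g α z := -s * ν α z * X.2.2 α z + ext α z

theorem Fix_est {V P : Type} [Fintype P] {Q : Plumb V P} {β : V → ℂ → ℝ}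
    {Λ δ a om : ℝ} {ν : V × Bool → ℂ → ℝ} (hQ : Q.Ok) (hβ : Q.Bump β Λ)
    (hδ : ∀ α, PB (ν α) δ) (ha0 : 0 ≤ a) (ha : ∀ π, 1 ≤ a * Q.L π)
    (hom0 : 0 ≤ om) (hom : ∀ π, Q.r π ≤ om * Q.sep)
    (hsm : 1000 * Q.n ^ 2 * (Λ * δ + Λ * a + om) ≤ 1) {Z : Inp V P} (hZ : Q.Reg Z 0) {d : ℝ}
    (hd : 0 ≤ d) (hb : ∀ π, 4 * Q.n * Q.L π * |Z.b π| ≤ d) (hh : ∀ π x, |Z.h π x| ≤ d)
    (hg : ∀ α z, |Z.g α z| ≤ d * |ν α z|) :
    (∀ π (x : ℂ), ‖x‖ ≤ Q.sep / 2 → |Q.R0 β Z π x| ≤ d / 2) ∧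
      (∀ π, 4 * Q.n * |Q.RR β Z π - Z.u (Q.pc π)| ≤ d / 4) ∧
      ∀ α, ∀ w ∈ Q.W α, |Q.phi β Z α w - Z.u α.1| ≤ d / 2 := by
  have hn : 1 ≤ Q.n := Plumb.one_le_n
  have hΛ := hβ.one_le
  obtain ⟨v₀⟩ := hQ.ne
  have hδ0 : 0 ≤ δ := (hδ (v₀, false)).nonneg
  have hBh : ∀ π, Q.L π * |Z.b π| ≤ d / (4 * Q.n) := fun π => by
    rw [le_div_iff₀ (by positivity)]
    linarith [hb π]
  have hBh' : d / (4 * Q.n) ≤ d := div_le_self hd (by linarith)
  have hB : ∀ π, |Z.b π| ≤ a * d := fun π =>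
    calc |Z.b π| ≤ a * Q.L π * |Z.b π| := le_mul_of_one_le_left (abs_nonneg _) (ha π)
      _ = a * (Q.L π * |Z.b π|) := mul_assoc _ _ _
      _ ≤ a * d := mul_le_mul_of_nonneg_left ((hBh π).trans hBh') ha0
  have hG : ∀ α, PB (Z.g α) (d * δ) := fun α =>
    (hδ α).of_le hd (contDiff_zero.1 (hZ.2 α).1) (hg α)
  set e := Λ * δ + Λ * a + om with he
  have hE : 8 * Λ * (d * δ + Q.n * (a * d)) + 16 * Q.n * om * d ≤ 16 * Q.n * e * d := by
    have h1 : 0 ≤ Λ * δ * d := by positivity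
    have h2 : 0 ≤ Λ * a * d * Q.n := by positivity
    have h3 : Λ * δ * d ≤ Λ * δ * d * Q.n := le_mul_of_one_le_right h1 hn
    rw [he]
    nlinarith
  obtain ⟨h1, h2, h3⟩ := Plumb.fld_le hQ hβ hom0 hom hZ.1 (by positivity) (by positivity) hd hB hBh
    (fun π x _ => hh π x) hG hE
  have he0 : 0 ≤ e := by positivity
  have k1 : Q.n * (16 * Q.n * e * d) ≤ 16 / 1000 * d := by
    have := mul_le_mul_of_nonneg_right hsm hd
    nlinarith
  have k2 : 16 * Q.n * e * d ≤ Q.n * (16 * Q.n * e * d) :=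
    le_mul_of_one_le_left (by positivity) hn
  have k3 : Q.n * (d / (4 * Q.n)) = d / 4 := by field_simp
  refine ⟨fun π x hx => ?_, fun π => ?_, fun α w hw => ?_⟩
  · linarith [h1 π x hx]
  · have := mul_le_mul_of_nonneg_left (h2 π) (by positivity : 0 ≤ 4 * Q.n)
    linarith
  · linarith [h3 α w hw]

theorem Plumb.exists_fix {V P : Type} [Fintype V] [Fintype P] {Q : Plumb V P} {β : V → ℂ → ℝ}
    {Λ δ a om s : ℝ} {ν ext : V × Bool → ℂ → ℝ} (hQ : Q.Ok) (hβ : Q.Bump β Λ)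
    (hν : Q.glue.CS 0 ν) (hδ : ∀ α, PB (ν α) δ) (ha0 : 0 ≤ a) (ha : ∀ π, 1 ≤ a * Q.L π)
    (hom0 : 0 ≤ om) (hom : ∀ π, Q.r π ≤ om * Q.sep)
    (hsm : 1000 * Q.n ^ 2 * (Λ * δ + Λ * a + om) ≤ 1) (hs : s ∈ Icc (0 : ℝ) 1)
    (hext : Q.glue.CS 0 ext) (u : V → ℝ) :
    ∃ Y : Inp V P, Y.u = u ∧ Q.IsFix β Y s ν ext ∧
      ((∀ α z, ext α z = 0) → ∀ N : ℝ, (∀ v, |u v| ≤ N) →
        (∀ π, Q.L π * |Y.b π| ≤ 4 * N) ∧
        (∀ π (x : ℂ), ‖x‖ = Q.r π / 2 → |Y.h π x| ≤ 16 * Q.n * N) ∧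
        ∀ α, ∀ w ∈ Q.W α, |Q.phi β Y α w| ≤ 16 * Q.n * N) := by
  have hn : 1 ≤ Q.n := Plumb.one_le_n
  choose ξ hξ1 hξ2 hξ3 hξ4 hξ5 using fun α : V × Bool =>
    exists_cutoff (hν α).2.1.isCompact (Plumb.isOpen_W (Q := Q) α) (hν α).2.2
  have hreg : ∀ X : Fix_X V P, Q.Reg (Fix_in Q u s ν ext X) 0 := fun X =>
    ⟨fun π => (X.2.1 π).continuous, (Fix_cs hν (fun α => (X.2.2 α).continuous) (-s)).add hext⟩
  have hreg' : ∀ X : Fix_X V P, Q.Reg (Fix_in Q u s ν ext X) (0 : ℕ) := fun X => by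
    rw [Nat.cast_zero]
    exact hreg X
  have hr : ∀ π, 0 < Q.r π / 2 := fun π => half_pos (Plumb.r_pos π)
  have hr' : ∀ π, Q.r π / 2 ≤ Q.sep / 2 := fun π => by linarith [hQ.r_le' π, hr π]
  have hcl : ∀ π x, ‖Fix_cl (Q.r π / 2) x‖ ≤ Q.sep / 2 := fun π x =>
    (Fix_cl_le (hr π) x).trans (hr' π)
  have hT : ∀ X : Fix_X V P, ∃ X' : Fix_X V P,
      (∀ π, X'.1 π = 4 * Q.n * (Q.RR β (Fix_in Q u s ν ext X) π -
        Q.RR β (Fix_in Q u s ν ext X) (Q.σ π))) ∧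
      (∀ π x, X'.2.1 π x = Q.R0 β (Fix_in Q u s ν ext X) π (Fix_cl (Q.r π / 2) x)) ∧
      ∀ α z, X'.2.2 α z = ξ α z * Q.phi β (Fix_in Q u s ν ext X) α z := by
    intro X
    choose F hF using fun π => Fix_ext (f := Q.R0 β (Fix_in Q u s ν ext X) π) (hr π) fun x hx =>
      (Plumb.R0_reg hQ hβ (hreg' X) π (hx.trans (hr' π))).continuousAt
    choose G hG using fun α => Fix_ext' (continuous_mul_of_supp (Plumb.isOpen_W α)
      (hξ1 α).continuous (hξ3 α) (Plumb.phi_reg hQ hβ (hreg' X) α).continuousOn) (hξ2 α).mul_right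
    exact ⟨(_, F, G), fun _ => rfl, hF, hG⟩
  choose T hT1 hT2 hT3 using hT
  have hL : ∀ π, 0 < 4 * Q.n * Q.L π := fun π => by
    have := hQ.L_pos π
    positivity
  have hxi : ∀ α z {f c : ℝ}, 0 ≤ c → (z ∈ Q.W α → |f| ≤ c) → |ξ α z * f| ≤ c := by
    intro α z f c hc h
    by_cases hz : ξ α z = 0
    · rwa [hz, zero_mul, abs_zero]
    · rw [abs_mul, abs_of_nonneg (hξ4 α z).1]
      exact (mul_le_of_le_one_left (abs_nonneg _) (hξ4 α z).2).trans
        (h (hξ3 α (subset_tsupport _ hz)))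
  have hsν : ∀ α z {f c : ℝ}, |f| ≤ c → |-s * ν α z * f| ≤ c * |ν α z| := by
    intro α z f c h
    rw [abs_mul, abs_mul, abs_neg, abs_of_nonneg hs.1, mul_comm c]
    exact mul_le_mul (mul_le_of_le_one_left (abs_nonneg _) hs.2) h (abs_nonneg _) (abs_nonneg _)
  have hcon : ContractingWith (1 / 2) T := by
    refine ⟨by norm_num, LipschitzWith.of_dist_le_mul fun X X' => ?_⟩
    obtain ⟨d1, d2, d3⟩ := Fix_le_dist X X'
    obtain ⟨e1, e2, e3⟩ := Fix_est hQ hβ hδ ha0 ha hom0 hom hsm ((hreg X).sub (hreg X'))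
      (dist_nonneg (x := X) (y := X')) (fun π => by
        have e : ((Fix_in Q u s ν ext X).sub (Fix_in Q u s ν ext X')).b π =
            (X.1 π - X'.1 π) / (4 * Q.n * Q.L π) := (sub_div _ _ _).symm
        rw [e, abs_div, abs_of_pos (hL π), mul_div_cancel₀ _ (hL π).ne']
        exact d1 π) d2 fun α z => by
        have e : ((Fix_in Q u s ν ext X).sub (Fix_in Q u s ν ext X')).g α z =
            -s * ν α z * (X.2.2 α z - X'.2.2 α z) := by
          simp only [Inp.sub, Fix_in]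
          ring
        rw [e]
        exact hsν α z (d3 α z)
    have hu : ∀ v, ((Fix_in Q u s ν ext X).sub (Fix_in Q u s ν ext X')).u v = 0 := fun v =>
      sub_self _
    simp only [hu, sub_zero] at e2 e3
    have e0 : ((1 / 2 : NNReal) : ℝ) * dist X X' = dist X X' / 2 := by
      push_cast
      ring
    rw [e0]
    refine Fix_dist_le (by positivity) (fun π => ?_) (fun π x => ?_) fun α z => ?_
    · have a1 := e2 π
      have a2 := e2 (Q.σ π)
      rw [Plumb.RR_sub hQ hβ (hreg X) (hreg X')] at a1 a2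
      rw [hT1, hT1, ← mul_sub, sub_sub_sub_comm, abs_mul, abs_of_pos (by positivity)]
      have := mul_le_mul_of_nonneg_left (abs_sub
        (Q.RR β (Fix_in Q u s ν ext X) π - Q.RR β (Fix_in Q u s ν ext X') π)
        (Q.RR β (Fix_in Q u s ν ext X) (Q.σ π) - Q.RR β (Fix_in Q u s ν ext X') (Q.σ π)))
        (by positivity : 0 ≤ 4 * Q.n)
      linarith
    · rw [hT2, hT2, ← Plumb.R0_sub hQ hβ (hreg X) (hreg X') π (hcl π x)]
      exact e1 π _ (hcl π x)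
    · rw [hT3, hT3, ← mul_sub]
      refine hxi α z (by positivity) fun hz => ?_
      rw [← Plumb.phi_sub hQ hβ (hreg X) (hreg X') α hz]
      exact e3 α z hz
  obtain ⟨X, hX⟩ : ∃ X, T X = X := ⟨_, hcon.fixedPoint_isFixedPt⟩
  have f1 := hT1 X
  have f2 := hT2 X
  have f3 := hT3 X
  rw [hX] at f1 f2 f3
  refine ⟨Fix_in Q u s ν ext X, rfl, ⟨hreg X, fun π => ?_, fun π x hx => ?_, fun α z => ?_⟩,
    fun h0 N hN => ?_⟩
  · have e : (Fix_in Q u s ν ext X).b π = X.1 π / (4 * Q.n * Q.L π) := rfl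
    have := (hQ.L_pos π).ne'
    rw [e, f1]
    field_simp
  · exact (f2 π x).trans (by rw [Fix_cl_eq (hr π) hx])
  · have e : (Fix_in Q u s ν ext X).g α z = -s * ν α z * X.2.2 α z + ext α z := rfl
    rw [e, f3]
    by_cases hz : ν α z = 0
    · simp [hz]
    · rw [hξ5 α z (subset_tsupport _ hz), one_mul]
  · obtain ⟨v₀⟩ := hQ.ne
    have hN0 : 0 ≤ N := (abs_nonneg _).trans (hN v₀)
    have hnN : N ≤ Q.n * N := le_mul_of_one_le_left hN0 hn
    obtain ⟨d1, d2, d3⟩ := Fix_le_dist X 0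
    simp only [Prod.fst_zero, Prod.snd_zero, Pi.zero_apply, BoundedContinuousFunction.coe_zero,
      sub_zero] at d1 d2 d3
    have hd0 : 0 ≤ dist X 0 := dist_nonneg
    have hb : ∀ π, 4 * Q.n * Q.L π * |(Fix_in Q u s ν ext X).b π| ≤ dist X 0 := fun π => by
      have e : (Fix_in Q u s ν ext X).b π = X.1 π / (4 * Q.n * Q.L π) := rfl
      rw [e, abs_div, abs_of_pos (hL π), mul_div_cancel₀ _ (hL π).ne']
      exact d1 π
    obtain ⟨e1, e2, e3⟩ := Fix_est hQ hβ hδ ha0 ha hom0 hom hsm (hreg X) hd0 hb d2 fun α z => by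
      have e : (Fix_in Q u s ν ext X).g α z = -s * ν α z * X.2.2 α z + ext α z := rfl
      rw [e, h0, add_zero]
      exact hsν α z (d3 α z)
    have hu : (Fix_in Q u s ν ext X).u = u := rfl
    rw [hu] at e2 e3
    have e4 : ∀ α, ∀ w ∈ Q.W α, |Q.phi β (Fix_in Q u s ν ext X) α w| ≤ N + dist X 0 / 2 := by
      intro α w hw
      have := abs_sub_abs_le_abs_sub (Q.phi β (Fix_in Q u s ν ext X) α w) (u α.1)
      linarith [e3 α w hw, hN α.1]
    have e5 : ∀ π, 4 * Q.n * |Q.RR β (Fix_in Q u s ν ext X) π| ≤ 4 * (Q.n * N) + dist X 0 / 4 := by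
      intro π
      have h1 := abs_sub_abs_le_abs_sub (Q.RR β (Fix_in Q u s ν ext X) π) (u (Q.pc π))
      have h2 := mul_le_mul_of_nonneg_left (hN (Q.pc π)) (by positivity : 0 ≤ 4 * Q.n)
      have h3 := mul_le_mul_of_nonneg_left h1 (by positivity : 0 ≤ 4 * Q.n)
      linarith [e2 π]
    have hd : dist X 0 ≤ 8 * (Q.n * N) + dist X 0 / 2 := by
      refine Fix_dist_le (by positivity) (fun π => ?_) (fun π x => ?_) fun α z => ?_ <;>
        simp only [Prod.fst_zero, Prod.snd_zero, Pi.zero_apply,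
          BoundedContinuousFunction.coe_zero, sub_zero]
      · rw [f1, abs_mul, abs_of_pos (by positivity)]
        have := mul_le_mul_of_nonneg_left (abs_sub (Q.RR β (Fix_in Q u s ν ext X) π)
          (Q.RR β (Fix_in Q u s ν ext X) (Q.σ π))) (by positivity : 0 ≤ 4 * Q.n)
        linarith [e5 π, e5 (Q.σ π)]
      · rw [f2]
        linarith [e1 π _ (hcl π x)]
      · rw [f3]
        refine hxi α z (by positivity) fun hz => ?_
        linarith [e4 α z hz]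
    refine ⟨fun π => ?_, fun π x _ => ?_, fun α w hw => ?_⟩
    · refine le_of_mul_le_mul_left ?_ (by positivity : 0 < 4 * Q.n)
      linarith [hb π]
    · have := d2 π x
      change |X.2.1 π x| ≤ _
      linarith
    · linarith [e4 α w hw]

end Pool.Agent.MP_4f0ed6_gt
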