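import Pool.Agent.MP_4f0ed6_gt.PotD

open Set Laplacian Filter Topology MeasureTheory Metric InnerProductSpace
open scoped ContDiff

namespace Pool.Agent.MP_4f0ed6_gt

lemma PotC_conv (k : ℕ) {g : ℂ → ℝ} (hg : ContDiff ℝ k g) (hc : HasCompactSupport g) :
    ContDiff ℝ k (fun w : ℂ => ∫ u : ℂ, g (w - u) • ((‖u‖ ^ 2)⁻¹ • innerSL ℝ u)) := by
  have h := hc.contDiff_convolution_right (𝕜 := ℝ) (n := (k : ℕ∞)) (μ := volume)
    (ContinuousLinearMap.lsmul ℝ ℝ (E := ℂ →L[ℝ] ℝ)).flip (PotD_loc (le_refl (0 : ℝ))) hg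
  have e : (fun w : ℂ => ∫ u : ℂ, g (w - u) • ((‖u‖ ^ 2)⁻¹ • innerSL ℝ u)) =
      convolution (PotD_K 0) g (ContinuousLinearMap.lsmul ℝ ℝ (E := ℂ →L[ℝ] ℝ)).flip volume := by
    funext w
    simp only [convolution, PotD_K, add_zero, ContinuousLinearMap.flip_apply,
      ContinuousLinearMap.lsmul_apply]
  rw [e]
  exact h

theorem NP_contDiff (k : ℕ) {g : ℂ → ℝ} (hg : ContDiff ℝ k g) (hc : HasCompactSupport g) :
    ContDiff ℝ (k + 1 : ℕ) (NP g) := by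
  have h : ContDiff ℝ ((k : WithTop ℕ∞) + 1) (NP g) :=
    contDiff_succ_iff_hasFDerivAt.2
      ⟨_, PotC_conv k hg hc, fun w => NP_hasFDerivAt hg.continuous hc w⟩
  exact_mod_cast h

theorem NP_smooth {g : ℂ → ℝ} (hg : ContDiff ℝ ∞ g) (hc : HasCompactSupport g) :
    ContDiff ℝ ∞ (NP g) := by
  rw [contDiff_infty] at hg ⊢
  intro n
  exact (NP_contDiff n (hg n) hc).of_le (by exact_mod_cast Nat.le_succ n)

end Pool.Agent.MP_4f0ed6_gt
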