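import Pool.Agent.MP_4f0ed6_gt.PotF
import Pool.Agent.MP_4f0ed6_gt.Conf

open Set Laplacian Filter Topology MeasureTheory Metric InnerProductSpace
open scoped ContDiff

namespace Pool.Agent.MP_4f0ed6_gt

theorem PotL_conv (g : ℂ → ℝ) :
    NP g = convolution (fun u : ℂ => Real.log ‖u‖) g (ContinuousLinearMap.mul ℝ ℝ) volume := by
  funext w
  rw [convolution_eq_swap]
  simp [NP]

theorem PotL_smooth {g : ℂ → ℝ} (hg : ContDiff ℝ ∞ g) (hc : HasCompactSupport g) :
    ContDiff ℝ ∞ (NP g) := by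
  rw [PotL_conv]
  exact hc.contDiff_convolution_right _ locInt_log hg

theorem PotL_dir_smooth {g : ℂ → ℝ} (hg : ContDiff ℝ ∞ g) (v : ℂ) :
    ContDiff ℝ ∞ (fun u => fderiv ℝ g u v) :=
  (hg.fderiv_right (m := ∞) (by simp)).clm_apply contDiff_const

theorem PotL_dir_cs {g : ℂ → ℝ} (hc : HasCompactSupport g) (v : ℂ) :
    HasCompactSupport (fun u => fderiv ℝ g u v) :=
  hc.fderiv_apply ℝ v

theorem PotL_fderiv {g : ℂ → ℝ} (hg : ContDiff ℝ ∞ g) (hc : HasCompactSupport g) (w v : ℂ) :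
    fderiv ℝ (NP g) w v = NP (fun u => fderiv ℝ g u v) w := by
  have h1 : ContDiff ℝ 1 g := hg.of_le (by simp)
  rw [PotL_conv, PotL_conv, (hc.hasFDerivAt_convolution_right _ locInt_log h1 w).fderiv,
    convolution_precompR_apply _ locInt_log (hc.fderiv ℝ) (h1.continuous_fderiv (by simp))]

theorem PotL_second {f : ℂ → ℝ} (hf : ContDiff ℝ ∞ f) (w v : ℂ) :
    iteratedFDeriv ℝ 2 f w ![v, v] = fderiv ℝ (fun y => fderiv ℝ f y v) w v := by
  have hd : DifferentiableAt ℝ (fderiv ℝ f) w :=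
    ((hf.fderiv_right (m := ∞) (by simp)).differentiable (by simp)) w
  rw [iteratedFDeriv_two_apply, fderiv_clm_apply hd (differentiableAt_const v)]
  simp

theorem PotL_NP_second {g : ℂ → ℝ} (hg : ContDiff ℝ ∞ g) (hc : HasCompactSupport g) (w v : ℂ) :
    iteratedFDeriv ℝ 2 (NP g) w ![v, v] = NP (fun u => iteratedFDeriv ℝ 2 g u ![v, v]) w := by
  rw [PotL_second (PotL_smooth hg hc)]
  have h1 : (fun y => fderiv ℝ (NP g) y v) = NP (fun u => fderiv ℝ g u v) :=
    funext fun y => PotL_fderiv hg hc y v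
  rw [h1, PotL_fderiv (PotL_dir_smooth hg v) (PotL_dir_cs hc v)]
  congr 1
  funext u
  rw [PotL_second hg]

theorem PotL_lap {g : ℂ → ℝ} (hg : ContDiff ℝ ∞ g) (hc : HasCompactSupport g) (w : ℂ) :
    Δ (NP g) w = NP (Δ g) w := by
  have hs : ∀ v : ℂ, (fun u => iteratedFDeriv ℝ 2 g u ![v, v]) =
      fun u => fderiv ℝ (fun y => fderiv ℝ g y v) u v := fun v => funext fun u => PotL_second hg u v
  have hcont : ∀ v : ℂ, Continuous (fun u => iteratedFDeriv ℝ 2 g u ![v, v]) := fun v => by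
    rw [hs]
    exact (PotL_dir_smooth (PotL_dir_smooth hg v) v).continuous
  have hcs : ∀ v : ℂ, HasCompactSupport (fun u => iteratedFDeriv ℝ 2 g u ![v, v]) := fun v => by
    rw [hs]
    exact PotL_dir_cs (PotL_dir_cs hc v) v
  rw [laplacian_eq_iteratedFDeriv_complexPlane (NP g), laplacian_eq_iteratedFDeriv_complexPlane g,
    NP_add (hcont 1) (hcs 1) (hcont _) (hcs _)]
  simp only []
  rw [PotL_NP_second hg hc, PotL_NP_second hg hc]

theorem NP_lap {g : ℂ → ℝ} (hg : ContDiff ℝ ∞ g) (hc : HasCompactSupport g) (w : ℂ) :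
    Δ (NP g) w = 2 * Real.pi * g w := by
  have hF : ContDiff ℝ ∞ (fun u : ℂ => g (w - u)) := hg.comp (contDiff_const.sub contDiff_id)
  have hFc : HasCompactSupport (fun u : ℂ => g (w - u)) :=
    hc.comp_homeomorph (Homeomorph.subLeft w)
  have h := fund_sol hF hFc
  have hl : ∀ u : ℂ, Δ (fun u : ℂ => g (w - u)) u = Δ g (w - u) := fun u => by
    have ha : AnalyticAt ℂ (fun u : ℂ => w - u) u := by fun_prop
    rw [laplacian_comp_hol (τ := fun u : ℂ => w - u) (hg.contDiffAt.of_le (WithTop.coe_le_coe.2 (le_top : (2 : ℕ∞) ≤ ⊤))) ha]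
    have : deriv (fun u : ℂ => w - u) u = -1 := by
      simp
    rw [this]
    simp
  rw [PotL_lap hg hc, PotL_conv, convolution_def]
  simp only [hl, sub_zero] at h
  simpa using h

end Pool.Agent.MP_4f0ed6_gt
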