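import Pool.Agent.MP_4f0ed6_gt.PotH
import Pool.Agent.MP_4f0ed6_gt.PotC
import Pool.Agent.MP_4f0ed6_gt.PotL

open Set Laplacian Filter Topology MeasureTheory Metric InnerProductSpace
open scoped ContDiff

namespace Pool.Agent.MP_4f0ed6_gt

theorem PotQ_hcs {g : ℂ → ℝ} (hs : ∀ u, g u ≠ 0 → ‖u‖ < 2) : HasCompactSupport g :=
  HasCompactSupport.intro (isCompact_closedBall (0 : ℂ) 2) fun u hu => by
    by_contra h
    exact hu (mem_closedBall_zero_iff.2 (hs u h).le)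

theorem PotQ_ev {g : ℂ → ℝ} (hg : Continuous g) (hc : HasCompactSupport g) {w : ℂ}
    (hw : w ≠ 0) :
    NQ g =ᶠ[𝓝 w] fun z => NP g z⁻¹ + (∫ u, g u) * Real.log ‖z‖ := by
  filter_upwards [isOpen_ne.mem_nhds hw] with z hz
  rw [NQ_eq hg hc hz, mul_comm]

theorem PotQ_inv {w : ℂ} (hw : w ≠ 0) : AnalyticAt ℂ (fun z : ℂ => z⁻¹) w :=
  analyticAt_id.inv hw

theorem NQ_contDiff (k : ℕ) {g : ℂ → ℝ} (hg : ContDiff ℝ k g) (hs : ∀ u, g u ≠ 0 → ‖u‖ < 2) :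
    ContDiff ℝ (k + 1 : ℕ) (NQ g) := by
  refine contDiff_iff_contDiffAt.2 fun w => ?_
  rcases eq_or_ne w 0 with rfl | hw
  · exact (NQ_near hg.continuous hs (by simp)).1.of_le (by exact_mod_cast le_top)
  · refine ContDiffAt.congr_of_eventuallyEq ?_ (PotQ_ev hg.continuous (PotQ_hcs hs) hw)
    refine ContDiffAt.add ?_ (contDiffAt_const.mul ?_)
    · exact (NP_contDiff k hg (PotQ_hcs hs)).contDiffAt.comp w
        (analytic_real_smooth (PotQ_inv hw) _)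
    · exact (log_norm_smooth (g := fun z => z) analyticAt_id hw).of_le (by exact_mod_cast le_top)

theorem NQ_lap {g : ℂ → ℝ} (hg : ContDiff ℝ ∞ g) (hs : ∀ u, g u ≠ 0 → ‖u‖ < 2) (w : ℂ) :
    Δ (NQ g) w = 2 * Real.pi * (g w⁻¹ * ‖deriv (fun z : ℂ => z⁻¹) w‖ ^ 2) := by
  rcases eq_or_ne w 0 with rfl | hw
  · rw [(NQ_near hg.continuous hs (by simp)).2, deriv_inv]
    simp
  · have h2 : (2 : WithTop ℕ∞) ≤ ∞ := WithTop.coe_le_coe.2 (le_top : (2 : ℕ∞) ≤ ⊤)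
    have hP : ContDiffAt ℝ 2 (NP g) w⁻¹ :=
      ((NP_smooth hg (PotQ_hcs hs)).of_le h2).contDiffAt
    have hL : ContDiffAt ℝ 2 (fun z : ℂ => Real.log ‖z‖) w :=
      (log_norm_smooth (g := fun z => z) analyticAt_id hw).of_le h2
    rw [lap_congr (PotQ_ev hg.continuous (PotQ_hcs hs) hw),
      lap_add (f := fun z => NP g z⁻¹) (hP.comp w (analytic_real_smooth (PotQ_inv hw) _))
        (contDiffAt_const.mul hL),
      lap_const_mul _ hL, log_norm_lap (g := fun z => z) analyticAt_id hw,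
      laplacian_comp_hol (τ := fun z => z⁻¹) hP (PotQ_inv hw), NP_lap hg (PotQ_hcs hs)]
    ring

end Pool.Agent.MP_4f0ed6_gt
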