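import Pool.Agent.MP_4f0ed6_gt.PlGeo
import Pool.Agent.MP_4f0ed6_gt.PotQ
import Pool.Agent.MP_4f0ed6_gt.Pois

open Set Laplacian Filter Topology MeasureTheory Metric InnerProductSpace
open scoped ContDiff

namespace Pool.Agent.MP_4f0ed6_gt

namespace Plumb

variable {V P : Type} [Fintype P] {Q : Plumb V P} {β : V → ℂ → ℝ} {Λ : ℝ} {Y : Inp V P} {k : ℕ}

theorem Fld1_le (k : ℕ) : ((k : ℕ) : WithTop ℕ∞) ≤ ∞ := by exact_mod_cast le_top

theorem Fld1_two : (2 : WithTop ℕ∞) ≤ ∞ := Fld1_le 2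

theorem Fld1_comb {f : ℂ → ℝ} {g τ : ℂ → ℂ} {w : ℂ} (b : ℝ) (hg : AnalyticAt ℂ g w)
    (h0 : g w ≠ 0) (hτ : AnalyticAt ℂ τ w) (hf : ContDiffAt ℝ ∞ f (τ w) ∧ Δ f (τ w) = 0) :
    ContDiffAt ℝ ∞ (fun w => b * Real.log ‖g w‖ + f (τ w)) w ∧
      Δ (fun w => b * Real.log ‖g w‖ + f (τ w)) w = 0 := by
  have h₁ := log_norm_smooth hg h0
  have h₂ : ContDiffAt ℝ ∞ (fun w => b * Real.log ‖g w‖) w := contDiffAt_const.mul h₁
  have h₃ : ContDiffAt ℝ ∞ (fun w => f (τ w)) w := hf.1.comp w (analytic_real_smooth hτ ∞)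
  refine ⟨h₂.add h₃, ?_⟩
  rw [lap_add (h₂.of_le Fld1_two) (h₃.of_le Fld1_two), lap_const_mul b (h₁.of_le Fld1_two),
    log_norm_lap hg h0, laplacian_comp_hol (hf.1.of_le Fld1_two) hτ, hf.2]
  simp

omit [Fintype P] in
theorem Fld1_norm (π : P) {z : ℂ} {t : ℝ} (hz : 0 < ‖z‖) (h : Q.r π ^ 2 < t * ‖z‖) :
    ‖Q.ε π / z‖ < t := by
  rw [norm_div, norm_ε, div_lt_iff₀ hz]
  exact h

theorem Fld1_an {a c w : ℂ} (h : w - c ≠ 0) : AnalyticAt ℂ (fun w => a / (w - c)) w :=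
  analyticAt_const.div (analyticAt_id.sub analyticAt_const) h

theorem gs_cs {k : WithTop ℕ∞} (hk : k ≤ ∞) (hQ : Q.Ok) (hβ : Q.Bump β Λ) (hY : Q.Reg Y k) :
    Q.glue.CS k (Q.gs β Y) :=
  hY.2.add ((hQ.cs_fin (fun v => (hβ.smooth v).of_le hk) hβ.supp).const_mul
    fun α => Q.tt Y α.1)

theorem Pot_reg (hQ : Q.Ok) (hβ : Q.Bump β Λ) (hY : Q.Reg Y k) (α : V × Bool) :
    ContDiff ℝ (k + 1 : ℕ) (Q.Pot β Y α) := by
  have h := gs_cs (Fld1_le k) hQ hβ hY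
  exact (NP_contDiff k (h α).1 (h α).2.1).add (NQ_contDiff k (h _).1 (cs_supp h _))

theorem farY_reg (hh : ∀ π, Continuous (Y.h π)) (π : P) {y : ℂ} (hy : ‖y‖ < Q.r π / 2) :
    ContDiffAt ℝ ∞ (Q.farY Y π) y ∧ Δ (Q.farY Y π) y = 0 := by
  obtain ⟨h₁, h₂⟩ := PI_smooth (hh (Q.σ π)) hy
  refine ⟨h₁.sub contDiffAt_const, ?_⟩
  have := lap_sub (g := fun _ => PI (Q.r π / 2) (Y.h (Q.σ π)) 0) (h₁.of_le Fld1_two)
    contDiffAt_const
  rw [h₂, lap_const, sub_zero] at this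
  exact this

theorem term_reg (hh : ∀ π, Continuous (Y.h π)) (π : P) {w : ℂ}
    (hw : 2 * Q.r π < ‖w - Q.c π‖) :
    ContDiffAt ℝ ∞ (Q.term Y π) w ∧ Δ (Q.term Y π) w = 0 := by
  have hr : 0 < Q.r π := r_pos π
  have h0 : 0 < ‖w - Q.c π‖ := by linarith
  have h1 : w - Q.c π ≠ 0 := norm_pos_iff.1 h0
  exact Fld1_comb (g := fun w => w - Q.c π) (τ := fun w => Q.ε π / (w - Q.c π)) (Y.b π)
    (analyticAt_id.sub analyticAt_const) h1 (Fld1_an h1)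
    (farY_reg hh π (Fld1_norm π h0 (by nlinarith)))

theorem cap_reg (hQ : Q.Ok) (hh : ∀ π, Continuous (Y.h π)) (π : P) {w : ℂ} (hw : ‖w‖ < 2) :
    ContDiffAt ℝ ∞ (fun w => Y.b π * Real.log ‖1 - Q.c π * w‖ +
        Q.farY Y π (Q.ε π * w / (1 - Q.c π * w))) w ∧
      Δ (fun w => Y.b π * Real.log ‖1 - Q.c π * w‖ +
        Q.farY Y π (Q.ε π * w / (1 - Q.c π * w))) w = 0 := by
  have hr : 0 < Q.r π := r_pos π
  have hr' : Q.r π ≤ 1 / 64 := by linarith [hQ.r_le' π, hQ.sep_le]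
  have h2 : ‖Q.c π * w‖ ≤ 1 / 2 := by
    rw [norm_mul]
    nlinarith [hQ.c_le π, norm_nonneg w, norm_nonneg (Q.c π)]
  have h3 : 1 / 2 ≤ ‖1 - Q.c π * w‖ := by
    have := norm_sub_norm_le (1 : ℂ) (Q.c π * w)
    rw [norm_one] at this
    linarith
  have h0 : 0 < ‖1 - Q.c π * w‖ := by linarith
  have h1 : 1 - Q.c π * w ≠ 0 := norm_pos_iff.1 h0
  have ha : AnalyticAt ℂ (fun w => 1 - Q.c π * w) w :=
    analyticAt_const.sub (analyticAt_const.mul analyticAt_id)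
  refine Fld1_comb (g := fun w => 1 - Q.c π * w) (τ := fun w => Q.ε π * w / (1 - Q.c π * w))
    (Y.b π) ha h1 ((analyticAt_const.mul analyticAt_id).div ha h1) (farY_reg hh π ?_)
  rw [norm_div, norm_mul, norm_ε, div_lt_iff₀ h0]
  have h4 : Q.r π ^ 2 * ‖w‖ ≤ Q.r π ^ 2 * 2 := by gcongr
  nlinarith

theorem R0_reg (hQ : Q.Ok) (hβ : Q.Bump β Λ) (hY : Q.Reg Y k) (π : P) {x : ℂ}
    (hx : ‖x‖ ≤ Q.sep / 2) : ContDiffAt ℝ (k + 1 : ℕ) (Q.R0 β Y π) x := by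
  classical
  have hc : ContDiffAt ℝ (k + 1 : ℕ) (fun x : ℂ => Q.c π + x) x :=
    contDiffAt_const.add contDiffAt_id
  unfold R0
  refine ((Pot_reg hQ hβ hY _).contDiffAt.comp x hc).add (ContDiffAt.sum fun π' h' => ?_)
  obtain ⟨h₁, h₂⟩ := Finset.mem_erase.1 h'
  have h₃ := (hQ.near h₁ (mem_pts.1 h₂) hx).1
  have hr : 0 < Q.r π' := r_pos π'
  exact ((term_reg hY.1 π' (by linarith [hQ.r_le' π'])).1.of_le (Fld1_le _)).comp x hc

theorem Phi_reg (hQ : Q.Ok) (hβ : Q.Bump β Λ) (hY : Q.Reg Y k) (v : V) {w : ℂ}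
    (hw : w ∈ Q.bulk v) : ContDiffAt ℝ (k + 1 : ℕ) (Q.Phi β Y v) w := by
  unfold Phi
  refine (Pot_reg hQ hβ hY _).contDiffAt.add (ContDiffAt.sum fun π h => ?_)
  have h₃ := hw.2 π (mem_pts.1 h)
  have hr : 0 < Q.r π := r_pos π
  exact (term_reg hY.1 π (by linarith [hQ.r_le' π])).1.of_le (Fld1_le _)

theorem integrable_β_Phi (hQ : Q.Ok) (hβ : Q.Bump β Λ) (hY : Q.Reg Y 0) (v : V) :
    Integrable fun w => β v w * Q.Phi β Y v w := by
  have hY' : Q.Reg Y ((0 : ℕ) : WithTop ℕ∞) := by simpa using hY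
  refine (integrableOn_iff_integrable_of_support_subset (s := Q.core v) fun w hw =>
    hβ.supp v w (left_ne_zero_of_mul hw)).1 ?_
  refine ContinuousOn.integrableOn_compact (isCompact_core v) fun w hw => ?_
  exact ((hβ.smooth v).continuous.continuousAt.mul
    (Phi_reg hQ hβ hY' v (hQ.core_sub_bulk v hw)).continuousAt).continuousWithinAt

theorem phi_reg (hQ : Q.Ok) (hβ : Q.Bump β Λ) (hY : Q.Reg Y k) (α : V × Bool) :
    ContDiffOn ℝ (k + 1 : ℕ) (Q.phi β Y α) (Q.W α) := by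
  intro w hw
  refine ContDiffAt.contDiffWithinAt ?_
  obtain ⟨v, _ | _⟩ := α
  · refine (contDiffAt_const.add (Pot_reg hQ hβ hY _).contDiffAt).add
      (ContDiffAt.sum fun π h => ?_)
    have h₃ := hw.2 π (mem_pts.1 h)
    have hr : 0 < Q.r π := r_pos π
    have h0 : 0 < ‖w - Q.c π‖ := by linarith
    have h1 : w - Q.c π ≠ 0 := norm_pos_iff.1 h0
    have h2 : ‖Q.ε π / (w - Q.c π)‖ < 2 * Q.r π := Fld1_norm π h0 (by nlinarith)
    refine ((contDiffAt_const.mul ((log_norm_smooth (g := fun w => w - Q.c π)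
      (analyticAt_id.sub analyticAt_const) h1).of_le (Fld1_le _))).add ?_).sub contDiffAt_const
    exact (R0_reg hQ hβ hY (Q.σ π) (by linarith [hQ.r_le' π])).comp w
      (analytic_real_smooth (Fld1_an h1) _)
  · exact (contDiffAt_const.add (Pot_reg hQ hβ hY _).contDiffAt).add
      (ContDiffAt.sum fun π _ => (cap_reg hQ hY.1 π (norm_lt_of_W hw)).1.of_le (Fld1_le _))

end Plumb

end Pool.Agent.MP_4f0ed6_gt
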