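import Pool.Agent.MP_4f0ed6_gt.Fld1

open Set Laplacian Filter Topology MeasureTheory Metric InnerProductSpace
open scoped ContDiff

namespace Pool.Agent.MP_4f0ed6_gt

namespace Plumb

variable {V P : Type} [Fintype P] {Q : Plumb V P} {β : V → ℂ → ℝ} {Λ : ℝ} {Y Z : Inp V P}

omit [Fintype P] in
theorem Reg.sub (hY : Q.Reg Y 0) (hZ : Q.Reg Z 0) : Q.Reg (Y.sub Z) 0 := by
  refine ⟨fun π => (hY.1 π).sub (hZ.1 π), fun α => ?_⟩
  obtain ⟨h1, h2, h3⟩ := hY.2 α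
  obtain ⟨k1, k2, k3⟩ := hZ.2 α
  refine ⟨h1.sub k1, h2.sub k2, ?_⟩
  exact (tsupport_sub (Y.g α) (Z.g α)).trans (union_subset h3 k3)

theorem Fld2_tt (hY : Q.Reg Y 0) (hZ : Q.Reg Z 0) (v : V) :
    Q.tt (Y.sub Z) v = Q.tt Y v - Q.tt Z v := by
  have hi : ∀ {X : Inp V P}, Q.Reg X 0 → ∀ α, Integrable (X.g α) := fun hX α =>
    (hX.2 α).1.continuous.integrable_of_hasCompactSupport (hX.2 α).2.1
  simp only [tt, Inp.sub]
  rw [integral_sub (hi hY _) (hi hZ _), integral_sub (hi hY _) (hi hZ _), Finset.sum_sub_distrib]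
  ring

theorem Fld2_gs (hY : Q.Reg Y 0) (hZ : Q.Reg Z 0) (α : V × Bool) :
    Q.gs β (Y.sub Z) α = fun z => Q.gs β Y α z - Q.gs β Z α z := by
  funext z
  simp only [gs]
  rw [Fld2_tt hY hZ]
  simp only [Inp.sub]
  ring

theorem Fld2_Pot (hQ : Q.Ok) (hβ : Q.Bump β Λ) (hY : Q.Reg Y 0) (hZ : Q.Reg Z 0)
    (α : V × Bool) (w : ℂ) : Q.Pot β (Y.sub Z) α w = Q.Pot β Y α w - Q.Pot β Z α w := by
  have h1 := gs_cs (k := 0) (by simp) hQ hβ hY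
  have h2 := gs_cs (k := 0) (by simp) hQ hβ hZ
  simp only [Pot]
  rw [Fld2_gs hY hZ, Fld2_gs hY hZ,
    NP_sub (h1 _).1.continuous (h1 _).2.1 (h2 _).1.continuous (h2 _).2.1,
    NQ_sub (h1 _).1.continuous (h1 _).2.1 (h2 _).1.continuous (h2 _).2.1]
  ring

omit [Fintype P] in
theorem Fld2_farY (hY : Q.Reg Y 0) (hZ : Q.Reg Z 0) (π : P) {y : ℂ} (hy : ‖y‖ < Q.r π / 2) :
    Q.farY (Y.sub Z) π y = Q.farY Y π y - Q.farY Z π y := by
  have h0 : ‖(0 : ℂ)‖ < Q.r π / 2 := by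
    have := r_pos (Q := Q) π
    rw [norm_zero]; linarith
  have e : (Y.sub Z).h (Q.σ π) = fun x => Y.h (Q.σ π) x - Z.h (Q.σ π) x := rfl
  simp only [farY]
  rw [e, PI_sub (hY.1 _) (hZ.1 _) hy, PI_sub (hY.1 _) (hZ.1 _) h0]
  ring

omit [Fintype P] in
theorem Fld2_term (hY : Q.Reg Y 0) (hZ : Q.Reg Z 0) (π : P) {w : ℂ}
    (hw : 2 * Q.r π < ‖w - Q.c π‖) :
    Q.term (Y.sub Z) π w = Q.term Y π w - Q.term Z π w := by
  have hr := r_pos (Q := Q) π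
  have hy : ‖Q.ε π / (w - Q.c π)‖ < Q.r π / 2 := by
    rw [norm_div, norm_ε, div_lt_iff₀ (by linarith)]
    nlinarith
  simp only [term]
  rw [Fld2_farY hY hZ π hy]
  simp only [Inp.sub]
  ring

theorem Fld2_Phi (hQ : Q.Ok) (hβ : Q.Bump β Λ) (hY : Q.Reg Y 0) (hZ : Q.Reg Z 0) (v : V) {w : ℂ}
    (hw : w ∈ Q.bulk v) : Q.Phi β (Y.sub Z) v w = Q.Phi β Y v w - Q.Phi β Z v w := by
  simp only [Phi]
  rw [Fld2_Pot hQ hβ hY hZ, Finset.sum_congr rfl fun π hπ => Fld2_term hY hZ π (w := w) ?_,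
    Finset.sum_sub_distrib]
  · ring
  · have h1 := hw.2 π (mem_pts.1 hπ)
    have h2 := hQ.r_le' π
    have h3 := hQ.sep_pos
    linarith

theorem Fld2_CC (hQ : Q.Ok) (hβ : Q.Bump β Λ) (hY : Q.Reg Y 0) (hZ : Q.Reg Z 0) (v : V) :
    Q.CC β (Y.sub Z) v = Q.CC β Y v - Q.CC β Z v := by
  have e : (fun w => β v w * Q.Phi β (Y.sub Z) v w) =
      fun w => β v w * Q.Phi β Y v w - β v w * Q.Phi β Z v w := by
    funext w
    by_cases h : β v w = 0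
    · simp [h]
    · rw [Fld2_Phi hQ hβ hY hZ v (hQ.core_sub_bulk v (hβ.supp v w h))]
      ring
  simp only [CC]
  rw [e, integral_sub (integrable_β_Phi hQ hβ hY v) (integrable_β_Phi hQ hβ hZ v)]
  simp only [Inp.sub]
  ring

theorem R0_sub (hQ : Q.Ok) (hβ : Q.Bump β Λ) (hY : Q.Reg Y 0) (hZ : Q.Reg Z 0) (π : P) {x : ℂ}
    (hx : ‖x‖ ≤ Q.sep / 2) : Q.R0 β (Y.sub Z) π x = Q.R0 β Y π x - Q.R0 β Z π x := by
  classical
  simp only [R0]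
  rw [Fld2_Pot hQ hβ hY hZ,
    Finset.sum_congr rfl fun π' hπ => Fld2_term hY hZ π' (w := Q.c π + x) ?_,
    Finset.sum_sub_distrib]
  · ring
  · have h0 := Finset.mem_erase.1 hπ
    have h1 := (hQ.near h0.1 (mem_pts.1 h0.2) hx).1
    have h2 := hQ.r_le' π'
    have h3 := hQ.sep_pos
    linarith

theorem RR_sub (hQ : Q.Ok) (hβ : Q.Bump β Λ) (hY : Q.Reg Y 0) (hZ : Q.Reg Z 0) (π : P) :
    Q.RR β (Y.sub Z) π = Q.RR β Y π - Q.RR β Z π := by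
  have h0 : ‖(0 : ℂ)‖ ≤ Q.sep / 2 := by
    have := hQ.sep_pos
    rw [norm_zero]; linarith
  simp only [RR]
  rw [Fld2_CC hQ hβ hY hZ, R0_sub hQ hβ hY hZ π h0]
  ring

theorem phi_sub (hQ : Q.Ok) (hβ : Q.Bump β Λ) (hY : Q.Reg Y 0) (hZ : Q.Reg Z 0) (α : V × Bool)
    {w : ℂ} (hw : w ∈ Q.W α) : Q.phi β (Y.sub Z) α w = Q.phi β Y α w - Q.phi β Z α w := by
  have h0 : ‖(0 : ℂ)‖ ≤ Q.sep / 2 := by
    have := hQ.sep_pos
    rw [norm_zero]; linarith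
  obtain ⟨v, _ | _⟩ := α
  · simp only [phi]
    rw [Fld2_CC hQ hβ hY hZ, Fld2_Pot hQ hβ hY hZ]
    have e : ∀ π ∈ Q.pts v, (Y.sub Z).b π * Real.log ‖w - Q.c π‖ +
        Q.R0 β (Y.sub Z) (Q.σ π) (Q.ε π / (w - Q.c π)) - Q.R0 β (Y.sub Z) (Q.σ π) 0 =
        (Y.b π * Real.log ‖w - Q.c π‖ + Q.R0 β Y (Q.σ π) (Q.ε π / (w - Q.c π)) -
          Q.R0 β Y (Q.σ π) 0) -
        (Z.b π * Real.log ‖w - Q.c π‖ + Q.R0 β Z (Q.σ π) (Q.ε π / (w - Q.c π)) -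
          Q.R0 β Z (Q.σ π) 0) := by
      intro π hπ
      have h1 := hw.2 π (mem_pts.1 hπ)
      have h2 := hQ.r_le' π
      have hr := r_pos (Q := Q) π
      have hy : ‖Q.ε π / (w - Q.c π)‖ ≤ Q.sep / 2 := by
        rw [norm_div, norm_ε, div_le_iff₀ (by linarith)]
        nlinarith
      rw [R0_sub hQ hβ hY hZ _ hy, R0_sub hQ hβ hY hZ _ h0]
      simp only [Inp.sub]
      ring
    rw [Finset.sum_congr rfl e, Finset.sum_sub_distrib]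
    ring
  · simp only [phi]
    rw [Fld2_CC hQ hβ hY hZ, Fld2_Pot hQ hβ hY hZ]
    have e : ∀ π ∈ Q.pts v, (Y.sub Z).b π * Real.log ‖1 - Q.c π * w‖ +
        Q.farY (Y.sub Z) π (Q.ε π * w / (1 - Q.c π * w)) =
        (Y.b π * Real.log ‖1 - Q.c π * w‖ + Q.farY Y π (Q.ε π * w / (1 - Q.c π * w))) -
        (Z.b π * Real.log ‖1 - Q.c π * w‖ + Q.farY Z π (Q.ε π * w / (1 - Q.c π * w))) := by
      intro π _
      have h1 : ‖w‖ < 2 := norm_lt_of_W hw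
      have h2 := hQ.r_le' π
      have h3 := hQ.sep_le
      have h4 := hQ.c_le π
      have hr := r_pos (Q := Q) π
      have h5 : 1 / 2 ≤ ‖1 - Q.c π * w‖ := by
        have h6 := norm_sub_norm_le (1 : ℂ) (Q.c π * w)
        rw [norm_one, norm_mul] at h6
        nlinarith [norm_nonneg w, norm_nonneg (Q.c π)]
      have hy : ‖Q.ε π * w / (1 - Q.c π * w)‖ < Q.r π / 2 := by
        rw [norm_div, norm_mul, norm_ε, div_lt_iff₀ (by linarith)]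
        have h7 : Q.r π ^ 2 * ‖w‖ ≤ Q.r π ^ 2 * 2 :=
          mul_le_mul_of_nonneg_left h1.le (sq_nonneg _)
        nlinarith
      rw [Fld2_farY hY hZ π hy]
      simp only [Inp.sub]
      ring
    rw [Finset.sum_congr rfl e, Finset.sum_sub_distrib]
    ring

end Plumb

end Pool.Agent.MP_4f0ed6_gt
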