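import Pool.Agent.MP_4f0ed6_gt.Ctl

open Set Laplacian Filter Topology MeasureTheory Metric InnerProductSpace
open scoped ContDiff

namespace Pool.Agent.MP_4f0ed6_gt

theorem FxEx_pts (I : Type) [Fintype I] : ∃ (z : I → ℝ) (g : ℝ), 0 < g ∧ g ≤ 1 ∧
    (∀ i, z i ∈ Icc (1 : ℝ) 2) ∧ ∀ i i', i ≠ i' → g ≤ |z i - z i'| := by
  set N : ℝ := (Fintype.card I : ℝ) + 1 with hN
  have hN1 : 1 ≤ N := by
    have : (0 : ℝ) ≤ Fintype.card I := Nat.cast_nonneg _
    linarith
  have hN0 : 0 < N := by linarith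
  refine ⟨fun i => 1 + ((Fintype.equivFin I i : ℕ) : ℝ) / N, 1 / N, by positivity,
    by rw [div_le_one hN0]; exact hN1, fun i => ⟨?_, ?_⟩, fun i i' hii => ?_⟩
  · have : (0 : ℝ) ≤ ((Fintype.equivFin I i : ℕ) : ℝ) / N := by positivity
    linarith
  · have h1 : ((Fintype.equivFin I i : ℕ) : ℝ) ≤ N := by
      have h2 : ((Fintype.equivFin I i : ℕ) : ℝ) < Fintype.card I := by
        exact_mod_cast (Fintype.equivFin I i).2
      linarith
    have : ((Fintype.equivFin I i : ℕ) : ℝ) / N ≤ 1 := by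
      rw [div_le_one hN0]; exact h1
    linarith
  · have hne : (Fintype.equivFin I i : ℕ) ≠ (Fintype.equivFin I i' : ℕ) := fun h =>
      hii ((Fintype.equivFin I).injective (Fin.ext h))
    have h1 : (1 : ℝ) ≤ |((Fintype.equivFin I i : ℕ) : ℝ) - ((Fintype.equivFin I i' : ℕ) : ℝ)| := by
      rcases lt_or_gt_of_ne hne with h | h
      · have h2 : ((Fintype.equivFin I i : ℕ) : ℝ) + 1 ≤ ((Fintype.equivFin I i' : ℕ) : ℝ) := by
          exact_mod_cast h
        rw [abs_sub_comm]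
        exact le_trans (by linarith) (le_abs_self _)
      · have h2 : ((Fintype.equivFin I i' : ℕ) : ℝ) + 1 ≤ ((Fintype.equivFin I i : ℕ) : ℝ) := by
          exact_mod_cast h
        exact le_trans (by linarith) (le_abs_self _)
    have h3 : 1 + ((Fintype.equivFin I i : ℕ) : ℝ) / N - (1 + ((Fintype.equivFin I i' : ℕ) : ℝ) / N)
        = (((Fintype.equivFin I i : ℕ) : ℝ) - ((Fintype.equivFin I i' : ℕ) : ℝ)) / N := by ring
    rw [h3, abs_div, abs_of_pos hN0]
    exact div_le_div_of_nonneg_right h1 hN0.le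

theorem FxEx_bump : ∃ (β1 : ℂ → ℝ) (A : ℝ), BumpOk β1 A := by
  let f : ContDiffBump (0 : ℂ) := ⟨1 / 4, 1 / 2, by norm_num, by norm_num⟩
  have hc : HasCompactSupport (f.normed volume) := f.hasCompactSupport_normed
  obtain ⟨A, hA⟩ := (f.continuous_normed (μ := volume)).bounded_above_of_compact_support hc
  refine ⟨f.normed volume, A, f.contDiff_normed, fun u => f.normed_neg u, fun u hu => ?_,
    fun u => f.nonneg_normed u, fun u => le_trans (le_abs_self _) (hA u), f.integral_normed⟩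
  have h1 : u ∈ Function.support (f.normed volume) := hu
  rw [f.support_normed_eq] at h1
  have h2 : ‖u‖ < f.rOut := by simpa using h1
  exact h2.le

theorem FxEx_ctl_mono {D : Type} [Fintype D] {x : D → ℝ} {nu : (D × D → ℝ) → ℂ → ℝ} {A B : ℝ}
    (h : CtlOk x nu A) (hAB : A ≤ B) : CtlOk x nu B where
  one_le := h.one_le.trans hAB
  smooth := h.smooth
  even := h.even
  supp := h.supp
  nonneg := h.nonneg
  le p hp u := (h.le p hp u).trans hAB
  mass := h.mass
  lip p p' u := (h.lip p p' u).trans (mul_le_mul_of_nonneg_right hAB (norm_nonneg _))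
  dual := h.dual

theorem FxEx_bump_mono {β1 : ℂ → ℝ} {A B : ℝ} (h : BumpOk β1 A) (hAB : A ≤ B) : BumpOk β1 B where
  smooth := h.smooth
  even := h.even
  supp := h.supp
  nonneg := h.nonneg
  le u := (h.le u).trans hAB
  int := h.int

theorem fx_exists {h nT : ℕ} (nx : ℕ) (hh : 0 < h) {Pm : Fin nT → Equiv.Perm (DD h × Bool)}
    {θ : ℝ} (hG : GraphOk Pm θ) : ∃ S : Fx h nT nx, S.Ok ∧ S.Pm = Pm ∧ S.θ = θ := by
  obtain ⟨x, g1, hg1, hg1', hx, hxg⟩ := FxEx_pts (DD h)
  obtain ⟨z, g2, hg2, -, hz, hzg⟩ := FxEx_pts (PT h nT nx)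
  have hxi : Function.Injective x := by
    intro d d' hd
    by_contra hne
    have := hxg d d' hne
    rw [hd, sub_self, abs_zero] at this
    linarith
  obtain ⟨nu, A, hA⟩ := ctl_exists hxi fun d => lt_of_lt_of_le one_pos (hx d).1
  obtain ⟨β1, B, hB⟩ := FxEx_bump
  refine ⟨⟨Pm, θ, x, z, min g1 g2, fun i => (Fintype.equivFin (Fin h × DD h) i : ℕ),
    Fintype.card (Fin h × DD h), β1, nu, max A B⟩, ⟨hh, hG, FxEx_ctl_mono hA (le_max_left _ _),
    FxEx_bump_mono hB (le_max_right _ _), lt_min hg1 hg2, (min_le_left _ _).trans hg1', hx,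
    fun d d' hd => (min_le_left _ _).trans (hxg d d' hd), hz,
    fun i i' hi => (min_le_right _ _).trans (hzg i i' hi), ?_, fun i => ?_⟩, rfl, rfl⟩
  · intro i i' hi
    exact (Fintype.equivFin (Fin h × DD h)).injective (Fin.ext hi)
  · exact (Fintype.equivFin (Fin h × DD h) i).2

end Pool.Agent.MP_4f0ed6_gt
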