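import Pool.Agent.MP_4f0ed6_gt.Defs

open Set Laplacian Filter Topology MeasureTheory
open scoped ContDiff Manifold

namespace Pool.Agent.MP_4f0ed6_gt

/-- A surface of genus `γ` with first eigenvalue `1` of multiplicity at least `k`. -/
def Good (γ k : ℕ) : Prop :=
  ∃ (M : Type) (_ : TopologicalSpace M) (_ : ChartedSpace ℂ M), T2Space M ∧ CompactSpace M ∧
    ConnectedSpace M ∧ IsManifold 𝓘(ℂ) ω M ∧ genus M = γ ∧
    ∃ (g : ConfMetric M) (f : Fin k → M → ℝ),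
      (∀ μ : ℝ, 0 < μ → μ < 1 → ∀ u, IsEigen g μ u → u = 0) ∧ LinearIndependent ℝ f ∧
      ∀ i, IsEigen g 1 (f i)

/-- Plane domains `W α` glued along the maps `τ κ : O κ → O (σ κ)`. -/
structure Glue (A K : Type) where
  W : A → Set ℂ
  Cp : A → Set ℂ
  ch : K → A
  σ : K → K
  O : K → Set ℂ
  τ : K → ℂ → ℂ

namespace Glue

variable {A K : Type} (G : Glue A K)

structure Ok : Prop where
  W_open : ∀ α, IsOpen (G.W α)
  O_open : ∀ κ, IsOpen (G.O κ)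
  O_sub : ∀ κ, G.O κ ⊆ G.W (G.ch κ)
  σσ : ∀ κ, G.σ (G.σ κ) = κ
  ch_ne : ∀ κ, G.ch (G.σ κ) ≠ G.ch κ
  maps : ∀ κ, ∀ z ∈ G.O κ, G.τ κ z ∈ G.O (G.σ κ)
  inv : ∀ κ, ∀ z ∈ G.O κ, G.τ (G.σ κ) (G.τ κ z) = z
  hol : ∀ κ, DifferentiableOn ℂ (G.τ κ) (G.O κ)
  disj : ∀ κ κ' z, G.ch κ = G.ch κ' → z ∈ G.O κ → z ∈ G.O κ' → κ = κ'
  closed : ∀ κ (C : Set ℂ), IsCompact C → C ⊆ G.W (G.ch (G.σ κ)) → ∀ z ∈ G.W (G.ch κ),
    z ∉ G.O κ → ∀ᶠ w in 𝓝 z, w ∈ G.O κ → G.τ κ w ∉ C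
  Cp_compact : ∀ α, IsCompact (G.Cp α)
  Cp_sub : ∀ α, G.Cp α ⊆ G.W α
  cover : ∀ α, ∀ z ∈ G.W α, z ∈ G.Cp α ∨
    ∃ κ, G.ch κ = α ∧ z ∈ G.O κ ∧ G.τ κ z ∈ G.Cp (G.ch (G.σ κ))
  W_conn : ∀ α, IsPreconnected (G.W α)
  O_ne : ∀ κ, (G.O κ).Nonempty
  ne : Nonempty A
  conn : ∀ α β, Relation.ReflTransGen (fun a b => ∃ κ, G.ch κ = a ∧ G.ch (G.σ κ) = b) α β
  core : ∀ α, ∃ z ∈ G.W α, ∀ κ, G.ch κ = α → z ∉ G.O κ

/-- `φ` is a function on the glued surface -/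
def Compat (φ : A → ℂ → ℝ) : Prop :=
  ∀ κ, ∀ z ∈ G.O κ, φ (G.ch κ) z = φ (G.ch (G.σ κ)) (G.τ κ z)

/-- each `g α` is `C^n` with compact support in `W α` -/
def CS (n : WithTop ℕ∞) (g : A → ℂ → ℝ) : Prop :=
  ∀ α, ContDiff ℝ n (g α) ∧ HasCompactSupport (g α) ∧ tsupport (g α) ⊆ G.W α

/-- holomorphic 1-forms on the glued surface -/
def forms : Submodule ℂ (A → ℂ → ℂ) where
  carrier := {f | (∀ α, DifferentiableOn ℂ (f α) (G.W α)) ∧ (∀ α, ∀ z ∉ G.W α, f α z = 0) ∧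
    ∀ κ, ∀ z ∈ G.O κ, f (G.ch κ) z = f (G.ch (G.σ κ)) (G.τ κ z) * deriv (G.τ κ) z}
  add_mem' := fun ha hb => ⟨fun x => (ha.1 x).add (hb.1 x),
    fun x z hz => by simp [ha.2.1 x z hz, hb.2.1 x z hz],
    fun x y hq => by simp [ha.2.2 x y hq, hb.2.2 x y hq, add_mul]⟩
  zero_mem' := ⟨fun _ => differentiableOn_const 0, fun _ _ _ => rfl, fun _ _ _ => by simp⟩
  smul_mem' := fun c _ ha => ⟨fun x => (ha.1 x).const_smul c,
    fun x z hz => by simp [ha.2.1 x z hz],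
    fun x y hq => by simp [ha.2.2 x y hq, mul_assoc]⟩

/-- a symmetry acting by `z ↦ -z` in the charts -/
structure Sym (j : A → A) (jk : K → K) : Prop where
  jj : ∀ α, j (j α) = α
  jkjk : ∀ κ, jk (jk κ) = κ
  ch_jk : ∀ κ, G.ch (jk κ) = j (G.ch κ)
  σ_jk : ∀ κ, G.σ (jk κ) = jk (G.σ κ)
  W_j : ∀ α z, z ∈ G.W α → -z ∈ G.W (j α)
  O_jk : ∀ κ z, z ∈ G.O κ → -z ∈ G.O (jk κ)
  τ_jk : ∀ κ, ∀ z ∈ G.O κ, G.τ (jk κ) (-z) = -G.τ κ z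

variable [Fintype K]

open Classical in
/-- the sum of the functions `f α`, extended by zero, read in the chart `α` -/
noncomputable def gf (f : A → ℂ → ℝ) (α : A) (z : ℂ) : ℝ :=
  f α z + ∑ κ, if G.ch κ = α ∧ z ∈ G.O κ then f (G.ch (G.σ κ)) (G.τ κ z) else 0

open Classical in
/-- the sum of the densities `g α`, extended by zero, read in the chart `α` -/
noncomputable def gd (g : A → ℂ → ℝ) (α : A) (z : ℂ) : ℝ :=
  g α z + ∑ κ, if G.ch κ = α ∧ z ∈ G.O κ then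
    g (G.ch (G.σ κ)) (G.τ κ z) * ‖deriv (G.τ κ) z‖ ^ 2 else 0

/-- `φ` is a smooth function on the glued surface with Laplacian `2 π g` -/
structure GSol (φ g : A → ℂ → ℝ) : Prop where
  smooth : ∀ α, ContDiffOn ℝ ∞ (φ α) (G.W α)
  compat : G.Compat φ
  lap : ∀ α, ∀ z ∈ G.W α, Δ (φ α) z = 2 * Real.pi * G.gd g α z

/-- an atlas of the glued surface -/
structure Atl where
  M : Type
  [top : TopologicalSpace M]
  e : A → OpenPartialHomeomorph M ℂ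
  idx : M → A
  target : ∀ α, (e α).target = G.W α
  mem : ∀ q, q ∈ (e (idx q)).source
  surj : ∀ α, ∃ q, idx q = α
  glue : ∀ κ, ∀ z ∈ G.O κ, (e (G.ch κ)).symm z = (e (G.ch (G.σ κ))).symm (G.τ κ z)
  sep : ∀ α β, ∀ z ∈ G.W α, ∀ z' ∈ G.W β, (e α).symm z = (e β).symm z' →
    (α = β ∧ z = z') ∨ ∃ κ, G.ch κ = α ∧ G.ch (G.σ κ) = β ∧ z ∈ G.O κ ∧ z' = G.τ κ z

variable {G}

instance Atl.instTop (X : G.Atl) : TopologicalSpace X.M := X.top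

instance Atl.instCharted (X : G.Atl) : ChartedSpace ℂ X.M where
  atlas := range X.e
  chartAt q := X.e (X.idx q)
  mem_chart_source := X.mem
  chart_mem_atlas q := ⟨X.idx q, rfl⟩

omit [Fintype K] in
theorem Atl.chartAt_eq (X : G.Atl) (q : X.M) : chartAt ℂ q = X.e (X.idx q) := rfl

end Glue

/-- reflection of a family -/
def rf {A : Type} (j : A → A) (f : A → ℂ → ℝ) : A → ℂ → ℝ := fun α z => f (j α) (-z)

end Pool.Agent.MP_4f0ed6_gt
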