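import Pool.Agent.MP_4f0ed6_gt.Calc

open Set Laplacian Filter Topology MeasureTheory Metric InnerProductSpace
open scoped ContDiff

namespace Pool.Agent.MP_4f0ed6_gt

theorem Green0_dir_smooth {f : ℂ → ℝ} (hf : ContDiff ℝ ∞ f) (v : ℂ) :
    ContDiff ℝ ∞ (fun y => fderiv ℝ f y v) := by
  have h1 : ContDiff ℝ ∞ (fderiv ℝ f) := hf.fderiv_right (m := ∞) (by simp)
  exact h1.clm_apply contDiff_const

theorem Green0_second {f : ℂ → ℝ} (hf : ContDiff ℝ ∞ f) (x v : ℂ) :
    iteratedFDeriv ℝ 2 f x ![v, v] = fderiv ℝ (fun y => fderiv ℝ f y v) x v := by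
  have h1 : ContDiff ℝ ∞ (fderiv ℝ f) := hf.fderiv_right (m := ∞) (by simp)
  have h2 : DifferentiableAt ℝ (fderiv ℝ f) x := (h1.differentiable (by simp)) x
  rw [iteratedFDeriv_two_apply, fderiv_clm_apply h2 (differentiableAt_const v)]
  simp

theorem Green0_lap {f : ℂ → ℝ} (hf : ContDiff ℝ ∞ f) (x : ℂ) :
    Δ f x = fderiv ℝ (fun y => fderiv ℝ f y 1) x 1 +
      fderiv ℝ (fun y => fderiv ℝ f y Complex.I) x Complex.I := by
  rw [laplacian_eq_iteratedFDeriv_complexPlane]
  simp only [Green0_second hf]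

theorem Green0_int {a b : ℂ → ℝ} (ha : Continuous a) (hb : Continuous b)
    (hc : HasCompactSupport a) : Integrable (fun x => a x * b x) := by
  exact (ha.mul hb).integrable_of_hasCompactSupport hc.mul_right

theorem Green0_int' {a b : ℂ → ℝ} (ha : Continuous a) (hb : Continuous b)
    (hc : HasCompactSupport b) : Integrable (fun x => a x * b x) := by
  exact (ha.mul hb).integrable_of_hasCompactSupport hc.mul_left

theorem Green0_parts {F g : ℂ → ℝ} (hF : ContDiff ℝ ∞ F) (hc : HasCompactSupport F)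
    (hg : ContDiff ℝ ∞ g) (v : ℂ) :
    ∫ x, F x * fderiv ℝ g x v = - ∫ x, fderiv ℝ F x v * g x := by
  apply integral_mul_fderiv_eq_neg_fderiv_mul_of_integrable
  · exact Green0_int (Green0_dir_smooth hF v).continuous hg.continuous (hc.fderiv_apply ℝ v)
  · exact Green0_int hF.continuous (Green0_dir_smooth hg v).continuous hc
  · exact Green0_int hF.continuous hg.continuous hc
  · exact fun x _ => (hF.differentiable (by simp)) x
  · exact fun x _ => (hg.differentiable (by simp)) x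

theorem Green0_dir {F g : ℂ → ℝ} (hF : ContDiff ℝ ∞ F) (hc : HasCompactSupport F)
    (hg : ContDiff ℝ ∞ g) (v : ℂ) :
    ∫ x, F x * fderiv ℝ (fun y => fderiv ℝ g y v) x v =
      ∫ x, g x * fderiv ℝ (fun y => fderiv ℝ F y v) x v := by
  rw [Green0_parts hF hc (Green0_dir_smooth hg v) v,
    Green0_parts (Green0_dir_smooth hF v) (hc.fderiv_apply ℝ v) hg v, neg_neg]
  exact integral_congr_ae (Eventually.of_forall fun x => mul_comm _ _)

theorem Green0_main {F g : ℂ → ℝ} (hF : ContDiff ℝ ∞ F) (hc : HasCompactSupport F)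
    (hg : ContDiff ℝ ∞ g) : ∫ z, F z * Δ g z = ∫ z, g z * Δ F z := by
  have c2 : ∀ {u : ℂ → ℝ}, ContDiff ℝ ∞ u → ∀ v : ℂ,
      Continuous (fun x => fderiv ℝ (fun y => fderiv ℝ u y v) x v) :=
    fun hu v => (Green0_dir_smooth (Green0_dir_smooth hu v) v).continuous
  have s2 : ∀ v : ℂ, HasCompactSupport (fun x => fderiv ℝ (fun y => fderiv ℝ F y v) x v) :=
    fun v => (hc.fderiv_apply ℝ v).fderiv_apply ℝ v
  simp only [Green0_lap hF, Green0_lap hg, mul_add]
  rw [integral_add (Green0_int hF.continuous (c2 hg 1) hc)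
      (Green0_int hF.continuous (c2 hg Complex.I) hc),
    integral_add (Green0_int' hg.continuous (c2 hF 1) (s2 1))
      (Green0_int' hg.continuous (c2 hF Complex.I) (s2 Complex.I)),
    Green0_dir hF hc hg, Green0_dir hF hc hg]

theorem green0 {U : Set ℂ} (hU : IsOpen U) {F f : ℂ → ℝ} (hF : ContDiff ℝ ∞ F)
    (hc : HasCompactSupport F) (hs : tsupport F ⊆ U) (hf : ContDiffOn ℝ ∞ f U) :
    ∫ z, F z * Δ f z = ∫ z, f z * Δ F z := by
  obtain ⟨K, hK, hK1, hK2⟩ := exists_compact_between hc.isCompact hU hs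
  obtain ⟨ξ, hξ, -, hξU, -, hξ1⟩ := exists_cutoff hK hU hK2
  have hg : ContDiff ℝ ∞ (fun z => ξ z * f z) := contDiff_mul_of_supp hU hξ hξU hf
  have e1 : ∀ z, F z * Δ f z = F z * Δ (fun z => ξ z * f z) z := by
    intro z
    by_cases hz : z ∈ tsupport F
    · congr 1
      apply lap_congr
      filter_upwards [mem_interior_iff_mem_nhds.1 (hK1 hz)] with w hw
      rw [hξ1 w hw, one_mul]
    · rw [image_eq_zero_of_notMem_tsupport hz, zero_mul, zero_mul]
  have e2 : ∀ z, f z * Δ F z = (ξ z * f z) * Δ F z := by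
    intro z
    by_cases hz : z ∈ tsupport F
    · rw [hξ1 z (interior_subset (hK1 hz)), one_mul]
    · have : Δ F z = 0 := image_eq_zero_of_notMem_tsupport fun h => hz (tsupport_lap F h)
      rw [this, mul_zero, mul_zero]
  simp only [e1, e2]
  exact Green0_main hF hc hg

end Pool.Agent.MP_4f0ed6_gt
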