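import Pool.Agent.MP_4f0ed6_gt.Fam

open Set Laplacian Filter Topology MeasureTheory Metric InnerProductSpace
open scoped ContDiff

namespace Pool.Agent.MP_4f0ed6_gt

namespace Glue

variable {A K : Type} [Fintype K] {G : Glue A K}

theorem Part_le_gf {f : A → ℂ → ℝ} (hf : ∀ α z, 0 ≤ f α z) (α : A) (z : ℂ) :
    f α z ≤ G.gf f α z := by
  classical
  unfold gf
  refine le_add_of_nonneg_right (Finset.sum_nonneg fun κ _ => ?_)
  split_ifs
  · exact hf _ _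
  · exact le_rfl

theorem Part_le_gf' {f : A → ℂ → ℝ} (hf : ∀ α z, 0 ≤ f α z) {κ : K} {z : ℂ} (hz : z ∈ G.O κ) :
    f (G.ch (G.σ κ)) (G.τ κ z) ≤ G.gf f (G.ch κ) z := by
  classical
  unfold gf
  refine le_add_of_nonneg_of_le (hf _ _) ?_
  refine le_trans ?_ (Finset.single_le_sum (f := fun κ' => if G.ch κ' = G.ch κ ∧ z ∈ G.O κ' then
    f (G.ch (G.σ κ')) (G.τ κ' z) else 0) (fun κ' _ => ?_) (Finset.mem_univ κ))
  · simp [hz]
  · split_ifs
    · exact hf _ _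
    · exact le_rfl

theorem Part_le_gd {f : A → ℂ → ℝ} (hf : ∀ α z, 0 ≤ f α z) (α : A) (z : ℂ) :
    f α z ≤ G.gd f α z := by
  classical
  unfold gd
  refine le_add_of_nonneg_right (Finset.sum_nonneg fun κ _ => ?_)
  split_ifs
  · exact mul_nonneg (hf _ _) (sq_nonneg _)
  · exact le_rfl

theorem Part_le_gd' {f : A → ℂ → ℝ} (hf : ∀ α z, 0 ≤ f α z) {κ : K} {z : ℂ} (hz : z ∈ G.O κ) :
    f (G.ch (G.σ κ)) (G.τ κ z) * ‖deriv (G.τ κ) z‖ ^ 2 ≤ G.gd f (G.ch κ) z := by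
  classical
  unfold gd
  refine le_add_of_nonneg_of_le (hf _ _) ?_
  refine le_trans ?_ (Finset.single_le_sum (f := fun κ' => if G.ch κ' = G.ch κ ∧ z ∈ G.O κ' then
    f (G.ch (G.σ κ')) (G.τ κ' z) * ‖deriv (G.τ κ') z‖ ^ 2 else 0) (fun κ' _ => ?_)
    (Finset.mem_univ κ))
  · simp [hz]
  · split_ifs
    · exact mul_nonneg (hf _ _) (sq_nonneg _)
    · exact le_rfl

theorem Part_gd_pos (hG : G.Ok) {f : A → ℂ → ℝ} (hf : ∀ α z, 0 ≤ f α z) {α : A} {z : ℂ}
    (h : G.gf f α z ≠ 0) : 0 < G.gd f α z := by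
  classical
  by_contra hn
  apply h
  have hle := not_lt.1 hn
  have h0 : f α z = 0 := le_antisymm ((Part_le_gd hf α z).trans hle) (hf _ _)
  unfold gf
  rw [h0, zero_add]
  refine Finset.sum_eq_zero fun κ _ => ?_
  split_ifs with hc
  · obtain ⟨rfl, hz⟩ := hc
    have h1 := (Part_le_gd' hf hz).trans hle
    have hd : deriv (G.τ κ) z ≠ 0 := by
      intro h2
      have := hG.deriv_mul hz
      rw [h2, mul_zero] at this
      exact zero_ne_one this
    have hp : 0 < ‖deriv (G.τ κ) z‖ ^ 2 := by positivity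
    refine le_antisymm ?_ (hf _ _)
    by_contra h3
    exact absurd h1 (not_le.2 (mul_pos (not_le.1 h3) hp))
  · rfl

omit [Fintype K] in
theorem Part_O_iff {j : A → A} {jk : K → K} (hS : G.Sym j jk) (κ : K) (z : ℂ) :
    -z ∈ G.O (jk κ) ↔ z ∈ G.O κ := by
  refine ⟨fun h => ?_, hS.O_jk κ z⟩
  have := hS.O_jk _ _ h
  rwa [hS.jkjk, neg_neg] at this

omit [Fintype K] in
theorem Part_W_iff {j : A → A} {jk : K → K} (hS : G.Sym j jk) (α : A) (z : ℂ) :
    -z ∈ G.W (j α) ↔ z ∈ G.W α := by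
  refine ⟨fun h => ?_, hS.W_j α z⟩
  have := hS.W_j _ _ h
  rwa [hS.jj, neg_neg] at this

omit [Fintype K] in
theorem Part_deriv (hG : G.Ok) {j : A → A} {jk : K → K} (hS : G.Sym j jk) {κ : K} {z : ℂ}
    (hz : z ∈ G.O κ) : deriv (G.τ (jk κ)) (-z) = deriv (G.τ κ) z := by
  have h1 : (fun w => G.τ (jk κ) (-w)) =ᶠ[𝓝 z] fun w => -G.τ κ w := by
    filter_upwards [(hG.O_open κ).mem_nhds hz] with w hw using hS.τ_jk κ w hw
  have h2 := h1.deriv_eq
  rw [deriv_comp_neg, deriv.fun_neg] at h2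
  exact neg_injective h2

theorem exists_part (hG : G.Ok) : ∃ χ : A → ℂ → ℝ, G.CS ∞ χ ∧ (∀ α z, 0 ≤ χ α z ∧ χ α z ≤ 1) ∧
    ∀ α, ∀ z ∈ G.W α, G.gf χ α z = 1 := by
  choose χ0 h1 h2 h3 h4 h5 using fun α =>
    exists_cutoff (hG.Cp_compact α) (hG.W_open α) (hG.Cp_sub α)
  have hcs : G.CS ∞ χ0 := fun α => ⟨h1 α, h2 α, h3 α⟩
  have hnn : ∀ α z, 0 ≤ χ0 α z := fun α z => (h4 α z).1
  have hpos : ∀ α, ∀ z ∈ G.W α, 0 < G.gf χ0 α z := by
    intro α z hz
    rcases hG.cover α z hz with h | ⟨κ, rfl, hκ, h⟩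
    · have := Part_le_gf (G := G) hnn α z
      rw [h5 α z h] at this
      linarith
    · have := Part_le_gf' (G := G) hnn hκ
      rw [h5 _ _ h] at this
      linarith
  have hc : G.Compat fun α z => (G.gf χ0 α z)⁻¹ := fun κ z hz => by
    simp only [gf_compat hG χ0 κ z hz]
  refine ⟨fun α z => χ0 α z * (G.gf χ0 α z)⁻¹, hcs.mul hG fun α =>
    (gf_smooth hG hcs α).inv fun z hz => (hpos α z hz).ne', fun α z => ?_, fun α z hz => ?_⟩
  · have h6 := Part_le_gf (G := G) hnn α z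
    have h7 := (hnn α z).trans h6
    refine ⟨mul_nonneg (hnn α z) (inv_nonneg.2 h7), ?_⟩
    exact (div_eq_mul_inv _ _).symm.trans_le (div_le_one_of_le₀ h6 h7)
  · rw [gf_mul hc]
    exact mul_inv_cancel₀ (hpos α z hz).ne'

omit [Fintype K] in
theorem CS.rf {j : A → A} {jk : K → K} (hS : G.Sym j jk) {k : WithTop ℕ∞} {f : A → ℂ → ℝ}
    (h : G.CS k f) : G.CS k (rf j f) := by
  intro α
  obtain ⟨h1, h2, h3⟩ := h (j α)
  refine ⟨h1.comp contDiff_neg, h2.comp_homeomorph (Homeomorph.neg ℂ), fun z hz => ?_⟩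
  have h4 : tsupport (MP_4f0ed6_gt.rf j f α) ⊆ (fun w : ℂ => -w) ⁻¹' tsupport (f (j α)) := by
    refine closure_minimal (fun w hw => subset_tsupport _ hw) ?_
    exact (isClosed_tsupport _).preimage continuous_neg
  exact (Part_W_iff hS α z).1 (h3 (h4 hz))

theorem gd_rf (hG : G.Ok) {j : A → A} {jk : K → K} (hS : G.Sym j jk) (g : A → ℂ → ℝ) (α : A)
    (z : ℂ) : G.gd (rf j g) α z = G.gd g (j α) (-z) := by
  classical
  have hi : Function.Involutive jk := hS.jkjk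
  have hj : Function.Involutive j := hS.jj
  unfold gd
  rw [← Equiv.sum_comp hi.toPerm (fun κ => if G.ch κ = j α ∧ -z ∈ G.O κ then
    g (G.ch (G.σ κ)) (G.τ κ (-z)) * ‖deriv (G.τ κ) (-z)‖ ^ 2 else 0)]
  congr 1
  refine Finset.sum_congr rfl fun κ _ => ?_
  simp only [Function.Involutive.coe_toPerm, Part_O_iff hS, hS.ch_jk, hj.injective.eq_iff]
  split_ifs with hc
  · rw [Part_deriv hG hS hc.2, hS.σ_jk, hS.ch_jk, hS.τ_jk κ z hc.2]
    rfl
  · rfl

theorem exists_tiny (hG : G.Ok) {j : A → A} {jk : K → K} (hS : G.Sym j jk) :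
    ∃ ξ : A → ℂ → ℝ, G.CS ∞ ξ ∧ (∀ α z, 0 ≤ ξ α z ∧ ξ α z ≤ 1) ∧
      (∀ α z, ξ (j α) (-z) = ξ α z) ∧ ∀ α, ∀ z ∈ G.W α, 0 < G.gd ξ α z := by
  obtain ⟨χ, h1, h2, h3⟩ := exists_part hG
  have hnn : ∀ α z, 0 ≤ χ α z := fun α z => (h2 α z).1
  refine ⟨fun α z => (1 / 2 : ℝ) * (χ α z + rf j χ α z),
    (h1.add (h1.rf hS)).const_mul fun _ => 1 / 2, fun α z => ?_, fun α z => ?_, fun α z hz => ?_⟩
  · have := h2 α z
    have := h2 (j α) (-z)
    simp only [rf]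
    constructor <;> linarith [this.1, this.2, (h2 α z).1, (h2 α z).2]
  · simp only [rf, hS.jj, neg_neg, add_comm]
  · rw [gd_const_mul (1 / 2) fun α z => χ α z + rf j χ α z, gd_add]
    have h4 : 0 < G.gd χ α z := Part_gd_pos hG hnn (by rw [h3 α z hz]; exact one_ne_zero)
    have h5 : 0 ≤ G.gd (rf j χ) α z := gd_nonneg (fun α z => hnn _ _) α z
    positivity

theorem GSol.rf (hG : G.Ok) {j : A → A} {jk : K → K} (hS : G.Sym j jk) {φ g : A → ℂ → ℝ}
    (h : G.GSol φ g) : G.GSol (rf j φ) (rf j g) := by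
  refine ⟨fun α => (h.smooth (j α)).comp contDiff_neg.contDiffOn fun z hz => hS.W_j α z hz,
    fun κ z hz => ?_, fun α z hz => ?_⟩
  · have := h.compat (jk κ) (-z) (hS.O_jk κ z hz)
    rw [hS.σ_jk, hS.ch_jk, hS.ch_jk, hS.τ_jk κ z hz] at this
    exact this
  · have hz' := hS.W_j α z hz
    have h1 : ContDiffAt ℝ 2 (φ (j α)) (-z) :=
      ((h.smooth (j α)).contDiffAt ((hG.W_open _).mem_nhds hz')).of_le (by norm_cast)
    have h2 := laplacian_comp_hol (f := φ (j α)) (τ := fun w => -w) (z := z) h1 (by fun_prop)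
    rw [gd_rf hG hS, ← h.lap _ _ hz']
    refine h2.trans ?_
    simp

theorem GSol.sum (hG : G.Ok) {ι : Type} [Fintype ι] (c : ι → ℝ) {φ g : ι → A → ℂ → ℝ}
    (h : ∀ i, G.GSol (φ i) (g i)) :
    G.GSol (fun α z => ∑ i, c i * φ i α z) fun α z => ∑ i, c i * g i α z := by
  classical
  refine ⟨fun α => ContDiffOn.sum fun i _ => contDiffOn_const.mul ((h i).smooth α),
    fun κ z hz => Finset.sum_congr rfl fun i _ => by rw [(h i).compat κ z hz], fun α z hz => ?_⟩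
  have h1 : ∀ i, ContDiffAt ℝ 2 (φ i α) z := fun i =>
    (((h i).smooth α).contDiffAt ((hG.W_open _).mem_nhds hz)).of_le (by norm_cast)
  have h2 : G.gd (fun α z => ∑ i, c i * g i α z) α z = ∑ i, c i * G.gd (g i) α z := by
    unfold gd
    simp only [mul_add, Finset.sum_add_distrib, Finset.mul_sum]
    rw [Finset.sum_comm (s := Finset.univ (α := ι))]
    congr 1
    refine Finset.sum_congr rfl fun κ _ => ?_
    split_ifs
    · rw [Finset.sum_mul]
      exact Finset.sum_congr rfl fun i _ => mul_assoc _ _ _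
    · simp
  rw [lap_sum Finset.univ (fun i w => c i * φ i α w) fun i _ => contDiffAt_const.mul (h1 i), h2,
    Finset.mul_sum]
  refine Finset.sum_congr rfl fun i _ => ?_
  rw [lap_const_mul _ (h1 i), (h i).lap α z hz]
  ring

end Glue

end Pool.Agent.MP_4f0ed6_gt
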