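import Pool.Agent.MP_4f0ed6_gt.Trans
import Pool.Agent.MP_4f0ed6_gt.Part
import Pool.Agent.MP_4f0ed6_gt.Green0

open Set Laplacian Filter Topology MeasureTheory Metric InnerProductSpace
open scoped ContDiff

namespace Pool.Agent.MP_4f0ed6_gt

theorem GI_int {A K : Type} {G : Glue A K} {χ : A → ℂ → ℝ} (hχ : G.CS 0 χ)
    {u v : A → ℂ → ℝ} (c : ℝ) (huv : ∀ α, ∀ z ∈ G.W α, u α z = c * v α z) :
    ∑ᶠ α, ∫ z, χ α z * u α z = ∑ᶠ α, c * ∫ z, χ α z * v α z := by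
  refine finsum_congr fun α => ?_
  rw [← integral_const_mul]
  refine integral_congr_ae (Eventually.of_forall fun z => ?_)
  by_cases hz : z ∈ G.W α
  · simp only [huv α z hz]; ring
  · simp [hχ.eq_zero hz]

theorem GI_sum {A K : Type} [Fintype A] {G : Glue A K} {χ : A → ℂ → ℝ} (hχ : G.CS 0 χ)
    {u v : A → ℂ → ℝ} (c : ℝ) (huv : ∀ α, ∀ z ∈ G.W α, u α z = c * v α z) :
    ∑ α, ∫ z, χ α z * u α z = c * ∑ α, ∫ z, χ α z * v α z := by
  have := GI_int hχ c huv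
  rw [finsum_eq_sum_of_fintype, finsum_eq_sum_of_fintype] at this
  rw [this, Finset.mul_sum]

theorem Glue.green {A K : Type} [Fintype A] [Fintype K] {G : Glue A K} (hG : G.Ok)
    {φ g φ' g' : A → ℂ → ℝ} (h : G.GSol φ g) (h' : G.GSol φ' g') (hg : G.CS 0 g)
    (hg' : G.CS 0 g') : ∑ α, ∫ z, g' α z * φ α z = ∑ α, ∫ z, g α z * φ' α z := by
  obtain ⟨χ, hχ, -, h1⟩ := Glue.exists_part hG
  have h0 : (0 : WithTop ℕ∞) ≤ ∞ := zero_le
  have hχ0 : G.CS 0 χ := hχ.of_le h0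
  have hφ0 : ∀ α, ContDiffOn ℝ 0 (φ α) (G.W α) := fun α => (h.smooth α).of_le h0
  have hφ0' : ∀ α, ContDiffOn ℝ 0 (φ' α) (G.W α) := fun α => (h'.smooth α).of_le h0
  have hF : G.CS ∞ fun α z => χ α z * φ α z := hχ.mul hG h.smooth
  have hL : G.CS 0 fun α z => Δ (fun w => χ α w * φ α w) z * φ' α z :=
    (hF.lap.of_le h0).mul hG hφ0'
  have e0 : ∑ α, ∫ z, (χ α z * φ α z) * Δ (φ' α) z =
      ∑ α, ∫ z, Δ (fun w => χ α w * φ α w) z * φ' α z := by
    refine Finset.sum_congr rfl fun α _ => ?_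
    rw [green0 (hG.W_open α) (hF α).1 (hF α).2.1 (hF α).2.2 (h'.smooth α)]
    simp only [mul_comm]
  have e1 : ∑ α, ∫ z, (χ α z * φ α z) * Δ (φ' α) z =
      2 * Real.pi * ∑ α, ∫ z, g' α z * φ α z := by
    rw [← Glue.transport hG hχ0 (hg'.mul hG hφ0) h1]
    simp only [mul_assoc (χ _ _)]
    refine GI_sum hχ0 (u := fun α z => φ α z * Δ (φ' α) z) _ fun α z hz => ?_
    rw [Glue.gd_mul h.compat, h'.lap α z hz]
    ring
  have e2 : ∑ α, ∫ z, Δ (fun w => χ α w * φ α w) z * φ' α z =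
      2 * Real.pi * ∑ α, ∫ z, g α z * φ' α z := by
    rw [← Glue.transport hG hχ0 hL h1, ← Glue.transport hG hχ0 (hg.mul hG hφ0') h1]
    refine GI_sum hχ0 _ fun α z hz => ?_
    rw [Glue.gd_mul h'.compat, Glue.gd_mul h'.compat g, ← mul_assoc, ← h.lap α z hz]
    have := Glue.lap_gf hG hF hz
    rw [← this]
    congr 1
    refine lap_congr ?_
    filter_upwards [(hG.W_open α).mem_nhds hz] with w hw
    rw [Glue.gf_mul h.compat, h1 α w hw, one_mul]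
  have hp : (2 * Real.pi) ≠ 0 := by positivity
  exact mul_left_cancel₀ hp (by rw [← e1, e0, e2])

end Pool.Agent.MP_4f0ed6_gt
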