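import Pool.Agent.MP_4f0ed6_gt.Brw

open Set Laplacian Filter Topology MeasureTheory Metric InnerProductSpace
open scoped ContDiff

namespace Pool.Agent.MP_4f0ed6_gt

variable {D P : Type} [Fintype D] [Fintype P] (S : Sys D P)

theorem Gap_lower {p : D × D → ℝ} (hp : p ∈ cube D) {s N : ℝ} (hs : s ∈ Icc (0 : ℝ) 1)
    {u : Option (D × Bool) → ℝ} (hu : u none = 0) (hN : ∀ v, |u v| ≤ N) (hN' : ∃ v, |u v| = N)
    {φ φ' : Option (D × Bool) × Bool → ℂ → ℝ} (ρ : S.Q.Rep S.β (S.μ p) s S.κ N u)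
    (ρ' : S.Q.Rep S.β (S.μ p) 1 S.κ N u) (hφ : ∀ α, ContDiffOn ℝ ∞ (φ α) (S.Q.W α))
    (hφ' : ∀ α, ContDiffOn ℝ ∞ (φ' α) (S.Q.W α))
    (hb : ∀ v, ∀ w ∈ S.Q.bulk v, φ (v, false) w = ρ.φ v w)
    (hb' : ∀ v, ∀ w ∈ S.Q.bulk v, φ' (v, false) w = ρ'.φ v w)
    (hle : ∀ α, ∀ w ∈ S.Q.W α, |φ α w| ≤ 16 * S.Q.n * N)
    (hle' : ∀ α, ∀ w ∈ S.Q.W α, |φ' α w| ≤ 16 * S.Q.n * N) :
    (S.c0 - 2 * Fintype.card (Option (D × Bool)) * S.τ * (16 * S.Q.n) ^ 2) * N ^ 2 ≤
      ∑ α, ∫ z, tot (S.μ p) S.νt α z * (φ α z * φ' α z) := by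
  have H := S.hyp p hp
  have hG := H.ok.glue
  have hφφ : ∀ α, ContDiffOn ℝ ∞ (fun z => φ α z * φ' α z) (S.Q.glue.W α) :=
    fun α => (hφ α).mul (hφ' α)
  have i1 := ((H.ok.cs_fin H.μ_smooth H.μ_supp).mul hG hφφ).integrable
  have i2 := (H.νt_cs.mul hG hφφ).integrable
  have hN0 : 0 ≤ 16 * S.Q.n * N := by
    obtain ⟨v, rfl⟩ := hN'
    have := Plumb.one_le_n (Q := S.Q)
    positivity
  have e1 : ∀ α, ∫ z, tot (S.μ p) S.νt α z * (φ α z * φ' α z) =
      (∫ z, fin (S.μ p) α z * (φ α z * φ' α z)) + ∫ z, S.νt α z * (φ α z * φ' α z) := fun α => by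
    rw [← integral_add (i1 α) (i2 α)]
    simp only [tot, add_mul]
  have e2 : ∑ α, ∫ z, fin (S.μ p) α z * (φ α z * φ' α z) =
      ∑ v, ∫ w, S.μ p v w * (ρ.φ v w * ρ'.φ v w) := by
    rw [Fintype.sum_prod_type]
    refine Finset.sum_congr rfl fun v _ => ?_
    rw [Fintype.sum_bool]
    simp only [fin, zero_mul, integral_zero, zero_add]
    refine integral_congr_ae (Eventually.of_forall fun w => ?_)
    by_cases hw : S.μ p v w = 0
    · simp only [hw, zero_mul]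
    · have hk := H.ok.core_sub_bulk v (H.μ_supp v w hw)
      simp only [hb v w hk, hb' v w hk]
  have e3 : ∀ α, -(S.τ * (16 * S.Q.n * N) ^ 2) ≤ ∫ z, S.νt α z * (φ α z * φ' α z) := fun α => by
    refine neg_le_of_abs_le (abs_integral_mul_le (H.νt_pb α).integrable (sq_nonneg _)
      (H.νt_pb α).mass fun z hz => ?_)
    have hz' : z ∈ S.Q.W α := by
      by_contra hn
      exact hz (H.νt_cs.eq_zero hn)
    rw [abs_mul, sq]
    exact mul_le_mul (hle α z hz') (hle' α z hz') (abs_nonneg _) hN0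
  have e4 := Finset.sum_le_sum fun α (_ : α ∈ Finset.univ) => e3 α
  rw [Finset.sum_const, Finset.card_univ, Fintype.card_prod, Fintype.card_bool, nsmul_eq_mul] at e4
  have e5 := S.pos p hp s 1 hs ⟨zero_le_one, le_rfl⟩ u N hu hN hN' ρ ρ'
  simp only [e1, Finset.sum_add_distrib, e2]
  push_cast at e4 ⊢
  nlinarith [e4, e5]

theorem Gap_t_zero {p : D × D → ℝ} (hp : p ∈ cube D) {s : ℝ} (hs : s ∈ Icc (0 : ℝ) 1)
    {f φ : Option (D × Bool) × Bool → ℂ → ℝ} {t : Option (D × Bool) → ℝ} {a b : ℝ}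
    (hf : S.Q.glue.GSol f (src s (tot (S.μ p) S.νt) S.β (fun _ => 0) f))
    (h : S.Q.glue.GSol φ (src s (tot (S.μ p) S.νt) S.β t φ))
    (hav : av S.β φ = fun v => a * av S.β f v + b * av S.β f (iV v)) (w : Option (D × Bool)) :
    t w = 0 := by
  classical
  have H := S.hyp p hp
  have hν : S.Q.glue.CS 0 (tot (S.μ p) S.νt) := H.tot_cs.of_le bot_le
  obtain ⟨hf', hav'⟩ := Plumb.gsol_rf H.ok S.sym S.β_sym (S.tot_sym hp) hf
  obtain ⟨ψ, ρ, hψ, havψ, -, -⟩ := H.exists_rep hs (Pi.single w 1) (N := 1) fun v => by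
    rw [Pi.single_apply]
    split_ifs <;> simp
  have k0 := Plumb.gi_same H.ok H.bump hν h hψ
  have k1 := Plumb.gi_same H.ok H.bump hν hf hψ
  have k2 := Plumb.gi_same H.ok H.bump hν hf' hψ
  simp only [zero_mul, Finset.sum_const_zero, hav'] at k1 k2
  simp only [havψ, hav, Pi.single_apply, mul_ite, mul_one, mul_zero, Finset.sum_ite_eq',
    Finset.mem_univ, if_true] at k0
  rw [← k0]
  have : ∀ v, ρ.t v * (a * av S.β f v + b * av S.β f (iV v)) =
      a * (ρ.t v * av S.β f v) + b * (ρ.t v * av S.β f (iV v)) := fun v => by ring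
  simp only [this, Finset.sum_add_distrib, ← Finset.mul_sum, k1, k2, mul_zero, add_zero]

omit [Fintype D] in
theorem Gap_iV_iV (v : Option (D × Bool)) : iV (iV v) = v := by
  rcases v with _ | ⟨d, ε⟩
  · rfl
  · simp [iV, flp]

theorem Sys.odd_zero {p : D × D → ℝ} (hp : p ∈ cube D) (hit : S.Hit p) {s N : ℝ} (h0 : 0 < s)
    (h1 : s < 1) {u : Option (D × Bool) → ℝ} (hu : ∀ v, u (iV v) = -u v) (hN : ∀ v, |u v| ≤ N)
    (hN' : ∃ v, |u v| = N) {φ : Option (D × Bool) × Bool → ℂ → ℝ}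
    (ρ : S.Q.Rep S.β (S.μ p) s S.κ N u)
    (h : S.Q.glue.GSol φ (src s (tot (S.μ p) S.νt) S.β ρ.t φ)) (hav : av S.β φ = u)
    (hb : ∀ v, ∀ w ∈ S.Q.bulk v, φ (v, false) w = ρ.φ v w)
    (hle : ∀ α, ∀ w ∈ S.Q.W α, |φ α w| ≤ 16 * S.Q.n * N) (ht : ∀ v, ρ.t v = 0) : N = 0 := by
  classical
  have H := S.hyp p hp
  have hν : S.Q.glue.CS 0 (tot (S.μ p) S.νt) := H.tot_cs.of_le bot_le
  have hun : u none = 0 := by
    have := hu none
    change u none = -u none at this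
    linarith
  have hus : ∀ d ε, u (some (d, ε)) = u (some (d, true)) * sg ε := fun d ε => by
    cases ε
    · have := hu (some (d, true))
      change u (some (d, false)) = _ at this
      rw [this, sg]
      ring
    · rw [sg, mul_one]
  obtain ⟨φ1, ρ1, g1, av1, hb1, hle1⟩ := H.exists_rep (s := 1) ⟨zero_le_one, le_rfl⟩ u hN
  choose φd td gd avd tn ts using hit
  obtain ⟨g2, av2⟩ := Plumb.gsol_comb H.ok H.bump (fun d => u (some (d, true))) gd
  have av2' : ∀ v, av S.β (fun α z => ∑ d, u (some (d, true)) * φd d α z) v = u v := fun v => by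
    rw [av2]
    rcases v with _ | ⟨d, ε⟩
    · simp only [avd, ed, mul_zero, Finset.sum_const_zero, hun]
    · simp only [avd, ed, mul_ite, mul_zero, Finset.sum_ite_eq, Finset.mem_univ, if_true]
      exact (hus d ε).symm
  have k1 := Plumb.gi_two H.ok H.bump hν hν h g1
  have k2 := Plumb.gi_same H.ok H.bump hν g1 g2
  simp only [ht, zero_mul, Finset.sum_const_zero, sub_zero, hav] at k1
  simp only [av1, av2'] at k2
  have k3 : ∑ v, (∑ d, u (some (d, true)) * td d v) * u v =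
      -2 * ∑ d, ∑ d', u (some (d, true)) * S.M0 d d' * u (some (d', true)) := by
    rw [Fintype.sum_option, hun, mul_zero, zero_add, Fintype.sum_prod_type, Finset.mul_sum]
    refine Finset.sum_congr rfl fun d _ => ?_
    rw [Fintype.sum_bool, hus d false, Finset.sum_mul, Finset.sum_mul, Finset.mul_sum,
      ← Finset.sum_add_distrib]
    refine Finset.sum_congr rfl fun d' _ => ?_
    rw [ts, ts, sg, sg]
    ring
  have k4 := S.M0_psd fun d => u (some (d, true))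
  have k5 := Gap_lower S hp ⟨h0.le, h1.le⟩ hun hN hN' ρ ρ1 h.smooth g1.smooth hb hb1 hle hle1
  have k6 : ∑ α, ∫ z, (1 * tot (S.μ p) S.νt α z - s * tot (S.μ p) S.νt α z) *
      (φ α z * φ1 α z) = (1 - s) * ∑ α, ∫ z, tot (S.μ p) S.νt α z * (φ α z * φ1 α z) := by
    rw [Finset.mul_sum]
    refine Finset.sum_congr rfl fun α _ => ?_
    rw [← integral_const_mul]
    congr 1
    ext z
    ring
  have k7 : ∑ α, ∫ z, tot (S.μ p) S.νt α z * (φ α z * φ1 α z) ≤ 0 := by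
    by_contra hn
    have := mul_pos (sub_pos.2 h1) (not_le.1 hn)
    linarith
  have k8 := sub_pos.2 S.c0_gt
  by_contra hn
  have := mul_pos k8 (sq_pos_of_ne_zero hn)
  linarith

theorem Sys.gap {p : D × D → ℝ} (hp : p ∈ cube D) (hit : S.Hit p) {s : ℝ} (h0 : 0 < s)
    (h1 : s < 1) {f : Option (D × Bool) × Bool → ℂ → ℝ}
    (hf : S.Q.glue.GSol f (src s (tot (S.μ p) S.νt) S.β (fun _ => 0) f)) :
    ∀ α, ∀ z ∈ S.Q.W α, f α z = 0 := by
  have H := S.hyp p hp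
  have hs : s ∈ Icc (0 : ℝ) 1 := ⟨h0.le, h1.le⟩
  have hp0 : ∀ v, 1 / 2 * av S.β f v + 1 / 2 * av S.β f (iV v) = 0 := by
    obtain ⟨v0, hv0⟩ := Finite.exists_max fun v =>
      |1 / 2 * av S.β f v + 1 / 2 * av S.β f (iV v)|
    obtain ⟨φ, ρ, g, hav, -, -⟩ := H.exists_rep hs _ hv0
    have := S.even p hp s h0 h1.le _ _ (fun v => by simp only [Gap_iV_iV]; ring) hv0 ⟨v0, rfl⟩ ρ
      (Gap_t_zero S hp hs hf g hav)
    intro v
    exact abs_nonpos_iff.1 ((hv0 v).trans this.le)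
  have hm0 : ∀ v, 1 / 2 * av S.β f v + -(1 / 2) * av S.β f (iV v) = 0 := by
    obtain ⟨v0, hv0⟩ := Finite.exists_max fun v =>
      |1 / 2 * av S.β f v + -(1 / 2) * av S.β f (iV v)|
    obtain ⟨φ, ρ, g, hav, hb, hle⟩ := H.exists_rep hs _ hv0
    have := S.odd_zero hp hit h0 h1 (fun v => by simp only [Gap_iV_iV]; ring) hv0 ⟨v0, rfl⟩ ρ g
      hav hb hle (Gap_t_zero S hp hs hf g hav)
    intro v
    exact abs_nonpos_iff.1 ((hv0 v).trans this.le)
  exact H.vanish hs hf fun v => by linarith [hp0 v, hm0 v]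

end Pool.Agent.MP_4f0ed6_gt
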