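import Pool.Agent.MP_4f0ed6_gt.FInj
import Pool.Agent.MP_4f0ed6_gt.FSurj
import Pool.Agent.MP_4f0ed6_gt.Cyc

open Set Laplacian Filter Topology MeasureTheory Metric InnerProductSpace
open scoped ContDiff

namespace Pool.Agent.MP_4f0ed6_gt

namespace Plumb

variable {V P : Type} [Fintype V] [Fintype P] {Q : Plumb V P}

omit [Fintype V] in
theorem Ok.Genus_sphere (hQ : Q.Ok) (π : P) :
    sphere (Q.c π) (Q.r π) ⊆ Q.W (Q.pc π, false) := by
  intro w hw
  have h1 : ‖w - Q.c π‖ = Q.r π := mem_sphere_iff_norm.1 hw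
  have h2 := hQ.r_le' π
  have h3 := hQ.sep_le
  have h4 : 0 < Q.r π := r_pos π
  refine ⟨?_, fun π' hp => ?_⟩
  · have h5 := hQ.c_le π
    have h6 : ‖w‖ ≤ ‖w - Q.c π‖ + ‖Q.c π‖ := by
      simpa using norm_add_le (w - Q.c π) (Q.c π)
    linarith
  · by_cases h : π' = π
    · rw [h, h1]
      linarith
    · have h5 := (hQ.near h hp (x := w - Q.c π) (by linarith)).1
      have h6 := hQ.r_le' π'
      have h7 : 0 < Q.r π' := r_pos π'
      rw [add_sub_cancel] at h5
      linarith

omit [Fintype V] in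
theorem Ok.Genus_int (hQ : Q.Ok) {f : V × Bool → ℂ → ℂ} (hf : f ∈ Q.glue.forms) (π : P) :
    CircleIntegrable (f (Q.pc π, false)) (Q.c π) (Q.r π) :=
  ContinuousOn.circleIntegrable (r_pos π).le
    ((hf.1 (Q.pc π, false)).continuousOn.mono (hQ.Genus_sphere π))

/-- the residue map -/
noncomputable def Ok.Genus_res (hQ : Q.Ok) : Q.glue.forms →ₗ[ℂ] Q.cyc where
  toFun f := ⟨Q.res f.1, fun π => by
    obtain ⟨⟨A, hA⟩, -⟩ := exists_splits hQ f.2
    exact (Splits.tube hQ f.2 hA π).1, (exists_splits hQ f.2).2⟩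
  map_add' f g := Subtype.ext (funext fun π => by
    have h := circleIntegral.integral_add (hQ.Genus_int f.2 π) (hQ.Genus_int g.2 π)
    change Q.res (f.1 + g.1) π = Q.res f.1 π + Q.res g.1 π
    simp only [res, Pi.add_apply]
    rw [h, mul_add])
  map_smul' a f := Subtype.ext (funext fun π => by
    have h := circleIntegral.integral_smul a (f.1 (Q.pc π, false)) (Q.c π) (Q.r π)
    change Q.res (a • f.1) π = a • Q.res f.1 π
    simp only [res, Pi.smul_apply]
    rw [h, smul_eq_mul, smul_eq_mul, mul_left_comm])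

theorem Ok.finrank_forms (hQ : Q.Ok) :
    2 * (Module.finrank ℂ Q.glue.forms + Fintype.card V) = Fintype.card P + 2 := by
  have hb : Function.Bijective hQ.Genus_res := by
    refine ⟨(injective_iff_map_eq_zero _).2 fun f hf => Subtype.ext ?_, fun b => ?_⟩
    · exact hQ.form_inj f.2 fun π => congrFun (congrArg Subtype.val hf) π
    · obtain ⟨f, hf, h⟩ := hQ.form_surj b.2
      exact ⟨⟨f, hf⟩, Subtype.ext h⟩
  rw [(LinearEquiv.ofBijective _ hb).finrank_eq]
  exact hQ.finrank_cyc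

end Plumb

end Pool.Agent.MP_4f0ed6_gt
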