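import Pool.Agent.MP_4f0ed6_gt.Defs

open Set Laplacian Filter Topology MeasureTheory Metric InnerProductSpace
open scoped ContDiff

namespace Pool.Agent.MP_4f0ed6_gt

theorem laur_cont {f : ℂ → ℂ} {c : ℂ} {R : ℝ} (hR : 0 ≤ R) (hf : ContinuousOn f (sphere c R)) :
    Continuous (fun θ : ℝ => deriv (circleMap c R) θ * f (circleMap c R θ)) := by
  have h1 : Continuous (fun θ : ℝ => f (circleMap c R θ)) :=
    hf.comp_continuous (continuous_circleMap c R) (fun θ => circleMap_mem_sphere c hR θ)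
  have h2 : Continuous (fun θ : ℝ => deriv (circleMap c R) θ) := by
    rw [funext (deriv_circleMap c R)]
    exact (continuous_circleMap 0 R).mul continuous_const
  exact h2.mul h1

theorem laur_diff {f : ℂ → ℂ} {c : ℂ} {R : ℝ} (hR : 0 ≤ R) (hf : ContinuousOn f (sphere c R))
    {w₀ : ℂ} (hw : ‖w₀ - c‖ ≠ R) :
    DifferentiableAt ℂ (fun w => ∮ z in C(c, R), (z - w)⁻¹ * f z) w₀ := by
  set g : ℝ → ℂ := fun θ => deriv (circleMap c R) θ * f (circleMap c R θ) with hg
  have hgc : Continuous g := laur_cont hR hf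
  set δ : ℝ := |‖w₀ - c‖ - R| / 2 with hδ
  have hδ0 : 0 < δ := by
    have : 0 < |‖w₀ - c‖ - R| := abs_pos.2 (sub_ne_zero.2 hw)
    linarith
  have hlow : ∀ x ∈ ball w₀ δ, ∀ θ : ℝ, δ ≤ ‖circleMap c R θ - x‖ := by
    intro x hx θ
    have hx' : ‖x - w₀‖ < δ := by simpa [dist_eq_norm] using hx
    have hz : ‖circleMap c R θ - c‖ = R := by
      have := circleMap_mem_sphere c hR θ
      simpa [dist_eq_norm] using this
    have h1 : |‖w₀ - c‖ - ‖circleMap c R θ - c‖| ≤ ‖(w₀ - c) - (circleMap c R θ - c)‖ :=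
      abs_norm_sub_norm_le _ _
    have h2 : (w₀ - c) - (circleMap c R θ - c) = -((circleMap c R θ - x) + (x - w₀)) := by ring
    rw [hz, h2, norm_neg] at h1
    have h3 := norm_add_le (circleMap c R θ - x) (x - w₀)
    linarith
  have hne : ∀ x ∈ ball w₀ δ, ∀ θ : ℝ, circleMap c R θ - x ≠ 0 := by
    intro x hx θ h
    have := hlow x hx θ
    rw [h, norm_zero] at this
    linarith
  have hcont : ∀ x ∈ ball w₀ δ, Continuous (fun θ : ℝ => (circleMap c R θ - x)⁻¹ * g θ) := by
    intro x hx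
    exact (((continuous_circleMap c R).sub continuous_const).inv₀ (hne x hx)).mul hgc
  have hcont' : ∀ x ∈ ball w₀ δ,
      Continuous (fun θ : ℝ => ((circleMap c R θ - x) ^ 2)⁻¹ * g θ) := by
    intro x hx
    exact ((((continuous_circleMap c R).sub continuous_const).pow 2).inv₀
      (fun θ => pow_ne_zero 2 (hne x hx θ))).mul hgc
  have hw0 : w₀ ∈ ball w₀ δ := mem_ball_self hδ0
  have key := intervalIntegral.hasDerivAt_integral_of_dominated_loc_of_deriv_le
    (μ := volume) (a := 0) (b := 2 * Real.pi)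
    (F := fun (x : ℂ) (θ : ℝ) => (circleMap c R θ - x)⁻¹ * g θ)
    (F' := fun (x : ℂ) (θ : ℝ) => ((circleMap c R θ - x) ^ 2)⁻¹ * g θ)
    (bound := fun θ => (δ ^ 2)⁻¹ * ‖g θ‖) (x₀ := w₀) (s := ball w₀ δ)
    (ball_mem_nhds w₀ hδ0)
    (by
      filter_upwards [ball_mem_nhds w₀ hδ0] with x hx
      exact (hcont x hx).aestronglyMeasurable)
    ((hcont w₀ hw0).intervalIntegrable _ _)
    (hcont' w₀ hw0).aestronglyMeasurable
    (Eventually.of_forall fun θ _ x hx => by
      rw [norm_mul, norm_inv, norm_pow]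
      refine mul_le_mul_of_nonneg_right ?_ (norm_nonneg _)
      exact inv_anti₀ (pow_pos hδ0 2) (pow_le_pow_left₀ hδ0.le (hlow x hx θ) 2))
    ((continuous_const.mul hgc.norm).intervalIntegrable _ _)
    (Eventually.of_forall fun θ _ x hx => by
      have h1 : HasDerivAt (fun y : ℂ => circleMap c R θ - y) (-1) x :=
        (hasDerivAt_id x).const_sub _
      have h2 := (h1.inv (hne x hx θ)).mul_const (g θ)
      rw [neg_neg, one_div] at h2
      exact h2)
  have heq : (fun w => ∮ z in C(c, R), (z - w)⁻¹ * f z) =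
      fun x => ∫ θ in (0 : ℝ)..2 * Real.pi, (circleMap c R θ - x)⁻¹ * g θ := by
    funext x
    unfold circleIntegral
    refine intervalIntegral.integral_congr fun θ _ => ?_
    simp only [hg, smul_eq_mul]
    ring
  rw [heq]
  exact key.2.differentiableAt

theorem laur_open (c : ℂ) (a b : ℝ) : IsOpen {w : ℂ | a < ‖w - c‖ ∧ ‖w - c‖ < b} := by
  have h : Continuous (fun w : ℂ => ‖w - c‖) := by fun_prop
  exact (isOpen_lt continuous_const h).inter (isOpen_lt h continuous_const)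

theorem laur_radius {F : ℂ → ℂ} {c : ℂ} {ρ₀ a b R₀ : ℝ} (h0 : 0 < ρ₀) (ha : ρ₀ < a) (hab : a ≤ b)
    (hb : b < R₀) (hF : DifferentiableOn ℂ F {w | ρ₀ < ‖w - c‖ ∧ ‖w - c‖ < R₀}) :
    (∮ z in C(c, b), F z) = ∮ z in C(c, a), F z := by
  have hU : IsOpen {w : ℂ | ρ₀ < ‖w - c‖ ∧ ‖w - c‖ < R₀} := laur_open c ρ₀ R₀
  refine Complex.circleIntegral_eq_of_differentiable_on_annulus_off_countable (h0.trans ha) hab
    countable_empty (hF.continuousOn.mono ?_) ?_
  · intro z hz
    have h1 : ‖z - c‖ ≤ b := by simpa [dist_eq_norm] using hz.1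
    have h2 : a ≤ ‖z - c‖ := by simpa [dist_eq_norm] using hz.2
    exact ⟨by linarith, by linarith⟩
  · intro z hz
    have h1 : ‖z - c‖ < b := by simpa [dist_eq_norm] using hz.1.1
    have h2 : a < ‖z - c‖ := by simpa [dist_eq_norm] using hz.1.2
    exact hF.differentiableAt (hU.mem_nhds ⟨by linarith, by linarith⟩)

theorem laur_split {F : ℂ → ℂ} {c w : ℂ} {a : ℝ} (ha : 0 ≤ a) (hw : ‖w - c‖ ≠ a)
    (hF : ContinuousOn F (sphere c a)) :
    (∮ z in C(c, a), dslope F w z) =
      (∮ z in C(c, a), (z - w)⁻¹ * F z) - F w * ∮ z in C(c, a), (z - w)⁻¹ := by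
  have hne : ∀ z ∈ sphere c a, z - w ≠ 0 := by
    intro z hz h
    have h1 : z = w := sub_eq_zero.1 h
    have h2 : ‖z - c‖ = a := by simpa [dist_eq_norm] using hz
    exact hw (h1 ▸ h2)
  have hi : ContinuousOn (fun z : ℂ => (z - w)⁻¹) (sphere c a) :=
    (continuousOn_id.sub continuousOn_const).inv₀ hne
  have i1 : CircleIntegrable (fun z : ℂ => (z - w)⁻¹ * F z) c a := (hi.mul hF).circleIntegrable ha
  have i2 : CircleIntegrable (fun z : ℂ => F w * (z - w)⁻¹) c a :=
    (continuousOn_const.mul hi).circleIntegrable ha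
  rw [← circleIntegral.integral_const_mul, ← circleIntegral.integral_sub i1 i2]
  refine circleIntegral.integral_congr ha fun z hz => ?_
  have hzw : z ≠ w := sub_ne_zero.1 (hne z hz)
  simp only [dslope_of_ne F hzw, slope_def_field]
  rw [div_eq_mul_inv]
  ring

theorem laur_lim {F : ℂ → ℂ} {c : ℂ} {a : ℝ} (ha : 0 ≤ a) (hF : ContinuousOn F (sphere c a)) :
    Tendsto (fun w : ℂ => w * -∮ z in C(c, a), (z - w)⁻¹ * F z) (cocompact ℂ)
      (𝓝 (∮ z in C(c, a), F z)) := by
  obtain ⟨M, hM⟩ := (isCompact_sphere c a).exists_bound_of_continuousOn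
    (continuousOn_id.mul hF)
  set K : ℝ := ‖c‖ + a with hK
  have hn : Tendsto (fun w : ℂ => ‖w‖) (cocompact ℂ) atTop := tendsto_norm_cocompact_atTop (E := ℂ)
  have hlim : Tendsto (fun w : ℂ => 2 * Real.pi * a * ((‖w‖ - K)⁻¹ * M)) (cocompact ℂ) (𝓝 0) := by
    have h1 : Tendsto (fun w : ℂ => ‖w‖ - K) (cocompact ℂ) atTop :=
      tendsto_atTop_add_const_right _ (-K) hn
    have h2 := (h1.inv_tendsto_atTop.mul_const M).const_mul (2 * Real.pi * a)
    simpa using h2
  rw [tendsto_iff_norm_sub_tendsto_zero]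
  refine squeeze_zero' (Eventually.of_forall fun _ => norm_nonneg _) ?_ hlim
  filter_upwards [hn.eventually_gt_atTop K] with w hw
  have hlow : ∀ z ∈ sphere c a, ‖w‖ - K ≤ ‖z - w‖ := by
    intro z hz
    have h2 : ‖z - c‖ = a := by simpa [dist_eq_norm] using hz
    have h3 : w = c + (z - c) - (z - w) := by ring
    have h4 : ‖c + (z - c) - (z - w)‖ ≤ ‖c‖ + ‖z - c‖ + ‖z - w‖ :=
      (norm_sub_le _ _).trans (by gcongr; exact norm_add_le _ _)
    rw [← h3] at h4
    linarith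
  have hne : ∀ z ∈ sphere c a, z - w ≠ 0 := by
    intro z hz h
    have := hlow z hz
    rw [h, norm_zero] at this
    linarith
  have hi : ContinuousOn (fun z : ℂ => (z - w)⁻¹) (sphere c a) :=
    (continuousOn_id.sub continuousOn_const).inv₀ hne
  have heq : w * (-∮ z in C(c, a), (z - w)⁻¹ * F z) - (∮ z in C(c, a), F z) =
      ∮ z in C(c, a), -((z - w)⁻¹ * (z * F z)) := by
    have i1 : CircleIntegrable (fun z : ℂ => -w * ((z - w)⁻¹ * F z)) c a :=
      (continuousOn_const.mul (hi.mul hF)).circleIntegrable ha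
    rw [mul_neg, ← neg_mul, ← circleIntegral.integral_const_mul, ← circleIntegral.integral_sub
      i1 (hF.circleIntegrable ha)]
    refine circleIntegral.integral_congr ha fun z hz => ?_
    have := hne z hz
    field_simp
    ring
  rw [heq]
  refine circleIntegral.norm_integral_le_of_norm_le_const ha fun z hz => ?_
  rw [norm_neg, norm_mul, norm_inv]
  have hp : 0 < ‖w‖ - K := sub_pos.2 hw
  exact mul_le_mul (inv_anti₀ hp (hlow z hz)) (hM z hz) (norm_nonneg _) (inv_pos.2 hp).le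

theorem laurent {F : ℂ → ℂ} {c : ℂ} {ρ₀ ρ r R R₀ : ℝ} (h0 : 0 < ρ₀) (h1 : ρ₀ < ρ) (h2 : ρ < R)
    (h3 : R < R₀) (hr : ρ₀ < r) (hr' : r < R₀)
    (hF : DifferentiableOn ℂ F {w | ρ₀ < ‖w - c‖ ∧ ‖w - c‖ < R₀}) :
    ∃ A B : ℂ → ℂ, DifferentiableOn ℂ A {w | ρ < ‖w - c‖} ∧
      DifferentiableOn ℂ B {w | ‖w - c‖ < R} ∧
      Tendsto (fun w => w * A w) (cocompact ℂ)
        (𝓝 ((2 * Real.pi * Complex.I)⁻¹ * ∮ z in C(c, r), F z)) ∧
      ∀ w, ρ < ‖w - c‖ → ‖w - c‖ < R → F w = A w + B w := by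
  have hU : IsOpen {w : ℂ | ρ₀ < ‖w - c‖ ∧ ‖w - c‖ < R₀} := laur_open c ρ₀ R₀
  have hρ : 0 < ρ := h0.trans h1
  have hR : 0 < R := hρ.trans h2
  have hsph : ∀ a : ℝ, ρ₀ < a → a < R₀ → ContinuousOn F (sphere c a) := by
    intro a ha ha'
    refine hF.continuousOn.mono fun z hz => ?_
    have h : ‖z - c‖ = a := by simpa [dist_eq_norm] using hz
    exact ⟨by linarith, by linarith⟩
  have hFρ := hsph ρ h1 (h2.trans h3)
  have hFR := hsph R (h1.trans h2) h3
  have hpi : (2 * Real.pi * Complex.I : ℂ) ≠ 0 := Complex.two_pi_I_ne_zero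
  refine ⟨fun w => (2 * Real.pi * Complex.I)⁻¹ * -∮ z in C(c, ρ), (z - w)⁻¹ * F z,
    fun w => (2 * Real.pi * Complex.I)⁻¹ * ∮ z in C(c, R), (z - w)⁻¹ * F z, ?_, ?_, ?_, ?_⟩
  · intro w hw
    exact ((laur_diff hρ.le hFρ (ne_of_gt hw)).neg.const_mul _).differentiableWithinAt
  · intro w hw
    exact ((laur_diff hR.le hFR (ne_of_lt hw)).const_mul _).differentiableWithinAt
  · have hrρ : (∮ z in C(c, r), F z) = ∮ z in C(c, ρ), F z := by
      rcases le_total r ρ with h | h
      · exact (laur_radius h0 hr h (h2.trans h3) hF).symm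
      · exact laur_radius h0 h1 h hr' hF
    rw [hrρ]
    refine ((laur_lim hρ.le hFρ).const_mul (2 * Real.pi * Complex.I)⁻¹).congr fun w => ?_
    ring
  · intro w hw hw'
    have hwU : {w : ℂ | ρ₀ < ‖w - c‖ ∧ ‖w - c‖ < R₀} ∈ 𝓝 w :=
      hU.mem_nhds ⟨by linarith, by linarith⟩
    have hd := (Complex.differentiableOn_dslope hwU).2 hF
    have he := laur_radius h0 h1 h2.le h3 hd
    rw [laur_split hR.le (ne_of_lt hw') hFR, laur_split hρ.le (ne_of_gt hw) hFρ,
      circleIntegral.integral_sub_inv_of_mem_ball (by simpa [dist_eq_norm] using hw')] at he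
    have hz : (∮ z in C(c, ρ), (z - w)⁻¹) = 0 := by
      have hne : ∀ z ∈ closedBall c ρ, z - w ≠ 0 := by
        intro z hz h
        have h4 : z = w := sub_eq_zero.1 h
        have h5 : ‖z - c‖ ≤ ρ := by simpa [dist_eq_norm] using hz
        rw [h4] at h5
        linarith
      refine Complex.circleIntegral_eq_zero_of_differentiable_on_off_countable hρ.le
        countable_empty ((continuousOn_id.sub continuousOn_const).inv₀ hne) fun z hz => ?_
      exact (differentiableAt_id.sub_const w).inv (hne z (ball_subset_closedBall hz.1))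
    rw [hz, mul_zero, sub_zero] at he
    simp only
    rw [← he]
    field_simp
    ring

theorem liouville_glue {A B : ℂ → ℂ} {ρ R : ℝ} (h : ρ < R)
    (hA : DifferentiableOn ℂ A {w | ρ < ‖w‖}) (hB : DifferentiableOn ℂ B {w | ‖w‖ < R})
    (he : ∀ w, ρ < ‖w‖ → ‖w‖ < R → A w = B w) (hl : Tendsto A (cocompact ℂ) (𝓝 0)) :
    ∀ w, ρ < ‖w‖ → A w = 0 := by
  classical
  set G : ℂ → ℂ := fun w => if ‖w‖ < R then B w else A w with hG
  have hGA : ∀ w, ρ < ‖w‖ → G w = A w := by
    intro w hw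
    by_cases hw' : ‖w‖ < R
    · simp only [hG, if_pos hw']
      exact (he w hw hw').symm
    · simp only [hG, if_neg hw']
  have hoA : IsOpen {w : ℂ | ρ < ‖w‖} := isOpen_lt continuous_const continuous_norm
  have hoB : IsOpen {w : ℂ | ‖w‖ < R} := isOpen_lt continuous_norm continuous_const
  have hGd : Differentiable ℂ G := by
    intro w
    by_cases hw : ‖w‖ < R
    · refine (hB.differentiableAt (hoB.mem_nhds hw)).congr_of_eventuallyEq ?_
      filter_upwards [hoB.mem_nhds hw] with x hx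
      simp only [hG, if_pos (show ‖x‖ < R from hx)]
    · have hw' : ρ < ‖w‖ := by linarith [not_lt.1 hw]
      refine (hA.differentiableAt (hoA.mem_nhds hw')).congr_of_eventuallyEq ?_
      filter_upwards [hoA.mem_nhds hw'] with x hx
      exact hGA x hx
  have hGl : Tendsto G (cocompact ℂ) (𝓝 0) := by
    refine hl.congr' ?_
    filter_upwards [(tendsto_norm_cocompact_atTop (E := ℂ)).eventually_gt_atTop ρ] with x hx
    exact (hGA x hx).symm
  intro w hw
  rw [← hGA w hw]
  exact hGd.apply_eq_of_tendsto_cocompact w hGl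

theorem tendsto_zero_of_mul {A : ℂ → ℂ} {a : ℂ}
    (h : Tendsto (fun w => w * A w) (cocompact ℂ) (𝓝 a)) : Tendsto A (cocompact ℂ) (𝓝 0) := by
  have hn : Tendsto (fun w : ℂ => ‖w‖) (cocompact ℂ) atTop := tendsto_norm_cocompact_atTop (E := ℂ)
  have hi : Tendsto (fun w : ℂ => w⁻¹) (cocompact ℂ) (𝓝 0) := by
    rw [tendsto_zero_iff_norm_tendsto_zero]
    simp only [norm_inv]
    exact hn.inv_tendsto_atTop
  have h2 := hi.mul h
  rw [zero_mul] at h2
  refine h2.congr' ?_
  filter_upwards [hn.eventually_gt_atTop 0] with w hw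
  have : w ≠ 0 := norm_pos_iff.1 hw
  field_simp

end Pool.Agent.MP_4f0ed6_gt
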