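import Pool.Agent.MP_4f0ed6_gt.RS2

open Set Laplacian Filter Topology MeasureTheory Metric InnerProductSpace
open scoped ContDiff

namespace Pool.Agent.MP_4f0ed6_gt

/-- the bijection between the field with two elements and the booleans -/
def RS3_eB : ZMod 2 ≃ Bool where
  toFun a := decide (a = 1)
  invFun b := if b then 1 else 0
  left_inv := by decide
  right_inv := by decide

theorem RS3_eB_add (a : ZMod 2) : RS3_eB (a + 1) = !(RS3_eB a) := by
  revert a; decide

theorem RS3_lap {X Y T T' : Type} [Fintype T] [Fintype T'] (E : X ≃ Y) (eT : T' ≃ T)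
    (P : T → Equiv.Perm X) (u : Y → ℝ) (x : X) :
    Lap (fun t => E.permCongr (P (eT t))) u (E x) = Lap P (fun y => u (E y)) x := by
  unfold Lap
  rw [← Equiv.sum_comp eT]
  refine Finset.sum_congr rfl fun t _ => ?_
  simp [Equiv.permCongr_def]

theorem RS3_chr_odd {G : Type} [AddCommGroup G] [Module (ZMod 2) G]
    (f : Module.Dual (ZMod 2) G) (z : G) (hz : f z ≠ 0) (x : G) :
    chr f (x + z) = -chr f x := by
  unfold chr
  rw [map_add]
  generalize f x = a at *
  generalize f z = b at *
  have h : ∀ a b : ZMod 2, b ≠ 0 → (a + b = 0 ↔ ¬ a = 0) := by decide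
  by_cases ha : a = 0
  · rw [if_pos ha, if_neg (by rw [h a b hz]; exact not_not.mpr ha)]
  · rw [if_neg ha, if_pos ((h a b hz).mpr ha)]; simp

theorem graph_exists (e m : ℕ) (he : 0 < e) (hm : 0 < m) (hme : m ≤ 2 ^ e) :
    ∃ nT ≤ 4 ^ e, ∃ (Pm : Fin nT → Equiv.Perm (DD (e * m) × Bool)) (θ : ℝ)
      (F : Fin (Nat.choose (2 ^ e) m) → DD (e * m) × Bool → ℝ), GraphOk Pm θ ∧
      LinearIndependent ℝ F ∧ (∀ i v, F i (flp v) = -F i v) ∧
      ∀ i v, Lap Pm (F i) v = θ * F i v := by
  classical
  obtain ⟨W, T, _, _, _, _, γ, θ, F, hW, hT, hθ, hγ, hodd, heven, hF, hFi⟩ :=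
    rs_code e m he hm hme
  have hc : Fintype.card W = Fintype.card (DD (e * m)) := by
    rw [hW]; simp [DD]
  let eW : W ≃ DD (e * m) := Fintype.equivOfCardEq hc
  let eT : Fin (Fintype.card T) ≃ T := (Fintype.equivFin T).symm
  let E : W × ZMod 2 ≃ DD (e * m) × Bool := eW.prodCongr RS3_eB
  have hE : ∀ x : W × ZMod 2, E (x + (0, 1)) = flp (E x) := by
    rintro ⟨w, a⟩
    simp [E, flp, RS3_eB_add]
  have hlap : ∀ (u : DD (e * m) × Bool → ℝ) (x : W × ZMod 2),
      Lap (fun t => E.permCongr (Equiv.addRight (γ (eT t)))) u (E x) =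
        Lap (fun t => Equiv.addRight (γ t)) (fun y => u (E y)) x :=
    fun u x => RS3_lap E eT (fun t => Equiv.addRight (γ t)) u x
  refine ⟨Fintype.card T, hT, fun t => E.permCongr (Equiv.addRight (γ (eT t))), θ,
    fun i v => chr (F i) (E.symm v), ⟨hθ, ?_, ?_, ?_, ?_⟩, ?_, ?_, ?_⟩
  · intro t v h
    obtain ⟨x, rfl⟩ := E.surjective v
    simp only [Equiv.permCongr_apply, Equiv.symm_apply_apply, Equiv.coe_addRight,
      EmbeddingLike.apply_eq_iff_eq, add_eq_left] at h
    exact hγ _ h
  · intro t v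
    obtain ⟨x, rfl⟩ := E.surjective v
    rw [← hE]
    simp only [Equiv.permCongr_apply, Equiv.symm_apply_apply, Equiv.coe_addRight]
    rw [← hE, add_right_comm]
  · intro u hu
    have := lap_odd γ (0, 1) hodd (fun y => u (E y)) (fun x => by
      show u (E (x + (0, 1))) = -u (E x)
      rw [hE, hu])
    rw [← Equiv.sum_comp E (fun v => u v ^ 2), ← Equiv.sum_comp E
      (fun v => u v * Lap (fun t => E.permCongr (Equiv.addRight (γ (eT t)))) u v)]
    simpa only [hlap] using this
  · intro u hu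
    have := lap_even γ (0, 1) heven (fun y => u (E y)) (fun x => by
      show u (E (x + (0, 1))) = u (E x)
      rw [hE, hu])
    rw [← Equiv.sum_comp E (fun v => u v ^ 2), ← Equiv.sum_comp E
      (fun v => u v * Lap (fun t => E.permCongr (Equiv.addRight (γ (eT t)))) u v),
      ← Equiv.sum_comp E u, ← Fintype.card_congr E]
    simpa only [hlap] using this
  · have h1 : LinearIndependent ℝ fun i => chr (F i) := chr_indep.comp F hF
    rw [Fintype.linearIndependent_iff] at h1 ⊢
    intro g hg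
    refine h1 g ?_
    funext x
    have := congrFun hg (E x)
    simpa using this
  · intro i v
    obtain ⟨x, rfl⟩ := E.surjective v
    rw [← hE]
    simp only [Equiv.symm_apply_apply]
    exact RS3_chr_odd _ _ (hFi i).1 x
  · intro i v
    obtain ⟨x, rfl⟩ := E.surjective v
    rw [hlap]
    simp only [Equiv.symm_apply_apply]
    rw [← (hFi i).2]
    exact lap_chr γ (F i) x

end Pool.Agent.MP_4f0ed6_gt
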