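import Pool.Agent.MP_4f0ed6_gt.Gap
import Pool.Agent.MP_4f0ed6_gt.AtlR

open Set Laplacian Filter Topology MeasureTheory Metric InnerProductSpace
open scoped ContDiff

namespace Pool.Agent.MP_4f0ed6_gt

theorem SysG_src {V : Type} (s : ℝ) (ν : V × Bool → ℂ → ℝ) (β : V → ℂ → ℝ)
    (φ : V × Bool → ℂ → ℝ) :
    src s ν β (fun _ => 0) φ = fun α z => -s * ν α z * φ α z := by
  funext α z
  simp [src]

theorem SysG_av {V P : Type} [Fintype P] {Q : Plumb V P} {β : V → ℂ → ℝ} {Λ : ℝ} (hQ : Q.Ok)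
    (hβ : Q.Bump β Λ) {φ : V × Bool → ℂ → ℝ} (h : ∀ α, ∀ z ∈ Q.W α, φ α z = 0) (v : V) :
    av β φ v = 0 := by
  have : (fun w => β v w * φ (v, false) w) = fun _ => 0 := by
    funext w
    by_cases hw : β v w = 0
    · simp [hw]
    · rw [h _ w (hQ.bulk_sub_W v (hQ.core_sub_bulk v (hβ.supp v w hw))), mul_zero]
  simp [av, this]

theorem SysG_ed {D : Type} [Fintype D] (c : D → ℝ) (d : D) :
    ∑ d', c d' * ed d' (some (d, true)) = c d := by
  classical
  rw [Finset.sum_eq_single d]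
  · simp [ed, sg]
  · intro b _ hb
    simp [ed, hb.symm]
  · simp

theorem SysG_pos {D P : Type} [Fintype D] [Fintype P] (S : Sys D P) {p : D × D → ℝ}
    (hp : p ∈ cube D) (α : Option (D × Bool) × Bool) (z : ℂ) (hz : z ∈ S.Q.glue.W α) :
    0 < S.Q.glue.gd (tot (S.μ p) S.νt) α z := by
  have e : S.Q.glue.gd (tot (S.μ p) S.νt) α z =
      S.Q.glue.gd (fin (S.μ p)) α z + S.Q.glue.gd S.νt α z := Glue.gd_add _ _ _ _
  rw [e]
  refine add_pos_of_nonneg_of_pos (Glue.gd_nonneg ?_ _ _) (S.νt_pos α z hz)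
  rintro ⟨v, _ | _⟩ w
  · exact S.μ_nonneg p hp v w
  · exact le_rfl

theorem Sys.good {D P : Type} [Fintype D] [Fintype P] (S : Sys D P) {k : ℕ} (f : Fin k → D → ℝ)
    (hf : LinearIndependent ℝ f) (h0 : ∀ i d, ∑ d', S.M0 d d' * f i d' = 0) :
    Good (Module.finrank ℂ S.Q.glue.forms) k := by
  obtain ⟨p, hp, hit⟩ := S.exists_hit
  have H := S.hyp p hp
  choose ψ t hψ hav ht0 ht using id hit
  have hc := fun i => Plumb.gsol_comb H.ok H.bump (f i) hψ
  have htz : ∀ i, (fun v => ∑ d', f i d' * t d' v) = fun _ => 0 := by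
    intro i
    funext v
    rcases v with _ | ⟨d, ε⟩
    · simp [ht0]
    · have : ∑ d', f i d' * t d' (some (d, ε)) = -sg ε * ∑ d', S.M0 d d' * f i d' := by
        rw [Finset.mul_sum]
        exact Finset.sum_congr rfl fun d' _ => by rw [ht]; ring
      rw [this, h0, mul_zero]
  have hφ : ∀ i, S.Q.glue.GSol (fun α z => ∑ d', f i d' * ψ d' α z)
      (src 1 (tot (S.μ p) S.νt) S.β (fun _ => 0) fun α z => ∑ d', f i d' * ψ d' α z) := by
    intro i
    have := (hc i).1
    rwa [htz i] at this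
  refine Glue.realize H.ok.glue H.tot_cs (SysG_pos S hp)
    (fun i α z => ∑ d', f i d' * ψ d' α z) (fun i => ?_) (fun c hcz => ?_)
    (fun s hs0 hs1 g hg => ?_)
  · have := hφ i
    rwa [SysG_src] at this
  · have h1 := (Plumb.gsol_comb H.ok H.bump c hφ).2
    funext i
    refine Fintype.linearIndependent_iff.1 hf c ?_ i
    funext d
    have h2 := h1 (some (d, true))
    rw [SysG_av H.ok H.bump hcz] at h2
    rw [Finset.sum_apply, Pi.zero_apply, h2]
    refine Finset.sum_congr rfl fun j _ => ?_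
    rw [(hc j).2]
    simp only [hav, SysG_ed, Pi.smul_apply, smul_eq_mul]
  · refine S.gap hp hit hs0 hs1 ?_
    rwa [SysG_src]

end Pool.Agent.MP_4f0ed6_gt
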