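import Pool.Agent.MP_4f0ed6_gt.MkSys
import Pool.Agent.MP_4f0ed6_gt.SysG
import Pool.Agent.MP_4f0ed6_gt.Genus
import Pool.Agent.MP_4f0ed6_gt.RS3
import Pool.Agent.MP_4f0ed6_gt.FxEx

open Set Laplacian Filter Topology MeasureTheory Metric InnerProductSpace
open scoped ContDiff

namespace Pool.Agent.MP_4f0ed6_gt

theorem Main_indep {D : Type} {k : ℕ} (F : Fin k → D × Bool → ℝ) (hF : LinearIndependent ℝ F)
    (ho : ∀ i v, F i (flp v) = -F i v) :
    LinearIndependent ℝ (fun (i : Fin k) (d : D) => F i (d, true)) := by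
  rw [Fintype.linearIndependent_iff] at hF ⊢
  intro g hg
  apply hF g
  funext v
  obtain ⟨d, b⟩ := v
  have h1 : ∑ i, g i * F i (d, true) = 0 := by
    have := congrFun hg d
    simpa [Finset.sum_apply] using this
  cases b with
  | true => simpa [Finset.sum_apply] using h1
  | false =>
    have h2 : ∀ i, F i (d, false) = -F i (d, true) := fun i => ho i (d, true)
    simp only [Finset.sum_apply, Pi.smul_apply, smul_eq_mul, Pi.zero_apply, h2, mul_neg,
      Finset.sum_neg_distrib, h1, neg_zero]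

theorem good_of_le (e m γ : ℕ) (he : 0 < e) (hm : 0 < m) (hme : m ≤ 2 ^ e)
    (hγ : 2 ^ (e * m) * 2 * (e * m + 4 ^ e) ≤ γ) : Good γ (Nat.choose (2 ^ e) m) := by
  obtain ⟨nT, hnT, Pm, θ, F, hG, hF, ho, hL⟩ := graph_exists e m he hm hme
  have hh : 0 < e * m := Nat.mul_pos he hm
  obtain ⟨k, hk⟩ : ∃ k, e * m + nT = k + 1 := ⟨e * m + nT - 1, by omega⟩
  have hle : 2 ^ (e * m) * 2 * k ≤ γ :=
    le_trans (Nat.mul_le_mul_left _ (by omega)) hγ
  obtain ⟨S, hS, hP, hθ⟩ := fx_exists (γ - 2 ^ (e * m) * 2 * k) hh hG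
  obtain ⟨η, T, hQ, hM⟩ := hS.exists_sys
  have hok : T.Q.Ok := (T.hyp 0 (fun i => by simp)).ok
  have hr := hok.finrank_forms
  rw [Fx.card_PP, Fx.card_VV, hk] at hr
  have hg : Module.finrank ℂ T.Q.glue.forms = γ := by
    have e1 : 2 ^ (e * m) * 4 * (k + 1) = 2 * (2 ^ (e * m) * 2 * k) + 2 * (2 ^ (e * m) * 2) := by
      ring
    omega
  rw [← hg]
  refine T.good (fun i d => F i (d, true)) (Main_indep F hF ho) ?_
  intro i d
  rw [hM]
  simp only [mul_assoc]
  have h1 := Fx.M1_mul (S := S) (F i) (ho i) d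
  rw [← Finset.mul_sum, h1, hP, hθ, hL, sub_self, mul_zero]

end Pool.Agent.MP_4f0ed6_gt
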