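import Pool.Agent.MP_4f0ed6_gt.Boot

open Set Laplacian Filter Topology MeasureTheory Metric InnerProductSpace
open scoped ContDiff

namespace Pool.Agent.MP_4f0ed6_gt

namespace Plumb

variable {V P : Type} [Fintype V] [Fintype P] {Q : Plumb V P} {β : V → ℂ → ℝ} {Λ s : ℝ}
  {Y : Inp V P} {ν ext : V × Bool → ℂ → ℝ}

omit [Fintype V] in
theorem Match1_b_σ (hQ : Q.Ok) (h : Q.IsFix β Y s ν ext) (π : P) : Y.b (Q.σ π) = -Y.b π := by
  have h1 := h.tube π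
  have h2 := h.tube (Q.σ π)
  rw [hQ.σσ, hQ.L_σ] at h2
  have hL := hQ.L_pos π
  have h3 : Q.L π * (Y.b (Q.σ π) + Y.b π) = 0 := by rw [mul_add, h1, h2]; ring
  rcases mul_eq_zero.1 h3 with h4 | h4
  · exact absurd h4 hL.ne'
  · linarith

omit [Fintype V] in
theorem Match1_near (hQ : Q.Ok) (hβ : Q.Bump β Λ) (hY : Q.Reg Y ∞) (h : Q.IsFix β Y s ν ext)
    (π : P) {x : ℂ} (hx : ‖x‖ < 2 * Q.r π) :
    Q.phi β Y (Q.pc π, false) (Q.c π + x) = Q.CC β Y (Q.pc π) + Q.R0 β Y π x +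
      (Y.b π * Real.log ‖x‖ + Q.R0 β Y (Q.σ π) (Q.ε π / x) - Q.R0 β Y (Q.σ π) 0) := by
  classical
  have hmem : π ∈ Q.pts (Q.pc π) := mem_pts.2 rfl
  have hsum : ∑ π' ∈ (Q.pts (Q.pc π)).erase π,
      (Y.b π' * Real.log ‖Q.c π + x - Q.c π'‖ +
        Q.R0 β Y (Q.σ π') (Q.ε π' / (Q.c π + x - Q.c π')) - Q.R0 β Y (Q.σ π') 0) =
      ∑ π' ∈ (Q.pts (Q.pc π)).erase π, Q.term Y π' (Q.c π + x) := by
    refine Finset.sum_congr rfl fun π' hπ' => ?_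
    obtain ⟨hne, hp⟩ := Finset.mem_erase.1 hπ'
    have hp' : Q.pc π' = Q.pc π := mem_pts.1 hp
    have hr := hQ.r_le' π
    have hr' := hQ.r_le' π'
    have hrp := r_pos (Q := Q) π
    have hrp' := r_pos (Q := Q) π'
    have hn := (hQ.near hne hp' (x := x) (by linarith)).1
    have hy : ‖Q.ε π' / (Q.c π + x - Q.c π')‖ < Q.r π' / 2 := by
      rw [norm_div, norm_ε, div_lt_iff₀ (by linarith)]
      nlinarith
    rw [term, far_eq hQ hβ hY h π' hy]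
    ring
  have e1 : Q.phi β Y (Q.pc π, false) (Q.c π + x) = Q.CC β Y (Q.pc π) +
      Q.Pot β Y (Q.pc π, false) (Q.c π + x) + ∑ π' ∈ Q.pts (Q.pc π),
      (Y.b π' * Real.log ‖Q.c π + x - Q.c π'‖ +
        Q.R0 β Y (Q.σ π') (Q.ε π' / (Q.c π + x - Q.c π')) - Q.R0 β Y (Q.σ π') 0) := rfl
  have e2 : Q.R0 β Y π x = Q.Pot β Y (Q.pc π, false) (Q.c π + x) +
      ∑ π' ∈ (Q.pts (Q.pc π)).erase π, Q.term Y π' (Q.c π + x) := by
    rw [R0]
  rw [e1, e2, ← Finset.add_sum_erase _ _ hmem, hsum, add_sub_cancel_left]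
  ring

omit [Fintype V] in
theorem Match1_tube (hQ : Q.Ok) (hβ : Q.Bump β Λ) (hY : Q.Reg Y ∞) (h : Q.IsFix β Y s ν ext)
    (π : P) {z : ℂ} (h1 : Q.r π / 2 < ‖z - Q.c π‖) (h2 : ‖z - Q.c π‖ < 2 * Q.r π) :
    Q.phi β Y (Q.pc π, false) z =
      Q.phi β Y (Q.pc (Q.σ π), false) (Q.c (Q.σ π) + Q.ε π / (z - Q.c π)) := by
  obtain ⟨x, rfl⟩ : ∃ x, z = Q.c π + x := ⟨z - Q.c π, by ring⟩
  rw [add_sub_cancel_left] at h1 h2 ⊢
  have hrp := r_pos (Q := Q) π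
  have hx0 : 0 < ‖x‖ := by linarith
  have hx : x ≠ 0 := norm_pos_iff.1 hx0
  have hε : Q.ε π ≠ 0 := by
    rw [← norm_pos_iff, norm_ε]
    positivity
  have hy : ‖Q.ε π / x‖ < 2 * Q.r (Q.σ π) := by
    rw [hQ.r_σ, norm_div, norm_ε, div_lt_iff₀ hx0]
    nlinarith
  have hyx : Q.ε π / (Q.ε π / x) = x := by field_simp
  have hlog : Real.log ‖Q.ε π / x‖ = -Q.L π - Real.log ‖x‖ := by
    rw [norm_div, norm_ε, Real.log_div (by positivity) hx0.ne', Real.log_pow, log_r]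
    push_cast
    ring
  rw [Match1_near hQ hβ hY h π h2, Match1_near hQ hβ hY h (Q.σ π) hy, hQ.σσ, hQ.ε_σ, hyx,
    Match1_b_σ hQ h, hlog]
  have ht := h.tube π
  rw [RR, RR] at ht
  linarith

omit [Fintype V] in
theorem Match1_cap (hQ : Q.Ok) (hβ : Q.Bump β Λ) (hY : Q.Reg Y ∞) (h : Q.IsFix β Y s ν ext)
    (v : V) {w : ℂ} (h1 : 1 / 2 < ‖w‖) :
    Q.phi β Y (v, false) w = Q.phi β Y (v, true) w⁻¹ := by
  have hw0 : 0 < ‖w‖ := by linarith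
  have hw : w ≠ 0 := norm_pos_iff.1 hw0
  have hfar : ∀ π, 1 / 4 < ‖w - Q.c π‖ := fun π => by
    have a1 := hQ.c_le π
    have a2 := norm_sub_norm_le w (Q.c π)
    linarith
  have hgs := gs_cs (k := ∞) le_rfl hQ hβ hY
  have hc : ∀ α, Continuous (Q.gs β Y α) := fun α => (hgs α).1.continuous
  have hs : ∀ α, HasCompactSupport (Q.gs β Y α) := fun α => (hgs α).2.1
  have hgi : ∀ α, Integrable (Y.g α) := fun α =>
    (hY.2 α).1.continuous.integrable_of_hasCompactSupport (hY.2 α).2.1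
  have hβi : Integrable (β v) := by
    refine (hβ.smooth v).continuous.integrable_of_hasCompactSupport ?_
    exact HasCompactSupport.intro (isCompact_core (Q := Q) v) fun u hu => by
      by_contra hne
      exact hu (hβ.supp v u hne)
  have i1 : ∫ u, Q.gs β Y (v, false) u = (∫ u, Y.g (v, false) u) + Q.tt Y v := by
    have : (fun u => Q.gs β Y (v, false) u) = fun u => Y.g (v, false) u + Q.tt Y v * β v u := rfl
    rw [this, integral_add (hgi _) (hβi.const_mul _), integral_const_mul, hβ.int, mul_one]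
  have i2 : ∫ u, Q.gs β Y (v, true) u = ∫ u, Y.g (v, true) u := by
    have : (fun u => Q.gs β Y (v, true) u) = fun u => Y.g (v, true) u + Q.tt Y v * 0 := rfl
    rw [this]
    simp
  have hsum : ∑ π ∈ Q.pts v, (Y.b π * Real.log ‖1 - Q.c π * w⁻¹‖ +
      Q.farY Y π (Q.ε π * w⁻¹ / (1 - Q.c π * w⁻¹))) =
      ∑ π ∈ Q.pts v, Q.term Y π w - (∑ π ∈ Q.pts v, Y.b π) * Real.log ‖w‖ := by
    rw [Finset.sum_mul, ← Finset.sum_sub_distrib]
    refine Finset.sum_congr rfl fun π _ => ?_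
    have hd0 : 0 < ‖w - Q.c π‖ := by linarith [hfar π]
    have hd : w - Q.c π ≠ 0 := norm_pos_iff.1 hd0
    have a1 : 1 - Q.c π * w⁻¹ = (w - Q.c π) / w := by field_simp
    have a2 : Q.ε π * w⁻¹ / ((w - Q.c π) / w) = Q.ε π / (w - Q.c π) := by field_simp
    rw [a1, a2, norm_div, Real.log_div hd0.ne' hw0.ne', term]
    ring
  have e1 : Q.phi β Y (v, true) w⁻¹ = Q.CC β Y v + (NP (Q.gs β Y (v, true)) w⁻¹ +
      NQ (Q.gs β Y (v, false)) w⁻¹) + ∑ π ∈ Q.pts v, (Y.b π * Real.log ‖1 - Q.c π * w⁻¹‖ +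
      Q.farY Y π (Q.ε π * w⁻¹ / (1 - Q.c π * w⁻¹))) := rfl
  have e2 : Q.Phi β Y v w = NP (Q.gs β Y (v, false)) w + NQ (Q.gs β Y (v, true)) w +
      ∑ π ∈ Q.pts v, Q.term Y π w := rfl
  have e3 : Q.tt Y v = -(∑ π ∈ Q.pts v, Y.b π) - (∫ z, Y.g (v, false) z) -
      ∫ z, Y.g (v, true) z := rfl
  rw [phi_far hQ hβ hY h v fun π _ => by
      linarith [hfar π, hQ.r_le' π, hQ.sep_le, r_pos (Q := Q) π],
    e1, e2, hsum, NQ_eq (hc _) (hs _) hw, NQ_eq (hc _) (hs _) (inv_ne_zero hw), inv_inv, i1, i2,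
    e3, norm_inv, Real.log_inv]
  ring

omit [Fintype V] in
theorem phi_compat (hQ : Q.Ok) (hβ : Q.Bump β Λ) (hY : Q.Reg Y ∞) (h : Q.IsFix β Y s ν ext) :
    Q.glue.Compat (Q.phi β Y) := by
  rintro (π | ⟨v, _ | _⟩) z hz
  · exact Match1_tube hQ hβ hY h π hz.1 hz.2
  · exact Match1_cap hQ hβ hY h v hz.1
  · have h1 : 1 / 2 < ‖z‖ := hz.1
    have h2 : ‖z‖ < 2 := hz.2
    have h3 : 1 / 2 < ‖z⁻¹‖ := by
      rw [norm_inv, lt_inv_comm₀ (by norm_num) (by linarith)]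
      linarith
    have h4 := Match1_cap hQ hβ hY h v h3
    rw [inv_inv] at h4
    exact h4.symm

end Plumb

end Pool.Agent.MP_4f0ed6_gt
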