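import Pool.Agent.MP_4f0ed6_gt.Off
import Pool.Agent.MP_4f0ed6_gt.EvPos
import Pool.Agent.MP_4f0ed6_gt.Even
import Pool.Agent.MP_4f0ed6_gt.PlOk
import Pool.Agent.MP_4f0ed6_gt.Part

open Set Laplacian Filter Topology MeasureTheory Metric InnerProductSpace
open scoped ContDiff

namespace Pool.Agent.MP_4f0ed6_gt

theorem mkSys_ev (C : ℝ) : ∀ᶠ η : ℝ in 𝓝[>] 0, C * η ≤ 1 := by
  have := ev_pow C (a := 1) (b := 0) (by norm_num)
  simpa using this

namespace Fx

variable {h nT nx : ℕ} {S : Fx h nT nx}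

theorem mkSys_aa_pos {η : ℝ} (h0 : 0 < η) : 0 < S.aa η := pow_pos h0 _

theorem mkSys_aa_le (hS : S.Ok) {η : ℝ} (h0 : 0 < η) (h1 : η ≤ 1) :
    S.aa η ≤ η ^ 4 ∧ S.aa η ≤ η ^ 2 ∧ S.aa η ≤ η ∧ S.aa η ≤ 1 := by
  have h10 := S.aa_le hS h0 h1
  refine ⟨h10.trans (pow_le_pow_of_le_one h0.le h1 (by norm_num)),
    h10.trans (pow_le_pow_of_le_one h0.le h1 (by norm_num)), ?_,
    h10.trans (pow_le_one₀ h0.le h1)⟩
  have : η ^ 10 ≤ η ^ 1 := pow_le_pow_of_le_one h0.le h1 (by norm_num)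
  simpa using h10.trans this

theorem Ok.hyp_ev (hS : S.Ok) : ∀ᶠ η : ℝ in 𝓝[>] 0,
    ∀ νt : Option (DD h × Bool) × Bool → ℂ → ℝ, (S.Q η).glue.CS ∞ νt →
      (∀ α, PB (νt α) (S.aa η ^ 4)) → ∀ p ∈ cube (DD h),
      (S.Q η).Hyp (S.β η) (S.μ η p) νt η⁻¹ (η ^ 2) (S.aa η ^ 4) (S.aa η) (S.aa η ^ 4)
        (S.aa η ^ 3) := by
  filter_upwards [hS.est, hS.r_ev, ev_small (c := 1) one_pos,
    mkSys_ev (13 * Fintype.card (Fin h × DD h) * S.A), mkSys_ev ((h : ℝ) + 1),
    mkSys_ev (4000 * ((Fintype.card (PP h nT nx) : ℝ) + 1) ^ 2)] with η hE hr hη hA hh hn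
  obtain ⟨h0, h1⟩ := hη
  intro νt hcs hpb p hp
  have E := hE p hp
  have hapos : 0 < S.aa η := mkSys_aa_pos h0
  obtain ⟨ha4, ha2, ha1, ha0⟩ := mkSys_aa_le hS h0 h1
  have hp4 : S.aa η ^ 4 ≤ S.aa η := by
    have : S.aa η ^ 4 ≤ S.aa η ^ 1 := pow_le_pow_of_le_one hapos.le ha0 (by norm_num)
    simpa using this
  have hinv : 0 < η⁻¹ := inv_pos.mpr h0
  refine ⟨E.ok, E.bump, hS.μ_smooth η p, E.μ_supp, fun v => (E.μ_pb v).mono ?_, hcs, hpb,
    hapos.le, fun π => ?_, by positivity, hr, ?_, ?_⟩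
  · rcases v with _ | v
    · have : η⁻¹ * S.mm η none = (13 * Fintype.card (Fin h × DD h) * S.A * η) * η ^ 2 := by
        simp only [mm]
        field_simp
      rw [this]
      calc _ ≤ 1 * η ^ 2 := mul_le_mul_of_nonneg_right hA (by positivity)
        _ = η ^ 2 := one_mul _
    · have e1 : η⁻¹ * S.mm η (some v) ≤ η⁻¹ * ((h + 1) * η ^ 4) := by
        simp only [mm]
        gcongr
      have e2 : η⁻¹ * (((h : ℝ) + 1) * η ^ 4) = ((h + 1) * η) * η ^ 2 := by
        field_simp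
      rw [e2] at e1
      calc _ ≤ _ := e1
        _ ≤ 1 * η ^ 2 := mul_le_mul_of_nonneg_right hh (by positivity)
        _ = η ^ 2 := one_mul _
  · have hc := S.cond_pos h0 π
    have hc' := S.cond_le h0 h1 hS π
    change 1 ≤ S.aa η * (S.cond η π)⁻¹
    rw [← div_eq_mul_inv, le_div_iff₀ hc]
    simpa using hc'
  · rw [n_eq]
    have e1 : η⁻¹ * S.aa η ≤ η := by
      calc η⁻¹ * S.aa η ≤ η⁻¹ * η ^ 2 := by gcongr
        _ = η := by field_simp
    have e2 : η⁻¹ * (η ^ 2 + S.aa η ^ 4) ≤ 2 * η := by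
      calc η⁻¹ * (η ^ 2 + S.aa η ^ 4) ≤ η⁻¹ * (η ^ 2 + η ^ 2) := by
            gcongr
            exact hp4.trans ha2
        _ = 2 * η := by field_simp; ring
    have e3 : η⁻¹ * (η ^ 2 + S.aa η ^ 4) + η⁻¹ * S.aa η + S.aa η ^ 4 ≤ 4 * η := by
      linarith
    calc _ ≤ 1000 * ((Fintype.card (PP h nT nx) : ℝ) + 1) ^ 2 * (4 * η) := by gcongr
      _ = 4000 * ((Fintype.card (PP h nT nx) : ℝ) + 1) ^ 2 * η := by ring
      _ ≤ 1 := hn
  · rw [n_eq]
    have e1 : 600 * ((Fintype.card (PP h nT nx) : ℝ) + 1) ^ 2 * S.aa η ≤ 1 := by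
      calc _ ≤ 4000 * ((Fintype.card (PP h nT nx) : ℝ) + 1) ^ 2 * η := by
            gcongr
            norm_num
        _ ≤ 1 := hn
    calc _ = (600 * ((Fintype.card (PP h nT nx) : ℝ) + 1) ^ 2 * S.aa η) * S.aa η ^ 3 := by ring
      _ ≤ 1 * S.aa η ^ 3 := mul_le_mul_of_nonneg_right e1 (by positivity)
      _ = _ := one_mul _

theorem Ok.exists_sys (hS : S.Ok) : ∃ (η : ℝ) (T : Sys (DD h) (PP h nT nx)),
    T.Q = S.Q η ∧ T.M0 = fun d d' => S.am η * S.M1 d d' := by
  classical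
  obtain ⟨η, hH, hQ, hdiag, hoff, heven, hpos, hnn, ⟨h0, h1⟩, hc⟩ :=
    (hS.hyp_ev.and (hS.Q_ok.and (hS.diag.and (hS.off.and (hS.even.and (hS.pos.and
      (hS.μ_nonneg.and ((ev_small (c := 1) one_pos).and
      (mkSys_ev (16 * Fintype.card (Option (DD h × Bool)) *
        (16 * ((Fintype.card (PP h nT nx) : ℝ) + 1)) ^ 2)))))))))).exists
  have hapos : 0 < S.aa η := mkSys_aa_pos h0
  obtain ⟨ha4, ha2, ha1, ha0⟩ := mkSys_aa_le hS h0 h1
  have hsym := S.sym hS η
  obtain ⟨ξ, hξcs, hξ01, hξsym, hξpos⟩ := Glue.exists_tiny hQ.glue hsym.glue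
  obtain ⟨Cl, hCl⟩ := hS.μ_lip h0
  have hc0 : 0 < S.aa η ^ 4 / 1000 := by positivity
  have hcs : (S.Q η).glue.CS ∞ fun α z => S.aa η ^ 4 / 1000 * ξ α z :=
    hξcs.const_mul fun _ => S.aa η ^ 4 / 1000
  have hpb : ∀ α, PB (fun z => S.aa η ^ 4 / 1000 * ξ α z) (S.aa η ^ 4) := by
    intro α
    have := PB.of_bdd (g := fun z => S.aa η ^ 4 / 1000 * ξ α z) (τ := S.aa η ^ 4 / 1000)
      (hcs α).1.continuous (Plumb.cs_supp hcs α) (fun u => by
        rw [abs_of_nonneg (mul_nonneg hc0.le (hξ01 α u).1)]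
        exact mul_le_of_le_one_right hc0.le (hξ01 α u).2)
    refine this.mono (le_of_eq ?_)
    ring
  have ham : 0 < S.am η := pow_pos h0 _
  have had : 0 < S.ad η := pow_pos h0 _
  refine ⟨η,
    { Q := S.Q η
      β := S.β η
      μ := S.μ η
      νt := fun α z => S.aa η ^ 4 / 1000 * ξ α z
      ιP := S.ιP
      Λ := η⁻¹
      δ := η ^ 2
      τ := S.aa η ^ 4
      a := S.aa η
      om := S.aa η ^ 4
      κ := S.aa η ^ 3
      c0 := S.aa η / 4
      Cl := Cl
      M0 := fun d d' => S.am η * S.M1 d d'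
      tau := fun d d' => if d = d' then S.ad η else
        if hj : ∃ j, Ori j d d' then η ^ 4 * S.aj η hj.choose ^ 2 else 1
      J := fun d d' => d = d' ∨ ∃ j, Ori j d d'
      hyp := hH _ hcs hpb
      sym := hsym
      β_sym := hS.β_sym η
      μ_sym := fun p _ => hS.μ_sym η p
      νt_sym := fun α w => congrArg (fun x => S.aa η ^ 4 / 1000 * x) (hξsym α w)
      μ_nonneg := hnn
      νt_pos := fun α z hz => by
        rw [Glue.gd_const_mul]
        exact mul_pos hc0 (hξpos α z hz)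
      lip := fun p _ p' _ v => hCl p p' v
      M0_symm := fun d d' => by rw [S.M1_symm hS d d']
      M0_psd := fun f => by
        have := mul_nonneg ham.le (S.M1_psd hS f)
        rw [Finset.mul_sum] at this
        refine this.trans (le_of_eq (Finset.sum_congr rfl fun d _ => ?_))
        rw [Finset.mul_sum]
        exact Finset.sum_congr rfl fun d' _ => by ring
      J_total := fun d d' => by
        by_cases hd : d = d'
        · exact Or.inl (Or.inl hd)
        · obtain ⟨j, hj | hj⟩ := ori_total hd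
          · exact Or.inl (Or.inr ⟨j, hj⟩)
          · exact Or.inr (Or.inr ⟨j, hj⟩)
      tau_pos := fun d d' => by
        split_ifs with h2 h3
        · exact had
        · have := S.aj_pos h0 h3.choose
          positivity
        · exact one_pos
      expn := fun p hp d d' hJ ρ => by
        by_cases hd : d = d'
        · subst hd
          rw [if_pos rfl]
          exact hdiag p hp d ρ
        · have hj : ∃ j, Ori j d d' := hJ.resolve_left hd
          rw [if_neg hd, dif_pos hj]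
          exact hoff p hp _ d d' hj.choose_spec ρ
      even := heven
      pos := hpos
      c0_gt := by
        rw [n_eq]
        have e1 : S.aa η ^ 3 ≤ η := by
          have : S.aa η ^ 3 ≤ S.aa η ^ 1 := pow_le_pow_of_le_one hapos.le ha0 (by norm_num)
          rw [pow_one] at this
          exact this.trans ha1
        have e2 : 16 * Fintype.card (Option (DD h × Bool)) *
            (16 * ((Fintype.card (PP h nT nx) : ℝ) + 1)) ^ 2 * S.aa η ^ 3 ≤ 1 :=
          le_trans (by gcongr) hc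
        calc _ = (16 * Fintype.card (Option (DD h × Bool)) *
            (16 * ((Fintype.card (PP h nT nx) : ℝ) + 1)) ^ 2 * S.aa η ^ 3) * (S.aa η / 8) := by
              ring
          _ ≤ 1 * (S.aa η / 8) := mul_le_mul_of_nonneg_right e2 (by positivity)
          _ < S.aa η / 4 := by linarith }, rfl, rfl⟩

end Fx

end Pool.Agent.MP_4f0ed6_gt
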