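import Pool.Agent.MP_4f0ed6_gt.PlGeo
import Pool.Agent.MP_4f0ed6_gt.PotB

open Set Laplacian Filter Topology MeasureTheory Metric InnerProductSpace
open scoped ContDiff

namespace Pool.Agent.MP_4f0ed6_gt

theorem OddR_even {β : ℂ → ℝ} (hβ : ∀ w, β (-w) = β w) (w : ℂ) : ∫ z, kk w z * β z = 0 := by
  have h1 := integral_neg_eq_self (fun z => kk w z * β z) volume
  simp only [kk_neg, hβ, neg_mul, integral_neg] at h1
  linarith

theorem OddR_odd {μ φ : ℂ → ℝ} (hμ : ∀ w, μ (-w) = μ w) (hm : Continuous μ)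
    (hc : HasCompactSupport μ) (hφ : Continuous φ) (w : ℂ) :
    ∫ z, kk w z * (μ z * ((φ z - φ (-z)) / 2)) = ∫ z, kk w z * (μ z * φ z) := by
  have h1 := integral_neg_eq_self (fun z => kk w z * (μ z * φ z)) volume
  simp only [kk_neg, hμ, neg_mul, integral_neg] at h1
  have hφ' : Continuous fun z => φ (-z) := hφ.comp continuous_neg
  have i1 : Integrable fun z => kk w z * (μ z * φ z) :=
    integrable_kk (g := fun z => μ z * φ z) (hm.mul hφ) hc.mul_right w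
  have i2 : Integrable fun z => kk w z * (μ z * φ (-z)) :=
    integrable_kk (g := fun z => μ z * φ (-z)) (hm.mul hφ') hc.mul_right w
  have e : (fun z => kk w z * (μ z * ((φ z - φ (-z)) / 2))) =
      fun z => 1 / 2 * (kk w z * (μ z * φ z)) - 1 / 2 * (kk w z * (μ z * φ (-z))) := by
    funext z; ring
  rw [e, integral_sub (i1.const_mul _) (i2.const_mul _), integral_const_mul, integral_const_mul]
  linarith

theorem OddR_np {β μ φ : ℂ → ℝ} (hβ : ∀ w, β (-w) = β w) (hμ : ∀ w, μ (-w) = μ w)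
    (hb : Continuous β) (hbc : HasCompactSupport β) (hm : Continuous μ)
    (hc : HasCompactSupport μ) (hφ : Continuous φ) (s t : ℝ) (w : ℂ) :
    NP (fun z => -s * μ z * φ z + t * β z) w - NP (fun z => -s * μ z * φ z + t * β z) (-w) =
      -s * ∫ z, kk w z * (μ z * ((φ z - φ (-z)) / 2)) := by
  have i1 : Integrable fun z => kk w z * (μ z * φ z) :=
    integrable_kk (g := fun z => μ z * φ z) (hm.mul hφ) hc.mul_right w
  have i2 : Integrable fun z => kk w z * β z := integrable_kk hb hbc w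
  have c1 : Continuous fun z => -s * μ z * φ z + t * β z := by fun_prop
  have h1 : HasCompactSupport fun z => -s * μ z * φ z :=
    HasCompactSupport.mul_right (f := fun z => -s * μ z) (f' := φ)
      (HasCompactSupport.mul_left (f := fun _ => -s) (f' := μ) hc)
  have h2 : HasCompactSupport fun z => t * β z :=
    HasCompactSupport.mul_left (f := fun _ => t) (f' := β) hbc
  have h3 : HasCompactSupport fun z => -s * μ z * φ z + t * β z := h1.add h2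
  rw [← integral_kk c1 h3, OddR_odd hμ hm hc hφ]
  have e : (fun z => kk w z * (-s * μ z * φ z + t * β z)) =
      fun z => -s * (kk w z * (μ z * φ z)) + t * (kk w z * β z) := by
    funext z; ring
  rw [e, integral_add (i1.const_mul _) (i2.const_mul _), integral_const_mul, integral_const_mul,
    OddR_even hβ]
  ring

theorem OddR_sum {P : Type} (S : Finset P) (b : P → ℝ) (c : P → ℂ) (w : ℂ) :
    ∑ π ∈ S, b π * kk w (c π) =
      ∑ π ∈ S, b π * Real.log ‖w - c π‖ - ∑ π ∈ S, b π * Real.log ‖-w - c π‖ := by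
  rw [← Finset.sum_sub_distrib]
  refine Finset.sum_congr rfl fun π _ => ?_
  rw [kk, ← norm_neg (-w - c π), neg_sub, sub_neg_eq_add, add_comm (c π) w]
  ring

theorem OddR_log {σ Λ x : ℝ} (hσ : 0 < σ) (hΛ : |Real.log σ| ≤ Λ) (hx : x = 0 ∨ σ ≤ x)
    (hx1 : x ≤ 1) : |Real.log x| ≤ Λ := by
  rcases hx with rfl | hx
  · simpa using (abs_nonneg _).trans hΛ
  · have h1 := Real.log_le_log hσ hx
    have h2 := Real.log_nonpos (hσ.le.trans hx) hx1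
    have h3 := neg_abs_le (Real.log σ)
    rw [abs_of_nonpos h2]
    linarith

theorem OddR_kk {σ Λ : ℝ} {w c : ℂ} (hσ : 0 < σ) (hΛ : |Real.log σ| ≤ Λ) (hw : ‖w‖ ≤ 1 / 4)
    (hc : ‖c‖ ≤ 1 / 4) (h1 : ‖w - c‖ = 0 ∨ σ ≤ ‖w - c‖) (h2 : ‖-w - c‖ = 0 ∨ σ ≤ ‖-w - c‖) :
    |kk w c| ≤ 2 * Λ := by
  have e : ‖-w - c‖ = ‖w + c‖ := by
    rw [← norm_neg (-w - c), neg_sub, sub_neg_eq_add, add_comm]
  rw [e] at h2
  have a1 := OddR_log hσ hΛ h1 (by linarith [norm_sub_le w c])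
  have a2 := OddR_log hσ hΛ h2 (by linarith [norm_add_le w c])
  have a3 := abs_sub (Real.log ‖w - c‖) (Real.log ‖w + c‖)
  rw [kk]
  linarith

namespace Plumb

variable {V P : Type} [Fintype P] {Q : Plumb V P} {β μ : V → ℂ → ℝ} {Λ s κ N : ℝ} {m u : V → ℝ}

theorem Rep.odd_rep (hE : Q.Est β μ Λ m) (ρ : Q.Rep β μ s κ N u) {v : V}
    (hβ : ∀ w, β v (-w) = β v w) (hμ : ∀ w, μ v (-w) = μ v w) {w : ℂ} (hw : w ∈ Q.bulk v)
    (hw' : -w ∈ Q.bulk v) :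
    |(ρ.φ v w - ρ.φ v (-w)) / 2 - (1 / 2 * ∑ π ∈ Q.pts v, ρ.b π * kk w (Q.c π) -
      s / 2 * ∫ z, kk w z * (μ v z * ((ρ.φ v z - ρ.φ v (-z)) / 2)))| ≤ κ * N := by
  have h1 := abs_le.mp (ρ.rep v w hw)
  have h2 := abs_le.mp (ρ.rep v (-w) hw')
  have h3 := OddR_np hβ hμ (hE.bump.pb v).cont (hE.bump.pb v).hcs (hE.μ_pb v).cont
    (hE.μ_pb v).hcs (ρ.cont v) s (ρ.t v) w
  rw [OddR_sum, abs_le]
  constructor <;> linarith [h1.1, h1.2, h2.1, h2.2]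

theorem Rep.odd_repR (hE : Q.Est β μ Λ m) (ρ : Q.Rep β μ s κ N u) {v : V}
    (hβ : ∀ w, β v (-w) = β v w) (hμ : ∀ w, μ v (-w) = μ v w) {π₁ π₂ : P} (h1 : Q.pc π₁ = v)
    (h2 : Q.pc π₂ = v) (hc : Q.c π₂ = -Q.c π₁) :
    |(ρ.R π₁ - ρ.R π₂) / 2 - (1 / 2 * ∑ π ∈ Q.pts v, ρ.b π * kk (Q.c π₁) (Q.c π) -
      s / 2 * ∫ z, kk (Q.c π₁) z * (μ v z * ((ρ.φ v z - ρ.φ v (-z)) / 2)))| ≤ κ * N := by
  have k1 := abs_le.mp (ρ.repR π₁)
  have k2 := abs_le.mp (ρ.repR π₂)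
  rw [h1] at k1
  rw [h2, hc] at k2
  have h3 := OddR_np hβ hμ (hE.bump.pb v).cont (hE.bump.pb v).hcs (hE.μ_pb v).cont
    (hE.μ_pb v).hcs (ρ.cont v) s (ρ.t v) (Q.c π₁)
  rw [OddR_sum, abs_le]
  constructor <;> linarith [k1.1, k1.2, k2.1, k2.2]

theorem Bump.kk_core (hQ : Q.Ok) (hβ : Q.Bump β Λ) {v : V} {w : ℂ} (hw : w ∈ Q.core v)
    (hw' : -w ∈ Q.core v) {π : P} (hπ : Q.pc π = v) : |kk w (Q.c π)| ≤ 2 * Λ := by
  exact OddR_kk hQ.sep_pos hβ.log_le hw.1 (hQ.c_le π) (Or.inr (hw.2 π hπ)) (Or.inr (hw'.2 π hπ))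

theorem Bump.kk_port (hQ : Q.Ok) (hβ : Q.Bump β Λ) {π π₁ π₂ : P} (h1 : Q.pc π₁ = Q.pc π)
    (h2 : Q.pc π₂ = Q.pc π) (hc : Q.c π₂ = -Q.c π₁) : |kk (Q.c π₁) (Q.c π)| ≤ 2 * Λ := by
  refine OddR_kk hQ.sep_pos hβ.log_le (hQ.c_le π₁) (hQ.c_le π) ?_ ?_
  · by_cases h : π₁ = π
    · left; simp [h]
    · exact Or.inr (hQ.c_sep _ _ h h1)
  · rw [← hc]
    by_cases h : π₂ = π
    · left; simp [h]
    · exact Or.inr (hQ.c_sep _ _ h h2)

end Plumb

end Pool.Agent.MP_4f0ed6_gt
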