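import Pool.Agent.MP_4f0ed6_gt.RY

open Set Laplacian Filter Topology MeasureTheory Metric InnerProductSpace
open scoped ContDiff

namespace Pool.Agent.MP_4f0ed6_gt

theorem Off_log {g : ℝ} (hg : 0 < g) {a : ℝ} (h1 : g ≤ a) (h2 : a ≤ 4) :
    Real.log g ≤ Real.log a ∧ Real.log a ≤ 3 :=
  ⟨Real.log_le_log hg h1, by linarith [Real.log_le_sub_one_of_pos (hg.trans_le h1)]⟩

theorem Off_kk {h nT nx : ℕ} {S : Fx h nT nx} (hS : S.Ok) (j : Fin h) {d d' : DD h}
    (hne : d ≠ d') : |kk (S.yy j d) (S.yy j d')| ≤ 3 - Real.log S.g0 := by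
  have a := (hS.yy_ax j d).2.1
  have b := (hS.yy_ax j d').2.1
  obtain ⟨c1, c2⟩ := hS.yy_ne j hne
  have e1 := Off_log hS.g0_pos c1 ((norm_sub_le _ _).trans (by linarith))
  have e2 := Off_log hS.g0_pos c2 ((norm_add_le _ _).trans (by linarith))
  unfold kk
  rw [abs_le]
  constructor <;> linarith [e1.1, e1.2, e2.1, e2.2]

/-- the estimate of one term away from the separating level -/
theorem Off_term {r k I α a1 aa η K A C E w : ℝ} (h0 : 0 < η) (h1 : η ≤ 1) (hα : 0 ≤ α)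
    (ha : 0 ≤ a1) (haa : a1 ≤ aa) (hC : 0 ≤ C) (hw : 0 ≤ w) (hk : |k| ≤ K) (hI : |I| ≤ 52 * A)
    (hE1 : a1 * α ≤ E) (hE2 : w * aa ^ 2 ≤ E)
    (h : |r + α * k - η ^ 4 / 2 * α * I| ≤ C * (η ^ 7 * α + w * aa)) :
    |a1 * r| ≤ (K + 26 * A + 2 * C) * E := by
  have p4 : η ^ 4 ≤ 1 := pow_le_one₀ h0.le h1
  have p7 : η ^ 7 ≤ 1 := pow_le_one₀ h0.le h1
  have hK : 0 ≤ K := (abs_nonneg _).trans hk
  have hA : 0 ≤ A := by linarith [abs_nonneg I]
  have b1 : |α * k| ≤ α * K := by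
    rw [abs_mul, abs_of_nonneg hα]
    exact mul_le_mul_of_nonneg_left hk hα
  have b2 : |η ^ 4 / 2 * α * I| ≤ α * (26 * A) := by
    rw [abs_mul, abs_of_nonneg (by positivity : 0 ≤ η ^ 4 / 2 * α)]
    calc η ^ 4 / 2 * α * |I| ≤ 1 / 2 * α * (52 * A) := by gcongr
      _ = α * (26 * A) := by ring
  have b3 : C * (η ^ 7 * α + w * aa) ≤ C * (α + w * aa) := by
    have : η ^ 7 * α ≤ 1 * α := mul_le_mul_of_nonneg_right p7 hα
    exact mul_le_mul_of_nonneg_left (by linarith) hC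
  have b4 : |r| ≤ α * (K + 26 * A + C) + C * (w * aa) := by
    have := abs_le.1 h
    have := abs_le.1 b1
    have := abs_le.1 b2
    rw [abs_le]
    constructor <;> nlinarith
  have haa0 : 0 ≤ aa := ha.trans haa
  have b5 : a1 * (w * aa) ≤ E :=
    calc a1 * (w * aa) ≤ aa * (w * aa) := by gcongr
      _ = w * aa ^ 2 := by ring
      _ ≤ E := hE2
  rw [abs_mul, abs_of_nonneg ha]
  calc a1 * |r| ≤ a1 * (α * (K + 26 * A + C) + C * (w * aa)) := by gcongr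
    _ = (K + 26 * A + C) * (a1 * α) + C * (a1 * (w * aa)) := by ring
    _ ≤ (K + 26 * A + C) * E + C * E := by gcongr
    _ = _ := by ring

/-- the estimate of the term at the separating level -/
theorem Off_main {r q a aa η C w : ℝ} (h0 : 0 < η) (h1 : η ≤ 1) (ha : 0 ≤ a) (haa : a ≤ aa)
    (hC : 0 ≤ C) (hw : 0 ≤ w) (hE : w * aa ^ 2 ≤ η ^ 6 * a ^ 2)
    (h : |r + a * 0 - η ^ 4 / 2 * a * (2 * q)| ≤ C * (η ^ 7 * a + w * aa)) :
    |a * r - η ^ 4 * a ^ 2 * q| ≤ 2 * C * (η ^ 6 * a ^ 2) := by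
  have haa0 : 0 ≤ aa := ha.trans haa
  have p7 : η ^ 7 ≤ η ^ 6 := pow_le_pow_of_le_one h0.le h1 (by norm_num)
  rw [show a * r - η ^ 4 * a ^ 2 * q = a * (r + a * 0 - η ^ 4 / 2 * a * (2 * q)) by ring,
    abs_mul, abs_of_nonneg ha]
  calc a * |r + a * 0 - η ^ 4 / 2 * a * (2 * q)| ≤ a * (C * (η ^ 7 * a + w * aa)) := by gcongr
    _ = C * (η ^ 7 * a ^ 2) + C * (a * (w * aa)) := by ring
    _ ≤ C * (η ^ 6 * a ^ 2) + C * (aa * (w * aa)) := by gcongr
    _ = C * (η ^ 6 * a ^ 2) + C * (w * aa ^ 2) := by ring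
    _ ≤ C * (η ^ 6 * a ^ 2) + C * (η ^ 6 * a ^ 2) := by gcongr
    _ = _ := by ring

theorem Fx.Ok.off {h nT nx : ℕ} {S : Fx h nT nx} (hS : S.Ok) :
    ∀ᶠ η : ℝ in 𝓝[>] 0, ∀ p ∈ cube (DD h), ∀ j d d', Ori j d d' →
    ∀ ρ : S.Rp η p 1 1 (ed d'), |(ρ.t (some (d, true)) - ρ.t (some (d, false))) / 2 +
      S.am η * S.M1 d d' - η ^ 4 * S.aj η j ^ 2 * p (d, d')| ≤ η ^ 4 * S.aj η j ^ 2 := by
  classical
  obtain ⟨C, hC, hry⟩ := hS.ry
  obtain ⟨C2, hC2, hsec⟩ := hS.second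
  set K : ℝ := 3 - Real.log S.g0 with hKdef
  have hK : 0 ≤ K := by linarith [Real.log_nonpos hS.g0_pos.le hS.g0_le]
  have hA : 0 ≤ S.A := by linarith [hS.ctl.one_le]
  set B : ℝ := K + 26 * S.A + 2 * C with hB
  filter_upwards [hry, hsec, ev_small one_pos, ev_pow (C2 + h * B) (show 4 < 6 by norm_num)]
    with η hry hsec hη hpow p hp j d d' ho ρ
  obtain ⟨h0, h1⟩ := hη
  have hne : d ≠ d' := by
    rintro rfl
    exact absurd (ho.2.1.symm.trans ho.2.2) (by simp)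
  have hw : 0 ≤ η ^ (6 * h) := by positivity
  have hE := S.aj_ge h0 h1 j
  have haj := fun j => (S.aj_pos h0 j).le
  set E : ℝ := η ^ 6 * S.aj η j ^ 2 with hEdef
  have hE0 : 0 ≤ E := by positivity
  set r : Fin h → ℝ := fun j1 =>
    (ρ.R (.inl ((d, true), j1, true)) - ρ.R (.inl ((d, false), j1, true))) / 2 with hr
  have hterm : ∀ j1, |S.aj η j1 * r j1 -
      if j1 = j then η ^ 4 * S.aj η j ^ 2 * p (d, d') else 0| ≤ B * E := by
    intro j1
    have hI := int_kk_le (hS.yy_ax j1 d) (hS.yy_ax j1 d') (hS.ctl.supp p) (A := S.A) fun u => by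
      rw [abs_of_nonneg (hS.ctl.nonneg p hp u)]
      exact hS.ctl.le p hp u
    have hk := Off_kk hS j1 hne
    rcases lt_trichotomy j1 j with hj | rfl | hj
    · rw [if_neg hj.ne, sub_zero]
      have hl := S.aj_lt h0 h1 hj
      have hsq : S.aj η j1 * S.aj η j1 ≤ E :=
        calc S.aj η j1 * S.aj η j1 ≤ (η ^ 3 * S.aj η j) * (η ^ 3 * S.aj η j) :=
              mul_self_le_mul_self (haj j1) hl
          _ = E := by rw [hEdef]; ring
      refine Off_term h0 h1 ?_ (haj j1) (S.aj_le h0 h1 j1) hC hw hk hI ?_ hE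
        (hry p hp d d' hne ρ j1 _ rfl)
      · split_ifs
        · exact haj j1
        · exact le_rfl
      · split_ifs
        · exact hsq
        · simpa using hE0
    · rw [if_pos rfl]
      have h2 := hry p hp d d' hne ρ j1 (S.aj η j1) (by rw [if_pos ho.1.symm])
      have y1 : S.yy j1 d = (S.x d : ℂ) := by simp [Fx.yy, ho.2.1]
      have y2 : S.yy j1 d' = (S.x d' : ℂ) * Complex.I := by simp [Fx.yy, ho.2.2]
      rw [y1, y2, kk_perp, hS.ctl.dual] at h2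
      refine (Off_main h0 h1 (haj j1) (S.aj_le h0 h1 j1) hC hw hE h2).trans ?_
      exact mul_le_mul_of_nonneg_right (by linarith) hE0
    · rw [if_neg hj.ne', sub_zero]
      exact Off_term h0 h1 le_rfl (haj j1) (S.aj_le h0 h1 j1) hC hw hk hI (by simpa using hE0) hE
        (hry p hp d d' hne ρ j1 0 (by rw [if_neg (ho.pre_ne hj)]))
  have hsum : |∑ j1, S.aj η j1 * r j1 - η ^ 4 * S.aj η j ^ 2 * p (d, d')| ≤ h * (B * E) := by
    have e : ∑ j1, S.aj η j1 * r j1 - η ^ 4 * S.aj η j ^ 2 * p (d, d') = ∑ j1, (S.aj η j1 * r j1 -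
        if j1 = j then η ^ 4 * S.aj η j ^ 2 * p (d, d') else 0) := by
      rw [Finset.sum_sub_distrib, Finset.sum_ite_eq']
      simp
    rw [e]
    refine (Finset.abs_sum_le_sum_abs _ _).trans ((Finset.sum_le_sum fun j1 _ => hterm j1).trans ?_)
    simp
  have s1 := hsec p hp d' ρ (d, true) hne
  have s2 := hsec p hp d' ρ (d, false) hne
  have hl : Lap S.Pm (fun v => ed d' (some v)) (d, false) =
      -Lap S.Pm (fun v => ed d' (some v)) (d, true) :=
    Lap_flp hS.graph.comm (fun v => ed_iV d' (some v)) (d, true)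
  have hM : S.M1 d d' = Lap S.Pm (fun v => ed d' (some v)) (d, true) := by
    simp [Fx.M1, hne]
  have hs : ∑ j1, S.aj η j1 * r j1 = (∑ j1, S.aj η j1 * ρ.R (.inl ((d, true), j1, true)) -
      ∑ j1, S.aj η j1 * ρ.R (.inl ((d, false), j1, true))) / 2 := by
    rw [← Finset.sum_sub_distrib, Finset.sum_div]
    exact Finset.sum_congr rfl fun j1 _ => by simp only [hr]; ring
  have hC2E : C2 * (η ^ (6 * h) * S.aa η ^ 2) ≤ C2 * E := mul_le_mul_of_nonneg_left hE hC2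
  have hfin : C2 * E + h * (B * E) ≤ η ^ 4 * S.aj η j ^ 2 :=
    calc C2 * E + h * (B * E) = (C2 + h * B) * η ^ 6 * S.aj η j ^ 2 := by rw [hEdef]; ring
      _ ≤ _ := mul_le_mul_of_nonneg_right hpow (sq_nonneg _)
  rw [hl] at s2
  rw [hs] at hsum
  rw [hM]
  have := abs_le.1 hsum
  rw [abs_le]
  constructor <;> linarith [this.1, this.2, (abs_le.1 s1).1, (abs_le.1 s1).2, (abs_le.1 s2).1,
    (abs_le.1 s2).2]

end Pool.Agent.MP_4f0ed6_gt
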