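import Pool.Agent.MP_4f0ed6_gt.GDefs

open Set Laplacian Filter Topology MeasureTheory Metric
open scoped ContDiff

namespace Pool.Agent.MP_4f0ed6_gt

/-- logarithmic potential -/
noncomputable def NP (g : ℂ → ℝ) (w : ℂ) : ℝ := ∫ u, Real.log ‖w - u‖ * g u

/-- logarithmic potential of a source living in the chart at infinity -/
noncomputable def NQ (g : ℂ → ℝ) (w : ℂ) : ℝ := ∫ u, Real.log ‖1 - u * w‖ * g u

/-- Poisson integral -/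
noncomputable def PI (R : ℝ) (h : ℂ → ℝ) (y : ℂ) : ℝ :=
  Real.circleAverage ((Complex.re ∘ herglotzRieszKernel 0 y) • h) 0 R

/-- the odd kernel -/
noncomputable def kk (w c : ℂ) : ℝ := Real.log ‖w - c‖ - Real.log ‖w + c‖

/-- rescaled density -/
noncomputable def scl (ρ : ℝ) (g : ℂ → ℝ) (u : ℂ) : ℝ := (ρ ^ 2)⁻¹ * g (u / ρ)

/-- `g` is continuous, lives in the disc of radius 2, and its potentials are bounded by `Λ` -/
structure PB (g : ℂ → ℝ) (Λ : ℝ) : Prop where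
  cont : Continuous g
  supp : ∀ u, g u ≠ 0 → ‖u‖ < 2
  mass : ∫ u, |g u| ≤ Λ
  np : ∀ w : ℂ, ‖w‖ ≤ 2 → ∫ u, |Real.log ‖w - u‖| * |g u| ≤ Λ
  nq : ∀ w : ℂ, ‖w‖ ≤ 2 → ∫ u, |Real.log ‖1 - u * w‖| * |g u| ≤ Λ

/-- spheres `v : V` with ports `π : P` at `c π` on the sphere `pc π`; the ports `π` and `σ π`
are joined by a tube of length `L π` -/
structure Plumb (V P : Type) where
  pc : P → V
  σ : P → P
  c : P → ℂ
  L : P → ℝ
  sep : ℝ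

/-- input of the field formulas -/
structure Inp (V P : Type) where
  u : V → ℝ
  b : P → ℝ
  h : P → ℂ → ℝ
  g : V × Bool → ℂ → ℝ

/-- difference of inputs -/
def Inp.sub {V P : Type} (Y Z : Inp V P) : Inp V P where
  u v := Y.u v - Z.u v
  b π := Y.b π - Z.b π
  h π x := Y.h π x - Z.h π x
  g α z := Y.g α z - Z.g α z

/-- a family on the spheres, placed in the finite charts -/
def fin {V : Type} (f : V → ℂ → ℝ) : V × Bool → ℂ → ℝ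
  | (v, false) => f v
  | (_, true) => fun _ => 0

/-- the source `-s ν φ + t β` -/
def src {V : Type} (s : ℝ) (ν : V × Bool → ℂ → ℝ) (β : V → ℂ → ℝ) (t : V → ℝ)
    (φ : V × Bool → ℂ → ℝ) : V × Bool → ℂ → ℝ :=
  fun α z => -s * ν α z * φ α z + t α.1 * fin β α z

/-- total mass density: main part `μ` and tiny part `νt` -/
def tot {V : Type} (μ : V → ℂ → ℝ) (νt : V × Bool → ℂ → ℝ) : V × Bool → ℂ → ℝ :=
  fun α z => fin μ α z + νt α z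

/-- average of `φ` on the sphere `v` -/
noncomputable def av {V : Type} (β : V → ℂ → ℝ) (φ : V × Bool → ℂ → ℝ) (v : V) : ℝ :=
  ∫ w, β v w * φ (v, false) w

namespace Plumb

variable {V P : Type} (Q : Plumb V P)

/-- radius of the neck -/
noncomputable def r (π : P) : ℝ := Real.exp (-Q.L π / 2)

/-- gluing constant -/
noncomputable def ε (π : P) : ℂ := ((Q.r π ^ 2 : ℝ) : ℂ)

def core (v : V) : Set ℂ := {w | ‖w‖ ≤ 1 / 4 ∧ ∀ π, Q.pc π = v → Q.sep ≤ ‖w - Q.c π‖}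

def bulk (v : V) : Set ℂ := {w | ‖w‖ ≤ 1 / 2 ∧ ∀ π, Q.pc π = v → Q.sep / 2 ≤ ‖w - Q.c π‖}

def W : V × Bool → Set ℂ
  | (v, false) => {w | ‖w‖ < 2 ∧ ∀ π, Q.pc π = v → Q.r π / 2 < ‖w - Q.c π‖}
  | (_, true) => {w | ‖w‖ < 2}

def Cp : V × Bool → Set ℂ
  | (v, false) => {w | ‖w‖ ≤ 1 ∧ ∀ π, Q.pc π = v → Q.r π ≤ ‖w - Q.c π‖}
  | (_, true) => {w | ‖w‖ ≤ 1}

/-- the charts: `(v, false)` is the finite chart, `(v, true)` the chart at infinity -/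
noncomputable def glue : Glue (V × Bool) (P ⊕ V × Bool) where
  W := Q.W
  Cp := Q.Cp
  ch := Sum.elim (fun π => (Q.pc π, false)) id
  σ := Sum.map Q.σ fun α => (α.1, !α.2)
  O := Sum.elim (fun π => {w | Q.r π / 2 < ‖w - Q.c π‖ ∧ ‖w - Q.c π‖ < 2 * Q.r π})
    fun _ => {w | 1 / 2 < ‖w‖ ∧ ‖w‖ < 2}
  τ := Sum.elim (fun π w => Q.c (Q.σ π) + Q.ε π / (w - Q.c π)) fun _ w => w⁻¹

/-- residue of a form at a port -/
noncomputable def res (f : V × Bool → ℂ → ℂ) (π : P) : ℂ :=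
  (2 * Real.pi * Complex.I)⁻¹ * ∮ z in C(Q.c π, Q.r π), f (Q.pc π, false) z

/-- a symmetry acting by `w ↦ -w` on the spheres -/
structure Sym (ι : V → V) (ιP : P → P) : Prop where
  ιι : ∀ v, ι (ι v) = v
  ιPιP : ∀ π, ιP (ιP π) = π
  pc_ι : ∀ π, Q.pc (ιP π) = ι (Q.pc π)
  σ_ι : ∀ π, Q.σ (ιP π) = ιP (Q.σ π)
  c_ι : ∀ π, Q.c (ιP π) = -Q.c π
  L_ι : ∀ π, Q.L (ιP π) = Q.L π

variable [Fintype P]

/-- number of ports plus one -/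
def n (_ : Plumb V P) : ℝ := Fintype.card P + 1

open Classical in
/-- the ports on the sphere `v` -/
noncomputable def pts (v : V) : Finset P := Finset.univ.filter fun π => Q.pc π = v

structure Ok : Prop where
  σσ : ∀ π, Q.σ (Q.σ π) = π
  pc_ne : ∀ π, Q.pc (Q.σ π) ≠ Q.pc π
  L_σ : ∀ π, Q.L (Q.σ π) = Q.L π
  L_pos : ∀ π, 0 < Q.L π
  c_le : ∀ π, ‖Q.c π‖ ≤ 1 / 4
  sep_pos : 0 < Q.sep
  sep_le : Q.sep ≤ 1 / 4
  c_sep : ∀ π π', π ≠ π' → Q.pc π = Q.pc π' → Q.sep ≤ ‖Q.c π - Q.c π'‖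
  r_le : ∀ π, 16 * Q.n * Q.r π ≤ Q.sep
  ne : Nonempty V
  conn : ∀ v v', Relation.ReflTransGen (fun a b => ∃ π, Q.pc π = a ∧ Q.pc (Q.σ π) = b) v v'

/-- the cycle space of the plumbing graph -/
def cyc : Submodule ℂ (P → ℂ) where
  carrier := {b | (∀ π, b (Q.σ π) = -b π) ∧ ∀ v, ∑ π ∈ Q.pts v, b π = 0}
  add_mem' := fun ha hb => ⟨fun π => by simp [ha.1 π, hb.1 π, add_comm],
    fun v => by simp [Finset.sum_add_distrib, ha.2 v, hb.2 v]⟩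
  zero_mem' := ⟨by simp, by simp⟩
  smul_mem' := fun c _ ha => ⟨fun π => by simp [ha.1 π],
    fun v => by simp [← Finset.mul_sum, ha.2 v]⟩

/-- the probability densities `β v` -/
structure Bump (β : V → ℂ → ℝ) (Λ : ℝ) : Prop where
  smooth : ∀ v, ContDiff ℝ ∞ (β v)
  nonneg : ∀ v w, 0 ≤ β v w
  int : ∀ v, ∫ w, β v w = 1
  supp : ∀ v w, β v w ≠ 0 → w ∈ Q.core v
  pb : ∀ v, PB (β v) Λ
  one_le : 1 ≤ Λ
  log_le : |Real.log Q.sep| ≤ Λ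

section fields

variable (β : V → ℂ → ℝ) (Y : Inp V P)

noncomputable def tt (v : V) : ℝ :=
  -(∑ π ∈ Q.pts v, Y.b π) - (∫ z, Y.g (v, false) z) - ∫ z, Y.g (v, true) z

noncomputable def gs (α : V × Bool) (z : ℂ) : ℝ := Y.g α z + Q.tt Y α.1 * fin β α z

noncomputable def Pot (α : V × Bool) (w : ℂ) : ℝ :=
  NP (Q.gs β Y α) w + NQ (Q.gs β Y (α.1, !α.2)) w

noncomputable def farY (π : P) (y : ℂ) : ℝ :=
  PI (Q.r π / 2) (Y.h (Q.σ π)) y - PI (Q.r π / 2) (Y.h (Q.σ π)) 0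

noncomputable def term (π : P) (w : ℂ) : ℝ :=
  Y.b π * Real.log ‖w - Q.c π‖ + Q.farY Y π (Q.ε π / (w - Q.c π))

noncomputable def Phi (v : V) (w : ℂ) : ℝ :=
  Q.Pot β Y (v, false) w + ∑ π ∈ Q.pts v, Q.term Y π w

noncomputable def CC (v : V) : ℝ := Y.u v - ∫ w, β v w * Q.Phi β Y v w

open Classical in
noncomputable def R0 (π : P) (x : ℂ) : ℝ :=
  Q.Pot β Y (Q.pc π, false) (Q.c π + x) +
    ∑ π' ∈ (Q.pts (Q.pc π)).erase π, Q.term Y π' (Q.c π + x)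

noncomputable def RR (π : P) : ℝ := Q.CC β Y (Q.pc π) + Q.R0 β Y π 0

noncomputable def phi : V × Bool → ℂ → ℝ
  | (v, false) => fun w => Q.CC β Y v + Q.Pot β Y (v, false) w + ∑ π ∈ Q.pts v,
      (Y.b π * Real.log ‖w - Q.c π‖ + Q.R0 β Y (Q.σ π) (Q.ε π / (w - Q.c π)) -
        Q.R0 β Y (Q.σ π) 0)
  | (v, true) => fun w => Q.CC β Y v + Q.Pot β Y (v, true) w + ∑ π ∈ Q.pts v,
      (Y.b π * Real.log ‖1 - Q.c π * w‖ + Q.farY Y π (Q.ε π * w / (1 - Q.c π * w)))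

/-- regularity of an input -/
def Reg (k : WithTop ℕ∞) : Prop := (∀ π, Continuous (Y.h π)) ∧ Q.glue.CS k Y.g

/-- the fixed point equations -/
structure IsFix (s : ℝ) (ν ext : V × Bool → ℂ → ℝ) : Prop where
  reg : Q.Reg Y 0
  tube : ∀ π, Q.L π * Y.b π = Q.RR β Y π - Q.RR β Y (Q.σ π)
  circ : ∀ π (x : ℂ), ‖x‖ = Q.r π / 2 → Y.h π x = Q.R0 β Y π x
  sour : ∀ α z, Y.g α z = -s * ν α z * Q.phi β Y α z + ext α z

end fields

/-- smallness assumptions -/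
structure Hyp (β μ : V → ℂ → ℝ) (νt : V × Bool → ℂ → ℝ) (Λ δ τ a om κ : ℝ) : Prop where
  ok : Q.Ok
  bump : Q.Bump β Λ
  μ_smooth : ∀ v, ContDiff ℝ ∞ (μ v)
  μ_supp : ∀ v w, μ v w ≠ 0 → w ∈ Q.core v
  μ_pb : ∀ v, PB (μ v) δ
  νt_cs : Q.glue.CS ∞ νt
  νt_pb : ∀ α, PB (νt α) τ
  a_nonneg : 0 ≤ a
  a_ge : ∀ π, 1 ≤ a * Q.L π
  om_nonneg : 0 ≤ om
  om_ge : ∀ π, Q.r π ≤ om * Q.sep
  small : 1000 * Q.n ^ 2 * (Λ * (δ + τ) + Λ * a + om) ≤ 1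
  κ_ge : 300 * Q.n ^ 2 * (τ + om) ≤ κ

/-- what the estimates need to know about a solution -/
structure Rep (β μ : V → ℂ → ℝ) (s κ N : ℝ) (u : V → ℝ) where
  b : P → ℝ
  R : P → ℝ
  t : V → ℝ
  C : V → ℝ
  e : V → ℝ
  φ : V → ℂ → ℝ
  cont : ∀ v, Continuous (φ v)
  φ_le : ∀ v w, |φ v w| ≤ 16 * Q.n * N
  tube : ∀ π, Q.L π * b π = R π - R (Q.σ π)
  b_le : ∀ π, Q.L π * |b π| ≤ 4 * N
  norm : ∀ v, ∫ w, β v w * φ v w = u v
  t_eq : ∀ v, t v = -(∑ π ∈ Q.pts v, b π) + s * ((∫ w, μ v w * φ v w) + e v)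
  e_le : ∀ v, |e v| ≤ κ * N
  rep : ∀ v, ∀ w ∈ Q.bulk v, |φ v w - (C v + ∑ π ∈ Q.pts v, b π * Real.log ‖w - Q.c π‖ +
    NP (fun z => -s * μ v z * φ v z + t v * β v z) w)| ≤ κ * N
  repR : ∀ π, |R π - (C (Q.pc π) + ∑ π' ∈ Q.pts (Q.pc π), b π' * Real.log ‖Q.c π - Q.c π'‖ +
    NP (fun z => -s * μ (Q.pc π) z * φ (Q.pc π) z + t (Q.pc π) * β (Q.pc π) z) (Q.c π))| ≤ κ * N

/-- assumptions for the estimates on `Rep` -/
structure Est (β μ : V → ℂ → ℝ) (Λ : ℝ) (m : V → ℝ) : Prop where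
  ok : Q.Ok
  bump : Q.Bump β Λ
  μ_supp : ∀ v w, μ v w ≠ 0 → w ∈ Q.core v
  mass : ∀ v, ∫ w, |μ v w| ≤ m v
  μ_pb : ∀ v, PB (μ v) (Λ * m v)
  small : ∀ v, 8 * Λ * m v ≤ 1

end Plumb

end Pool.Agent.MP_4f0ed6_gt
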