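import Pool.Agent.MP_4f0ed6_gt.PlGeo

open Set Laplacian Filter Topology MeasureTheory Metric InnerProductSpace
open scoped ContDiff

namespace Pool.Agent.MP_4f0ed6_gt

theorem PlConn_ann (c : ℂ) {a b : ℝ} (ha : 0 ≤ a) :
    IsPreconnected {w : ℂ | a < ‖w - c‖ ∧ ‖w - c‖ < b} := by
  have h : {w : ℂ | a < ‖w - c‖ ∧ ‖w - c‖ < b} =
      (fun p : ℝ × ℝ => circleMap c p.1 p.2) '' (Ioo a b ×ˢ univ) := by
    ext w
    constructor
    · rintro ⟨h1, h2⟩
      refine ⟨(‖w - c‖, Complex.arg (w - c)), ⟨⟨h1, h2⟩, trivial⟩, ?_⟩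
      simp [circleMap, Complex.norm_mul_exp_arg_mul_I]
    · rintro ⟨⟨t, θ⟩, ⟨⟨h1, h2⟩, -⟩, rfl⟩
      have ht : 0 < t := lt_of_le_of_lt ha h1
      simp only [mem_ofPred_eq, circleMap_sub_center, norm_circleMap_zero, abs_of_pos ht]
      exact ⟨h1, h2⟩
  rw [h]
  refine (isPreconnected_Ioo.prod isPreconnected_univ).image _ (Continuous.continuousOn ?_)
  unfold circleMap
  fun_prop

theorem PlConn_open (c : ℂ) (a : ℝ) : IsOpen {w : ℂ | a < ‖w - c‖} :=
  isOpen_lt continuous_const (by fun_prop)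

theorem PlConn_hole {U : Set ℂ} (hU : IsOpen U) (hc : IsPreconnected U) {c : ℂ} {a b : ℝ}
    (ha : 0 ≤ a) (hab : a < b) (hb : ∀ w, ‖w - c‖ < b → w ∈ U) :
    IsPreconnected {w | w ∈ U ∧ a < ‖w - c‖} := by
  refine isPreconnected_of_forall_constant fun f hf x hx y hy => ?_
  have hA := PlConn_ann c (b := b) ha
  have hsub : {w : ℂ | a < ‖w - c‖ ∧ ‖w - c‖ < b} ⊆ {w | w ∈ U ∧ a < ‖w - c‖} :=
    fun w hw => ⟨hb w hw.2, hw.1⟩
  have h0 : c + (((a + b) / 2 : ℝ) : ℂ) ∈ {w : ℂ | a < ‖w - c‖ ∧ ‖w - c‖ < b} := by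
    have hp : 0 < (a + b) / 2 := by linarith
    simp only [mem_ofPred_eq, add_sub_cancel_left, Complex.norm_real, Real.norm_eq_abs,
      abs_of_pos hp]
    constructor <;> linarith
  set val := f (c + (((a + b) / 2 : ℝ) : ℂ)) with hval
  have hconst : ∀ w ∈ {w : ℂ | a < ‖w - c‖ ∧ ‖w - c‖ < b}, f w = val :=
    fun w hw => hA.constant (hf.mono hsub) hw h0
  classical
  let g : ℂ → Bool := fun w => if ‖w - c‖ < b then val else f w
  have hgf : ∀ w ∈ {w | w ∈ U ∧ a < ‖w - c‖}, g w = f w := by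
    intro w hw
    by_cases h : ‖w - c‖ < b
    · simp only [g, if_pos h]
      exact (hconst w ⟨hw.2, h⟩).symm
    · simp only [g, if_neg h]
  have ho1 : IsOpen {w | w ∈ U ∧ a < ‖w - c‖} :=
    hU.inter (PlConn_open c a)
  have ho2 : IsOpen {w : ℂ | ‖w - c‖ < b} := isOpen_lt (by fun_prop) continuous_const
  have hg : ContinuousOn g U := by
    intro w hw
    refine ContinuousAt.continuousWithinAt ?_
    by_cases h : ‖w - c‖ < b
    · have : g =ᶠ[𝓝 w] fun _ => val := by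
        filter_upwards [ho2.mem_nhds h] with z hz
        have hz' : ‖z - c‖ < b := hz
        simp only [g, if_pos hz']
      exact continuousAt_const.congr this.symm
    · have hw' : w ∈ {w | w ∈ U ∧ a < ‖w - c‖} := ⟨hw, by push Not at h; linarith⟩
      have : g =ᶠ[𝓝 w] f := by
        filter_upwards [ho1.mem_nhds hw'] with z hz using hgf z hz
      exact (hf.continuousAt (ho1.mem_nhds hw')).congr this.symm
  rw [← hgf x hx, ← hgf y hy]
  exact hc.constant hg hx.1 hy.1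

theorem PlConn_fin {V P : Type} [Fintype P] {Q : Plumb V P} (hQ : Q.Ok) (v : V) (s : Finset P)
    (hs : ∀ π ∈ s, Q.pc π = v) :
    IsOpen {w : ℂ | ‖w‖ < 2 ∧ ∀ π ∈ s, Q.r π / 2 < ‖w - Q.c π‖} ∧
      IsPreconnected {w : ℂ | ‖w‖ < 2 ∧ ∀ π ∈ s, Q.r π / 2 < ‖w - Q.c π‖} := by
  classical
  induction s using Finset.induction_on with
  | empty =>
    have h : {w : ℂ | ‖w‖ < 2 ∧ ∀ π ∈ (∅ : Finset P), Q.r π / 2 < ‖w - Q.c π‖} = ball 0 2 := by
      ext w
      simp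
    rw [h]
    exact ⟨isOpen_ball, (convex_ball _ _).isPreconnected⟩
  | insert π s hπ ih =>
    obtain ⟨h1, h2⟩ := ih fun π' h => hs π' (Finset.mem_insert_of_mem h)
    have h : {w : ℂ | ‖w‖ < 2 ∧ ∀ π' ∈ insert π s, Q.r π' / 2 < ‖w - Q.c π'‖} =
        {w | w ∈ {w : ℂ | ‖w‖ < 2 ∧ ∀ π ∈ s, Q.r π / 2 < ‖w - Q.c π‖} ∧
          Q.r π / 2 < ‖w - Q.c π‖} := by
      ext w
      simp only [mem_ofPred_eq, Finset.forall_mem_insert]
      tauto
    rw [h]
    have hr := Plumb.r_pos (Q := Q) π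
    refine ⟨h1.inter (PlConn_open _ _), ?_⟩
    refine PlConn_hole h1 h2 (b := Q.r π) (by linarith) (by linarith) fun w hw => ?_
    have hr' := hQ.r_le' π
    have hsep := hQ.sep_le
    refine ⟨?_, fun π' hπ' => ?_⟩
    · have h3 : ‖w‖ ≤ ‖w - Q.c π‖ + ‖Q.c π‖ := by
        simpa using norm_add_le (w - Q.c π) (Q.c π)
      have := hQ.c_le π
      linarith
    · have hne : π' ≠ π := fun h => hπ (h ▸ hπ')
      have hp : Q.pc π' = Q.pc π := by
        rw [hs π' (Finset.mem_insert_of_mem hπ'), hs π (Finset.mem_insert_self _ _)]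
      have h4 := (hQ.near hne hp (x := w - Q.c π) (by linarith)).1
      have h5 := hQ.r_le' π'
      have h6 := Plumb.r_pos (Q := Q) π'
      rw [add_sub_cancel] at h4
      linarith

theorem Plumb.Ok.W_conn {V P : Type} [Fintype P] {Q : Plumb V P} (hQ : Q.Ok) (α : V × Bool) :
    IsPreconnected (Q.W α) := by
  obtain ⟨v, _ | _⟩ := α
  · have h := (PlConn_fin hQ v (Q.pts v) fun π hπ => Plumb.mem_pts.1 hπ).2
    have he : Q.W (v, false) =
        {w : ℂ | ‖w‖ < 2 ∧ ∀ π ∈ Q.pts v, Q.r π / 2 < ‖w - Q.c π‖} := by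
      ext w
      simp only [Plumb.W, mem_ofPred_eq, Plumb.mem_pts]
    rw [he]
    exact h
  · have he : Q.W (v, true) = ball 0 2 := by
      ext w
      simp [Plumb.W]
    rw [he]
    exact (convex_ball _ _).isPreconnected

end Pool.Agent.MP_4f0ed6_gt
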