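import Pool.Agent.MP_4f0ed6_gt.PDefs
import Pool.Agent.MP_4f0ed6_gt.Fam

open Set Laplacian Filter Topology MeasureTheory Metric InnerProductSpace
open scoped ContDiff

namespace Pool.Agent.MP_4f0ed6_gt

theorem PlGeo_compact {P : Type} (a b : ℝ) (p : P → Prop) (c : P → ℂ) :
    IsCompact {w : ℂ | ‖w‖ ≤ a ∧ ∀ π, p π → b ≤ ‖w - c π‖} := by
  have h1 : IsClosed {w : ℂ | ∀ π, p π → b ≤ ‖w - c π‖} := by
    rw [Set.ofPred_forall]
    refine isClosed_iInter fun π => ?_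
    rw [Set.ofPred_forall]
    refine isClosed_iInter fun _ => ?_
    exact isClosed_le continuous_const (by fun_prop)
  have h2 : IsCompact {w : ℂ | ‖w‖ ≤ a} := by
    have : {w : ℂ | ‖w‖ ≤ a} = closedBall (0 : ℂ) a := by
      ext w
      simp
    rw [this]
    exact isCompact_closedBall _ _
  exact h2.inter_right h1

theorem PlGeo_r {V P : Type} {Q : Plumb V P} {ι : V → V} {ιP : P → P} (h : Q.Sym ι ιP) (π : P) :
    Q.r (ιP π) = Q.r π := by
  simp [Plumb.r, h.L_ι]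

namespace Plumb

variable {V P : Type} [Fintype P] {Q : Plumb V P}

omit [Fintype P] in
theorem r_pos (π : P) : 0 < Q.r π := Real.exp_pos _

omit [Fintype P] in
theorem log_r (π : P) : Real.log (Q.r π) = -Q.L π / 2 := Real.log_exp _

omit [Fintype P] in
theorem norm_ε (π : P) : ‖Q.ε π‖ = Q.r π ^ 2 := by
  simp [Plumb.ε]

theorem one_le_n : 1 ≤ Q.n := by
  have : (0 : ℝ) ≤ Fintype.card P := Nat.cast_nonneg _
  unfold Plumb.n
  linarith

theorem mem_pts {v : V} {π : P} : π ∈ Q.pts v ↔ Q.pc π = v := by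
  simp [Plumb.pts]

theorem card_pts_le (v : V) : ((Q.pts v).card : ℝ) ≤ Q.n := by
  have h : (Q.pts v).card ≤ Fintype.card P := Finset.card_le_univ _
  have h' : ((Q.pts v).card : ℝ) ≤ Fintype.card P := by exact_mod_cast h
  unfold Plumb.n
  linarith

theorem sum_pts [Fintype V] {M : Type} [AddCommMonoid M] (F : P → M) :
    ∑ v, ∑ π ∈ Q.pts v, F π = ∑ π, F π := by
  classical
  have := Finset.sum_fiberwise (s := (Finset.univ : Finset P)) Q.pc F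
  rw [← this]
  refine Finset.sum_congr rfl fun v _ => ?_
  refine Finset.sum_congr ?_ fun _ _ => rfl
  ext π
  simp [Plumb.pts]

theorem abs_sum_pts_le {s : Finset P} {F : P → ℝ} {B : ℝ} (hB : 0 ≤ B)
    (h : ∀ π ∈ s, |F π| ≤ B) : |∑ π ∈ s, F π| ≤ Q.n * B := by
  have h1 : |∑ π ∈ s, F π| ≤ ∑ π ∈ s, |F π| := Finset.abs_sum_le_sum_abs _ _
  have h2 : ∑ π ∈ s, |F π| ≤ s.card • B := Finset.sum_le_card_nsmul _ _ _ h
  have h3 : s.card ≤ Fintype.card P := Finset.card_le_univ _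
  have h4 : (s.card : ℝ) ≤ Fintype.card P := by exact_mod_cast h3
  rw [nsmul_eq_mul] at h2
  have h5 : (s.card : ℝ) * B ≤ Q.n * B := by
    apply mul_le_mul_of_nonneg_right _ hB
    unfold Plumb.n
    linarith
  linarith

theorem Ok.r_σ (hQ : Q.Ok) (π : P) : Q.r (Q.σ π) = Q.r π := by
  simp [Plumb.r, hQ.L_σ]

theorem Ok.ε_σ (hQ : Q.Ok) (π : P) : Q.ε (Q.σ π) = Q.ε π := by
  simp [Plumb.ε, hQ.r_σ]

theorem Ok.r_le' (hQ : Q.Ok) (π : P) : 16 * Q.r π ≤ Q.sep := by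
  have h1 := hQ.r_le π
  have h2 : 1 ≤ Q.n := one_le_n
  have h3 : 0 < Q.r π := r_pos π
  nlinarith

theorem Ok.core_sub_bulk (hQ : Q.Ok) (v : V) : Q.core v ⊆ Q.bulk v := by
  intro w hw
  have hs := hQ.sep_pos
  refine ⟨by linarith [hw.1], fun π hπ => ?_⟩
  linarith [hw.2 π hπ]

theorem Ok.bulk_sub_W (hQ : Q.Ok) (v : V) : Q.bulk v ⊆ Q.W (v, false) := by
  intro w hw
  refine ⟨by linarith [hw.1], fun π hπ => ?_⟩
  have h1 := hw.2 π hπ
  have h2 := hQ.r_le' π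
  have h3 : 0 < Q.r π := r_pos π
  linarith

omit [Fintype P] in
theorem isCompact_core (v : V) : IsCompact (Q.core v) := by
  exact PlGeo_compact (1 / 4) Q.sep (fun π => Q.pc π = v) Q.c

omit [Fintype P] in
theorem isCompact_bulk (v : V) : IsCompact (Q.bulk v) := by
  exact PlGeo_compact (1 / 2) (Q.sep / 2) (fun π => Q.pc π = v) Q.c

theorem isOpen_W (α : V × Bool) : IsOpen (Q.W α) := by
  obtain ⟨v, b⟩ := α
  have h0 : IsOpen {w : ℂ | ‖w‖ < 2} := isOpen_lt continuous_norm continuous_const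
  cases b
  · have h1 : IsOpen {w : ℂ | ∀ π, Q.pc π = v → Q.r π / 2 < ‖w - Q.c π‖} := by
      rw [Set.ofPred_forall]
      refine isOpen_iInter_of_finite fun π => ?_
      by_cases hπ : Q.pc π = v
      · simp only [hπ, forall_const]
        exact isOpen_lt continuous_const (by fun_prop)
      · simp [hπ]
    exact h0.inter h1
  · exact h0

omit [Fintype P] in
theorem norm_lt_of_W {α : V × Bool} {w : ℂ} (h : w ∈ Q.W α) : ‖w‖ < 2 := by
  obtain ⟨v, b⟩ := α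
  cases b
  · exact h.1
  · exact h

theorem Ok.near (hQ : Q.Ok) {π π' : P} (hne : π' ≠ π) (hp : Q.pc π' = Q.pc π) {x : ℂ}
    (hx : ‖x‖ ≤ Q.sep / 2) :
    Q.sep / 2 ≤ ‖Q.c π + x - Q.c π'‖ ∧ ‖Q.c π + x - Q.c π'‖ ≤ 1 := by
  have h1 := hQ.c_sep π π' hne.symm hp.symm
  have h2 := hQ.c_le π
  have h3 := hQ.c_le π'
  have h4 := hQ.sep_le
  constructor
  · have : ‖Q.c π - Q.c π'‖ ≤ ‖Q.c π + x - Q.c π'‖ + ‖x‖ := by
      have e : Q.c π - Q.c π' = (Q.c π + x - Q.c π') - x := by ring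
      conv_lhs => rw [e]
      exact norm_sub_le _ _
    linarith
  · have h5 : ‖Q.c π + x - Q.c π'‖ ≤ ‖Q.c π + x‖ + ‖Q.c π'‖ := norm_sub_le _ _
    have h6 : ‖Q.c π + x‖ ≤ ‖Q.c π‖ + ‖x‖ := norm_add_le _ _
    linarith

theorem Ok.cs_fin (hQ : Q.Ok) {k : WithTop ℕ∞} {μ : V → ℂ → ℝ} (hs : ∀ v, ContDiff ℝ k (μ v))
    (hc : ∀ v w, μ v w ≠ 0 → w ∈ Q.core v) : Q.glue.CS k (fin μ) := by
  rintro ⟨v, b⟩
  cases b
  · have hsub : tsupport (μ v) ⊆ Q.core v :=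
      closure_minimal (fun w hw => hc v w hw) (isCompact_core v).isClosed
    refine ⟨hs v, (isCompact_core v).of_isClosed_subset (isClosed_tsupport _) hsub, ?_⟩
    exact hsub.trans ((hQ.core_sub_bulk v).trans (hQ.bulk_sub_W v))
  · refine ⟨contDiff_const, HasCompactSupport.zero, ?_⟩
    have : tsupport (fin μ (v, true)) = ∅ := tsupport_eq_empty_iff.mpr rfl
    rw [this]
    exact empty_subset _

omit [Fintype P] in
theorem cs_supp {k : WithTop ℕ∞} {g : V × Bool → ℂ → ℝ} (hg : Q.glue.CS k g) (α : V × Bool)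
    (u : ℂ) (h : g α u ≠ 0) : ‖u‖ < 2 := by
  exact norm_lt_of_W ((hg α).2.2 (subset_tsupport _ h))

omit [Fintype P] in
theorem Sym.glue {ι : V → V} {ιP : P → P} (h : Q.Sym ι ιP) :
    Q.glue.Sym (fun α => (ι α.1, α.2)) (Sum.map ιP fun α => (ι α.1, α.2)) := by
  refine ⟨?_, ?_, ?_, ?_, ?_, ?_, ?_⟩
  · rintro ⟨v, b⟩
    simp [h.ιι]
  · rintro (π | ⟨v, b⟩)
    · simp [h.ιPιP]
    · simp [h.ιι]
  · rintro (π | ⟨v, b⟩)
    · simp [Plumb.glue, h.pc_ι]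
    · simp [Plumb.glue]
  · rintro (π | ⟨v, b⟩)
    · simp [Plumb.glue, h.σ_ι]
    · simp [Plumb.glue]
  · rintro ⟨v, b⟩ z hz
    cases b
    · refine ⟨by simpa using hz.1, fun π hπ => ?_⟩
      have h1 : Q.pc (ιP π) = v := by
        rw [h.pc_ι, hπ]
        exact h.ιι v
      have h2 := hz.2 _ h1
      rw [PlGeo_r h, h.c_ι] at h2
      have e : -z - Q.c π = -(z - -Q.c π) := by ring
      rw [e, norm_neg]
      exact h2
    · have : ‖z‖ < 2 := hz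
      show ‖-z‖ < 2
      simpa using this
  · rintro (π | ⟨v, b⟩) z hz
    · have hz' : Q.r π / 2 < ‖z - Q.c π‖ ∧ ‖z - Q.c π‖ < 2 * Q.r π := hz
      show Q.r (ιP π) / 2 < ‖-z - Q.c (ιP π)‖ ∧ ‖-z - Q.c (ιP π)‖ < 2 * Q.r (ιP π)
      have e : -z - -Q.c π = -(z - Q.c π) := by ring
      rw [PlGeo_r h, h.c_ι, e, norm_neg]
      exact hz'
    · have hz' : 1 / 2 < ‖z‖ ∧ ‖z‖ < 2 := hz
      show 1 / 2 < ‖-z‖ ∧ ‖-z‖ < 2
      rw [norm_neg]
      exact hz'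
  · rintro (π | ⟨v, b⟩) z _
    · show Q.c (Q.σ (ιP π)) + Q.ε (ιP π) / (-z - Q.c (ιP π)) =
        -(Q.c (Q.σ π) + Q.ε π / (z - Q.c π))
      have e : -z - -Q.c π = -(z - Q.c π) := by ring
      have e2 : Q.ε (ιP π) = Q.ε π := by simp [Plumb.ε, PlGeo_r h]
      rw [h.σ_ι, h.c_ι, h.c_ι, e, e2, div_neg]
      ring
    · show (-z)⁻¹ = -z⁻¹
      exact inv_neg

omit [Fintype P] in
theorem Sym.core {ι : V → V} {ιP : P → P} (h : Q.Sym ι ιP) {v : V} {w : ℂ}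
    (hw : w ∈ Q.core v) : -w ∈ Q.core (ι v) := by
  refine ⟨by simpa using hw.1, fun π hπ => ?_⟩
  have h1 : Q.pc (ιP π) = v := by
    rw [h.pc_ι, hπ]
    exact h.ιι v
  have h2 := hw.2 _ h1
  rw [h.c_ι] at h2
  have e : -w - Q.c π = -(w - -Q.c π) := by ring
  rw [e, norm_neg]
  exact h2

end Plumb

end Pool.Agent.MP_4f0ed6_gt
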