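import Pool.Agent.MP_4f0ed6_gt.PotI
import Pool.Agent.MP_4f0ed6_gt.Calc

open Set Laplacian Filter Topology MeasureTheory Metric InnerProductSpace
open scoped ContDiff

namespace Pool.Agent.MP_4f0ed6_gt

theorem Pol1_two {F G : ℂ → ℝ} {z : ℂ} (hF : ContDiffAt ℝ 2 F z) (hG : ContDiffAt ℝ 2 G z)
    (v : ℂ) : fderiv ℝ (fderiv ℝ fun w => F w * G w) z v v =
      F z * fderiv ℝ (fderiv ℝ G) z v v + G z * fderiv ℝ (fderiv ℝ F) z v v +
        2 * (fderiv ℝ F z v * fderiv ℝ G z v) := by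
  have d1 : ∀ {H : ℂ → ℝ}, ContDiffAt ℝ 2 H z → ∀ᶠ w in 𝓝 z, DifferentiableAt ℝ H w :=
    fun h => (h.eventually (by simp)).mono fun w hw => hw.differentiableAt (by simp)
  have d2 : ∀ {H : ℂ → ℝ}, ContDiffAt ℝ 2 H z →
      HasFDerivAt (fderiv ℝ H) (fderiv ℝ (fderiv ℝ H) z) z := fun h =>
    ((h.fderiv_right (m := 1) (by norm_num)).differentiableAt (by simp)).hasFDerivAt
  have e : (fderiv ℝ fun w => F w * G w) =ᶠ[𝓝 z]
      fun w => F w • fderiv ℝ G w + G w • fderiv ℝ F w := by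
    filter_upwards [d1 hF, d1 hG] with w h1 h2 using fderiv_fun_mul h1 h2
  rw [e.fderiv_eq, (((d1 hF).self_of_nhds.hasFDerivAt.fun_smul (d2 hG)).fun_add
    ((d1 hG).self_of_nhds.hasFDerivAt.fun_smul (d2 hF))).fderiv]
  simp
  ring

theorem Pol1_lap_mul {F G : ℂ → ℝ} {z : ℂ} (hF : ContDiffAt ℝ 2 F z) (hG : ContDiffAt ℝ 2 G z) :
    Δ (fun w => F w * G w) z = F z * Δ G z + G z * Δ F z +
      2 * (fderiv ℝ F z 1 * fderiv ℝ G z 1 + fderiv ℝ F z Complex.I * fderiv ℝ G z Complex.I) := by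
  simp only [laplacian_eq_iteratedFDeriv_complexPlane, iteratedFDeriv_two_apply,
    Matrix.cons_val_zero, Matrix.cons_val_one, Pol1_two hF hG]
  ring

theorem Pol1_log {c u : ℂ} (h : u - c ≠ 0) (v : ℂ) :
    fderiv ℝ (fun w => Real.log ‖w - c‖) u v = (v / (u - c)).re := by
  have h0 : ‖u - c‖ ≠ 0 := norm_ne_zero_iff.2 h
  have e : (fun w => Real.log ‖w - c‖) = fun w => (1 / 2 : ℝ) * Real.log (‖w - c‖ ^ 2) := by
    funext w
    rw [Real.log_pow]
    push_cast
    ring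
  have d : HasFDerivAt (fun w : ℂ => w - c) (ContinuousLinearMap.id ℝ ℂ) u :=
    (hasFDerivAt_id u).sub_const c
  rw [e, ((d.norm_sq.log (pow_ne_zero 2 h0)).const_mul (1 / 2 : ℝ)).fderiv, Complex.div_re,
    Complex.normSq_eq_norm_sq]
  simp [Complex.inner]
  field_simp
  ring

theorem Pol1_kk {c u : ℂ} (h1 : u - c ≠ 0) (h2 : u + c ≠ 0) :
    ContDiffAt ℝ ∞ (fun w => kk w c) u ∧ Δ (fun w => kk w c) u = 0 ∧
      ∀ v, fderiv ℝ (fun w => kk w c) u v = (v * (2 * c / (u ^ 2 - c ^ 2))).re := by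
  have a1 : AnalyticAt ℂ (fun w => w - c) u := by fun_prop
  have a2 : AnalyticAt ℂ (fun w => w + c) u := by fun_prop
  have s1 := log_norm_smooth a1 h1
  have s2 := log_norm_smooth a2 h2
  have le : (2 : WithTop ℕ∞) ≤ ∞ := WithTop.coe_le_coe.2 le_top
  unfold kk
  refine ⟨s1.sub s2, ?_, fun v => ?_⟩
  · rw [lap_sub (s1.of_le le) (s2.of_le le), log_norm_lap a1 h1, log_norm_lap a2 h2, sub_self]
  · have h3 := Pol1_log (c := -c) (u := u) (by rwa [sub_neg_eq_add]) v
    simp only [sub_neg_eq_add] at h3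
    rw [fderiv_fun_sub (s1.differentiableAt (by simp)) (s2.differentiableAt (by simp)),
      _root_.sub_apply, Pol1_log h1, h3, ← Complex.sub_re, sq_sub_sq]
    congr 1
    field_simp
    ring

theorem lap_kk_mul {a b : ℝ} {u : ℂ} (hre : u.re ≠ 0) (him : u.im ≠ 0) :
    ContDiffAt ℝ ∞ (fun u => kk (a : ℂ) u * kk u (b * Complex.I)) u ∧
      Δ (fun u => kk (a : ℂ) u * kk u (b * Complex.I)) u =
        2 * ((2 * a / (u ^ 2 - a ^ 2)) *
          (starRingEnd ℂ) (2 * b * Complex.I / (u ^ 2 + b ^ 2))).re := by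
  have le : (2 : WithTop ℕ∞) ≤ ∞ := WithTop.coe_le_coe.2 le_top
  obtain ⟨f1, f2, f3⟩ := Pol1_kk (c := a) (u := u)
    (fun h => him (by simpa using congrArg Complex.im h))
    (fun h => him (by simpa using congrArg Complex.im h))
  obtain ⟨g1, g2, g3⟩ := Pol1_kk (c := b * Complex.I) (u := u)
    (fun h => hre (by simpa using congrArg Complex.re h))
    (fun h => hre (by simpa using congrArg Complex.re h))
  simp only [kk_comm (a : ℂ)]
  refine ⟨f1.mul g1, ?_⟩
  rw [Pol1_lap_mul (f1.of_le le) (g1.of_le le), f2, g2, f3, f3, g3, g3, mul_pow, Complex.I_sq,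
    mul_neg_one, sub_neg_eq_add, ← mul_assoc 2 (b : ℂ)]
  generalize 2 * (a : ℂ) / (u ^ 2 - a ^ 2) = α
  generalize 2 * (b : ℂ) * Complex.I / (u ^ 2 + b ^ 2) = β
  simp

theorem polarize (p : MvPolynomial (Fin 2) ℂ) {c : ℂ} {r : ℝ} (hr : 0 < r)
    (h : ∀ u ∈ ball c r, MvPolynomial.eval ![u, (starRingEnd ℂ) u] p = 0) (u w : ℂ) :
    MvPolynomial.eval ![u, w] p = 0 := by
  let q : MvPolynomial (Fin 2) ℂ := MvPolynomial.bind₁
    ![MvPolynomial.X 0 + MvPolynomial.C Complex.I * MvPolynomial.X 1,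
      MvPolynomial.X 0 - MvPolynomial.C Complex.I * MvPolynomial.X 1] p
  have hq : ∀ x : Fin 2 → ℂ, MvPolynomial.eval x q =
      MvPolynomial.eval ![x 0 + Complex.I * x 1, x 0 - Complex.I * x 1] p := fun x => by
    rw [← MvPolynomial.aeval_eq_eval, MvPolynomial.aeval_bind₁, MvPolynomial.aeval_eq_eval]
    congr 2
    funext i
    fin_cases i <;> simp
  have hi : ∀ t : ℝ, (Complex.ofReal '' Ioo (t - r / 2) (t + r / 2)).Infinite := fun t =>
    (Ioo_infinite (by linarith)).image Complex.ofReal_injective.injOn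
  have h0 : q = 0 := MvPolynomial.funext_set
    ![Complex.ofReal '' Ioo (c.re - r / 2) (c.re + r / 2),
      Complex.ofReal '' Ioo (c.im - r / 2) (c.im + r / 2)]
    (fun i => by fin_cases i <;> exact hi _) fun x hx => by
      obtain ⟨s, hs, e0⟩ := hx 0 trivial
      obtain ⟨t, ht, e1⟩ := hx 1 trivial
      have := h (s + Complex.I * t) (by
        rw [mem_ball, Complex.dist_eq]
        refine (Complex.norm_le_abs_re_add_abs_im _).trans_lt ?_
        have a1 : |s - c.re| < r / 2 := abs_lt.2 ⟨by linarith [hs.1], by linarith [hs.2]⟩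
        have a2 : |t - c.im| < r / 2 := abs_lt.2 ⟨by linarith [ht.1], by linarith [ht.2]⟩
        simp
        linarith)
      rw [hq, map_zero, ← e0, ← e1, ← this]
      simp [sub_eq_add_neg]
  have := hq ![(u + w) / 2, -Complex.I * ((u - w) / 2)]
  rw [h0, map_zero] at this
  rw [this]
  congr 2
  simp only [Matrix.cons_val_zero, Matrix.cons_val_one, ← mul_assoc, mul_neg, Complex.I_mul_I]
  congr <;> ring

end Pool.Agent.MP_4f0ed6_gt
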