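import Pool.Agent.MP_4f0ed6_gt.PotI

open Set Laplacian Filter Topology MeasureTheory Metric InnerProductSpace
open scoped ContDiff

namespace Pool.Agent.MP_4f0ed6_gt

/-- the regularised kernel -/
noncomputable def PotD_l (d : ℝ) (u : ℂ) : ℝ := Real.log (‖u‖ ^ 2 + d) / 2

/-- its derivative -/
noncomputable def PotD_K (d : ℝ) (u : ℂ) : ℂ →L[ℝ] ℝ := (‖u‖ ^ 2 + d)⁻¹ • innerSL ℝ u

lemma PotD_der {d : ℝ} (hd : 0 < d) (u : ℂ) : HasFDerivAt (PotD_l d) (PotD_K d u) u := by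
  have h1 : HasFDerivAt (fun x : ℂ => ‖x‖ ^ 2 + d) (2 • innerSL ℝ u) u :=
    (hasStrictFDerivAt_norm_sq u).hasFDerivAt.add_const d
  have h2 := (h1.log (by positivity)).const_mul (2 : ℝ)⁻¹
  have e1 : PotD_l d = fun y : ℂ => 2⁻¹ * Real.log (‖y‖ ^ 2 + d) :=
    funext fun x => div_eq_inv_mul _ _
  rw [e1]
  refine h2.congr_fderiv (ContinuousLinearMap.ext fun v => ?_)
  simp only [PotD_K, smul_apply, smul_eq_mul, nsmul_eq_mul]
  push_cast
  ring

lemma PotD_norm {d : ℝ} (hd : 0 ≤ d) (u : ℂ) : ‖PotD_K d u‖ = (‖u‖ ^ 2 + d)⁻¹ * ‖u‖ := by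
  rw [PotD_K, norm_smul, innerSL_apply_norm, Real.norm_of_nonneg (by positivity)]

lemma PotD_le {d : ℝ} (hd : 0 ≤ d) (u : ℂ) : ‖PotD_K d u‖ ≤ ‖u‖⁻¹ := by
  rw [PotD_norm hd]
  rcases eq_or_lt_of_le (norm_nonneg u) with h | h
  · rw [← h]
    simp
  · rw [inv_mul_le_iff₀ (by positivity), le_mul_inv_iff₀ h]
    nlinarith

lemma PotD_le' {d : ℝ} (hd : 0 < d) (u : ℂ) : ‖PotD_K d u‖ ≤ 1 + d⁻¹ := by
  rw [PotD_norm hd.le, inv_mul_le_iff₀ (by positivity)]
  have h1 : d * d⁻¹ = 1 := mul_inv_cancel₀ hd.ne'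
  have h2 : 0 ≤ ‖u‖ ^ 2 * d⁻¹ := by positivity
  nlinarith [sq_nonneg (‖u‖ - 1), norm_nonneg u]

lemma PotD_meas (d : ℝ) : AEStronglyMeasurable (PotD_K d) volume :=
  AEStronglyMeasurable.smul (𝕜 := ℝ) (f := fun u : ℂ => (‖u‖ ^ 2 + d)⁻¹)
    (Measurable.aestronglyMeasurable (by fun_prop))
    (innerSL ℝ (E := ℂ)).continuous.aestronglyMeasurable

lemma PotD_loc {d : ℝ} (hd : 0 ≤ d) : LocallyIntegrable (PotD_K d) :=
  locInt_inv.mono (PotD_meas d) (Eventually.of_forall fun u =>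
    (PotD_le hd u).trans (le_abs_self _))

lemma PotD_int {g : ℂ → ℝ} (hg : Continuous g) (hc : HasCompactSupport g) {d : ℝ} (hd : 0 ≤ d)
    (x : ℂ) : Integrable fun u => g (x - u) • PotD_K d u :=
  (PotD_loc hd).integrable_smul_left_of_hasCompactSupport (g := fun u => g (x - u))
    (by fun_prop) (hc.comp_homeomorph (Homeomorph.subLeft x))

lemma PotD_cont {d : ℝ} (hd : 0 < d) : Continuous (PotD_l d) :=
  continuous_iff_continuousAt.mpr fun u => (PotD_der hd u).continuousAt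

lemma PotD_intl {g : ℂ → ℝ} (hg : Continuous g) (hc : HasCompactSupport g) {d : ℝ} (hd : 0 < d)
    (x : ℂ) : Integrable fun u => PotD_l d (x - u) * g u :=
  Continuous.integrable_of_hasCompactSupport
    (((PotD_cont hd).comp (by fun_prop)).mul hg) hc.mul_left

lemma PotD_reg {g : ℂ → ℝ} (hg : Continuous g) (hc : HasCompactSupport g) {d : ℝ} (hd : 0 < d)
    (x : ℂ) : HasFDerivAt (fun y => ∫ u, PotD_l d (y - u) * g u)
      (∫ u, g (x - u) • PotD_K d u) x := by
  have e : ∫ u, g (x - u) • PotD_K d u = ∫ u, g u • PotD_K d (x - u) := by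
    rw [← integral_sub_left_eq_self (fun u => g u • PotD_K d (x - u)) volume x]
    simp only [sub_sub_cancel]
  rw [e]
  refine hasFDerivAt_integral_of_dominated_of_fderiv_le (F' := fun y u => g u • PotD_K d (y - u))
    (bound := fun u => ‖g u‖ * (1 + d⁻¹)) univ_mem
    (Eventually.of_forall fun y => (PotD_intl hg hc hd y).aestronglyMeasurable)
    (PotD_intl hg hc hd x) ?_ (Eventually.of_forall fun u y _ => ?_)
    ((hg.integrable_of_hasCompactSupport hc).norm.mul_const _)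
    (Eventually.of_forall fun u y _ => ?_)
  · have := (PotD_int hg hc hd.le x).comp_sub_left x
    simp only [sub_sub_cancel] at this
    exact this.aestronglyMeasurable
  · rw [norm_smul]
    exact mul_le_mul_of_nonneg_left (PotD_le' hd _) (norm_nonneg _)
  · have := ((PotD_der hd (y - u)).comp y ((hasFDerivAt_id y).sub_const u)).mul_const (g u)
    rwa [ContinuousLinearMap.comp_id] at this

lemma PotD_seq : Tendsto (fun n : ℕ => 1 / ((n : ℝ) + 1)) atTop (𝓝 0) :=
  tendsto_one_div_add_atTop_nhds_zero_nat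

lemma PotD_pt {g : ℂ → ℝ} (hg : Continuous g) (hc : HasCompactSupport g) (x : ℂ) :
    Tendsto (fun n : ℕ => ∫ u, PotD_l (1 / ((n : ℝ) + 1)) (x - u) * g u) atTop (𝓝 (NP g x)) := by
  have hx : ∀ᵐ u, 0 < ‖x - u‖ ^ 2 := (Measure.ae_ne volume x).mono fun u hu =>
    pow_pos (norm_pos_iff.mpr (sub_ne_zero.mpr hu.symm)) 2
  have e : ∀ v : ℂ, Real.log ‖v‖ = PotD_l 0 v := fun v => by
    rw [PotD_l, add_zero, Real.log_pow]
    push_cast
    ring
  refine tendsto_integral_of_dominated_convergence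
    (fun u => ‖Real.log ‖x - u‖ * g u‖ + ‖PotD_l 1 (x - u) * g u‖)
    (fun n => (PotD_intl hg hc Nat.one_div_pos_of_nat x).aestronglyMeasurable)
    ((integrable_np hg hc x).norm.add (PotD_intl hg hc one_pos x).norm)
    (fun n => hx.mono fun u hu => ?_) (hx.mono fun u hu => ?_)
  · have h0 : (0 : ℝ) < 1 / ((n : ℝ) + 1) := Nat.one_div_pos_of_nat
    have h1 : 1 / ((n : ℝ) + 1) ≤ 1 := Nat.one_div_le_one_div (Nat.zero_le n) |>.trans (by simp)
    have h2 := Real.log_le_log (x := ‖x - u‖ ^ 2 + 0) (y := ‖x - u‖ ^ 2 + 1 / ((n : ℝ) + 1))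
      (by linarith) (by linarith)
    have h3 := Real.log_le_log (y := ‖x - u‖ ^ 2 + 1) (x := ‖x - u‖ ^ 2 + 1 / ((n : ℝ) + 1))
      (by linarith) (by linarith)
    rw [norm_mul, norm_mul, norm_mul, ← add_mul, e]
    refine mul_le_mul_of_nonneg_right ?_ (norm_nonneg _)
    simp only [PotD_l, Real.norm_eq_abs]
    refine abs_le.mpr ⟨?_, ?_⟩
    · linarith [neg_abs_le (Real.log (‖x - u‖ ^ 2 + 0) / 2),
        abs_nonneg (Real.log (‖x - u‖ ^ 2 + 1) / 2)]
    · linarith [le_abs_self (Real.log (‖x - u‖ ^ 2 + 1) / 2),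
        abs_nonneg (Real.log (‖x - u‖ ^ 2 + 0) / 2)]
  · rw [e]
    exact (((PotD_seq.const_add _).log (by linarith)).div_const 2).mul_const _

lemma PotD_err (R : ℝ) : Tendsto (fun n : ℕ => ∫ u in closedBall (0 : ℂ) R,
    ‖PotD_K 0 u - PotD_K (1 / ((n : ℝ) + 1)) u‖) atTop (𝓝 0) := by
  have hi := locInt_inv.integrableOn_isCompact (isCompact_closedBall (0 : ℂ) R)
  have := tendsto_integral_of_dominated_convergence (μ := volume.restrict (closedBall (0 : ℂ) R))
    (F := fun (n : ℕ) u => ‖PotD_K 0 u - PotD_K (1 / ((n : ℝ) + 1)) u‖) (f := fun _ => (0 : ℝ))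
    (fun u => ‖u‖⁻¹ + ‖u‖⁻¹) (fun n => ((PotD_meas _).sub (PotD_meas _)).norm.restrict)
    (hi.add hi) (fun n => Eventually.of_forall fun u => ?_) (Eventually.of_forall fun u => ?_)
  · rwa [integral_zero] at this
  · rw [norm_norm]
    exact (norm_sub_le _ _).trans
      (add_le_add (PotD_le le_rfl u) (PotD_le Nat.one_div_pos_of_nat.le u))
  · by_cases hu : u = 0
    · simp [hu, PotD_K]
    · have h1 : ‖u‖ ^ 2 + 0 ≠ 0 := by simpa using hu
      have h2 := (((PotD_seq.const_add _).inv₀ h1).smul_const (innerSL ℝ u)).const_sub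
        (PotD_K 0 u)
      have h3 := h2.norm
      rwa [show PotD_K 0 u - (‖u‖ ^ 2 + 0)⁻¹ • innerSL ℝ u = 0 from sub_self _, norm_zero] at h3

theorem NP_hasFDerivAt {g : ℂ → ℝ} (hg : Continuous g) (hc : HasCompactSupport g) (w : ℂ) :
    HasFDerivAt (NP g) (∫ u : ℂ, g (w - u) • ((‖u‖ ^ 2)⁻¹ • innerSL ℝ u)) w := by
  have e : ∀ u : ℂ, (‖u‖ ^ 2)⁻¹ • innerSL ℝ u = PotD_K 0 u := fun u => by rw [PotD_K, add_zero]
  simp only [e]
  obtain ⟨M, hM⟩ := hg.bounded_above_of_compact_support hc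
  obtain ⟨R, hR⟩ := hc.isCompact.isBounded.subset_closedBall 0
  refine hasFDerivAt_of_tendstoUniformlyOn (l := atTop) (s := ball w 1)
    (f' := fun (n : ℕ) x => ∫ u, g (x - u) • PotD_K (1 / ((n : ℝ) + 1)) u)
    (g' := fun x => ∫ u, g (x - u) • PotD_K 0 u) isOpen_ball ?_
    (fun n x _ => PotD_reg hg hc Nat.one_div_pos_of_nat x) (fun x _ => PotD_pt hg hc x)
    (mem_ball_self one_pos)
  refine Metric.tendstoUniformlyOn_iff.mpr fun ε hε => ?_
  have h1 := (PotD_err (‖w‖ + 1 + R)).const_mul M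
  rw [mul_zero] at h1
  filter_upwards [h1.eventually (gt_mem_nhds hε)] with n hn x hx
  have hd : (0 : ℝ) ≤ 1 / ((n : ℝ) + 1) := Nat.one_div_pos_of_nat.le
  refine lt_of_le_of_lt ?_ hn
  rw [dist_eq_norm, ← integral_sub (PotD_int hg hc le_rfl x) (PotD_int hg hc hd x),
    ← integral_const_mul, ← integral_indicator measurableSet_closedBall]
  refine norm_integral_le_of_norm_le ?_ (Eventually.of_forall fun u => ?_)
  · refine (integrable_indicator_iff measurableSet_closedBall).mpr (Integrable.const_mul ?_ M)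
    exact (((PotD_loc le_rfl).sub (PotD_loc hd)).integrableOn_isCompact
      (isCompact_closedBall _ _)).norm
  · refine (congrArg norm (smul_sub _ _ _).symm).trans_le ((norm_smul _ _).trans_le ?_)
    by_cases hu : u ∈ closedBall (0 : ℂ) (‖w‖ + 1 + R)
    · rw [indicator_of_mem hu]
      exact mul_le_mul_of_nonneg_right (hM _) (norm_nonneg _)
    · rw [indicator_of_notMem hu, image_eq_zero_of_notMem_tsupport (f := g) fun h => hu ?_,
        norm_zero, zero_mul]
      have h2 := mem_closedBall_zero_iff.mp (hR h)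
      have h3 := mem_ball_iff_norm.mp hx
      have h4 : u = w + (x - w) - (x - u) := by ring
      rw [mem_closedBall_zero_iff, h4]
      linarith [norm_sub_le (w + (x - w)) (x - u), norm_add_le w (x - w)]

end Pool.Agent.MP_4f0ed6_gt
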