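import Pool.Agent.MP_4f0ed6_gt.PotI
import Pool.Agent.MP_4f0ed6_gt.Green0

open Set Laplacian Filter Topology MeasureTheory Metric InnerProductSpace
open scoped ContDiff

namespace Pool.Agent.MP_4f0ed6_gt

theorem PotF_sq (u : ℂ) : ‖u‖ ^ 2 = u.re * u.re + u.im * u.im := by
  rw [Complex.sq_norm, Complex.normSq_apply]

theorem PotF_der {c : ℝ} (z : ℂ) : HasFDerivAt (fun u : ℂ => ‖u‖ ^ 2 + c)
    ((2 * z.re) • Complex.reCLM + (2 * z.im) • Complex.imCLM) z := by
  have hre : HasFDerivAt (fun u : ℂ => u.re) Complex.reCLM z := Complex.reCLM.hasFDerivAt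
  have him : HasFDerivAt (fun u : ℂ => u.im) Complex.imCLM z := Complex.imCLM.hasFDerivAt
  simp only [PotF_sq]
  rw [two_mul, two_mul, add_smul, add_smul]
  exact ((hre.mul hre).add (him.mul him)).add_const c

theorem PotF_lap {c : ℝ} (hc : 0 < c) (z : ℂ) :
    Δ (fun u : ℂ => Real.log (‖u‖ ^ 2 + c) / 2) z = 2 * c / (‖z‖ ^ 2 + c) ^ 2 := by
  have hpos : ∀ u : ℂ, ‖u‖ ^ 2 + c ≠ 0 := fun u => by positivity
  have h1 : fderiv ℝ (fun u : ℂ => Real.log (‖u‖ ^ 2 + c) / 2) = fun u : ℂ =>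
      (‖u‖ ^ 2 + c)⁻¹ • (u.re • Complex.reCLM + u.im • Complex.imCLM) := by
    funext u
    simp only [div_eq_mul_inv]
    rw [(((PotF_der u).log (hpos u)).mul_const 2⁻¹).fderiv]
    ext v
    simp
    ring
  have hre : HasFDerivAt (fun u : ℂ => u.re) Complex.reCLM z := Complex.reCLM.hasFDerivAt
  have him : HasFDerivAt (fun u : ℂ => u.im) Complex.imCLM z := Complex.imCLM.hasFDerivAt
  have h2 := ((hasDerivAt_inv (hpos z)).comp_hasFDerivAt z (PotF_der z)).smul
    ((hre.smul_const Complex.reCLM).add (him.smul_const Complex.imCLM))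
  have h3 := HasFDerivAt.fderiv (f := fun u : ℂ =>
    (‖u‖ ^ 2 + c)⁻¹ • (u.re • Complex.reCLM + u.im • Complex.imCLM)) h2
  rw [laplacian_eq_iteratedFDeriv_complexPlane]
  simp only [iteratedFDeriv_two_apply]
  rw [h1, h3]
  have h4 := hpos z
  simp
  field_simp
  rw [PotF_sq]
  ring

theorem PotF_smooth {c : ℝ} (hc : 0 < c) :
    ContDiff ℝ ∞ fun u : ℂ => Real.log (‖u‖ ^ 2 + c) / 2 :=
  (((contDiff_norm_sq ℝ).add contDiff_const).log fun u => by positivity).div_const 2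

theorem PotF_mass : ∫ v : ℂ, 2 / (1 + ‖v‖ ^ 2) ^ 2 = 2 * Real.pi := by
  have h1 : ∫ y in Ioi (0 : ℝ), y * (2 / (1 + y ^ 2) ^ 2) = 0 - -(1 + (0 : ℝ) ^ 2)⁻¹ := by
    refine integral_Ioi_of_hasDerivAt_of_nonneg' (g := fun y : ℝ => -(1 + y ^ 2)⁻¹)
      (fun x _ => ?_) (fun x (hx : 0 < x) => by positivity) ?_
    · have h0 : (1 + x ^ 2) ≠ 0 := by positivity
      refine (((hasDerivAt_pow 2 x).const_add 1).inv h0).neg.congr_deriv ?_
      simp
      ring
    · rw [← neg_zero]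
      exact (tendsto_inv_atTop_zero.comp
        (tendsto_atTop_add_const_left _ 1 (tendsto_pow_atTop two_ne_zero))).neg
  rw [integral_fun_norm_addHaar volume fun r : ℝ => 2 / (1 + r ^ 2) ^ 2]
  simp only [Complex.finrank_real_complex, Nat.add_one_sub_one, pow_one, smul_eq_mul, h1]
  simp [Measure.real, Complex.volume_ball]

theorem PotF_int : Integrable fun v : ℂ => 2 / (1 + ‖v‖ ^ 2) ^ 2 := by
  refine ((integrable_rpow_neg_one_add_norm_sq (E := ℂ) (μ := volume) (r := 4)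
    (by rw [Complex.finrank_real_complex]; norm_num)).const_mul 2).congr
    (Eventually.of_forall fun v => ?_)
  have : (-4 / 2 : ℝ) = -(2 : ℕ) := by norm_num
  simp only [this]
  rw [Real.rpow_neg (by positivity), Real.rpow_natCast, div_eq_mul_inv]

theorem PotF_scale (F : ℂ → ℝ) {d : ℝ} (hd : 0 < d) :
    ∫ z : ℂ, F z * (2 * d ^ 2 / (‖z‖ ^ 2 + d ^ 2) ^ 2) =
      ∫ v : ℂ, F (d • v) * (2 / (1 + ‖v‖ ^ 2) ^ 2) := by
  have h := Measure.integral_comp_smul volume
    (fun z : ℂ => d ^ 2 * (F z * (2 * d ^ 2 / (‖z‖ ^ 2 + d ^ 2) ^ 2))) d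
  rw [Complex.finrank_real_complex, abs_of_pos (by positivity), smul_eq_mul,
    integral_const_mul (d ^ 2) fun z : ℂ => F z * (2 * d ^ 2 / (‖z‖ ^ 2 + d ^ 2) ^ 2),
    inv_mul_cancel_left₀ (by positivity)] at h
  rw [← h]
  refine integral_congr_ae (Eventually.of_forall fun v => ?_)
  simp only [norm_smul, Real.norm_eq_abs, abs_of_pos hd]
  field_simp
  ring

theorem fund_sol {F : ℂ → ℝ} (hF : ContDiff ℝ ∞ F) (hc : HasCompactSupport F) :
    ∫ u : ℂ, Real.log ‖u‖ * Δ F u = 2 * Real.pi * F 0 := by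
  have hd : ∀ n : ℕ, 0 < 1 / ((n : ℝ) + 1) := fun n => by positivity
  have hd1 : ∀ n : ℕ, (1 / ((n : ℝ) + 1)) ^ 2 ≤ 1 := fun n =>
    pow_le_one₀ (hd n).le ((div_le_one (by positivity)).2 (by simp))
  have hlim := tendsto_one_div_add_atTop_nhds_zero_nat (𝕜 := ℝ)
  have hL : Continuous (Δ F) :=
    continuous_iff_continuousAt.2 fun z => (lap_smoothAt hF.contDiffAt).continuousAt
  have hLc : HasCompactSupport (Δ F) :=
    IsCompact.of_isClosed_subset hc (isClosed_tsupport _) (tsupport_lap F)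
  have hne : ∀ᵐ u : ℂ, u ≠ 0 := by simp [ae_iff]
  have e : ∀ n : ℕ, ∫ u : ℂ, Real.log (‖u‖ ^ 2 + (1 / ((n : ℝ) + 1)) ^ 2) / 2 * Δ F u =
      ∫ v : ℂ, F ((1 / ((n : ℝ) + 1)) • v) * (2 / (1 + ‖v‖ ^ 2) ^ 2) := fun n => by
    rw [← PotF_scale F (hd n), ← green0 isOpen_univ hF hc (subset_univ _)
      (PotF_smooth (pow_pos (hd n) 2)).contDiffOn]
    simp only [PotF_lap (pow_pos (hd n) 2)]
  have hA : Tendsto (fun n : ℕ =>
      ∫ u : ℂ, Real.log (‖u‖ ^ 2 + (1 / ((n : ℝ) + 1)) ^ 2) / 2 * Δ F u) atTop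
      (𝓝 (∫ u : ℂ, Real.log ‖u‖ * Δ F u)) := by
    refine tendsto_integral_of_dominated_convergence
      (fun u => (‖Real.log ‖u‖‖ + Real.log (‖u‖ ^ 2 + 1) / 2) * ‖Δ F u‖)
      (fun n => ((PotF_smooth (pow_pos (hd n) 2)).continuous.mul hL).aestronglyMeasurable) ?_
      (fun n => ?_) ?_
    · have h1 : LocallyIntegrable fun u : ℂ => ‖Real.log ‖u‖‖ + Real.log (‖u‖ ^ 2 + 1) / 2 :=
        LocallyIntegrable.add (fun x => (locInt_log x).norm)
          (PotF_smooth one_pos).continuous.locallyIntegrable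
      exact h1.integrable_smul_right_of_hasCompactSupport hL.norm hLc.norm
    · filter_upwards [hne] with u hu
      rw [norm_mul]
      refine mul_le_mul_of_nonneg_right ?_ (norm_nonneg _)
      have h0 : 0 < ‖u‖ ^ 2 := by positivity
      have h1 := Real.log_le_log h0 (le_add_of_nonneg_right (pow_pos (hd n) 2).le)
      have h2 := Real.log_le_log (add_pos h0 (pow_pos (hd n) 2)) (add_le_add_right (hd1 n) _)
      have h3 : 0 ≤ Real.log (‖u‖ ^ 2 + 1) := Real.log_nonneg (by linarith)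
      rw [Real.log_pow] at h1
      have h4 := neg_abs_le (Real.log ‖u‖)
      have h5 := abs_nonneg (Real.log ‖u‖)
      rw [Real.norm_eq_abs, Real.norm_eq_abs, abs_le]
      push_cast at h1
      constructor <;> linarith
    · filter_upwards [hne] with u hu
      refine Tendsto.mul_const _ ?_
      have h0 : ‖u‖ ^ 2 + (0 : ℝ) ^ 2 ≠ 0 := by positivity
      convert (((hlim.pow 2).const_add (‖u‖ ^ 2)).log h0).div_const 2 using 2
      simp
  have hB : Tendsto (fun n : ℕ =>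
      ∫ v : ℂ, F ((1 / ((n : ℝ) + 1)) • v) * (2 / (1 + ‖v‖ ^ 2) ^ 2)) atTop
      (𝓝 (∫ v : ℂ, F 0 * (2 / (1 + ‖v‖ ^ 2) ^ 2))) := by
    obtain ⟨C, hC⟩ := hc.exists_bound_of_continuous hF.continuous
    refine tendsto_integral_of_dominated_convergence (fun v => C * (2 / (1 + ‖v‖ ^ 2) ^ 2))
      (fun n => ((hF.continuous.comp (continuous_const_smul _)).aestronglyMeasurable).mul
        PotF_int.aestronglyMeasurable) (PotF_int.const_mul C)
      (fun n => Eventually.of_forall fun v => ?_) (Eventually.of_forall fun v => ?_)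
    · rw [norm_mul, Real.norm_of_nonneg (by positivity : (0 : ℝ) ≤ 2 / (1 + ‖v‖ ^ 2) ^ 2)]
      exact mul_le_mul_of_nonneg_right (hC _) (by positivity)
    · refine Tendsto.mul_const _ ((hF.continuous.tendsto 0).comp ?_)
      simpa using hlim.smul_const v
  rw [integral_const_mul, PotF_mass, mul_comm] at hB
  exact tendsto_nhds_unique hA (hB.congr fun n => (e n).symm)

end Pool.Agent.MP_4f0ed6_gt
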