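import Pool.Agent.MP_4f0ed6_gt.PotI
import Pool.Agent.MP_4f0ed6_gt.Calc

open Set Laplacian Filter Topology MeasureTheory Metric InnerProductSpace
open scoped ContDiff

namespace Pool.Agent.MP_4f0ed6_gt

theorem PotH_slit {u w : ℂ} (hu : ‖u‖ ≤ 2) (hw : ‖w‖ < 1 / 2) : 1 - u * w ∈ Complex.slitPlane := by
  rw [sub_eq_add_neg]
  apply Complex.mem_slitPlane_of_norm_lt_one
  rw [norm_neg, norm_mul]
  nlinarith [norm_nonneg u, norm_nonneg w]

theorem PotH_int {g : ℂ → ℝ} (hg : Continuous g) (hs : ∀ u, g u ≠ 0 → ‖u‖ < 2) {w : ℂ}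
    (hw : ‖w‖ < 1 / 2) : Integrable fun u : ℂ => Complex.log (1 - u * w) * (g u : ℂ) := by
  have hsub : Function.support (fun u : ℂ => Complex.log (1 - u * w) * (g u : ℂ)) ⊆
      closedBall 0 2 := by
    intro u hu
    have : g u ≠ 0 := fun h => hu (by simp [h])
    simpa using (hs u this).le
  rw [← integrableOn_iff_integrable_of_support_subset hsub]
  refine ContinuousOn.integrableOn_compact (isCompact_closedBall 0 2) ?_
  refine ContinuousOn.mul (ContinuousOn.clog (by fun_prop) fun u hu => ?_) (by fun_prop)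
  exact PotH_slit (by simpa using hu) hw

theorem PotH_diff {g : ℂ → ℝ} (hg : Continuous g) (hs : ∀ u, g u ≠ 0 → ‖u‖ < 2) {w : ℂ}
    (hw : ‖w‖ < 1 / 2) :
    DifferentiableAt ℂ (fun x : ℂ => ∫ u : ℂ, Complex.log (1 - u * x) * (g u : ℂ)) w := by
  obtain ⟨ε, hε, hε'⟩ : ∃ ε : ℝ, 0 < ε ∧ ‖w‖ + 2 * ε = 1 / 2 :=
    ⟨(1 / 2 - ‖w‖) / 2, by linarith, by ring⟩
  have hx : ∀ x ∈ ball w ε, ‖x‖ < 1 / 2 - ε := by
    intro x hx
    have h1 : ‖x - w‖ < ε := by simpa [dist_eq_norm] using hx
    have h2 : ‖x‖ ≤ ‖w‖ + ‖x - w‖ := by simpa using norm_add_le w (x - w)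
    linarith
  have hc : HasCompactSupport g :=
    HasCompactSupport.intro (isCompact_closedBall 0 2) fun u hu => by
      by_contra h
      exact hu (by simpa using (hs u h).le)
  have hm : Measurable fun u : ℂ => (g u : ℂ) :=
    (Complex.continuous_ofReal.comp hg).measurable
  refine (hasDerivAt_integral_of_dominated_loc_of_deriv_le (μ := volume)
    (F := fun x u : ℂ => Complex.log (1 - u * x) * (g u : ℂ))
    (F' := fun x u : ℂ => -u / (1 - u * x) * (g u : ℂ)) (bound := fun u => ε⁻¹ * ‖g u‖)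
    (ball_mem_nhds w hε) (Eventually.of_forall fun x => ?_) (PotH_int hg hs hw) ?_
    (Eventually.of_forall fun u x hxu => ?_) ((hg.integrable_of_hasCompactSupport hc).norm.const_mul _)
    (Eventually.of_forall fun u x hxu => ?_)).2.differentiableAt
  · exact ((Measurable.clog (by fun_prop)).mul hm).aestronglyMeasurable
  · exact (Measurable.mul (by fun_prop) hm).aestronglyMeasurable
  · by_cases h : g u = 0
    · simp [h]
    · have hu := hs u h
      have h1 := hx x hxu
      have h2 : 2 * ε ≤ ‖1 - u * x‖ := by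
        have := norm_sub_norm_le (1 : ℂ) (u * x)
        rw [norm_one, norm_mul] at this
        nlinarith [norm_nonneg u, norm_nonneg x]
      rw [norm_mul, norm_div, norm_neg, Complex.norm_real]
      refine mul_le_mul_of_nonneg_right ?_ (norm_nonneg _)
      rw [div_le_iff₀ (by linarith), ← div_eq_inv_mul, le_div_iff₀ hε]
      nlinarith
  · by_cases h : g u = 0
    · simpa [h] using hasDerivAt_const x (0 : ℂ)
    · have h1 : HasDerivAt (fun y : ℂ => 1 - u * y) (-u) x := by
        simpa using ((hasDerivAt_id x).const_mul u).const_sub 1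
      exact (h1.clog (PotH_slit (hs u h).le (by linarith [hx x hxu]))).mul_const _

theorem NQ_near {g : ℂ → ℝ} (hg : Continuous g) (hs : ∀ u, g u ≠ 0 → ‖u‖ < 2) {w : ℂ}
    (hw : ‖w‖ < 1 / 2) : ContDiffAt ℝ ∞ (NQ g) w ∧ Δ (NQ g) w = 0 := by
  have hb : ball (0 : ℂ) (1 / 2) ∈ 𝓝 w := isOpen_ball.mem_nhds (by simpa using hw)
  have ha : AnalyticAt ℂ (fun x : ℂ => ∫ u : ℂ, Complex.log (1 - u * x) * (g u : ℂ)) w :=
    DifferentiableOn.analyticAt
      (fun x hx => (PotH_diff hg hs (by simpa using hx)).differentiableWithinAt) hb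
  have he : NQ g =ᶠ[𝓝 w]
      fun x : ℂ => (∫ u : ℂ, Complex.log (1 - u * x) * (g u : ℂ)).re := by
    filter_upwards [hb] with x hx
    have := integral_re (PotH_int hg hs (w := x) (by simpa using hx))
    simp only [RCLike.re_to_complex, Complex.mul_re, Complex.ofReal_re, Complex.ofReal_im,
      mul_zero, sub_zero, Complex.log_re] at this
    exact this
  refine ⟨ContDiffAt.congr_of_eventuallyEq ?_ he, ?_⟩
  · exact Complex.reCLM.contDiff.contDiffAt.comp w (analytic_real_smooth ha ∞)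
  · rw [lap_congr he]
    exact ha.harmonicAt_re.2.self_of_nhds

end Pool.Agent.MP_4f0ed6_gt
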