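import Pool.Agent.MP_4f0ed6_gt.PDefs

open Set Laplacian Filter Topology MeasureTheory Metric InnerProductSpace
open scoped ContDiff

namespace Pool.Agent.MP_4f0ed6_gt

theorem PotI_inv : LocallyIntegrable (fun u : ℂ => ‖u‖⁻¹) := by
  refine locallyIntegrable_of_norm_le_rpow (C := 1) (α := 1) (by simp) (by simp)
    (Eventually.of_forall fun u => ?_) measurable_norm.inv.aestronglyMeasurable
  rw [Real.rpow_neg_one, one_mul, norm_inv, norm_norm]

theorem PotI_ae (g : ℂ → ℝ) {w : ℂ} (hw : w ≠ 0) :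
    (fun u => Real.log ‖1 - u * w‖ * g u) =ᵐ[volume]
      fun u => Real.log ‖w⁻¹ - u‖ * g u + Real.log ‖w‖ * g u := by
  have h0 : ∀ᵐ u : ℂ, u ≠ w⁻¹ := by
    simp [ae_iff]
  filter_upwards [h0] with u hu
  have e : 1 - u * w = (w⁻¹ - u) * w := by field_simp
  rw [e, norm_mul, Real.log_mul (norm_ne_zero_iff.mpr (sub_ne_zero.mpr hu.symm))
    (norm_ne_zero_iff.mpr hw), add_mul]

theorem PotI_kk (g : ℂ → ℝ) (w u : ℂ) :
    kk w u * g u = Real.log ‖w - u‖ * g u - Real.log ‖-w - u‖ * g u := by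
  rw [kk, sub_mul, ← norm_neg (-w - u), neg_sub, sub_neg_eq_add, add_comm]

theorem locInt_log : LocallyIntegrable (fun u : ℂ => Real.log ‖u‖) := by
  have h1 : LocallyIntegrable (fun u : ℂ => ‖u‖ + ‖u‖⁻¹) :=
    continuous_norm.locallyIntegrable.add PotI_inv
  refine h1.mono (measurable_norm.log.aestronglyMeasurable) (Eventually.of_forall fun u => ?_)
  have h0 := norm_nonneg u
  have h2 : 0 ≤ ‖u‖⁻¹ := inv_nonneg.mpr h0
  rw [Real.norm_eq_abs, Real.norm_eq_abs, abs_of_nonneg (add_nonneg h0 h2), abs_le]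
  constructor
  · have := Real.log_le_self h2
    rw [Real.log_inv] at this
    linarith
  · have := Real.log_le_self h0
    linarith

theorem locInt_inv : LocallyIntegrable (fun u : ℂ => ‖u‖⁻¹) := by
  exact PotI_inv

theorem integrable_np {g : ℂ → ℝ} (hg : Continuous g) (hc : HasCompactSupport g) (w : ℂ) :
    Integrable fun u => Real.log ‖w - u‖ * g u := by
  have hg' : Continuous fun u => g (w - u) := hg.comp (continuous_const.sub continuous_id)
  have hc' : HasCompactSupport fun u => g (w - u) :=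
    hc.comp_homeomorph (Homeomorph.subLeft w)
  have h1 := locInt_log.integrable_smul_right_of_hasCompactSupport hg' hc'
  have h2 := h1.comp_sub_left w
  simpa using h2

theorem integrable_nq {g : ℂ → ℝ} (hg : Continuous g) (hc : HasCompactSupport g) (w : ℂ) :
    Integrable fun u => Real.log ‖1 - u * w‖ * g u := by
  by_cases hw : w = 0
  · subst hw; simp
  · refine Integrable.congr ?_ (PotI_ae g hw).symm
    exact (integrable_np hg hc w⁻¹).add ((hg.integrable_of_hasCompactSupport hc).const_mul _)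

theorem integrable_kk {g : ℂ → ℝ} (hg : Continuous g) (hc : HasCompactSupport g) (w : ℂ) :
    Integrable fun u => kk w u * g u := by
  refine Integrable.congr ((integrable_np hg hc w).sub (integrable_np hg hc (-w)))
    (Eventually.of_forall fun u => ?_)
  exact (PotI_kk g w u).symm

theorem NP_add {g g' : ℂ → ℝ} (hg : Continuous g) (hc : HasCompactSupport g)
    (hg' : Continuous g') (hc' : HasCompactSupport g') (w : ℂ) :
    NP (fun u => g u + g' u) w = NP g w + NP g' w := by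
  simp only [NP, mul_add]
  exact integral_add (integrable_np hg hc w) (integrable_np hg' hc' w)

theorem NP_sub {g g' : ℂ → ℝ} (hg : Continuous g) (hc : HasCompactSupport g)
    (hg' : Continuous g') (hc' : HasCompactSupport g') (w : ℂ) :
    NP (fun u => g u - g' u) w = NP g w - NP g' w := by
  simp only [NP, mul_sub]
  exact integral_sub (integrable_np hg hc w) (integrable_np hg' hc' w)

theorem NQ_sub {g g' : ℂ → ℝ} (hg : Continuous g) (hc : HasCompactSupport g)
    (hg' : Continuous g') (hc' : HasCompactSupport g') (w : ℂ) :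
    NQ (fun u => g u - g' u) w = NQ g w - NQ g' w := by
  simp only [NQ, mul_sub]
  exact integral_sub (integrable_nq hg hc w) (integrable_nq hg' hc' w)

theorem NQ_eq {g : ℂ → ℝ} (hg : Continuous g) (hc : HasCompactSupport g) {w : ℂ} (hw : w ≠ 0) :
    NQ g w = NP g w⁻¹ + Real.log ‖w‖ * ∫ u, g u := by
  rw [NQ, integral_congr_ae (PotI_ae g hw), integral_add (integrable_np hg hc w⁻¹)
    ((hg.integrable_of_hasCompactSupport hc).const_mul _), integral_const_mul, NP]

theorem integral_kk {g : ℂ → ℝ} (hg : Continuous g) (hc : HasCompactSupport g) (w : ℂ) :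
    ∫ u, kk w u * g u = NP g w - NP g (-w) := by
  simp only [PotI_kk]
  exact integral_sub (integrable_np hg hc w) (integrable_np hg hc (-w))

theorem kk_comm (w c : ℂ) : kk w c = kk c w := by
  rw [kk, kk, norm_sub_rev, add_comm]

theorem kk_neg (w c : ℂ) : kk w (-c) = -kk w c := by
  rw [kk, kk, sub_neg_eq_add, ← sub_eq_add_neg]
  ring

theorem kk_smul {ρ : ℝ} (hρ : 0 < ρ) {w c : ℂ} (h1 : w - c ≠ 0) (h2 : w + c ≠ 0) :
    kk (ρ * w) (ρ * c) = kk w c := by
  have hρ' : ‖(ρ : ℂ)‖ ≠ 0 := by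
    rw [Complex.norm_real, Real.norm_eq_abs]; exact abs_ne_zero.mpr hρ.ne'
  rw [kk, kk, ← mul_sub, ← mul_add, norm_mul, norm_mul, Real.log_mul hρ' (norm_ne_zero_iff.mpr h1),
    Real.log_mul hρ' (norm_ne_zero_iff.mpr h2)]
  ring

theorem kk_perp (a b : ℝ) : kk (a : ℂ) (b * Complex.I) = 0 := by
  have : ‖(a : ℂ) - b * Complex.I‖ = ‖(a : ℂ) + b * Complex.I‖ := by
    rw [← Complex.norm_conj]
    simp
  rw [kk, this, sub_self]

theorem kk_small {w c : ℂ} {t : ℝ} (ht : t ≤ 1 / 2) (hw : w ≠ 0) (h : ‖c‖ ≤ t * ‖w‖) :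
    |kk w c| ≤ 4 * t := by
  have hw' : 0 < ‖w‖ := norm_pos_iff.mpr hw
  have ht0 : 0 ≤ t := by
    by_contra h0
    have := mul_neg_of_neg_of_pos (not_le.mp h0) hw'
    linarith [norm_nonneg c]
  have key : ∀ x y : ℝ, (1 - t) * ‖w‖ ≤ x → x ≤ (1 + t) * ‖w‖ → (1 - t) * ‖w‖ ≤ y →
      Real.log x - Real.log y ≤ 4 * t := by
    intro x y hx1 hx2 hy
    have hp : 0 < (1 - t) * ‖w‖ := mul_pos (by linarith) hw'
    have hx : 0 < x := hp.trans_le hx1
    have hy' : 0 < y := hp.trans_le hy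
    rw [← Real.log_div hx.ne' hy'.ne']
    refine (Real.log_le_sub_one_of_pos (div_pos hx hy')).trans ?_
    rw [sub_le_iff_le_add, div_le_iff₀ hy']
    have h3 : (1 + t) * ‖w‖ ≤ (4 * t + 1) * ((1 - t) * ‖w‖) := by
      have : 0 ≤ t * (1 - 2 * t) * ‖w‖ := mul_nonneg (mul_nonneg ht0 (by linarith)) hw'.le
      nlinarith
    have h4 : (4 * t + 1) * ((1 - t) * ‖w‖) ≤ (4 * t + 1) * y :=
      mul_le_mul_of_nonneg_left hy (by linarith)
    linarith
  have a1 : (1 - t) * ‖w‖ ≤ ‖w - c‖ := by linarith [norm_sub_norm_le w c]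
  have a2 : ‖w - c‖ ≤ (1 + t) * ‖w‖ := by linarith [norm_sub_le w c]
  have a3 : (1 - t) * ‖w‖ ≤ ‖w + c‖ := by
    have := norm_sub_norm_le w (-c)
    rw [norm_neg, sub_neg_eq_add] at this
    linarith
  have a4 : ‖w + c‖ ≤ (1 + t) * ‖w‖ := by linarith [norm_add_le w c]
  rw [kk, abs_le]
  exact ⟨by linarith [key _ _ a3 a4 a1], key _ _ a1 a2 a3⟩

end Pool.Agent.MP_4f0ed6_gt
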