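import Pool.Agent.MP_4f0ed6_gt.SDefs

open Set Laplacian Filter Topology MeasureTheory Metric InnerProductSpace
open scoped ContDiff

namespace Pool.Agent.MP_4f0ed6_gt

/-- the real character attached to a functional -/
noncomputable def chr {G : Type} [AddCommGroup G] [Module (ZMod 2) G] (f : Module.Dual (ZMod 2) G)
    (x : G) : ℝ := if f x = 0 then 1 else -1

variable {G T : Type} [AddCommGroup G] [Module (ZMod 2) G] [Fintype G] [Fintype T]

/-- the eigenvalue of the character -/
noncomputable def eig (γ : T → G) (f : Module.Dual (ZMod 2) G) : ℝ :=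
  ∑ t, if f (γ t) = 0 then 0 else 4

theorem RS1_sgn (a b : ZMod 2) : (if a + b = 0 then (1 : ℝ) else -1) =
    (if a = 0 then (1 : ℝ) else -1) * (if b = 0 then (1 : ℝ) else -1) := by
  have h : ∀ c : ZMod 2, c = 0 ∨ c = 1 := by decide
  have h11 : (1 : ZMod 2) + 1 = 0 := by decide
  have h10 : (1 : ZMod 2) ≠ 0 := by decide
  rcases h a with rfl | rfl <;> rcases h b with rfl | rfl <;> simp [h11, h10]

omit [Fintype G] in
theorem RS1_add (f : Module.Dual (ZMod 2) G) (x y : G) : chr f (x + y) = chr f x * chr f y := by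
  unfold chr
  rw [map_add, RS1_sgn]

omit [Fintype G] in
theorem RS1_add' (f g : Module.Dual (ZMod 2) G) (x : G) : chr (f + g) x = chr f x * chr g x := by
  unfold chr
  rw [LinearMap.add_apply, RS1_sgn]

omit [Fintype G] in
theorem RS1_self (y : G) : y + y = 0 := by
  have h : (2 : ZMod 2) = 0 := by decide
  rw [← two_smul (ZMod 2) y, h, zero_smul]

omit [Fintype G] in
theorem RS1_symm (y v : G) : (Equiv.addRight y).symm v = v + y := by
  have : -y = y := neg_eq_of_add_eq_zero_left (RS1_self y)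
  simp [this]

omit [Fintype G] in
theorem RS1_zero (x : G) : chr (0 : Module.Dual (ZMod 2) G) x = 1 := by simp [chr]

omit [Fintype G] in
theorem RS1_zero' (f : Module.Dual (ZMod 2) G) : chr f 0 = 1 := by simp [chr]

theorem RS1_shift (w : G → ℝ) (y : G) : ∑ x, w (x + y) = ∑ x, w x :=
  Fintype.sum_equiv (Equiv.addRight y) _ _ fun _ => rfl

theorem RS1_sum_x {f : Module.Dual (ZMod 2) G} (hf : f ≠ 0) : ∑ x, chr f x = 0 := by
  obtain ⟨y, hy⟩ : ∃ y, f y ≠ 0 := by
    by_contra h
    push Not at h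
    exact hf (LinearMap.ext h)
  have h1 := RS1_shift (chr f) y
  have h2 : chr f y = -1 := by simp [chr, hy]
  simp only [RS1_add, h2, mul_neg, mul_one, Finset.sum_neg_distrib] at h1
  linarith

omit [Fintype G] in
theorem RS1_sum_f [Fintype (Module.Dual (ZMod 2) G)] {x : G} (hx : x ≠ 0) :
    ∑ f : Module.Dual (ZMod 2) G, chr f x = 0 := by
  haveI : Fact (Nat.Prime 2) := ⟨Nat.prime_two⟩
  obtain ⟨g, hg⟩ : ∃ g : Module.Dual (ZMod 2) G, g x ≠ 0 := by
    by_contra h
    push Not at h
    exact hx ((Module.forall_dual_apply_eq_zero_iff (ZMod 2) x).1 h)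
  have h1 : ∑ f : Module.Dual (ZMod 2) G, chr (f + g) x = ∑ f : Module.Dual (ZMod 2) G, chr f x :=
    Fintype.sum_equiv (Equiv.addRight g) _ _ fun _ => rfl
  have h2 : chr g x = -1 := by simp [chr, hg]
  simp only [RS1_add', h2, mul_neg, mul_one, Finset.sum_neg_distrib] at h1
  linarith

theorem RS1_card [Fintype (Module.Dual (ZMod 2) G)] :
    (Fintype.card (Module.Dual (ZMod 2) G) : ℝ) = Fintype.card G := by
  classical
  have h1 : ∑ f : Module.Dual (ZMod 2) G, ∑ x, chr f x = Fintype.card G := by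
    rw [Finset.sum_eq_single (0 : Module.Dual (ZMod 2) G)]
    · simp [RS1_zero]
    · intro f _ hf
      exact RS1_sum_x hf
    · simp
  have h2 : ∑ x : G, ∑ f : Module.Dual (ZMod 2) G, chr f x =
      Fintype.card (Module.Dual (ZMod 2) G) := by
    rw [Finset.sum_eq_single (0 : G)]
    · simp [RS1_zero']
    · intro x _ hx
      exact RS1_sum_f hx
    · simp
  rw [← h1, ← h2, Finset.sum_comm]

/-- the transform -/
noncomputable def RS1_ft (u : G → ℝ) (f : Module.Dual (ZMod 2) G) : ℝ := ∑ x, u x * chr f x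

theorem RS1_parseval [Fintype (Module.Dual (ZMod 2) G)] (u w : G → ℝ) :
    ∑ f : Module.Dual (ZMod 2) G, RS1_ft u f * RS1_ft w f =
      Fintype.card G * ∑ x, u x * w x := by
  classical
  have h1 : ∀ f : Module.Dual (ZMod 2) G, RS1_ft u f * RS1_ft w f =
      ∑ x, ∑ y, u x * w y * chr f (x + y) := by
    intro f
    unfold RS1_ft
    rw [Finset.sum_mul_sum]
    refine Finset.sum_congr rfl fun x _ => Finset.sum_congr rfl fun y _ => ?_
    rw [RS1_add]; ring
  simp only [h1]
  rw [Finset.sum_comm, Finset.mul_sum]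
  refine Finset.sum_congr rfl fun x _ => ?_
  rw [Finset.sum_comm, Finset.sum_eq_single x]
  · rw [RS1_self, ← Finset.mul_sum]
    simp only [RS1_zero', Finset.sum_const, Finset.card_univ, nsmul_eq_mul, mul_one]
    rw [RS1_card]; ring
  · intro y _ hy
    have : x + y ≠ 0 := fun h => hy (by
      have h2 : x + y + y = 0 + y := by rw [h]
      rw [add_assoc, RS1_self, add_zero, zero_add] at h2
      exact h2.symm)
    rw [← Finset.mul_sum, RS1_sum_f this, mul_zero]
  · simp

omit [Fintype G] in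
theorem RS1_lap (γ : T → G) (u : G → ℝ) (x : G) :
    Lap (fun t => Equiv.addRight (γ t)) u x = ∑ t, (2 * u x - 2 * u (x + γ t)) := by
  unfold Lap
  refine Finset.sum_congr rfl fun t _ => ?_
  rw [RS1_symm, Equiv.coe_addRight]
  ring

theorem RS1_ft_shift (u : G → ℝ) (y : G) (f : Module.Dual (ZMod 2) G) :
    ∑ x, u (x + y) * chr f x = chr f y * RS1_ft u f := by
  unfold RS1_ft
  rw [← RS1_shift (fun x => u (x + y) * chr f x) y, Finset.mul_sum]
  refine Finset.sum_congr rfl fun x _ => ?_
  rw [add_assoc, RS1_self, add_zero, RS1_add]; ring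

theorem RS1_ft_lap (γ : T → G) (u : G → ℝ) (f : Module.Dual (ZMod 2) G) :
    RS1_ft (Lap (fun t => Equiv.addRight (γ t)) u) f = eig γ f * RS1_ft u f := by
  have h1 : RS1_ft (Lap (fun t => Equiv.addRight (γ t)) u) f =
      ∑ x, ∑ t, (2 * (u x * chr f x) - 2 * (u (x + γ t) * chr f x)) := by
    unfold RS1_ft
    refine Finset.sum_congr rfl fun x _ => ?_
    rw [RS1_lap, Finset.sum_mul]
    refine Finset.sum_congr rfl fun t _ => by ring
  rw [h1, Finset.sum_comm, eig, Finset.sum_mul]
  refine Finset.sum_congr rfl fun t _ => ?_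
  rw [Finset.sum_sub_distrib, ← Finset.mul_sum, ← Finset.mul_sum, RS1_ft_shift]
  change 2 * RS1_ft u f - _ = _
  unfold chr
  split_ifs <;> ring

theorem lap_chr (γ : T → G) (f : Module.Dual (ZMod 2) G) (x : G) :
    Lap (fun t => Equiv.addRight (γ t)) (chr f) x = eig γ f * chr f x := by
  rw [RS1_lap, eig, Finset.sum_mul]
  refine Finset.sum_congr rfl fun t _ => ?_
  rw [RS1_add]
  have : chr f (γ t) = if f (γ t) = 0 then 1 else -1 := rfl
  rw [this]
  split_ifs <;> ring

theorem chr_indep : LinearIndependent ℝ fun f : Module.Dual (ZMod 2) G => chr f := by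
  classical
  rw [linearIndependent_iff']
  intro s c hc g hg
  have h1 : ∑ x, (∑ f ∈ s, c f • chr f) x * chr g x = 0 := by rw [hc]; simp
  have h2 : ∑ x, (∑ f ∈ s, c f • chr f) x * chr g x = ∑ f ∈ s, c f * ∑ x, chr (f + g) x := by
    simp only [Finset.sum_apply, Pi.smul_apply, smul_eq_mul, Finset.sum_mul, Finset.mul_sum]
    rw [Finset.sum_comm]
    refine Finset.sum_congr rfl fun f _ => Finset.sum_congr rfl fun x _ => ?_
    rw [RS1_add']; ring
  have hgg : g + g = 0 := RS1_self g
  rw [h2, Finset.sum_eq_single g] at h1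
  · rw [hgg] at h1
    simp only [RS1_zero, Finset.sum_const, Finset.card_univ, nsmul_eq_mul, mul_one] at h1
    have : (Fintype.card G : ℝ) ≠ 0 := by exact_mod_cast Fintype.card_ne_zero
    exact (mul_eq_zero.1 h1).resolve_right this
  · intro f _ hf
    have : f + g ≠ 0 := fun h => hf (by
      have h2 : f + g + g = 0 + g := by rw [h]
      rwa [add_assoc, hgg, add_zero, zero_add] at h2)
    rw [RS1_sum_x this, mul_zero]
  · intro h
    exact absurd hg h

theorem lap_odd (γ : T → G) (z : G) {θ : ℝ} (h : ∀ f, f z ≠ 0 → θ ≤ eig γ f) (u : G → ℝ)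
    (hu : ∀ x, u (x + z) = -u x) :
    θ * ∑ x, u x ^ 2 ≤ ∑ x, u x * Lap (fun t => Equiv.addRight (γ t)) u x := by
  haveI : Finite (Module.Dual (ZMod 2) G) := DFunLike.finite _
  haveI : Fintype (Module.Dual (ZMod 2) G) := Fintype.ofFinite _
  have hn : (0 : ℝ) < Fintype.card G := by exact_mod_cast Fintype.card_pos
  have h1 := RS1_parseval u u
  have h2 := RS1_parseval u (Lap (fun t => Equiv.addRight (γ t)) u)
  refine le_of_mul_le_mul_left ?_ hn
  simp only [sq]
  rw [← h2, mul_left_comm, ← h1, Finset.mul_sum]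
  refine Finset.sum_le_sum fun f _ => ?_
  rw [RS1_ft_lap]
  by_cases hf : f z = 0
  · have h3 := RS1_ft_shift u z f
    have h4 : chr f z = 1 := by simp [chr, hf]
    simp only [hu, h4, neg_mul, Finset.sum_neg_distrib, one_mul] at h3
    have h5 : RS1_ft u f = 0 := by
      change -RS1_ft u f = _ at h3
      linarith
    simp [h5]
  · have := h f hf
    nlinarith [mul_self_nonneg (RS1_ft u f)]

theorem lap_even (γ : T → G) (z : G) {θ : ℝ} (h : ∀ f, f ≠ 0 → f z = 0 → θ ≤ eig γ f)
    (u : G → ℝ) (hu : ∀ x, u (x + z) = u x) :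
    θ * (∑ x, u x ^ 2 - (∑ x, u x) ^ 2 / Fintype.card G) ≤
      ∑ x, u x * Lap (fun t => Equiv.addRight (γ t)) u x := by
  classical
  haveI : Finite (Module.Dual (ZMod 2) G) := DFunLike.finite _
  haveI : Fintype (Module.Dual (ZMod 2) G) := Fintype.ofFinite _
  have hn : (0 : ℝ) < Fintype.card G := by exact_mod_cast Fintype.card_pos
  have h1 := RS1_parseval u u
  have h2 := RS1_parseval u (Lap (fun t => Equiv.addRight (γ t)) u)
  have h0 : RS1_ft u 0 = ∑ x, u x := by simp [RS1_ft, RS1_zero]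
  have he : eig γ 0 = 0 := by simp [eig]
  refine le_of_mul_le_mul_left ?_ hn
  have h3 : (Fintype.card G : ℝ) * (θ * (∑ x, u x ^ 2 - (∑ x, u x) ^ 2 / Fintype.card G)) =
      ∑ f ∈ Finset.univ.erase (0 : Module.Dual (ZMod 2) G), θ * (RS1_ft u f * RS1_ft u f) := by
    rw [← Finset.mul_sum, Finset.sum_erase_eq_sub (Finset.mem_univ _), h1, h0]
    simp only [sq]
    field_simp
  rw [h3, ← h2, ← Finset.add_sum_erase _ _ (Finset.mem_univ (0 : Module.Dual (ZMod 2) G)),
    RS1_ft_lap, he, zero_mul, mul_zero, zero_add]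
  refine Finset.sum_le_sum fun f hf0 => ?_
  rw [RS1_ft_lap]
  by_cases hf : f z = 0
  · have := h f (Finset.ne_of_mem_erase hf0) hf
    nlinarith [mul_self_nonneg (RS1_ft u f)]
  · have h3 := RS1_ft_shift u z f
    have h4 : chr f z = -1 := by simp [chr, hf]
    simp only [hu, h4, neg_mul, one_mul] at h3
    have h5 : RS1_ft u f = 0 := by
      change RS1_ft u f = _ at h3
      linarith
    simp [h5]

end Pool.Agent.MP_4f0ed6_gt
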