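import Pool.Agent.MP_4f0ed6_gt.RS1

open Set Laplacian Filter Topology MeasureTheory Metric InnerProductSpace
open scoped ContDiff

namespace Pool.Agent.MP_4f0ed6_gt

section RS2aux

variable {F : Type} [Field F] [Algebra (ZMod 2) F] [Fintype F]

/-- evaluation of the polynomial with coefficient vector `g` at `x` -/
noncomputable def RS2ev (m : ℕ) (x : F) : (Fin m → F) →ₗ[ZMod 2] F where
  toFun g := ∑ i, g i * x ^ (i : ℕ)
  map_add' g h := by simp [add_mul, Finset.sum_add_distrib]
  map_smul' c g := by simp [Finset.smul_sum]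

/-- the generators -/
noncomputable def RS2gam (m : ℕ) (t : F × {l : Module.Dual (ZMod 2) F // l ≠ 0}) :
    Module.Dual (ZMod 2) (Fin m → F) × ZMod 2 :=
  (t.2.1 ∘ₗ RS2ev m t.1, t.2.1 (t.1 ^ m))

/-- the functional attached to a coefficient vector and a leading coefficient -/
noncomputable def RS2fun (m : ℕ) (g : Fin m → F) (c : ZMod 2) :
    Module.Dual (ZMod 2) (Module.Dual (ZMod 2) (Fin m → F) × ZMod 2) where
  toFun p := p.1 g + p.2 * c
  map_add' p p' := by simp [add_mul]; ring
  map_smul' a p := by simp [mul_add, mul_assoc]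

omit [Fintype F] in
lemma RS2fun_apply (m : ℕ) (g : Fin m → F) (c : ZMod 2)
    (p : Module.Dual (ZMod 2) (Fin m → F) × ZMod 2) : RS2fun m g c p = p.1 g + p.2 * c := rfl

lemma RS2_exists (m : ℕ) (f : Module.Dual (ZMod 2) (Module.Dual (ZMod 2) (Fin m → F) × ZMod 2)) :
    ∃ g : Fin m → F, f = RS2fun m g (f (0, 1)) := by
  have : Module.Finite (ZMod 2) F := Module.Finite.of_finite
  obtain ⟨g, hg⟩ := (Module.evalEquiv (ZMod 2) (Fin m → F)).surjective
    (f ∘ₗ LinearMap.inl (ZMod 2) _ _)
  refine ⟨g, ?_⟩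
  apply LinearMap.ext
  rintro ⟨ξ, a⟩
  have h1 : ξ g = f (ξ, 0) := by
    have := congrArg (fun φ => φ ξ) hg
    simpa using this
  have h2 : ((ξ, a) : Module.Dual (ZMod 2) (Fin m → F) × ZMod 2) = (ξ, 0) + a • (0, 1) := by
    simp
  rw [RS2fun_apply, h2, map_add, map_smul]
  simp [h1]

omit [Fintype F] in
lemma RS2fun_gam (m : ℕ) (g : Fin m → F) (c : ZMod 2)
    (t : F × {l : Module.Dual (ZMod 2) F // l ≠ 0}) :
    RS2fun m g c (RS2gam m t) = t.2.1 (RS2ev m t.1 g + c • t.1 ^ m) := by
  rw [RS2fun_apply, map_add, map_smul]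
  simp [RS2gam, mul_comm]

lemma RS2_card_dual [Fintype (Module.Dual (ZMod 2) F)] :
    Fintype.card (Module.Dual (ZMod 2) F) = Fintype.card F := by
  have : Module.Finite (ZMod 2) F := Module.Finite.of_finite
  rw [Module.card_eq_pow_finrank (K := ZMod 2) (V := Module.Dual (ZMod 2) F),
    Module.card_eq_pow_finrank (K := ZMod 2) (V := F), Subspace.dual_finrank_eq]

open Classical in
lemma RS2_sum_l [Fintype {l : Module.Dual (ZMod 2) F // l ≠ 0}] (y : F) :
    (∑ l : {l : Module.Dual (ZMod 2) F // l ≠ 0}, if l.1 y = 0 then (0 : ℝ) else 4) =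
      if y = 0 then 0 else 2 * (Fintype.card F : ℝ) := by
  have : Module.Finite (ZMod 2) F := Module.Finite.of_finite
  have : Finite (Module.Dual (ZMod 2) F) := Module.finite_of_finite (ZMod 2)
  let : Fintype (Module.Dual (ZMod 2) F) := Fintype.ofFinite _
  split_ifs with hy
  · simp [hy]
  have hall : (∑ l : {l : Module.Dual (ZMod 2) F // l ≠ 0}, if l.1 y = 0 then (0 : ℝ) else 4) =
      ∑ l : Module.Dual (ZMod 2) F, if l y = 0 then (0 : ℝ) else 4 := by
    rw [← Finset.sum_subtype (Finset.univ.filter fun l : Module.Dual (ZMod 2) F => l ≠ 0)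
      (by simp) (fun l : Module.Dual (ZMod 2) F => if l y = 0 then (0 : ℝ) else 4)]
    rw [Finset.sum_filter]
    refine Finset.sum_congr rfl fun l _ => ?_
    by_cases hl : l = 0
    · simp [hl]
    · simp [hl]
  rw [hall]
  obtain ⟨l0, hl0⟩ : ∃ l0 : Module.Dual (ZMod 2) F, l0 y ≠ 0 := by
    by_contra hcon
    push Not at hcon
    exact hy ((Module.forall_dual_apply_eq_zero_iff (ZMod 2) y).1 hcon)
  have hsw : (∑ l : Module.Dual (ZMod 2) F, if l y = 0 then (0 : ℝ) else 4) =
      ∑ l : Module.Dual (ZMod 2) F, if (l + l0) y = 0 then (0 : ℝ) else 4 :=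
    (Equiv.sum_comp (Equiv.addRight l0)
      (fun l : Module.Dual (ZMod 2) F => if l y = 0 then (0 : ℝ) else 4)).symm
  have hsum : (∑ l : Module.Dual (ZMod 2) F, if l y = 0 then (0 : ℝ) else 4) +
      (∑ l : Module.Dual (ZMod 2) F, if (l + l0) y = 0 then (0 : ℝ) else 4) =
      4 * (Fintype.card F : ℝ) := by
    rw [← Finset.sum_add_distrib, ← RS2_card_dual]
    rw [Finset.sum_congr rfl (g := fun _ => (4 : ℝ))]
    · simp [mul_comm]
    · intro l _
      rw [LinearMap.add_apply]
      have h01 : ∀ a b : ZMod 2, b ≠ 0 → (a = 0 ↔ ¬ (a + b = 0)) := by decide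
      by_cases h : l y = 0
      · have := (h01 _ _ hl0).1 h
        rw [if_pos h, if_neg this]; norm_num
      · have : l y + l0 y = 0 := by
          by_contra h'
          exact h ((h01 _ _ hl0).2 h')
        rw [if_neg h, if_pos this]; norm_num
  linarith

open Classical in
lemma RS2_eig (m : ℕ) [Fintype {l : Module.Dual (ZMod 2) F // l ≠ 0}] (g : Fin m → F) (c : ZMod 2) :
    eig (RS2gam (F := F) m) (RS2fun m g c) = 2 * (Fintype.card F : ℝ) *
      ((Fintype.card F : ℝ) -
        (Finset.univ.filter fun x : F => RS2ev m x g + c • x ^ m = 0).card) := by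
  unfold eig
  rw [Fintype.sum_prod_type]
  simp_rw [RS2fun_gam]
  simp_rw [RS2_sum_l]
  rw [Finset.sum_ite, Finset.sum_const_zero, zero_add, Finset.sum_const, nsmul_eq_mul]
  have := Finset.card_filter_add_card_filter_not (s := (Finset.univ : Finset F))
    (fun x : F => RS2ev m x g + c • x ^ m = 0)
  rw [Finset.card_univ] at this
  rw [← this]
  push_cast
  ring

/-- the polynomial with coefficient vector `g` -/
noncomputable def RS2pol (m : ℕ) (g : Fin m → F) : Polynomial F :=
  ∑ i : Fin m, Polynomial.C (g i) * Polynomial.X ^ (i : ℕ)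

omit [Fintype F] in
lemma RS2pol_eval (m : ℕ) (g : Fin m → F) (x : F) : (RS2pol m g).eval x = RS2ev m x g := by
  simp [RS2pol, RS2ev, Polynomial.eval_finsetSum]

omit [Fintype F] [Algebra (ZMod 2) F] in
lemma RS2pol_degree (m : ℕ) (g : Fin m → F) : (RS2pol m g).degree < m :=
  Polynomial.degree_sum_fin_lt g

omit [Fintype F] [Algebra (ZMod 2) F] in
lemma RS2pol_coeff (m : ℕ) (g : Fin m → F) (i : Fin m) : (RS2pol m g).coeff i = g i := by
  unfold RS2pol
  rw [Polynomial.finsetSum_coeff, Finset.sum_eq_single i]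
  · simp
  · intro j _ hj
    rw [Polynomial.coeff_C_mul_X_pow, if_neg]
    intro h
    exact hj (Fin.ext h.symm)
  · simp

omit [Algebra (ZMod 2) F] in
open Classical in
lemma RS2_roots_le (p : Polynomial F) (hp : p ≠ 0) :
    (Finset.univ.filter fun x : F => p.eval x = 0).card ≤ p.natDegree := by
  have h1 : (Finset.univ.filter fun x : F => p.eval x = 0) = p.roots.toFinset := by
    ext x
    simp [hp]
  rw [h1]
  exact (Multiset.toFinset_card_le _).trans (Polynomial.card_roots' p)

open Classical in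
lemma RS2_odd (m : ℕ) (g : Fin m → F) :
    (Finset.univ.filter fun x : F => RS2ev m x g + (1 : ZMod 2) • x ^ m = 0).card ≤ m := by
  have hmon : (Polynomial.X ^ m + RS2pol m g).Monic :=
    Polynomial.monic_X_pow_add (RS2pol_degree m g)
  have hdeg : (Polynomial.X ^ m + RS2pol m g).natDegree = m := by
    rw [Polynomial.natDegree_add_eq_left_of_degree_lt]
    · simp
    · simpa using RS2pol_degree m g
  have := RS2_roots_le _ hmon.ne_zero
  rw [hdeg] at this
  convert this using 3 with x
  simp [RS2pol_eval, add_comm]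

open Classical in
lemma RS2_even (m : ℕ) (g : Fin m → F) (hg : g ≠ 0) :
    (Finset.univ.filter fun x : F => RS2ev m x g + (0 : ZMod 2) • x ^ m = 0).card + 1 ≤ m := by
  have hne : RS2pol m g ≠ 0 := by
    intro h
    apply hg
    funext i
    rw [← RS2pol_coeff m g i, h]
    simp
  have hdeg : (RS2pol m g).natDegree < m :=
    (Polynomial.natDegree_lt_iff_degree_lt hne).2 (RS2pol_degree m g)
  have := RS2_roots_le _ hne
  have h2 : (Finset.univ.filter fun x : F => RS2ev m x g + (0 : ZMod 2) • x ^ m = 0) =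
      Finset.univ.filter fun x : F => (RS2pol m g).eval x = 0 := by
    ext x
    simp [RS2pol_eval]
  rw [h2]
  omega

/-- the low coefficients of the monic polynomial with root set `S` -/
noncomputable def RS2co (m : ℕ) (S : Finset F) : Fin m → F :=
  fun i => (∏ s ∈ S, (Polynomial.X - Polynomial.C s)).coeff i

open Classical in
lemma RS2co_roots (m : ℕ) (S : Finset F) (hS : S.card = m) :
    (Finset.univ.filter fun x : F => RS2ev m x (RS2co m S) + (1 : ZMod 2) • x ^ m = 0) = S := by
  have hmon : (∏ s ∈ S, (Polynomial.X - Polynomial.C s : Polynomial F)).Monic :=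
    Polynomial.monic_prod_of_monic _ _ fun s _ => Polynomial.monic_X_sub_C s
  have hdeg : (∏ s ∈ S, (Polynomial.X - Polynomial.C s : Polynomial F)).natDegree = m := by
    rw [Polynomial.natDegree_prod_of_monic _ _ fun s _ => Polynomial.monic_X_sub_C s]
    simp [hS]
  have hev : ∀ x : F, RS2ev m x (RS2co m S) + (1 : ZMod 2) • x ^ m = ∏ s ∈ S, (x - s) := by
    intro x
    have h1 : (∏ s ∈ S, (Polynomial.X - Polynomial.C s : Polynomial F)).eval x =
        ∏ s ∈ S, (x - s) := by simp [Polynomial.eval_prod]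
    rw [← h1, Polynomial.eval_eq_sum_range, hdeg, Finset.sum_range_succ]
    have h2 : (∏ s ∈ S, (Polynomial.X - Polynomial.C s : Polynomial F)).coeff m = 1 := by
      rw [← hdeg]; exact hmon.coeff_natDegree
    rw [h2, one_mul, one_smul, Finset.sum_range]
    rfl
  ext x
  rw [Finset.mem_filter, hev]
  simp [Finset.prod_eq_zero_iff, sub_eq_zero]

end RS2aux

theorem rs_code (e m : ℕ) (he : 0 < e) (hm : 0 < m) (hme : m ≤ 2 ^ e) :
    ∃ (W T : Type) (_ : AddCommGroup W) (_ : Module (ZMod 2) W) (_ : Fintype W) (_ : Fintype T)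
      (γ : T → W × ZMod 2) (θ : ℝ) (F : Fin (Nat.choose (2 ^ e) m) → Module.Dual (ZMod 2) (W × ZMod 2)),
      Fintype.card W = 2 ^ (e * m) ∧ Fintype.card T ≤ 4 ^ e ∧ 0 ≤ θ ∧ (∀ t, γ t ≠ 0) ∧
      (∀ f : Module.Dual (ZMod 2) (W × ZMod 2), f (0, 1) ≠ 0 → θ ≤ eig γ f) ∧
      (∀ f : Module.Dual (ZMod 2) (W × ZMod 2), f ≠ 0 → f (0, 1) = 0 → θ + 1 ≤ eig γ f) ∧
      Function.Injective F ∧ ∀ i, F i (0, 1) ≠ 0 ∧ eig γ (F i) = θ := by
  classical
  let K : Type := GaloisField 2 e
  let : Fintype K := Fintype.ofFinite _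
  have hrank : Module.finrank (ZMod 2) K = e := GaloisField.finrank 2 he.ne'
  have hcard : Fintype.card K = 2 ^ e := by
    rw [Module.card_eq_pow_finrank (K := ZMod 2) (V := K), hrank, ZMod.card]
  have : Finite (Module.Dual (ZMod 2) K) := Module.finite_of_finite (ZMod 2)
  have : Finite (Module.Dual (ZMod 2) (Fin m → K)) := Module.finite_of_finite (ZMod 2)
  let : Fintype (Module.Dual (ZMod 2) K) := Fintype.ofFinite _
  let iW : Fintype (Module.Dual (ZMod 2) (Fin m → K)) := Fintype.ofFinite _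
  let iL : Fintype {l : Module.Dual (ZMod 2) K // l ≠ 0} := Fintype.ofFinite _
  have hPc : Fintype.card (Finset.powersetCard m (Finset.univ : Finset K)) =
      Nat.choose (2 ^ e) m := by
    rw [Fintype.card_coe, Finset.card_powersetCard, Finset.card_univ, hcard]
  let σ := (Fintype.equivFinOfCardEq hPc).symm
  have hσ : ∀ i, (σ i).1.card = m := fun i => (Finset.mem_powersetCard.1 (σ i).2).2
  have hq : (0 : ℝ) < Fintype.card K := by exact_mod_cast Fintype.card_pos
  have hq1 : (1 : ℝ) ≤ Fintype.card K := by exact_mod_cast Fintype.card_pos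
  have hmq : (m : ℝ) ≤ Fintype.card K := by rw [hcard]; exact_mod_cast hme
  refine ⟨Module.Dual (ZMod 2) (Fin m → K), K × {l : Module.Dual (ZMod 2) K // l ≠ 0},
    inferInstance, inferInstance, iW, inferInstance, RS2gam m,
    2 * (Fintype.card K : ℝ) * ((Fintype.card K : ℝ) - m),
    fun i => RS2fun m (RS2co m (σ i).1) 1, ?_, ?_, ?_, ?_, ?_, ?_, ?_, ?_⟩
  · rw [Module.card_eq_pow_finrank (K := ZMod 2), Subspace.dual_finrank_eq, ZMod.card,
      Module.finrank_pi_fintype]
    simp [hrank, mul_comm]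
  · rw [Fintype.card_prod, hcard]
    have h1 : Fintype.card {l : Module.Dual (ZMod 2) K // l ≠ 0} ≤ 2 ^ e := by
      rw [← hcard, ← RS2_card_dual (F := K)]
      exact Fintype.card_subtype_le _
    calc 2 ^ e * Fintype.card {l : Module.Dual (ZMod 2) K // l ≠ 0} ≤ 2 ^ e * 2 ^ e :=
          Nat.mul_le_mul_left _ h1
      _ = 4 ^ e := by rw [← mul_pow]; norm_num
  · exact mul_nonneg (by positivity) (by linarith)
  · rintro ⟨x, l⟩ h
    apply l.2
    apply LinearMap.ext
    intro y
    have h1 : (l.1 ∘ₗ RS2ev m x) = 0 := congrArg Prod.fst h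
    have h2 := congrArg (fun φ => φ (Pi.single (⟨0, hm⟩ : Fin m) y)) h1
    have h3 : RS2ev m x (Pi.single (⟨0, hm⟩ : Fin m) y) = y := by
      change ∑ i : Fin m, (Pi.single (⟨0, hm⟩ : Fin m) y : Fin m → K) i * x ^ (i : ℕ) = y
      rw [Finset.sum_eq_single ⟨0, hm⟩]
      · simp
      · intro j _ hj
        simp [Pi.single_eq_of_ne hj]
      · simp
    simpa [h3] using h2
  · intro f hf
    obtain ⟨g, hg⟩ := RS2_exists m f
    have h01 : ∀ a : ZMod 2, a ≠ 0 → a = 1 := by decide
    rw [h01 _ hf] at hg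
    rw [hg, RS2_eig]
    have : ((Finset.univ.filter fun x : K => RS2ev m x g + (1 : ZMod 2) • x ^ m = 0).card : ℝ)
        ≤ m := by exact_mod_cast RS2_odd m g
    apply mul_le_mul_of_nonneg_left _ (by positivity)
    convert sub_le_sub_left this (Fintype.card K : ℝ)
  · intro f hf hf0
    obtain ⟨g, hg⟩ := RS2_exists m f
    rw [hf0] at hg
    have hg0 : g ≠ 0 := by
      rintro rfl
      apply hf
      rw [hg]
      apply LinearMap.ext
      intro p
      simp [RS2fun_apply]
    rw [hg, RS2_eig]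
    have : ((Finset.univ.filter fun x : K => RS2ev m x g + (0 : ZMod 2) • x ^ m = 0).card : ℝ)
        + 1 ≤ m := by exact_mod_cast RS2_even m g hg0
    set N : ℝ := ((Finset.univ.filter
      fun x : K => RS2ev m x g + (0 : ZMod 2) • x ^ m = 0).card : ℝ) with hN
    have h5 : 2 * (Fintype.card K : ℝ) * ((Fintype.card K : ℝ) - m) + 1 ≤
        2 * (Fintype.card K : ℝ) * ((Fintype.card K : ℝ) - N) := by nlinarith
    convert h5
  · intro i j hij
    have hg : RS2co m (σ i).1 = RS2co m (σ j).1 := by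
      rw [← sub_eq_zero, ← Module.forall_dual_apply_eq_zero_iff (ZMod 2)]
      intro ξ
      have := congrArg (fun φ => φ (ξ, 0)) hij
      simp only [RS2fun_apply, zero_mul, add_zero] at this
      rw [map_sub, this, sub_self]
    have h1 := RS2co_roots m _ (hσ i)
    have h2 := RS2co_roots m _ (hσ j)
    rw [hg, h2] at h1
    exact σ.injective (Subtype.ext h1.symm)
  · intro i
    refine ⟨by simp [RS2fun_apply], ?_⟩
    rw [RS2_eig]
    have h1 := RS2co_roots m _ (hσ i)
    have h2 : (Finset.univ.filter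
        fun x : K => RS2ev m x (RS2co m (σ i).1) + (1 : ZMod 2) • x ^ m = 0).card = m := by
      convert hσ i
    convert congrArg (fun n : ℕ => 2 * (Fintype.card K : ℝ) * ((Fintype.card K : ℝ) - n)) h2

end Pool.Agent.MP_4f0ed6_gt
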