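import Pool.Agent.MP_4f0ed6_gt.YSum
import Pool.Agent.MP_4f0ed6_gt.OddR

open Set Laplacian Filter Topology MeasureTheory Metric InnerProductSpace
open scoped ContDiff

namespace Pool.Agent.MP_4f0ed6_gt

theorem RY_tri {X T1 T2 T3 T4 T5 a b c : ℝ} (h1 : |X - (T1 - T3)| ≤ a) (h2 : |T1 + T2| ≤ b)
    (h3 : |(T2 + T3) - (T4 + T5)| ≤ c) : |X + T4 + T5| ≤ a + b + c := by
  rw [abs_le] at h1 h2 h3 ⊢
  constructor <;> linarith [h1.1, h1.2, h2.1, h2.2, h3.1, h3.2]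

theorem RY_fin {X K T J a b : ℝ} (h1 : |X + K + T| ≤ a) (h2 : |T + J| ≤ b) :
    |X + K - J| ≤ a + b := by
  rw [abs_le] at h1 h2 ⊢
  constructor <;> linarith [h1.1, h1.2, h2.1, h2.2]

open Classical in
theorem RY_sum {h nT nx : ℕ} (S : Fx h nT nx) (η : ℝ) (d' : DD h) (w : ℂ) :
    ∑ i : Fin h × DD h, (if pre i.1 d' = i.2 then S.aj η i.1 else 0) *
      kk w (S.rho η (S.ix i) * S.yy i.1 d') = ∑ j, S.aj η j * kk w (S.cY η j d') := by
  rw [Fintype.sum_prod_type]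
  refine Finset.sum_congr rfl fun j _ => ?_
  rw [Finset.sum_eq_single (pre j d')]
  · simp [Fx.cY]
  · intro e _ he
    simp [Ne.symm he]
  · simp

theorem RY_zeta {η aa ϖ Cy Cb A n : ℝ} (h0 : 0 < η) (h1 : η ≤ 1) (ha0 : 0 ≤ aa) (ha1 : aa ≤ 1)
    (ha : aa ≤ ϖ) (hCb : 0 ≤ Cb) (hA : 0 ≤ A) (hn : 0 ≤ n) :
    aa ^ 3 * 1 + Cy * (ϖ * aa) + (8 * ϖ * n * aa + 52 * ϖ * η ^ 4 * n * A * (Cb * (aa / η))) ≤
      (1 + Cy + 8 * n + 52 * n * A * Cb) * (ϖ * aa) := by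
  have hϖ : 0 ≤ ϖ := ha0.trans ha
  have e1 : aa ^ 3 ≤ ϖ * aa := by
    have : aa * aa ≤ ϖ := by nlinarith
    calc aa ^ 3 = aa * aa * aa := by ring
      _ ≤ ϖ * aa := mul_le_mul_of_nonneg_right this ha0
  have e2 : 52 * ϖ * η ^ 4 * n * A * (Cb * (aa / η)) = η ^ 3 * (52 * n * A * Cb * (ϖ * aa)) := by
    field_simp
  have e3 : η ^ 3 * (52 * n * A * Cb * (ϖ * aa)) ≤ 52 * n * A * Cb * (ϖ * aa) :=
    mul_le_of_le_one_left (by positivity) (pow_le_one₀ h0.le h1)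
  rw [e2]
  nlinarith

open Classical in
theorem Fx.Ok.ry {h nT nx : ℕ} {S : Fx h nT nx} (hS : S.Ok) : ∃ C : ℝ, 0 ≤ C ∧
    ∀ᶠ η : ℝ in 𝓝[>] 0, ∀ p ∈ cube (DD h), ∀ d d', d ≠ d' →
    ∀ (ρ : S.Rp η p 1 1 (ed d')) (j : Fin h) (α : ℝ),
      α = (if pre j d' = pre j d then S.aj η j else 0) →
      |(ρ.R (.inl ((d, true), j, true)) - ρ.R (.inl ((d, false), j, true))) / 2 +
        α * kk (S.yy j d) (S.yy j d') -
        η ^ 4 / 2 * α * ∫ u, kk (S.yy j d) u * kk u (S.yy j d') * S.nu p u| ≤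
        C * (η ^ 7 * α + η ^ (6 * h) * S.aa η) := by
  obtain ⟨Cy, hCy, hy⟩ := hS.ysum
  obtain ⟨Cb, hCb, hb⟩ := hS.bnd
  have hA0 : 0 ≤ S.A := zero_le_one.trans hS.ctl.one_le
  set n : ℝ := (Fintype.card (Fin h × DD h) : ℝ) with hn
  have hn0 : 0 ≤ n := by positivity
  set C1 : ℝ := 1 + Cy + 8 * n + 52 * n * S.A * Cb with hC1
  have hC10 : 0 ≤ C1 := by positivity
  refine ⟨52 * S.A + 2 * C1, by positivity, ?_⟩
  filter_upwards [hy, hb, hS.est, hS.shell_pb, ev_small (c := 1 / 4) (by norm_num),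
    ev_pow (26 * S.A) (a := 4) (b := 0) (by norm_num)] with η hy hb hE hpb hη hMA p hp d d' hne ρ j
    α hα
  obtain ⟨h0, h4⟩ := hη
  have h1 : η ≤ 1 := by linarith
  have hE := hE p hp
  have hQ := hE.ok
  have hϖ0 : 0 ≤ η ^ (6 * h) := by positivity
  have hϖ : η ^ (6 * h) ≤ 1 / 4 := by
    have hh := hS.h_pos
    calc η ^ (6 * h) ≤ η ^ 1 := pow_le_pow_of_le_one h0.le h1 (by omega)
      _ ≤ 1 / 4 := by simpa using h4
  have haa0 : 0 ≤ S.aa η := by unfold Fx.aa; positivity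
  have haaϖ : S.aa η ≤ η ^ (6 * h) := pow_le_pow_of_le_one h0.le h1 (by omega)
  have haa1 : S.aa η ≤ 1 := by linarith
  have hν : Continuous (S.nu p) := (hS.ctl.smooth p).continuous
  have hs := hS.ctl.supp p
  have hA : ∀ u, |S.nu p u| ≤ S.A := fun u => by
    rw [abs_of_nonneg (hS.ctl.nonneg p hp u)]
    exact hS.ctl.le p hp u
  set F : ℂ → ℝ := fun z => (ρ.φ none z - ρ.φ none (-z)) / 2 with hF
  have hFc : Continuous F := ((ρ.cont none).sub ((ρ.cont none).comp continuous_neg)).div_const 2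
  have hcore : ∀ (i : Fin h × DD h) (u : ℂ), S.nu p u ≠ 0 →
      (S.rho η (S.ix i) : ℂ) * u ∈ (S.Q η).core none ∧
        -((S.rho η (S.ix i) : ℂ) * u) ∈ (S.Q η).core none := fun i u hu =>
    ⟨hS.shell_core h0 h1 i hu, (S.sym hS η).core (hS.shell_core h0 h1 i hu)⟩
  have hbn := (hb p hp 1 ⟨zero_le_one, le_rfl⟩ 1 (ed d') (abs_ed_le d') ρ).2.2.1
  have hFE : ∀ (i : Fin h × DD h) (u : ℂ), S.nu p u ≠ 0 →
      |F (S.rho η (S.ix i) * u)| ≤ Cb * (S.aa η / η) := fun i u hu => by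
    have e1 := hbn _ (hcore i u hu).1
    have e2 := hbn _ (hcore i u hu).2
    have e0 : ed d' (none : Option (DD h × Bool)) = 0 := rfl
    rw [e0] at e1 e2
    simp only [sub_zero, abs_zero, mul_zero, add_zero, mul_one] at e1 e2
    rw [abs_le] at e1 e2 ⊢
    simp only [hF]
    constructor <;> linarith [e1.1, e1.2, e2.1, e2.2]
  have hβs : ∀ w, S.β η none (-w) = S.β η none w := fun w => hS.β_sym η none w
  have hμs : ∀ w, S.μ η p none (-w) = S.μ η p none w := fun w => hS.μ_sym η p none w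
  have key : ∀ (i : Fin h × DD h) (w : ℂ), (1 ≤ ‖w‖ ∧ ‖w‖ ≤ 2) → ∀ X : ℝ,
      (∀ π, S.pc π = none → |kk (S.rho η (S.ix i) * w) (S.c η π)| ≤ 2 * η⁻¹) →
      |X - (1 / 2 * ∑ π ∈ (S.Q η).pts none, ρ.b π * kk (S.rho η (S.ix i) * w) (S.c η π) -
        1 / 2 * ∫ z, kk (S.rho η (S.ix i) * w) z * (S.μ η p none z * F z))| ≤ S.aa η ^ 3 * 1 →
      |X + (if pre i.1 d' = i.2 then S.aj η i.1 else 0) *
          kk (S.rho η (S.ix i) * w) (S.rho η (S.ix i) * S.yy i.1 d') +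
        η ^ 4 / 2 * ∫ z, kk (S.rho η (S.ix i) * w) z * (scl (S.rho η (S.ix i)) (S.nu p) z * F z)| ≤
        C1 * (η ^ (6 * h) * S.aa η) := by
    intro i w hw X hk hX
    have e2 := hy p hp d' ρ _ hk
    have e3 := shell_loc (I := Fin h × DD h) (ρ := fun i => S.rho η (S.ix i))
      (α := fun i => if pre i.1 d' = i.2 then S.aj η i.1 else 0) (y := fun i => S.yy i.1 d')
      (ν := S.nu p) (F := F) (ϖ := η ^ (6 * h)) (A := S.A) (M := η ^ 4) (a := S.aa η)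
      (E := Cb * (S.aa η / η)) (fun i => Fx.rho_mem h0 h1 _)
      (fun i i' hii => by
        rcases lt_or_gt_of_ne (hS.ix_inj.ne hii) with hl | hl
        · exact Or.inr (Fx.rho_lt h0 h1 hl)
        · exact Or.inl (Fx.rho_lt h0 h1 hl))
      hϖ0 hϖ hν (fun u hu => (hs u hu).2.2) hA (by positivity)
      (fun i => by
        split_ifs
        · rw [abs_of_pos (S.aj_pos h0 _)]
          exact S.aj_le h0 h1 _
        · simpa using haa0)
      (fun i => ⟨(hS.yy_ax _ _).1, (hS.yy_ax _ _).2.1⟩) hFc (by positivity) hFE i hw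
    rw [RY_sum] at e3
    exact (RY_tri hX e2 e3).trans (RY_zeta h0 h1 haa0 haa1 haaϖ hCb hA0 hn0)
  have hα0 : 0 ≤ α := by
    rw [hα]
    split_ifs
    · exact (S.aj_pos h0 _).le
    · exact le_rfl
  have hr := Fx.rho_mem (S := S) h0 h1 (S.ix (j, pre j d))
  have hin := shell_in (ν := S.nu p) (F := F) (A := S.A) (Λ := η⁻¹) (M := η ^ 4)
    (r := S.rho η (S.ix (j, pre j d))) (c := α) (ζ := C1 * (η ^ (6 * h) * S.aa η))
    (y₀ := S.yy j d) (y₁ := S.yy j d') hr hν hs hA (hpb p hp _) (by positivity)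
    (by
      have e : 2 * η ^ 4 * η⁻¹ = 2 * η ^ 3 := by field_simp
      have e' : η ^ 3 ≤ η ^ 1 := pow_le_pow_of_le_one h0.le h1 (by omega)
      rw [e]
      linarith [pow_one η])
    (by linarith [pow_zero η]) (hS.yy_ax _ _) (hS.yy_ax _ _) hFc
    (fun u hu => by
      have hc := hcore (j, pre j d) u hu
      have e := key (j, pre j d) u (hs u hu).2.2 _
        (fun π hπ => hE.bump.kk_core hQ hc.1 hc.2 hπ)
        (ρ.odd_rep hE hβs hμs (hQ.core_sub_bulk _ hc.1) (hQ.core_sub_bulk _ hc.2))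
      rw [hα]
      exact e)
    (by positivity)
  have hc1 : (S.Q η).c (.inl ((d, true), j, true)) = S.rho η (S.ix (j, pre j d)) * S.yy j d := by
    show ((sg true : ℝ) : ℂ) * S.cY η j d = _
    simp [sg, Fx.cY]
  have hc2 : (S.Q η).c (.inl ((d, false), j, true)) = -(S.Q η).c (.inl ((d, true), j, true)) := by
    show ((sg false : ℝ) : ℂ) * S.cY η j d = -(((sg true : ℝ) : ℂ) * S.cY η j d)
    simp [sg]
  have hR := ρ.odd_repR hE hβs hμs (π₁ := .inl ((d, true), j, true))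
    (π₂ := .inl ((d, false), j, true)) rfl rfl hc2
  have hkp : ∀ π, S.pc π = none →
      |kk ((S.Q η).c (.inl ((d, true), j, true))) (S.c η π)| ≤ 2 * η⁻¹ := fun π hπ =>
    hE.bump.kk_port hQ (π := π) (π₁ := .inl ((d, true), j, true))
      (π₂ := .inl ((d, false), j, true)) hπ.symm hπ.symm hc2
  rw [hc1] at hR hkp
  have e := key (j, pre j d) (S.yy j d) ⟨(hS.yy_ax _ _).1, (hS.yy_ax _ _).2.1⟩ _ hkp hR
  have hyy := hS.yy_ne j hne
  rw [← hα, kk_smul hr.1 (norm_pos_iff.mp (hS.g0_pos.trans_le hyy.1))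
    (norm_pos_iff.mp (hS.g0_pos.trans_le hyy.2))] at e
  refine (RY_fin e hin).trans ?_
  have e7 : 52 * (η ^ 4) ^ 2 * η⁻¹ * S.A * |α| = 52 * S.A * (η ^ 7 * α) := by
    rw [abs_of_nonneg hα0]
    field_simp
  rw [e7]
  have p1 : 0 ≤ η ^ 7 * α := by positivity
  have p2 : 0 ≤ η ^ (6 * h) * S.aa η := by positivity
  nlinarith [mul_nonneg hC10 p1, mul_nonneg hA0 p2]

end Pool.Agent.MP_4f0ed6_gt
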