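import Pool.Agent.MP_4f0ed6_gt.PDefs

open Set Laplacian Filter Topology MeasureTheory Metric
open scoped ContDiff

namespace Pool.Agent.MP_4f0ed6_gt

/-- sign -/
def sg : Bool → ℝ
  | true => 1
  | false => -1

/-- the involution on the points -/
def flp {D : Type} (v : D × Bool) : D × Bool := (v.1, !v.2)

/-- the involution on the spheres; `none` is the big sphere -/
def iV {D : Type} : Option (D × Bool) → Option (D × Bool) := Option.map flp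

/-- the involution on the charts -/
def iA {D : Type} (α : Option (D × Bool) × Bool) : Option (D × Bool) × Bool := (iV α.1, α.2)

open Classical in
/-- odd basis vector -/
noncomputable def ed {D : Type} (d : D) : Option (D × Bool) → ℝ
  | none => 0
  | some v => if v.1 = d then sg v.2 else 0

/-- parameter cube -/
def cube (D : Type) : Set (D × D → ℝ) := {p | ∀ i, |p i| ≤ 1}

/-- graph Laplacian of a family of permutations -/
noncomputable def Lap {T X : Type} [Fintype T] (Pm : T → Equiv.Perm X) (u : X → ℝ) (v : X) : ℝ :=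
  ∑ t, (2 * u v - u (Pm t v) - u ((Pm t).symm v))

/-- all the facts needed for the final spectral argument -/
structure Sys (D P : Type) [Fintype D] [Fintype P] where
  Q : Plumb (Option (D × Bool)) P
  β : Option (D × Bool) → ℂ → ℝ
  μ : (D × D → ℝ) → Option (D × Bool) → ℂ → ℝ
  νt : Option (D × Bool) × Bool → ℂ → ℝ
  ιP : P → P
  Λ : ℝ
  δ : ℝ
  τ : ℝ
  a : ℝ
  om : ℝ
  κ : ℝ
  c0 : ℝ
  Cl : ℝ
  M0 : D → D → ℝ
  tau : D → D → ℝ
  J : D → D → Prop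
  hyp : ∀ p ∈ cube D, Q.Hyp β (μ p) νt Λ δ τ a om κ
  sym : Q.Sym iV ιP
  β_sym : ∀ v w, β (iV v) (-w) = β v w
  μ_sym : ∀ p ∈ cube D, ∀ v w, μ p (iV v) (-w) = μ p v w
  νt_sym : ∀ α w, νt (iA α) (-w) = νt α w
  μ_nonneg : ∀ p ∈ cube D, ∀ v w, 0 ≤ μ p v w
  νt_pos : ∀ α, ∀ z ∈ Q.glue.W α, 0 < Q.glue.gd νt α z
  lip : ∀ p ∈ cube D, ∀ p' ∈ cube D, ∀ v, ∫ w, |μ p v w - μ p' v w| ≤ Cl * ‖p - p'‖
  M0_symm : ∀ d d', M0 d d' = M0 d' d
  M0_psd : ∀ f : D → ℝ, 0 ≤ ∑ d, ∑ d', f d * M0 d d' * f d'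
  J_total : ∀ d d', J d d' ∨ J d' d
  tau_pos : ∀ d d', 0 < tau d d'
  expn : ∀ p ∈ cube D, ∀ d d', J d d' → ∀ ρ : Q.Rep β (μ p) 1 κ 1 (ed d'),
    |(ρ.t (some (d, true)) - ρ.t (some (d, false))) / 2 + M0 d d' - tau d d' * p (d, d')| ≤
      tau d d'
  even : ∀ p ∈ cube D, ∀ s : ℝ, 0 < s → s ≤ 1 → ∀ u N, (∀ v, u (iV v) = u v) →
    (∀ v, |u v| ≤ N) → (∃ v, |u v| = N) → ∀ ρ : Q.Rep β (μ p) s κ N u, (∀ v, ρ.t v = 0) → N = 0
  pos : ∀ p ∈ cube D, ∀ s s' : ℝ, s ∈ Icc (0 : ℝ) 1 → s' ∈ Icc (0 : ℝ) 1 → ∀ u N, u none = 0 →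
    (∀ v, |u v| ≤ N) → (∃ v, |u v| = N) → ∀ (ρ : Q.Rep β (μ p) s κ N u)
    (ρ' : Q.Rep β (μ p) s' κ N u), c0 * N ^ 2 ≤ ∑ v, ∫ w, μ p v w * (ρ.φ v w * ρ'.φ v w)
  c0_gt : 2 * Fintype.card (Option (D × Bool)) * τ * (16 * Q.n) ^ 2 < c0

/-- the graph part of the data -/
structure GraphOk {D T : Type} [Fintype D] [Fintype T] (Pm : T → Equiv.Perm (D × Bool))
    (θ : ℝ) : Prop where
  θ_nonneg : 0 ≤ θ
  ne : ∀ t v, Pm t v ≠ v
  comm : ∀ t v, Pm t (flp v) = flp (Pm t v)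
  odd : ∀ u : D × Bool → ℝ, (∀ v, u (flp v) = -u v) → θ * ∑ v, u v ^ 2 ≤ ∑ v, u v * Lap Pm u v
  even : ∀ u : D × Bool → ℝ, (∀ v, u (flp v) = u v) →
    (θ + 1) * (∑ v, u v ^ 2 - (∑ v, u v) ^ 2 / Fintype.card (D × Bool)) ≤ ∑ v, u v * Lap Pm u v

/-- the control densities -/
structure CtlOk {D : Type} [Fintype D] (x : D → ℝ) (nu : (D × D → ℝ) → ℂ → ℝ) (A : ℝ) : Prop where
  one_le : 1 ≤ A
  smooth : ∀ p, ContDiff ℝ ∞ (nu p)
  even : ∀ p u, nu p (-u) = nu p u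
  supp : ∀ p u, nu p u ≠ 0 → 3 / 4 ≤ |u.re| ∧ 3 / 4 ≤ |u.im| ∧ 1 ≤ ‖u‖ ∧ ‖u‖ ≤ 2
  nonneg : ∀ p ∈ cube D, ∀ u, 0 ≤ nu p u
  le : ∀ p ∈ cube D, ∀ u, nu p u ≤ A
  mass : ∀ p ∈ cube D, 1 ≤ ∫ u, nu p u
  lip : ∀ p p' u, |nu p u - nu p' u| ≤ A * ‖p - p'‖
  dual : ∀ p a b, ∫ u, kk (x a) u * kk u (x b * Complex.I) * nu p u = 2 * p (a, b)

/-- the standard bump -/
structure BumpOk (β1 : ℂ → ℝ) (A : ℝ) : Prop where
  smooth : ContDiff ℝ ∞ β1
  even : ∀ u, β1 (-u) = β1 u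
  supp : ∀ u, β1 u ≠ 0 → ‖u‖ ≤ 1 / 2
  nonneg : ∀ u, 0 ≤ β1 u
  le : ∀ u, β1 u ≤ A
  int : ∫ u, β1 u = 1

/-- the classes -/
abbrev DD (h : ℕ) : Type := Fin h → Bool

/-- the ports: legs, main tubes, extra tubes -/
abbrev PP (h nT nx : ℕ) : Type :=
  ((DD h × Bool) × Fin h × Bool) ⊕ ((DD h × Bool) × Fin nT × Bool) ⊕ (Fin nx × Bool)

/-- port types on a small sphere -/
abbrev PT (h nT nx : ℕ) : Type := Fin h ⊕ (Fin nT × Bool) ⊕ Fin nx

/-- the first `j` bits -/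
def pre {h : ℕ} (j : Fin h) (d : DD h) : DD h := fun i => if i < j then d i else false

/-- the pair `(d, d')` is separated at level `j` -/
def Ori {h : ℕ} (j : Fin h) (d d' : DD h) : Prop :=
  pre j d = pre j d' ∧ d j = false ∧ d' j = true

/-- the fixed data -/
structure Fx (h nT nx : ℕ) where
  Pm : Fin nT → Equiv.Perm (DD h × Bool)
  θ : ℝ
  x : DD h → ℝ
  z : PT h nT nx → ℝ
  g0 : ℝ
  ix : Fin h × DD h → ℕ
  ns : ℕ
  β1 : ℂ → ℝ
  nu : (DD h × DD h → ℝ) → ℂ → ℝ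
  A : ℝ

namespace Fx

variable {h nT nx : ℕ} (S : Fx h nT nx)

structure Ok : Prop where
  h_pos : 0 < h
  graph : GraphOk S.Pm S.θ
  ctl : CtlOk S.x S.nu S.A
  bump : BumpOk S.β1 S.A
  g0_pos : 0 < S.g0
  g0_le : S.g0 ≤ 1
  x_mem : ∀ d, S.x d ∈ Icc (1 : ℝ) 2
  x_gap : ∀ d d', d ≠ d' → S.g0 ≤ |S.x d - S.x d'|
  z_mem : ∀ i, S.z i ∈ Icc (1 : ℝ) 2
  z_gap : ∀ i i', i ≠ i' → S.g0 ≤ |S.z i - S.z i'|
  ix_inj : Function.Injective S.ix
  ix_lt : ∀ i, S.ix i < S.ns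

/-- scale of the shell number `k` -/
noncomputable def rho (_ : Fx h nT nx) (η : ℝ) (k : ℕ) : ℝ := η ^ (6 * h * k) / 8

/-- largest conductance -/
noncomputable def aa (_ : Fx h nT nx) (η : ℝ) : ℝ := η ^ (6 * h + 4)

/-- conductance of the legs of level `j` -/
noncomputable def aj (η : ℝ) (j : Fin h) : ℝ := η ^ (3 * (h - 1 - j)) * S.aa η

/-- conductance of the main tubes -/
noncomputable def am (_ : Fx h nT nx) (η : ℝ) : ℝ := η ^ (12 * h + 5)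

/-- size of the diagonal control -/
noncomputable def ad (_ : Fx h nT nx) (η : ℝ) : ℝ := η ^ (12 * h + 6)

/-- normalised position of the class `d` in its shell of level `j` -/
noncomputable def yy (j : Fin h) (d : DD h) : ℂ := S.x d * if d j = true then Complex.I else 1

/-- position of the class `d` in its shell of level `j` -/
noncomputable def cY (η : ℝ) (j : Fin h) (d : DD h) : ℂ :=
  S.rho η (S.ix (j, pre j d)) * S.yy j d

def pc (_ : Fx h nT nx) : PP h nT nx → Option (DD h × Bool)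
  | .inl (v, _, false) => some v
  | .inl (_, _, true) => none
  | .inr (.inl (v, _, _)) => some v
  | .inr (.inr (_, ε)) => some (fun _ => false, ε)

def σ : PP h nT nx → PP h nT nx
  | .inl (v, j, i) => .inl (v, j, !i)
  | .inr (.inl (v, t, false)) => .inr (.inl (S.Pm t v, t, true))
  | .inr (.inl (v, t, true)) => .inr (.inl ((S.Pm t).symm v, t, false))
  | .inr (.inr (e, ε)) => .inr (.inr (e, !ε))

noncomputable def c (η : ℝ) : PP h nT nx → ℂ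
  | .inl (v, j, false) => (sg v.2 * S.z (.inl j) / 8 : ℝ)
  | .inl (v, j, true) => sg v.2 * S.cY η j v.1
  | .inr (.inl (v, t, i)) => (sg v.2 * S.z (.inr (.inl (t, i))) / 8 : ℝ)
  | .inr (.inr (e, ε)) => (sg ε * S.z (.inr (.inr e)) / 8 : ℝ)

/-- conductance of a tube -/
noncomputable def cond (η : ℝ) : PP h nT nx → ℝ
  | .inl (_, j, _) => S.aj η j
  | .inr (.inl _) => S.am η
  | .inr (.inr _) => S.aa η ^ 3

def ιP (_ : Fx h nT nx) : PP h nT nx → PP h nT nx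
  | .inl (v, q) => .inl (flp v, q)
  | .inr (.inl (v, q)) => .inr (.inl (flp v, q))
  | .inr (.inr (e, ε)) => .inr (.inr (e, !ε))

noncomputable def Q (η : ℝ) : Plumb (Option (DD h × Bool)) (PP h nT nx) where
  pc := S.pc
  σ := S.σ
  c := S.c η
  L π := (S.cond η π)⁻¹
  sep := S.g0 * S.rho η S.ns / 4

noncomputable def β (η : ℝ) : Option (DD h × Bool) → ℂ → ℝ
  | none => scl (S.rho η S.ns) S.β1
  | some _ => scl (1 / 8) S.β1

/-- mass of a small sphere -/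
noncomputable def m (η : ℝ) (p : DD h × DD h → ℝ) (d : DD h) : ℝ :=
  ∑ j, S.aj η j + S.θ * S.am η + S.ad η * p (d, d)

noncomputable def μ (η : ℝ) (p : DD h × DD h → ℝ) : Option (DD h × Bool) → ℂ → ℝ
  | none => fun w => η ^ 4 * ∑ i : Fin h × DD h, scl (S.rho η (S.ix i)) (S.nu p) w
  | some v => fun w => S.m η p v.1 * scl (1 / 8) S.β1 w

/-- bound for the masses -/
noncomputable def mm (η : ℝ) : Option (DD h × Bool) → ℝ
  | none => 13 * Fintype.card (Fin h × DD h) * S.A * η ^ 4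
  | some _ => (h + 1) * S.aa η

open Classical in
/-- the target matrix -/
noncomputable def M1 (d d' : DD h) : ℝ :=
  Lap S.Pm (fun v => ed d' (some v)) (d, true) - if d = d' then S.θ else 0

/-- the solutions with parameter `η` -/
abbrev Rp (η : ℝ) (p : DD h × DD h → ℝ) (s N : ℝ) (u : Option (DD h × Bool) → ℝ) : Type :=
  (S.Q η).Rep (S.β η) (S.μ η p) s (S.aa η ^ 3) N u

end Fx

end Pool.Agent.MP_4f0ed6_gt
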