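import Pool.Agent.MP_4f0ed6_gt.SEst0

open Set Laplacian Filter Topology MeasureTheory Metric InnerProductSpace
open scoped ContDiff

namespace Pool.Agent.MP_4f0ed6_gt

theorem sEst_scl_nonneg {g : ℂ → ℝ} (hg : ∀ u, 0 ≤ g u) (ρ : ℝ) (w : ℂ) : 0 ≤ scl ρ g w :=
  mul_nonneg (inv_nonneg.2 (sq_nonneg ρ)) (hg _)

theorem sEst_int_scl {ρ : ℝ} (hρ : 0 < ρ) (g : ℂ → ℝ) : ∫ u, scl ρ g u = ∫ u, g u := by
  have := integral_scl hρ (fun _ => 1) g
  simpa using this

theorem sEst_norm_sg (ε : Bool) : ‖((sg ε : ℝ) : ℂ)‖ = 1 := by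
  rw [Complex.norm_real, Real.norm_eq_abs, abs_sg]

namespace Fx

variable {h nT nx : ℕ} {S : Fx h nT nx}

theorem sEst_rho_eq (η : ℝ) (k : ℕ) : S.rho η k = 1 / 8 * η ^ (6 * h * k) := by
  unfold rho
  ring

theorem sEst_nu_abs (hS : S.Ok) {p : DD h × DD h → ℝ} (hp : p ∈ cube (DD h)) (u : ℂ) :
    |S.nu p u| ≤ S.A := by
  rw [abs_of_nonneg (hS.ctl.nonneg p hp u)]
  exact hS.ctl.le p hp u

theorem sEst_b_abs (hS : S.Ok) (u : ℂ) : |S.β1 u| ≤ S.A := by
  rw [abs_of_nonneg (hS.bump.nonneg u)]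
  exact hS.bump.le u

theorem sEst_b_supp (hS : S.Ok) (u : ℂ) (hu : S.β1 u ≠ 0) : ‖u‖ ≤ 2 :=
  (hS.bump.supp u hu).trans (by norm_num)

theorem sEst_port (hS : S.Ok) (ε : Bool) (i : PT h nT nx) :
    1 / 8 ≤ ‖((sg ε * S.z i / 8 : ℝ) : ℂ)‖ := by
  have h1 := (hS.z_mem i).1
  rw [Complex.norm_real, Real.norm_eq_abs, abs_div, abs_mul, abs_sg,
    abs_of_nonneg (by linarith : (0 : ℝ) ≤ S.z i), abs_of_pos (by norm_num : (0 : ℝ) < 8)]
  linarith

theorem sEst_yy (hS : S.Ok) (j : Fin h) (d : DD h) : 1 ≤ ‖S.yy j d‖ := by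
  have h1 := (hS.x_mem d).1
  unfold yy
  rw [norm_mul, Complex.norm_real, Real.norm_eq_abs, abs_of_nonneg (by linarith)]
  split_ifs
  · rw [Complex.norm_I]; linarith
  · rw [norm_one]; linarith

theorem sEst_core (hS : S.Ok) {η : ℝ} (h0 : 0 < η) (h1 : η ≤ 1) (v : Option (DD h × Bool)) (w : ℂ)
    (hw : S.β η v w ≠ 0) : w ∈ (S.Q η).core v := by
  have hr := rho_mem (S := S) h0 h1 S.ns
  have hg0 := hS.g0_pos
  have hg1 := hS.g0_le
  have hsep : (S.Q η).sep ≤ S.rho η S.ns / 4 := by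
    show S.g0 * S.rho η S.ns / 4 ≤ _
    nlinarith [hr.1]
  cases v with
  | none =>
    obtain ⟨u, hu, rfl⟩ := scl_ne hr.1 (show scl (S.rho η S.ns) S.β1 w ≠ 0 from hw)
    have hu2 := hS.bump.supp u hu
    have hn : ‖(S.rho η S.ns : ℂ) * u‖ ≤ S.rho η S.ns / 2 := by
      rw [norm_mul, Complex.norm_real, Real.norm_eq_abs, abs_of_pos hr.1]
      nlinarith [hr.1]
    refine ⟨by linarith [hr.2], ?_⟩
    rintro (⟨v, j, _ | _⟩ | ⟨v, t, i⟩ | ⟨e, ε⟩) hπ
    · exact absurd hπ (by simp [Q, pc])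
    · have hlt := rho_lt (S := S) h0 h1 (hS.ix_lt (j, pre j v.1))
      have hr' := rho_mem (S := S) h0 h1 (S.ix (j, pre j v.1))
      have hp : η ^ (6 * h) ≤ 1 := pow_le_one₀ h0.le h1
      have hc : S.rho η S.ns ≤ ‖(S.Q η).c (.inl (v, j, true))‖ := by
        show _ ≤ ‖((sg v.2 : ℝ) : ℂ) * S.cY η j v.1‖
        unfold cY
        rw [norm_mul, norm_mul, sEst_norm_sg, Complex.norm_real, Real.norm_eq_abs,
          abs_of_pos hr'.1]
        have := sEst_yy hS j v.1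
        nlinarith [hr'.1]
      have := norm_sub_norm_le ((S.Q η).c (.inl (v, j, true))) ((S.rho η S.ns : ℂ) * u)
      rw [norm_sub_rev] at this
      linarith [hr.1]
    · exact absurd hπ (by simp [Q, pc])
    · exact absurd hπ (by simp [Q, pc])
  | some v =>
    obtain ⟨u, hu, rfl⟩ := scl_ne (by norm_num : (0 : ℝ) < 1 / 8)
      (show scl (1 / 8) S.β1 w ≠ 0 from hw)
    have hu2 := hS.bump.supp u hu
    have hn : ‖((1 / 8 : ℝ) : ℂ) * u‖ ≤ 1 / 16 := by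
      rw [norm_mul, Complex.norm_real, Real.norm_eq_abs, abs_of_pos (by norm_num)]
      linarith
    refine ⟨by linarith, ?_⟩
    have key : ∀ π, 1 / 8 ≤ ‖(S.Q η).c π‖ → (S.Q η).sep ≤ ‖((1 / 8 : ℝ) : ℂ) * u - (S.Q η).c π‖ := by
      intro π hc
      have := norm_sub_norm_le ((S.Q η).c π) (((1 / 8 : ℝ) : ℂ) * u)
      rw [norm_sub_rev] at this
      linarith [hr.2]
    rintro (⟨v', j, _ | _⟩ | ⟨v', t, i⟩ | ⟨e, ε⟩) hπ
    · exact key _ (sEst_port hS _ _)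
    · exact absurd hπ (by simp [Q, pc])
    · exact key _ (sEst_port hS _ _)
    · exact key _ (sEst_port hS _ _)

theorem Ok.shell_pb (hS : S.Ok) : ∀ᶠ η : ℝ in 𝓝[>] 0, ∀ p ∈ cube (DD h), ∀ i : Fin h × DD h,
    PB (scl (S.rho η (S.ix i)) (S.nu p)) η⁻¹ := by
  have hall : ∀ᶠ η : ℝ in 𝓝[>] 0, ∀ i : Fin h × DD h,
      1000 * S.A * (1 + |Real.log (1 / 8 * η ^ (6 * h * S.ix i))|) ≤ η⁻¹ :=
    Filter.eventually_all.2 fun i => ev_log _ (by norm_num) _
  filter_upwards [hall, ev_small one_pos] with η hη h01 p hp i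
  have hr := rho_mem (S := S) h01.1 h01.2 (S.ix i)
  refine (PB.of_scl (hS.ctl.smooth p).continuous (fun u hu => (hS.ctl.supp p u hu).2.2.2)
    (sEst_nu_abs hS hp) hr.1 hr.2).mono ?_
  rw [sEst_rho_eq]
  exact hη i

theorem Ok.bump_ev (hS : S.Ok) : ∀ᶠ η : ℝ in 𝓝[>] 0, (S.Q η).Bump (S.β η) η⁻¹ := by
  have hg0 := hS.g0_pos
  filter_upwards [ev_log (1000 * S.A) (by norm_num : (0 : ℝ) < 1 / 8) (6 * h * S.ns),
    ev_log (1000 * S.A) (by norm_num : (0 : ℝ) < 1 / 8) 0,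
    ev_log 1 (by positivity : (0 : ℝ) < S.g0 / 32) (6 * h * S.ns),
    ev_small one_pos] with η e1 e2 e3 h01
  have hr := rho_mem (S := S) h01.1 h01.2 S.ns
  refine ⟨?_, ?_, ?_, sEst_core hS h01.1 h01.2, ?_, ?_, ?_⟩
  · rintro (_ | v)
    · exact scl_smooth hS.bump.smooth _
    · exact scl_smooth hS.bump.smooth _
  · rintro (_ | v) w
    · exact sEst_scl_nonneg hS.bump.nonneg _ _
    · exact sEst_scl_nonneg hS.bump.nonneg _ _
  · rintro (_ | v)
    · exact (sEst_int_scl hr.1 _).trans hS.bump.int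
    · exact (sEst_int_scl (by norm_num : (0 : ℝ) < 1 / 8) _).trans hS.bump.int
  · rintro (_ | v)
    · refine (PB.of_scl hS.bump.smooth.continuous (sEst_b_supp hS) (sEst_b_abs hS)
        hr.1 hr.2).mono ?_
      rw [sEst_rho_eq]
      exact e1
    · refine (PB.of_scl hS.bump.smooth.continuous (sEst_b_supp hS) (sEst_b_abs hS)
        (by norm_num : (0 : ℝ) < 1 / 8) le_rfl).mono ?_
      rw [pow_zero, mul_one] at e2
      exact e2
  · exact (one_le_inv₀ h01.1).2 h01.2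
  · have hs : (S.Q η).sep = S.g0 / 32 * η ^ (6 * h * S.ns) := by
      show S.g0 * S.rho η S.ns / 4 = _
      rw [sEst_rho_eq]
      ring
    rw [hs]
    linarith

theorem Ok.est (hS : S.Ok) : ∀ᶠ η : ℝ in 𝓝[>] 0, ∀ p ∈ cube (DD h),
    (S.Q η).Est (S.β η) (S.μ η p) η⁻¹ (S.mm η) := by
  filter_upwards [hS.Q_ok, hS.bump_ev, hS.shell_pb, hS.m_ev, ev_small one_pos,
    ev_pow (8 * (13 * Fintype.card (Fin h × DD h) * S.A)) (by norm_num : 0 < 3),
    ev_pow (8 * (h + 1 : ℝ)) (by norm_num : 0 < 9)] with η hQ hB hP hm h01 e1 e2 p hp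
  have h0 := h01.1
  have hA := hS.ctl.one_le
  have haa : 0 < S.aa η := pow_pos h0 _
  have hm0 : ∀ d, 0 ≤ S.m η p d := fun d => by linarith [(hm p hp d).1]
  have hi : 0 < η⁻¹ := inv_pos.2 h0
  have hc0 : (0 : ℝ) ≤ Fintype.card (Fin h × DD h) := Nat.cast_nonneg _
  refine ⟨hQ, hB, ?_, ?_, ?_, ?_⟩
  · rintro (_ | v) w hw
    · have h1 : ∑ i : Fin h × DD h, scl (S.rho η (S.ix i)) (S.nu p) w ≠ 0 :=
        right_ne_zero_of_mul hw
      obtain ⟨i, -, hi⟩ := Finset.exists_ne_zero_of_sum_ne_zero h1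
      obtain ⟨u, hu, rfl⟩ := scl_ne (rho_mem (S := S) h01.1 h01.2 (S.ix i)).1 hi
      exact hS.shell_core h01.1 h01.2 i hu
    · exact hB.supp (some v) w (right_ne_zero_of_mul hw)
  · rintro (_ | v)
    · have h1 : (fun w => |S.μ η p none w|) =
          fun w => η ^ 4 * ∑ i : Fin h × DD h, scl (S.rho η (S.ix i)) (S.nu p) w := by
        funext w
        exact abs_of_nonneg (mul_nonneg (pow_nonneg h0.le _)
          (Finset.sum_nonneg fun i _ => sEst_scl_nonneg (hS.ctl.nonneg p hp) _ _))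
      rw [h1, integral_const_mul, integral_finsetSum _ fun i _ => (hP p hp i).integrable]
      have h2 : ∀ i : Fin h × DD h, ∫ w, scl (S.rho η (S.ix i)) (S.nu p) w ≤ 13 * S.A := by
        intro i
        rw [sEst_int_scl (rho_mem (S := S) h01.1 h01.2 (S.ix i)).1]
        have h3 := integral_abs_le (fun u hu => (hS.ctl.supp p u hu).2.2.2) (sEst_nu_abs hS hp)
        have h4 : (fun u => |S.nu p u|) = S.nu p := by
          funext u
          exact abs_of_nonneg (hS.ctl.nonneg p hp u)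
        rwa [h4] at h3
      have h5 := Finset.sum_le_card_nsmul Finset.univ _ _ fun i _ => h2 i
      rw [Finset.card_univ, nsmul_eq_mul] at h5
      show _ ≤ 13 * Fintype.card (Fin h × DD h) * S.A * η ^ 4
      have h6 := mul_le_mul_of_nonneg_left h5 (pow_nonneg h0.le 4)
      linarith
    · have h1 : (fun w => |S.μ η p (some v) w|) =
          fun w => S.m η p v.1 * S.β η (some v) w := by
        funext w
        exact abs_of_nonneg (mul_nonneg (hm0 _) (hB.nonneg (some v) w))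
      rw [h1, integral_const_mul, hB.int, mul_one]
      exact (hm p hp v.1).2
  · rintro (_ | v)
    · refine ((PB.sum Finset.univ fun i _ => hP p hp i).const_mul (η ^ 4)).mono ?_
      rw [Finset.sum_const, Finset.card_univ, nsmul_eq_mul, abs_of_pos (pow_pos h0 4)]
      show _ ≤ η⁻¹ * (13 * Fintype.card (Fin h × DD h) * S.A * η ^ 4)
      have h1 : 0 ≤ η ^ 4 * (Fintype.card (Fin h × DD h) * η⁻¹) := by positivity
      nlinarith
    · refine ((hB.pb (some v)).const_mul (S.m η p v.1)).mono ?_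
      rw [abs_of_nonneg (hm0 _), mul_comm]
      exact mul_le_mul_of_nonneg_left (hm p hp v.1).2 hi.le
  · rintro (_ | v)
    · show 8 * η⁻¹ * (13 * Fintype.card (Fin h × DD h) * S.A * η ^ 4) ≤ 1
      have h1 : 8 * η⁻¹ * (13 * Fintype.card (Fin h × DD h) * S.A * η ^ 4) =
          8 * (13 * Fintype.card (Fin h × DD h) * S.A) * η ^ 3 := by
        field_simp
      rw [h1]
      simpa using e1
    · show 8 * η⁻¹ * ((h + 1) * S.aa η) ≤ 1
      have h1 := S.aa_le hS h01.1 h01.2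
      have h2 : 8 * η⁻¹ * ((h + 1 : ℝ) * η ^ 10) = 8 * (h + 1 : ℝ) * η ^ 9 := by
        field_simp
      have h3 : 8 * η⁻¹ * ((h + 1 : ℝ) * S.aa η) ≤ 8 * η⁻¹ * ((h + 1 : ℝ) * η ^ 10) := by
        gcongr
      rw [pow_zero] at e2
      linarith

end Fx

end Pool.Agent.MP_4f0ed6_gt
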