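import Pool.Agent.MP_4f0ed6_gt.SOk

open Set Laplacian Filter Topology MeasureTheory Metric InnerProductSpace
open scoped ContDiff

namespace Pool.Agent.MP_4f0ed6_gt

theorem SEst0_scl_neg {g : ℂ → ℝ} (hg : ∀ u, g (-u) = g u) (ρ : ℝ) (w : ℂ) :
    scl ρ g (-w) = scl ρ g w := by
  unfold scl
  rw [neg_div, hg]

theorem SEst0_scl_nonneg {g : ℂ → ℝ} (hg : ∀ u, 0 ≤ g u) (ρ : ℝ) (w : ℂ) :
    0 ≤ scl ρ g w := by
  unfold scl
  exact mul_nonneg (inv_nonneg.2 (sq_nonneg _)) (hg _)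

theorem SEst0_int_scl {ρ : ℝ} (hρ : 0 < ρ) (g : ℂ → ℝ) : ∫ u, scl ρ g u = ∫ u, g u := by
  have := integral_scl hρ (fun _ => 1) g
  simpa using this

theorem SEst0_scl_integrable {ρ : ℝ} (hρ : 0 < ρ) {g : ℂ → ℝ} (hg : Continuous g)
    (hs : ∀ u, g u ≠ 0 → ‖u‖ ≤ 2) : Integrable (scl ρ g) := by
  have hc : Continuous (scl ρ g) := by
    unfold scl
    fun_prop
  refine hc.integrable_of_hasCompactSupport ?_
  refine HasCompactSupport.intro (isCompact_closedBall (0 : ℂ) (2 * ρ)) ?_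
  intro w hw
  by_contra hne
  obtain ⟨u, hu, rfl⟩ := scl_ne hρ hne
  apply hw
  rw [mem_closedBall, dist_zero_right, norm_mul, Complex.norm_real, Real.norm_eq_abs,
    abs_of_pos hρ]
  have := hs u hu
  nlinarith

theorem SEst0_abs_scl_sub (ρ : ℝ) (g g' : ℂ → ℝ) (w : ℂ) :
    |scl ρ g w - scl ρ g' w| = scl ρ (fun u => |g u - g' u|) w := by
  unfold scl
  rw [← mul_sub, abs_mul, abs_of_nonneg (inv_nonneg.2 (sq_nonneg _))]

namespace Fx

variable {h nT nx : ℕ} {S : Fx h nT nx}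

theorem SEst0_rho_pos {η : ℝ} (h0 : 0 < η) (k : ℕ) : 0 < S.rho η k := by
  unfold rho
  positivity

theorem Ok.β_sym (hS : S.Ok) (η : ℝ) (v : Option (DD h × Bool)) (w : ℂ) :
    S.β η (iV v) (-w) = S.β η v w := by
  rcases v with _ | v
  · exact SEst0_scl_neg hS.bump.even _ _
  · exact SEst0_scl_neg hS.bump.even _ _

theorem Ok.μ_sym (hS : S.Ok) (η : ℝ) (p : DD h × DD h → ℝ) (v : Option (DD h × Bool)) (w : ℂ) :
    S.μ η p (iV v) (-w) = S.μ η p v w := by
  rcases v with _ | v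
  · show η ^ 4 * ∑ i : Fin h × DD h, scl (S.rho η (S.ix i)) (S.nu p) (-w) =
      η ^ 4 * ∑ i : Fin h × DD h, scl (S.rho η (S.ix i)) (S.nu p) w
    congr 1
    exact Finset.sum_congr rfl fun i _ => SEst0_scl_neg (hS.ctl.even p) _ _
  · show S.m η p v.1 * scl (1 / 8) S.β1 (-w) = S.m η p v.1 * scl (1 / 8) S.β1 w
    rw [SEst0_scl_neg hS.bump.even]

theorem Ok.μ_smooth (hS : S.Ok) (η : ℝ) (p : DD h × DD h → ℝ) (v : Option (DD h × Bool)) :
    ContDiff ℝ ∞ (S.μ η p v) := by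
  rcases v with _ | v
  · show ContDiff ℝ ∞ fun w => η ^ 4 * ∑ i : Fin h × DD h, scl (S.rho η (S.ix i)) (S.nu p) w
    exact contDiff_const.mul (ContDiff.sum fun i _ => scl_smooth (hS.ctl.smooth p) _)
  · show ContDiff ℝ ∞ fun w => S.m η p v.1 * scl (1 / 8) S.β1 w
    exact contDiff_const.mul (scl_smooth hS.bump.smooth _)

theorem Ok.shell_core (hS : S.Ok) {η : ℝ} (h0 : 0 < η) (h1 : η ≤ 1) (i : Fin h × DD h)
    {p : DD h × DD h → ℝ} {u : ℂ} (hu : S.nu p u ≠ 0) :
    (S.rho η (S.ix i) : ℂ) * u ∈ (S.Q η).core none := by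
  obtain ⟨hre, him, -, hn⟩ := hS.ctl.supp p u hu
  obtain ⟨hρ0, hρ1⟩ := rho_mem (S := S) h0 h1 (S.ix i)
  have hsep : (S.Q η).sep ≤ S.rho η (S.ix i) * (3 / 4) := by
    show S.g0 * S.rho η S.ns / 4 ≤ _
    have h2 := rho_lt (S := S) h0 h1 (hS.ix_lt i)
    have h3 : η ^ (6 * h) ≤ 1 := pow_le_one₀ h0.le h1
    have h4 : 0 < S.rho η S.ns := SEst0_rho_pos h0 _
    have h5 : S.g0 * S.rho η S.ns ≤ S.rho η S.ns := mul_le_of_le_one_left h4.le hS.g0_le
    have h6 : η ^ (6 * h) * S.rho η (S.ix i) ≤ S.rho η (S.ix i) :=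
      mul_le_of_le_one_left hρ0.le h3
    linarith
  refine ⟨?_, ?_⟩
  · rw [norm_mul, Complex.norm_real, Real.norm_eq_abs, abs_of_pos hρ0]
    nlinarith [norm_nonneg u]
  · intro π hπ
    rcases π with ⟨v, j, b⟩ | ⟨v, t, b⟩ | ⟨e, ε⟩
    · cases b
      · exact absurd hπ (by simp [Q, pc])
      · have hc : (S.Q η).c (.inl (v, j, true)) =
            sg v.2 * (S.rho η (S.ix (j, pre j v.1)) * S.yy j v.1) := rfl
        rw [hc]
        obtain ⟨-, -, hax | hax⟩ := hS.yy_ax j v.1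
        · refine le_trans ?_ (Complex.abs_re_le_norm _)
          have : ((S.rho η (S.ix i) : ℂ) * u -
              sg v.2 * (S.rho η (S.ix (j, pre j v.1)) * S.yy j v.1)).re =
              S.rho η (S.ix i) * u.re := by
            simp [hax]
          rw [this, abs_mul, abs_of_pos hρ0]
          exact hsep.trans (mul_le_mul_of_nonneg_left hre hρ0.le)
        · refine le_trans ?_ (Complex.abs_im_le_norm _)
          have : ((S.rho η (S.ix i) : ℂ) * u -
              sg v.2 * (S.rho η (S.ix (j, pre j v.1)) * S.yy j v.1)).im =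
              S.rho η (S.ix i) * u.im := by
            simp [hax]
          rw [this, abs_mul, abs_of_pos hρ0]
          exact hsep.trans (mul_le_mul_of_nonneg_left him hρ0.le)
    · exact absurd hπ (by simp [Q, pc])
    · exact absurd hπ (by simp [Q, pc])

theorem Ok.m_ev (hS : S.Ok) : ∀ᶠ η : ℝ in 𝓝[>] 0, ∀ p ∈ cube (DD h), ∀ d,
    S.aa η / 2 ≤ S.m η p d ∧ S.m η p d ≤ (h + 1) * S.aa η := by
  filter_upwards [ev_small one_pos, ev_pow (2 * S.θ) (show 6 * h + 4 < 12 * h + 5 by omega),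
    ev_pow 2 (show 6 * h + 4 < 12 * h + 6 by omega)] with η ⟨h0, h1⟩ h2 h3 p hp d
  obtain ⟨h4, h5⟩ := S.sum_aj hS h0 h1
  have h6 : 0 ≤ S.θ * S.am η := mul_nonneg hS.graph.θ_nonneg (by unfold am; positivity)
  have h7 : S.θ * S.am η ≤ S.aa η / 2 := by
    unfold am aa
    linarith
  have h8 : S.ad η ≤ S.aa η / 2 := by
    unfold ad aa
    linarith
  have h9 : 0 ≤ S.ad η := by unfold ad; positivity
  have h10 := abs_le.1 (hp (d, d))
  have h11 : -S.ad η ≤ S.ad η * p (d, d) := by nlinarith [h10.1]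
  have h12 : S.ad η * p (d, d) ≤ S.ad η := by nlinarith [h10.2]
  unfold m
  constructor
  · linarith
  · nlinarith

theorem Ok.mass_Y (hS : S.Ok) {η : ℝ} (h0 : 0 < η) {p : DD h × DD h → ℝ} (hp : p ∈ cube (DD h)) :
    η ^ 4 ≤ ∫ w, S.μ η p none w := by
  show η ^ 4 ≤ ∫ w, η ^ 4 * ∑ i : Fin h × DD h, scl (S.rho η (S.ix i)) (S.nu p) w
  rw [integral_const_mul, integral_finsetSum _ fun i _ =>
    SEst0_scl_integrable (SEst0_rho_pos h0 _) (hS.ctl.smooth p).continuous
      fun u hu => (hS.ctl.supp p u hu).2.2.2]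
  refine le_mul_of_one_le_right (by positivity) ?_
  have i0 : Fin h × DD h := (⟨0, hS.h_pos⟩, fun _ => false)
  have h1 : ∀ i : Fin h × DD h, 1 ≤ ∫ w, scl (S.rho η (S.ix i)) (S.nu p) w := fun i => by
    rw [SEst0_int_scl (SEst0_rho_pos h0 _)]
    exact hS.ctl.mass p hp
  exact (h1 i0).trans (Finset.single_le_sum
    (f := fun i : Fin h × DD h => ∫ w, scl (S.rho η (S.ix i)) (S.nu p) w)
    (fun i _ => zero_le_one.trans (h1 i)) (Finset.mem_univ i0))

theorem Ok.μ_nonneg (hS : S.Ok) : ∀ᶠ η : ℝ in 𝓝[>] 0, ∀ p ∈ cube (DD h), ∀ v w,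
    0 ≤ S.μ η p v w := by
  filter_upwards [ev_small one_pos, hS.m_ev] with η ⟨h0, _⟩ h2 p hp v w
  rcases v with _ | v
  · show 0 ≤ η ^ 4 * ∑ i : Fin h × DD h, scl (S.rho η (S.ix i)) (S.nu p) w
    exact mul_nonneg (by positivity)
      (Finset.sum_nonneg fun i _ => SEst0_scl_nonneg (hS.ctl.nonneg p hp) _ _)
  · show 0 ≤ S.m η p v.1 * scl (1 / 8) S.β1 w
    have h3 : 0 ≤ S.aa η / 2 := by unfold aa; positivity
    exact mul_nonneg (h3.trans (h2 p hp v.1).1) (SEst0_scl_nonneg hS.bump.nonneg _ _)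

theorem Ok.μ_lip (hS : S.Ok) {η : ℝ} (h0 : 0 < η) : ∃ Cl : ℝ, ∀ p p' v,
    ∫ w, |S.μ η p v w - S.μ η p' v w| ≤ Cl * ‖p - p'‖ := by
  have hA : 0 ≤ S.A := zero_le_one.trans hS.ctl.one_le
  have had : 0 ≤ S.ad η := by unfold ad; positivity
  refine ⟨η ^ 4 * (Fintype.card (Fin h × DD h) * (13 * S.A)) + S.ad η, fun p p' v => ?_⟩
  have hn := norm_nonneg (p - p')
  rcases v with _ | v
  · have hs : ∀ u, |S.nu p u - S.nu p' u| ≠ 0 → ‖u‖ ≤ 2 := by
      intro u hu
      by_cases h1 : S.nu p u = 0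
      · have h2 : S.nu p' u ≠ 0 := by
          intro h2
          apply hu
          rw [h1, h2, sub_self, abs_zero]
        exact (hS.ctl.supp p' u h2).2.2.2
      · exact (hS.ctl.supp p u h1).2.2.2
    have hc : Continuous fun u => |S.nu p u - S.nu p' u| :=
      ((hS.ctl.smooth p).continuous.sub (hS.ctl.smooth p').continuous).abs
    have hI : ∀ i : Fin h × DD h,
        Integrable (scl (S.rho η (S.ix i)) fun u => |S.nu p u - S.nu p' u|) := fun i =>
      SEst0_scl_integrable (SEst0_rho_pos h0 _) hc hs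
    have hb : ∫ u, |S.nu p u - S.nu p' u| ≤ 13 * (S.A * ‖p - p'‖) := by
      refine integral_abs_le (g := fun u => S.nu p u - S.nu p' u) (fun u hu => hs u ?_)
        fun u => hS.ctl.lip p p' u
      exact abs_ne_zero.2 hu
    have hle : ∀ w, |S.μ η p none w - S.μ η p' none w| ≤ η ^ 4 * ∑ i : Fin h × DD h,
        scl (S.rho η (S.ix i)) (fun u => |S.nu p u - S.nu p' u|) w := by
      intro w
      show |η ^ 4 * ∑ i : Fin h × DD h, scl (S.rho η (S.ix i)) (S.nu p) w -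
        η ^ 4 * ∑ i : Fin h × DD h, scl (S.rho η (S.ix i)) (S.nu p') w| ≤ _
      rw [← mul_sub, abs_mul, abs_of_nonneg (by positivity : (0 : ℝ) ≤ η ^ 4),
        ← Finset.sum_sub_distrib]
      refine mul_le_mul_of_nonneg_left ((Finset.abs_sum_le_sum_abs _ _).trans (le_of_eq ?_))
        (by positivity)
      exact Finset.sum_congr rfl fun i _ => SEst0_abs_scl_sub _ _ _ _
    calc ∫ w, |S.μ η p none w - S.μ η p' none w|
        ≤ ∫ w, η ^ 4 * ∑ i : Fin h × DD h,
          scl (S.rho η (S.ix i)) (fun u => |S.nu p u - S.nu p' u|) w :=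
          integral_mono_of_nonneg (Eventually.of_forall fun w => abs_nonneg _)
            ((integrable_finsetSum _ fun i _ => hI i).const_mul _) (Eventually.of_forall hle)
      _ = η ^ 4 * ∑ _i : Fin h × DD h, ∫ u, |S.nu p u - S.nu p' u| := by
          rw [integral_const_mul, integral_finsetSum _ fun i _ => hI i]
          congr 1
          exact Finset.sum_congr rfl fun i _ => SEst0_int_scl (SEst0_rho_pos h0 _) _
      _ ≤ η ^ 4 * (Fintype.card (Fin h × DD h) * (13 * (S.A * ‖p - p'‖))) := by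
          rw [Finset.sum_const, Finset.card_univ, nsmul_eq_mul]
          gcongr
      _ ≤ _ := by nlinarith [mul_nonneg had hn]
  · have he : ∀ w, |S.μ η p (some v) w - S.μ η p' (some v) w| =
        S.ad η * |(p - p') (v.1, v.1)| * scl (1 / 8) S.β1 w := by
      intro w
      show |S.m η p v.1 * scl (1 / 8) S.β1 w - S.m η p' v.1 * scl (1 / 8) S.β1 w| = _
      rw [← sub_mul, abs_mul, abs_of_nonneg (SEst0_scl_nonneg hS.bump.nonneg _ _)]
      congr 1
      have : S.m η p v.1 - S.m η p' v.1 = S.ad η * (p - p') (v.1, v.1) := by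
        unfold m
        rw [Pi.sub_apply]
        ring
      rw [this, abs_mul, abs_of_nonneg had]
    simp_rw [he]
    rw [integral_const_mul, SEst0_int_scl (by norm_num), hS.bump.int, mul_one]
    have h1 : |(p - p') (v.1, v.1)| ≤ ‖p - p'‖ := norm_le_pi_norm (p - p') (v.1, v.1)
    have h2 : 0 ≤ η ^ 4 * (Fintype.card (Fin h × DD h) * (13 * S.A)) * ‖p - p'‖ := by positivity
    have h3 := mul_le_mul_of_nonneg_left h1 had
    nlinarith

end Fx

end Pool.Agent.MP_4f0ed6_gt
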