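import Pool.Agent.MP_4f0ed6_gt.SDefs
import Pool.Agent.MP_4f0ed6_gt.PlGeo

open Set Laplacian Filter Topology MeasureTheory Metric InnerProductSpace
open scoped ContDiff

namespace Pool.Agent.MP_4f0ed6_gt

theorem ori_total {h : ℕ} {d d' : DD h} (hne : d ≠ d') : ∃ j, Ori j d d' ∨ Ori j d' d := by
  classical
  have hex : ∃ j, d j ≠ d' j := Function.ne_iff.1 hne
  obtain ⟨j, hj, hmin⟩ := (wellFounded_lt (α := Fin h)).has_min {j | d j ≠ d' j} hex
  have hp : pre j d = pre j d' := by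
    funext i
    unfold pre
    split_ifs with hi
    · by_contra hc
      exact hmin i hc hi
    · rfl
  refine ⟨j, ?_⟩
  have hj' : d j ≠ d' j := hj
  cases h1 : d j <;> cases h2 : d' j
  · exact absurd (h1.trans h2.symm) hj'
  · exact Or.inl ⟨hp, h1, h2⟩
  · exact Or.inr ⟨hp.symm, h2, h1⟩
  · exact absurd (h1.trans h2.symm) hj'

theorem Ori.pre_ne {h : ℕ} {j j' : Fin h} {d d' : DD h} (ho : Ori j d d') (hj : j < j') :
    pre j' d' ≠ pre j' d := by
  intro e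
  have := congrFun e j
  simp only [pre, if_pos hj, ho.2.1, ho.2.2] at this
  exact absurd this (by simp)

namespace Fx

variable {h nT nx : ℕ} (S : Fx h nT nx)

theorem n_eq (η : ℝ) : (S.Q η).n = Fintype.card (PP h nT nx) + 1 := rfl

theorem card_PP : Fintype.card (PP h nT nx) = 2 ^ h * 4 * (h + nT) + 2 * nx := by
  simp only [Fintype.card_sum, Fintype.card_prod, Fintype.card_fun, Fintype.card_bool,
    Fintype.card_fin]
  ring

theorem card_VV : Fintype.card (Option (DD h × Bool)) = 2 ^ h * 2 + 1 := by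
  simp only [Fintype.card_option, Fintype.card_prod, Fintype.card_fun, Fintype.card_bool,
    Fintype.card_fin]

theorem aj_pos {η : ℝ} (h0 : 0 < η) (j : Fin h) : 0 < S.aj η j := by
  unfold aj aa
  positivity

theorem aj_le {η : ℝ} (h0 : 0 < η) (h1 : η ≤ 1) (j : Fin h) : S.aj η j ≤ S.aa η := by
  unfold aj
  exact mul_le_of_le_one_left (by unfold aa; positivity) (pow_le_one₀ h0.le h1)

theorem aj_lt {η : ℝ} (h0 : 0 < η) (h1 : η ≤ 1) {j j' : Fin h} (hj : j' < j) :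
    S.aj η j' ≤ η ^ 3 * S.aj η j := by
  unfold aj
  rw [← mul_assoc, ← pow_add]
  refine mul_le_mul_of_nonneg_right (pow_le_pow_of_le_one h0.le h1 ?_) (by unfold aa; positivity)
  have := j.2
  have : (j' : ℕ) < j := hj
  omega

theorem aj_ge {η : ℝ} (h0 : 0 < η) (h1 : η ≤ 1) (j : Fin h) :
    η ^ (6 * h) * S.aa η ^ 2 ≤ η ^ 6 * S.aj η j ^ 2 := by
  unfold aj
  rw [mul_pow, ← mul_assoc, ← pow_mul, ← pow_add]
  refine mul_le_mul_of_nonneg_right (pow_le_pow_of_le_one h0.le h1 ?_) (by positivity)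
  have := j.2
  omega

theorem sum_aj {η : ℝ} (hS : S.Ok) (h0 : 0 < η) (h1 : η ≤ 1) :
    S.aa η ≤ ∑ j, S.aj η j ∧ ∑ j, S.aj η j ≤ h * S.aa η := by
  constructor
  · have hh := hS.h_pos
    have e : S.aj η ⟨h - 1, by omega⟩ = S.aa η := by simp [aj]
    rw [← e]
    exact Finset.single_le_sum (f := fun j => S.aj η j) (fun j _ => (S.aj_pos h0 j).le)
      (Finset.mem_univ _)
  · calc ∑ j, S.aj η j ≤ ∑ _j : Fin h, S.aa η := Finset.sum_le_sum fun j _ => S.aj_le h0 h1 j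
      _ = h * S.aa η := by simp

theorem cond_pos {η : ℝ} (h0 : 0 < η) (π : PP h nT nx) : 0 < S.cond η π := by
  rcases π with ⟨v, j, i⟩ | q | q
  · exact S.aj_pos h0 j
  · simp only [cond, am]
    positivity
  · simp only [cond, aa]
    positivity

theorem cond_le {η : ℝ} (h0 : 0 < η) (h1 : η ≤ 1) (hS : S.Ok) (π : PP h nT nx) :
    S.cond η π ≤ S.aa η := by
  have _ := hS
  rcases π with ⟨v, j, i⟩ | q | q
  · exact S.aj_le h0 h1 j
  · simp only [cond, am, aa]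
    exact pow_le_pow_of_le_one h0.le h1 (by omega)
  · simp only [cond, aa]
    rw [← pow_mul]
    exact pow_le_pow_of_le_one h0.le h1 (by omega)

theorem am_eq {η : ℝ} (h0 : 0 < η) : S.am η = S.aa η ^ 2 / η ^ 3 := by
  unfold am aa
  field_simp
  ring

theorem ad_eq {η : ℝ} (h0 : 0 < η) : S.ad η = S.aa η ^ 2 / η ^ 2 := by
  unfold ad aa
  field_simp
  ring

theorem aa_le {η : ℝ} (hS : S.Ok) (h0 : 0 < η) (h1 : η ≤ 1) : S.aa η ≤ η ^ 10 := by
  have := hS.h_pos
  exact pow_le_pow_of_le_one h0.le h1 (by omega)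

theorem b_eq {η s N : ℝ} (h0 : 0 < η) {p : DD h × DD h → ℝ} {u : Option (DD h × Bool) → ℝ}
    (ρ : S.Rp η p s N u) (π : PP h nT nx) :
    ρ.b π = S.cond η π * (ρ.R π - ρ.R (S.σ π)) ∧ |ρ.b π| ≤ 4 * S.cond η π * N := by
  have hc := S.cond_pos h0 π
  have e1 : (S.cond η π)⁻¹ * ρ.b π = ρ.R π - ρ.R (S.σ π) := ρ.tube π
  have e2 : (S.cond η π)⁻¹ * |ρ.b π| ≤ 4 * N := ρ.b_le π
  constructor
  · rw [← e1, ← mul_assoc, mul_inv_cancel₀ hc.ne', one_mul]
  · rw [inv_mul_le_iff₀ hc] at e2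
    linarith

end Fx

end Pool.Agent.MP_4f0ed6_gt
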