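import Pool.Agent.MP_4f0ed6_gt.Shell1

open Set Laplacian Filter Topology MeasureTheory Metric InnerProductSpace
open scoped ContDiff

namespace Pool.Agent.MP_4f0ed6_gt

variable {I : Type} [Fintype I] {ρ α : I → ℝ} {y : I → ℂ} {ν F : ℂ → ℝ} {ϖ A Λ M a E : ℝ}

theorem Shell_dist {y u : ℂ} (hy : OnAx y)
    (hu : 3 / 4 ≤ |u.re| ∧ 3 / 4 ≤ |u.im| ∧ 1 ≤ ‖u‖ ∧ ‖u‖ ≤ 2) :
    (3 / 4 ≤ ‖y - u‖ ∧ ‖y - u‖ ≤ 4) ∧ (3 / 4 ≤ ‖y + u‖ ∧ ‖y + u‖ ≤ 4) := by
  obtain ⟨-, h2, h3⟩ := hy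
  obtain ⟨u1, u2, -, u4⟩ := hu
  have a1 := norm_sub_le y u
  have a2 := norm_add_le y u
  have b1 := Complex.abs_re_le_norm (y - u)
  have b2 := Complex.abs_im_le_norm (y - u)
  have b3 := Complex.abs_re_le_norm (y + u)
  have b4 := Complex.abs_im_le_norm (y + u)
  rcases h3 with h3 | h3
  · simp only [Complex.sub_re, Complex.add_re, h3, zero_sub, zero_add, abs_neg] at b1 b3
    exact ⟨⟨by linarith, by linarith⟩, by linarith, by linarith⟩
  · simp only [Complex.sub_im, Complex.add_im, h3, zero_sub, zero_add, abs_neg] at b2 b4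
    exact ⟨⟨by linarith, by linarith⟩, by linarith, by linarith⟩

theorem Shell_log {s t : ℝ} (hs : 3 / 4 ≤ s) (ht : t ≤ 4) (ht0 : 0 < t) :
    Real.log t - Real.log s ≤ 2 := by
  have h1 : Real.log t ≤ Real.log 4 := Real.log_le_log ht0 ht
  have h2 : Real.log (3 / 4) ≤ Real.log s := Real.log_le_log (by norm_num) hs
  have h3 : Real.log 4 = 2 * Real.log 2 := by
    rw [show (4 : ℝ) = 2 ^ 2 by norm_num, Real.log_pow]; norm_num
  have h4 := Real.log_two_lt_d9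
  have h5 := Real.one_sub_inv_le_log_of_pos (show (0 : ℝ) < 3 / 4 by norm_num)
  norm_num at h5
  linarith

theorem Shell_kk {y u : ℂ} (hy : OnAx y)
    (hu : 3 / 4 ≤ |u.re| ∧ 3 / 4 ≤ |u.im| ∧ 1 ≤ ‖u‖ ∧ ‖u‖ ≤ 2) : |kk y u| ≤ 2 := by
  obtain ⟨⟨a1, a2⟩, a3, a4⟩ := Shell_dist hy hu
  have b1 := Shell_log a1 a4 (by linarith)
  have b2 := Shell_log a3 a2 (by linarith)
  unfold kk
  rw [abs_le]
  constructor <;> linarith

theorem Shell_smul {y u : ℂ} {r : ℝ} (hr : 0 < r) (hy : OnAx y)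
    (hu : 3 / 4 ≤ |u.re| ∧ 3 / 4 ≤ |u.im| ∧ 1 ≤ ‖u‖ ∧ ‖u‖ ≤ 2) :
    kk (r * y) (r * u) = kk y u := by
  obtain ⟨⟨a1, -⟩, a3, -⟩ := Shell_dist hy hu
  apply kk_smul hr
  · intro h; rw [h, norm_zero] at a1; linarith
  · intro h; rw [h, norm_zero] at a3; linarith

theorem Shell_meas (y : ℂ) : Measurable fun u => kk y u := by
  unfold kk
  exact (Real.measurable_log.comp (measurable_const.sub measurable_id).norm).sub
    (Real.measurable_log.comp (measurable_const.add measurable_id).norm)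

theorem Shell_int {φ : ℂ → ℝ} {N : ℝ} (hν : Continuous ν) (hs : ∀ u, ν u ≠ 0 → ‖u‖ ≤ 2)
    (hφ : Measurable φ) (hN : ∀ u, ν u ≠ 0 → |φ u| ≤ N) : Integrable fun u => φ u * ν u := by
  have hc : HasCompactSupport ν := by
    apply HasCompactSupport.intro (isCompact_closedBall (0 : ℂ) 2)
    intro x hx
    by_contra h0
    exact hx (by simpa using hs x h0)
  have hi : Integrable ν := hν.integrable_of_hasCompactSupport hc
  refine Integrable.mono' (hi.norm.const_mul N) (hφ.mul hν.measurable).aestronglyMeasurable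
    (Eventually.of_forall fun u => ?_)
  by_cases h0 : ν u = 0
  · simp [h0]
  · rw [norm_mul]
    exact mul_le_mul_of_nonneg_right (hN u h0) (norm_nonneg _)

theorem Shell_bd {φ : ℂ → ℝ} {N : ℝ} (hs : ∀ u, ν u ≠ 0 → ‖u‖ ≤ 2) (hA : ∀ u, |ν u| ≤ A)
    (hN0 : 0 ≤ N) (hN : ∀ u, ν u ≠ 0 → |φ u| ≤ N) : |∫ u, φ u * ν u| ≤ 13 * (N * A) := by
  have hA0 : 0 ≤ A := (abs_nonneg _).trans (hA 0)
  refine abs_integral_le_integral_abs.trans (integral_abs_le (g := fun u => φ u * ν u) ?_ ?_)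
  · intro u hu
    exact hs u (right_ne_zero_of_mul hu)
  · intro u
    by_cases h0 : ν u = 0
    · simp only [h0, mul_zero, abs_zero]
      positivity
    · rw [abs_mul]
      exact mul_le_mul (hN u h0) (hA u) (abs_nonneg _) hN0

theorem shell_in {r c ζ : ℝ} {y₀ y₁ : ℂ} (hr : 0 < r ∧ r ≤ 1 / 8) (hν : Continuous ν)
    (hs : ∀ u, ν u ≠ 0 → 3 / 4 ≤ |u.re| ∧ 3 / 4 ≤ |u.im| ∧ 1 ≤ ‖u‖ ∧ ‖u‖ ≤ 2)
    (hA : ∀ u, |ν u| ≤ A) (hΛ : PB (scl r ν) Λ) (hM : 0 ≤ M) (hMΛ : 2 * M * Λ ≤ 1)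
    (hMA : 26 * M * A ≤ 1) (hy₀ : OnAx y₀) (hy₁ : OnAx y₁) (hF : Continuous F)
    (h : ∀ u, ν u ≠ 0 → |F (r * u) + c * kk (r * u) (r * y₁) +
      M / 2 * ∫ z, kk (r * u) z * (scl r ν z * F z)| ≤ ζ) (hζ : 0 ≤ ζ) :
    |M / 2 * (∫ z, kk (r * y₀) z * (scl r ν z * F z)) +
      M / 2 * c * ∫ u, kk y₀ u * kk u y₁ * ν u| ≤ 52 * M ^ 2 * Λ * A * |c| + ζ := by
  have hΛ0 : 0 ≤ Λ := hΛ.nonneg
  have hA0 : 0 ≤ A := (abs_nonneg _).trans (hA 0)
  have hs2 : ∀ u, ν u ≠ 0 → ‖u‖ ≤ 2 := fun u hu => (hs u hu).2.2.2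
  have hru : ∀ u, ν u ≠ 0 → ‖(r : ℂ) * u‖ ≤ 2 := by
    intro u hu
    rw [norm_mul, Complex.norm_real, Real.norm_eq_abs, abs_of_pos hr.1]
    have := hs2 u hu
    nlinarith [hr.1, hr.2, norm_nonneg u]
  obtain ⟨C, hC⟩ := (isCompact_closedBall (0 : ℂ) 2).exists_bound_of_continuousOn hF.continuousOn
  set T : Set ℝ := {t | ∃ u, ν u ≠ 0 ∧ t = |F (r * u)|} with hT
  have hTb : BddAbove T := by
    refine ⟨C, ?_⟩
    rintro t ⟨u, hu, rfl⟩
    exact hC _ (by simpa using hru u hu)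
  set S := sSup T with hS
  have hS0 : 0 ≤ S := Real.sSup_nonneg (by rintro t ⟨u, -, rfl⟩; exact abs_nonneg _)
  have hle : ∀ u, ν u ≠ 0 → |F (r * u)| ≤ S := fun u hu => le_csSup hTb ⟨u, hu, rfl⟩
  have hPB : PB (fun z => scl r ν z * F z) (S * Λ) := by
    refine hΛ.of_le hS0 (hΛ.cont.mul hF) fun z => ?_
    by_cases h0 : scl r ν z = 0
    · simp [h0]
    · obtain ⟨u, hu, rfl⟩ := scl_ne hr.1 h0
      rw [abs_mul, mul_comm]
      exact mul_le_mul_of_nonneg_right (hle u hu) (abs_nonneg _)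
  have hk1 : ∀ u, ν u ≠ 0 → kk (r * u) (r * y₁) = kk u y₁ := by
    intro u hu
    rw [kk_comm, Shell_smul hr.1 hy₁ (hs u hu), kk_comm]
  have hk2 : ∀ u, ν u ≠ 0 → |kk u y₁| ≤ 2 := by
    intro u hu
    rw [kk_comm]
    exact Shell_kk hy₁ (hs u hu)
  have hstep : ∀ u, ν u ≠ 0 → |F (r * u) + c * kk u y₁| ≤ M * Λ * S + ζ := by
    intro u hu
    have h1 := h u hu
    rw [hk1 u hu] at h1
    have h2 := hPB.abs_kk (hru u hu)
    set J := ∫ z, kk (r * u) z * (scl r ν z * F z)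
    have h3 : |M / 2 * J| ≤ M * Λ * S := by
      rw [abs_mul, abs_of_nonneg (by positivity : 0 ≤ M / 2)]
      have := mul_le_mul_of_nonneg_left h2 (by positivity : 0 ≤ M / 2)
      linarith
    have h4 := abs_sub (F (r * u) + c * kk u y₁ + M / 2 * J) (M / 2 * J)
    rw [add_sub_cancel_right] at h4
    linarith
  have hck : ∀ u, ν u ≠ 0 → |c * kk u y₁| ≤ 2 * |c| := by
    intro u hu
    rw [abs_mul, mul_comm]
    exact mul_le_mul_of_nonneg_right (hk2 u hu) (abs_nonneg _)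
  have hMS : M * Λ * S ≤ S / 2 := by nlinarith
  have hS1 : S ≤ 2 * |c| + M * Λ * S + ζ := by
    apply Real.sSup_le
    · rintro t ⟨u, hu, rfl⟩
      have h4 := abs_sub (F (r * u) + c * kk u y₁) (c * kk u y₁)
      rw [add_sub_cancel_right] at h4
      linarith [hstep u hu, hck u hu]
    · positivity
  have hS2 : S ≤ 4 * |c| + 2 * ζ := by linarith
  have hD : ∀ u, ν u ≠ 0 → |F (r * u) + c * kk u y₁| ≤ 4 * M * Λ * |c| + 2 * ζ := by
    intro u hu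
    have h1 := mul_le_mul_of_nonneg_left hS2 (by positivity : 0 ≤ M * Λ)
    have h2 := mul_le_mul_of_nonneg_right hMΛ hζ
    linarith [hstep u hu]
  have e1 : ∫ z, kk (r * y₀) z * (scl r ν z * F z) = ∫ u, kk y₀ u * F (r * u) * ν u := by
    have := integral_scl hr.1 (fun z => kk (r * y₀) z * F z) ν
    rw [show (fun z => kk (r * y₀) z * (scl r ν z * F z)) =
      fun z => kk (r * y₀) z * F z * scl r ν z from funext fun z => by ring, this]
    congr 1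
    funext u
    by_cases h0 : ν u = 0
    · simp [h0]
    · rw [Shell_smul hr.1 hy₀ (hs u h0)]
  have hm1 : Measurable fun u => kk u y₁ := by
    simp only [fun u => kk_comm u y₁]
    exact Shell_meas y₁
  have hmF : Measurable fun u : ℂ => F (r * u) :=
    (hF.comp (continuous_const.mul continuous_id)).measurable
  have i1 : Integrable fun u => kk y₀ u * F (r * u) * ν u := by
    refine Shell_int (N := 2 * S) hν hs2 ((Shell_meas y₀).mul hmF) fun u hu => ?_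
    rw [abs_mul]
    exact mul_le_mul (Shell_kk hy₀ (hs u hu)) (hle u hu) (abs_nonneg _) (by norm_num)
  have i2 : Integrable fun u => kk y₀ u * kk u y₁ * ν u := by
    refine Shell_int (N := 2 * 2) hν hs2 ((Shell_meas y₀).mul hm1) fun u hu => ?_
    rw [abs_mul]
    exact mul_le_mul (Shell_kk hy₀ (hs u hu)) (hk2 u hu) (abs_nonneg _) (by norm_num)
  have e2 : (∫ u, kk y₀ u * F (r * u) * ν u) + c * ∫ u, kk y₀ u * kk u y₁ * ν u =
      ∫ u, kk y₀ u * (F (r * u) + c * kk u y₁) * ν u := by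
    rw [← integral_const_mul, ← integral_add i1 (i2.const_mul c)]
    congr 1
    funext u
    ring
  have e3 := Shell_bd (φ := fun u => kk y₀ u * (F (r * u) + c * kk u y₁))
    (N := 2 * (4 * M * Λ * |c| + 2 * ζ)) hs2 hA (by positivity) fun u hu => by
      rw [abs_mul]
      exact mul_le_mul (Shell_kk hy₀ (hs u hu)) (hD u hu) (abs_nonneg _) (by norm_num)
  rw [e1, mul_assoc (M / 2) c, ← mul_add, e2, abs_mul, abs_of_nonneg (by positivity : 0 ≤ M / 2)]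
  have h5 := mul_le_mul_of_nonneg_left e3 (by positivity : 0 ≤ M / 2)
  have h6 := mul_le_mul_of_nonneg_right hMA hζ
  linarith

theorem int_kk_le {y₀ y₁ : ℂ} (hy₀ : OnAx y₀) (hy₁ : OnAx y₁)
    (hs : ∀ u, ν u ≠ 0 → 3 / 4 ≤ |u.re| ∧ 3 / 4 ≤ |u.im| ∧ 1 ≤ ‖u‖ ∧ ‖u‖ ≤ 2)
    (hA : ∀ u, |ν u| ≤ A) : |∫ u, kk y₀ u * kk u y₁ * ν u| ≤ 52 * A := by
  have e3 := Shell_bd (φ := fun u => kk y₀ u * kk u y₁) (N := 2 * 2)
    (fun u hu => (hs u hu).2.2.2) hA (by positivity) fun u hu => by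
      rw [abs_mul, kk_comm u y₁]
      exact mul_le_mul (Shell_kk hy₀ (hs u hu)) (Shell_kk hy₁ (hs u hu)) (abs_nonneg _)
        (by norm_num)
  linarith

end Pool.Agent.MP_4f0ed6_gt
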