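import Pool.Agent.MP_4f0ed6_gt.SSum
import Pool.Agent.MP_4f0ed6_gt.Ev
import Pool.Agent.MP_4f0ed6_gt.Shell

open Set Laplacian Filter Topology MeasureTheory Metric InnerProductSpace
open scoped ContDiff

namespace Pool.Agent.MP_4f0ed6_gt

theorem SOk_norm_sg (s : Bool) (y : ℂ) : ‖(sg s : ℂ) * y‖ = ‖y‖ := by
  rw [norm_mul, Complex.norm_real, Real.norm_eq_abs, abs_sg, one_mul]

theorem SOk_same {ρ g : ℝ} (hρ : 0 < ρ) {y y' : ℂ} {s s' : Bool} (h1 : s = s' → g ≤ ‖y - y'‖)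
    (h2 : g ≤ ‖y + y'‖) : ρ * g ≤ ‖(sg s : ℂ) * (ρ * y) - sg s' * (ρ * y')‖ := by
  by_cases hs : s = s'
  · subst hs
    rw [← mul_sub, ← mul_sub, SOk_norm_sg, norm_mul, Complex.norm_real, Real.norm_of_nonneg hρ.le]
    exact mul_le_mul_of_nonneg_left (h1 rfl) hρ.le
  · rw [Bool.eq_not.2 (Ne.symm hs), sg_not, Complex.ofReal_neg, neg_mul, sub_neg_eq_add,
      ← mul_add, ← mul_add, SOk_norm_sg, norm_mul, Complex.norm_real, Real.norm_of_nonneg hρ.le]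
    exact mul_le_mul_of_nonneg_left h2 hρ.le

theorem SOk_diff {ρ ρ' : ℝ} (hρ : 0 < ρ) (hρ' : 0 < ρ') (hle : ρ' ≤ 1 / 4 * ρ) {y y' : ℂ}
    (hy : OnAx y) (hy' : OnAx y') (s s' : Bool) :
    ρ / 2 ≤ ‖(sg s : ℂ) * (ρ * y) - sg s' * (ρ' * y')‖ := by
  refine le_trans ?_ (norm_sub_norm_le _ _)
  rw [SOk_norm_sg, SOk_norm_sg, norm_mul, norm_mul, Complex.norm_real, Complex.norm_real,
    Real.norm_of_nonneg hρ.le, Real.norm_of_nonneg hρ'.le]
  have h1 := mul_le_mul_of_nonneg_left hy.1 hρ.le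
  have h2 := mul_le_mul_of_nonneg_left hy'.2.1 hρ'.le
  linarith

namespace Fx

variable {h nT nx : ℕ} {S : Fx h nT nx}

theorem Ok.yy_ax (hS : S.Ok) (j : Fin h) (d : DD h) : OnAx (S.yy j d) := by
  have h1 := hS.x_mem d
  have h2 : ‖S.yy j d‖ = S.x d := by
    rw [yy, norm_mul, Complex.norm_real, Real.norm_of_nonneg (by linarith [h1.1])]
    split_ifs <;> simp
  refine ⟨h2 ▸ h1.1, h2 ▸ h1.2, ?_⟩
  rw [yy]
  split_ifs <;> simp

theorem Ok.yy_ne (hS : S.Ok) (j : Fin h) {d d' : DD h} (hne : d ≠ d') :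
    S.g0 ≤ ‖S.yy j d - S.yy j d'‖ ∧ S.g0 ≤ ‖S.yy j d + S.yy j d'‖ := by
  have h1 := (hS.x_mem d).1
  have h2 := (hS.x_mem d').1
  have h3 := hS.x_gap d d' hne
  have h4 := hS.g0_le
  have h5 : S.g0 ≤ |S.x d + S.x d'| := le_trans (by linarith) (le_abs_self _)
  have h6 : S.g0 ≤ |S.x d| := le_trans (by linarith) (le_abs_self _)
  simp only [yy]
  split_ifs
  · exact ⟨le_trans (by simpa using h3) (Complex.abs_im_le_norm _),
      le_trans (by simpa using h5) (Complex.abs_im_le_norm _)⟩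
  · exact ⟨le_trans (by simpa using h6) (Complex.abs_im_le_norm _),
      le_trans (by simpa using h6) (Complex.abs_im_le_norm _)⟩
  · exact ⟨le_trans (by simpa using h6) (Complex.abs_re_le_norm _),
      le_trans (by simpa using h6) (Complex.abs_re_le_norm _)⟩
  · exact ⟨le_trans (by simpa using h3) (Complex.abs_re_le_norm _),
      le_trans (by simpa using h5) (Complex.abs_re_le_norm _)⟩

theorem rho_mem {η : ℝ} (h0 : 0 < η) (h1 : η ≤ 1) (k : ℕ) :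
    0 < S.rho η k ∧ S.rho η k ≤ 1 / 8 := by
  rw [rho]
  exact ⟨by positivity, div_le_div_of_nonneg_right (pow_le_one₀ h0.le h1) (by norm_num)⟩

theorem rho_lt {η : ℝ} (h0 : 0 < η) (h1 : η ≤ 1) {k k' : ℕ} (hk : k < k') :
    S.rho η k' ≤ η ^ (6 * h) * S.rho η k := by
  rw [rho, rho, ← mul_div_assoc, ← pow_add, ← mul_one_add]
  exact div_le_div_of_nonneg_right (pow_le_pow_of_le_one h0.le h1
    (Nat.mul_le_mul_left _ (by omega))) (by norm_num)

theorem SOk_aa (hS : S.Ok) {η : ℝ} (h0 : 0 < η) (h1 : η ≤ 1) : S.aa η ≤ η :=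
  (S.aa_le hS h0 h1).trans (pow_le_of_le_one h0.le h1 (by norm_num))

theorem Ok.r_ev (hS : S.Ok) :
    ∀ᶠ η : ℝ in 𝓝[>] 0, ∀ π, (S.Q η).r π ≤ S.aa η ^ 4 * (S.Q η).sep := by
  have hg := hS.g0_pos
  filter_upwards [ev_small one_pos,
    ev_exp (c := S.g0 / 32) (by positivity) (6 * h * S.ns + (6 * h + 4) * 4)] with η h1 h2 π
  have h3 : η⁻¹ ≤ (S.cond η π)⁻¹ := inv_anti₀ (S.cond_pos h1.1 π)
    ((S.cond_le h1.1 h1.2 hS π).trans (SOk_aa hS h1.1 h1.2))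
  have h4 : (S.Q η).r π ≤ Real.exp (-η⁻¹ / 2) := Real.exp_le_exp.2 (by
    change -(S.cond η π)⁻¹ / 2 ≤ _
    linarith)
  refine h4.trans (h2.trans_eq ?_)
  change _ = S.aa η ^ 4 * (S.g0 * S.rho η S.ns / 4)
  rw [aa, rho, pow_add, pow_mul η (6 * h + 4)]
  ring

/-- the type of a port -/
def SOk_ty : PP h nT nx → PT h nT nx
  | .inl (_, j, _) => .inl j
  | .inr (.inl (_, q)) => .inr (.inl q)
  | .inr (.inr (e, _)) => .inr (.inr e)

theorem SOk_small (η : ℝ) {π : PP h nT nx} {v : DD h × Bool} (hv : S.pc π = some v) :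
    S.c η π = (sg v.2 * S.z (SOk_ty π) / 8 : ℝ) := by
  rcases π with ⟨w, j, _ | _⟩ | ⟨w, t, i⟩ | ⟨e, ε⟩
  · obtain rfl : w = v := Option.some.inj hv
    rfl
  · cases hv
  · obtain rfl : w = v := Option.some.inj hv
    rfl
  · obtain rfl : (fun _ => false, ε) = v := Option.some.inj hv
    rfl

theorem SOk_inj {π π' : PP h nT nx} {v : DD h × Bool} (hv : S.pc π = some v)
    (hv' : S.pc π' = some v) (ht : SOk_ty π = SOk_ty π') : π = π' := by
  rcases π with ⟨w, j, _ | _⟩ | ⟨w, t, i⟩ | ⟨e, ε⟩ <;>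
    rcases π' with ⟨w', j', _ | _⟩ | ⟨w', t', i'⟩ | ⟨e', ε'⟩ <;>
    simp_all [pc, SOk_ty]
  exact (Prod.ext_iff.1 (hv.trans hv'.symm)).2

theorem SOk_big {π : PP h nT nx} (hv : S.pc π = none) : ∃ v j, π = .inl (v, j, true) := by
  rcases π with ⟨w, j, _ | _⟩ | ⟨w, t, i⟩ | ⟨e, ε⟩
  · cases hv
  · exact ⟨w, j, rfl⟩
  · cases hv
  · cases hv

theorem SOk_sep (hS : S.Ok) {η : ℝ} (h0 : 0 < η) (h1 : η ≤ 1 / 4) (π π' : PP h nT nx)
    (hne : π ≠ π') (he : S.pc π = S.pc π') :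
    S.g0 * S.rho η S.ns / 4 ≤ ‖S.c η π - S.c η π'‖ := by
  have h2 : η ≤ 1 := by linarith
  have hg := hS.g0_pos
  have hg1 := hS.g0_le
  have hr := rho_mem (S := S) h0 h2
  have hq : η ^ (6 * h) ≤ 1 / 4 :=
    (pow_le_of_le_one h0.le h2 (by have := hS.h_pos; omega)).trans h1
  have hlt : ∀ {k k' : ℕ}, k < k' → S.rho η k' ≤ 1 / 4 * S.rho η k := fun hk =>
    (rho_lt h0 h2 hk).trans (mul_le_mul_of_nonneg_right hq (hr _).1.le)
  have hs : S.g0 * S.rho η S.ns ≤ S.rho η S.ns := mul_le_of_le_one_left (hr _).1.le hg1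
  rcases hv : S.pc π with _ | v
  · obtain ⟨v, j, rfl⟩ := SOk_big hv
    obtain ⟨v', j', rfl⟩ := SOk_big (he ▸ hv)
    simp only [c, cY]
    have a1 := hlt (hS.ix_lt (j, pre j v.1))
    have a2 := hlt (hS.ix_lt (j', pre j' v'.1))
    have a3 := (hr (S.ix (j, pre j v.1))).1
    have a4 := (hr (S.ix (j', pre j' v'.1))).1
    rcases lt_trichotomy (S.ix (j, pre j v.1)) (S.ix (j', pre j' v'.1)) with hk | hk | hk
    · refine le_trans ?_ (SOk_diff a3 a4 (hlt hk) (hS.yy_ax _ _) (hS.yy_ax _ _) _ _)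
      linarith
    · rw [← hk]
      obtain rfl : j = j' := congrArg Prod.fst (hS.ix_inj hk)
      refine le_trans ?_ (SOk_same (g := S.g0) a3 (fun e => ?_) ?_)
      · nlinarith
      · refine (hS.yy_ne j fun e' => hne ?_).1
        rw [Prod.ext e' e]
      · by_cases e' : v.1 = v'.1
        · rw [← e', ← two_mul, norm_mul, Complex.norm_two]
          linarith [(hS.yy_ax j v.1).1]
        · exact (hS.yy_ne j e').2
    · rw [norm_sub_rev]
      refine le_trans ?_ (SOk_diff a4 a3 (hlt hk) (hS.yy_ax _ _) (hS.yy_ax _ _) _ _)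
      linarith
  · have hv' : S.pc π' = some v := he ▸ hv
    have h3 := hS.z_gap _ _ fun e => hne (SOk_inj hv hv' e)
    rw [SOk_small η hv, SOk_small η hv', ← Complex.ofReal_sub, Complex.norm_real, ← sub_div,
      ← mul_sub, Real.norm_eq_abs, abs_div, abs_mul, abs_sg, abs_of_pos (by norm_num : (0 : ℝ) < 8)]
    nlinarith [(hr S.ns).2]

theorem Ok.Q_ok (hS : S.Ok) : ∀ᶠ η : ℝ in 𝓝[>] 0, (S.Q η).Ok := by
  have hn : (0 : ℝ) < 16 * (Fintype.card (PP h nT nx) + 1) := by positivity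
  filter_upwards [ev_small (c := 1 / 4) (by norm_num), ev_small (inv_pos.2 hn), hS.r_ev]
    with η h1 h2 h3
  have h0 := h1.1
  have h4 : η ≤ 1 := by linarith [h1.2]
  have hg := hS.g0_pos
  have hr := rho_mem (S := S) h0 h4
  have hsep : 0 < (S.Q η).sep := div_pos (mul_pos hg (hr _).1) four_pos
  have hup : ∀ v, Relation.ReflTransGen
      (fun a b => ∃ π, (S.Q η).pc π = a ∧ (S.Q η).pc ((S.Q η).σ π) = b) v none := by
    rintro (_ | v)
    · exact .refl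
    · exact .single ⟨.inl (v, ⟨0, hS.h_pos⟩, false), rfl, rfl⟩
  have hdown : ∀ v, Relation.ReflTransGen
      (fun a b => ∃ π, (S.Q η).pc π = a ∧ (S.Q η).pc ((S.Q η).σ π) = b) none v := by
    rintro (_ | v)
    · exact .refl
    · exact .single ⟨.inl (v, ⟨0, hS.h_pos⟩, true), rfl, rfl⟩
  refine ⟨fun π => ?_, fun π => ?_, fun π => ?_, fun π => inv_pos.2 (S.cond_pos h0 π),
    fun π => ?_, hsep, ?_, SOk_sep hS h0 h1.2, fun π => ?_, ⟨none⟩,
    fun v v' => (hup v).trans (hdown v')⟩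
  · rcases π with ⟨w, j, i⟩ | ⟨w, t, _ | _⟩ | ⟨e, ε⟩ <;> simp [Q, σ]
  · rcases π with ⟨w, j, _ | _⟩ | ⟨w, t, _ | _⟩ | ⟨e, ε⟩
    · simp [Q, σ, pc]
    · simp [Q, σ, pc]
    · exact fun e => hS.graph.ne t w (Option.some.inj e)
    · exact fun e => hS.graph.ne t w ((Equiv.symm_apply_eq _).1 (Option.some.inj e)).symm
    · simp [Q, σ, pc]
  · rcases π with ⟨w, j, i⟩ | ⟨w, t, _ | _⟩ | ⟨e, ε⟩ <;> rfl
  · change ‖S.c η π‖ ≤ _
    rcases hv : S.pc π with _ | v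
    · obtain ⟨v, j, rfl⟩ := SOk_big hv
      simp only [c, cY]
      rw [SOk_norm_sg, norm_mul, Complex.norm_real, Real.norm_of_nonneg (hr _).1.le]
      exact (mul_le_mul (hr _).2 (hS.yy_ax _ _).2.1 (norm_nonneg _) (by norm_num)).trans
        (by norm_num)
    · have h5 := hS.z_mem (SOk_ty π)
      rw [SOk_small η hv, Complex.norm_real, Real.norm_eq_abs, abs_div, abs_mul, abs_sg,
        abs_of_pos (by norm_num : (0 : ℝ) < 8), abs_of_nonneg (by linarith [h5.1])]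
      linarith [h5.2]
  · change S.g0 * S.rho η S.ns / 4 ≤ _
    nlinarith [(hr S.ns).2, (hr S.ns).1, hS.g0_le]
  · have h5 : 0 < S.aa η := pow_pos h0 _
    have h6 := SOk_aa hS h0 h4
    have h7 : S.aa η ^ 4 ≤ (16 * (Fintype.card (PP h nT nx) + 1 : ℝ))⁻¹ :=
      (pow_le_of_le_one h5.le (h6.trans h4) (by norm_num)).trans (h6.trans h2.2)
    rw [n_eq, ← le_inv_mul_iff₀ hn]
    exact (h3 π).trans (mul_le_mul_of_nonneg_right h7 hsep.le)

end Fx

end Pool.Agent.MP_4f0ed6_gt
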