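import Pool.Agent.MP_4f0ed6_gt.SNum

open Set Laplacian Filter Topology MeasureTheory Metric InnerProductSpace
open scoped ContDiff

namespace Pool.Agent.MP_4f0ed6_gt

theorem abs_sg (ε : Bool) : |sg ε| = 1 := by
  cases ε <;> simp [sg]

theorem sg_not (ε : Bool) : sg (!ε) = -sg ε := by
  cases ε <;> simp [sg]

theorem abs_ed_le {D : Type} (d : D) (v : Option (D × Bool)) : |ed d v| ≤ 1 := by
  cases v with
  | none => simp [ed]
  | some v =>
    simp only [ed]
    split_ifs
    · exact (abs_sg _).le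
    · simp

theorem ed_iV {D : Type} (d : D) (v : Option (D × Bool)) : ed d (iV v) = -ed d v := by
  cases v with
  | none => simp [ed, iV]
  | some v =>
    simp only [ed, iV, Option.map_some, flp]
    split_ifs
    · exact sg_not _
    · simp

theorem SSum_flp_flp {D : Type} (v : D × Bool) : flp (flp v) = v := by
  simp [flp]

theorem SSum_symm_flp {D T : Type} {Pm : T → Equiv.Perm (D × Bool)}
    (hc : ∀ t v, Pm t (flp v) = flp (Pm t v)) (t : T) (v : D × Bool) :
    (Pm t).symm (flp v) = flp ((Pm t).symm v) := by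
  rw [Equiv.symm_apply_eq, hc, Equiv.apply_symm_apply]

theorem SSum_adj {T X : Type} [Fintype T] [Fintype X] (Pm : T → Equiv.Perm X) (u w : X → ℝ) :
    ∑ v, u v * Lap Pm w v = ∑ v, w v * Lap Pm u v := by
  simp only [Lap, Finset.mul_sum]
  rw [Finset.sum_comm, Finset.sum_comm (f := fun v t => w v * _)]
  refine Finset.sum_congr rfl fun t _ => ?_
  have h1 : ∑ v, u v * w (Pm t v) = ∑ v, w v * u ((Pm t).symm v) := by
    rw [← Equiv.sum_comp (Pm t) (fun v => w v * u ((Pm t).symm v))]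
    simp [mul_comm]
  have h2 : ∑ v, w v * u (Pm t v) = ∑ v, u v * w ((Pm t).symm v) := by
    rw [← Equiv.sum_comp (Pm t) (fun v => u v * w ((Pm t).symm v))]
    simp [mul_comm]
  have h3 : ∑ v, u v * (2 * w v) = ∑ v, w v * (2 * u v) :=
    Finset.sum_congr rfl fun v _ => by ring
  simp only [mul_sub, Finset.sum_sub_distrib]
  rw [h1, h2, h3]
  ring

theorem SSum_ed_sum {D : Type} [Fintype D] (d : D) (w : D × Bool → ℝ) :
    ∑ v, ed d (some v) * w v = w (d, true) - w (d, false) := by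
  classical
  rw [Fintype.sum_prod_type, Finset.sum_eq_single d]
  · simp [ed, sg, sub_eq_add_neg]
  · intro b _ hb
    simp [ed, hb]
  · simp

theorem SSum_ed_odd {D : Type} (d : D) (v : D × Bool) :
    ed d (some (flp v)) = -ed d (some v) := ed_iV d (some v)

theorem SSum_expand {D : Type} [Fintype D] (F : D × Bool → ℝ) (hF : ∀ v, F (flp v) = -F v)
    (v : D × Bool) : ∑ d', ed d' (some v) * F (d', true) = F v := by
  classical
  obtain ⟨d, b⟩ := v
  rw [Finset.sum_eq_single d]
  · cases b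
    · have := hF (d, true)
      simp only [flp, Bool.not_true] at this
      simp [ed, sg, this]
    · simp [ed, sg]
  · intro b _ hb
    simp [ed, Ne.symm hb]
  · simp

theorem Lap_flp {D T : Type} [Fintype T] {Pm : T → Equiv.Perm (D × Bool)}
    (hc : ∀ t v, Pm t (flp v) = flp (Pm t v)) {u : D × Bool → ℝ} (hu : ∀ v, u (flp v) = -u v)
    (v : D × Bool) : Lap Pm u (flp v) = -Lap Pm u v := by
  simp only [Lap, ← Finset.sum_neg_distrib]
  refine Finset.sum_congr rfl fun t _ => ?_
  rw [hc, SSum_symm_flp hc, hu, hu, hu]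
  ring

namespace Fx

variable {h nT nx : ℕ} (S : Fx h nT nx)

theorem sym (hS : S.Ok) (η : ℝ) : (S.Q η).Sym iV S.ιP := by
  refine ⟨?_, ?_, ?_, ?_, ?_, ?_⟩
  · rintro (_ | v)
    · rfl
    · simp [iV, SSum_flp_flp]
  · rintro (⟨v, q⟩ | ⟨v, q⟩ | ⟨e, ε⟩) <;> simp [ιP, SSum_flp_flp]
  · rintro (⟨v, j, _ | _⟩ | ⟨v, t, i⟩ | ⟨e, ε⟩) <;> simp [ιP, Q, pc, iV, flp]
  · rintro (⟨v, j, i⟩ | ⟨v, t, _ | _⟩ | ⟨e, ε⟩)
    · simp [ιP, Q, σ]
    · simp [ιP, Q, σ, hS.graph.comm]
    · simp [ιP, Q, σ, SSum_symm_flp hS.graph.comm]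
    · simp [ιP, Q, σ]
  · rintro (⟨v, j, _ | _⟩ | ⟨v, t, i⟩ | ⟨e, ε⟩) <;> simp [ιP, Q, c, flp, sg_not, neg_div]
  · rintro (⟨v, j, i⟩ | ⟨v, t, i⟩ | ⟨e, ε⟩) <;> simp [ιP, Q, cond]

theorem sum_pts_some (η : ℝ) (v : DD h × Bool) (F : PP h nT nx → ℝ) :
    ∑ π ∈ (S.Q η).pts (some v), F π = ∑ j, F (.inl (v, j, false)) +
      ∑ t, (F (.inr (.inl (v, t, false))) + F (.inr (.inl (v, t, true)))) +
      ∑ e, if v.1 = (fun _ => false) then F (.inr (.inr (e, v.2))) else 0 := by
  classical
  unfold Plumb.pts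
  rw [Finset.sum_filter, Fintype.sum_sum_type, Fintype.sum_sum_type, add_assoc]
  congr 1
  · rw [Fintype.sum_prod_type, Finset.sum_eq_single v]
    · rw [Fintype.sum_prod_type]
      simp [Q, pc]
    · intro b _ hb
      rw [Fintype.sum_prod_type]
      simp [Q, pc, hb]
    · simp
  congr 1
  · rw [Fintype.sum_prod_type, Finset.sum_eq_single v]
    · rw [Fintype.sum_prod_type]
      simp [Q, pc, add_comm]
    · intro b _ hb
      rw [Fintype.sum_prod_type]
      simp [Q, pc, hb]
    · simp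
  · rw [Fintype.sum_prod_type]
    refine Finset.sum_congr rfl fun e _ => ?_
    obtain ⟨d, b⟩ := v
    by_cases hd : d = fun _ => false
    · subst hd
      cases b <;> simp [Q, pc]
    · simp [Q, pc, hd, Ne.symm hd]

theorem sum_pts_none (η : ℝ) (F : PP h nT nx → ℝ) :
    ∑ π ∈ (S.Q η).pts none, F π = ∑ v, ∑ j, F (.inl (v, j, true)) := by
  classical
  unfold Plumb.pts
  rw [Finset.sum_filter, Fintype.sum_sum_type, Fintype.sum_sum_type]
  simp [Q, pc, Fintype.sum_prod_type]

theorem M1_symm (hS : S.Ok) (d d' : DD h) : S.M1 d d' = S.M1 d' d := by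
  have key : ∀ a b : DD h, ∑ v, ed a (some v) * Lap S.Pm (fun v => ed b (some v)) v =
      2 * Lap S.Pm (fun v => ed b (some v)) (a, true) := by
    intro a b
    rw [SSum_ed_sum]
    have := Lap_flp hS.graph.comm (u := fun v => ed b (some v)) (SSum_ed_odd b) (a, true)
    simp only [flp, Bool.not_true] at this
    rw [this]
    ring
  have h1 := SSum_adj S.Pm (fun v => ed d (some v)) (fun v => ed d' (some v))
  rw [key, key] at h1
  unfold M1
  have h2 : Lap S.Pm (fun v => ed d' (some v)) (d, true) =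
      Lap S.Pm (fun v => ed d (some v)) (d', true) := by linarith
  rw [h2]
  by_cases hd : d = d'
  · simp [hd]
  · simp [hd, Ne.symm hd]

theorem M1_mul (F : DD h × Bool → ℝ) (hF : ∀ v, F (flp v) = -F v) (d : DD h) :
    ∑ d', S.M1 d d' * F (d', true) = Lap S.Pm F (d, true) - S.θ * F (d, true) := by
  classical
  simp only [M1, sub_mul, Finset.sum_sub_distrib]
  congr 1
  · simp only [Lap, Finset.sum_mul]
    rw [Finset.sum_comm]
    refine Finset.sum_congr rfl fun t _ => ?_
    simp only [sub_mul, Finset.sum_sub_distrib, mul_assoc, ← Finset.mul_sum, SSum_expand F hF]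
  · rw [Finset.sum_eq_single d]
    · simp
    · intro b _ hb
      simp [Ne.symm hb]
    · simp

theorem M1_psd (hS : S.Ok) (f : DD h → ℝ) : 0 ≤ ∑ d, ∑ d', f d * S.M1 d d' * f d' := by
  set u : DD h × Bool → ℝ := fun v => sg v.2 * f v.1 with hu
  have hodd : ∀ v, u (flp v) = -u v := fun v => by simp [hu, flp, sg_not]
  have ht : ∀ d, u (d, true) = f d := fun d => by simp [hu, sg]
  have hf : ∀ d, u (d, false) = -f d := fun d => by simp [hu, sg]
  have hl : ∀ d, Lap S.Pm u (d, false) = -Lap S.Pm u (d, true) := fun d =>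
    Lap_flp hS.graph.comm hodd (d, true)
  have h1 : ∀ d, ∑ d', f d * S.M1 d d' * f d' =
      f d * Lap S.Pm u (d, true) - S.θ * f d ^ 2 := by
    intro d
    have := S.M1_mul u hodd d
    simp only [ht] at this
    simp only [mul_assoc, ← Finset.mul_sum, this]
    ring
  have h2 := hS.graph.odd u hodd
  simp only [Fintype.sum_prod_type, Fintype.sum_bool, ht, hf, hl, neg_mul_neg, neg_sq,
    Finset.sum_add_distrib] at h2
  simp only [h1, Finset.sum_sub_distrib, ← Finset.mul_sum]
  linarith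

end Fx

end Pool.Agent.MP_4f0ed6_gt
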