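import Pool.Agent.MP_4f0ed6_gt.Bnd

open Set Laplacian Filter Topology MeasureTheory Metric InnerProductSpace
open scoped ContDiff

namespace Pool.Agent.MP_4f0ed6_gt

theorem Sec_ed {D : Type} {d : D} {v : D × Bool} (hv : v.1 ≠ d) : ed d (some v) = 0 := if_neg hv

theorem Sec_sum {ι : Type} [Fintype ι] {F : ι → ℝ} {B : ℝ} (h : ∀ i, |F i| ≤ B) :
    |∑ i, F i| ≤ Fintype.card ι * B := by
  refine (Finset.abs_sum_le_sum_abs _ _).trans ((Finset.sum_le_card_nsmul _ _ B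
    fun i _ => h i).trans_eq ?_)
  rw [nsmul_eq_mul, Finset.card_univ]

theorem Sec_two {c x y x' y' B : ℝ} (hc : 0 ≤ c) (h1 : |x - x'| ≤ B) (h2 : |y - y'| ≤ B) :
    |c * (x - y) - c * (x' - y')| ≤ c * (2 * B) := by
  rw [← mul_sub, abs_mul, abs_of_nonneg hc]
  refine mul_le_mul_of_nonneg_left ?_ hc
  rw [abs_le] at h1 h2 ⊢
  constructor <;> linarith [h1.1, h1.2, h2.1, h2.2]

namespace Fx

variable {h nT nx : ℕ} {S : Fx h nT nx}

theorem Sec_cube {η : ℝ} (hS : S.Ok) (h0 : 0 < η) (h1 : η ≤ 1) : S.aa η ^ 3 ≤ S.am η := by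
  have ha : 0 < S.aa η := pow_pos h0 _
  have h2 : S.aa η ≤ 1 := (S.aa_le hS h0 h1).trans (pow_le_one₀ h0.le h1)
  have h3 : η ^ 3 ≤ 1 := pow_le_one₀ h0.le h1
  rw [S.am_eq h0, le_div_iff₀ (pow_pos h0 3)]
  calc S.aa η ^ 3 * η ^ 3 = S.aa η ^ 2 * (S.aa η * η ^ 3) := by ring
    _ ≤ S.aa η ^ 2 * 1 :=
      mul_le_mul_of_nonneg_left (mul_le_one₀ h2 (pow_pos h0 3).le h3) (by positivity)
    _ = _ := mul_one _

theorem Ok.b_far (hS : S.Ok) : ∀ᶠ η : ℝ in 𝓝[>] 0, ∀ p ∈ cube (DD h), ∀ d',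
    ∀ (ρ : S.Rp η p 1 1 (ed d')) (v : DD h × Bool), v.1 ≠ d' → ∀ π, S.pc π = some v →
      |ρ.b π| ≤ 4 * S.am η := by
  obtain ⟨C, hC, H⟩ := hS.bnd
  filter_upwards [H, ev_small one_pos, ev_pow C (a := 2) (b := 0) two_pos]
    with η H ⟨h0, h1⟩ h2 p hp d' ρ v hv π hπ
  obtain ⟨-, k1, -, k2⟩ := H p hp 1 ⟨zero_le_one, le_rfl⟩ 1 _ (abs_ed_le d') ρ
  have ha : 0 < S.aa η := pow_pos h0 _
  obtain ⟨e1, e2⟩ := S.b_eq h0 ρ π
  rcases π with ⟨w, j, _ | _⟩ | ⟨w, t, i⟩ | ⟨e, ε⟩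
  · have k3 := k1 v _ hπ
    have k4 := k2 (.inl (w, j, true)) rfl
    rw [Sec_ed hv] at k3
    have e0 : ed d' none = 0 := rfl
    rw [e0, abs_zero, mul_zero, add_zero] at k4
    have k5 := Sec_two (S.aj_pos h0 j).le k3 k4
    rw [sub_self, mul_zero, sub_zero] at k5
    rw [e1]
    refine k5.trans ((mul_le_mul_of_nonneg_right (S.aj_le h0 h1 j) (by positivity)).trans ?_)
    rw [S.am_eq h0]
    have k6 : S.aa η * (2 * (C * (S.aa η / η * 1))) = 2 * (C * η ^ 2) * (S.aa η ^ 2 / η ^ 3) := by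
      field_simp
    rw [k6]
    refine mul_le_mul_of_nonneg_right ?_ (by positivity)
    rw [pow_zero] at h2
    linarith
  · cases hπ
  · exact e2.trans_eq (mul_one _)
  · refine e2.trans ?_
    rw [mul_one]
    exact mul_le_mul_of_nonneg_left (Sec_cube hS h0 h1) (by norm_num)

theorem Ok.second (hS : S.Ok) : ∃ C : ℝ, 0 ≤ C ∧ ∀ᶠ η : ℝ in 𝓝[>] 0, ∀ p ∈ cube (DD h), ∀ d',
    ∀ (ρ : S.Rp η p 1 1 (ed d')) (v : DD h × Bool), v.1 ≠ d' →
      |ρ.t (some v) - (∑ j, S.aj η j * ρ.R (.inl (v, j, true)) -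
        S.am η * Lap S.Pm (fun v => ed d' (some v)) v)| ≤ C * (η ^ (6 * h) * S.aa η ^ 2) := by
  obtain ⟨C, hC, H⟩ := hS.bnd
  obtain ⟨n, hn⟩ : ∃ n : ℝ, n = Fintype.card (PP h nT nx) + 1 := ⟨_, rfl⟩
  have hn0 : 0 ≤ n := by rw [hn]; positivity
  refine ⟨h * (16 * (4 * n + 1)) + nT * (4 * C) + nx * 4 + 1, by positivity, ?_⟩
  filter_upwards [H, ev_small one_pos, hS.b_far, hS.est]
    with η H ⟨h0, h1⟩ hb hE p hp d' ρ v hv
  obtain ⟨-, k1, -, -⟩ := H p hp 1 ⟨zero_le_one, le_rfl⟩ 1 _ (abs_ed_le d') ρ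
  have ha : 0 < S.aa η := pow_pos h0 _
  have hm : 0 < S.am η := pow_pos h0 _
  obtain ⟨X, hX⟩ : ∃ X, X = η ^ (6 * h) * S.aa η ^ 2 := ⟨_, rfl⟩
  have hX0 : 0 ≤ X := by rw [hX]; positivity
  have x1 : S.am η * (S.aa η / η) = X := by
    rw [hX, S.am_eq h0]
    have : S.aa η = η ^ (6 * h) * η ^ 4 := pow_add _ _ _
    field_simp
    linear_combination this
  have x2 : S.aa η ^ 3 ≤ X := by
    have : S.aa η ≤ η ^ (6 * h) := pow_le_pow_of_le_one h0.le h1 (Nat.le_add_right _ _)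
    rw [hX, pow_succ', pow_two (S.aa η)]
    exact mul_le_mul_of_nonneg_right this (by positivity)
  have o := (ρ.osc (hE p hp) ⟨zero_le_one, le_rfl⟩ (by positivity) (some v) (B := 4 * S.am η)
    (by positivity) (hb p hp d' ρ v hv)).2
  have y1 : ∀ j, |ρ.b (.inl (v, j, false)) + S.aj η j * ρ.R (.inl (v, j, true))| ≤
      16 * (4 * n + 1) * X := by
    intro j
    have o1 := o (.inl (v, j, false)) rfl
    rw [Sec_ed hv, sub_zero, abs_zero, mul_zero, add_zero, mul_one, S.n_eq, ← hn] at o1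
    have e1 : ρ.b (.inl (v, j, false)) =
        S.aj η j * (ρ.R (.inl (v, j, false)) - ρ.R (.inl (v, j, true))) := (S.b_eq h0 ρ _).1
    rw [e1, ← mul_add, sub_add_cancel, abs_mul, abs_of_pos (S.aj_pos h0 j)]
    refine (mul_le_mul (S.aj_le h0 h1 j) o1 (abs_nonneg _) ha.le).trans ?_
    have o2 := Sec_cube hS h0 h1
    calc S.aa η * (16 * η⁻¹ * (n * (4 * S.am η) + S.aa η ^ 3))
        ≤ S.aa η * (16 * η⁻¹ * (n * (4 * S.am η) + S.am η)) := by gcongr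
      _ = 16 * (4 * n + 1) * (S.am η * (S.aa η / η)) := by ring
      _ = _ := by rw [x1]
  have y2 : ∀ t, |ρ.b (.inr (.inl (v, t, false))) + ρ.b (.inr (.inl (v, t, true))) -
      S.am η * (2 * ed d' (some v) - ed d' (some (S.Pm t v)) - ed d' (some ((S.Pm t).symm v)))| ≤
      4 * C * X := by
    intro t
    have e1 : ρ.b (.inr (.inl (v, t, false))) = S.am η * (ρ.R (.inr (.inl (v, t, false))) -
        ρ.R (.inr (.inl (S.Pm t v, t, true)))) := (S.b_eq h0 ρ _).1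
    have e2 : ρ.b (.inr (.inl (v, t, true))) = S.am η * (ρ.R (.inr (.inl (v, t, true))) -
        ρ.R (.inr (.inl ((S.Pm t).symm v, t, false)))) := (S.b_eq h0 ρ _).1
    have z1 := Sec_two hm.le (k1 v (.inr (.inl (v, t, false))) rfl)
      (k1 _ (.inr (.inl (S.Pm t v, t, true))) rfl)
    have z2 := Sec_two hm.le (k1 v (.inr (.inl (v, t, true))) rfl)
      (k1 _ (.inr (.inl ((S.Pm t).symm v, t, false))) rfl)
    have z3 : S.am η * (2 * (C * (S.aa η / η * 1))) = 2 * C * X := by rw [← x1]; ring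
    rw [z3, ← e1, abs_le] at z1
    rw [z3, ← e2, abs_le] at z2
    rw [abs_le]
    constructor <;> linarith [z1.1, z1.2, z2.1, z2.2]
  have y3 : ∀ e : Fin nx, |if v.1 = (fun _ => false) then ρ.b (.inr (.inr (e, v.2))) else 0| ≤
      4 * X := by
    intro e
    split_ifs
    · have e1 : |ρ.b (.inr (.inr (e, v.2)))| ≤ 4 * S.aa η ^ 3 * 1 := (S.b_eq h0 ρ _).2
      linarith
    · rw [abs_zero]; positivity
  have y4 := ρ.e_le (some v)
  have s1 := Sec_sum y1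
  have s2 := Sec_sum y2
  have s3 := Sec_sum y3
  rw [Fintype.card_fin, abs_le] at s1 s2 s3
  rw [Finset.sum_add_distrib] at s1
  rw [Finset.sum_sub_distrib, ← Finset.mul_sum] at s2
  rw [abs_le] at y4
  rw [t_some, S.sum_pts_some, ← hX]
  unfold Lap
  rw [Sec_ed hv] at s2 ⊢
  simp only [Sec_ed hv]
  rw [abs_le]
  constructor <;> linarith [s1.1, s1.2, s2.1, s2.2, s3.1, s3.2, y4.1, y4.2]

end Fx

end Pool.Agent.MP_4f0ed6_gt
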