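import Pool.Agent.MP_4f0ed6_gt.PotS

open Set Laplacian Filter Topology MeasureTheory Metric InnerProductSpace
open scoped ContDiff

namespace Pool.Agent.MP_4f0ed6_gt

/-- a point of the standard shell lying on an axis -/
def OnAx (y : ℂ) : Prop := 1 ≤ ‖y‖ ∧ ‖y‖ ≤ 2 ∧ (y.re = 0 ∨ y.im = 0)

variable {I : Type} [Fintype I] {ρ α : I → ℝ} {y : I → ℂ} {ν F : ℂ → ℝ} {ϖ A Λ M a E : ℝ}

theorem Shell1_kk {r r' ϖ : ℝ} (hr : 0 < r) (hr' : 0 < r') (h : r ≤ ϖ * r' ∨ r' ≤ ϖ * r)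
    (hϖ : ϖ ≤ 1 / 4) (hϖ0 : 0 ≤ ϖ) {w c : ℂ} (hw : 1 ≤ ‖w‖ ∧ ‖w‖ ≤ 2) (hc : 1 ≤ ‖c‖ ∧ ‖c‖ ≤ 2) :
    |kk (r * w) (r' * c)| ≤ 8 * ϖ := by
  have key : ∀ {r r' : ℝ} {w c : ℂ}, 0 < r → 0 < r' → r' ≤ ϖ * r → 1 ≤ ‖w‖ → ‖c‖ ≤ 2 →
      |kk (r * w) (r' * c)| ≤ 8 * ϖ := fun {r r' w c} hr hr' h hw hc => by
    have h0 : (r : ℂ) * w ≠ 0 := mul_ne_zero (by exact_mod_cast hr.ne')
      (norm_pos_iff.1 (by linarith))
    have := kk_small (t := 2 * ϖ) (c := r' * c) (by linarith) h0 (by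
      rw [norm_mul, norm_mul, Complex.norm_real, Complex.norm_real, Real.norm_of_nonneg hr.le,
        Real.norm_of_nonneg hr'.le]
      have h1 : r' * ‖c‖ ≤ r' * 2 := mul_le_mul_of_nonneg_left hc hr'.le
      have h2 : ϖ * r * 1 ≤ ϖ * r * ‖w‖ := mul_le_mul_of_nonneg_left hw (mul_nonneg hϖ0 hr.le)
      nlinarith)
    linarith
  rcases h with h | h
  · rw [kk_comm]; exact key hr' hr h hc.1 hw.2
  · exact key hr hr' h hw.1 hc.2

theorem Shell1_hcs {g : ℂ → ℝ} {R : ℝ} (h : ∀ u, g u ≠ 0 → ‖u‖ ≤ R) : HasCompactSupport g :=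
  HasCompactSupport.intro (isCompact_closedBall (0 : ℂ) R) fun u hu => by
    by_contra h0
    exact hu (mem_closedBall_zero_iff.2 (h u h0))

theorem shell_loc (hρ : ∀ i, 0 < ρ i ∧ ρ i ≤ 1 / 8)
    (hsep : ∀ i i', i ≠ i' → ρ i ≤ ϖ * ρ i' ∨ ρ i' ≤ ϖ * ρ i) (hϖ0 : 0 ≤ ϖ) (hϖ : ϖ ≤ 1 / 4)
    (hν : Continuous ν) (hs : ∀ u, ν u ≠ 0 → 1 ≤ ‖u‖ ∧ ‖u‖ ≤ 2) (hA : ∀ u, |ν u| ≤ A)
    (hM : 0 ≤ M) (hα : ∀ i, |α i| ≤ a) (hy : ∀ i, 1 ≤ ‖y i‖ ∧ ‖y i‖ ≤ 2) (hF : Continuous F)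
    (hE0 : 0 ≤ E) (hE : ∀ i u, ν u ≠ 0 → |F (ρ i * u)| ≤ E) (i : I) {w : ℂ}
    (hw : 1 ≤ ‖w‖ ∧ ‖w‖ ≤ 2) :
    |(∑ i', α i' * kk (ρ i * w) (ρ i' * y i') +
        1 / 2 * ∫ z, kk (ρ i * w) z * (M * (∑ i', scl (ρ i') ν z) * F z)) -
      (α i * kk (ρ i * w) (ρ i * y i) +
        M / 2 * ∫ z, kk (ρ i * w) z * (scl (ρ i) ν z * F z))| ≤
      8 * ϖ * Fintype.card I * a + 52 * ϖ * M * Fintype.card I * A * E := by
  classical
  have hA0 : 0 ≤ A := (abs_nonneg _).trans (hA 0)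
  have ha0 : 0 ≤ a := (abs_nonneg _).trans (hα i)
  have hint : ∀ j, Integrable fun z => kk (ρ i * w) z * (scl (ρ j) ν z * F z) := fun j => by
    refine integrable_kk (((scl_smooth (k := 0) (contDiff_zero.2 hν) _).continuous).mul hF)
      (Shell1_hcs (R := 2) fun u hu => ?_) _
    obtain ⟨v, hv, rfl⟩ := scl_ne (hρ j).1 (left_ne_zero_of_mul hu)
    rw [norm_mul, Complex.norm_real, Real.norm_of_nonneg (hρ j).1.le]
    have := (hs v hv).2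
    have h1 := hρ j
    nlinarith [norm_nonneg v]
  have hνi : Integrable ν :=
    hν.integrable_of_hasCompactSupport (Shell1_hcs (R := 2) fun u hu => (hs u hu).2)
  have e1 : ∫ z, kk (ρ i * w) z * (M * (∑ i', scl (ρ i') ν z) * F z) =
      M * ∑ j, ∫ z, kk (ρ i * w) z * (scl (ρ j) ν z * F z) := by
    rw [← integral_finset_sum _ fun j _ => hint j, ← integral_const_mul]
    congr 1
    funext z
    rw [← Finset.mul_sum, ← Finset.sum_mul]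
    ring
  have b1 : ∀ j ∈ Finset.univ.erase i, |α j * kk (ρ i * w) (ρ j * y j)| ≤ a * (8 * ϖ) :=
    fun j hj => by
      rw [abs_mul]
      exact mul_le_mul (hα j) (Shell1_kk (hρ i).1 (hρ j).1
        (hsep i j (Finset.ne_of_mem_erase hj).symm) hϖ hϖ0 hw (hy j)) (abs_nonneg _) ha0
  have b2 : ∀ j ∈ Finset.univ.erase i,
      |∫ z, kk (ρ i * w) z * (scl (ρ j) ν z * F z)| ≤ 13 * A * (8 * ϖ * E) := fun j hj => by
    have e : ∫ z, kk (ρ i * w) z * (scl (ρ j) ν z * F z) =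
        ∫ u, ν u * (kk (ρ i * w) (ρ j * u) * F (ρ j * u)) := by
      have := integral_scl (hρ j).1 (fun z => kk (ρ i * w) z * F z) ν
      simp only [mul_comm (ν _)]
      rw [← this]
      congr 1
      funext z
      ring
    rw [e]
    refine abs_integral_mul_le hνi (mul_nonneg (by linarith) hE0)
      (integral_abs_le (fun u hu => (hs u hu).2) hA) fun u hu => ?_
    rw [abs_mul]
    exact mul_le_mul (Shell1_kk (hρ i).1 (hρ j).1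
      (hsep i j (Finset.ne_of_mem_erase hj).symm) hϖ hϖ0 hw (hs u hu)) (hE j u hu)
      (abs_nonneg _) (by linarith)
  have hc : ((Finset.univ.erase i).card : ℝ) ≤ Fintype.card I := by
    exact_mod_cast Finset.card_le_univ _
  have c1 := (Finset.abs_sum_le_sum_abs _ _).trans (Finset.sum_le_card_nsmul _ _ _ b1)
  have c2 := (Finset.abs_sum_le_sum_abs _ _).trans (Finset.sum_le_card_nsmul _ _ _ b2)
  rw [nsmul_eq_mul] at c1 c2
  have c1' := c1.trans (mul_le_mul_of_nonneg_right hc (mul_nonneg ha0 (by linarith)))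
  have c2' := c2.trans (mul_le_mul_of_nonneg_right hc
    (mul_nonneg (by linarith) (mul_nonneg (by linarith) hE0)))
  rw [e1, ← Finset.add_sum_erase _ _ (Finset.mem_univ i),
    ← Finset.add_sum_erase _ _ (Finset.mem_univ i)]
  set S1 := ∑ j ∈ Finset.univ.erase i, α j * kk (ρ i * w) (ρ j * y j)
  set S2 := ∑ j ∈ Finset.univ.erase i, ∫ z, kk (ρ i * w) z * (scl (ρ j) ν z * F z)
  have e2 : ∀ p q : ℝ, p + S1 + 1 / 2 * (M * (q + S2)) - (p + M / 2 * q) = S1 + M / 2 * S2 :=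
    fun p q => by ring
  rw [e2]
  refine (abs_add_le _ _).trans ?_
  rw [abs_mul, abs_of_nonneg (by linarith : 0 ≤ M / 2)]
  have := mul_le_mul_of_nonneg_left c2' (by linarith : 0 ≤ M / 2)
  nlinarith

end Pool.Agent.MP_4f0ed6_gt
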