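import Pool.Agent.MP_4f0ed6_gt.SDefs
import Pool.Agent.MP_4f0ed6_gt.Core
import Pool.Agent.MP_4f0ed6_gt.GI

open Set Laplacian Filter Topology MeasureTheory Metric InnerProductSpace
open scoped ContDiff

namespace Pool.Agent.MP_4f0ed6_gt

namespace Plumb

variable {V P : Type} [Fintype V] [Fintype P] {Q : Plumb V P} {β : V → ℂ → ℝ} {Λ : ℝ}

omit [Fintype P] in
theorem Spec_fin (t : V → ℝ) (φ : V × Bool → ℂ → ℝ) :
    ∑ α : V × Bool, ∫ z, t α.1 * fin β α z * φ α z = ∑ v, t v * av β φ v := by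
  rw [Fintype.sum_prod_type]
  refine Finset.sum_congr rfl fun v _ => ?_
  rw [Fintype.sum_bool]
  simp only [fin, av, mul_zero, zero_mul, integral_zero, zero_add, mul_assoc]
  rw [integral_const_mul]

omit [Fintype V] in
theorem Spec_cs_fin (hQ : Q.Ok) (hβ : Q.Bump β Λ) : Q.glue.CS 0 (fin β) :=
  hQ.cs_fin (fun v => (hβ.smooth v).of_le (by simp)) hβ.supp

omit [Fintype V] [Fintype P] in
theorem Spec_sm {φ : V × Bool → ℂ → ℝ} (hφ : ∀ α, ContDiffOn ℝ ∞ (φ α) (Q.W α)) :
    ∀ α, ContDiffOn ℝ 0 (φ α) (Q.glue.W α) := fun α => (hφ α).of_le (by simp)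

omit [Fintype V] in
theorem src_cs (hQ : Q.Ok) (hβ : Q.Bump β Λ) {ν φ : V × Bool → ℂ → ℝ} (hν : Q.glue.CS 0 ν)
    (hφ : ∀ α, ContDiffOn ℝ ∞ (φ α) (Q.W α)) (s : ℝ) (t : V → ℝ) :
    Q.glue.CS 0 (src s ν β t φ) := by
  exact ((hν.const_mul fun _ => -s).mul hQ.glue (Spec_sm hφ)).add
    ((Spec_cs_fin hQ hβ).const_mul fun α => t α.1)

theorem gi_ext (hQ : Q.Ok) (hβ : Q.Bump β Λ) {ν φ ν' φ' ext : V × Bool → ℂ → ℝ} {s s' : ℝ}
    {t t' : V → ℝ} (hν : Q.glue.CS 0 ν) (hν' : Q.glue.CS 0 ν') (hext : Q.glue.CS 0 ext)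
    (h : Q.glue.GSol φ (src s ν β t φ))
    (h' : Q.glue.GSol φ' fun α z => src s' ν' β t' φ' α z + ext α z) :
    ∑ v, t' v * av β φ v - ∑ v, t v * av β φ' v + ∑ α, ∫ z, ext α z * φ α z =
      ∑ α, ∫ z, (s' * ν' α z - s * ν α z) * (φ α z * φ' α z) := by
  have hG := hQ.glue
  have hφ := Spec_sm h.smooth
  have hφ' := Spec_sm h'.smooth
  have key := Glue.green hG h h' (src_cs hQ hβ hν h.smooth s t)
    ((src_cs hQ hβ hν' h'.smooth s' t').add hext)
  have iA := fun α => ((hν.mul hG hφ).mul hG hφ').integrable α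
  have iA' := fun α => ((hν'.mul hG hφ).mul hG hφ').integrable α
  have iB := fun α => (((Spec_cs_fin hQ hβ).const_mul fun α => t α.1).mul hG hφ').integrable α
  have iB' := fun α => (((Spec_cs_fin hQ hβ).const_mul fun α => t' α.1).mul hG hφ).integrable α
  have iE := fun α => (hext.mul hG hφ).integrable α
  have e1 : ∀ α, ∫ z, (src s' ν' β t' φ' α z + ext α z) * φ α z =
      -s' * (∫ z, ν' α z * φ α z * φ' α z) + (∫ z, t' α.1 * fin β α z * φ α z) +
        ∫ z, ext α z * φ α z := by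
    intro α
    have i1 : Integrable fun a => -s' * (ν' α a * φ α a * φ' α a) + t' α.1 * fin β α a * φ α a :=
      ((iA' α).const_mul _).add (iB' α)
    rw [← integral_const_mul, ← integral_add ((iA' α).const_mul _) (iB' α),
      ← integral_add i1 (iE α)]
    refine integral_congr_ae (Eventually.of_forall fun z => ?_)
    simp only [src]
    ring
  have e2 : ∀ α, ∫ z, src s ν β t φ α z * φ' α z =
      -s * (∫ z, ν α z * φ α z * φ' α z) + ∫ z, t α.1 * fin β α z * φ' α z := by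
    intro α
    rw [← integral_const_mul, ← integral_add ((iA α).const_mul _) (iB α)]
    refine integral_congr_ae (Eventually.of_forall fun z => ?_)
    simp only [src]
    ring
  have e3 : ∀ α, ∫ z, (s' * ν' α z - s * ν α z) * (φ α z * φ' α z) =
      s' * (∫ z, ν' α z * φ α z * φ' α z) - s * ∫ z, ν α z * φ α z * φ' α z := by
    intro α
    rw [← integral_const_mul, ← integral_const_mul,
      ← integral_sub ((iA' α).const_mul _) ((iA α).const_mul _)]
    refine integral_congr_ae (Eventually.of_forall fun z => ?_)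
    simp only
    ring
  simp only [e1, e2, Finset.sum_add_distrib, Spec_fin, neg_mul, Finset.sum_neg_distrib] at key
  simp only [e3, Finset.sum_sub_distrib]
  linarith

theorem gi_two (hQ : Q.Ok) (hβ : Q.Bump β Λ) {ν φ ν' φ' : V × Bool → ℂ → ℝ} {s s' : ℝ}
    {t t' : V → ℝ} (hν : Q.glue.CS 0 ν) (hν' : Q.glue.CS 0 ν')
    (h : Q.glue.GSol φ (src s ν β t φ)) (h' : Q.glue.GSol φ' (src s' ν' β t' φ')) :
    ∑ v, t' v * av β φ v - ∑ v, t v * av β φ' v =
      ∑ α, ∫ z, (s' * ν' α z - s * ν α z) * (φ α z * φ' α z) := by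
  have := gi_ext hQ hβ (ext := fun _ _ => 0) hν hν' Glue.CS.zero h (s' := s') (t' := t')
    (φ' := φ') (by simpa using h')
  simpa using this

theorem gi_same (hQ : Q.Ok) (hβ : Q.Bump β Λ) {ν φ φ' : V × Bool → ℂ → ℝ} {s : ℝ}
    {t t' : V → ℝ} (hν : Q.glue.CS 0 ν)
    (h : Q.glue.GSol φ (src s ν β t φ)) (h' : Q.glue.GSol φ' (src s ν β t' φ')) :
    ∑ v, t' v * av β φ v = ∑ v, t v * av β φ' v := by
  have := gi_two hQ hβ hν hν h h'
  simp only [sub_self, zero_mul, integral_zero, Finset.sum_const_zero] at this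
  linarith

theorem gsol_comb (hQ : Q.Ok) (hβ : Q.Bump β Λ) {ν : V × Bool → ℂ → ℝ} {s : ℝ} {ι : Type}
    [Fintype ι] (c : ι → ℝ) {φ : ι → V × Bool → ℂ → ℝ} {t : ι → V → ℝ}
    (h : ∀ i, Q.glue.GSol (φ i) (src s ν β (t i) (φ i))) :
    Q.glue.GSol (fun α z => ∑ i, c i * φ i α z)
        (src s ν β (fun v => ∑ i, c i * t i v) fun α z => ∑ i, c i * φ i α z) ∧
      ∀ v, av β (fun α z => ∑ i, c i * φ i α z) v = ∑ i, c i * av β (φ i) v := by
  have hG := hQ.glue
  refine ⟨?_, fun v => ?_⟩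
  · have := Glue.GSol.sum hG c h
    convert this using 1
    funext α z
    simp only [src, Finset.mul_sum, Finset.sum_mul, ← Finset.sum_add_distrib]
    refine Finset.sum_congr rfl fun i _ => ?_
    ring
  · have hi : ∀ i, Integrable fun w => β v w * φ i (v, false) w := fun i =>
      ((Spec_cs_fin hQ hβ).mul hG (Spec_sm (h i).smooth)).integrable (v, false)
    simp only [av, ← integral_const_mul]
    rw [← integral_finsetSum _ fun i _ => (hi i).const_mul (c i)]
    refine integral_congr_ae (Eventually.of_forall fun z => ?_)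
    simp only [Finset.mul_sum]
    refine Finset.sum_congr rfl fun i _ => ?_
    ring

theorem gsol_rf (hQ : Q.Ok) {ι : V → V} {ιP : P → P} (hS : Q.Sym ι ιP)
    (hβ : ∀ v w, β (ι v) (-w) = β v w) {ν φ : V × Bool → ℂ → ℝ}
    (hν : ∀ α w, ν (ι α.1, α.2) (-w) = ν α w) {s : ℝ} {t : V → ℝ}
    (h : Q.glue.GSol φ (src s ν β t φ)) :
    Q.glue.GSol (rf (fun α => (ι α.1, α.2)) φ)
        (src s ν β (fun v => t (ι v)) (rf (fun α => (ι α.1, α.2)) φ)) ∧
      ∀ v, av β (rf (fun α => (ι α.1, α.2)) φ) v = av β φ (ι v) := by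
  refine ⟨?_, fun v => ?_⟩
  · have := Glue.GSol.rf hQ.glue hS.glue h
    convert this using 1
    funext α z
    obtain ⟨v, b⟩ := α
    have h1 := hν (v, b) z
    simp only at h1
    cases b <;> simp only [src, rf, fin, h1, hβ]
  · simp only [av, rf]
    rw [← integral_neg_eq_self (fun w => β (ι v) w * φ (ι v, false) w) volume]
    simp only [hβ]

theorem Hyp.vanish {μ : V → ℂ → ℝ} {νt : V × Bool → ℂ → ℝ} {δ τ a om κ s : ℝ}
    (h : Q.Hyp β μ νt Λ δ τ a om κ) (hs : s ∈ Icc (0 : ℝ) 1) {f : V × Bool → ℂ → ℝ}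
    (hf : Q.glue.GSol f (src s (tot μ νt) β (fun _ => 0) f)) (h0 : ∀ v, av β f v = 0) :
    ∀ α, ∀ z ∈ Q.W α, f α z = 0 := by
  classical
  intro α0 z0 hz0
  have hG := h.ok.glue
  obtain ⟨ξ, hξ, hc, hsub, h01, h1⟩ := exists_cutoff (isCompact_singleton (x := z0))
    (isOpen_W (Q := Q) α0) (singleton_subset_iff.2 hz0)
  have hξ' : Q.glue.CS ∞ fun b z => if b = α0 then ξ z else 0 := by
    intro b
    by_cases hb : b = α0
    · subst hb
      simp only [if_true]
      exact ⟨hξ, hc, hsub⟩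
    · simp only [hb, if_false]
      exact Glue.CS.zero b
  have hext := hξ'.mul hG hf.smooth
  obtain ⟨φ', t', h'⟩ := h.exists_ext hs hext
  have htot : Q.glue.CS 0 (tot μ νt) := h.tot_cs.of_le (by simp)
  have key := gi_ext h.ok h.bump htot htot (hext.of_le (by simp)) hf h'
  simp only [h0, mul_zero, zero_mul, Finset.sum_const_zero, sub_self, zero_add,
    integral_zero] at key
  rw [Finset.sum_eq_single α0 (fun b _ hb => by simp [hb]) (by simp)] at key
  simp only [if_true] at key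
  have hcs := (hext.mul hG hf.smooth)
  have hcont := (hcs α0).1.continuous
  have hint := hcs.integrable α0
  simp only [if_true] at hcont hint
  have hnn : 0 ≤ fun z => ξ z * f α0 z * f α0 z := fun z => by
    have := (h01 z).1
    simp only [Pi.zero_apply, mul_assoc]
    exact mul_nonneg this (mul_self_nonneg _)
  have hae := (integral_eq_zero_iff_of_nonneg hnn hint).1 key
  have heq := (hcont.ae_eq_iff_eq volume continuous_zero).1 hae
  have := congrFun heq z0
  simp only [h1 z0 rfl, one_mul, Pi.zero_apply] at this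
  exact mul_self_eq_zero.1 this

end Plumb

end Pool.Agent.MP_4f0ed6_gt
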