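import Pool.Agent.MP_4f0ed6_gt.PlGeo
import Pool.Agent.MP_4f0ed6_gt.Laur

open Set Laplacian Filter Topology MeasureTheory Metric InnerProductSpace
open scoped ContDiff

namespace Pool.Agent.MP_4f0ed6_gt

theorem Split_glue {A B : ℂ → ℂ} {ρ R : ℝ} (h : ρ < R)
    (hA : DifferentiableOn ℂ A {w | ρ < ‖w‖}) (hB : ∀ w : ℂ, ‖w‖ < R → DifferentiableAt ℂ B w)
    (he : ∀ w, ρ < ‖w‖ → ‖w‖ < R → A w = B w) (hl : Tendsto A (cocompact ℂ) (𝓝 0)) :
    (∀ w, ρ < ‖w‖ → A w = 0) ∧ ∀ w, ‖w‖ < R → B w = 0 := by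
  classical
  set G : ℂ → ℂ := fun w => if ‖w‖ < R then B w else A w with hG
  have hGA : ∀ w, ρ < ‖w‖ → G w = A w := by
    intro w hw
    by_cases hw' : ‖w‖ < R
    · simp only [hG, if_pos hw']
      exact (he w hw hw').symm
    · simp only [hG, if_neg hw']
  have hoA : IsOpen {w : ℂ | ρ < ‖w‖} := isOpen_lt continuous_const continuous_norm
  have hoB : IsOpen {w : ℂ | ‖w‖ < R} := isOpen_lt continuous_norm continuous_const
  have hGd : Differentiable ℂ G := by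
    intro w
    by_cases hw : ‖w‖ < R
    · refine (hB w hw).congr_of_eventuallyEq ?_
      filter_upwards [hoB.mem_nhds hw] with x hx
      simp only [hG, if_pos (show ‖x‖ < R from hx)]
    · have hw' : ρ < ‖w‖ := by linarith [not_lt.1 hw]
      refine (hA.differentiableAt (hoA.mem_nhds hw')).congr_of_eventuallyEq ?_
      filter_upwards [hoA.mem_nhds hw'] with x hx
      exact hGA x hx
  have hGl : Tendsto G (cocompact ℂ) (𝓝 0) := by
    refine hl.congr' ?_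
    filter_upwards [(tendsto_norm_cocompact_atTop (E := ℂ)).eventually_gt_atTop ρ] with x hx
    exact (hGA x hx).symm
  refine ⟨fun w hw => ?_, fun w hw => ?_⟩
  · rw [← hGA w hw]
    exact hGd.apply_eq_of_tendsto_cocompact w hGl
  · have := hGd.apply_eq_of_tendsto_cocompact w hGl
    simpa only [hG, if_pos hw] using this

namespace Plumb

variable {V P : Type} [Fintype P] {Q : Plumb V P}

/-- simple fraction decomposition of a form -/
structure Splits (Q : Plumb V P) (f : V × Bool → ℂ → ℂ) (A : P → ℂ → ℂ) : Prop where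
  hol : ∀ π, DifferentiableOn ℂ (A π) {w | 3 / 4 * Q.r π < ‖w - Q.c π‖}
  lim : ∀ π, Tendsto (fun w => w * A π w) (cocompact ℂ) (𝓝 (Q.res f π))
  eq : ∀ v (w : ℂ), ‖w‖ < 2 → (∀ π, Q.pc π = v → 3 / 4 * Q.r π < ‖w - Q.c π‖) →
    f (v, false) w = ∑ π ∈ Q.pts v, A π w

theorem Split_far (hQ : Q.Ok) {π π' : P} (hne : π' ≠ π) (hp : Q.pc π' = Q.pc π) {w : ℂ}
    (hw : ‖w - Q.c π‖ < Q.sep / 2) : Q.sep / 2 ≤ ‖w - Q.c π'‖ := by
  have := (hQ.near hne hp hw.le).1
  simpa using this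

theorem Split_port (hQ : Q.Ok) {f : V × Bool → ℂ → ℂ} (hf : f ∈ Q.glue.forms) (π : P) :
    ∃ A B : ℂ → ℂ, DifferentiableOn ℂ A {w | 3 / 4 * Q.r π < ‖w - Q.c π‖} ∧
      DifferentiableOn ℂ B {w | ‖w - Q.c π‖ < Q.sep / 4} ∧
      Tendsto (fun w => w * A w) (cocompact ℂ) (𝓝 (Q.res f π)) ∧
      ∀ w, 3 / 4 * Q.r π < ‖w - Q.c π‖ → ‖w - Q.c π‖ < Q.sep / 4 →
        f (Q.pc π, false) w = A w + B w := by
  have h1 := hQ.r_le' π
  have h2 : 0 < Q.r π := r_pos π
  have h3 := hQ.sep_le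
  refine laurent (ρ₀ := Q.r π / 2) (R₀ := Q.sep / 2) (by linarith) (by linarith) (by linarith)
    (by linarith) (by linarith) (by linarith) ((hf.1 (Q.pc π, false)).mono ?_)
  intro w hw
  refine ⟨?_, fun π' hπ' => ?_⟩
  · have h4 := hQ.c_le π
    have h5 : ‖w‖ ≤ ‖w - Q.c π‖ + ‖Q.c π‖ := by simpa using norm_add_le (w - Q.c π) (Q.c π)
    linarith [hw.2]
  · by_cases he : π' = π
    · rw [he]; exact hw.1
    · have h6 := Split_far hQ he hπ' hw.2
      have h7 := hQ.r_le' π'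
      have h8 : 0 < Q.r π' := r_pos π'
      linarith

omit [Fintype P] in
theorem Split_inf {f : V × Bool → ℂ → ℂ} (hf : f ∈ Q.glue.forms) (v : V) {w : ℂ}
    (h1 : 1 / 2 < ‖w‖) (h2 : ‖w‖ < 2) :
    f (v, false) w = -f (v, true) w⁻¹ / w ^ 2 := by
  have h := hf.2.2 (Sum.inr (v, false)) w ⟨h1, h2⟩
  have h' : f (v, false) w = f (v, true) w⁻¹ * deriv (fun x : ℂ => x⁻¹) w := h
  rw [h', deriv_inv, div_eq_mul_inv]
  ring

theorem Split_main (hQ : Q.Ok) {f : V × Bool → ℂ → ℂ} (hf : f ∈ Q.glue.forms)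
    {A B : P → ℂ → ℂ}
    (hA : ∀ π, DifferentiableOn ℂ (A π) {w | 3 / 4 * Q.r π < ‖w - Q.c π‖})
    (hB : ∀ π, DifferentiableOn ℂ (B π) {w | ‖w - Q.c π‖ < Q.sep / 4})
    (hl : ∀ π, Tendsto (fun w => w * A π w) (cocompact ℂ) (𝓝 (Q.res f π)))
    (he : ∀ π w, 3 / 4 * Q.r π < ‖w - Q.c π‖ → ‖w - Q.c π‖ < Q.sep / 4 →
        f (Q.pc π, false) w = A π w + B π w) (v : V) :
    (∀ w : ℂ, ‖w‖ < 2 → (∀ π, Q.pc π = v → 3 / 4 * Q.r π < ‖w - Q.c π‖) →
      f (v, false) w = ∑ π ∈ Q.pts v, A π w) ∧ ∑ π ∈ Q.pts v, Q.res f π = 0 := by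
  classical
  have hs := hQ.sep_pos
  have hs' := hQ.sep_le
  have hoA : ∀ π, IsOpen {w : ℂ | 3 / 4 * Q.r π < ‖w - Q.c π‖} := fun π =>
    isOpen_lt continuous_const (by fun_prop)
  have hoB : ∀ π, IsOpen {w : ℂ | ‖w - Q.c π‖ < Q.sep / 4} := fun π =>
    isOpen_lt (by fun_prop) continuous_const
  have hAd : ∀ π w, 3 / 4 * Q.r π < ‖w - Q.c π‖ → DifferentiableAt ℂ (A π) w := fun π w hw =>
    (hA π).differentiableAt ((hoA π).mem_nhds hw)
  set I : ℂ → ℂ := fun w => if h : ∃ π, Q.pc π = v ∧ ‖w - Q.c π‖ < Q.sep / 4 then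
    B h.choose w - ∑ π' ∈ (Q.pts v).erase h.choose, A π' w
    else f (v, false) w - ∑ π ∈ Q.pts v, A π w with hI
  set O : ℂ → ℂ := fun w => -f (v, true) w⁻¹ / w ^ 2 - ∑ π ∈ Q.pts v, A π w with hO
  have hI1 : ∀ π, Q.pc π = v → ∀ w, ‖w - Q.c π‖ < Q.sep / 4 →
      I w = B π w - ∑ π' ∈ (Q.pts v).erase π, A π' w := by
    intro π hπ w hw
    have h : ∃ π, Q.pc π = v ∧ ‖w - Q.c π‖ < Q.sep / 4 := ⟨π, hπ, hw⟩
    have hc : h.choose = π := by
      by_contra hne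
      have := Split_far hQ hne (h.choose_spec.1.trans hπ.symm) (w := w) (by linarith)
      linarith [h.choose_spec.2]
    simp only [hI, dif_pos h, hc]
  have hI2 : ∀ w, (∀ π, Q.pc π = v → 3 / 4 * Q.r π < ‖w - Q.c π‖) →
      I w = f (v, false) w - ∑ π ∈ Q.pts v, A π w := by
    intro w hw
    by_cases h : ∃ π, Q.pc π = v ∧ ‖w - Q.c π‖ < Q.sep / 4
    · obtain ⟨π, hπ, hπw⟩ := h
      rw [hI1 π hπ w hπw, ← Finset.add_sum_erase _ _ (mem_pts.2 hπ), ← hπ,
        he π w (hw π hπ) hπw]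
      ring
    · simp only [hI, dif_neg h]
  have hbig : ∀ w : ℂ, 1 / 2 < ‖w‖ → ∀ π, 3 / 4 * Q.r π < ‖w - Q.c π‖ := by
    intro w hw π
    have h4 := hQ.c_le π
    have h5 : ‖w‖ ≤ ‖w - Q.c π‖ + ‖Q.c π‖ := by simpa using norm_add_le (w - Q.c π) (Q.c π)
    have h7 := hQ.r_le' π
    have h8 : 0 < Q.r π := r_pos π
    linarith
  have hF1 : ∀ w : ℂ, ‖w‖ < 2 → DifferentiableAt ℂ (f (v, true)) w := fun w hw =>
    (hf.1 (v, true)).differentiableAt ((isOpen_W (Q := Q) (v, true)).mem_nhds hw)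
  have hn : Tendsto (fun w : ℂ => ‖w‖) (cocompact ℂ) atTop := tendsto_norm_cocompact_atTop (E := ℂ)
  have hi : Tendsto (fun w : ℂ => w⁻¹) (cocompact ℂ) (𝓝 0) := by
    rw [tendsto_zero_iff_norm_tendsto_zero]
    simp only [norm_inv]
    exact hn.inv_tendsto_atTop
  have hlim : Tendsto (fun w => w * O w) (cocompact ℂ) (𝓝 (-∑ π ∈ Q.pts v, Q.res f π)) := by
    have h1 : Tendsto (fun w : ℂ => f (v, true) w⁻¹) (cocompact ℂ) (𝓝 (f (v, true) 0)) :=
      ((hF1 0 (by simp)).continuousAt.tendsto).comp hi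
    have h2 := (h1.neg.mul hi).sub (tendsto_finsetSum (Q.pts v) fun π _ => hl π)
    rw [mul_zero, zero_sub] at h2
    refine h2.congr' ?_
    filter_upwards [hn.eventually_gt_atTop 0] with w hw
    have : w ≠ 0 := norm_pos_iff.1 hw
    simp only [hO, mul_sub, Finset.mul_sum]
    congr 1
    field_simp
  have key := Split_glue (A := O) (B := I) (ρ := 1 / 2) (R := 2) (by norm_num) ?_ ?_ ?_
    (tendsto_zero_of_mul hlim)
  · refine ⟨fun w hw hw' => ?_, ?_⟩
    · have := key.2 w hw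
      rw [hI2 w hw'] at this
      exact sub_eq_zero.1 this
    · have h0 : Tendsto (fun w => w * O w) (cocompact ℂ) (𝓝 0) := by
        refine tendsto_const_nhds.congr' ?_
        filter_upwards [hn.eventually_gt_atTop (1 / 2)] with w hw
        rw [key.1 w hw, mul_zero]
      exact neg_eq_zero.1 (tendsto_nhds_unique hlim h0)
  · intro w hw
    have hw' : 1 / 2 < ‖w‖ := hw
    have hw0 : w ≠ 0 := norm_pos_iff.1 (by linarith)
    have hw2 : ‖w⁻¹‖ < 2 := by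
      rw [norm_inv]
      exact inv_lt_of_inv_lt₀ (by norm_num) (by linarith)
    refine DifferentiableAt.differentiableWithinAt ?_
    refine DifferentiableAt.sub (DifferentiableAt.div (DifferentiableAt.neg ?_) (by fun_prop)
      (pow_ne_zero 2 hw0)) (DifferentiableAt.fun_sum fun π _ => hAd π w (hbig w hw' π))
    exact (hF1 _ hw2).comp w (differentiableAt_inv hw0)
  · intro w hw
    by_cases h : ∃ π, Q.pc π = v ∧ ‖w - Q.c π‖ < Q.sep / 4
    · obtain ⟨π, hπ, hπw⟩ := h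
      have hd : DifferentiableAt ℂ (fun w => B π w - ∑ π' ∈ (Q.pts v).erase π, A π' w) w := by
        refine ((hB π).differentiableAt ((hoB π).mem_nhds hπw)).sub
          (DifferentiableAt.fun_sum fun π' hπ' => hAd π' w ?_)
        have h1 := Finset.mem_erase.1 hπ'
        have h6 := Split_far hQ h1.1 ((mem_pts.1 h1.2).trans hπ.symm) (w := w) (by linarith)
        have h7 := hQ.r_le' π'
        have h8 : 0 < Q.r π' := r_pos π'
        linarith
      refine hd.congr_of_eventuallyEq ?_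
      filter_upwards [(hoB π).mem_nhds hπw] with x hx
      exact hI1 π hπ x hx
    · have hw' : ∀ π, Q.pc π = v → 3 / 4 * Q.r π < ‖w - Q.c π‖ := by
        intro π hπ
        have h6 : Q.sep / 4 ≤ ‖w - Q.c π‖ := not_lt.1 fun hh => h ⟨π, hπ, hh⟩
        have h7 := hQ.r_le' π
        have h8 : 0 < Q.r π := r_pos π
        linarith
      have hW : w ∈ Q.W (v, false) := by
        refine ⟨hw, fun π hπ => ?_⟩
        have h8 : 0 < Q.r π := r_pos π
        linarith [hw' π hπ]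
      have hd : DifferentiableAt ℂ (fun w => f (v, false) w - ∑ π ∈ Q.pts v, A π w) w :=
        ((hf.1 (v, false)).differentiableAt ((isOpen_W (Q := Q) (v, false)).mem_nhds hW)).sub
          (DifferentiableAt.fun_sum fun π hπ => hAd π w (hw' π (mem_pts.1 hπ)))
      refine hd.congr_of_eventuallyEq ?_
      have hev : ∀ᶠ x in 𝓝 w, ∀ π ∈ Q.pts v, 3 / 4 * Q.r π < ‖x - Q.c π‖ :=
        (Filter.eventually_all_finset _).2 fun π hπ => (hoA π).mem_nhds (hw' π (mem_pts.1 hπ))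
      filter_upwards [hev] with x hx
      exact hI2 x fun π hπ => hx π (mem_pts.2 hπ)
  · intro w h1 h2
    rw [hI2 w fun π _ => hbig w h1 π, Split_inf hf v h1 h2]

theorem exists_splits (hQ : Q.Ok) {f : V × Bool → ℂ → ℂ} (hf : f ∈ Q.glue.forms) :
    (∃ A, Q.Splits f A) ∧ ∀ v, ∑ π ∈ Q.pts v, Q.res f π = 0 := by
  choose A B hA hB hl he using Split_port hQ hf
  exact ⟨⟨A, hA, hl, fun v => (Split_main hQ hf hA hB hl he v).1⟩,
    fun v => (Split_main hQ hf hA hB hl he v).2⟩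

end Plumb

end Pool.Agent.MP_4f0ed6_gt
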