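import Pool.Agent.MP_4f0ed6_gt.Fam

open Set Laplacian Filter Topology MeasureTheory Metric InnerProductSpace
open scoped ContDiff

namespace Pool.Agent.MP_4f0ed6_gt

lemma Trans_det (c : ℂ) : |(c • (1 : ℂ →L[ℝ] ℂ)).det| = ‖c‖ ^ 2 := by
  have : (c • (1 : ℂ →L[ℝ] ℂ)).det = ‖c‖ ^ 2 := by
    rw [ContinuousLinearMap.det, ← LinearMap.det_toMatrix Complex.basisOneI, Matrix.det_fin_two,
      Complex.sq_norm, Complex.normSq_apply]
    simp [LinearMap.toMatrix_apply]
  rw [this, abs_of_nonneg (by positivity)]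

section
variable {A K : Type} {G : Glue A K}

lemma Trans_image (hG : G.Ok) (κ : K) : G.τ κ '' G.O κ = G.O (G.σ κ) := by
  refine Subset.antisymm (image_subset_iff.2 fun z hz => hG.maps κ z hz) fun w hw => ?_
  have h1 := hG.maps _ w hw
  have h2 := hG.inv _ w hw
  rw [hG.σσ] at h1 h2
  exact ⟨_, h1, h2⟩

lemma Trans_change (hG : G.Ok) (κ : K) {F : ℂ → ℝ} (hF : IntegrableOn F (G.O (G.σ κ))) :
    IntegrableOn (fun z => ‖deriv (G.τ κ) z‖ ^ 2 * F (G.τ κ z)) (G.O κ) ∧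
      ∫ z in G.O κ, ‖deriv (G.τ κ) z‖ ^ 2 * F (G.τ κ z) = ∫ w in G.O (G.σ κ), F w := by
  have hm := (hG.O_open κ).measurableSet
  have hd : ∀ z ∈ G.O κ, HasFDerivWithinAt (G.τ κ) (deriv (G.τ κ) z • (1 : ℂ →L[ℝ] ℂ))
      (G.O κ) z := fun z hz =>
    (hG.analytic hz).differentiableAt.hasDerivAt.complexToReal_fderiv.hasFDerivWithinAt
  have hi : InjOn (G.τ κ) (G.O κ) := fun z hz w hw e => by
    rw [← hG.inv κ z hz, e, hG.inv κ w hw]
  have h1 := integrableOn_image_iff_integrableOn_abs_det_fderiv_smul volume hm hd hi F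
  have h2 := integral_image_eq_integral_abs_det_fderiv_smul volume hm hd hi F
  simp only [Trans_det, Trans_image hG, smul_eq_mul] at h1 h2
  exact ⟨h1.1 hF, h2.symm⟩

lemma Trans_bdd {χ : A → ℂ → ℝ} (hχ : G.CS 0 χ) (α : A) : ∃ B, ∀ z, ‖χ α z‖ ≤ B :=
  (hχ α).1.continuous.bounded_above_of_compact_support (hχ α).2.1

lemma Trans_int (hG : G.Ok) {χ h : A → ℂ → ℝ} (hχ : G.CS 0 χ) (hh : G.CS 0 h) (κ : K) :
    IntegrableOn (fun z => h (G.ch κ) z * χ (G.ch (G.σ κ)) (G.τ κ z)) (G.O κ) := by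
  obtain ⟨B, hB⟩ := Trans_bdd hχ (G.ch (G.σ κ))
  refine Integrable.mul_bdd (hh.integrable _).integrableOn ?_ (Eventually.of_forall fun z => hB _)
  exact ((hχ _).1.continuous.comp_continuousOn (hG.hol κ).continuousOn).aestronglyMeasurable
    (hG.O_open κ).measurableSet

open Classical in
lemma Trans_sum [Fintype A] [Fintype K] (hG : G.Ok) {u : A → ℂ → ℝ} {F : K → ℂ → ℝ}
    (hu : ∀ α, Integrable (u α)) (hF : ∀ κ, IntegrableOn (F κ) (G.O κ)) :
    ∑ α, ∫ z, (u α z + ∑ κ, if G.ch κ = α ∧ z ∈ G.O κ then F κ z else 0) =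
      ∑ α, (∫ z, u α z) + ∑ κ, ∫ z in G.O κ, F κ z := by
  have e : ∀ α κ, (fun z => if G.ch κ = α ∧ z ∈ G.O κ then F κ z else 0) =
      if G.ch κ = α then (G.O κ).indicator (F κ) else 0 := by
    intro α κ
    funext z
    by_cases h : G.ch κ = α <;> simp [h, indicator_apply]
  have hi : ∀ α κ, Integrable fun z => if G.ch κ = α ∧ z ∈ G.O κ then F κ z else 0 := by
    intro α κ
    rw [e]
    split_ifs
    · exact (integrable_indicator_iff (hG.O_open κ).measurableSet).2 (hF κ)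
    · exact integrable_zero _ _ _
  have h2 : ∀ α κ, ∫ z, (if G.ch κ = α ∧ z ∈ G.O κ then F κ z else 0) =
      if G.ch κ = α then ∫ z in G.O κ, F κ z else 0 := by
    intro α κ
    rw [e]
    split_ifs
    · exact integral_indicator (hG.O_open κ).measurableSet
    · simp
  have h3 : ∀ α, ∫ z, (u α z + ∑ κ, if G.ch κ = α ∧ z ∈ G.O κ then F κ z else 0) =
      (∫ z, u α z) + ∑ κ, if G.ch κ = α then ∫ z in G.O κ, F κ z else 0 := by
    intro α
    rw [integral_add (hu α) (integrable_finsetSum _ fun κ _ => hi α κ),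
      integral_finsetSum _ fun κ _ => hi α κ]
    simp only [h2]
  simp only [h3]
  rw [Finset.sum_add_distrib, Finset.sum_comm]
  simp

end

theorem Glue.transport {A K : Type} [Fintype A] [Fintype K] {G : Glue A K} (hG : G.Ok)
    {χ h : A → ℂ → ℝ} (hχ : G.CS 0 χ) (hh : G.CS 0 h)
    (h1 : ∀ α, ∀ z ∈ G.W α, G.gf χ α z = 1) :
    ∑ α, ∫ z, χ α z * G.gd h α z = ∑ α, ∫ z, h α z := by
  classical
  have hu : ∀ α, Integrable fun z => h α z * χ α z := by
    intro α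
    obtain ⟨B, hB⟩ := Trans_bdd hχ α
    exact (hh.integrable α).mul_bdd (hχ α).1.continuous.aestronglyMeasurable
      (Eventually.of_forall hB)
  have hJ := Trans_int hG hχ hh
  have hI := fun κ => Trans_change hG κ (hJ (G.σ κ))
  have e1 : ∀ α z, χ α z * G.gd h α z = h α z * χ α z +
      ∑ κ, if G.ch κ = α ∧ z ∈ G.O κ then ‖deriv (G.τ κ) z‖ ^ 2 *
        (h (G.ch (G.σ κ)) (G.τ κ z) * χ (G.ch (G.σ (G.σ κ))) (G.τ (G.σ κ) (G.τ κ z))) else 0 := by
    intro α z
    rw [Glue.gd, mul_add, mul_comm, Finset.mul_sum]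
    congr 1
    refine Finset.sum_congr rfl fun κ _ => ?_
    split_ifs with hc
    · rw [hG.inv κ z hc.2, hG.σσ, hc.1]
      ring
    · exact mul_zero _
  have e2 : ∀ α z, h α z = h α z * χ α z +
      ∑ κ, if G.ch κ = α ∧ z ∈ G.O κ then h (G.ch κ) z * χ (G.ch (G.σ κ)) (G.τ κ z) else 0 := by
    intro α z
    have e3 : h α z = h α z * G.gf χ α z := by
      by_cases hz : z ∈ G.W α
      · rw [h1 α z hz, mul_one]
      · rw [hh.eq_zero hz, zero_mul]
    rw [Glue.gf, mul_add, Finset.mul_sum] at e3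
    refine e3.trans ?_
    congr 1
    refine Finset.sum_congr rfl fun κ _ => ?_
    split_ifs with hc
    · rw [hc.1]
    · exact mul_zero _
  have s1 := Trans_sum hG hu fun κ => (hI κ).1
  have s2 := Trans_sum hG hu hJ
  simp only [← e1] at s1
  simp only [← e2] at s2
  rw [s1, s2]
  congr 1
  simp only [fun κ => (hI κ).2]
  exact Equiv.sum_comp (Function.Involutive.toPerm G.σ hG.σσ)
    fun κ => ∫ z in G.O κ, h (G.ch κ) z * χ (G.ch (G.σ κ)) (G.τ κ z)

end Pool.Agent.MP_4f0ed6_gt
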