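import Pool.Agent.MP_4f0ed6_gt.Split

open Set Laplacian Filter Topology MeasureTheory Metric InnerProductSpace
open scoped ContDiff

namespace Pool.Agent.MP_4f0ed6_gt

theorem Tube_add (c : ℂ) : Tendsto (fun x : ℂ => c + x) (cocompact ℂ) (cocompact ℂ) :=
  (Homeomorph.addLeft c).isClosedEmbedding.tendsto_cocompact

theorem Tube_inv : Tendsto (fun x : ℂ => x⁻¹) (cocompact ℂ) (𝓝 0) := by
  rw [← Metric.cobounded_eq_cocompact]; exact tendsto_inv₀_cobounded

theorem Tube_div {e : ℂ} (he : e ≠ 0) (c : ℂ) :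
    Tendsto (fun x : ℂ => c + e / x) (𝓝[≠] 0) (cocompact ℂ) := by
  refine (Tube_add c).comp ?_
  rw [← Metric.cobounded_eq_cocompact]
  exact ((tendsto_mul_left_cobounded he).comp tendsto_inv₀_nhdsNE_zero).congr
    fun x => (div_eq_mul_inv e x).symm

theorem Tube_norm {r : ℝ} (hr : 0 < r) {e x : ℂ} (he : ‖e‖ = r ^ 2) (hx : x ≠ 0) :
    (‖x‖ < 4 / 3 * r → 3 / 4 * r < ‖e / x‖) ∧ (3 / 4 * r < ‖x‖ → ‖e / x‖ < 4 / 3 * r) := by
  have h0 : 0 < ‖x‖ := norm_pos_iff.2 hx
  rw [norm_div, he, lt_div_iff₀ h0, div_lt_iff₀ h0]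
  constructor <;> intro h <;> nlinarith

open Classical in
theorem Tube_in {V P : Type} [Fintype P] {Q : Plumb V P} (hQ : Q.Ok)
    {f : V × Bool → ℂ → ℂ} {A : P → ℂ → ℂ} (hA : Q.Splits f A) (π : P) :
    DifferentiableOn ℂ (fun x => ∑ π' ∈ (Q.pts (Q.pc π)).erase π, A π' (Q.c π + x))
      {x | ‖x‖ < 4 / 3 * Q.r π} ∧
    ∀ x : ℂ, 3 / 4 * Q.r π < ‖x‖ → ‖x‖ < 4 / 3 * Q.r π → f (Q.pc π, false) (Q.c π + x) =
      A π (Q.c π + x) + ∑ π' ∈ (Q.pts (Q.pc π)).erase π, A π' (Q.c π + x) := by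
  have hr := Plumb.r_pos (Q := Q) π
  have hs := hQ.r_le' π
  have key : ∀ π', π' ≠ π → Q.pc π' = Q.pc π → ∀ x : ℂ, ‖x‖ < 4 / 3 * Q.r π →
      3 / 4 * Q.r π' < ‖Q.c π + x - Q.c π'‖ := fun π' hne hp x hx => by
    have h1 := (hQ.near hne hp (x := x) (by linarith)).1
    have h2 := hQ.r_le' π'
    have h3 := Plumb.r_pos (Q := Q) π'
    linarith
  refine ⟨DifferentiableOn.fun_sum fun π' hπ' => ?_, fun x h1 h2 => ?_⟩
  · rw [Finset.mem_erase, Plumb.mem_pts] at hπ'
    exact (hA.hol π').comp (by fun_prop) fun x hx => key π' hπ'.1 hπ'.2 x hx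
  · rw [hA.eq, Finset.add_sum_erase _ (fun π' => A π' (Q.c π + x)) (Plumb.mem_pts.2 rfl)]
    · have := norm_add_le (Q.c π) x
      have := hQ.c_le π
      have := hQ.sep_le
      linarith
    · intro π' hp
      by_cases hne : π' = π
      · subst hne; simpa using h1
      · exact key π' hne hp x h2

open Classical in
theorem Plumb.Splits.tube {V P : Type} [Fintype P] {Q : Plumb V P} (hQ : Q.Ok)
    {f : V × Bool → ℂ → ℂ} (hf : f ∈ Q.glue.forms) {A : P → ℂ → ℂ} (hA : Q.Splits f A) (π : P) :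
    Q.res f (Q.σ π) = -Q.res f π ∧ ∀ x : ℂ, 3 / 4 * Q.r π < ‖x‖ →
      A π (Q.c π + x) = Q.res f π / x - Q.ε π / x ^ 2 *
        ∑ π' ∈ (Q.pts (Q.pc (Q.σ π))).erase (Q.σ π), A π' (Q.c (Q.σ π) + Q.ε π / x) := by
  have hr := Plumb.r_pos (Q := Q) π
  have hε := Plumb.norm_ε (Q := Q) π
  have hε0 : Q.ε π ≠ 0 := by rw [← norm_pos_iff, hε]; positivity
  obtain ⟨I0, J0⟩ := Tube_in hQ hA π
  obtain ⟨I1, J1⟩ := Tube_in hQ hA (Q.σ π)
  have H1 := hA.hol (Q.σ π)
  rw [hQ.r_σ] at I1 J1 H1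
  set In0 := fun x => ∑ π' ∈ (Q.pts (Q.pc π)).erase π, A π' (Q.c π + x) with hIn0
  set In1 := fun x => ∑ π' ∈ (Q.pts (Q.pc (Q.σ π))).erase (Q.σ π), A π' (Q.c (Q.σ π) + x)
    with hIn1
  set S : ℂ → ℂ := Function.update (fun x => Q.ε π / x * A (Q.σ π) (Q.c (Q.σ π) + Q.ε π / x)) 0
    (Q.res f (Q.σ π)) with hS
  have S0 : S 0 = Q.res f (Q.σ π) := Function.update_self ..
  have S1 : ∀ x ≠ 0, S x = Q.ε π / x * A (Q.σ π) (Q.c (Q.σ π) + Q.ε π / x) :=
    fun x hx => Function.update_of_ne hx ..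
  have hball : {x : ℂ | ‖x‖ < 4 / 3 * Q.r π} ∈ 𝓝 (0 : ℂ) :=
    (isOpen_lt continuous_norm continuous_const).mem_nhds (by simp [hr])
  have Sd : DifferentiableOn ℂ S {x | ‖x‖ < 4 / 3 * Q.r π} := by
    rw [← Complex.differentiableOn_compl_singleton_and_continuousAt_iff hball]
    constructor
    · have hd : DifferentiableOn ℂ (fun x => Q.ε π / x) ({x | ‖x‖ < 4 / 3 * Q.r π} \ {0}) :=
        (differentiableOn_const _).div differentiableOn_id fun x hx => hx.2
      refine (hd.mul (H1.comp (hd.const_add (Q.c (Q.σ π))) fun x hx => ?_)).congr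
        fun x hx => S1 x hx.2
      simpa using (Tube_norm hr hε hx.2).1 hx.1
    · rw [hS, continuousAt_update_same]
      have t1 := (hA.lim (Q.σ π)).comp (Tube_div hε0 (Q.c (Q.σ π)))
      have t2 := (tendsto_zero_of_mul (hA.lim (Q.σ π))).comp (Tube_div hε0 (Q.c (Q.σ π)))
      have t3 := t1.sub (t2.const_mul (Q.c (Q.σ π)))
      rw [mul_zero, sub_zero] at t3
      refine t3.congr fun x => ?_
      simp only [Function.comp]
      ring
  have hx0 : ∀ x : ℂ, 3 / 4 * Q.r π < ‖x‖ → x ≠ 0 := fun x hx h0 => by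
    rw [h0, norm_zero] at hx; linarith
  have T1 : Tendsto (fun x => In1 (Q.ε π / x)) (cocompact ℂ) (𝓝 (In1 0)) := by
    refine (I1.differentiableAt hball).continuousAt.tendsto.comp ?_
    have := Tube_inv.const_mul (Q.ε π)
    rw [mul_zero] at this
    exact this.congr fun x => (div_eq_mul_inv _ x).symm
  have hG : ∀ x : ℂ, 3 / 4 * Q.r π < ‖x‖ →
      A π (Q.c π + x) + Q.ε π / x ^ 2 * In1 (Q.ε π / x) + S 0 / x = 0 := by
    refine liouville_glue (A := fun x => A π (Q.c π + x) + Q.ε π / x ^ 2 * In1 (Q.ε π / x) +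
      S 0 / x) (B := fun x => -In0 x - dslope S 0 x) (R := 4 / 3 * Q.r π) (by linarith) ?_
      (I0.neg.sub ((Complex.differentiableOn_dslope hball).2 Sd)) (fun x h1 h2 => ?_) ?_
    · have hd : DifferentiableOn ℂ (fun x => A π (Q.c π + x)) {x | 3 / 4 * Q.r π < ‖x‖} :=
        (hA.hol π).comp (by fun_prop) fun x hx => by simpa using hx
      refine (hd.add
        (((differentiableOn_const _).div (differentiableOn_id.pow 2)
          fun x hx => pow_ne_zero 2 (hx0 x hx)).mul (I1.comp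
          ((differentiableOn_const _).div differentiableOn_id hx0)
          fun x hx => (Tube_norm hr hε (hx0 x hx)).2 hx))).add
        ((differentiableOn_const _).div differentiableOn_id hx0)
    · have x0 := hx0 x h1
      have e1 := hf.2.2 (.inl π) (Q.c π + x) (by
        change Q.r π / 2 < ‖Q.c π + x - Q.c π‖ ∧ ‖Q.c π + x - Q.c π‖ < 2 * Q.r π
        rw [add_sub_cancel_left]
        constructor <;> linarith)
      change f (Q.pc π, false) (Q.c π + x) =
        f (Q.pc (Q.σ π), false) (Q.c (Q.σ π) + Q.ε π / (Q.c π + x - Q.c π)) *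
          deriv (fun w => Q.c (Q.σ π) + Q.ε π / (w - Q.c π)) (Q.c π + x) at e1
      have hd : HasDerivAt (fun w => Q.c (Q.σ π) + Q.ε π / (w - Q.c π)) (-(Q.ε π / x ^ 2))
          (Q.c π + x) := by
        have := ((hasDerivAt_const (Q.c π + x) (Q.ε π)).div
          ((hasDerivAt_id (Q.c π + x)).sub_const (Q.c π)) (by simpa using x0)).const_add
          (Q.c (Q.σ π))
        refine this.congr_deriv ?_
        simp [neg_div]
      rw [hd.deriv, add_sub_cancel_left, J0 x h1 h2,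
        J1 _ ((Tube_norm hr hε x0).1 h2) ((Tube_norm hr hε x0).2 h1)] at e1
      rw [dslope_of_ne _ x0, slope_def_field, S1 x x0, sub_zero]
      simp only [hIn0, hIn1]
      rw [eq_sub_of_add_eq e1]
      field_simp
      ring
    · have t1 := (tendsto_zero_of_mul (hA.lim π)).comp (Tube_add (Q.c π))
      have t2 := (((Tube_inv.pow 2).const_mul (Q.ε π)).mul T1)
      have t3 := (t1.add t2).add (Tube_inv.const_mul (S 0))
      simp only [ne_eq, OfNat.ofNat_ne_zero, not_false_eq_true, zero_pow, mul_zero, zero_mul,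
        add_zero] at t3
      refine t3.congr fun x => ?_
      simp only [Function.comp, div_eq_mul_inv, inv_pow]
  have hres : Q.res f π = -S 0 := by
    have t1 := (hA.lim π).comp (Tube_add (Q.c π))
    have t2 := ((((Tube_inv.const_mul (Q.c π)).add_const 1).mul
      (((Tube_inv.const_mul (Q.ε π)).mul T1).add_const (S 0)))).neg
    simp only [mul_zero, zero_mul, zero_add, one_mul] at t2
    refine tendsto_nhds_unique t1 (t2.congr' ?_)
    have hev : ∀ᶠ x : ℂ in cocompact ℂ, 3 / 4 * Q.r π < ‖x‖ :=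
      (tendsto_norm_cocompact_atTop (E := ℂ)).eventually (eventually_gt_atTop _)
    filter_upwards [hev] with x hx
    have x0 := hx0 x hx
    have := hG x hx
    simp only [Function.comp]
    rw [show A π (Q.c π + x) = -(Q.ε π / x ^ 2 * In1 (Q.ε π / x) + S 0 / x) by
      linear_combination this]
    field_simp
  refine ⟨by rw [hres, neg_neg, S0], fun x hx => ?_⟩
  rw [hres]
  linear_combination hG x hx

end Pool.Agent.MP_4f0ed6_gt
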