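import Pool.Agent.MP_4f0ed6_gt.Sec

open Set Laplacian Filter Topology MeasureTheory Metric InnerProductSpace
open scoped ContDiff

namespace Pool.Agent.MP_4f0ed6_gt

namespace Fx

variable {h nT nx : ℕ} {S : Fx h nT nx}

theorem YSum_model (η : ℝ) (d' : DD h) (w : ℂ) (j : Fin h) :
    ∑ v : DD h × Bool, ed d' (some v) * kk w (S.c η (.inl (v, j, true))) =
      2 * kk w (S.cY η j d') := by
  classical
  rw [Fintype.sum_prod_type, Finset.sum_eq_single d']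
  · simp only [ed, c, sg, Fintype.sum_bool, if_true]
    push_cast
    rw [one_mul, one_mul, neg_one_mul (S.cY η j d'), kk_neg]
    ring
  · intro d _ hd
    simp [ed, hd]
  · intro hd
    exact absurd (Finset.mem_univ _) hd

theorem YSum_num {η C a x K : ℝ} (h0 : 0 < η) (h1 : η ≤ 1) (hC : 0 ≤ C) (ha0 : 0 < a)
    (ha : a ≤ S.aa η) (hx : |x| ≤ 2 * (C * (S.aa η / η))) (hK : |K| ≤ 2 * η⁻¹) :
    |a * x * K| ≤ 4 * C * (η ^ (6 * h) * S.aa η) := by
  have hA : 0 < S.aa η := ha0.trans_le ha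
  have e : S.aa η * (2 * (C * (S.aa η / η))) * (2 * η⁻¹) =
      4 * C * (η ^ (6 * h) * S.aa η) * η ^ 2 := by
    rw [aa]
    field_simp
    ring
  have h2 : η ^ 2 ≤ 1 := pow_le_one₀ h0.le h1
  rw [abs_mul, abs_mul, abs_of_pos ha0]
  calc a * |x| * |K| ≤ S.aa η * (2 * (C * (S.aa η / η))) * (2 * η⁻¹) := by gcongr
    _ ≤ 4 * C * (η ^ (6 * h) * S.aa η) * 1 := by rw [e]; gcongr
    _ = _ := mul_one _

theorem Ok.ysum (hS : S.Ok) : ∃ C : ℝ, 0 ≤ C ∧ ∀ᶠ η : ℝ in 𝓝[>] 0, ∀ p ∈ cube (DD h), ∀ d',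
    ∀ (ρ : S.Rp η p 1 1 (ed d')) (w : ℂ), (∀ π, S.pc π = none → |kk w (S.c η π)| ≤ 2 * η⁻¹) →
      |1 / 2 * ∑ π ∈ (S.Q η).pts none, ρ.b π * kk w (S.c η π) +
        ∑ j, S.aj η j * kk w (S.cY η j d')| ≤ C * (η ^ (6 * h) * S.aa η) := by
  obtain ⟨C, hC, hb⟩ := hS.bnd
  refine ⟨Fintype.card (DD h × Bool) * h * (2 * C), by positivity, ?_⟩
  filter_upwards [hb, ev_small one_pos] with η hb ⟨h0, h1⟩ p hp d' ρ w hw
  obtain ⟨-, b1, -, b2⟩ := hb p hp 1 ⟨zero_le_one, le_rfl⟩ 1 (ed d') (abs_ed_le d') ρ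
  have key : ∀ (v : DD h × Bool) (j : Fin h),
      |(ρ.b (.inl (v, j, true)) + S.aj η j * ed d' (some v)) * kk w (S.c η (.inl (v, j, true)))| ≤
        4 * C * (η ^ (6 * h) * S.aa η) := by
    intro v j
    have e1 : ρ.b (.inl (v, j, true)) =
        S.aj η j * (ρ.R (.inl (v, j, true)) - ρ.R (.inl (v, j, false))) :=
      (S.b_eq h0 ρ (.inl (v, j, true))).1
    have c1 := b1 v (.inl (v, j, false)) rfl
    have c2 := b2 (.inl (v, j, true)) rfl
    have e0 : ed d' none = 0 := rfl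
    rw [e0, sub_zero, abs_zero, mul_zero, add_zero, mul_one] at c2
    rw [mul_one] at c1
    rw [e1, ← mul_add]
    refine YSum_num h0 h1 hC (S.aj_pos h0 j) (S.aj_le h0 h1 j) ?_ (hw _ rfl)
    rw [abs_le] at c1 c2 ⊢
    constructor <;> linarith [c1.1, c1.2, c2.1, c2.2]
  have e : 1 / 2 * ∑ π ∈ (S.Q η).pts none, ρ.b π * kk w (S.c η π) +
      ∑ j, S.aj η j * kk w (S.cY η j d') = 1 / 2 * ∑ v : DD h × Bool, ∑ j : Fin h,
        (ρ.b (.inl (v, j, true)) + S.aj η j * ed d' (some v)) *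
          kk w (S.c η (.inl (v, j, true))) := by
    rw [S.sum_pts_none]
    simp only [add_mul, Finset.sum_add_distrib, mul_add]
    congr 1
    rw [Finset.sum_comm, Finset.mul_sum]
    refine Finset.sum_congr rfl fun j _ => ?_
    simp only [mul_assoc]
    rw [← Finset.mul_sum, YSum_model]
    ring
  rw [e, abs_mul, abs_of_pos (by norm_num : (0 : ℝ) < 1 / 2)]
  have hs : |∑ v : DD h × Bool, ∑ j : Fin h,
      (ρ.b (.inl (v, j, true)) + S.aj η j * ed d' (some v)) * kk w (S.c η (.inl (v, j, true)))| ≤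
      ∑ _v : DD h × Bool, ∑ _j : Fin h, 4 * C * (η ^ (6 * h) * S.aa η) :=
    (Finset.abs_sum_le_sum_abs _ _).trans (Finset.sum_le_sum fun v _ =>
      (Finset.abs_sum_le_sum_abs _ _).trans (Finset.sum_le_sum fun j _ => key v j))
  simp only [Finset.sum_const, Finset.card_univ, Fintype.card_fin, nsmul_eq_mul] at hs
  linarith

end Fx

end Pool.Agent.MP_4f0ed6_gt
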